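import Pool.Agent.Work.MP_552024_lc.Two.StmtsB

/-!
The Euler characteristic is invariant under elementary subdivisions. MP_552024_lc, dimension at
most three.
-/

set_option autoImplicit false

namespace Pool.Agent.MP552024

open Classical in
/-- the alternating sum over all faces (with the empty face) -/
noncomputable def eulE {W : Type} [Fintype W] (N : Cx W) : ℤ :=
  ∑ s : Finset W, if N.face ↑s then (-1 : ℤ) ^ s.card else 0

theorem chiC_eq_eulE {W : Type} [Fintype W] (N : Cx W) : chiC N = 1 - eulE N := by
  classical
  have h : chiC N + eulE N = ∑ s : Finset W, if s = ∅ then (1 : ℤ) else 0 := by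
    unfold chiC eulE
    rw [Finset.sum_filter, ← Finset.sum_add_distrib]
    refine Finset.sum_congr rfl (fun s _ => ?_)
    by_cases h1 : s = ∅
    · subst h1
      simp [N.empt]
    · have h2 : s.Nonempty := Finset.nonempty_iff_ne_empty.2 h1
      by_cases h3 : N.face ↑s
      · simp only [h2, h3, h1, and_self, if_true, if_false, pow_succ]
        ring
      · simp [h3, h1]
  rw [Finset.sum_ite_eq' Finset.univ ∅ (fun _ => (1 : ℤ))] at h
  simp only [Finset.mem_univ, if_true] at h
  linarith

open Classical in
theorem sum_flip {W : Type} [Fintype W] (N : Cx W) (p q : W) :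
    (∑ u : Finset W, if N.face (↑u ∪ {p, q}) then (-1 : ℤ) ^ u.card else 0) = 0 := by
  have key : ∀ u : Finset W, ((↑(insert p u) : Set W) ∪ {p, q}) = ↑u ∪ {p, q} := by
    intro u
    ext x
    simp only [Finset.coe_insert, Set.mem_union, Set.mem_insert_iff, Set.mem_singleton_iff,
      Finset.mem_coe]
    tauto
  refine Finset.sum_involution (fun u _ => if p ∈ u then u.erase p else insert p u) ?_ ?_ ?_ ?_
  · intro u _
    by_cases hp : p ∈ u
    · simp only [hp, if_true]
      have h1 : insert p (u.erase p) = u := Finset.insert_erase hp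
      have h2 := key (u.erase p)
      rw [h1] at h2
      rw [h2]
      have h3 : u.card = (u.erase p).card + 1 := (Finset.card_erase_add_one hp).symm
      rw [h3, pow_succ]
      split_ifs <;> ring
    · simp only [hp, if_false]
      rw [key u, Finset.card_insert_of_notMem hp, pow_succ]
      split_ifs <;> ring
  · intro u _ _
    by_cases hp : p ∈ u
    · simp only [hp, if_true]
      intro h
      rw [← h] at hp
      simp at hp
    · simp only [hp, if_false]
      intro h
      rw [← h] at hp
      simp at hp
  · intro u _
    exact Finset.mem_univ _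
  · intro u _
    by_cases hp : p ∈ u
    · simp [hp, Finset.insert_erase]
    · simp [hp]

theorem sum_option {W : Type} [Fintype W] (f : Finset (Option W) → ℤ) :
    ∑ s : Finset (Option W), f s =
      ∑ u : Finset W, f (u.map Function.Embedding.some) + ∑ u : Finset W, f (Finset.insertNone u) := by
  classical
  rw [← Finset.sum_filter_not_add_sum_filter Finset.univ (fun s : Finset (Option W) => none ∈ s) f]
  congr 1
  · refine Finset.sum_nbij' Finset.eraseNone (fun u => u.map Function.Embedding.some) ?_ ?_ ?_ ?_ ?_
    · intro s _; exact Finset.mem_univ _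
    · intro u _; simp
    · intro s hs
      rw [Finset.map_some_eraseNone]
      exact Finset.erase_eq_of_notMem (by simpa using hs)
    · intro u _; exact Finset.eraseNone_map_some u
    · intro s hs
      rw [Finset.map_some_eraseNone, Finset.erase_eq_of_notMem (by simpa using hs)]
  · refine Finset.sum_nbij' Finset.eraseNone (fun u => Finset.insertNone u) ?_ ?_ ?_ ?_ ?_
    · intro s _; exact Finset.mem_univ _
    · intro u _; simp
    · intro s hs
      rw [Finset.insertNone_eraseNone]
      exact Finset.insert_eq_of_mem (by simpa using hs)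
    · intro u _; exact Finset.eraseNone_insertNone u
    · intro s hs
      rw [Finset.insertNone_eraseNone, Finset.insert_eq_of_mem (by simpa using hs)]

theorem sub_face_map {W : Type} (N : Cx W) (p q : W) (hpq : p ≠ q) (hf : N.face {p, q})
    (u : Finset W) : (N.sub p q hpq hf).face ↑(u.map Function.Embedding.some) ↔
      ¬ (p ∈ u ∧ q ∈ u) ∧ N.face ↑u := by
  have h1 : ({v | some v ∈ (↑(u.map Function.Embedding.some) : Set (Option W))} ∪
      {v | none ∈ (↑(u.map Function.Embedding.some) : Set (Option W)) ∧ (v = p ∨ v = q)}) = ↑u := by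
    ext v
    simp
  show (¬ (_ ∧ _) ∧ N.face _) ↔ _
  rw [h1]
  simp

theorem sub_face_ins {W : Type} (N : Cx W) (p q : W) (hpq : p ≠ q) (hf : N.face {p, q})
    (u : Finset W) : (N.sub p q hpq hf).face ↑(Finset.insertNone u) ↔
      ¬ (p ∈ u ∧ q ∈ u) ∧ N.face (↑u ∪ {p, q}) := by
  have h1 : ({v | some v ∈ (↑(Finset.insertNone u) : Set (Option W))} ∪
      {v | none ∈ (↑(Finset.insertNone u) : Set (Option W)) ∧ (v = p ∨ v = q)}) = ↑u ∪ {p, q} := by
    ext v
    simp
    tauto
  show (¬ (_ ∧ _) ∧ N.face _) ↔ _
  rw [h1]
  simp

theorem prfChi1 : S_chi1 := by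
  classical
  intro W _ N p q hpq hf
  rw [chiC_eq_eulE, chiC_eq_eulE]
  congr 1
  have h0 := sum_flip N p q
  unfold eulE
  rw [sum_option, ← Finset.sum_add_distrib]
  have h1 : ∀ u : Finset W,
      ((if (N.sub p q hpq hf).face ↑(u.map Function.Embedding.some) then
        (-1 : ℤ) ^ (u.map Function.Embedding.some).card else 0) +
      if (N.sub p q hpq hf).face ↑(Finset.insertNone u) then
        (-1 : ℤ) ^ (Finset.insertNone u).card else 0) =
      (if N.face ↑u then (-1 : ℤ) ^ u.card else 0) -
        if N.face (↑u ∪ {p, q}) then (-1 : ℤ) ^ u.card else 0 := by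
    intro u
    rw [Finset.card_map, Finset.card_insertNone]
    simp only [sub_face_map, sub_face_ins]
    by_cases h2 : p ∈ u ∧ q ∈ u
    · have h3 : (↑u ∪ {p, q} : Set W) = ↑u := by
        refine Set.union_eq_self_of_subset_right ?_
        rintro x (rfl | hx)
        · exact h2.1
        · rw [Set.mem_singleton_iff] at hx
          rw [hx]; exact h2.2
      rw [h3]
      simp [h2]
    · simp only [h2, not_false_eq_true, true_and, pow_succ]
      split_ifs <;> ring
  rw [Finset.sum_congr rfl (fun u _ => h1 u), Finset.sum_sub_distrib, h0, sub_zero]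

theorem prfChiRef (h : S_chi1) : S_chiRef := by
  intro G _ _ M N hMN
  induction hMN with
  | refl => rfl
  | tail _ hs ih =>
    obtain ⟨i, j, hij, hf, rfl⟩ := hs
    rw [← ih]
    exact h _ _ i j hij hf

end Pool.Agent.MP552024
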