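import Pool.Agent.Work.MP_552024_lc.Two.Good

/-!
Statements: labelled subdivisions, Euler characteristic. MP_552024_lc, dimension at most three.
-/

set_option autoImplicit false

namespace Pool.Agent.MP552024

/-- the identity labelling is good -/
def S_GB : Prop := ∀ (V : Type) (K : Cx V), K.Dim2 → Good K K (fun v => {v})

def S_GSa : Prop := ∀ (V W : Type) (K : Cx V) (N : Cx W) (S : W → Set V), Good K N S →
  ∀ (p q : W) (hpq : p ≠ q) (hf : N.face {p, q}),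
  (∀ i, (subS S p q i).Nonempty) ∧
  (∀ s, (N.sub p q hpq hf).face s → K.face (uni (subS S p q) s)) ∧
  (N.sub p q hpq hf).Dim2 ∧ (∀ v, ∃! i, subS S p q i = {v}) ∧
  ∀ i j k, i ≠ j → i ≠ k → j ≠ k → (N.sub p q hpq hf).face {i, j, k} →
    ∀ u v, ¬ (subS S p q i ∪ subS S p q j ∪ subS S p q k ⊆ {u, v})

def S_GSb : Prop := ∀ (V W : Type) (K : Cx V) (N : Cx W) (S : W → Set V), Good K N S →
  ∀ (p q : W) (hpq : p ≠ q) (hf : N.face {p, q}),
  ∀ u v a b, u ≠ v → K.face {u, v} → subS S p q a = {u} → subS S p q b = {v} →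
    IsArc (N.sub p q hpq hf) {i | subS S p q i ⊆ {u, v}} a b

def S_GSc : Prop := ∀ (V W : Type) (K : Cx V) (N : Cx W) (S : W → Set V), Good K N S →
  ∀ (p q : W) (hpq : p ≠ q) (hf : N.face {p, q}),
  (∀ σ, K.face σ → IsTri σ → ∀ i j, i ≠ j → (N.sub p q hpq hf).face {i, j} →
    subS S p q i ∪ subS S p q j = σ →
    ∃ k l, k ≠ l ∧ k ≠ i ∧ k ≠ j ∧ l ≠ i ∧ l ≠ j ∧
      ∀ m, m ≠ i → m ≠ j → ((N.sub p q hpq hf).face {i, j, m} ↔ m = k ∨ m = l)) ∧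
  (∀ σ, K.face σ → IsTri σ → ∀ i j, i ≠ j → (N.sub p q hpq hf).face {i, j} →
    subS S p q i ∪ subS S p q j ⊆ σ → subS S p q i ∪ subS S p q j ≠ σ →
    ∃ k, k ≠ i ∧ k ≠ j ∧ ∀ m, m ≠ i → m ≠ j →
      (((N.sub p q hpq hf).face {i, j, m} ∧ subS S p q i ∪ subS S p q j ∪ subS S p q m = σ) ↔ m = k)) ∧
  (∀ i σ, subS S p q i = σ → IsTri σ → ∃ j, j ≠ i ∧ (N.sub p q hpq hf).face {i, j})

def S_GSd : Prop := ∀ (V W : Type) (K : Cx V) (N : Cx W) (S : W → Set V), Good K N S →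
  ∀ (p q : W) (hpq : p ≠ q) (hf : N.face {p, q}),
  ∀ σ, K.face σ → IsTri σ → ∀ A : Set (Set (Option W)),
    (∀ t ∈ A, T3 (N.sub p q hpq hf) (subS S p q) σ t) → A.Nonempty →
    (∀ t ∈ A, ∀ t', T3 (N.sub p q hpq hf) (subS S p q) σ t' →
      (∃ i j, i ≠ j ∧ i ∈ t ∧ j ∈ t ∧ i ∈ t' ∧ j ∈ t' ∧ subS S p q i ∪ subS S p q j = σ) →
      t' ∈ A) → ∀ t, T3 (N.sub p q hpq hf) (subS S p q) σ t → t ∈ A

/-- refinements of a two-dimensional model are good -/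
def S_GR : Prop := ∀ (G : Type) [AddCommGroup G] [Lattice G] [IsOrderedAddMonoid G]
  (M : Mdl G) (h : M.V → G), Hats2 M h → M.Δ.Dim2 → ∀ N : Mdl G, Ref M N →
  Good M.Δ N.Δ (carr N h)

/-- the Euler characteristic is invariant under subdivision -/
def S_chi1 : Prop := ∀ (W : Type) [Fintype W] (N : Cx W) (p q : W) (hpq : p ≠ q)
  (hf : N.face {p, q}), chiC (N.sub p q hpq hf) = chiC N

def S_chiRef : Prop := ∀ (G : Type) [AddCommGroup G] [Lattice G] (M N : Mdl G), Ref M N →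
  chiC N.Δ = chiC M.Δ

/-- the regions are surfaces -/
def S_RG : Prop := ∀ (V W : Type) [Fintype W] [DecidableEq W] (K : Cx V) (N : Cx W)
  (S : W → Set V), Good K N S → ∀ σ, K.face σ → IsTri σ →
  Surf (Reg N S σ) ∧
  (∀ e : Finset W, e.card = 2 → (deg (Reg N S σ) e = 2 ↔ N.face ↑e ∧ uni S ↑e = σ) ∧
    (deg (Reg N S σ) e = 1 ↔ N.face ↑e ∧ uni S ↑e ⊆ σ ∧ uni S ↑e ≠ σ)) ∧
  ∀ i, i ∈ Vs (Reg N S σ) ↔ S i ⊆ σ

def S_chiO12 : Prop := ∀ (V W : Type) [Fintype W] (K : Cx V) (N : Cx W) (S : W → Set V),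
  Good K N S → (∀ v, chiO N S {v} = 1) ∧ ∀ u v, u ≠ v → K.face {u, v} → chiO N S {u, v} = -1

def S_chiO3 : Prop := ∀ (V W : Type) [Fintype W] [DecidableEq W] (K : Cx V) (N : Cx W)
  (S : W → Set V), Good K N S → ∀ σ, K.face σ → IsTri σ → chiO N S σ = chi (Reg N S σ)

open Classical in
def S_chi2 : Prop := ∀ (V W : Type) [Fintype V] [Fintype W] (K : Cx V) (N : Cx W)
  (S : W → Set V), Good K N S →
  chiC N = ∑ τ ∈ Finset.univ.filter (fun τ : Finset V => τ.Nonempty ∧ K.face ↑τ), chiO N S ↑τ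

/-- comparison of Euler characteristics -/
def S_chiLe : Prop := ∀ (V W : Type) [Fintype V] [Fintype W] [DecidableEq W] (K : Cx V) (N : Cx W)
  (S : W → Set V), Good K N S →
  chiC N ≤ chiC K ∧ (chiC N = chiC K → ∀ σ, K.face σ → IsTri σ → chi (Reg N S σ) = 1)

end Pool.Agent.MP552024
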