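import Pool.Agent.Work.MP_552024_lc.Two.StmtsA
import Pool.Agent.Work.MP_552024_lc.Two.StmtsB

/-!
Comparison of Euler characteristics. MP_552024_lc, dimension at most three.
-/

set_option autoImplicit false

namespace Pool.Agent.MP552024

theorem uni_ne_of_good {V W : Type} {K : Cx V} {N : Cx W} {S : W → Set V} (hG : Good K N S)
    {s : Set W} (hs : s.Nonempty) : (uni S s).Nonempty := by
  obtain ⟨i, hi⟩ := hs
  obtain ⟨v, hv⟩ := hG.ne i
  refine ⟨v, ?_⟩
  simp only [uni, Set.mem_iUnion]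
  exact ⟨i, hi, hv⟩

theorem prfChi2 : S_chi2 := by
  intro V W _ _ K N S hG
  classical
  unfold chiC chiO
  have key : ∀ s ∈ Finset.univ.filter (fun s : Finset W => s.Nonempty ∧ N.face ↑s),
      (uni S (↑s : Set W)).toFinset ∈
        Finset.univ.filter (fun τ : Finset V => τ.Nonempty ∧ K.face ↑τ) := by
    intro s hs
    rw [Finset.mem_filter] at hs ⊢
    refine ⟨Finset.mem_univ _, ?_, ?_⟩
    · rw [Set.toFinset_nonempty]
      exact uni_ne_of_good hG hs.2.1
    · rw [Set.coe_toFinset]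
      exact hG.car _ hs.2.2
  have h1 := Finset.sum_fiberwise_of_maps_to key (fun s : Finset W => (-1 : ℤ) ^ (s.card + 1))
  refine Eq.trans ?_ (h1.symm.trans ?_)
  · refine Finset.sum_congr ?_ fun _ _ => rfl
    ext s
    simp only [Finset.mem_filter]
  · refine Finset.sum_congr ?_ fun τ _ => Finset.sum_congr ?_ fun _ _ => rfl
    · ext s
      simp only [Finset.mem_filter]
    · ext s
      simp only [Finset.mem_filter, Finset.mem_univ, true_and]
      constructor
      · rintro ⟨⟨h2, h3⟩, h4⟩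
        refine ⟨h2, h3, ?_⟩
        rw [← h4, Set.coe_toFinset]
      · rintro ⟨h2, h3, h4⟩
        refine ⟨⟨h2, h3⟩, ?_⟩
        rw [← Finset.coe_inj, Set.coe_toFinset, h4]

theorem prfChiLe (h1 : S_SH1) (hr : S_RG) (ho : S_chiO12) (h3 : S_chiO3) (h2 : S_chi2) :
    S_chiLe := by
  intro V W _ _ _ K N S hG
  classical
  have hK : chiC K = ∑ τ ∈ Finset.univ.filter (fun τ : Finset V => τ.Nonempty ∧ K.face ↑τ),
      (-1 : ℤ) ^ (τ.card + 1) := by
    unfold chiC
    refine Finset.sum_congr ?_ fun _ _ => rfl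
    ext s
    simp only [Finset.mem_filter]
  have hN : chiC N = ∑ τ ∈ Finset.univ.filter (fun τ : Finset V => τ.Nonempty ∧ K.face ↑τ),
      chiO N S ↑τ := by
    rw [h2 V W K N S hG]
  have htri : ∀ σ, K.face σ → IsTri σ → chiO N S σ = chi (Reg N S σ) ∧ chi (Reg N S σ) ≤ 1 := by
    intro σ hσ hT
    exact ⟨h3 V W K N S hG σ hσ hT, (h1 W (Reg N S σ) (hr V W K N S hG σ hσ hT).1).1⟩
  have hle : ∀ τ ∈ Finset.univ.filter (fun τ : Finset V => τ.Nonempty ∧ K.face ↑τ),
      chiO N S ↑τ ≤ (-1 : ℤ) ^ (τ.card + 1) := by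
    intro τ hτ
    rw [Finset.mem_filter] at hτ
    obtain ⟨-, hne, hf⟩ := hτ
    have hpos : 0 < τ.card := Finset.card_pos.mpr hne
    have hlt : τ.card < 4 := by
      by_contra hcon
      push Not at hcon
      obtain ⟨t, ht, hc⟩ := Finset.exists_subset_card_eq hcon
      obtain ⟨a, t', hat, rfl, hc'⟩ := Finset.card_eq_succ.mp hc
      obtain ⟨b, c, d, hbc, hbd, hcd, rfl⟩ := Finset.card_eq_three.mp hc'
      simp only [Finset.mem_insert, Finset.mem_singleton, not_or] at hat
      refine hG.kdim a b c d hat.1 hat.2.1 hat.2.2 hbc hbd hcd (K.down _ _ ?_ hf)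
      intro x hx
      have : x ∈ (insert a {b, c, d} : Finset V) := by simpa using hx
      exact ht this
    have hcases : τ.card = 1 ∨ τ.card = 2 ∨ τ.card = 3 := by omega
    rcases hcases with h | h | h
    · obtain ⟨v, rfl⟩ := Finset.card_eq_one.mp h
      rw [h, Finset.coe_singleton, (ho V W K N S hG).1 v]
      norm_num
    · obtain ⟨u, v, huv, rfl⟩ := Finset.card_eq_two.mp h
      rw [Finset.coe_pair] at hf
      rw [h, Finset.coe_pair, (ho V W K N S hG).2 u v huv hf]
      norm_num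
    · obtain ⟨u, v, w, huv, huw, hvw, rfl⟩ := Finset.card_eq_three.mp h
      have hc : (↑({u, v, w} : Finset V) : Set V) = {u, v, w} := by simp
      rw [hc] at hf
      rw [h, hc, (htri _ hf ⟨u, v, w, huv, huw, hvw, rfl⟩).1]
      refine (htri _ hf ⟨u, v, w, huv, huw, hvw, rfl⟩).2.trans ?_
      norm_num
  refine ⟨?_, ?_⟩
  · rw [hN, hK]
    exact Finset.sum_le_sum hle
  · intro heq σ hσ hT
    rw [hN, hK] at heq
    have hall := (Finset.sum_eq_sum_iff_of_le hle).mp heq
    obtain ⟨u, v, w, huv, huw, hvw, rfl⟩ := hT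
    have hc : (↑({u, v, w} : Finset V) : Set V) = {u, v, w} := by simp
    have hcard : ({u, v, w} : Finset V).card = 3 := Finset.card_eq_three.mpr
      ⟨u, v, w, huv, huw, hvw, rfl⟩
    have h4 := hall ({u, v, w} : Finset V) (by
      rw [Finset.mem_filter]
      refine ⟨Finset.mem_univ _, ⟨u, by simp⟩, ?_⟩
      rw [hc]
      exact hσ)
    rw [hc, hcard, (htri _ hσ ⟨u, v, w, huv, huw, hvw, rfl⟩).1] at h4
    rw [h4]
    norm_num

end Pool.Agent.MP552024
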