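import Pool.Agent.Work.MP_552024_lc.Two.StmtsB

/-!
The parts of the Euler characteristic with label a vertex or an edge. MP_552024_lc, dimension at
most three.
-/

set_option autoImplicit false

namespace Pool.Agent.MP552024

section CO

variable {V W : Type}

theorem co_uni1 (S : W → Set V) (i : W) : uni S {i} = S i := by
  ext x; simp [uni]

theorem co_uni2 (S : W → Set V) (i j : W) : uni S {i, j} = S i ∪ S j := by
  ext x; simp [uni]

theorem co_uni3 (S : W → Set V) (i j k : W) : uni S {i, j, k} = S i ∪ S j ∪ S k := by
  ext x; simp [uni, or_assoc]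

theorem co_sub (S : W → Set V) {s : Set W} {i : W} (h : i ∈ s) : S i ⊆ uni S s := by
  intro x hx
  simp only [uni, Set.mem_iUnion]
  exact ⟨i, h, hx⟩

theorem co_mono (S : W → Set V) {s t : Set W} (h : s ⊆ t) : uni S s ⊆ uni S t := by
  intro x hx
  simp only [uni, Set.mem_iUnion] at hx ⊢
  obtain ⟨i, hi, hx⟩ := hx
  exact ⟨i, h hi, hx⟩

/-- faces with small labels have at most two vertices -/
theorem co_card {K : Cx V} {N : Cx W} {S : W → Set V} (hG : Good K N S) {s : Finset W}
    (hs : N.face ↑s) {u v : V} (hu : uni S ↑s ⊆ {u, v}) : s.card ≤ 2 := by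
  classical
  by_contra hc
  push Not at hc
  obtain ⟨i, hi, j, hj, k, hk, hij, hik, hjk⟩ := Finset.two_lt_card.1 hc
  refine hG.flat i j k hij hik hjk (N.down _ _ ?_ hs) u v ?_
  · rintro x (rfl | rfl | hx)
    · exact hi
    · exact hj
    · rw [Set.mem_singleton_iff] at hx; rw [hx]; exact hk
  · refine Set.union_subset (Set.union_subset ?_ ?_) ?_
    · exact (co_sub S hi).trans hu
    · exact (co_sub S hj).trans hu
    · exact (co_sub S hk).trans hu

end CO

theorem prfChiO12 : S_chiO12 := by
  classical
  intro V W _ K N S hG
  constructor
  · intro v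
    obtain ⟨i0, h0, h1⟩ := hG.one v
    have hf : Finset.univ.filter (fun s : Finset W => s.Nonempty ∧ N.face ↑s ∧ uni S ↑s = {v}) =
        {{i0}} := by
      ext s
      simp only [Finset.mem_filter, Finset.mem_univ, true_and, Finset.mem_singleton]
      constructor
      · rintro ⟨hs1, hs2, hs3⟩
        have h2 : ∀ i ∈ s, i = i0 := by
          intro i hi
          refine h1 i ?_
          have h3 : S i ⊆ {v} := hs3 ▸ co_sub S (Finset.mem_coe.2 hi)
          rcases Set.subset_singleton_iff_eq.1 h3 with h4 | h4
          · exact absurd h4 (hG.ne i).ne_empty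
          · exact h4
        obtain ⟨j, hj⟩ := hs1
        have hj0 := h2 j hj
        subst hj0
        exact Finset.eq_singleton_iff_unique_mem.2 ⟨hj, h2⟩
      · rintro rfl
        refine ⟨Finset.singleton_nonempty _, ?_, ?_⟩
        · rw [Finset.coe_singleton]; exact N.vert i0
        · rw [Finset.coe_singleton, co_uni1]; exact h0
    unfold chiO
    rw [hf, Finset.sum_singleton]
    simp
  · intro u v huv hK
    obtain ⟨a, ha, ha'⟩ := hG.one u
    obtain ⟨b, hb, hb'⟩ := hG.one v
    obtain ⟨m, p, hinj, hp0, hpm, hI, hE⟩ := hG.arc u v a b huv hK ha hb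
    have hne : ({u} : Set V) ≠ {u, v} := by
      intro h
      have : v ∈ ({u} : Set V) := by rw [h]; simp
      exact huv (Set.mem_singleton_iff.1 this).symm
    have hne' : ({v} : Set V) ≠ {u, v} := by
      intro h
      have : u ∈ ({v} : Set V) := by rw [h]; simp
      exact huv (Set.mem_singleton_iff.1 this)
    have hm : 0 < m := by
      rcases Nat.eq_zero_or_pos m with h | h
      · subst h
        rw [hp0] at hpm
        rw [hpm, hb] at ha
        exact absurd (Set.singleton_injective ha).symm huv
      · exact h
    have hS : ∀ k, k ≤ m → S (p k) ⊆ {u, v} := fun k hk => (hI (p k)).2 ⟨k, hk, rfl⟩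
    have hS1 : ∀ k, k ≤ m → (S (p k) = {u} ∧ k = 0) ∨ (S (p k) = {v} ∧ k = m) ∨
        S (p k) = {u, v} := by
      intro k hk
      rcases Set.subset_pair_iff_eq.1 (hS k hk) with h | h | h | h
      · exact absurd h (hG.ne _).ne_empty
      · left
        refine ⟨h, hinj k 0 hk (Nat.zero_le _) ?_⟩
        rw [hp0]; exact ha' _ h
      · right; left
        refine ⟨h, hinj k m hk le_rfl ?_⟩
        rw [hpm]; exact hb' _ h
      · right; right; exact h
    have hf : Finset.univ.filter (fun s : Finset W => s.Nonempty ∧ N.face ↑s ∧ uni S ↑s = {u, v}) =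
        (Finset.Ioo 0 m).image (fun k => ({p k} : Finset W)) ∪
          (Finset.range m).image (fun k => ({p k, p (k + 1)} : Finset W)) := by
      ext s
      simp only [Finset.mem_filter, Finset.mem_univ, true_and, Finset.mem_union, Finset.mem_image,
        Finset.mem_Ioo, Finset.mem_range]
      constructor
      · rintro ⟨hs1, hs2, hs3⟩
        have hc := co_card hG hs2 hs3.le
        have hc1 : 0 < s.card := Finset.card_pos.2 hs1
        have h12 : s.card = 1 ∨ s.card = 2 := by omega
        rcases h12 with h | h
        · left
          obtain ⟨i, rfl⟩ := Finset.card_eq_one.1 h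
          rw [Finset.coe_singleton, co_uni1] at hs3
          obtain ⟨k, hk, rfl⟩ := (hI i).1 hs3.le
          refine ⟨k, ⟨?_, ?_⟩, rfl⟩
          · rcases Nat.eq_zero_or_pos k with h0 | h0
            · subst h0
              rw [hp0, ha] at hs3
              exact absurd hs3 hne
            · exact h0
          · rcases Nat.lt_or_ge k m with h0 | h0
            · exact h0
            · have : k = m := le_antisymm hk h0
              subst this
              rw [hpm, hb] at hs3
              exact absurd hs3 hne'
        · right
          obtain ⟨i, j, hij, rfl⟩ := Finset.card_eq_two.1 h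
          rw [Finset.coe_pair] at hs2 hs3
          rw [co_uni2] at hs3
          obtain ⟨k, hk, rfl⟩ := (hI i).1 (Set.subset_union_left.trans hs3.le)
          obtain ⟨l, hl, rfl⟩ := (hI j).1 (Set.subset_union_right.trans hs3.le)
          rcases (hE k l hk hl).1 hs2 with h0 | h0 | h0
          · subst h0; exact absurd rfl hij
          · subst h0
            exact ⟨l, hk, Finset.pair_comm _ _⟩
          · subst h0
            exact ⟨k, hl, rfl⟩
      · rintro (⟨k, ⟨hk0, hkm⟩, rfl⟩ | ⟨k, hk, rfl⟩)
        · refine ⟨Finset.singleton_nonempty _, ?_, ?_⟩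
          · rw [Finset.coe_singleton]; exact N.vert _
          · rw [Finset.coe_singleton, co_uni1]
            rcases hS1 k hkm.le with h | h | h
            · omega
            · omega
            · exact h
        · refine ⟨Finset.insert_nonempty _ _, ?_, ?_⟩
          · rw [Finset.coe_pair]
            exact (hE k (k + 1) hk.le hk).2 (Or.inr (Or.inr rfl))
          · rw [Finset.coe_pair, co_uni2]
            refine Set.Subset.antisymm (Set.union_subset (hS k hk.le) (hS (k + 1) hk)) ?_
            rcases hS1 k hk.le with h | h | h
            · rcases hS1 (k + 1) hk with h' | h' | h'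
              · omega
              · rw [h.1, h'.1]
                rintro x (rfl | hx)
                · left; rfl
                · right; exact hx
              · rw [h']; exact Set.subset_union_right
            · omega
            · rw [h]; exact Set.subset_union_left
    have hd : Disjoint ((Finset.Ioo 0 m).image (fun k => ({p k} : Finset W)))
        ((Finset.range m).image (fun k => ({p k, p (k + 1)} : Finset W))) := by
      rw [Finset.disjoint_left]
      intro s hs hs'
      simp only [Finset.mem_image, Finset.mem_Ioo, Finset.mem_range] at hs hs'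
      obtain ⟨k, _, rfl⟩ := hs
      obtain ⟨l, hl, h⟩ := hs'
      have h1 := congrArg Finset.card h
      rw [Finset.card_singleton, Finset.card_pair] at h1
      · omega
      · intro h2
        have := hinj l (l + 1) hl.le hl h2
        omega
    unfold chiO
    rw [hf, Finset.sum_union hd, Finset.sum_image, Finset.sum_image]
    · have h1 : ∑ k ∈ Finset.Ioo 0 m, (-1 : ℤ) ^ (({p k} : Finset W).card + 1) = m - 1 := by
        rw [Finset.sum_congr rfl (g := fun _ => (1 : ℤ)) (fun k _ => by simp)]
        rw [Finset.sum_const, Nat.card_Ioo, nsmul_eq_mul, mul_one]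
        omega
      have h2 : ∑ k ∈ Finset.range m, (-1 : ℤ) ^ (({p k, p (k + 1)} : Finset W).card + 1) = -m := by
        rw [Finset.sum_congr rfl (g := fun _ => (-1 : ℤ))]
        · rw [Finset.sum_const, Finset.card_range, nsmul_eq_mul]
          ring
        · intro k hk
          rw [Finset.mem_range] at hk
          rw [Finset.card_pair]
          · norm_num
          · intro h2
            have := hinj k (k + 1) hk.le hk h2
            omega
      rw [h1, h2]
      ring
    · intro k hk l hl h
      simp only [Finset.coe_range, Set.mem_Iio] at hk hl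
      have h0 : ({p k, p (k + 1)} : Finset W) = {p l, p (l + 1)} := h
      have h1 : p k ∈ ({p l, p (l + 1)} : Finset W) := by rw [← h0]; simp
      have h2 : p (k + 1) ∈ ({p l, p (l + 1)} : Finset W) := by rw [← h0]; simp
      simp only [Finset.mem_insert, Finset.mem_singleton] at h1 h2
      rcases h1 with h1 | h1
      · exact hinj _ _ hk.le hl.le h1
      · have h3 := hinj _ _ hk.le hl h1
        rcases h2 with h2 | h2
        · have h4 := hinj _ _ hk hl.le h2
          omega
        · have h4 := hinj _ _ hk hl h2
          omega
    · intro k hk l hl h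
      simp only [Finset.coe_Ioo, Set.mem_Ioo] at hk hl
      exact hinj _ _ hk.2.le hl.2.le (Finset.singleton_injective h)

end Pool.Agent.MP552024
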