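import Pool.Agent.Work.MP_552024_lc.Two.CO12

/-!
The part of the Euler characteristic with label a triangle. MP_552024_lc, dimension at most three.
-/

set_option autoImplicit false

namespace Pool.Agent.MP552024

open Classical in
theorem co_split {V W : Type} [Fintype W] (N : Cx W) (S : W → Set V) (T : Finset V) :
    ∑ s ∈ Finset.univ.filter (fun s : Finset W => s.Nonempty ∧ N.face ↑s ∧ uni S ↑s ⊆ ↑T),
      (-1 : ℤ) ^ (s.card + 1) = ∑ τ ∈ T.powerset, chiO N S ↑τ := by
  have hm : ∀ s ∈ Finset.univ.filter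
      (fun s : Finset W => s.Nonempty ∧ N.face ↑s ∧ uni S ↑s ⊆ ↑T),
      T.filter (fun x => x ∈ uni S ↑s) ∈ T.powerset := by
    intro s _
    exact Finset.mem_powerset.2 (Finset.filter_subset _ _)
  rw [← Finset.sum_fiberwise_of_maps_to hm]
  refine Finset.sum_congr rfl (fun τ hτ => ?_)
  rw [Finset.mem_powerset] at hτ
  unfold chiO
  refine Finset.sum_congr ?_ (fun _ _ => rfl)
  ext s
  simp only [Finset.mem_filter, Finset.mem_univ, true_and]
  constructor
  · rintro ⟨⟨h1, h2, h3⟩, h4⟩
    refine ⟨h1, h2, ?_⟩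
    rw [← h4, Finset.coe_filter]
    ext x
    constructor
    · intro hx; exact ⟨h3 hx, hx⟩
    · intro hx; exact hx.2
  · rintro ⟨h1, h2, h3⟩
    refine ⟨⟨h1, h2, ?_⟩, ?_⟩
    · rw [h3]; exact_mod_cast hτ
    · ext x
      rw [Finset.mem_filter, h3, Finset.mem_coe]
      exact ⟨fun h => h.2, fun h => ⟨hτ h, h⟩⟩

theorem co_empty {V W : Type} [Fintype W] {K : Cx V} {N : Cx W} {S : W → Set V}
    (hG : Good K N S) : chiO N S ∅ = 0 := by
  classical
  unfold chiO
  refine Finset.sum_eq_zero (fun s hs => ?_)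
  simp only [Finset.mem_filter, Finset.mem_univ, true_and] at hs
  obtain ⟨⟨i, hi⟩, _, h⟩ := hs
  obtain ⟨x, hx⟩ := hG.ne i
  have := co_sub S (Finset.mem_coe.2 hi) hx
  rw [h] at this
  exact absurd this (Set.notMem_empty x)

theorem prfChiO3 (hr : S_RG) (ho : S_chiO12) : S_chiO3 := by
  classical
  intro V W _ _ K N S hG σ hK hσ
  obtain ⟨hsurf, hdeg, hVs⟩ := hr V W K N S hG σ hK hσ
  obtain ⟨ho1, ho2⟩ := ho V W K N S hG
  obtain ⟨u, v, w, huv, huw, hvw, rfl⟩ := hσ
  have hsp := co_split N S {u, v, w}
  have hcoe : ((({u, v, w} : Finset V)) : Set V) = {u, v, w} := by simp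
  -- the right side
  have hR : ∑ τ ∈ ({u, v, w} : Finset V).powerset, chiO N S ↑τ = chiO N S {u, v, w} := by
    rw [Finset.sum_powerset_insert (by simp [huv, huw]), Finset.sum_powerset_insert (by simp [hvw]),
      Finset.sum_powerset_insert (by simp [hvw]), ← insert_empty_eq w,
      Finset.sum_powerset_insert (by simp), Finset.sum_powerset_insert (by simp),
      Finset.sum_powerset_insert (by simp), Finset.sum_powerset_insert (by simp)]
    simp only [Finset.powerset_empty, Finset.sum_singleton, Finset.coe_empty, Finset.coe_insert,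
      insert_empty_eq]
    rw [co_empty hG, ho1 w, ho1 v, ho1 u, ho2 u v huv (K.down _ _ (by
      rintro x (rfl | hx)
      · simp
      · rw [Set.mem_singleton_iff] at hx; rw [hx]; simp) hK),
      ho2 u w huw (K.down _ _ (by
      rintro x (rfl | hx)
      · simp
      · rw [Set.mem_singleton_iff] at hx; rw [hx]; simp) hK),
      ho2 v w hvw (K.down _ _ (by
      rintro x (rfl | hx)
      · simp
      · rw [Set.mem_singleton_iff] at hx; rw [hx]; simp) hK)]
    ring
  rw [← hR, ← hsp]
  set D := Reg N S {u, v, w} with hD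
  have hDm : ∀ t : Finset W, t ∈ D ↔ t.card = 3 ∧ N.face ↑t ∧ uni S ↑t = {u, v, w} := by
    intro t
    rw [hD]
    unfold Reg
    simp
  have hEm : ∀ e : Finset W, e ∈ Es D ↔ e.card = 2 ∧ N.face ↑e ∧ uni S ↑e ⊆ {u, v, w} := by
    intro e
    have h1 : e ∈ Es D ↔ e.card = 2 ∧ 0 < deg D e := by
      unfold Es deg
      rw [Finset.mem_biUnion, Finset.card_pos]
      constructor
      · rintro ⟨t, ht, h⟩
        rw [Finset.mem_powersetCard] at h
        exact ⟨h.2, t, Finset.mem_filter.2 ⟨ht, h.1⟩⟩
      · rintro ⟨h, t, ht⟩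
        rw [Finset.mem_filter] at ht
        exact ⟨t, ht.1, Finset.mem_powersetCard.2 ⟨ht.2, h⟩⟩
    rw [h1]
    constructor
    · rintro ⟨h2, h3⟩
      have h4 := hsurf.deg2 e h2
      have h5 : deg D e = 1 ∨ deg D e = 2 := by omega
      rcases h5 with h5 | h5
      · have := ((hdeg e h2).2).1 h5
        exact ⟨h2, this.1, this.2.1⟩
      · have := ((hdeg e h2).1).1 h5
        exact ⟨h2, this.1, this.2.le⟩
    · rintro ⟨h2, h3, h4⟩
      refine ⟨h2, ?_⟩
      by_cases h5 : uni S ↑e = {u, v, w}
      · rw [((hdeg e h2).1).2 ⟨h3, h5⟩]; norm_num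
      · rw [((hdeg e h2).2).2 ⟨h3, h4, h5⟩]; norm_num
  have hA : Finset.univ.filter (fun s : Finset W => s.Nonempty ∧ N.face ↑s ∧
      uni S ↑s ⊆ ↑({u, v, w} : Finset V)) =
      (Vs D).image (fun i => ({i} : Finset W)) ∪ (Es D ∪ D) := by
    ext s
    rw [hcoe]
    simp only [Finset.mem_filter, Finset.mem_univ, true_and, Finset.mem_union, Finset.mem_image]
    rw [hEm, hDm]
    constructor
    · rintro ⟨h1, h2, h3⟩
      have h4 : s.card ≤ 3 := by
        by_contra hc
        push Not at hc
        obtain ⟨t, hts, htc⟩ := Finset.exists_subset_card_eq (s := s) (n := 4) hc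
        obtain ⟨a, b, c, d, hab, hac, had, hbc, hbd, hcd, rfl⟩ := Finset.card_eq_four.1 htc
        refine hG.dim a b c d hab hac had hbc hbd hcd (N.down _ _ ?_ h2)
        have := Finset.coe_subset.2 hts
        simpa using this
      have h5 : 0 < s.card := Finset.card_pos.2 h1
      have h6 : s.card = 1 ∨ s.card = 2 ∨ s.card = 3 := by omega
      rcases h6 with h6 | h6 | h6
      · left
        obtain ⟨i, rfl⟩ := Finset.card_eq_one.1 h6
        refine ⟨i, (hVs i).2 ?_, rfl⟩
        rw [Finset.coe_singleton, co_uni1] at h3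
        exact h3
      · right; left
        exact ⟨h6, h2, h3⟩
      · right; right
        refine ⟨h6, h2, Set.Subset.antisymm h3 ?_⟩
        have hno : ∀ a b : V, ¬ uni S ↑s ⊆ {a, b} := by
          intro a b hab
          have := co_card hG h2 hab
          omega
        by_contra hc
        rw [Set.insert_subset_iff, Set.insert_subset_iff, Set.singleton_subset_iff] at hc
        have h7 : u ∉ uni S ↑s ∨ v ∉ uni S ↑s ∨ w ∉ uni S ↑s := by tauto
        rcases h7 with h7 | h7 | h7
        · refine hno v w (fun x hx => ?_)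
          rcases h3 hx with rfl | h8 | h8
          · exact absurd hx h7
          · left; exact h8
          · right; exact h8
        · refine hno u w (fun x hx => ?_)
          rcases h3 hx with h8 | rfl | h8
          · left; exact h8
          · exact absurd hx h7
          · right; exact h8
        · refine hno u v (fun x hx => ?_)
          rcases h3 hx with h8 | h8 | h8
          · left; exact h8
          · right; exact h8
          · rw [Set.mem_singleton_iff] at h8
            rw [h8] at hx
            exact absurd hx h7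
    · rintro (⟨i, hi, rfl⟩ | ⟨h1, h2, h3⟩ | ⟨h1, h2, h3⟩)
      · refine ⟨Finset.singleton_nonempty _, ?_, ?_⟩
        · rw [Finset.coe_singleton]; exact N.vert i
        · rw [Finset.coe_singleton, co_uni1]; exact (hVs i).1 hi
      · exact ⟨Finset.card_pos.1 (by omega), h2, h3⟩
      · exact ⟨Finset.card_pos.1 (by omega), h2, h3.le⟩
  rw [hA]
  have hd2 : Disjoint (Es D) D := by
    rw [Finset.disjoint_left]
    intro s h1 h2
    have h3 := ((hEm s).1 h1).1
    have h4 := ((hDm s).1 h2).1
    omega
  have hd1 : Disjoint ((Vs D).image (fun i => ({i} : Finset W))) (Es D ∪ D) := by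
    rw [Finset.disjoint_left]
    intro s h1 h2
    obtain ⟨i, _, rfl⟩ := Finset.mem_image.1 h1
    rcases Finset.mem_union.1 h2 with h3 | h3
    · have := ((hEm _).1 h3).1
      rw [Finset.card_singleton] at this
      omega
    · have := ((hDm _).1 h3).1
      rw [Finset.card_singleton] at this
      omega
  rw [Finset.sum_union hd1, Finset.sum_union hd2, Finset.sum_image
    (fun x _ y _ h => Finset.singleton_injective h)]
  have e1 : ∑ x ∈ Vs D, (-1 : ℤ) ^ (({x} : Finset W).card + 1) = (Vs D).card := by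
    rw [Finset.sum_congr rfl (g := fun _ => (1 : ℤ)) (fun k _ => by simp)]
    simp
  have e2 : ∑ e ∈ Es D, (-1 : ℤ) ^ (e.card + 1) = -(Es D).card := by
    rw [Finset.sum_congr rfl (g := fun _ => (-1 : ℤ)) (fun e he => by
      rw [((hEm e).1 he).1]; norm_num)]
    simp
  have e3 : ∑ t ∈ D, (-1 : ℤ) ^ (t.card + 1) = D.card := by
    rw [Finset.sum_congr rfl (g := fun _ => (1 : ℤ)) (fun e he => by
      rw [((hDm e).1 he).1]; norm_num)]
    simp
  rw [e1, e2, e3]
  unfold chi
  ring

end Pool.Agent.MP552024
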