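import Pool.Agent.Work.MP_552024_lc.Two.Good

/-!
Statements: from a good model with disc regions back to the complex `K`. MP_552024_lc, dimension <= 3.
-/

set_option autoImplicit false

namespace Pool.Agent.MP552024

/-- images of discs under injective maps -/
def S_discMap : Prop := ∀ (U U' : Type) [DecidableEq U] [DecidableEq U'] (f : U → U'),
  Function.Injective f → ∀ D : Finset (Finset U),
  (∀ e : Finset U, deg (D.image (Finset.image f)) (e.image f) = deg D e) ∧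
  (∀ e : Finset U', 0 < deg (D.image (Finset.image f)) e → ∃ e₀ : Finset U, e = e₀.image f) ∧
  (IsDisc D → IsDisc (D.image (Finset.image f)))

/-- the complexes `NFface` exist -/
def S_NFex : Prop := ∀ (V W : Type) (K : Cx V) (N : Cx W) (S : W → Set V), Good K N S →
  ∀ F : Set (Set V), (∀ σ ∈ F, K.face σ ∧ IsTri σ) →
  ∃ Δ : PC (W ⊕ Set V), ∀ s, Δ.face s ↔ NFface N S F s

def S_CT1 : Prop := ∀ (V W : Type) (N : Cx W) (S : W → Set V) (Δ : PC (W ⊕ Set V)),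
  (∀ s, Δ.face s ↔ NFface N S ∅ s) → Eqv N.Z Δ.Z

/-- cone off one more region -/
def S_CT2 : Prop := ∀ (V W : Type) [Fintype W] [DecidableEq W] (K : Cx V) (N : Cx W)
  (S : W → Set V), Good K N S → ∀ (F : Set (Set V)) (σ : Set V),
  (∀ τ ∈ F, K.face τ ∧ IsTri τ) → K.face σ → IsTri σ → σ ∉ F → IsDisc (Reg N S σ) →
  ∀ Δ Δ' : PC (W ⊕ Set V), (∀ s, Δ.face s ↔ NFface N S F s) →
  (∀ s, Δ'.face s ↔ NFface N S (insert σ F) s) → Eqv Δ.Z Δ'.Z

/-- the graph of the arcs -/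
def arcG {V W : Type} (N : Cx W) (S : W → Set V) : SimpleGraph {i : W // ¬ IsTri (S i)} where
  Adj i j := i ≠ j ∧ N.face {i.1, j.1} ∧ ¬ IsTri (S i.1 ∪ S j.1)
  symm := ⟨fun i j h => ⟨h.1.symm, by rw [Set.pair_comm]; exact h.2.1, by
    rw [Set.union_comm]; exact h.2.2⟩⟩
  loopless := ⟨fun i h => h.1 rfl⟩

def S_CT3 : Prop := ∀ (V W : Type) (K : Cx V) (N : Cx W) (S : W → Set V), Good K N S →
  ∀ Δ : PC (W ⊕ Set V), (∀ s, Δ.face s ↔ NFface N S {σ | K.face σ ∧ IsTri σ} s) →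
  Eqv Δ.Z (CC K (arcG N S) (fun i => S i.1)).Z

def S_CT4 : Prop := ∀ (V W : Type) (K : Cx V) (N : Cx W) (S : W → Set V), Good K N S →
  GoodG K.gr (arcG N S) (fun i => S i.1)

def S_CT5 : Prop := ∀ (V W : Type) (K : Cx V) (A : SimpleGraph W) (S : W → Set V) (i p k : W),
  A.Adj i p → A.Adj i k → p ≠ k → ¬ A.Adj p k → (∀ j, A.Adj i j → j = p ∨ j = k) →
  S p ⊆ S i → S k ⊆ S i → S i ⊆ S p ∪ S k →
  Eqv (CC K A S).Z (CC K (delG A i p k) (fun w => S w.1)).Z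

def S_CT6 : Prop := ∀ (V W : Type) [Fintype V] (K : Cx V) (A : SimpleGraph W) (S : W → Set V),
  K.Dim2 → GoodG K.gr A S → (∀ i, ∃ v, S i = {v}) → Eqv (CC K A S).Z K.Z

end Pool.Agent.MP552024
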