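import Pool.Agent.Work.MP_552024_lc.Two.StmtsA
import Pool.Agent.Work.MP_552024_lc.Two.StmtsB
import Pool.Agent.Work.MP_552024_lc.Two.StmtsE

/-!
Cone off one region. MP_552024_lc, dimension <= 3, item CT2.
-/

set_option autoImplicit false

namespace Pool.Agent.MP552024

section CT2

variable {V W : Type}

theorem CT2_max {K : Cx V} (hK : K.Dim2) {ρ τ : Set V} (hρ : K.face ρ) (hτ : IsTri τ)
    (h : τ ⊆ ρ) : τ = ρ := by
  refine Set.Subset.antisymm h fun x hx => ?_
  by_contra hxt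
  obtain ⟨u, v, w, huv, huw, hvw, rfl⟩ := hτ
  simp only [Set.mem_insert_iff, Set.mem_singleton_iff, not_or] at hxt
  refine hK u v w x huv huw (Ne.symm hxt.1) hvw (Ne.symm hxt.2.1) (Ne.symm hxt.2.2)
    (K.down _ _ ?_ hρ)
  rintro y (rfl | rfl | rfl | rfl)
  · exact h (Or.inl rfl)
  · exact h (Or.inr (Or.inl rfl))
  · exact h (Or.inr (Or.inr rfl))
  · exact hx

theorem CT2_uni_mono (S : W → Set V) {s t : Set W} (h : s ⊆ t) :
    uni S s ⊆ uni S t := Set.biUnion_subset_biUnion_left h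

theorem CT2_uni_pair (S : W → Set V) (i j : W) : uni S {i, j} = S i ∪ S j := by
  unfold uni
  rw [Set.biUnion_pair]

theorem CT2_uni_single (S : W → Set V) (i : W) : uni S {i} = S i := by
  unfold uni
  rw [Set.biUnion_singleton]

theorem CT2_uni_empty (S : W → Set V) : uni S ∅ = ∅ := by
  unfold uni
  exact Set.biUnion_empty S

theorem CT2_tri_ne {τ : Set V} (h : IsTri τ) : τ.Nonempty := by
  obtain ⟨u, v, w, -, -, -, rfl⟩ := h
  exact ⟨u, Or.inl rfl⟩

/-- a vertex on the boundary of a triangle has a neighbour on the same arc -/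
theorem CT2_nbr {K : Cx V} {N : Cx W} {S : W → Set V} (hG : Good K N S) {σ : Set V}
    (hK : K.face σ) (hT : IsTri σ) {i : W} (hi : S i ⊆ σ) (hi' : S i ≠ σ) :
    ∃ j, j ≠ i ∧ N.face {i, j} ∧ S i ∪ S j ⊆ σ ∧ S i ∪ S j ≠ σ := by
  obtain ⟨x, hx, hxi⟩ : ∃ x ∈ σ, x ∉ S i := by
    by_contra hcon
    push Not at hcon
    exact hi' (Set.Subset.antisymm hi hcon)
  have h1 : ∃ u' v', u' ≠ v' ∧ u' ∈ σ ∧ v' ∈ σ ∧ S i ⊆ {u', v'} ∧ ¬ σ ⊆ {u', v'} := by
    obtain ⟨u, v, w, huv, huw, hvw, rfl⟩ := hT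
    rcases hx with rfl | rfl | rfl
    · refine ⟨v, w, hvw, by simp, by simp, ?_, ?_⟩
      · intro y hy
        rcases hi hy with rfl | rfl | rfl
        · exact absurd hy hxi
        · simp
        · simp
      · intro h
        have := h (Or.inl rfl)
        simp [huv, huw] at this
    · refine ⟨u, w, huw, by simp, by simp, ?_, ?_⟩
      · intro y hy
        rcases hi hy with rfl | rfl | rfl
        · simp
        · exact absurd hy hxi
        · simp
      · intro h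
        have := h (Or.inr (Or.inl rfl))
        simp [huv.symm, hvw] at this
    · refine ⟨u, v, huv, by simp, by simp, ?_, ?_⟩
      · intro y hy
        rcases hi hy with rfl | rfl | rfl
        · simp
        · simp
        · exact absurd hy hxi
      · intro h
        have := h (Or.inr (Or.inr rfl))
        simp [huw.symm, hvw.symm] at this
  obtain ⟨u', v', hne, hu', hv', hS, hnot⟩ := h1
  have hface : K.face {u', v'} := K.down _ _ (by
    rintro y (rfl | rfl)
    · exact hu'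
    · exact hv') hK
  obtain ⟨a, ha, -⟩ := hG.one u'
  obtain ⟨b, hb, -⟩ := hG.one v'
  obtain ⟨m, p, hinj, h0, hm, hI, hf⟩ := hG.arc u' v' a b hne hface ha hb
  obtain ⟨k, hk, hpk⟩ := (hI i).1 hS
  have hm0 : m ≠ 0 := by
    rintro rfl
    rw [h0] at hm
    rw [hm] at ha
    rw [ha] at hb
    exact hne (Set.singleton_eq_singleton_iff.1 hb)
  have key : ∃ j, j ≠ i ∧ N.face {i, j} ∧ S j ⊆ {u', v'} := by
    rcases lt_or_eq_of_le hk with hk' | hk'
    · refine ⟨p (k + 1), ?_, ?_, (hI _).2 ⟨k + 1, by omega, rfl⟩⟩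
      · rw [← hpk]
        intro h
        have := hinj _ _ (by omega) hk h
        omega
      · rw [← hpk]
        exact (hf k (k + 1) hk (by omega)).2 (Or.inr (Or.inr rfl))
    · refine ⟨p (k - 1), ?_, ?_, (hI _).2 ⟨k - 1, by omega, rfl⟩⟩
      · rw [← hpk]
        intro h
        have := hinj _ _ (by omega) hk h
        omega
      · rw [← hpk]
        exact (hf k (k - 1) hk (by omega)).2 (Or.inr (Or.inl (by omega)))
  obtain ⟨j, hj1, hj2, hj3⟩ := key
  have hsub : S i ∪ S j ⊆ {u', v'} := Set.union_subset hS hj3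
  refine ⟨j, hj1, hj2, hsub.trans ?_, fun h => hnot (by rw [← h]; exact hsub)⟩
  rintro y (rfl | rfl)
  · exact hu'
  · exact hv'

theorem CT2_small {N : Cx W} (hN : N.Dim2) {s : Set W} (h : N.face s) (hne : s.Nonempty) :
    (∃ i, s = {i}) ∨ (∃ i j, i ≠ j ∧ s = {i, j}) ∨
      ∃ i j k, i ≠ j ∧ i ≠ k ∧ j ≠ k ∧ s = {i, j, k} := by
  obtain ⟨i, hi⟩ := hne
  by_cases h1 : s ⊆ {i}
  · exact Or.inl ⟨i, Set.Subset.antisymm h1 (Set.singleton_subset_iff.2 hi)⟩
  · obtain ⟨j, hj, hji⟩ := Set.not_subset.1 h1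
    have hij : i ≠ j := fun h => hji (by rw [h]; rfl)
    by_cases h2 : s ⊆ {i, j}
    · refine Or.inr (Or.inl ⟨i, j, hij, Set.Subset.antisymm h2 ?_⟩)
      rintro y (rfl | rfl)
      · exact hi
      · exact hj
    · obtain ⟨k, hk, hkij⟩ := Set.not_subset.1 h2
      simp only [Set.mem_insert_iff, Set.mem_singleton_iff, not_or] at hkij
      refine Or.inr (Or.inr ⟨i, j, k, hij, Ne.symm hkij.1, Ne.symm hkij.2,
        Set.Subset.antisymm ?_ ?_⟩)
      · intro l hl
        by_contra hcon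
        simp only [Set.mem_insert_iff, Set.mem_singleton_iff, not_or] at hcon
        refine hN i j k l hij (Ne.symm hkij.1) (Ne.symm hcon.1) (Ne.symm hkij.2)
          (Ne.symm hcon.2.1) (Ne.symm hcon.2.2) (N.down _ _ ?_ h)
        rintro y (rfl | rfl | rfl | rfl)
        · exact hi
        · exact hj
        · exact hk
        · exact hl
      · rintro y (rfl | rfl | rfl)
        · exact hi
        · exact hj
        · exact hk

variable [Fintype W] [DecidableEq W]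

theorem CT2_mem {N : Cx W} {S : W → Set V} {σ : Set V} {t : Finset W} :
    t ∈ Reg N S σ ↔ t.card = 3 ∧ N.face ↑t ∧ uni S ↑t = σ := by
  unfold Reg
  simp

theorem CT2_region (hr : S_RG) {K : Cx V} {N : Cx W} {S : W → Set V} (hG : Good K N S)
    {σ : Set V} (hK : K.face σ) (hT : IsTri σ) {s : Set W} (hs : N.face s) (hu : uni S s = σ) :
    ∃ t ∈ Reg N S σ, s ⊆ ↑t := by
  obtain ⟨-, hr2, hr3⟩ := hr V W K N S hG σ hK hT
  have hne : s.Nonempty := by
    rw [Set.nonempty_iff_ne_empty]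
    rintro rfl
    rw [CT2_uni_empty] at hu
    have := CT2_tri_ne hT
    rw [← hu] at this
    exact Set.not_nonempty_empty this
  rcases CT2_small hG.dim hs hne with ⟨i, rfl⟩ | ⟨i, j, hij, rfl⟩ | ⟨i, j, k, hij, hik, hjk, rfl⟩
  · rw [CT2_uni_single] at hu
    have h1 : i ∈ Vs (Reg N S σ) := (hr3 i).2 hu.le
    unfold Vs at h1
    rw [Finset.mem_biUnion] at h1
    obtain ⟨t, ht, hit⟩ := h1
    exact ⟨t, ht, Set.singleton_subset_iff.2 hit⟩
  · have h1 : deg (Reg N S σ) {i, j} = 2 :=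
      ((hr2 {i, j} (Finset.card_pair hij)).1).2 (by rw [Finset.coe_pair]; exact ⟨hs, hu⟩)
    have h2 : 0 < deg (Reg N S σ) {i, j} := by rw [h1]; exact Nat.two_pos
    obtain ⟨t, ht⟩ := Finset.card_pos.1 h2
    rw [Finset.mem_filter] at ht
    refine ⟨t, ht.1, ?_⟩
    have := Finset.coe_subset.2 ht.2
    rwa [Finset.coe_pair] at this
  · refine ⟨{i, j, k}, CT2_mem.2 ⟨Finset.card_eq_three.2 ⟨i, j, k, hij, hik, hjk, rfl⟩, ?_, ?_⟩, ?_⟩
    · push_cast
      exact hs
    · push_cast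
      exact hu
    · push_cast
      exact subset_rfl

variable [DecidableEq (W ⊕ Set V)]

theorem CT2_pre (t : Finset W) :
    Sum.inl ⁻¹' (↑(t.image (Sum.inl : W → W ⊕ Set V)) : Set (W ⊕ Set V)) = (↑t : Set W) := by
  rw [Finset.coe_image, Set.preimage_image_eq _ Sum.inl_injective]

theorem CT2_int1 (hm : S_discMap) (hr : S_RG) {K : Cx V} {N : Cx W} {S : W → Set V}
    (hG : Good K N S) {σ : Set V} (hK : K.face σ) (hT : IsTri σ) {f : Set (W ⊕ Set V)}
    (hf : IntF ((Reg N S σ).image (Finset.image (Sum.inl : W → W ⊕ Set V))) f) :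
    ∃ f0 : Set W, f = Sum.inl '' f0 ∧ uni S f0 = σ := by
  obtain ⟨-, hr2, hr3⟩ := hr V W K N S hG σ hK hT
  obtain ⟨hm1, hm2, -⟩ := hm W (W ⊕ Set V) Sum.inl Sum.inl_injective (Reg N S σ)
  rcases hf with ⟨t, ht, rfl⟩ | ⟨e, he, hde, rfl⟩ | ⟨y, hy, hyc, rfl⟩
  · rw [Finset.mem_image] at ht
    obtain ⟨t0, ht0, rfl⟩ := ht
    exact ⟨↑t0, Finset.coe_image, (CT2_mem.1 ht0).2.2⟩
  · obtain ⟨e0, rfl⟩ := hm2 e (by rw [hde]; exact Nat.two_pos)
    rw [Finset.card_image_of_injective _ Sum.inl_injective] at he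
    rw [hm1] at hde
    exact ⟨↑e0, Finset.coe_image, (((hr2 e0 he).1).1 hde).2⟩
  · unfold Vs at hy
    rw [Finset.mem_biUnion] at hy
    obtain ⟨t, ht, hyt⟩ := hy
    rw [Finset.mem_image] at ht
    obtain ⟨t0, ht0, rfl⟩ := ht
    rw [id, Finset.mem_image] at hyt
    obtain ⟨i, hi, rfl⟩ := hyt
    have hiV : i ∈ Vs (Reg N S σ) := by
      unfold Vs
      rw [Finset.mem_biUnion]
      exact ⟨t0, ht0, hi⟩
    have hSi : S i ⊆ σ := (hr3 i).1 hiV
    refine ⟨{i}, by rw [Set.image_singleton], ?_⟩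
    rw [CT2_uni_single]
    by_contra hne
    obtain ⟨j, hj1, hj2, hj3, hj4⟩ := CT2_nbr hG hK hT hSi hne
    have h1 : deg (Reg N S σ) {i, j} = 1 := by
      refine ((hr2 {i, j} (Finset.card_pair hj1.symm)).2).2 ?_
      rw [Finset.coe_pair, CT2_uni_pair]
      exact ⟨hj2, hj3, hj4⟩
    have h2 := hm1 {i, j}
    rw [h1, Finset.image_insert, Finset.image_singleton] at h2
    exact hyc (Sum.inl j) (fun h => hj1 (Sum.inl_injective h)) h2

theorem CT2_int2 (hm : S_discMap) (hr : S_RG) {K : Cx V} {N : Cx W} {S : W → Set V}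
    (hG : Good K N S) {σ : Set V} (hK : K.face σ) (hT : IsTri σ) {s : Set W} (hs : N.face s)
    (hu : uni S s = σ) :
    ∃ f, IntF ((Reg N S σ).image (Finset.image (Sum.inl : W → W ⊕ Set V))) f ∧
      f ⊆ Sum.inl '' s := by
  obtain ⟨-, hr2, hr3⟩ := hr V W K N S hG σ hK hT
  obtain ⟨hm1, hm2, -⟩ := hm W (W ⊕ Set V) Sum.inl Sum.inl_injective (Reg N S σ)
  have hne : s.Nonempty := by
    rw [Set.nonempty_iff_ne_empty]
    rintro rfl
    rw [CT2_uni_empty] at hu
    have := CT2_tri_ne hT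
    rw [← hu] at this
    exact Set.not_nonempty_empty this
  rcases CT2_small hG.dim hs hne with ⟨i, rfl⟩ | ⟨i, j, hij, rfl⟩ | ⟨i, j, k, hij, hik, hjk, rfl⟩
  · rw [CT2_uni_single] at hu
    have h1 : i ∈ Vs (Reg N S σ) := (hr3 i).2 hu.le
    unfold Vs at h1
    rw [Finset.mem_biUnion] at h1
    obtain ⟨t, ht, hit⟩ := h1
    refine ⟨{Sum.inl i}, Or.inr (Or.inr ⟨Sum.inl i, ?_, ?_, rfl⟩), by rw [Set.image_singleton]⟩
    · unfold Vs
      rw [Finset.mem_biUnion]
      exact ⟨t.image Sum.inl, Finset.mem_image_of_mem _ ht, Finset.mem_image_of_mem _ hit⟩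
    · intro c hc hd
      obtain ⟨e0, he0⟩ := hm2 {Sum.inl i, c} (by rw [hd]; exact Nat.one_pos)
      have h5 : c ∈ e0.image (Sum.inl : W → W ⊕ Set V) := by
        rw [← he0]
        exact Finset.mem_insert_of_mem (Finset.mem_singleton_self _)
      rw [Finset.mem_image] at h5
      obtain ⟨c0, -, rfl⟩ := h5
      have hne' : i ≠ c0 := fun h => hc (by rw [h])
      have h6 := hm1 {i, c0}
      rw [Finset.image_insert, Finset.image_singleton, hd] at h6
      have h7 := ((hr2 {i, c0} (Finset.card_pair hne')).2).1 h6.symm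
      rw [Finset.coe_pair, CT2_uni_pair] at h7
      refine h7.2.2 (Set.Subset.antisymm h7.2.1 ?_)
      rw [← hu]
      exact Set.subset_union_left
  · have h1 : deg (Reg N S σ) {i, j} = 2 :=
      ((hr2 {i, j} (Finset.card_pair hij)).1).2 (by rw [Finset.coe_pair]; exact ⟨hs, hu⟩)
    refine ⟨Sum.inl '' {i, j}, Or.inr (Or.inl ⟨({i, j} : Finset W).image Sum.inl, ?_, ?_, ?_⟩),
      subset_rfl⟩
    · rw [Finset.card_image_of_injective _ Sum.inl_injective, Finset.card_pair hij]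
    · rw [hm1, h1]
    · rw [Finset.coe_image, Finset.coe_pair]
  · refine ⟨Sum.inl '' {i, j, k}, Or.inl ⟨({i, j, k} : Finset W).image Sum.inl, ?_, ?_⟩,
      subset_rfl⟩
    · refine Finset.mem_image_of_mem _ (CT2_mem.2
        ⟨Finset.card_eq_three.2 ⟨i, j, k, hij, hik, hjk, rfl⟩, ?_, ?_⟩)
      · push_cast
        exact hs
      · push_cast
        exact hu
    · rw [Finset.coe_image]
      push_cast
      rfl

end CT2

theorem prfCT2 (hm : S_discMap) (hd : S_DC4) (hr : S_RG) : S_CT2 := by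
  intro V W _ _ K N S hG F σ hF hK hT hσF hD Δ Δ' hΔ hΔ'
  letI : DecidableEq (W ⊕ Set V) := Classical.decEq _
  obtain ⟨-, hr2, hr3⟩ := hr V W K N S hG σ hK hT
  obtain ⟨hm1, hm2, hm3⟩ := hm W (W ⊕ Set V) Sum.inl Sum.inl_injective (Reg N S σ)
  -- interior faces and faces of `N`
  have hsub : ∀ s : Set (W ⊕ Set V), N.face (Sum.inl ⁻¹' s) → ∀ f,
      IntF ((Reg N S σ).image (Finset.image (Sum.inl : W → W ⊕ Set V))) f → f ⊆ s →
      uni S (Sum.inl ⁻¹' s) = σ := by
    intro s hs f hf hfs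
    obtain ⟨f0, rfl, hf0⟩ := CT2_int1 hm hr hG hK hT hf
    have h1 : f0 ⊆ Sum.inl ⁻¹' s := fun i hi => hfs ⟨i, hi, rfl⟩
    have h2 : σ ⊆ uni S (Sum.inl ⁻¹' s) := by
      rw [← hf0]
      exact CT2_uni_mono S h1
    exact (CT2_max hG.kdim (hG.car _ hs) hT h2).symm
  have hsub2 : ∀ s : Set (W ⊕ Set V), ∀ ρ ∈ F, ∀ i j, S i ∪ S j ⊆ ρ → Sum.inl ⁻¹' s ⊆ {i, j} →
      ∀ f, IntF ((Reg N S σ).image (Finset.image (Sum.inl : W → W ⊕ Set V))) f → ¬ f ⊆ s := by
    intro s ρ hρ i j hij hs f hf hfs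
    obtain ⟨f0, rfl, hf0⟩ := CT2_int1 hm hr hG hK hT hf
    have h1 : f0 ⊆ {i, j} := fun i hi => hs (hfs ⟨i, hi, rfl⟩)
    have h2 : σ ⊆ ρ := by
      rw [← hf0]
      refine (CT2_uni_mono S h1).trans ?_
      rw [CT2_uni_pair]
      exact hij
    have h3 := CT2_max hG.kdim (hF ρ hρ).1 hT h2
    exact hσF (by rw [h3]; exact hρ)
  refine hd (W ⊕ Set V) ((Reg N S σ).image (Finset.image Sum.inl)) (hm3 hD) Δ Δ' (Sum.inr σ)
    ?_ ?_ ?_ ?_
  · intro t ht
    rw [Finset.mem_image] at ht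
    obtain ⟨t0, ht0, rfl⟩ := ht
    obtain ⟨-, h2, h3⟩ := CT2_mem.1 ht0
    refine (hΔ _).2 (Or.inl ⟨?_, ?_, ?_⟩)
    · intro ρ hρ
      rw [Finset.coe_image] at hρ
      obtain ⟨i, -, hi⟩ := hρ
      exact absurd hi (by simp)
    · rw [CT2_pre]
      exact h2
    · rw [CT2_pre, h3]
      exact hσF
  · intro s hs f hf hfs
    rcases (hΔ s).1 hs with ⟨h1, h2, h3⟩ | ⟨ρ, hρ, h1, h2, i, j, hij, h3, h4, h5, h6⟩
    · have h4 := hsub s h2 f hf hfs
      obtain ⟨t0, ht0, hst⟩ := CT2_region hr hG hK hT h2 h4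
      refine ⟨t0.image Sum.inl, Finset.mem_image_of_mem _ ht0, ?_⟩
      rw [Finset.coe_image]
      rintro (w | ρ) hw
      · exact ⟨w, hst hw, rfl⟩
      · exact absurd hw (h1 ρ)
    · exact absurd hfs (hsub2 s ρ hρ i j h4 h6 f hf)
  · intro s hs hσs
    rcases (hΔ s).1 hs with ⟨h1, -⟩ | ⟨ρ, hρ, h1, h2, -⟩
    · exact h1 σ hσs
    · rw [h2 σ hσs] at hσF
      exact hσF hρ
  · intro s
    rw [hΔ' s]
    constructor
    · rintro (⟨h1, h2, h3⟩ | ⟨ρ, hρ, h1, h2, i, j, hij, h3, h4, h5, h6⟩)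
      · refine Or.inl ⟨h1 σ, (hΔ s).2 (Or.inl ⟨h1, h2, fun h => h3 (Set.mem_insert_of_mem _ h)⟩),
          ?_⟩
        intro f hf hfs
        exact h3 (by rw [hsub s h2 f hf hfs]; exact Set.mem_insert _ _)
      · rcases Set.mem_insert_iff.1 hρ with rfl | hρF
        · refine Or.inr ⟨h1, ({i, j} : Finset W).image Sum.inl, ?_, ?_, ?_⟩
          · rw [Finset.card_image_of_injective _ Sum.inl_injective, Finset.card_pair hij]
          · rw [hm1]
            refine ((hr2 {i, j} (Finset.card_pair hij)).2).2 ?_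
            rw [Finset.coe_pair, CT2_uni_pair]
            exact ⟨h3, h4, h5⟩
          · rw [Finset.coe_image, Finset.coe_pair]
            rintro (w | ρ') ⟨hw, hw'⟩
            · exact ⟨w, h6 hw, rfl⟩
            · exact absurd (by rw [h2 ρ' hw]; rfl) hw'
        · refine Or.inl ⟨?_, (hΔ s).2 (Or.inr ⟨ρ, hρF, h1, h2, i, j, hij, h3, h4, h5, h6⟩),
            hsub2 s ρ hρF i j h4 h6⟩
          intro hσs
          rw [← h2 σ hσs] at hρF
          exact hσF hρF
    · rintro (⟨h1, h2, h3⟩ | ⟨h1, e, he, hde, hse⟩)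
      · rcases (hΔ s).1 h2 with ⟨h4, h5, h6⟩ | ⟨ρ, hρ, h4⟩
        · refine Or.inl ⟨h4, h5, ?_⟩
          intro h7
          rcases Set.mem_insert_iff.1 h7 with h8 | h8
          · obtain ⟨f, hf, hfs⟩ := CT2_int2 hm hr hG hK hT h5 h8
            refine h3 f hf (hfs.trans ?_)
            rintro _ ⟨w, hw, rfl⟩
            exact hw
          · exact h6 h8
        · exact Or.inr ⟨ρ, Set.mem_insert_of_mem _ hρ, h4⟩
      · obtain ⟨e0, rfl⟩ := hm2 e (by rw [hde]; exact Nat.one_pos)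
        rw [Finset.card_image_of_injective _ Sum.inl_injective] at he
        rw [hm1] at hde
        have h7 := ((hr2 e0 he).2).1 hde
        obtain ⟨i, j, hij, rfl⟩ := Finset.card_eq_two.1 he
        rw [Finset.coe_pair, CT2_uni_pair] at h7
        rw [Finset.coe_image, Finset.coe_pair] at hse
        refine Or.inr ⟨σ, Set.mem_insert _ _, h1, ?_, i, j, hij, h7.1, h7.2.1, h7.2.2, ?_⟩
        · intro ρ hρ
          by_contra hne
          obtain ⟨w, -, hw⟩ := hse ⟨hρ, fun h => hne (Sum.inr_injective h)⟩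
          exact absurd hw (by simp)
        · intro w hw
          obtain ⟨w', hw', hww⟩ := hse ⟨hw, by simp⟩
          rw [← Sum.inl_injective hww]
          exact hw'

end Pool.Agent.MP552024
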