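import Pool.Agent.Work.MP_552024_lc.Two.StmtsE

/-!
All regions coned off: the complex is the one of the labelled graph of the arcs. MP_552024_lc,
dimension at most three.
-/

set_option autoImplicit false

namespace Pool.Agent.MP552024

section CT3

variable {V W : Type}

theorem ct3_tri_eq {K : Cx V} (hK : K.Dim2) {ρ σ : Set V} (hρ : K.face ρ) (hσ : IsTri σ)
    (h : σ ⊆ ρ) : σ = ρ := by
  refine Set.Subset.antisymm h (fun x hx => ?_)
  obtain ⟨u, v, w, huv, huw, hvw, rfl⟩ := hσ
  by_contra hx2
  simp only [Set.mem_insert_iff, Set.mem_singleton_iff, not_or] at hx2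
  refine hK u v w x huv huw (fun e => hx2.1 e.symm) hvw (fun e => hx2.2.1 e.symm)
    (fun e => hx2.2.2 e.symm) (K.down _ _ ?_ hρ)
  intro y hy
  simp only [Set.mem_insert_iff, Set.mem_singleton_iff] at hy
  rcases hy with rfl | rfl | rfl | rfl
  · exact h (by simp)
  · exact h (by simp)
  · exact h (by simp)
  · exact hx

theorem ct3_pair {K : Cx V} (hK : K.Dim2) {ρ : Set V} (hρ : K.face ρ) (h : ¬ IsTri ρ)
    (hne : ρ.Nonempty) : ∃ u v, ρ ⊆ {u, v} := by
  obtain ⟨u, hu⟩ := hne
  by_contra hcon
  push Not at hcon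
  have h1 := hcon u u
  rw [Set.not_subset] at h1
  obtain ⟨v, hv, hv2⟩ := h1
  have hvu : v ≠ u := by simpa using hv2
  have h2 := hcon u v
  rw [Set.not_subset] at h2
  obtain ⟨w, hw, hw2⟩ := h2
  simp only [Set.mem_insert_iff, Set.mem_singleton_iff, not_or] at hw2
  have hT : IsTri ({u, v, w} : Set V) :=
    ⟨u, v, w, hvu.symm, fun e => hw2.1 e.symm, fun e => hw2.2 e.symm, rfl⟩
  have hsub : ({u, v, w} : Set V) ⊆ ρ := by
    intro y hy
    simp only [Set.mem_insert_iff, Set.mem_singleton_iff] at hy
    rcases hy with rfl | rfl | rfl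
    · exact hu
    · exact hv
    · exact hw
  exact h (ct3_tri_eq hK hρ hT hsub ▸ hT)

theorem ct3_two {σ ρ : Set V} (hσ : IsTri σ) (h : ρ ⊆ σ) (hne : ρ ≠ σ) :
    ∃ u v, u ≠ v ∧ u ∈ σ ∧ v ∈ σ ∧ ρ ⊆ {u, v} ∧ ({u, v} : Set V) ≠ σ := by
  obtain ⟨u, v, w, huv, huw, hvw, rfl⟩ := hσ
  have key : ∀ x, x ∈ ({u, v, w} : Set V) → x ∉ ρ → ∀ y ∈ ρ, y ≠ x := by
    rintro x _ hx y hy rfl
    exact hx hy
  have hx : ∃ x, x ∈ ({u, v, w} : Set V) ∧ x ∉ ρ := by
    by_contra hcon
    push Not at hcon
    exact hne (Set.Subset.antisymm h hcon)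
  obtain ⟨x, hx, hxρ⟩ := hx
  have hk := key x hx hxρ
  simp only [Set.mem_insert_iff, Set.mem_singleton_iff] at hx
  have h2 : ∀ y ∈ ρ, y = u ∨ y = v ∨ y = w := by
    intro y hy
    simpa using h hy
  rcases hx with rfl | rfl | rfl
  · refine ⟨v, w, hvw, by simp, by simp, fun y hy => ?_, fun e => ?_⟩
    · rcases h2 y hy with e | e | e
      · exact absurd e (hk y hy)
      · simp [e]
      · simp [e]
    · have : x ∈ ({v, w} : Set V) := by rw [e]; simp
      simp only [Set.mem_insert_iff, Set.mem_singleton_iff] at this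
      rcases this with h | h
      · exact huv h
      · exact huw h
  · refine ⟨u, w, huw, by simp, by simp, fun y hy => ?_, fun e => ?_⟩
    · rcases h2 y hy with e | e | e
      · simp [e]
      · exact absurd e (hk y hy)
      · simp [e]
    · have : x ∈ ({u, w} : Set V) := by rw [e]; simp
      simp only [Set.mem_insert_iff, Set.mem_singleton_iff] at this
      rcases this with h | h
      · exact huv h.symm
      · exact hvw h
  · refine ⟨u, v, huv, by simp, by simp, fun y hy => ?_, fun e => ?_⟩
    · rcases h2 y hy with e | e | e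
      · simp [e]
      · simp [e]
      · exact absurd e (hk y hy)
    · have : x ∈ ({u, v} : Set V) := by rw [e]; simp
      simp only [Set.mem_insert_iff, Set.mem_singleton_iff] at this
      rcases this with h | h
      · exact huw h.symm
      · exact hvw h.symm

/-- every vertex in the boundary of a region has a neighbour in the boundary -/
theorem ct3_nb {K : Cx V} {N : Cx W} {S : W → Set V} (hG : Good K N S) {σ : Set V}
    (hσ : K.face σ) (hT : IsTri σ) (i : W) (h1 : S i ⊆ σ) (h2 : S i ≠ σ) :
    ∃ j, i ≠ j ∧ N.face {i, j} ∧ S i ∪ S j ⊆ σ ∧ S i ∪ S j ≠ σ := by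
  obtain ⟨u, v, huv, hu, hv, hs, hne⟩ := ct3_two hT h1 h2
  have hsub : ({u, v} : Set V) ⊆ σ := by
    intro y hy
    simp only [Set.mem_insert_iff, Set.mem_singleton_iff] at hy
    rcases hy with rfl | rfl
    · exact hu
    · exact hv
  have hf : K.face {u, v} := K.down _ _ hsub hσ
  obtain ⟨a, ha, -⟩ := hG.one u
  obtain ⟨b, hb, -⟩ := hG.one v
  obtain ⟨m, p, hinj, hp0, hpm, hI, hadj⟩ := hG.arc u v a b huv hf ha hb
  have hm : 1 ≤ m := by
    rcases Nat.eq_zero_or_pos m with h | h
    · exfalso
      rw [h] at hpm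
      have hab : a = b := hp0.symm.trans hpm
      rw [hab, hb] at ha
      have := Set.singleton_injective ha
      exact huv this.symm
    · exact h
  obtain ⟨k, hk, hki⟩ := (hI i).1 hs
  have hexj : ∃ l, l ≤ m ∧ l ≠ k ∧ (k = l + 1 ∨ l = k + 1) := by
    rcases Nat.eq_zero_or_pos k with h | h
    · exact ⟨1, hm, by omega, by omega⟩
    · exact ⟨k - 1, by omega, by omega, by omega⟩
  obtain ⟨l, hl, hlk, hkl⟩ := hexj
  have hSl : S (p l) ⊆ {u, v} := (hI (p l)).2 ⟨l, hl, rfl⟩
  have hun : S i ∪ S (p l) ⊆ {u, v} := Set.union_subset hs hSl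
  refine ⟨p l, ?_, ?_, hun.trans hsub, ?_⟩
  · intro e
    rw [← hki] at e
    exact hlk (hinj l k hl hk e.symm)
  · rw [← hki]
    refine (hadj k l hk hl).2 ?_
    rcases hkl with h | h
    · exact Or.inr (Or.inl h)
    · exact Or.inr (Or.inr h)
  · intro e
    apply hne
    refine Set.Subset.antisymm hsub ?_
    rw [← e]
    exact hun

/-- no vertex with a large label -/
theorem ct3_notri {K : Cx V} {N : Cx W} {S : W → Set V} (hG : Good K N S)
    {s : Set (W ⊕ Set V)} (h : NFface N S {σ | K.face σ ∧ IsTri σ} s) (i : W)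
    (hi : Sum.inl i ∈ s) : ¬ IsTri (S i) := by
  intro hT
  rcases h with ⟨-, hf, hu⟩ | ⟨σ, ⟨hσ, hσT⟩, -, -, a, b, -, -, h1, h2, h3⟩
  · have hsub : S i ⊆ uni S (Sum.inl ⁻¹' s) := by
      intro x hx
      simp only [uni, Set.mem_iUnion]
      exact ⟨i, hi, hx⟩
    have hface := hG.car _ hf
    have e := ct3_tri_eq hG.kdim hface hT hsub
    exact hu ⟨hface, e ▸ hT⟩
  · have hsub : S i ⊆ S a ∪ S b := by
      have h4 : i ∈ ({a, b} : Set W) := h3 hi
      simp only [Set.mem_insert_iff, Set.mem_singleton_iff] at h4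
      rcases h4 with rfl | rfl
      · exact Set.subset_union_left
      · exact Set.subset_union_right
    have e := ct3_tri_eq hG.kdim hσ hT (hsub.trans h1)
    apply h2
    refine Set.Subset.antisymm h1 ?_
    rw [← e]
    exact hsub

theorem ct3_face {K : Cx V} {N : Cx W} {S : W → Set V} (hG : Good K N S)
    (s : Set ({i : W // ¬ IsTri (S i)} ⊕ Set V)) :
    CCface K (arcG N S) (fun i => S i.1) s ↔
      NFface N S {σ | K.face σ ∧ IsTri σ} (Sum.map Subtype.val id '' s) := by
  have e1 : ∀ i : W, Sum.inl i ∈ Sum.map (Subtype.val : {i : W // ¬ IsTri (S i)} → W)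
      (id : Set V → Set V) '' s ↔ ∃ h : ¬ IsTri (S i), Sum.inl ⟨i, h⟩ ∈ s := by
    intro i
    constructor
    · rintro ⟨x | x, hx, hx2⟩
      · simp only [Sum.map_inl, Sum.inl.injEq] at hx2
        subst hx2
        exact ⟨x.2, hx⟩
      · simp at hx2
    · rintro ⟨h, hx⟩
      exact ⟨_, hx, by simp⟩
  have e2 : ∀ σ : Set V, Sum.inr σ ∈ Sum.map (Subtype.val : {i : W // ¬ IsTri (S i)} → W)
      (id : Set V → Set V) '' s ↔ Sum.inr σ ∈ s := by
    intro σ
    constructor
    · rintro ⟨x | x, hx, hx2⟩
      · simp at hx2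
      · simp only [Sum.map_inr, id, Sum.inr.injEq] at hx2
        subst hx2
        exact hx
    · intro hx
      exact ⟨_, hx, by simp⟩
  have e3 : uni S (Sum.inl ⁻¹' (Sum.map (Subtype.val : {i : W // ¬ IsTri (S i)} → W)
      (id : Set V → Set V) '' s)) = uni (fun i : {i : W // ¬ IsTri (S i)} => S i.1)
      (Sum.inl ⁻¹' s) := by
    ext x
    simp only [uni, Set.mem_iUnion, Set.mem_preimage, exists_prop]
    constructor
    · rintro ⟨i, hi, hx⟩
      obtain ⟨h, hi⟩ := (e1 i).1 hi
      exact ⟨⟨i, h⟩, hi, hx⟩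
    · rintro ⟨i, hi, hx⟩
      exact ⟨i.1, (e1 i.1).2 ⟨i.2, hi⟩, hx⟩
  constructor
  · rintro ⟨⟨τ, hτ, hsτ, hσ⟩, huniq⟩
    by_cases hex : ∃ σ, Sum.inr σ ∈ s
    · obtain ⟨σ, hσs⟩ := hex
      obtain ⟨hKσ, hTσ, hun⟩ := hσ σ hσs
      refine Or.inr ⟨σ, ⟨hKσ, hTσ⟩, (e2 σ).2 hσs, fun σ' h' => huniq σ' σ ((e2 σ').1 h') hσs, ?_⟩
      have hSi : ∀ i : {i : W // ¬ IsTri (S i)}, Sum.inl i ∈ s → S i.1 ⊆ σ := by
        intro i hi x hx
        apply hun
        simp only [uni, Set.mem_iUnion]
        exact ⟨i, hi, hx⟩
      by_cases hne : (Sum.inl ⁻¹' s : Set {i : W // ¬ IsTri (S i)}).Nonempty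
      · obtain ⟨i, hi⟩ := hne
        have hi' : S i.1 ≠ σ := fun e => i.2 (e ▸ hTσ)
        by_cases hall : ∀ j, Sum.inl j ∈ s → j = i
        · obtain ⟨j, hij, hf, h1, h2⟩ := ct3_nb hG hKσ hTσ i.1 (hSi i hi) hi'
          refine ⟨i.1, j, hij, hf, h1, h2, fun k hk => ?_⟩
          obtain ⟨h, hk⟩ := (e1 k).1 hk
          have := hall _ hk
          rw [← this]
          simp
        · push Not at hall
          obtain ⟨j, hj, hji⟩ := hall
          rcases hτ with rfl | ⟨a, b, hab, rfl⟩
          · exact absurd (hsτ hi) (by simp)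
          · have hia := hsτ hi
            have hja := hsτ hj
            simp only [Set.mem_insert_iff, Set.mem_singleton_iff] at hia hja
            have hadj : (arcG N S).Adj i j := by
              rcases hia with rfl | rfl <;> rcases hja with rfl | rfl
              · exact absurd rfl hji
              · rcases hab with h | h
                · exact absurd h.symm hji
                · exact h
              · rcases hab with h | h
                · exact absurd h hji
                · exact h.symm
              · exact absurd rfl hji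
            refine ⟨i.1, j.1, fun e => hadj.1 (Subtype.ext e), hadj.2.1,
              Set.union_subset (hSi i hi) (hSi j hj), fun e => hadj.2.2 (e ▸ hTσ), fun k hk => ?_⟩
            obtain ⟨h, hk⟩ := (e1 k).1 hk
            have hka := hsτ hk
            simp only [Set.mem_insert_iff, Set.mem_singleton_iff] at hka ⊢
            rcases hia with rfl | rfl <;> rcases hja with rfl | rfl
            · exact absurd rfl hji
            · rcases hka with e | e
              · left; rw [← e]
              · right; rw [← e]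
            · rcases hka with e | e
              · right; rw [← e]
              · left; rw [← e]
            · exact absurd rfl hji
      · have hemp : ∀ j, Sum.inl j ∉ s := fun j hj => hne ⟨j, hj⟩
        obtain ⟨u, v, w, huv, huw, hvw, hσe⟩ := id hTσ
        obtain ⟨a, ha, -⟩ := hG.one u
        have hau : S a ⊆ σ := by
          intro x hx
          rw [ha] at hx
          rw [hσe]
          simp only [Set.mem_singleton_iff] at hx
          simp [hx]
        have hane : S a ≠ σ := by
          intro e
          have hv : v ∈ S a := by rw [e, hσe]; simp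
          rw [ha] at hv
          exact huv (by simpa using hv.symm)
        obtain ⟨j, hij, hf, h1, h2⟩ := ct3_nb hG hKσ hTσ a hau hane
        refine ⟨a, j, hij, hf, h1, h2, fun k hk => ?_⟩
        obtain ⟨h, hk⟩ := (e1 k).1 hk
        exact absurd hk (hemp _)
    · push Not at hex
      refine Or.inl ⟨fun σ h => hex σ ((e2 σ).1 h), ?_, ?_⟩
      · rcases hτ with rfl | ⟨a, b, hab, rfl⟩
        · refine N.down _ _ (fun k hk => ?_) N.empt
          obtain ⟨h, hk⟩ := (e1 k).1 hk
          exact hsτ hk
        · have hab2 : N.face {a.1, b.1} := by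
            rcases hab with rfl | h
            · simpa using N.vert a.1
            · exact h.2.1
          refine N.down _ _ (fun k hk => ?_) hab2
          obtain ⟨h, hk⟩ := (e1 k).1 hk
          have := hsτ hk
          simp only [Set.mem_insert_iff, Set.mem_singleton_iff] at this ⊢
          rcases this with e | e
          · left; rw [← e]
          · right; rw [← e]
      · rw [e3]
        rintro ⟨hf, hT⟩
        rcases hτ with rfl | ⟨a, b, hab, rfl⟩
        · obtain ⟨u, v, w, -, -, -, e⟩ := hT
          have hu : u ∈ ({u, v, w} : Set V) := by simp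
          rw [← e] at hu
          simp only [uni, Set.mem_iUnion, exists_prop] at hu
          obtain ⟨i, hi, -⟩ := hu
          exact hsτ hi
        · have hab2 : N.face {a.1, b.1} ∧ ¬ IsTri (S a.1 ∪ S b.1) := by
            rcases hab with rfl | h
            · refine ⟨by simpa using N.vert a.1, ?_⟩
              rw [Set.union_self]
              exact a.2
            · exact h.2
          have huab : uni S {a.1, b.1} = S a.1 ∪ S b.1 := by
            simp [uni, Set.iUnion_or, Set.iUnion_union_distrib]
          have hK := hG.car _ hab2.1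
          rw [huab] at hK
          have hsub : uni (fun i : {i : W // ¬ IsTri (S i)} => S i.1) (Sum.inl ⁻¹' s) ⊆
              S a.1 ∪ S b.1 := by
            intro x hx
            simp only [uni, Set.mem_iUnion, exists_prop] at hx
            obtain ⟨i, hi, hx⟩ := hx
            have := hsτ hi
            simp only [Set.mem_insert_iff, Set.mem_singleton_iff] at this
            rcases this with rfl | rfl
            · exact Or.inl hx
            · exact Or.inr hx
          have e := ct3_tri_eq hG.kdim hK hT hsub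
          exact hab2.2 (e ▸ hT)
  · intro hNF
    rcases hNF with ⟨hno, hf, hu⟩ | ⟨σ, ⟨hσ, hσT⟩, hin, huniq, a, b, hab, hfab, h1, h2, h3⟩
    · have hno' : ∀ σ, Sum.inr σ ∉ s := fun σ h => hno σ ((e2 σ).2 h)
      refine ⟨?_, fun σ σ' h => absurd h (hno' σ)⟩
      by_cases hne : (Sum.inl ⁻¹' s : Set {i : W // ¬ IsTri (S i)}).Nonempty
      · obtain ⟨i, hi⟩ := hne
        by_cases hall : ∀ j, Sum.inl j ∈ s → j = i
        · refine ⟨{i, i}, Or.inr ⟨i, i, Or.inl rfl, rfl⟩, fun j hj => ?_,
            fun σ h => absurd h (hno' σ)⟩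
          rw [hall j hj]
          simp
        · push Not at hall
          obtain ⟨j, hj, hji⟩ := hall
          have hi' := (e1 i.1).2 ⟨i.2, hi⟩
          have hj' := (e1 j.1).2 ⟨j.2, hj⟩
          have hK := hG.car _ hf
          have hSub : ∀ k : W, Sum.inl k ∈ Sum.map (Subtype.val : {i : W // ¬ IsTri (S i)} → W)
              (id : Set V → Set V) '' s → S k ⊆ uni S (Sum.inl ⁻¹' (Sum.map
              (Subtype.val : {i : W // ¬ IsTri (S i)} → W) (id : Set V → Set V) '' s)) := by
            intro k hk x hx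
            simp only [uni, Set.mem_iUnion]
            exact ⟨k, hk, hx⟩
          have hnT : ¬ IsTri (uni S (Sum.inl ⁻¹' (Sum.map
              (Subtype.val : {i : W // ¬ IsTri (S i)} → W) (id : Set V → Set V) '' s))) :=
            fun h => hu ⟨hK, h⟩
          have hij : i.1 ≠ j.1 := fun e => hji (Subtype.ext e.symm)
          refine ⟨{i, j}, Or.inr ⟨i, j, Or.inr ⟨fun e => hji e.symm, ?_, ?_⟩, rfl⟩, ?_,
            fun σ h => absurd h (hno' σ)⟩
          · refine N.down _ _ (fun k hk => ?_) hf
            simp only [Set.mem_insert_iff, Set.mem_singleton_iff] at hk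
            rcases hk with rfl | rfl
            · exact hi'
            · exact hj'
          · intro hT
            have e := ct3_tri_eq hG.kdim hK hT (Set.union_subset (hSub _ hi') (hSub _ hj'))
            exact hnT (e ▸ hT)
          · intro k hk
            by_contra hkn
            simp only [Set.mem_insert_iff, Set.mem_singleton_iff, not_or] at hkn
            have hk' := (e1 k.1).2 ⟨k.2, hk⟩
            have hne2 : (uni S (Sum.inl ⁻¹' (Sum.map
              (Subtype.val : {i : W // ¬ IsTri (S i)} → W) (id : Set V → Set V) '' s))).Nonempty := by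
              obtain ⟨x, hx⟩ := hG.ne i.1
              exact ⟨x, hSub _ hi' hx⟩
            obtain ⟨u, v, huv⟩ := ct3_pair hG.kdim hK hnT hne2
            refine hG.flat i.1 j.1 k.1 hij (fun e => hkn.1 (Subtype.ext e.symm))
              (fun e => hkn.2 (Subtype.ext e.symm)) ?_ u v ?_
            · refine N.down _ _ (fun l hl => ?_) hf
              simp only [Set.mem_insert_iff, Set.mem_singleton_iff] at hl
              rcases hl with rfl | rfl | rfl
              · exact hi'
              · exact hj'
              · exact hk'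
            · exact (Set.union_subset (Set.union_subset (hSub _ hi') (hSub _ hj'))
                (hSub _ hk')).trans huv
      · refine ⟨∅, Or.inl rfl, fun j hj => absurd ⟨j, hj⟩ hne, fun σ h => absurd h (hno' σ)⟩
    · have hnt : ∀ c : W, S c ⊆ S a ∪ S b → ¬ IsTri (S c) := by
        intro c hc hT
        have e := ct3_tri_eq hG.kdim hσ hT (hc.trans h1)
        apply h2
        refine Set.Subset.antisymm h1 ?_
        rw [← e]
        exact hc
      have ha := hnt a Set.subset_union_left
      have hb := hnt b Set.subset_union_right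
      have hnab : ¬ IsTri (S a ∪ S b) := by
        intro hT
        exact h2 (ct3_tri_eq hG.kdim hσ hT h1)
      refine ⟨⟨{⟨a, ha⟩, ⟨b, hb⟩}, Or.inr ⟨_, _, Or.inr ⟨?_, hfab, hnab⟩, rfl⟩, fun k hk => ?_,
        fun σ' h' => ?_⟩, fun σ' σ'' h' h'' => ?_⟩
      · intro e
        exact hab (congrArg Subtype.val e)
      · have hk' := h3 ((e1 k.1).2 ⟨k.2, hk⟩)
        simp only [Set.mem_insert_iff, Set.mem_singleton_iff] at hk' ⊢
        rcases hk' with e | e
        · left; exact Subtype.ext e
        · right; exact Subtype.ext e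
      · have e := huniq σ' ((e2 σ').2 h')
        rw [e]
        refine ⟨hσ, hσT, ?_⟩
        intro x hx
        simp only [uni, Set.mem_iUnion, exists_prop] at hx
        obtain ⟨i, hi, hx⟩ := hx
        have hk' := h3 ((e1 i.1).2 ⟨i.2, hi⟩)
        simp only [Set.mem_insert_iff, Set.mem_singleton_iff] at hk'
        rcases hk' with e | e
        · exact h1 (Or.inl (e ▸ hx))
        · exact h1 (Or.inr (e ▸ hx))
      · rw [huniq σ' ((e2 σ').2 h'), huniq σ'' ((e2 σ'').2 h'')]

open Classical in
/-- extension by zero -/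
noncomputable def ct3T (S : W → Set V) (z : {i : W // ¬ IsTri (S i)} ⊕ Set V → ℝ) :
    W ⊕ Set V → ℝ :=
  Sum.elim (fun i => if h : ¬ IsTri (S i) then z (Sum.inl ⟨i, h⟩) else 0) (fun σ => z (Sum.inr σ))

theorem ct3T_supp (S : W → Set V) (z : {i : W // ¬ IsTri (S i)} ⊕ Set V → ℝ) :
    {x | ct3T S z x ≠ 0} = Sum.map Subtype.val id '' {y | z y ≠ 0} := by
  ext x
  constructor
  · intro hx
    rcases x with i | σ
    · have hx' : ct3T S z (Sum.inl i) ≠ 0 := hx
      simp only [ct3T, Sum.elim_inl] at hx'
      by_cases h : IsTri (S i)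
      · simp [h] at hx'
      · rw [dif_pos h] at hx'
        exact ⟨Sum.inl ⟨i, h⟩, hx', by simp⟩
    · have hx' : ct3T S z (Sum.inr σ) ≠ 0 := hx
      simp only [ct3T, Sum.elim_inr] at hx'
      exact ⟨Sum.inr σ, hx', by simp⟩
  · rintro ⟨y | σ, hy, rfl⟩
    · change ct3T S z (Sum.inl y.1) ≠ 0
      simp only [ct3T, Sum.elim_inl]
      rw [dif_pos y.2]
      exact hy
    · change ct3T S z (Sum.inr σ) ≠ 0
      simp only [ct3T, Sum.elim_inr]
      exact hy

end CT3

theorem prfCT3 : S_CT3 := by
  intro V W K N S hG Δ hΔ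
  refine Eqv.of_maps (ct3T S) (fun z y => z (Sum.map Subtype.val id y)) ?_ ?_ ?_ ?_ ?_ ?_
  · rintro (i | σ)
    · by_cases h : IsTri (S i)
      · have : (fun z => ct3T S z (Sum.inl i)) = fun _ => (0 : ℝ) := by
          funext z
          simp [ct3T, h]
        rw [this]
        exact LP_zero
      · have : (fun z => ct3T S z (Sum.inl i)) = fun z => z (Sum.inl ⟨i, h⟩) := by
          funext z
          simp [ct3T, h]
        rw [this]
        exact LP_coord _
    · exact LP_coord (Sum.inr σ)
  · intro y
    exact LP_coord (Sum.map Subtype.val id y)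
  · intro z hz
    refine ⟨?_, ?_⟩
    · rintro (i | σ)
      · by_cases h : IsTri (S i)
        · simp [ct3T, h]
        · have : ct3T S z (Sum.inl i) = z (Sum.inl ⟨i, h⟩) := by simp [ct3T, h]
          rw [this]
          exact hz.1 _
      · exact hz.1 (Sum.inr σ)
    · rw [ct3T_supp]
      exact (hΔ _).2 ((ct3_face hG _).1 hz.2)
  · intro z hz
    refine ⟨fun y => hz.1 _, ?_⟩
    refine (ct3_face hG _).2 ((hΔ _).1 (Δ.down _ _ ?_ hz.2))
    rintro x ⟨y, hy, rfl⟩
    exact hy
  · intro z hz
    funext y
    rcases y with i | σ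
    · simp [ct3T, i.2]
    · simp [ct3T]
  · intro z hz
    funext x
    rcases x with i | σ
    · by_cases h : IsTri (S i)
      · have h0 : z (Sum.inl i) = 0 := by
          by_contra hne
          exact ct3_notri hG ((hΔ _).1 hz.2) i hne h
        simp [ct3T, h, h0]
      · simp [ct3T, h]
    · simp [ct3T]

end Pool.Agent.MP552024
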