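import Pool.Agent.Work.MP_552024_lc.Two.StmtsE

/-!
The arcs of a good model form a GoodG graph. MP_552024_lc, dimension at most three.
-/

set_option autoImplicit false

namespace Pool.Agent.MP552024

namespace CT4

variable {V W : Type}

theorem uni_single (S : W → Set V) (i : W) : uni S {i} = S i := by
  simp [uni]

theorem uni_pair (S : W → Set V) (i j : W) : uni S {i, j} = S i ∪ S j := by
  simp [uni]

theorem notTri {s : Set V} {u v : V} (h : s ⊆ {u, v}) : ¬ IsTri s := by
  rintro ⟨a, b, c, hab, hac, hbc, rfl⟩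
  have ha : a = u ∨ a = v := by simpa using h (by simp : a ∈ ({a, b, c} : Set V))
  have hb : b = u ∨ b = v := by simpa using h (by simp : b ∈ ({a, b, c} : Set V))
  have hc : c = u ∨ c = v := by simpa using h (by simp : c ∈ ({a, b, c} : Set V))
  rcases ha with ha | ha <;> rcases hb with hb | hb <;> rcases hc with hc | hc <;>
    first
    | exact hab (ha.trans hb.symm)
    | exact hac (ha.trans hc.symm)
    | exact hbc (hb.trans hc.symm)

theorem one_or_two {K : Cx V} (hD : K.Dim2) {s : Set V} (hs : s.Nonempty) (hK : K.face s)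
    (ht : ¬ IsTri s) : (∃ v, s = {v}) ∨ ∃ u v, K.gr.Adj u v ∧ s = {u, v} := by
  obtain ⟨v, hv⟩ := hs
  by_cases h1 : ∀ u ∈ s, u = v
  · left
    exact ⟨v, Set.eq_singleton_iff_unique_mem.2 ⟨hv, h1⟩⟩
  · push Not at h1
    obtain ⟨u, hu, huv⟩ := h1
    by_cases h2 : ∀ w ∈ s, w = u ∨ w = v
    · right
      have hse : s = {u, v} := by
        apply Set.Subset.antisymm
        · intro w hw
          simpa using h2 w hw
        · intro w hw
          rcases hw with rfl | hw
          · exact hu
          · rw [Set.mem_singleton_iff] at hw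
            rw [hw]
            exact hv
      exact ⟨u, v, ⟨huv, hse ▸ hK⟩, hse⟩
    · exfalso
      push Not at h2
      obtain ⟨w, hw, hwu, hwv⟩ := h2
      by_cases h3 : ∀ x ∈ s, x = u ∨ x = v ∨ x = w
      · apply ht
        refine ⟨u, v, w, huv, Ne.symm hwu, Ne.symm hwv, ?_⟩
        apply Set.Subset.antisymm
        · intro x hx
          simpa using h3 x hx
        · intro x hx
          simp only [Set.mem_insert_iff, Set.mem_singleton_iff] at hx
          rcases hx with rfl | rfl | rfl <;> assumption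
      · push Not at h3
        obtain ⟨x, hx, hxu, hxv, hxw⟩ := h3
        refine hD u v w x huv (Ne.symm hwu) (Ne.symm hxu) (Ne.symm hwv) (Ne.symm hxv)
          (Ne.symm hxw) (K.down s _ ?_ hK)
        intro y hy
        simp only [Set.mem_insert_iff, Set.mem_singleton_iff] at hy
        rcases hy with rfl | rfl | rfl | rfl <;> assumption

theorem pair_of_sub {u v u' v' : V} (huv : u ≠ v) (h : ({u, v} : Set V) ⊆ {u', v'}) :
    ({u', v'} : Set V) = {u, v} := by
  have hu : u = u' ∨ u = v' := by simpa using h (by simp : u ∈ ({u, v} : Set V))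
  have hv : v = u' ∨ v = v' := by simpa using h (by simp : v ∈ ({u, v} : Set V))
  rcases hu with rfl | rfl <;> rcases hv with rfl | rfl
  · exact absurd rfl huv
  · rfl
  · exact Set.pair_comm _ _
  · exact absurd rfl huv

theorem eq_single_of_sub {s : Set V} {v : V} (hs : s.Nonempty) (h : s ⊆ {v}) : s = {v} :=
  (Set.Nonempty.subset_singleton_iff hs).1 h

theorem eq_of_sub_pair {s : Set V} {u v : V} (hs : s.Nonempty) (h : s ⊆ {u, v})
    (hu : s ≠ {u}) (hv : s ≠ {v}) : s = {u, v} := by
  apply Set.Subset.antisymm h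
  have hu' : v ∈ s := by
    by_contra hc
    apply hu
    apply eq_single_of_sub hs
    intro x hx
    rcases h hx with h1 | h1
    · exact h1
    · rw [Set.mem_singleton_iff] at h1
      rw [h1] at hx
      exact absurd hx hc
  have hv' : u ∈ s := by
    by_contra hc
    apply hv
    apply eq_single_of_sub hs
    intro x hx
    rcases h hx with h1 | h1
    · rw [h1] at hx
      exact absurd hx hc
    · exact h1
  intro x hx
  rcases hx with rfl | hx
  · exact hv'
  · rw [Set.mem_singleton_iff] at hx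
    rw [hx]
    exact hu'

theorem edge {K : Cx V} {N : Cx W} {S : W → Set V} (hG : Good K N S)
    {i j : {i : W // ¬ IsTri (S i)}} (h : (arcG N S).Adj i j) :
    ∃ u v, K.gr.Adj u v ∧ S i.1 ⊆ {u, v} ∧ S j.1 ⊆ {u, v} := by
  obtain ⟨hij, hf, ht⟩ := h
  have hK : K.face (S i.1 ∪ S j.1) := by
    rw [← uni_pair]
    exact hG.car _ hf
  rcases one_or_two hG.kdim ((hG.ne i.1).mono Set.subset_union_left) hK ht with
    ⟨v, hv⟩ | ⟨u, v, huv, he⟩
  · exfalso
    apply hij
    have h1 : S i.1 = {v} := eq_single_of_sub (hG.ne _) (hv ▸ Set.subset_union_left)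
    have h2 : S j.1 = {v} := eq_single_of_sub (hG.ne _) (hv ▸ Set.subset_union_right)
    exact Subtype.ext ((hG.one v).unique h1 h2)
  · exact ⟨u, v, huv, he ▸ Set.subset_union_left, he ▸ Set.subset_union_right⟩

theorem interval {m : ℕ} {Q : ℕ → Prop} (h : ∀ k, 0 < k → k + 1 < m → (Q k ↔ Q (k + 1)))
    {k₀ : ℕ} (h0 : 0 < k₀) (h0m : k₀ < m) (hQ : Q k₀) : ∀ k, 0 < k → k < m → Q k := by
  have h1 : ∀ k, 0 < k → k < m → (Q k ↔ Q 1) := by
    intro k
    induction k with
    | zero => intro h; exact absurd h (lt_irrefl _)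
    | succ k ih =>
      intro _ hkm
      rcases Nat.eq_zero_or_pos k with rfl | hk
      · exact Iff.rfl
      · exact (h k hk hkm).symm.trans (ih hk (by omega))
  intro k hk hkm
  exact (h1 k hk hkm).2 ((h1 k₀ h0 h0m).1 hQ)

end CT4

open CT4 in
theorem prfCT4 : S_CT4 := by
  intro V W K N S hG
  have hsing : ∀ v : V, ¬ IsTri ({v} : Set V) := fun v =>
    notTri (u := v) (v := v) (by simp)
  -- the path of an edge
  have hpath : ∀ u v, K.gr.Adj u v → ∃ (m : ℕ) (p : ℕ → W),
      (∀ j k, j ≤ m → k ≤ m → p j = p k → j = k) ∧ S (p 0) = {u} ∧ S (p m) = {v} ∧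
      (∀ i, S i ⊆ {u, v} ↔ ∃ k, k ≤ m ∧ p k = i) ∧
      ∀ j k, j ≤ m → k ≤ m → (N.face {p j, p k} ↔ j = k ∨ j = k + 1 ∨ k = j + 1) := by
    intro u v huv
    obtain ⟨a, ha, _⟩ := hG.one u
    obtain ⟨b, hb, _⟩ := hG.one v
    obtain ⟨m, p, h1, h2, h3, h4, h5⟩ := hG.arc u v a b huv.1 huv.2 ha hb
    exact ⟨m, p, h1, by rw [h2]; exact ha, by rw [h3]; exact hb, h4, h5⟩
  -- neighbours of inner vertices
  have hnb : ∀ (i : {i : W // ¬ IsTri (S i)}) (u v : V), K.gr.Adj u v → S i.1 = {u, v} →
      ∀ j, (arcG N S).Adj i j → S j.1 ⊆ {u, v} := by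
    intro i u v huv hi j hij
    obtain ⟨u', v', _, h1, h2⟩ := edge hG hij
    rw [hi] at h1
    rw [pair_of_sub huv.1 h1] at h2
    exact h2
  constructor
  · intro v
    obtain ⟨i, hi, hu⟩ := hG.one v
    refine ⟨⟨i, by rw [hi]; exact hsing v⟩, hi, ?_⟩
    intro j hj
    exact Subtype.ext (hu j.1 hj)
  · intro i
    have hK : K.face (S i.1) := by
      rw [← uni_single S i.1]
      exact hG.car _ (N.vert _)
    exact one_or_two hG.kdim (hG.ne i.1) hK i.2
  · intro i j hij
    exact edge hG hij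
  · intro i u v huv hi j k l hj hk hl
    obtain ⟨m, p, hinj, _, _, hmem, hadj⟩ := hpath u v huv
    obtain ⟨ki, hki, hpi⟩ := (hmem i.1).1 (by rw [hi])
    obtain ⟨kj, hkj, hpj⟩ := (hmem j.1).1 (hnb i u v huv hi j hj)
    obtain ⟨kk, hkk, hpk⟩ := (hmem k.1).1 (hnb i u v huv hi k hk)
    obtain ⟨kl, hkl, hpl⟩ := (hmem l.1).1 (hnb i u v huv hi l hl)
    have e1 : ki = kj ∨ ki = kj + 1 ∨ kj = ki + 1 := by
      rw [← hadj ki kj hki hkj, hpi, hpj]
      exact hj.2.1
    have e2 : ki = kk ∨ ki = kk + 1 ∨ kk = ki + 1 := by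
      rw [← hadj ki kk hki hkk, hpi, hpk]
      exact hk.2.1
    have e3 : ki = kl ∨ ki = kl + 1 ∨ kl = ki + 1 := by
      rw [← hadj ki kl hki hkl, hpi, hpl]
      exact hl.2.1
    have n1 : ki ≠ kj := by
      rintro rfl
      exact hj.1 (Subtype.ext (hpi.symm.trans hpj))
    have n2 : ki ≠ kk := by
      rintro rfl
      exact hk.1 (Subtype.ext (hpi.symm.trans hpk))
    have n3 : ki ≠ kl := by
      rintro rfl
      exact hl.1 (Subtype.ext (hpi.symm.trans hpl))
    have : kj = kk ∨ kj = kl ∨ kk = kl := by omega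
    rcases this with h | h | h
    · left
      exact Subtype.ext (by rw [← hpj, ← hpk, h])
    · right; left
      exact Subtype.ext (by rw [← hpj, ← hpl, h])
    · right; right
      exact Subtype.ext (by rw [← hpk, ← hpl, h])
  · intro u v huv B hB hBl hBc
    obtain ⟨m, p, hinj, hp0, hpm, hmem, hadj⟩ := hpath u v huv
    have hsu : ({u} : Set V) ≠ {u, v} := by
      intro h
      have : v ∈ ({u} : Set V) := by rw [h]; simp
      exact huv.1 (Set.mem_singleton_iff.1 this).symm
    have hsv : ({v} : Set V) ≠ {u, v} := by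
      intro h
      have : u ∈ ({v} : Set V) := by rw [h]; simp
      exact huv.1 (Set.mem_singleton_iff.1 this)
    have hin : ∀ i : {i : W // ¬ IsTri (S i)}, S i.1 = {u, v} → ∃ k, 0 < k ∧ k < m ∧ p k = i.1 := by
      intro i hi
      obtain ⟨k, hk, hpk⟩ := (hmem i.1).1 (by rw [hi])
      refine ⟨k, ?_, ?_, hpk⟩
      · rcases Nat.eq_zero_or_pos k with rfl | h
        · exfalso
          rw [hpk, hi] at hp0
          exact hsu hp0.symm
        · exact h
      · rcases Nat.lt_or_ge k m with h | h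
        · exact h
        · exfalso
          have : k = m := le_antisymm hk h
          rw [← this, hpk, hi] at hpm
          exact hsv hpm.symm
    have hsub : ∀ k, k ≤ m → S (p k) ⊆ {u, v} := fun k hk => (hmem (p k)).2 ⟨k, hk, rfl⟩
    have hnt : ∀ k, k ≤ m → ¬ IsTri (S (p k)) := fun k hk => notTri (hsub k hk)
    have hlab : ∀ k, 0 < k → k < m → S (p k) = {u, v} := by
      intro k hk hkm
      refine eq_of_sub_pair (hG.ne _) (hsub k hkm.le) ?_ ?_
      · intro h
        have := (hG.one u).unique h hp0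
        have := hinj k 0 hkm.le (Nat.zero_le _) this
        omega
      · intro h
        have := (hG.one v).unique h hpm
        have := hinj k m hkm.le le_rfl this
        omega
    have hadj' : ∀ (k : ℕ) (hk : k + 1 ≤ m), (arcG N S).Adj ⟨p k, hnt k (by omega)⟩
        ⟨p (k + 1), hnt (k + 1) hk⟩ := by
      intro k hk
      refine ⟨?_, ?_, ?_⟩
      · intro h
        have := hinj k (k + 1) (by omega) hk (congrArg Subtype.val h)
        omega
      · exact (hadj k (k + 1) (by omega) hk).2 (Or.inr (Or.inr rfl))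
      · exact notTri (Set.union_subset (hsub k (by omega)) (hsub (k + 1) hk))
    obtain ⟨i0, hi0⟩ := hB
    obtain ⟨k0, h0, h0m, hpk0⟩ := hin i0 (hBl i0 hi0)
    refine ⟨?_, ?_⟩
    · have hall := interval (m := m) (Q := fun k => ∀ h : ¬ IsTri (S (p k)),
        (⟨p k, h⟩ : {i : W // ¬ IsTri (S i)}) ∈ B) ?_ h0 h0m ?_
      · intro i hi
        obtain ⟨k, hk, hkm, hpk⟩ := hin i hi
        have := hall k hk hkm (hnt k hkm.le)
        have he : (⟨p k, hnt k hkm.le⟩ : {i : W // ¬ IsTri (S i)}) = i := Subtype.ext hpk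
        rw [he] at this
        exact this
      · intro k hk hkm
        constructor
        · intro h _
          exact hBc _ (h (hnt k (by omega))) _ (hlab (k + 1) (by omega) hkm) (hadj' k hkm.le)
        · intro h _
          exact hBc _ (h (hnt (k + 1) hkm.le)) _ (hlab k hk (by omega)) (hadj' k hkm.le).symm
      · intro h
        have he : (⟨p k0, h⟩ : {i : W // ¬ IsTri (S i)}) = i0 := Subtype.ext hpk0
        rw [he]
        exact hi0
    · intro i j hi hj hij
      have e1 : i.1 = p 0 := (hG.one u).unique hi hp0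
      have e2 : j.1 = p m := (hG.one v).unique hj hpm
      have h1 : N.face {p 0, p m} := by
        rw [← e1, ← e2]
        exact hij.2.1
      rw [hadj 0 m (Nat.zero_le _) le_rfl] at h1
      omega
  · intro u v huv
    obtain ⟨m, p, hinj, hp0, hpm, hmem, hadj⟩ := hpath u v huv
    have hsub : ∀ k, k ≤ m → S (p k) ⊆ {u, v} := fun k hk => (hmem (p k)).2 ⟨k, hk, rfl⟩
    have hm : m ≠ 0 := by
      rintro rfl
      rw [hp0] at hpm
      exact huv.1 (Set.singleton_injective hpm)
    obtain ⟨m', rfl⟩ := Nat.exists_eq_succ_of_ne_zero hm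
    refine ⟨⟨p (m' + 1), notTri (hsub _ le_rfl)⟩, ⟨p m', notTri (hsub _ (by omega))⟩, hpm,
      ⟨?_, ?_, ?_⟩, hsub _ (by omega)⟩
    · intro h
      have := hinj (m' + 1) m' le_rfl (by omega) (congrArg Subtype.val h)
      omega
    · exact (hadj (m' + 1) m' le_rfl (by omega)).2 (Or.inr (Or.inl rfl))
    · exact notTri (Set.union_subset (hsub _ le_rfl) (hsub _ (by omega)))

end Pool.Agent.MP552024
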