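import Pool.Agent.Work.MP_552024_lc.Two.StmtsE

/-!
MP_552024_lc: S_CT5, a vertex of an arc is removed from the coned complex.
-/

set_option autoImplicit false

namespace Pool.Agent.MP552024

theorem CT5_mem {V W : Type} [Nonempty W] {K : Cx V} {A : SimpleGraph W} {S : W → Set V}
    {z : W ⊕ Set V → ℝ} :
    z ∈ (CC K A S).Z ↔ (∀ x, 0 ≤ z x) ∧
      (∃ u v, (u = v ∨ A.Adj u v) ∧ ∀ w, z (Sum.inl w) ≠ 0 → w = u ∨ w = v) ∧
      (∀ σ, z (Sum.inr σ) ≠ 0 → K.face σ ∧ IsTri σ ∧ ∀ w, z (Sum.inl w) ≠ 0 → S w ⊆ σ) ∧
      ∀ σ σ', z (Sum.inr σ) ≠ 0 → z (Sum.inr σ') ≠ 0 → σ = σ' := by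
  constructor
  · rintro ⟨h1, ⟨τ, h2, h3, h4⟩, h5⟩
    refine ⟨h1, ?_, ?_, fun σ σ' h h' => h5 σ σ' h h'⟩
    · rcases h2 with h2 | ⟨u, v, huv, h2⟩
      · refine ⟨Classical.arbitrary W, Classical.arbitrary W, Or.inl rfl, fun w hw => ?_⟩
        have : w ∈ τ := h3 hw
        rw [h2] at this
        exact absurd this (Set.notMem_empty w)
      · refine ⟨u, v, huv, fun w hw => ?_⟩
        have : w ∈ τ := h3 hw
        rw [h2] at this
        exact this
    · intro σ hσ
      obtain ⟨h6, h7, h8⟩ := h4 σ hσ
      refine ⟨h6, h7, fun w hw x hx => h8 ?_⟩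
      simp only [uni, Set.mem_iUnion]
      exact ⟨w, hw, hx⟩
  · rintro ⟨h1, ⟨u, v, huv, h2⟩, h3, h4⟩
    refine ⟨h1, ⟨{u, v}, Or.inr ⟨u, v, huv, rfl⟩, fun w hw => h2 w hw, ?_⟩,
      fun σ σ' h h' => h4 σ σ' h h'⟩
    intro σ hσ
    obtain ⟨h5, h6, h7⟩ := h3 σ hσ
    refine ⟨h5, h6, fun x hx => ?_⟩
    simp only [uni, Set.mem_iUnion] at hx
    obtain ⟨w, hw, hx⟩ := hx
    exact h7 w hw hx

theorem prfCT5 : S_CT5 := by
  classical
  intro V W KK A S i p k hip hik hpk hnpk hnb hSp hSk hSi
  have hp : p ≠ i := hip.ne.symm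
  have hk : k ≠ i := hik.ne.symm
  set P : {w : W // w ≠ i} := ⟨p, hp⟩ with hP
  set K : {w : W // w ≠ i} := ⟨k, hk⟩ with hK
  have : Nonempty W := ⟨i⟩
  have : Nonempty {w : W // w ≠ i} := ⟨P⟩
  have hPK : P ≠ K := fun h => hpk (congrArg Subtype.val h)
  set T : ({w : W // w ≠ i} ⊕ Set V → ℝ) → W ⊕ Set V → ℝ := fun z x =>
    match x with
    | Sum.inl w => if h : w = i then min (z (Sum.inl P)) (z (Sum.inl K))
      else z (Sum.inl ⟨w, h⟩) - (if w = p ∨ w = k then min (z (Sum.inl P)) (z (Sum.inl K)) else 0)
    | Sum.inr σ => z (Sum.inr σ) with hT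
  set R : (W ⊕ Set V → ℝ) → {w : W // w ≠ i} ⊕ Set V → ℝ := fun z x =>
    match x with
    | Sum.inl w => z (Sum.inl w.1) + (if w.1 = p ∨ w.1 = k then z (Sum.inl i) else 0)
    | Sum.inr σ => z (Sum.inr σ) with hR
  have hTi : ∀ z, T z (Sum.inl i) = min (z (Sum.inl P)) (z (Sum.inl K)) := fun z => by simp [hT]
  have hTw : ∀ z (w : W) (h : w ≠ i), T z (Sum.inl w) =
      z (Sum.inl ⟨w, h⟩) -
        (if w = p ∨ w = k then min (z (Sum.inl P)) (z (Sum.inl K)) else 0) :=
    fun z w h => by simp [hT, h]
  have hTr : ∀ z σ, T z (Sum.inr σ) = z (Sum.inr σ) := fun z σ => rfl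
  have hRw : ∀ z w, R z (Sum.inl w) =
      z (Sum.inl w.1) + (if w.1 = p ∨ w.1 = k then z (Sum.inl i) else 0) := fun z w => rfl
  have hRr : ∀ z σ, R z (Sum.inr σ) = z (Sum.inr σ) := fun z σ => rfl
  have hadjPK : (delG A i p k).Adj P K := ⟨hPK, Or.inr (Or.inl ⟨rfl, rfl⟩)⟩
  refine Eqv.of_maps T R ?_ ?_ ?_ ?_ ?_ ?_
  · rintro (w | σ)
    · by_cases h : w = i
      · subst h
        simp only [hTi]
        exact LP_min (LP_coord _) (LP_coord _)
      · simp only [hTw _ w h]
        split_ifs
        · exact LP_sub (LP_coord _) (LP_min (LP_coord _) (LP_coord _))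
        · exact LP_sub (LP_coord _) LP_zero
    · simp only [hTr]
      exact LP_coord _
  · rintro (w | σ)
    · simp only [hRw]
      split_ifs
      · exact LP_add (LP_coord _) (LP_coord _)
      · exact LP_add (LP_coord _) LP_zero
    · simp only [hRr]
      exact LP_coord _
  · -- T maps Z' to Z
    intro z hz
    rw [CT5_mem] at hz ⊢
    obtain ⟨h0, ⟨u, v, huv, hsupp⟩, hlab, huniq⟩ := hz
    have hm0 : 0 ≤ min (z (Sum.inl P)) (z (Sum.inl K)) := le_min (h0 _) (h0 _)
    have hTnz : ∀ (w : W) (h : w ≠ i), T z (Sum.inl w) ≠ 0 → z (Sum.inl ⟨w, h⟩) ≠ 0 := by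
      intro w h hw h0w
      apply hw
      rw [hTw z w h, h0w]
      split_ifs with h5
      · have : min (z (Sum.inl P)) (z (Sum.inl K)) = 0 := by
          refine le_antisymm ?_ hm0
          rcases h5 with rfl | rfl
          · exact (min_le_left _ _).trans h0w.le
          · exact (min_le_right _ _).trans h0w.le
        rw [this, sub_zero]
      · rw [sub_zero]
    refine ⟨?_, ?_, ?_, ?_⟩
    · rintro (w | σ)
      · by_cases h : w = i
        · rw [h, hTi]; exact hm0
        · rw [hTw z w h]
          split_ifs with h5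
          · rcases h5 with rfl | rfl
            · exact sub_nonneg.2 (min_le_left _ _)
            · exact sub_nonneg.2 (min_le_right _ _)
          · rw [sub_zero]; exact h0 _
      · rw [hTr]; exact h0 _
    · by_cases hm : min (z (Sum.inl P)) (z (Sum.inl K)) = 0
      · have hTz : ∀ w, T z (Sum.inl w) ≠ 0 → ∃ h : w ≠ i, z (Sum.inl ⟨w, h⟩) ≠ 0 := by
          intro w hw
          by_cases h : w = i
          · rw [h, hTi] at hw; exact absurd hm hw
          · exact ⟨h, hTnz w h hw⟩
        have hPKz : z (Sum.inl P) = 0 ∨ z (Sum.inl K) = 0 := by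
          rcases min_choice (z (Sum.inl P)) (z (Sum.inl K)) with h | h
          · left; rw [← h]; exact hm
          · right; rw [← h]; exact hm
        rcases huv with huv | ⟨hne, hadj | ⟨hu, hv⟩ | ⟨hu, hv⟩⟩
        · refine ⟨u.1, u.1, Or.inl rfl, fun w hw => ?_⟩
          obtain ⟨h, hw'⟩ := hTz w hw
          rcases hsupp _ hw' with h6 | h6
          · left; rw [← h6]
          · left; rw [huv, ← h6]
        · refine ⟨u.1, v.1, Or.inr hadj, fun w hw => ?_⟩
          obtain ⟨h, hw'⟩ := hTz w hw
          rcases hsupp _ hw' with h6 | h6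
          · left; rw [← h6]
          · right; rw [← h6]
        · have hu' : u = P := Subtype.ext hu
          have hv' : v = K := Subtype.ext hv
          subst hu' hv'
          rcases hPKz with h7 | h7
          · refine ⟨k, k, Or.inl rfl, fun w hw => ?_⟩
            obtain ⟨h, hw'⟩ := hTz w hw
            rcases hsupp _ hw' with h6 | h6
            · rw [h6] at hw'; exact absurd h7 hw'
            · left; exact congrArg Subtype.val h6
          · refine ⟨p, p, Or.inl rfl, fun w hw => ?_⟩
            obtain ⟨h, hw'⟩ := hTz w hw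
            rcases hsupp _ hw' with h6 | h6
            · left; exact congrArg Subtype.val h6
            · rw [h6] at hw'; exact absurd h7 hw'
        · have hu' : u = K := Subtype.ext hu
          have hv' : v = P := Subtype.ext hv
          subst hu' hv'
          rcases hPKz with h7 | h7
          · refine ⟨k, k, Or.inl rfl, fun w hw => ?_⟩
            obtain ⟨h, hw'⟩ := hTz w hw
            rcases hsupp _ hw' with h6 | h6
            · left; exact congrArg Subtype.val h6
            · rw [h6] at hw'; exact absurd h7 hw'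
          · refine ⟨p, p, Or.inl rfl, fun w hw => ?_⟩
            obtain ⟨h, hw'⟩ := hTz w hw
            rcases hsupp _ hw' with h6 | h6
            · rw [h6] at hw'; exact absurd h7 hw'
            · left; exact congrArg Subtype.val h6
      · have hmpos : 0 < min (z (Sum.inl P)) (z (Sum.inl K)) := lt_of_le_of_ne hm0 (Ne.symm hm)
        have hzP : z (Sum.inl P) ≠ 0 := (lt_of_lt_of_le hmpos (min_le_left _ _)).ne'
        have hzK : z (Sum.inl K) ≠ 0 := (lt_of_lt_of_le hmpos (min_le_right _ _)).ne'
        have hsupp' : ∀ w, z (Sum.inl w) ≠ 0 → w = P ∨ w = K := by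
          intro w hw
          have e1 := hsupp P hzP
          have e2 := hsupp K hzK
          have e3 := hsupp w hw
          rcases e1 with e1 | e1 <;> rcases e2 with e2 | e2
          · exact absurd (e1.trans e2.symm) hPK
          · rcases e3 with e3 | e3
            · left; rw [e3, e1]
            · right; rw [e3, e2]
          · rcases e3 with e3 | e3
            · right; rw [e3, e2]
            · left; rw [e3, e1]
          · exact absurd (e1.trans e2.symm) hPK
        rcases le_total (z (Sum.inl P)) (z (Sum.inl K)) with hle | hle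
        · refine ⟨i, k, Or.inr hik, fun w hw => ?_⟩
          by_cases h : w = i
          · left; exact h
          right
          have hw2 := hTnz w h hw
          rcases hsupp' _ hw2 with h6 | h6
          · exfalso
            have hwp : w = p := congrArg Subtype.val h6
            apply hw
            rw [hTw z w h, min_eq_left hle, if_pos (Or.inl hwp), h6, sub_self]
          · exact congrArg Subtype.val h6
        · refine ⟨i, p, Or.inr hip, fun w hw => ?_⟩
          by_cases h : w = i
          · left; exact h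
          right
          have hw2 := hTnz w h hw
          rcases hsupp' _ hw2 with h6 | h6
          · exact congrArg Subtype.val h6
          · exfalso
            have hwk : w = k := congrArg Subtype.val h6
            apply hw
            rw [hTw z w h, min_eq_right hle, if_pos (Or.inr hwk), h6, sub_self]
    · intro σ hσ
      rw [hTr] at hσ
      obtain ⟨h1, h2, h3⟩ := hlab σ hσ
      refine ⟨h1, h2, fun w hw => ?_⟩
      by_cases h : w = i
      · rw [h, hTi] at hw
        have hmpos : 0 < min (z (Sum.inl P)) (z (Sum.inl K)) := lt_of_le_of_ne hm0 (Ne.symm hw)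
        have hzP : z (Sum.inl P) ≠ 0 := (lt_of_lt_of_le hmpos (min_le_left _ _)).ne'
        have hzK : z (Sum.inl K) ≠ 0 := (lt_of_lt_of_le hmpos (min_le_right _ _)).ne'
        rw [h]
        exact hSi.trans (Set.union_subset (h3 P hzP) (h3 K hzK))
      · exact h3 ⟨w, h⟩ (hTnz w h hw)
    · intro σ σ' h h'
      rw [hTr] at h h'
      exact huniq σ σ' h h'
  · -- R maps Z to Z'
    intro z hz
    rw [CT5_mem] at hz ⊢
    obtain ⟨h0, ⟨u, v, huv, hsupp⟩, hlab, huniq⟩ := hz
    refine ⟨?_, ?_, ?_, ?_⟩
    · rintro (w | σ)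
      · rw [hRw]
        split_ifs
        · exact add_nonneg (h0 _) (h0 _)
        · rw [add_zero]; exact h0 _
      · rw [hRr]; exact h0 _
    · by_cases hzi : z (Sum.inl i) = 0
      · have hRz : ∀ w : {w : W // w ≠ i}, R z (Sum.inl w) ≠ 0 → z (Sum.inl w.1) ≠ 0 := by
          intro w hw h
          apply hw
          rw [hRw, h, hzi, ite_self, add_zero]
        by_cases hu : u = i
        · by_cases hv : v = i
          · refine ⟨P, P, Or.inl rfl, fun w hw => ?_⟩
            rcases hsupp _ (hRz w hw) with h | h
            · exact absurd (h.trans hu) w.2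
            · exact absurd (h.trans hv) w.2
          · refine ⟨⟨v, hv⟩, ⟨v, hv⟩, Or.inl rfl, fun w hw => ?_⟩
            rcases hsupp _ (hRz w hw) with h | h
            · exact absurd (h.trans hu) w.2
            · left; exact Subtype.ext h
        · by_cases hv : v = i
          · refine ⟨⟨u, hu⟩, ⟨u, hu⟩, Or.inl rfl, fun w hw => ?_⟩
            rcases hsupp _ (hRz w hw) with h | h
            · left; exact Subtype.ext h
            · exact absurd (h.trans hv) w.2
          · refine ⟨⟨u, hu⟩, ⟨v, hv⟩, ?_, fun w hw => ?_⟩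
            · rcases huv with rfl | h
              · left; rfl
              · right
                exact ⟨fun h' => h.ne (congrArg Subtype.val h'), Or.inl h⟩
            · rcases hsupp _ (hRz w hw) with h | h
              · left; exact Subtype.ext h
              · right; exact Subtype.ext h
      · refine ⟨P, K, Or.inr hadjPK, fun w hw => ?_⟩
        by_contra hcon
        push Not at hcon
        have hwp : w.1 ≠ p := fun h => hcon.1 (Subtype.ext h)
        have hwk : w.1 ≠ k := fun h => hcon.2 (Subtype.ext h)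
        have hzw : z (Sum.inl w.1) ≠ 0 := by
          intro h
          apply hw
          rw [hRw, h, if_neg (by tauto), add_zero]
        have hadj : A.Adj i w.1 := by
          rcases hsupp i hzi with h1 | h1 <;> rcases hsupp _ hzw with h2 | h2
          · exact absurd (h2.trans h1.symm) w.2
          · rcases huv with h3 | h3
            · exact absurd (h2.trans (h3.symm.trans h1.symm)) w.2
            · rw [← h1, ← h2] at h3; exact h3
          · rcases huv with h3 | h3
            · exact absurd (h2.trans (h3.trans h1.symm)) w.2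
            · rw [← h1, ← h2] at h3; exact h3.symm
          · exact absurd (h2.trans h1.symm) w.2
        rcases hnb _ hadj with h | h
        · exact hwp h
        · exact hwk h
    · intro σ hσ
      rw [hRr] at hσ
      obtain ⟨h1, h2, h3⟩ := hlab σ hσ
      refine ⟨h1, h2, fun w hw => ?_⟩
      by_cases hzw : z (Sum.inl w.1) = 0
      · rw [hRw, hzw, zero_add] at hw
        by_cases hc : w.1 = p ∨ w.1 = k
        · rw [if_pos hc] at hw
          have h4 := h3 i hw
          rcases hc with h5 | h5
          · rw [h5]; exact hSp.trans h4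
          · rw [h5]; exact hSk.trans h4
        · rw [if_neg hc] at hw
          exact absurd rfl hw
      · exact h3 w.1 hzw
    · intro σ σ' h h'
      rw [hRr] at h h'
      exact huniq σ σ' h h'
  · -- R (T z) = z
    intro z _
    funext x
    rcases x with w | σ
    · rw [hRw, hTi, hTw z w.1 w.2]
      split_ifs <;> ring
    · exact (hRr (T z) σ).trans (hTr z σ)
  · -- T (R z) = z
    intro z hz
    rw [CT5_mem] at hz
    obtain ⟨h0, ⟨u, v, huv, hsupp⟩, -, -⟩ := hz
    have hmin : min (z (Sum.inl p)) (z (Sum.inl k)) = 0 := by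
      by_contra hne
      have hpos : 0 < min (z (Sum.inl p)) (z (Sum.inl k)) :=
        lt_of_le_of_ne (le_min (h0 _) (h0 _)) (Ne.symm hne)
      have hzp : z (Sum.inl p) ≠ 0 := (lt_of_lt_of_le hpos (min_le_left _ _)).ne'
      have hzk : z (Sum.inl k) ≠ 0 := (lt_of_lt_of_le hpos (min_le_right _ _)).ne'
      rcases hsupp p hzp with h1 | h1 <;> rcases hsupp k hzk with h2 | h2
      · exact hpk (h1.trans h2.symm)
      · rcases huv with h3 | h3
        · exact hpk (h1.trans (h3.trans h2.symm))
        · exact hnpk (by rw [h1, h2]; exact h3)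
      · rcases huv with h3 | h3
        · exact hpk (h1.trans (h3.symm.trans h2.symm))
        · exact hnpk (by rw [h1, h2]; exact h3.symm)
      · exact hpk (h1.trans h2.symm)
    have hRP : R z (Sum.inl P) = z (Sum.inl p) + z (Sum.inl i) := by simp [hR, hP]
    have hRK : R z (Sum.inl K) = z (Sum.inl k) + z (Sum.inl i) := by simp [hR, hK]
    have hmin' : min (R z (Sum.inl P)) (R z (Sum.inl K)) = z (Sum.inl i) := by
      rw [hRP, hRK, min_add_add_right, hmin, zero_add]
    funext x
    rcases x with w | σ
    · by_cases h : w = i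
      · rw [h, hTi, hmin']
      · rw [hTw _ w h, hmin', hRw]
        split_ifs <;> ring
    · exact (hTr (R z) σ).trans (hRr z σ)

end Pool.Agent.MP552024
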