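import Pool.Agent.Work.MP_552024_lc.Two.StmtsA

/-!
MP_552024_lc, item DC0: the cone complex exists; coning one triangle.
-/

set_option autoImplicit false

namespace Pool.Agent.MP552024

namespace DC0

variable {U : Type} [DecidableEq U]

theorem exists_of_deg {D : Finset (Finset U)} {e : Finset U} (h : deg D e = 1) :
    ∃ t ∈ D, e ⊆ t := by
  have h1 : 0 < (D.filter (fun t => e ⊆ t)).card := by
    have : (D.filter (fun t => e ⊆ t)).card = 1 := h
    omega
  obtain ⟨t, ht⟩ := Finset.card_pos.1 h1
  rw [Finset.mem_filter] at ht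
  exact ⟨t, ht.1, ht.2⟩

theorem card3 {D : Finset (Finset U)} (h : IsDisc D) : ∀ t ∈ D, t.card = 3 := by
  induction h with
  | tri a b c hab hac hbc =>
    intro t ht
    rw [Finset.mem_singleton] at ht
    exact Finset.card_eq_three.2 ⟨a, b, c, hab, hac, hbc, ht⟩
  | ear D a b y hD hab h1 hy ih =>
    intro t ht
    rw [Finset.mem_insert] at ht
    rcases ht with ht | ht
    · obtain ⟨t', ht', h2⟩ := exists_of_deg h1
      have hv : ∀ z ∈ t', z ∈ Vs D := fun z hz => Finset.mem_biUnion.2 ⟨t', ht', hz⟩
      have ha : a ∈ Vs D := hv a (h2 (by simp))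
      have hb : b ∈ Vs D := hv b (h2 (by simp))
      refine Finset.card_eq_three.2 ⟨a, b, y, hab, ?_, ?_, ht⟩
      · rintro rfl; exact hy ha
      · rintro rfl; exact hy hb
    · exact ih t ht
  | fill D a x b hD hab hxa hxb h1 h2 h3 h4 ih =>
    intro t ht
    rw [Finset.mem_insert] at ht
    rcases ht with ht | ht
    · exact Finset.card_eq_three.2 ⟨a, x, b, hxa.symm, hab, hxb, ht⟩
    · exact ih t ht

/-- no interior face inside an edge of degree one -/
theorem not_intF {D : Finset (Finset U)} (h3 : ∀ t ∈ D, t.card = 3) {e : Finset U}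
    (he : e.card = 2) (hd : deg D e = 1) (f : Set U) (hf : IntF D f) (hfe : f ⊆ ↑e) : False := by
  rcases hf with ⟨t, ht, rfl⟩ | ⟨e', he', hd', rfl⟩ | ⟨y, hy, hc, rfl⟩
  · have h1 := Finset.card_le_card (Finset.coe_subset.1 hfe)
    rw [h3 t ht, he] at h1
    omega
  · have h1 := Finset.eq_of_subset_of_card_le (Finset.coe_subset.1 hfe) (by rw [he, he'])
    rw [h1, hd] at hd'
    omega
  · have hye : y ∈ e := by
      have : y ∈ (↑e : Set U) := hfe rfl
      simpa using this
    obtain ⟨p, q, hpq, rfl⟩ := Finset.card_eq_two.1 he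
    rw [Finset.mem_insert, Finset.mem_singleton] at hye
    rcases hye with rfl | rfl
    · exact hc q hpq.symm hd
    · refine hc p hpq ?_
      rw [Finset.pair_comm]
      exact hd

end DC0

theorem prfConeEx : S_coneEx := by
  intro U _ D Δ x hD hface hx
  have h3 := DC0.card3 hD
  refine ⟨⟨ConeFace Δ D x, ?_, ?_⟩, fun s => Iff.rfl⟩
  · rintro s t hts (⟨h1, h2, h4⟩ | ⟨h1, e, he, hd, h4⟩)
    · exact Or.inl ⟨fun h => h1 (hts h), Δ.down _ _ hts h2, fun f hf h => h4 f hf (h.trans hts)⟩
    · by_cases hxt : x ∈ t
      · exact Or.inr ⟨hxt, e, he, hd, (Set.sdiff_subset_sdiff_left hts).trans h4⟩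
      · have hte : t ⊆ ↑e := by
          intro z hz
          refine h4 ⟨hts hz, ?_⟩
          intro hzx
          rw [Set.mem_singleton_iff] at hzx
          exact hxt (hzx ▸ hz)
        obtain ⟨t', ht', h5⟩ := DC0.exists_of_deg hd
        refine Or.inl ⟨hxt, Δ.down _ _ (hte.trans (Finset.coe_subset.2 h5)) (hface t' ht'), ?_⟩
        intro f hf hft
        exact DC0.not_intF h3 he hd f hf (hft.trans hte)
  · refine Or.inl ⟨fun h => h, Δ.empt, ?_⟩
    rintro f (⟨t, ht, rfl⟩ | ⟨e', he', hd', rfl⟩ | ⟨y, hy, hc, rfl⟩) hf
    · have h1 : t = ∅ := by simpa using hf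
      have := h3 t ht
      rw [h1] at this
      simp at this
    · have h1 : e' = ∅ := by simpa using hf
      rw [h1] at he'
      simp at he'
    · simp at hf

theorem prfDC1 : S_DC1 := by
  intro U _ a b c hab hac hbc Δ Δ' x habc hpriv hx hres
  have hdeg : ∀ e : Finset U, deg {{a, b, c}} e = 1 ↔ e ⊆ ({a, b, c} : Finset U) := by
    intro e
    unfold deg
    rw [Finset.filter_singleton]
    split_ifs with h
    · simp [h]
    · simp [h]
  have hdeg2 : ∀ e : Finset U, deg {{a, b, c}} e ≠ 2 := by
    intro e
    unfold deg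
    rw [Finset.filter_singleton]
    split_ifs with h
    · simp
    · simp
  have hint : ∀ f : Set U, IntF ({{a, b, c}} : Finset (Finset U)) f ↔ f = {a, b, c} := by
    intro f
    constructor
    · rintro (⟨t, ht, rfl⟩ | ⟨e', he', hd', rfl⟩ | ⟨y, hy, hc, rfl⟩)
      · rw [Finset.mem_singleton] at ht
        rw [ht]
        simp
      · exact absurd hd' (hdeg2 e')
      · exfalso
        have hy' : y = a ∨ y = b ∨ y = c := by simpa [Vs] using hy
        rcases hy' with rfl | rfl | rfl
        · exact hc b hab.symm ((hdeg _).2 (by intro z; simp; tauto))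
        · exact hc a hab ((hdeg _).2 (by intro z; simp; tauto))
        · exact hc a hac ((hdeg _).2 (by intro z; simp; tauto))
    · rintro rfl
      exact Or.inl ⟨{a, b, c}, Finset.mem_singleton_self _, by simp⟩
  have key : ∀ p q r : U, p ≠ q → p ≠ r → q ≠ r → ({p, q, r} : Set U) = {a, b, c} →
      ∀ s : Set U, s ⊆ {x, p, q} → ConeFace Δ {{a, b, c}} x s := by
    intro p q r hpq hpr hqr hset s hs
    have hpf : p ∈ ({a, b, c} : Set U) := hset ▸ (by simp)
    have hqf : q ∈ ({a, b, c} : Set U) := hset ▸ (by simp)
    have hrf : r ∈ ({a, b, c} : Set U) := hset ▸ (by simp)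
    by_cases hxs : x ∈ s
    · refine Or.inr ⟨hxs, {p, q}, Finset.card_pair hpq, (hdeg _).2 ?_, ?_⟩
      · intro z hz
        rw [Finset.mem_insert, Finset.mem_singleton] at hz
        rcases hz with rfl | rfl
        · simpa using hpf
        · simpa using hqf
      · rintro z ⟨hz, hzx⟩
        have h1 := hs hz
        simp only [Set.mem_insert_iff, Set.mem_singleton_iff] at h1 hzx
        rcases h1 with h1 | h1 | h1
        · exact absurd h1 hzx
        · simp [h1]
        · simp [h1]
    · have hs' : ∀ z ∈ s, z = p ∨ z = q := by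
        intro z hz
        have h1 := hs hz
        simp only [Set.mem_insert_iff, Set.mem_singleton_iff] at h1
        rcases h1 with rfl | h1
        · exact absurd hz hxs
        · exact h1
      refine Or.inl ⟨hxs, Δ.down _ _ ?_ habc, ?_⟩
      · intro z hz
        rcases hs' z hz with rfl | rfl
        · exact hpf
        · exact hqf
      · intro f hf hfs
        rw [hint] at hf
        subst hf
        rcases hs' r (hfs hrf) with h | h
        · exact hpr h.symm
        · exact hqr h.symm
  refine ⟨hab, hac, hbc, habc, ?_, hx, ?_⟩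
  · intro s hs hsub
    obtain ⟨t, ht, h1⟩ := hpriv s hs {a, b, c} ((hint _).2 rfl) hsub
    rw [Finset.mem_singleton] at ht
    subst ht
    simpa using h1
  · intro s
    rw [hres s]
    constructor
    · rintro (⟨h1, h2, h3⟩ | ⟨h1, e, he, hd, h3⟩)
      · exact Or.inl ⟨h2, h3 _ ((hint _).2 rfl)⟩
      · right
        rw [hdeg] at hd
        have hsx : ∀ z ∈ s, z = x ∨ z ∈ e := by
          intro z hz
          by_cases hzx : z = x
          · exact Or.inl hzx
          · exact Or.inr (by simpa using h3 ⟨hz, hzx⟩)
        obtain ⟨p, q, hpq, rfl⟩ := Finset.card_eq_two.1 he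
        have hp : p = a ∨ p = b ∨ p = c := by simpa using hd (Finset.mem_insert_self p {q})
        have hq : q = a ∨ q = b ∨ q = c := by
          simpa using hd (Finset.mem_insert_of_mem (Finset.mem_singleton_self q))
        have hsx' : ∀ z ∈ s, z = x ∨ z = p ∨ z = q := by
          intro z hz
          simpa using hsx z hz
        rcases hp with rfl | rfl | rfl <;> rcases hq with rfl | rfl | rfl
        · exact absurd rfl hpq
        · left; intro z hz; simpa using hsx' z hz
        · right; right; intro z hz; simpa using hsx' z hz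
        · left; intro z hz
          rcases hsx' z hz with h | h | h <;> simp [h]
        · exact absurd rfl hpq
        · right; left; intro z hz; simpa using hsx' z hz
        · right; right; intro z hz
          rcases hsx' z hz with h | h | h <;> simp [h]
        · right; left; intro z hz
          rcases hsx' z hz with h | h | h <;> simp [h]
        · exact absurd rfl hpq
    · rintro (⟨h1, h2⟩ | h | h | h)
      · refine Or.inl ⟨hx s h1, h1, ?_⟩
        intro f hf hfs
        rw [hint] at hf
        subst hf
        exact h2 hfs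
      · exact key a b c hab hac hbc rfl s h
      · refine key b c a hbc hab.symm hac.symm ?_ s h
        ext z; simp; tauto
      · refine key a c b hac hab hbc.symm ?_ s h
        ext z; simp; tauto

end Pool.Agent.MP552024
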