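import Pool.Agent.Work.MP_552024_lc.Two.StmtsA

/-!
A triangle with a new vertex is absorbed into the cone (flip). MP_552024_lc, dimension at most three.
-/

set_option autoImplicit false

namespace Pool.Agent.MP552024

namespace DC2

variable {U : Type} [DecidableEq U]

theorem mem_of_deg {D : Finset (Finset U)} {e : Finset U} (h : deg D e ≠ 0) :
    ∃ t ∈ D, e ⊆ t := by
  unfold deg at h
  obtain ⟨t, ht⟩ := Finset.card_pos.mp (Nat.pos_of_ne_zero h)
  rw [Finset.mem_filter] at ht
  exact ⟨t, ht.1, ht.2⟩

theorem mem_Vs {D : Finset (Finset U)} {v : U} : v ∈ Vs D ↔ ∃ t ∈ D, v ∈ t := by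
  unfold Vs
  rw [Finset.mem_biUnion]
  rfl

theorem deg_zero {D : Finset (Finset U)} {e : Finset U} {y : U} (hy : y ∉ Vs D) (he : y ∈ e) :
    deg D e = 0 := by
  by_contra h
  obtain ⟨t, ht, het⟩ := mem_of_deg h
  exact hy (mem_Vs.mpr ⟨t, ht, het he⟩)

theorem deg_insert {D : Finset (Finset U)} {t : Finset U} (ht : t ∉ D) (e : Finset U) :
    deg (insert t D) e = deg D e + if e ⊆ t then 1 else 0 := by
  unfold deg
  rw [Finset.filter_insert]
  split_ifs with h
  · rw [Finset.card_insert_of_notMem]
    intro h'
    exact ht (Finset.mem_filter.mp h').1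
  · rfl

theorem ne_of_deg {D : Finset (Finset U)} {a b y : U} (h1 : deg D {a, b} = 1) (hy : y ∉ Vs D) :
    y ≠ a ∧ y ≠ b := by
  obtain ⟨t, ht, hs⟩ := mem_of_deg (D := D) (e := {a, b}) (by omega)
  refine ⟨fun h => hy (mem_Vs.mpr ⟨t, ht, hs ?_⟩), fun h => hy (mem_Vs.mpr ⟨t, ht, hs ?_⟩)⟩
  · simp [h]
  · simp [h]

theorem card3 {a b c : U} (hab : a ≠ b) (hac : a ≠ c) (hbc : b ≠ c) :
    ({a, b, c} : Finset U).card = 3 := by
  rw [Finset.card_eq_three]
  exact ⟨a, b, c, hab, hac, hbc, rfl⟩

theorem tri {D : Finset (Finset U)} (hD : IsDisc D) : ∀ t ∈ D, t.card = 3 := by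
  induction hD with
  | tri a b c hab hac hbc =>
    intro t ht
    rw [Finset.mem_singleton] at ht
    rw [ht]
    exact card3 hab hac hbc
  | ear D a b y hD hab h1 hy ih =>
    intro t ht
    rw [Finset.mem_insert] at ht
    rcases ht with ht | ht
    · obtain ⟨h2, h3⟩ := ne_of_deg h1 hy
      rw [ht]
      exact card3 hab h2.symm h3.symm
    · exact ih t ht
  | fill D a x b hD hab hxa hxb h1 h2 h3 h4 ih =>
    intro t ht
    rw [Finset.mem_insert] at ht
    rcases ht with ht | ht
    · rw [ht]
      exact card3 hxa.symm hab hxb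
    · exact ih t ht

theorem sub_cases {a b y : U} {e : Finset U} (he : e.card = 2) (hs : e ⊆ {a, b, y}) :
    e = {a, b} ∨ e = {a, y} ∨ e = {b, y} := by
  obtain ⟨u, v, huv, rfl⟩ := Finset.card_eq_two.mp he
  have hu : u ∈ ({a, b, y} : Finset U) := hs (by simp)
  have hv : v ∈ ({a, b, y} : Finset U) := hs (by simp)
  simp only [Finset.mem_insert, Finset.mem_singleton] at hu hv
  rcases hu with rfl | rfl | rfl <;> rcases hv with rfl | rfl | rfl
  all_goals first
    | exact absurd rfl huv
    | exact Or.inl rfl
    | exact Or.inr (Or.inl rfl)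
    | exact Or.inr (Or.inr rfl)
    | exact Or.inl (Finset.pair_comm _ _)
    | exact Or.inr (Or.inl (Finset.pair_comm _ _))
    | exact Or.inr (Or.inr (Finset.pair_comm _ _))

theorem eq_pair {a b : U} {e : Finset U} (hab : a ≠ b) (he : e.card = 2) (ha : a ∈ e) (hb : b ∈ e) :
    e = {a, b} := by
  symm
  apply Finset.eq_of_subset_of_card_le
  · intro z hz
    simp only [Finset.mem_insert, Finset.mem_singleton] at hz
    rcases hz with rfl | rfl
    · exact ha
    · exact hb
  · rw [he, Finset.card_pair hab]

section

variable {D : Finset (Finset U)} {a b y : U}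

theorem t_notMem (hy : y ∉ Vs D) : ({a, b, y} : Finset U) ∉ D := by
  intro h
  exact hy (mem_Vs.mpr ⟨_, h, by simp⟩)

theorem deg_one (hab : a ≠ b) (h1 : deg D {a, b} = 1) (hy : y ∉ Vs D) (e : Finset U)
    (he : e.card = 2) : deg (insert {a, b, y} D) e = 1 ↔
      (e ≠ {a, b} ∧ deg D e = 1) ∨ e = {a, y} ∨ e = {b, y} := by
  rw [deg_insert (t_notMem hy)]
  constructor
  · intro h
    by_cases hs : e ⊆ {a, b, y}
    · rcases sub_cases he hs with h2 | h2 | h2
      · rw [if_pos hs, h2, h1] at h
        omega
      · exact Or.inr (Or.inl h2)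
      · exact Or.inr (Or.inr h2)
    · rw [if_neg hs, add_zero] at h
      refine Or.inl ⟨?_, h⟩
      rintro rfl
      exact hs (by intro z hz; simp only [Finset.mem_insert, Finset.mem_singleton] at hz ⊢; tauto)
  · rintro (⟨h2, h3⟩ | h2 | h2)
    · have hs : ¬ e ⊆ {a, b, y} := by
        intro hs
        rcases sub_cases he hs with h4 | h4 | h4
        · exact h2 h4
        · have := deg_zero hy (e := e) (by rw [h4]; simp)
          omega
        · have := deg_zero hy (e := e) (by rw [h4]; simp)
          omega
      rw [if_neg hs, h3]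
    · have hs : e ⊆ {a, b, y} := by
        rw [h2]; intro z hz
        simp only [Finset.mem_insert, Finset.mem_singleton] at hz ⊢; tauto
      rw [if_pos hs, deg_zero hy (by rw [h2]; simp)]
    · have hs : e ⊆ {a, b, y} := by
        rw [h2]; intro z hz
        simp only [Finset.mem_insert, Finset.mem_singleton] at hz ⊢; tauto
      rw [if_pos hs, deg_zero hy (by rw [h2]; simp)]

theorem deg_two (h1 : deg D {a, b} = 1) (hy : y ∉ Vs D) (e : Finset U)
    (he : e.card = 2) : deg (insert {a, b, y} D) e = 2 ↔ deg D e = 2 ∨ e = {a, b} := by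
  rw [deg_insert (t_notMem hy)]
  constructor
  · intro h
    by_cases hs : e ⊆ {a, b, y}
    · rcases sub_cases he hs with h2 | h2 | h2
      · exact Or.inr h2
      · rw [if_pos hs, deg_zero hy (by rw [h2]; simp)] at h
        omega
      · rw [if_pos hs, deg_zero hy (by rw [h2]; simp)] at h
        omega
    · rw [if_neg hs, add_zero] at h
      exact Or.inl h
  · rintro (h2 | h2)
    · have hs : ¬ e ⊆ {a, b, y} := by
        intro hs
        rcases sub_cases he hs with h4 | h4 | h4
        · rw [h4, h1] at h2
          omega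
        · have := deg_zero hy (e := e) (by rw [h4]; simp)
          omega
        · have := deg_zero hy (e := e) (by rw [h4]; simp)
          omega
      rw [if_neg hs, h2]
    · have hs : e ⊆ {a, b, y} := by
        rw [h2]; intro z hz
        simp only [Finset.mem_insert, Finset.mem_singleton] at hz ⊢; tauto
      rw [if_pos hs, h2, h1]

/-- interior vertices are not on `{a, b, y}` -/
theorem intv_ne (hab : a ≠ b) (h1 : deg D {a, b} = 1) (hy : y ∉ Vs D) {v : U} (hv : v ∈ Vs D)
    (h : ∀ c, c ≠ v → deg D {v, c} ≠ 1) : v ≠ a ∧ v ≠ b ∧ v ≠ y := by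
  refine ⟨?_, ?_, ?_⟩
  · rintro rfl
    exact h b hab.symm h1
  · rintro rfl
    refine h a hab ?_
    rw [Finset.pair_comm]
    exact h1
  · rintro rfl
    exact hy hv

/-- interior faces of `D` are not inside the new triangle -/
theorem int_not_sub (hD : IsDisc D) (hab : a ≠ b) (h1 : deg D {a, b} = 1) (hy : y ∉ Vs D)
    {f : Set U} (hf : IntF D f) : ¬ f ⊆ ↑({a, b, y} : Finset U) := by
  obtain ⟨hya, hyb⟩ := ne_of_deg h1 hy
  intro hs
  rcases hf with ⟨t, ht, rfl⟩ | ⟨e, he, h2, rfl⟩ | ⟨v, hv, h, rfl⟩
  · rw [Finset.coe_subset] at hs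
    have h3 : t = {a, b, y} := by
      apply Finset.eq_of_subset_of_card_le hs
      rw [tri hD t ht, card3 hab hya.symm hyb.symm]
    exact t_notMem hy (h3 ▸ ht)
  · rw [Finset.coe_subset] at hs
    rcases sub_cases he hs with h4 | h4 | h4
    · rw [h4, h1] at h2
      omega
    · have := deg_zero hy (e := e) (by rw [h4]; simp)
      omega
    · have := deg_zero hy (e := e) (by rw [h4]; simp)
      omega
  · obtain ⟨h3, h4, h5⟩ := intv_ne hab h1 hy hv h
    have h6 : v ∈ (↑({a, b, y} : Finset U) : Set U) := hs (Set.mem_singleton v)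
    rw [Finset.mem_coe] at h6
    simp only [Finset.mem_insert, Finset.mem_singleton] at h6
    tauto

/-- interior faces of the enlarged disc -/
theorem intF_iff (hab : a ≠ b) (h1 : deg D {a, b} = 1) (hy : y ∉ Vs D) (s : Set U) :
    IntF (insert {a, b, y} D) s ↔
      IntF D s ∨ s = ↑({a, b, y} : Finset U) ∨ s = ↑({a, b} : Finset U) := by
  obtain ⟨hya, hyb⟩ := ne_of_deg h1 hy
  have hcay : ({a, y} : Finset U).card = 2 := Finset.card_pair hya.symm
  have hcby : ({b, y} : Finset U).card = 2 := Finset.card_pair hyb.symm
  constructor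
  · rintro (⟨t, ht, rfl⟩ | ⟨e, he, h2, rfl⟩ | ⟨v, hv, h, rfl⟩)
    · rw [Finset.mem_insert] at ht
      rcases ht with rfl | ht
      · exact Or.inr (Or.inl rfl)
      · exact Or.inl (Or.inl ⟨t, ht, rfl⟩)
    · rcases (deg_two h1 hy e he).mp h2 with h3 | h3
      · exact Or.inl (Or.inr (Or.inl ⟨e, he, h3, rfl⟩))
      · rw [h3]
        exact Or.inr (Or.inr rfl)
    · have e1 : deg (insert {a, b, y} D) {a, y} = 1 :=
        (deg_one hab h1 hy _ hcay).mpr (Or.inr (Or.inl rfl))
      have e2 : deg (insert {a, b, y} D) {b, y} = 1 :=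
        (deg_one hab h1 hy _ hcby).mpr (Or.inr (Or.inr rfl))
      have hva : v ≠ a := by rintro rfl; exact h y hya e1
      have hvb : v ≠ b := by rintro rfl; exact h y hyb e2
      have hvy : v ≠ y := by
        rintro rfl
        rw [Finset.pair_comm a v] at e1
        exact h a hya.symm e1
      have hvD : v ∈ Vs D := by
        obtain ⟨t, ht, hvt⟩ := mem_Vs.mp hv
        rw [Finset.mem_insert] at ht
        rcases ht with rfl | ht
        · simp only [Finset.mem_insert, Finset.mem_singleton] at hvt
          tauto
        · exact mem_Vs.mpr ⟨t, ht, hvt⟩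
      refine Or.inl (Or.inr (Or.inr ⟨v, hvD, fun c hc hd => ?_, rfl⟩))
      refine h c hc ((deg_one hab h1 hy _ (Finset.card_pair hc.symm)).mpr (Or.inl ⟨?_, hd⟩))
      intro h5
      have h6 : v ∈ ({a, b} : Finset U) := by rw [← h5]; simp
      simp only [Finset.mem_insert, Finset.mem_singleton] at h6
      tauto
  · rintro (hf | rfl | rfl)
    · rcases hf with ⟨t, ht, rfl⟩ | ⟨e, he, h2, rfl⟩ | ⟨v, hv, h, rfl⟩
      · exact Or.inl ⟨t, Finset.mem_insert_of_mem ht, rfl⟩
      · exact Or.inr (Or.inl ⟨e, he, (deg_two h1 hy e he).mpr (Or.inl h2), rfl⟩)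
      · obtain ⟨h3, h4, h5⟩ := intv_ne hab h1 hy hv h
        refine Or.inr (Or.inr ⟨v, ?_, fun c hc hd => ?_, rfl⟩)
        · obtain ⟨t, ht, hvt⟩ := mem_Vs.mp hv
          exact mem_Vs.mpr ⟨t, Finset.mem_insert_of_mem ht, hvt⟩
        · rcases (deg_one hab h1 hy _ (Finset.card_pair hc.symm)).mp hd with h6 | h6 | h6
          · exact h c hc h6.2
          · have h7 : v ∈ ({a, y} : Finset U) := by rw [← h6]; simp
            simp only [Finset.mem_insert, Finset.mem_singleton] at h7
            tauto
          · have h7 : v ∈ ({b, y} : Finset U) := by rw [← h6]; simp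
            simp only [Finset.mem_insert, Finset.mem_singleton] at h7
            tauto
    · exact Or.inl ⟨_, Finset.mem_insert_self _ _, rfl⟩
    · exact Or.inr (Or.inl ⟨_, Finset.card_pair hab,
        (deg_two h1 hy _ (Finset.card_pair hab)).mpr (Or.inr rfl), rfl⟩)

end

end DC2

open DC2 in
theorem prfDC2 : S_DC2 := by
  intro U _ D a b y hD hab h1 hy Δ Δ1 Δ2 x hface hpriv hx hΔ1 hΔ2
  obtain ⟨hya, hyb⟩ := ne_of_deg h1 hy
  have htf : Δ.face ↑({a, b, y} : Finset U) := hface _ (Finset.mem_insert_self _ _)
  have hxt := hx _ htf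
  have hxt' : x ≠ a ∧ x ≠ b ∧ x ≠ y := by
    rw [Finset.mem_coe] at hxt
    simp only [Finset.mem_insert, Finset.mem_singleton, not_or] at hxt
    exact hxt
  obtain ⟨hxa, hxb, hxy⟩ := hxt'
  have hcoe : (↑({a, b, y} : Finset U) : Set U) = {a, b, y} := by push_cast; rfl
  have hcoe2 : (↑({a, b} : Finset U) : Set U) = {a, b} := by push_cast; rfl
  have hcay : ({a, y} : Finset U).card = 2 := Finset.card_pair hya.symm
  have hcby : ({b, y} : Finset U).card = 2 := Finset.card_pair hyb.symm
  have e1 : deg (insert {a, b, y} D) {a, y} = 1 :=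
    (deg_one hab h1 hy _ hcay).mpr (Or.inr (Or.inl rfl))
  have e2 : deg (insert {a, b, y} D) {b, y} = 1 :=
    (deg_one hab h1 hy _ hcby).mpr (Or.inr (Or.inr rfl))
  have hpD : Priv Δ D := by
    intro s hs f hf hfs
    obtain ⟨t', ht', hst⟩ := hpriv s hs f ((intF_iff hab h1 hy f).mpr (Or.inl hf)) hfs
    rw [Finset.mem_insert] at ht'
    rcases ht' with rfl | ht'
    · exact absurd (hfs.trans hst) (int_not_sub hD hab h1 hy hf)
    · exact ⟨t', ht', hst⟩
  refine ⟨hpD, ⟨hab, hxy, hxa.symm, hya.symm, hxb.symm, hyb.symm, ?_, ?_, ?_, ?_, ?_⟩⟩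
  · -- f1
    rw [hΔ1]
    refine Or.inr ⟨by simp, {a, b}, Finset.card_pair hab, h1, ?_⟩
    intro z hz
    simp only [Set.mem_sdiff, Set.mem_insert_iff, Set.mem_singleton_iff] at hz
    rw [Finset.mem_coe]
    simp only [Finset.mem_insert, Finset.mem_singleton]
    tauto
  · -- f2
    rw [hΔ1]
    refine Or.inl ⟨?_, hcoe ▸ htf, fun f hf hs => int_not_sub hD hab h1 hy hf (hcoe ▸ hs)⟩
    simp only [Set.mem_insert_iff, Set.mem_singleton_iff]
    tauto
  · -- npq
    rw [hΔ1]
    rintro (⟨h, -⟩ | ⟨-, e, he, hd, hs⟩)
    · exact h (by simp)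
    · have h2 : y ∈ (↑e : Set U) := hs (by
        simp only [Set.mem_sdiff, Set.mem_insert_iff, Set.mem_singleton_iff]
        exact ⟨Or.inr trivial, hxy.symm⟩)
      rw [Finset.mem_coe] at h2
      have := deg_zero hy h2
      omega
  · -- star
    intro s hs habs
    have ha : a ∈ s := habs (by simp)
    have hb : b ∈ s := habs (by simp)
    rw [hΔ1] at hs
    rcases hs with ⟨hxs, hfs, hint⟩ | ⟨hxs, e, he, hd, hse⟩
    · have hi : IntF (insert {a, b, y} D) ↑({a, b} : Finset U) :=
        (intF_iff hab h1 hy _).mpr (Or.inr (Or.inr rfl))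
      obtain ⟨t', ht', hst⟩ := hpriv s hfs _ hi (by rw [hcoe2]; exact habs)
      rw [Finset.mem_insert] at ht'
      rcases ht' with rfl | ht'
      · right
        rw [hcoe] at hst
        exact hst
      · right
        have h3 : ¬ (↑t' : Set U) ⊆ s := hint _ (Or.inl ⟨t', ht', rfl⟩)
        obtain ⟨c, hct, hcs⟩ := Set.not_subset.mp h3
        have h4 : (t'.erase c).card = 2 := by
          rw [Finset.card_erase_of_mem hct, tri hD t' ht']
        have hca : a ≠ c := by rintro rfl; exact hcs ha
        have hcb : b ≠ c := by rintro rfl; exact hcs hb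
        have h5 : t'.erase c = {a, b} :=
          eq_pair hab h4 (Finset.mem_erase.mpr ⟨hca, hst ha⟩) (Finset.mem_erase.mpr ⟨hcb, hst hb⟩)
        intro z hz
        have hzc : z ≠ c := by rintro rfl; exact hcs hz
        have h6 : z ∈ t'.erase c := Finset.mem_erase.mpr ⟨hzc, hst hz⟩
        rw [h5] at h6
        simp only [Finset.mem_insert, Finset.mem_singleton] at h6
        simp only [Set.mem_insert_iff, Set.mem_singleton_iff]
        tauto
    · left
      have h3 : a ∈ e := hse ⟨ha, by simp only [Set.mem_singleton_iff]; exact hxa.symm⟩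
      have h4 : b ∈ e := hse ⟨hb, by simp only [Set.mem_singleton_iff]; exact hxb.symm⟩
      have h5 := eq_pair hab he h3 h4
      intro z hz
      by_cases hzx : z = x
      · simp [hzx]
      · have h6 : z ∈ (↑e : Set U) := hse ⟨hz, hzx⟩
        rw [Finset.mem_coe, h5] at h6
        simp only [Finset.mem_insert, Finset.mem_singleton] at h6
        simp only [Set.mem_insert_iff, Set.mem_singleton_iff]
        tauto
  · -- res
    intro s
    rw [hΔ2, hΔ1]
    constructor
    · rintro (⟨hxs, hfs, hint⟩ | ⟨hxs, e, he, hd, hse⟩)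
      · left
        refine ⟨Or.inl ⟨hxs, hfs, fun f hf => hint f ((intF_iff hab h1 hy f).mpr (Or.inl hf))⟩, ?_⟩
        intro h
        exact hint _ ((intF_iff hab h1 hy _).mpr (Or.inr (Or.inr rfl))) (by rw [hcoe2]; exact h)
      · rcases (deg_one hab h1 hy e he).mp hd with ⟨h2, h3⟩ | h2 | h2
        · left
          refine ⟨Or.inr ⟨hxs, e, he, h3, hse⟩, fun h => ?_⟩
          have h4 : a ∈ e := hse ⟨h (by simp), by simp only [Set.mem_singleton_iff]; exact hxa.symm⟩
          have h5 : b ∈ e := hse ⟨h (by simp), by simp only [Set.mem_singleton_iff]; exact hxb.symm⟩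
          exact h2 (eq_pair hab he h4 h5)
        · right; left
          intro z hz
          by_cases hzx : z = x
          · simp [hzx]
          · have h6 : z ∈ (↑e : Set U) := hse ⟨hz, hzx⟩
            rw [Finset.mem_coe, h2] at h6
            simp only [Finset.mem_insert, Finset.mem_singleton] at h6
            simp only [Set.mem_insert_iff, Set.mem_singleton_iff]
            tauto
        · right; right
          intro z hz
          by_cases hzx : z = x
          · simp [hzx]
          · have h6 : z ∈ (↑e : Set U) := hse ⟨hz, hzx⟩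
            rw [Finset.mem_coe, h2] at h6
            simp only [Finset.mem_insert, Finset.mem_singleton] at h6
            simp only [Set.mem_insert_iff, Set.mem_singleton_iff]
            tauto
    · rintro (⟨hc, hn⟩ | hs | hs)
      · rcases hc with ⟨hxs, hfs, hint⟩ | ⟨hxs, e, he, hd, hse⟩
        · refine Or.inl ⟨hxs, hfs, fun f hf hfs' => ?_⟩
          rcases (intF_iff hab h1 hy f).mp hf with h2 | h2 | h2
          · exact hint f h2 hfs'
          · rw [h2, hcoe] at hfs'
            apply hn
            intro z hz
            apply hfs'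
            simp only [Set.mem_insert_iff, Set.mem_singleton_iff] at hz ⊢
            tauto
          · rw [h2, hcoe2] at hfs'
            exact hn hfs'
        · by_cases h2 : e = {a, b}
          · by_cases has : a ∈ s
            · have hbs : b ∉ s := by
                intro hbs
                apply hn
                intro z hz
                simp only [Set.mem_insert_iff, Set.mem_singleton_iff] at hz
                rcases hz with rfl | rfl
                · exact has
                · exact hbs
              refine Or.inr ⟨hxs, {a, y}, hcay, e1, ?_⟩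
              intro z hz
              have h3 := hse hz
              rw [Finset.mem_coe, h2] at h3
              simp only [Finset.mem_insert, Finset.mem_singleton] at h3
              rw [Finset.mem_coe]
              simp only [Finset.mem_insert, Finset.mem_singleton]
              rcases h3 with h3 | h3
              · exact Or.inl h3
              · exact absurd (h3 ▸ hz.1) hbs
            · refine Or.inr ⟨hxs, {b, y}, hcby, e2, ?_⟩
              intro z hz
              have h3 := hse hz
              rw [Finset.mem_coe, h2] at h3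
              simp only [Finset.mem_insert, Finset.mem_singleton] at h3
              rw [Finset.mem_coe]
              simp only [Finset.mem_insert, Finset.mem_singleton]
              rcases h3 with h3 | h3
              · exact absurd (h3 ▸ hz.1) has
              · exact Or.inl h3
          · exact Or.inr ⟨hxs, e, he, (deg_one hab h1 hy e he).mpr (Or.inl ⟨h2, hd⟩), hse⟩
      · by_cases hxs : x ∈ s
        · refine Or.inr ⟨hxs, {a, y}, hcay, e1, ?_⟩
          intro z hz
          have h3 := hs hz.1
          have h4 : z ≠ x := hz.2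
          simp only [Set.mem_insert_iff, Set.mem_singleton_iff] at h3
          rw [Finset.mem_coe]
          simp only [Finset.mem_insert, Finset.mem_singleton]
          tauto
        · have hst : s ⊆ ↑({a, b, y} : Finset U) := by
            intro z hz
            have h3 := hs hz
            have h4 : z ≠ x := by rintro rfl; exact hxs hz
            simp only [Set.mem_insert_iff, Set.mem_singleton_iff] at h3
            rw [Finset.mem_coe]
            simp only [Finset.mem_insert, Finset.mem_singleton]
            tauto
          have hbs : b ∉ s := by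
            intro hb
            have h3 := hs hb
            simp only [Set.mem_insert_iff, Set.mem_singleton_iff] at h3
            rcases h3 with h3 | h3 | h3
            · exact hxb h3.symm
            · exact hyb h3.symm
            · exact hab h3.symm
          refine Or.inl ⟨hxs, Δ.down _ _ hst htf, fun f hf hfs => ?_⟩
          rcases (intF_iff hab h1 hy f).mp hf with h2 | h2 | h2
          · exact int_not_sub hD hab h1 hy h2 (hfs.trans hst)
          · rw [h2] at hfs
            exact hbs (hfs (by simp))
          · rw [h2] at hfs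
            exact hbs (hfs (by simp))
      · by_cases hxs : x ∈ s
        · refine Or.inr ⟨hxs, {b, y}, hcby, e2, ?_⟩
          intro z hz
          have h3 := hs hz.1
          have h4 : z ≠ x := hz.2
          simp only [Set.mem_insert_iff, Set.mem_singleton_iff] at h3
          rw [Finset.mem_coe]
          simp only [Finset.mem_insert, Finset.mem_singleton]
          tauto
        · have hst : s ⊆ ↑({a, b, y} : Finset U) := by
            intro z hz
            have h3 := hs hz
            have h4 : z ≠ x := by rintro rfl; exact hxs hz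
            simp only [Set.mem_insert_iff, Set.mem_singleton_iff] at h3
            rw [Finset.mem_coe]
            simp only [Finset.mem_insert, Finset.mem_singleton]
            tauto
          have has : a ∉ s := by
            intro ha
            have h3 := hs ha
            simp only [Set.mem_insert_iff, Set.mem_singleton_iff] at h3
            rcases h3 with h3 | h3 | h3
            · exact hxa h3.symm
            · exact hya h3.symm
            · exact hab h3
          refine Or.inl ⟨hxs, Δ.down _ _ hst htf, fun f hf hfs => ?_⟩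
          rcases (intF_iff hab h1 hy f).mp hf with h2 | h2 | h2
          · exact int_not_sub hD hab h1 hy h2 (hfs.trans hst)
          · rw [h2] at hfs
            exact has (hfs (by simp))
          · rw [h2] at hfs
            exact has (hfs (by simp))

end Pool.Agent.MP552024
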