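import Pool.Agent.Work.MP_552024_lc.Two.StmtsA

/-!
Item DC3 of MP_552024_lc: absorb a triangle at two edges into the cone.
-/

set_option autoImplicit false

namespace Pool.Agent.MP552024

namespace DC3

variable {U : Type} [DecidableEq U]

theorem deg_insert {D : Finset (Finset U)} {t : Finset U} (ht : t ∉ D) (e : Finset U) :
    deg (insert t D) e = deg D e + if e ⊆ t then 1 else 0 := by
  unfold deg
  rw [Finset.filter_insert]
  split_ifs with h
  · rw [Finset.card_insert_of_notMem]
    simp [ht]
  · simp

theorem edges {a z b : U} {e : Finset U} (h2 : e.card = 2) (he : e ⊆ {a, z, b}) :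
    e = {a, z} ∨ e = {z, b} ∨ e = {a, b} := by
  obtain ⟨p, q, hpq, rfl⟩ := Finset.card_eq_two.1 h2
  have hp : p ∈ ({a, z, b} : Finset U) := he (by simp)
  have hq : q ∈ ({a, z, b} : Finset U) := he (by simp)
  simp only [Finset.mem_insert, Finset.mem_singleton] at hp hq
  rcases hp with rfl | rfl | rfl <;> rcases hq with rfl | rfl | rfl <;>
    simp_all [Finset.pair_comm]

theorem deg_zero_of_notMem {D : Finset (Finset U)} {y : U} (hy : y ∉ Vs D) {e : Finset U}
    (hye : y ∈ e) : deg D e = 0 := by
  unfold deg
  rw [Finset.card_eq_zero, Finset.filter_eq_empty_iff]
  intro t ht hs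
  exact hy (by unfold Vs; exact Finset.mem_biUnion.2 ⟨t, ht, hs hye⟩)

theorem notMem_of_deg_zero {D : Finset (Finset U)} {e t : Finset U} (h : deg D e = 0)
    (he : e ⊆ t) : t ∉ D := by
  intro ht
  unfold deg at h
  rw [Finset.card_eq_zero, Finset.filter_eq_empty_iff] at h
  exact h ht he

theorem pair_card {a b : U} (h : a ≠ b) : ({a, b} : Finset U).card = 2 := Finset.card_pair h

theorem three_card {a z b : U} (h1 : a ≠ b) (h2 : z ≠ a) (h3 : z ≠ b) :
    ({a, z, b} : Finset U).card = 3 := by
  rw [Finset.card_eq_three]
  exact ⟨a, z, b, h2.symm, h1, h3, rfl⟩

theorem disc_facts {D : Finset (Finset U)} (hD : IsDisc D) :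
    (∀ t ∈ D, t.card = 3) ∧ ∀ e : Finset U, e.card = 2 → deg D e ≤ 2 := by
  induction hD with
  | tri a b c hab hac hbc =>
    refine ⟨?_, ?_⟩
    · intro t ht
      rw [Finset.mem_singleton] at ht
      subst ht
      exact Finset.card_eq_three.2 ⟨a, b, c, hab, hac, hbc, rfl⟩
    · intro e _
      unfold deg
      refine (Finset.card_filter_le _ _).trans ?_
      simp
  | ear D a b y hD hab h1 hy ih =>
    have hmem : ({a, b, y} : Finset U) ∉ D := by
      refine notMem_of_deg_zero (deg_zero_of_notMem hy (e := {y}) (by simp)) (by simp)
    have hya : y ≠ a := by
      rintro rfl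
      have := deg_zero_of_notMem hy (e := {y, b}) (by simp)
      omega
    have hyb : y ≠ b := by
      rintro rfl
      have := deg_zero_of_notMem hy (e := {a, y}) (by simp)
      omega
    refine ⟨?_, ?_⟩
    · intro t ht
      rcases Finset.mem_insert.1 ht with rfl | ht
      · exact Finset.card_eq_three.2 ⟨a, b, y, hab, hya.symm, hyb.symm, rfl⟩
      · exact ih.1 t ht
    · intro e he
      rw [deg_insert hmem]
      split_ifs with h
      · rcases edges he h with rfl | rfl | rfl
        · omega
        · have := deg_zero_of_notMem hy (e := {b, y}) (by simp)
          omega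
        · have := deg_zero_of_notMem hy (e := {a, y}) (by simp)
          omega
      · have := ih.2 e he
        omega
  | fill D a x b hD hab hxa hxb h1 h2 h3 h4 ih =>
    have hmem : ({a, x, b} : Finset U) ∉ D := by
      refine notMem_of_deg_zero h3 ?_
      intro v hv
      simp only [Finset.mem_insert, Finset.mem_singleton] at hv ⊢
      tauto
    refine ⟨?_, ?_⟩
    · intro t ht
      rcases Finset.mem_insert.1 ht with rfl | ht
      · exact three_card hab hxa hxb
      · exact ih.1 t ht
    · intro e he
      rw [deg_insert hmem]
      split_ifs with h
      · rcases edges he h with rfl | rfl | rfl <;> omega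
      · have := ih.2 e he
        omega

end DC3

open DC3 in
theorem prfDC3 : S_DC3 := by
  intro U _ D a z b hD hab hza hzb h1 h2 h3 h4 Δ Δ1 Δ2 x hfa hpriv hx hΔ1 hΔ2
  obtain ⟨htri, hdeg⟩ := disc_facts hD
  set t : Finset U := {a, z, b} with ht
  have habt : ({a, b} : Finset U) ⊆ t := by
    intro v hv
    simp only [ht, Finset.mem_insert, Finset.mem_singleton] at hv ⊢
    tauto
  have hazt : ({a, z} : Finset U) ⊆ t := by
    intro v hv
    simp only [ht, Finset.mem_insert, Finset.mem_singleton] at hv ⊢
    tauto
  have hzbt : ({z, b} : Finset U) ⊆ t := by
    intro v hv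
    simp only [ht, Finset.mem_insert, Finset.mem_singleton] at hv ⊢
    tauto
  have htD : t ∉ D := notMem_of_deg_zero h3 habt
  have htc : t.card = 3 := three_card hab hza hzb
  have hins := fun e => deg_insert (D := D) htD e
  have hface : Δ.face ↑t := hfa t (Finset.mem_insert_self _ _)
  have hxt : x ∉ t := by
    have := hx _ hface
    simpa using this
  have hxa : x ≠ a := by
    rintro rfl
    exact hxt (by simp [ht])
  have hxz : x ≠ z := by
    rintro rfl
    exact hxt (by simp [ht])
  have hxb : x ≠ b := by
    rintro rfl
    exact hxt (by simp [ht])
  have h1' : deg D {z, a} = 1 := by rw [Finset.pair_comm]; exact h1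
  have h3' : deg D {b, a} = 0 := by rw [Finset.pair_comm]; exact h3
  have h2' : deg D {b, z} = 1 := by rw [Finset.pair_comm]; exact h2
  have d1 : deg (insert t D) {a, z} = 2 := by rw [hins, if_pos hazt, h1]
  have d2 : deg (insert t D) {z, b} = 2 := by rw [hins, if_pos hzbt, h2]
  have d3 : deg (insert t D) {a, b} = 1 := by rw [hins, if_pos habt, h3]
  have d3' : deg (insert t D) {b, a} = 1 := by rw [Finset.pair_comm]; exact d3
  have hat : a ∈ t := by simp [ht]
  have hzt : z ∈ t := by simp [ht]
  have hbt : b ∈ t := by simp [ht]
  have memt : ∀ v, v ∈ t ↔ v = a ∨ v = z ∨ v = b := by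
    intro v
    simp [ht]
  -- claim 1
  have cl1 : ∀ f, IntF D f → IntF (insert t D) f ∧ ¬ f ⊆ (↑t : Set U) := by
    intro f hf
    rcases hf with ⟨t1, ht1, rfl⟩ | ⟨e, he2, hde, rfl⟩ | ⟨y, hy, hyc, rfl⟩
    · refine ⟨Or.inl ⟨t1, Finset.mem_insert_of_mem ht1, rfl⟩, ?_⟩
      intro hs
      have hs' : t1 ⊆ t := by exact_mod_cast hs
      have := Finset.eq_of_subset_of_card_le hs' (by rw [htc, htri t1 ht1])
      exact htD (this ▸ ht1)
    · have hne : ¬ e ⊆ t := by
        intro hs
        rcases edges he2 hs with rfl | rfl | rfl <;> omega
      refine ⟨Or.inr (Or.inl ⟨e, he2, ?_, rfl⟩), ?_⟩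
      · rw [hins, if_neg hne, hde]
      · intro hs
        exact hne (by exact_mod_cast hs)
    · have hyt : y ∉ t := by
        intro hyt
        rcases (memt y).1 hyt with rfl | rfl | rfl
        · exact hyc z hza h1
        · exact hyc a hza.symm h1'
        · exact hyc z hzb h2'
      refine ⟨Or.inr (Or.inr ⟨y, ?_, ?_, rfl⟩), ?_⟩
      · unfold Vs at hy ⊢
        rw [Finset.mem_biUnion] at hy ⊢
        obtain ⟨s, hs, hys⟩ := hy
        exact ⟨s, Finset.mem_insert_of_mem hs, hys⟩
      · intro c hc
        rw [hins, if_neg]
        · simpa using hyc c hc
        · intro hs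
          exact hyt (hs (by simp))
      · intro hs
        exact hyt (by simpa using hs)
  -- claim 2
  have cl2 : ∀ f, IntF (insert t D) f → IntF D f ∨ z ∈ f := by
    intro f hf
    rcases hf with ⟨t1, ht1, rfl⟩ | ⟨e, he2, hde, rfl⟩ | ⟨y, hy, hyc, rfl⟩
    · rcases Finset.mem_insert.1 ht1 with rfl | ht1
      · right
        simpa using hzt
      · left
        exact Or.inl ⟨t1, ht1, rfl⟩
    · by_cases hs : e ⊆ t
      · rcases edges he2 hs with rfl | rfl | rfl
        · right
          simp
        · right
          simp
        · omega
      · left
        rw [hins, if_neg hs] at hde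
        exact Or.inr (Or.inl ⟨e, he2, by simpa using hde, rfl⟩)
    · by_cases hyt : y ∈ t
      · rcases (memt y).1 hyt with rfl | rfl | rfl
        · exact absurd d3 (hyc b hab.symm)
        · right
          simp
        · exact absurd d3' (hyc a hab)
      · left
        refine Or.inr (Or.inr ⟨y, ?_, ?_, rfl⟩)
        · unfold Vs at hy ⊢
          rw [Finset.mem_biUnion] at hy ⊢
          obtain ⟨s, hs, hys⟩ := hy
          rcases Finset.mem_insert.1 hs with rfl | hs
          · exact absurd hys hyt
          · exact ⟨s, hs, hys⟩
        · intro c hc
          have := hyc c hc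
          rw [hins, if_neg] at this
          · simpa using this
          · intro hs
            exact hyt (hs (by simp))
  have clz : IntF (insert t D) {z} := by
    refine Or.inr (Or.inr ⟨z, ?_, ?_, rfl⟩)
    · unfold Vs
      rw [Finset.mem_biUnion]
      exact ⟨t, Finset.mem_insert_self _ _, hzt⟩
    · intro c hc hd
      rw [hins] at hd
      split_ifs at hd with hs
      · have hc' : c ∈ t := hs (by simp)
        rcases (memt c).1 hc' with rfl | rfl | rfl
        · omega
        · exact hc rfl
        · omega
      · rcases h4 c hc (by simpa using hd) with rfl | rfl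
        · exact hs (by rw [Finset.pair_comm]; exact hazt)
        · exact hs hzbt
  refine ⟨?_, ?_⟩
  · intro s hs f hf hfs
    obtain ⟨hf1, hf2⟩ := cl1 f hf
    obtain ⟨t', ht', hst⟩ := hpriv s hs f hf1 hfs
    rcases Finset.mem_insert.1 ht' with rfl | ht'
    · exact absurd (hfs.trans hst) hf2
    · exact ⟨t', ht', hst⟩
  · constructor
    · exact hxa
    · exact hxb
    · exact hab
    · exact hxz.symm
    · exact hza
    · exact hzb
    · -- f1 : {z, x, a}
      rw [hΔ1]
      refine Or.inr ⟨by simp, {a, z}, pair_card hza.symm, h1, ?_⟩
      intro v hv
      simp only [Set.mem_diff, Set.mem_insert_iff, Set.mem_singleton_iff] at hv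
      simp only [Finset.coe_insert, Finset.coe_singleton, Set.mem_insert_iff,
        Set.mem_singleton_iff]
      tauto
    · -- f2 : {z, a, b}
      rw [hΔ1]
      have hset : ({z, a, b} : Set U) = ↑t := by
        ext v
        rw [Finset.mem_coe, memt]
        simp only [Set.mem_insert_iff, Set.mem_singleton_iff]
        tauto
      rw [hset]
      refine Or.inl ⟨?_, hface, fun f hf => (cl1 f hf).2⟩
      simpa using hxt
    · -- f3 : {z, x, b}
      rw [hΔ1]
      refine Or.inr ⟨by simp, {z, b}, pair_card hzb, h2, ?_⟩
      intro v hv
      simp only [Set.mem_diff, Set.mem_insert_iff, Set.mem_singleton_iff] at hv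
      simp only [Finset.coe_insert, Finset.coe_singleton, Set.mem_insert_iff,
        Set.mem_singleton_iff]
      tauto
    · -- nabc
      rw [hΔ1]
      rintro (⟨hn, -⟩ | ⟨-, e, he2, hde, hse⟩)
      · exact hn (by simp)
      · have hae : a ∈ e := by
          have : a ∈ (↑e : Set U) := hse (by simp [hxa.symm])
          exact_mod_cast this
        have hbe : b ∈ e := by
          have : b ∈ (↑e : Set U) := hse (by simp [hxb.symm])
          exact_mod_cast this
        have hsub : ({a, b} : Finset U) ⊆ e := by
          intro v hv
          simp only [Finset.mem_insert, Finset.mem_singleton] at hv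
          rcases hv with rfl | rfl <;> assumption
        have := Finset.eq_of_subset_of_card_le hsub (by rw [he2, pair_card hab])
        subst this
        omega
    · -- star
      intro s hs hzs
      rw [hΔ1] at hs
      have key : ∀ c, c ≠ z → deg D {z, c} = 1 → s ⊆ insert x {z, c} →
          s ⊆ {z, x, a} ∨ s ⊆ {z, a, b} ∨ s ⊆ {z, x, b} := by
        intro c hc hd hsub
        rcases h4 c hc hd with rfl | rfl
        · left
          intro v hv
          have := hsub hv
          simp only [Set.mem_insert_iff, Set.mem_singleton_iff] at this ⊢
          tauto
        · right; right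
          intro v hv
          have := hsub hv
          simp only [Set.mem_insert_iff, Set.mem_singleton_iff] at this ⊢
          tauto
      have pairs : ∀ e : Finset U, e.card = 2 → z ∈ e → ∃ c, c ≠ z ∧ e = {z, c} := by
        intro e he hz
        obtain ⟨p, q, hpq, rfl⟩ := Finset.card_eq_two.1 he
        simp only [Finset.mem_insert, Finset.mem_singleton] at hz
        rcases hz with rfl | rfl
        · exact ⟨q, hpq.symm, rfl⟩
        · exact ⟨p, hpq, Finset.pair_comm _ _⟩
      rcases hs with ⟨hxs, hsf, hint⟩ | ⟨hxs, e, he2, hde, hse⟩
      · obtain ⟨t', ht', hst⟩ := hpriv s hsf {z} clz (by simpa using hzs)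
        rcases Finset.mem_insert.1 ht' with rfl | ht'
        · right; left
          intro v hv
          have := (memt v).1 (by exact_mod_cast hst hv)
          simp only [Set.mem_insert_iff, Set.mem_singleton_iff]
          tauto
        · classical
          set s' : Finset U := t'.filter (· ∈ s) with hs'
          have hss : (↑s' : Set U) = s := by
            ext v
            simp only [hs', Finset.coe_filter, Set.mem_setOf_eq]
            exact ⟨fun h => h.2, fun h => ⟨by exact_mod_cast hst h, h⟩⟩
          have hsub : s' ⊆ t' := Finset.filter_subset _ _
          have hzs' : z ∈ s' := by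
            have : z ∈ (↑s' : Set U) := by rw [hss]; exact hzs
            exact_mod_cast this
          have hcard : s'.card ≤ 2 := by
            by_contra hcon
            have hle := Finset.card_le_card hsub
            rw [htri t' ht'] at hle
            have heq := Finset.eq_of_subset_of_card_le hsub (by rw [htri t' ht']; omega)
            refine hint ↑t' (Or.inl ⟨t', ht', rfl⟩) ?_
            rw [← hss, heq]
          have hpos : 0 < s'.card := Finset.card_pos.2 ⟨z, hzs'⟩
          rcases (show s'.card = 1 ∨ s'.card = 2 by omega) with hc | hc
          · obtain ⟨w, hw⟩ := Finset.card_eq_one.1 hc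
            left
            intro v hv
            have hv' : v ∈ s' := by
              have : v ∈ (↑s' : Set U) := by rw [hss]; exact hv
              exact_mod_cast this
            rw [hw, Finset.mem_singleton] at hv' hzs'
            left
            rw [hv', hzs']
          · obtain ⟨c, hcz, hce⟩ := pairs s' hc hzs'
            have hd1 : 1 ≤ deg D s' := by
              unfold deg
              rw [Nat.one_le_iff_ne_zero, Ne, Finset.card_eq_zero, ← Ne,
                ← Finset.nonempty_iff_ne_empty]
              exact ⟨t', Finset.mem_filter.2 ⟨ht', hsub⟩⟩
            have hd2 : deg D s' ≠ 2 := by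
              intro hd
              exact hint ↑s' (Or.inr (Or.inl ⟨s', hc, hd, rfl⟩)) (by rw [hss])
            have hd3 := hdeg s' hc
            have hd : deg D {z, c} = 1 := by rw [← hce]; omega
            refine key c hcz hd ?_
            rw [← hss, hce]
            intro v hv
            right
            simpa using hv
      · have hze : z ∈ e := by
          have : z ∈ (↑e : Set U) := hse ⟨hzs, by simpa using hxz.symm⟩
          exact_mod_cast this
        obtain ⟨c, hcz, rfl⟩ := pairs e he2 hze
        refine key c hcz hde ?_
        intro v hv
        by_cases hvx : v = x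
        · left; exact hvx
        · right
          have := hse ⟨hv, by simpa using hvx⟩
          simpa using this
    · -- res
      intro s
      rw [hΔ2, hΔ1]
      constructor
      · rintro (⟨hxs, hsf, hint⟩ | ⟨hxs, e, he2, hde, hse⟩)
        · left
          refine ⟨Or.inl ⟨hxs, hsf, fun f hf => hint f (cl1 f hf).1⟩, ?_⟩
          intro hzs
          exact hint {z} clz (by simpa using hzs)
        · by_cases hs : e ⊆ t
          · rcases edges he2 hs with rfl | rfl | rfl
            · omega
            · omega
            · right
              intro v hv
              by_cases hvx : v = x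
              · left; exact hvx
              · have := hse ⟨hv, by simpa using hvx⟩
                right
                simpa using this
          · left
            rw [hins, if_neg hs] at hde
            have hde' : deg D e = 1 := by simpa using hde
            refine ⟨Or.inr ⟨hxs, e, he2, hde', hse⟩, ?_⟩
            intro hzs
            have hze : z ∈ e := by
              have : z ∈ (↑e : Set U) := hse ⟨hzs, by simpa using hxz.symm⟩
              exact_mod_cast this
            obtain ⟨p, q, hpq, rfl⟩ := Finset.card_eq_two.1 he2
            simp only [Finset.mem_insert, Finset.mem_singleton] at hze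
            rcases hze with rfl | rfl
            · rcases h4 q hpq.symm hde' with rfl | rfl
              · exact hs (by rw [Finset.pair_comm]; exact hazt)
              · exact hs hzbt
            · rw [Finset.pair_comm] at hde' hs
              rcases h4 p hpq hde' with rfl | rfl
              · exact hs (by rw [Finset.pair_comm]; exact hazt)
              · exact hs hzbt
      · rintro (⟨⟨hxs, hsf, hint⟩ | ⟨hxs, e, he2, hde, hse⟩, hzs⟩ | hsub)
        · left
          refine ⟨hxs, hsf, ?_⟩
          intro f hf hfs
          rcases cl2 f hf with h | h
          · exact hint f h hfs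
          · exact hzs (hfs h)
        · right
          refine ⟨hxs, ?_⟩
          by_cases hs : e ⊆ t
          · refine ⟨{a, b}, pair_card hab, d3, ?_⟩
            rcases edges he2 hs with rfl | rfl | rfl
            · intro v hv
              have h := hse hv
              have hvz : v ≠ z := fun h => hzs (h ▸ hv.1)
              simp only [Finset.coe_insert, Finset.coe_singleton, Set.mem_insert_iff,
                Set.mem_singleton_iff] at h ⊢
              tauto
            · intro v hv
              have h := hse hv
              have hvz : v ≠ z := fun h => hzs (h ▸ hv.1)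
              simp only [Finset.coe_insert, Finset.coe_singleton, Set.mem_insert_iff,
                Set.mem_singleton_iff] at h ⊢
              tauto
            · omega
          · refine ⟨e, he2, ?_, hse⟩
            rw [hins, if_neg hs, hde]
        · by_cases hxs : x ∈ s
          · right
            refine ⟨hxs, {a, b}, pair_card hab, d3, ?_⟩
            intro v hv
            have h := hsub hv.1
            have hvx : v ≠ x := by simpa using hv.2
            simp only [Finset.coe_insert, Finset.coe_singleton, Set.mem_insert_iff,
              Set.mem_singleton_iff] at h ⊢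
            tauto
          · left
            have hsab : ∀ v ∈ s, v = a ∨ v = b := by
              intro v hv
              have h := hsub hv
              have hvx : v ≠ x := fun h => hxs (h ▸ hv)
              simp only [Set.mem_insert_iff, Set.mem_singleton_iff] at h
              tauto
            refine ⟨hxs, ?_, ?_⟩
            · refine Δ.down _ _ ?_ hface
              intro v hv
              rcases hsab v hv with rfl | rfl
              · exact_mod_cast hat
              · exact_mod_cast hbt
            · intro f hf hfs
              rcases hf with ⟨t1, ht1, rfl⟩ | ⟨e, he2, hde, rfl⟩ | ⟨y, hy, hyc, rfl⟩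
              · have hc3 : t1.card = 3 := by
                  rcases Finset.mem_insert.1 ht1 with rfl | ht1
                  · exact htc
                  · exact htri t1 ht1
                have hle : t1 ⊆ {a, b} := by
                  intro v hv
                  have := hsab v (hfs (by exact_mod_cast hv))
                  simp only [Finset.mem_insert, Finset.mem_singleton]
                  exact this
                have := Finset.card_le_card hle
                rw [hc3, pair_card hab] at this
                omega
              · have hle : e ⊆ {a, b} := by
                  intro v hv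
                  have := hsab v (hfs (by exact_mod_cast hv))
                  simp only [Finset.mem_insert, Finset.mem_singleton]
                  exact this
                have := Finset.eq_of_subset_of_card_le hle (by rw [he2, pair_card hab])
                subst this
                omega
              · rcases hsab y (hfs (by simp)) with rfl | rfl
                · exact hyc b hab.symm d3
                · exact hyc a hab d3'

end Pool.Agent.MP552024
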