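import Pool.Agent.Work.MP_552024_lc.Two.StmtsA

/-!
A disc can be replaced by the cone over its boundary.
-/

set_option autoImplicit false

namespace Pool.Agent.MP552024

theorem prfDC4 (hs : S_star3) (hu : S_unstar3) (hf : S_flip) (he : S_coneEx) (h1 : S_DC1)
    (h2 : S_DC2) (h3 : S_DC3) : S_DC4 := by
  intro U _ D hD
  induction hD with
  | tri a b c hab hac hbc =>
    intro Δ Δ' x ht hp hx hc
    have hface : Δ.face {a, b, c} := by
      have := ht {a, b, c} (Finset.mem_singleton_self _)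
      simpa using this
    exact hs U Δ Δ' x a b c (h1 U a b c hab hac hbc Δ Δ' x hface hp hx hc)
  | ear D a b y hD hab hd hy ih =>
    intro Δ Δ' x ht hp hx hc
    have ht' : ∀ t ∈ D, Δ.face ↑t := fun t h => ht t (Finset.mem_insert_of_mem h)
    obtain ⟨Δ1, hΔ1⟩ := he U D Δ x hD ht' hx
    obtain ⟨hpD, hfl⟩ := h2 U D a b y hD hab hd hy Δ Δ1 Δ' x ht hp hx hΔ1 hc
    exact (ih Δ Δ1 x ht' hpD hx hΔ1).trans' (hf U Δ1 Δ' a b x y hfl)
  | fill D a z b hD hab hza hzb hd1 hd2 hd3 hd4 ih =>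
    intro Δ Δ' x ht hp hx hc
    have ht' : ∀ t ∈ D, Δ.face ↑t := fun t h => ht t (Finset.mem_insert_of_mem h)
    obtain ⟨Δ1, hΔ1⟩ := he U D Δ x hD ht' hx
    obtain ⟨hpD, hun⟩ := h3 U D a z b hD hab hza hzb hd1 hd2 hd3 hd4 Δ Δ1 Δ' x ht hp hx hΔ1 hc
    exact (ih Δ Δ1 x ht' hpD hx hΔ1).trans' (hu U Δ1 Δ' z x a b hun)

end Pool.Agent.MP552024
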