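import Pool.Agent.Work.MP_552024_lc.Two.StmtsC

/-!
A zero set of dimension at most three gives a complex without faces with four vertices.
MP_552024_lc (helper72).
-/

set_option autoImplicit false

namespace Pool.Agent.MP552024

section DIM

/-- the point with coordinates `a`, `b`, `c`, `d` at `i`, `j`, `k`, `m` -/
noncomputable def D4pt {V : Type} (i j k m : V) (a b c d : ℝ) : V → ℝ :=
  fun l => a * pt i l + b * pt j l + c * pt k l + d * pt m l

theorem D4pt_mem {V : Type} {Δ : Cx V} {i j k m : V} (h : Δ.face {i, j, k, m}) {a b c d : ℝ}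
    (ha : 0 ≤ a) (hb : 0 ≤ b) (hc : 0 ≤ c) (hd : 0 ≤ d) : D4pt i j k m a b c d ∈ Δ.Z := by
  refine Cx.mem_Z (fun l => add_nonneg (add_nonneg (add_nonneg (mul_nonneg ha (pt_nonneg _ _))
    (mul_nonneg hb (pt_nonneg _ _))) (mul_nonneg hc (pt_nonneg _ _)))
    (mul_nonneg hd (pt_nonneg _ _))) _ h (fun l hl => ?_)
  by_contra hn
  simp only [Set.mem_insert_iff, Set.mem_singleton_iff, not_or] at hn
  apply hl
  unfold D4pt
  rw [pt_ne hn.1, pt_ne hn.2.1, pt_ne hn.2.2.1, pt_ne hn.2.2.2]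
  ring

theorem D4pt_X {V : Type} [Fintype V] {n : ℕ} (t : V → Fin n → ℤ) (i j k m : V) (a b c d : ℝ)
    (l : Fin n) :
    ∑ v, (t v l : ℝ) * D4pt i j k m a b c d v = a * t i l + b * t j l + c * t k l + d * t m l := by
  classical
  have h : ∀ u : V, ∑ v, (t v l : ℝ) * pt u v = t u l := by
    intro u
    rw [Finset.sum_eq_single u]
    · rw [pt_self, mul_one]
    · intro v _ hv
      rw [pt_ne hv, mul_zero]
    · intro h; exact absurd (Finset.mem_univ _) h
  unfold D4pt
  simp only [mul_add, Finset.sum_add_distrib]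
  have h2 : ∀ (u : V) (r : ℝ), ∑ v, (t v l : ℝ) * (r * pt u v) = r * t u l := by
    intro u r
    rw [← h u, Finset.mul_sum]
    refine Finset.sum_congr rfl fun v _ => ?_
    ring
  rw [h2, h2, h2, h2]

/-- four points of a curve in a subspace -/
theorem D4vand {E : Type} [AddCommGroup E] [Module ℝ E] (W : Submodule ℝ E) (u v w x : E)
    (a b c d : ℝ) (hab : a ≠ b) (hac : a ≠ c) (had : a ≠ d) (hbc : b ≠ c) (hbd : b ≠ d)
    (hcd : c ≠ d) (ha : u + a • v + (a ^ 2) • w + (a ^ 3) • x ∈ W)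
    (hb : u + b • v + (b ^ 2) • w + (b ^ 3) • x ∈ W)
    (hc : u + c • v + (c ^ 2) • w + (c ^ 3) • x ∈ W)
    (hd : u + d • v + (d ^ 2) • w + (d ^ 3) • x ∈ W) :
    u ∈ W ∧ v ∈ W ∧ w ∈ W ∧ x ∈ W := by
  have key : ∀ b : ℝ, a ≠ b → u + b • v + (b ^ 2) • w + (b ^ 3) • x ∈ W →
      v + (a + b) • w + (a ^ 2 + a * b + b ^ 2) • x ∈ W := by
    intro b hab hb
    have h2 := W.smul_mem ((a - b)⁻¹) (W.sub_mem ha hb)
    have h4 : (u + a • v + (a ^ 2) • w + (a ^ 3) • x) - (u + b • v + (b ^ 2) • w + (b ^ 3) • x) =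
        (a - b) • (v + (a + b) • w + (a ^ 2 + a * b + b ^ 2) • x) := by module
    rwa [h4, smul_smul, inv_mul_cancel₀ (sub_ne_zero.2 hab), one_smul] at h2
  have key2 : ∀ c : ℝ, b ≠ c → v + (a + c) • w + (a ^ 2 + a * c + c ^ 2) • x ∈ W →
      w + (a + b + c) • x ∈ W := by
    intro c hbc hc
    have h2 := W.smul_mem ((b - c)⁻¹) (W.sub_mem (key b hab hb) hc)
    have h4 : (v + (a + b) • w + (a ^ 2 + a * b + b ^ 2) • x) -
        (v + (a + c) • w + (a ^ 2 + a * c + c ^ 2) • x) = (b - c) • (w + (a + b + c) • x) := by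
      module
    rwa [h4, smul_smul, inv_mul_cancel₀ (sub_ne_zero.2 hbc), one_smul] at h2
  have h1 := key2 c hbc (key c hac hc)
  have h2 := key2 d hbd (key d had hd)
  have hx : x ∈ W := by
    have h3 := W.smul_mem ((c - d)⁻¹) (W.sub_mem h1 h2)
    have h4 : (w + (a + b + c) • x) - (w + (a + b + d) • x) = (c - d) • x := by module
    rwa [h4, smul_smul, inv_mul_cancel₀ (sub_ne_zero.2 hcd), one_smul] at h3
  have hw : w ∈ W := by
    have h3 := W.sub_mem h1 (W.smul_mem (a + b + c) hx)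
    rwa [add_sub_cancel_right] at h3
  have hv : v ∈ W := by
    have h3 := W.sub_mem (W.sub_mem (key b hab hb) (W.smul_mem (a + b) hw))
      (W.smul_mem (a ^ 2 + a * b + b ^ 2) hx)
    have h4 : v + (a + b) • w + (a ^ 2 + a * b + b ^ 2) • x - (a + b) • w -
        (a ^ 2 + a * b + b ^ 2) • x = v := by module
    rwa [h4] at h3
  have hu : u ∈ W := by
    have h3 := W.sub_mem (W.sub_mem (W.sub_mem ha (W.smul_mem a hv)) (W.smul_mem (a ^ 2) hw))
      (W.smul_mem (a ^ 3) hx)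
    have h4 : u + a • v + (a ^ 2) • w + (a ^ 3) • x - a • v - (a ^ 2) • w - (a ^ 3) • x = u := by
      module
    rwa [h4] at h3
  exact ⟨hu, hv, hw, hx⟩

end DIM

theorem prfDim : S_dim := by
  intro n f G _ _ _ ψ hP M t hQ hD i j k m hij hik him hjk hjm hkm hf
  classical
  obtain ⟨hQ1, hQ2⟩ := hQ
  obtain ⟨F, hF, hF2, hF3⟩ := hD
  -- (1) injectivity
  have hinj : ∀ z ∈ M.Δ.Z, ∀ z' ∈ M.Δ.Z,
      (∀ l, ∑ v, (t v l : ℝ) * z v = ∑ v, (t v l : ℝ) * z' v) → z = z' := by
    intro z hz z' hz' h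
    funext v
    obtain ⟨g, hg⟩ := M.chart.hat v
    obtain ⟨a, ha, rfl⟩ := hP.2.1 g
    rw [← hg z hz, ← hg z' hz', hQ1 a ha z hz, hQ1 a ha z' hz']
    congr 1
    funext l
    exact h l
  -- the vectors
  let T : M.V → Fin n → ℝ := fun v l => (t v l : ℝ)
  have hind : LinearIndependent ℝ ![T i, T j, T k, T m] := by
    rw [Fintype.linearIndependent_iff]
    intro g hg
    rw [Fin.sum_univ_four] at hg
    simp only [Matrix.cons_val_zero, Matrix.cons_val_one, Matrix.cons_val_two, Matrix.head_cons,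
      Matrix.tail_cons, Matrix.cons_val] at hg
    set A := |g 0| + |g 1| + |g 2| + |g 3| + 1 with hA
    have hApos : 0 < A := by positivity
    have hbd : ∀ m : Fin 4, 0 ≤ 1 + A⁻¹ * g m := by
      intro m
      have h1 : |g m| ≤ A := by
        fin_cases m <;> simp only [hA] <;> simp <;>
          nlinarith [abs_nonneg (g 0), abs_nonneg (g 1), abs_nonneg (g 2), abs_nonneg (g 3)]
      have h2 : -A ≤ g m := by
        have := neg_abs_le (g m)
        linarith
      have h3 : A⁻¹ * (-A) ≤ A⁻¹ * g m := mul_le_mul_of_nonneg_left h2 (inv_pos.2 hApos).le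
      have h4 : A⁻¹ * (-A) = -1 := by field_simp
      linarith
    have hz := D4pt_mem (a := 1 + A⁻¹ * g 0) (b := 1 + A⁻¹ * g 1) (c := 1 + A⁻¹ * g 2)
      (d := 1 + A⁻¹ * g 3) hf (hbd 0) (hbd 1) (hbd 2) (hbd 3)
    have hz' := D4pt_mem (a := 1) (b := 1) (c := 1) (d := 1) hf zero_le_one zero_le_one
      zero_le_one zero_le_one
    have heq := hinj _ hz _ hz' (fun l => by
      rw [D4pt_X, D4pt_X]
      have h1 := congrFun hg l
      simp only [Pi.add_apply, Pi.smul_apply, smul_eq_mul, Pi.zero_apply, T] at h1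
      linear_combination A⁻¹ * h1)
    have hAi : A⁻¹ ≠ 0 := (inv_pos.2 hApos).ne'
    have e0 := congrFun heq i
    have e1 := congrFun heq j
    have e2 := congrFun heq k
    have e3 := congrFun heq m
    unfold D4pt at e0 e1 e2 e3
    rw [pt_self, pt_ne hij, pt_ne hik, pt_ne him] at e0
    rw [pt_self, pt_ne hij.symm, pt_ne hjk, pt_ne hjm] at e1
    rw [pt_self, pt_ne hik.symm, pt_ne hjk.symm, pt_ne hkm] at e2
    rw [pt_self, pt_ne him.symm, pt_ne hjm.symm, pt_ne hkm.symm] at e3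
    intro m
    have key : ∀ m : Fin 4, A⁻¹ * g m = 0 → g m = 0 := fun m h =>
      (mul_eq_zero.1 h).resolve_left hAi
    fin_cases m
    · exact key 0 (by linarith)
    · exact key 1 (by linarith)
    · exact key 2 (by linarith)
    · exact key 3 (by linarith)
  -- (3) the curve
  have hcurve : ∀ s : ℕ, ∃ W ∈ F,
      T i + (s : ℝ) • T j + ((s : ℝ) ^ 2) • T k + ((s : ℝ) ^ 3) • T m ∈ W := by
    intro s
    refine hF3 _ ?_
    have h1 := hQ2 _ (D4pt_mem (a := 1) (b := s) (c := (s : ℝ) ^ 2) (d := (s : ℝ) ^ 3) hf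
      zero_le_one (Nat.cast_nonneg _) (by positivity) (by positivity))
    rw [← h1]
    congr 1
    funext l
    rw [D4pt_X]
    simp only [Pi.add_apply, Pi.smul_apply, smul_eq_mul, T]
    ring
  choose W hW hW2 using hcurve
  have : Finite F := hF
  obtain ⟨W0, hW0⟩ := Finite.exists_infinite_fiber (fun s : ℕ => (⟨W s, hW s⟩ : F))
  have hinf : Set.Infinite {s : ℕ | W s = W0.1} := by
    have h1 : Set.Infinite ((fun s : ℕ => (⟨W s, hW s⟩ : F)) ⁻¹' {W0}) := Set.infinite_coe_iff.1 hW0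
    refine h1.mono ?_
    intro s hs
    exact congrArg Subtype.val hs
  obtain ⟨S, hS1, hS2⟩ := hinf.exists_subset_card_eq 4
  obtain ⟨e, S', he, rfl, hS3⟩ := Finset.card_eq_succ.1 hS2
  obtain ⟨a, b, c, hab, hac, hbc, rfl⟩ := Finset.card_eq_three.1 hS3
  simp only [Finset.mem_insert, Finset.mem_singleton, not_or] at he
  have ha : W a = W0.1 := hS1 (by simp)
  have hb : W b = W0.1 := hS1 (by simp)
  have hc : W c = W0.1 := hS1 (by simp)
  have he' : W e = W0.1 := hS1 (by simp)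
  have hva := hW2 a
  have hvb := hW2 b
  have hvc := hW2 c
  have hve := hW2 e
  rw [ha] at hva
  rw [hb] at hvb
  rw [hc] at hvc
  rw [he'] at hve
  obtain ⟨h1, h2, h3, h4⟩ := D4vand W0.1 _ _ _ _ _ _ _ _ (by exact_mod_cast he.1)
    (by exact_mod_cast he.2.1) (by exact_mod_cast he.2.2) (by exact_mod_cast hab)
    (by exact_mod_cast hac) (by exact_mod_cast hbc) hve hva hvb hvc
  have hmem : ∀ l : Fin 4, (![T i, T j, T k, T m] : Fin 4 → Fin n → ℝ) l ∈ W0.1 := by
    intro l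
    fin_cases l
    · exact h1
    · exact h2
    · exact h3
    · exact h4
  have hind2 : LinearIndependent ℝ (fun l : Fin 4 => (⟨_, hmem l⟩ : W0.1)) := by
    refine LinearIndependent.of_comp W0.1.subtype ?_
    exact hind
  have h5 := hind2.fintype_card_le_finrank
  have h6 := hF2 W0.1 W0.2
  simp only [Fintype.card_fin] at h5
  omega

end Pool.Agent.MP552024
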