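import Pool.Agent.Work.MP_552024_lc.Two.StmtsE

/-!
Images of discs, existence of the partial cone complexes. MP_552024_lc, dimension <= 3, item E0.
-/

set_option autoImplicit false

namespace Pool.Agent.MP552024

theorem E0_pair {U U' : Type} [DecidableEq U] [DecidableEq U'] (f : U → U') (a b : U) :
    ({a, b} : Finset U).image f = {f a, f b} := by
  rw [Finset.image_insert, Finset.image_singleton]

theorem E0_triple {U U' : Type} [DecidableEq U] [DecidableEq U'] (f : U → U') (a b c : U) :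
    ({a, b, c} : Finset U).image f = {f a, f b, f c} := by
  rw [Finset.image_insert, Finset.image_insert, Finset.image_singleton]

theorem E0_deg {U U' : Type} [DecidableEq U] [DecidableEq U'] (f : U → U')
    (hf : Function.Injective f) (D : Finset (Finset U)) (e : Finset U) :
    deg (D.image (Finset.image f)) (e.image f) = deg D e := by
  unfold deg
  rw [Finset.filter_image, Finset.card_image_of_injective _ (Finset.image_injective hf)]
  congr 1
  ext t
  simp only [Finset.mem_filter, Finset.image_subset_image_iff hf]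

theorem E0_pos {U U' : Type} [DecidableEq U] [DecidableEq U'] (f : U → U')
    (D : Finset (Finset U)) (e : Finset U')
    (h : 0 < deg (D.image (Finset.image f)) e) : ∃ e₀ : Finset U, e = e₀.image f := by
  unfold deg at h
  obtain ⟨t', ht'⟩ := Finset.card_pos.1 h
  rw [Finset.mem_filter, Finset.mem_image] at ht'
  obtain ⟨⟨t, -, rfl⟩, h2⟩ := ht'
  rw [Finset.subset_image_iff] at h2
  obtain ⟨s, -, hs⟩ := h2
  exact ⟨s, hs.symm⟩

theorem E0_Vs {U U' : Type} [DecidableEq U] [DecidableEq U'] (f : U → U')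
    (hf : Function.Injective f) (D : Finset (Finset U)) (y : U) (hy : y ∉ Vs D) :
    f y ∉ Vs (D.image (Finset.image f)) := by
  intro h
  unfold Vs at h hy
  rw [Finset.mem_biUnion] at h
  obtain ⟨t', ht', h2⟩ := h
  rw [Finset.mem_image] at ht'
  obtain ⟨t, ht, rfl⟩ := ht'
  rw [id, Finset.mem_image] at h2
  obtain ⟨y', hy', h3⟩ := h2
  rw [hf h3] at hy'
  exact hy (Finset.mem_biUnion.2 ⟨t, ht, hy'⟩)

theorem prfDiscMap : S_discMap := by
  intro U U' _ _ f hf D
  refine ⟨E0_deg f hf D, E0_pos f D, ?_⟩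
  intro hD
  induction hD with
  | tri a b c hab hac hbc =>
    rw [Finset.image_singleton, E0_triple]
    exact IsDisc.tri _ _ _ (hf.ne hab) (hf.ne hac) (hf.ne hbc)
  | ear D a b y hD hab h1 hy ih =>
    rw [Finset.image_insert, E0_triple]
    refine IsDisc.ear _ _ _ _ ih (hf.ne hab) ?_ (E0_Vs f hf D y hy)
    rw [← E0_pair, E0_deg f hf, h1]
  | fill D a x b hD hab hxa hxb h1 h2 h3 h4 ih =>
    rw [Finset.image_insert, E0_triple]
    refine IsDisc.fill _ _ _ _ ih (hf.ne hab) (hf.ne hxa) (hf.ne hxb) ?_ ?_ ?_ ?_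
    · rw [← E0_pair, E0_deg f hf, h1]
    · rw [← E0_pair, E0_deg f hf, h2]
    · rw [← E0_pair, E0_deg f hf, h3]
    · intro c' hc' hd
      obtain ⟨e₀, he⟩ := E0_pos f D {f x, c'} (by rw [hd]; exact Nat.one_pos)
      have h5 : c' ∈ e₀.image f := by
        rw [← he]
        exact Finset.mem_insert_of_mem (Finset.mem_singleton_self _)
      rw [Finset.mem_image] at h5
      obtain ⟨c, -, rfl⟩ := h5
      rw [← E0_pair, E0_deg f hf] at hd
      rcases h4 c (fun h => hc' (by rw [h])) hd with h | h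
      · exact Or.inl (by rw [h])
      · exact Or.inr (by rw [h])

theorem E0_uni_mono {V W : Type} (S : W → Set V) {s t : Set W} (h : s ⊆ t) :
    uni S s ⊆ uni S t := Set.biUnion_subset_biUnion_left h

theorem E0_max {V : Type} {K : Cx V} (hK : K.Dim2) {ρ τ : Set V} (hρ : K.face ρ) (hτ : IsTri τ)
    (h : τ ⊆ ρ) : τ = ρ := by
  refine Set.Subset.antisymm h fun x hx => ?_
  by_contra hxt
  obtain ⟨u, v, w, huv, huw, hvw, rfl⟩ := hτ
  simp only [Set.mem_insert_iff, Set.mem_singleton_iff, not_or] at hxt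
  refine hK u v w x huv huw (Ne.symm hxt.1) hvw (Ne.symm hxt.2.1) (Ne.symm hxt.2.2)
    (K.down _ _ ?_ hρ)
  rintro y (rfl | rfl | rfl | rfl)
  · exact h (Or.inl rfl)
  · exact h (Or.inr (Or.inl rfl))
  · exact h (Or.inr (Or.inr rfl))
  · exact hx

theorem E0_uni_pair {V W : Type} (S : W → Set V) (i j : W) : uni S {i, j} = S i ∪ S j := by
  unfold uni
  rw [Set.biUnion_pair]

theorem E0_tri_ne {V : Type} {τ : Set V} (h : IsTri τ) : τ.Nonempty := by
  obtain ⟨u, v, w, -, -, -, rfl⟩ := h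
  exact ⟨u, Or.inl rfl⟩

theorem E0_uni_empty {V W : Type} (S : W → Set V) : uni S ∅ = ∅ := by
  unfold uni
  exact Set.biUnion_empty S

theorem prfNFex : S_NFex := by
  intro V W K N S hG F hF
  refine ⟨⟨NFface N S F, ?_, ?_⟩, fun s => Iff.rfl⟩
  · intro s t hts hs
    have hin : Sum.inl ⁻¹' t ⊆ (Sum.inl ⁻¹' s : Set W) := fun i hi => hts hi
    rcases hs with ⟨h1, h2, h3⟩ | ⟨σ, hσ, h1, h2, i, j, hij, h3, h4, h5, h6⟩
    · refine Or.inl ⟨fun σ hσ => h1 σ (hts hσ), N.down _ _ hin h2, fun h4 => h3 ?_⟩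
      have h5 := E0_max hG.kdim (hG.car _ h2) (hF _ h4).2 (E0_uni_mono S hin)
      rw [← h5]
      exact h4
    · by_cases hσt : Sum.inr σ ∈ t
      · exact Or.inr ⟨σ, hσ, hσt, fun σ' hσ' => h2 σ' (hts hσ'), i, j, hij, h3, h4, h5,
          hin.trans h6⟩
      · refine Or.inl ⟨fun σ' hσ' => hσt ?_, N.down _ _ (hin.trans h6) h3, fun h7 => ?_⟩
        · rw [← h2 σ' (hts hσ')]
          exact hσ'
        · have h8 : uni S (Sum.inl ⁻¹' t) ⊆ S i ∪ S j := by
            rw [← E0_uni_pair]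
            exact E0_uni_mono S (hin.trans h6)
          have h9 := E0_max hG.kdim (hF σ hσ).1 (hF _ h7).2 (h8.trans h4)
          exact h5 (Set.Subset.antisymm h4 (by rw [← h9]; exact h8))
  · refine Or.inl ⟨fun σ h => h, N.empt, fun h => ?_⟩
    have h2 := E0_tri_ne (hF _ h).2
    have h3 : uni S (Sum.inl ⁻¹' (∅ : Set (W ⊕ Set V))) = ∅ := E0_uni_empty S
    rw [h3] at h2
    exact Set.not_nonempty_empty h2

theorem prfCT1 : S_CT1 := by
  intro V W N S Δ hΔ
  have key : ∀ s, Δ.face s ↔ ((∀ σ, Sum.inr σ ∉ s) ∧ N.face (Sum.inl ⁻¹' s)) := by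
    intro s
    rw [hΔ s]
    constructor
    · rintro (⟨h1, h2, -⟩ | ⟨σ, hσ, -⟩)
      · exact ⟨h1, h2⟩
      · exact absurd hσ (Set.notMem_empty _)
    · rintro ⟨h1, h2⟩
      exact Or.inl ⟨h1, h2, Set.notMem_empty _⟩
  refine Eqv.of_maps (fun z w => z (Sum.inl w)) (fun z => Sum.elim z (fun _ => 0)) ?_ ?_ ?_ ?_ ?_ ?_
  · intro v
    exact LP_coord _
  · rintro (w | σ)
    · exact LP_coord _
    · exact LP_zero
  · rintro z ⟨h1, h2⟩
    exact ⟨fun i => h1 _, ((key _).1 h2).2⟩
  · rintro z ⟨h1, h2⟩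
    refine ⟨?_, (key _).2 ⟨?_, h2⟩⟩
    · rintro (w | σ)
      · exact h1 w
      · exact le_refl _
    · intro σ h
      exact h rfl
  · rintro z ⟨h1, h2⟩
    funext x
    rcases x with w | σ
    · rfl
    · have h3 := ((key _).1 h2).1 σ
      simp only [Set.mem_ofPred_eq, not_not] at h3
      exact h3.symm
  · intro z _
    rfl

end Pool.Agent.MP552024
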