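import Pool.Agent.Work.MP_552024_lc.Two.StmtsC
import Pool.Agent.Work.MP_552024_lc.D2

/-!
Limits, zero sets, segments. MP_552024_lc, dimension at most three.
-/

set_option autoImplicit false

open Filter Topology

namespace Pool.Agent.MP552024

theorem prfLim : S_lim := by
  intro G _ _ _ M y z w hz hw
  obtain ⟨b, hb, hbz⟩ := M.chart.mem y
  have hev : ∀ ε : ℝ, 0 < ε → b (fun l => z l + ε * w l) = 0 := by
    intro ε hε
    obtain ⟨h1, h2⟩ := hw ε hε
    rw [← hbz _ h1, h2]
  have hcont : Continuous fun ε : ℝ => b (fun l => z l + ε * w l) :=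
    (LP_cont hb).comp (continuous_pi fun l => continuous_const.add
      (continuous_id.mul continuous_const))
  have ht1 : Tendsto (fun ε : ℝ => b (fun l => z l + ε * w l)) (𝓝[>] 0)
      (𝓝 (b (fun l => z l + 0 * w l))) :=
    (hcont.tendsto 0).mono_left nhdsWithin_le_nhds
  have ht2 : Tendsto (fun ε : ℝ => b (fun l => z l + ε * w l)) (𝓝[>] 0) (𝓝 0) := by
    refine tendsto_const_nhds.congr' ?_
    filter_upwards [self_mem_nhdsWithin] with ε hε
    exact (hev ε hε).symm
  have h6 := tendsto_nhds_unique ht1 ht2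
  have h7 : (fun l => z l + 0 * w l) = z := by
    funext l
    ring
  rw [h7] at h6
  rw [hbz _ hz]
  exact h6

theorem prfNzZ (h : S_inc) : S_nzZ := by
  intro G _ _ _ M u hu
  have key : NZ u ↔ ∀ a : G, 0 ≤ a → Inc a u :=
    ⟨fun h1 a _ x hx _ => h1 x hx, fun h1 x hx => h1 x hx x hx le_rfl⟩
  rw [key]
  constructor
  · intro h1 z hz h2 i
    obtain ⟨x, hx⟩ := M.chart.hat i
    have hx0 : 0 ≤ x := M.chart.nonneg_iff.2 (fun z hz => by rw [hx z hz]; exact hz.1 i)
    have h4 := (h G M x u hx0 hu).1 (h1 x hx0) z hz h2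
    rwa [hx _ hz] at h4
  · intro h1 a ha
    rw [h G M a u ha hu]
    intro z hz h2
    exact M.ev_zero_vec a (h1 z hz h2)

theorem prfClP (h : S_inc) : S_clP := by
  intro G _ _ _ M a q hq hw y hy hya
  refine (h G M y q hy hq).2 (fun z hz hqz => ?_)
  by_cases h0 : ∃ i, z i ≠ 0
  · obtain ⟨w, hw⟩ := hw z hz hqz h0
    refine prfLim G M y z w hz (fun ε hε => ?_)
    obtain ⟨h1, h2⟩ := hw ε hε
    refine ⟨h1, ?_⟩
    have h3 := M.chart.inf y a h1
    rw [hya, M.chart.zero h1] at h3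
    rcases min_choice (M.ev y fun l => z l + ε * w l) (M.ev a fun l => z l + ε * w l) with h5 | h5
    · rw [h5] at h3; exact h3.symm
    · rw [h5] at h3; exact absurd h3 h2.ne
  · push Not at h0
    exact M.ev_zero_vec y h0

theorem prfSeg (h : S_inc) : S_seg := by
  intro G _ _ _ M q x y hq hx hy hnz hinc z z' hz0 hz0' hseg hxz
  have hxy : 0 ≤ x ⊓ y := le_inf hx hy
  have hqxy : 0 ≤ q + x + y := add_nonneg (add_nonneg hq hx) hy
  obtain ⟨bx, hbx, hbxz⟩ := M.chart.mem x
  obtain ⟨b', hb', hbyz⟩ := M.chart.mem y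
  have hpt : ∀ r : ℝ, 0 ≤ r → r ≤ 1 →
      (bx (fun l => (1 - r) * z l + r * z' l) = 0 ∨ b' (fun l => (1 - r) * z l + r * z' l) = 0) ∧
      ¬ (bx (fun l => (1 - r) * z l + r * z' l) = 0 ∧
        b' (fun l => (1 - r) * z l + r * z' l) = 0) := by
    intro r hr0 hr1
    obtain ⟨h1, h2⟩ := hseg r hr0 hr1
    have hzn : ∀ i, 0 ≤ z i := by
      have := (hseg 0 le_rfl zero_le_one).1.1
      intro i
      simpa using this i
    have hzn' : ∀ i, 0 ≤ z' i := by
      have := (hseg 1 zero_le_one le_rfl).1.1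
      intro i
      simpa using this i
    rw [← hbxz _ h1, ← hbyz _ h1]
    constructor
    · have h3 := (h G M (x ⊓ y) q hxy hq).1 hinc _ h1 h2
      rw [M.chart.inf _ _ h1] at h3
      rcases min_choice (M.ev x fun l => (1 - r) * z l + r * z' l)
        (M.ev y fun l => (1 - r) * z l + r * z' l) with h5 | h5
      · left; rw [h5] at h3; exact h3
      · right; rw [h5] at h3; exact h3
    · rintro ⟨h3, h4⟩
      have h5 : M.ev (q + x + y) (fun l => (1 - r) * z l + r * z' l) = 0 := by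
        rw [M.chart.add _ _ _ h1, M.chart.add _ _ _ h1, h2, h3, h4]; norm_num
      have h6 := (prfNzZ h G M _ hqxy).1 hnz _ h1 h5
      rcases hr1.lt_or_eq with h7 | h7
      · obtain ⟨i, hi⟩ := hz0
        have h8 : 0 < (1 - r) * z i :=
          mul_pos (by linarith) (lt_of_le_of_ne (hzn i) (Ne.symm hi))
        have h9 := h6 i
        have h10 := mul_nonneg hr0 (hzn' i)
        linarith
      · obtain ⟨i, hi⟩ := hz0'
        have h9 := h6 i
        rw [h7] at h9
        simp at h9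
        exact hi h9
  have hc : ∀ b : (M.V → ℝ) → ℝ, b ∈ LP M.V →
      Continuous (fun r : ℝ => b (fun l => (1 - r) * z l + r * z' l)) := fun b hb =>
    (LP_cont hb).comp (continuous_pi fun l => ((continuous_const.sub continuous_id).mul
      continuous_const).add (continuous_id.mul continuous_const))
  have hpre : IsPreconnected (Set.Icc (0 : ℝ) 1) := isPreconnected_Icc
  rw [isPreconnected_closed_iff] at hpre
  have hA : IsClosed {r : ℝ | bx (fun l => (1 - r) * z l + r * z' l) = 0} :=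
    isClosed_eq (hc bx hbx) continuous_const
  have hB : IsClosed {r : ℝ | b' (fun l => (1 - r) * z l + r * z' l) = 0} :=
    isClosed_eq (hc b' hb') continuous_const
  have h00 : (fun l => (1 - (0 : ℝ)) * z l + 0 * z' l) = z := by funext l; ring
  have h11 : (fun l => (1 - (1 : ℝ)) * z l + 1 * z' l) = z' := by funext l; ring
  have hzZ : z ∈ M.Δ.Z := by
    have := (hseg 0 le_rfl zero_le_one).1; rwa [h00] at this
  have hzZ' : z' ∈ M.Δ.Z := by
    have := (hseg 1 zero_le_one le_rfl).1; rwa [h11] at this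
  by_contra hne
  have hB1 : b' (fun l => (1 - (1 : ℝ)) * z l + 1 * z' l) = 0 := by
    rcases (hpt 1 zero_le_one le_rfl).1 with h1 | h1
    · rw [h11, ← hbxz _ hzZ'] at h1; exact absurd h1 hne
    · exact h1
  obtain ⟨r, hr, hr1, hr2⟩ := hpre _ _ hA hB
    (fun r hr => (hpt r hr.1 hr.2).1)
    ⟨0, ⟨le_rfl, zero_le_one⟩, by
      show bx (fun l => (1 - (0 : ℝ)) * z l + 0 * z' l) = 0
      rw [h00, ← hbxz _ hzZ]; exact hxz⟩
    ⟨1, ⟨zero_le_one, le_rfl⟩, hB1⟩
  exact (hpt r hr.1 hr.2).2 ⟨hr1, hr2⟩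

end Pool.Agent.MP552024
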