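import Pool.Agent.Work.MP_552024_lc.Two.StmtsC

/-!
`S_connL` and `S_ctE` for MP_552024_lc, dimension at most three (helper72).
-/

set_option autoImplicit false

namespace Pool.Agent.MP552024

namespace FCaux

variable {G : Type} [AddCommGroup G] [Lattice G]

theorem zero_vec (M : Mdl G) (a : G) {z : M.V → ℝ} (hz : ∀ i, z i = 0) : M.ev a z = 0 := by
  have hz' : z = fun _ => (0 : ℝ) := funext hz
  rw [hz']
  have h1 := M.chart.hom a (Cx.zero_mem (Δ := M.Δ)) (le_refl (0 : ℝ))
  simpa using h1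

/-- the support of a zero of a linear element -/
theorem supp {M : Mdl G} {q : G} {c : M.V → ℤ} (hq : M.Lin q c) (h0 : 0 ≤ q) {z : M.V → ℝ}
    (hz : z ∈ M.Δ.Z) (h : M.ev q z = 0) (i : M.V) (hi : z i ≠ 0) : c i = 0 := by
  rw [hq z hz] at h
  have h1 := (Finset.sum_eq_zero_iff_of_nonneg (fun i _ =>
    mul_nonneg (by exact_mod_cast hq.nonneg h0 i) (hz.1 i))).1 h i (Finset.mem_univ _)
  rcases mul_eq_zero.1 h1 with h2 | h2
  · exact_mod_cast h2
  · exact absurd h2 hi

/-- a linear element vanishes on a vector supported in its zero set -/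
theorem van {M : Mdl G} {q : G} {c : M.V → ℤ} (hq : M.Lin q c) {z : M.V → ℝ}
    (hz : z ∈ M.Δ.Z) (h : ∀ i, z i ≠ 0 → c i = 0) : M.ev q z = 0 := by
  rw [hq z hz]
  refine Finset.sum_eq_zero (fun l _ => ?_)
  by_cases hl : z l = 0
  · rw [hl, mul_zero]
  · rw [h l hl]
    simp

end FCaux

open FCaux

theorem prfConnL (h : S_inc) (hL : S_incL) (hn : S_nzL) (_hz : S_nzZ) (hs : S_seg) : S_connL := by
  intro G _ _ _ M q c hq hq0
  classical
  constructor
  · intro hC A hA hA0 hcl j hj
    obtain ⟨x, hx⟩ := M.exists_lin (fun l => if l ∈ A then 0 else 1)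
    obtain ⟨y, hy⟩ := M.exists_lin (fun l => if c l = 0 ∧ l ∉ A then 0 else 1)
    have hx0 : 0 ≤ x := hx.nonneg' (fun i => by split_ifs <;> norm_num)
    have hy0 : 0 ≤ y := hy.nonneg' (fun i => by split_ifs <;> norm_num)
    have hNZ : NZ (q + x + y) := by
      refine (hn G M (q + x + y) _ ((hq.add hx).add hy)
        (add_nonneg (add_nonneg hq0 hx0) hy0)).2 (fun i => ?_)
      have h1 := hq.nonneg hq0 i
      by_cases h2 : i ∈ A
      · rw [if_pos h2, if_neg (fun h3 => h3.2 h2)]
        omega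
      · rw [if_neg h2]
        split_ifs <;> omega
    have hI : Inc (x ⊓ y) q := by
      refine (h G M (x ⊓ y) q (le_inf hx0 hy0) hq0).2 (fun z hz hqz => ?_)
      rw [M.chart.inf x y hz]
      have hx1 := M.chart.nonneg_iff.1 hx0 z hz
      have hy1 := M.chart.nonneg_iff.1 hy0 z hz
      by_cases h3 : ∃ i, z i ≠ 0 ∧ i ∈ A
      · obtain ⟨i, hi, hiA⟩ := h3
        have h5 : M.ev x z = 0 := by
          refine van hx hz (fun l hl => if_pos (hcl i hiA l (supp hq hq0 hz hqz l hl) ?_))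
          refine Cx.face_of_mem hz _ ?_
          rintro m (rfl | rfl)
          · exact hi
          · exact hl
        rw [h5]
        exact min_eq_left hy1
      · have h5 : M.ev y z = 0 :=
          van hy hz (fun l hl => if_pos ⟨supp hq hq0 hz hqz l hl, fun h6 => h3 ⟨l, hl, h6⟩⟩)
        rw [h5]
        exact min_eq_right hx1
    rcases hC x y hx0 hy0 hNZ hI with h6 | h6
    · have h7 := (hL G M x q _ _ hx hq hx0 hq0).1 h6 j hj
      by_contra hjA
      rw [if_neg hjA] at h7
      exact one_ne_zero h7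
    · obtain ⟨i, hi⟩ := hA
      have h7 := (hL G M y q _ _ hy hq hy0 hq0).1 h6 i (hA0 i hi)
      rw [if_neg (fun h8 => h8.2 hi)] at h7
      exact absurd h7 one_ne_zero
  · intro hA x y hx hy hNZ hI
    have key : ∀ x y : G, 0 ≤ x → 0 ≤ y → NZ (q + x + y) → Inc (x ⊓ y) q →
        (∀ i, c i = 0 → M.ev x (pt i) = 0) → Inc x q := by
      intro x y hx hy hNZ hI h1
      refine (h G M x q hx hq0).2 (fun z hz hqz => ?_)
      by_cases h2 : ∀ i, z i = 0
      · exact zero_vec M x h2
      · rw [not_forall] at h2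
        obtain ⟨i, hi⟩ := h2
        have hci := supp hq hq0 hz hqz i hi
        refine hs G M q x y hq0 hx hy hNZ hI (pt i) z ⟨i, by rw [pt_self]; norm_num⟩ ⟨i, hi⟩
          (fun r hr0 hr1 => ?_) (h1 i hci)
        have hmem : (fun l => (1 - r) * pt i l + r * z l) ∈ M.Δ.Z := by
          refine Cx.mem_Z (fun l => add_nonneg (mul_nonneg (by linarith) (pt_nonneg _ _))
            (mul_nonneg hr0 (hz.1 l))) {l | z l ≠ 0} hz.2 (fun l hl hzl => hl ?_)
          rw [hzl, pt_ne (by rintro rfl; exact hi hzl)]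
          ring
        refine ⟨hmem, van hq hmem (fun l hl => ?_)⟩
        by_contra hcl
        apply hl
        have h3 : z l = 0 := by
          by_contra h4
          exact hcl (supp hq hq0 hz hqz l h4)
        rw [h3, pt_ne (by rintro rfl; exact hcl hci)]
        ring
    by_cases hne : ({i | c i = 0 ∧ M.ev x (pt i) = 0} : Set M.V).Nonempty
    · left
      refine key x y hx hy hNZ hI (fun i hi => (hA _ hne (fun i hi => hi.1) ?_ i hi).2)
      intro i hi j hj hf
      refine ⟨hj, hs G M q x y hq0 hx hy hNZ hI (pt i) (pt j) ⟨i, by rw [pt_self]; norm_num⟩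
        ⟨j, by rw [pt_self]; norm_num⟩ (fun r h0 h1 => ?_) hi.2⟩
      have hmem := Cx.pair_mem hf (show 0 ≤ 1 - r by linarith) h0
      refine ⟨hmem, van hq hmem (fun l hl => ?_)⟩
      by_contra hcl
      apply hl
      rw [pt_ne (by rintro rfl; exact hcl hi.1), pt_ne (by rintro rfl; exact hcl hj)]
      ring
    · right
      refine key y x hy hx (by rwa [add_right_comm]) (by rwa [inf_comm]) (fun i hi => ?_)
      have h1 : M.ev x (pt i) ≠ 0 := fun h => hne ⟨i, hi, h⟩
      have h2 := (h G M (x ⊓ y) q (le_inf hx hy) hq0).1 hI (pt i) (Cx.pt_mem i)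
        (by rw [hq.pt, hi]; simp)
      rw [M.chart.inf x y (Cx.pt_mem i)] at h2
      have h3 := M.chart.nonneg_iff.1 hx _ (Cx.pt_mem (Δ := M.Δ) i)
      have h4 := M.chart.nonneg_iff.1 hy _ (Cx.pt_mem (Δ := M.Δ) i)
      by_contra h5
      have h6 := lt_min (lt_of_le_of_ne h3 (Ne.symm h1)) (lt_of_le_of_ne h4 (Ne.symm h5))
      rw [h2] at h6
      exact lt_irrefl _ h6

theorem prfCtE (hc : S_connL) (ht : S_twoL) : S_ctE := by
  intro G _ _ _ M q c hq hq0 hC hT
  obtain ⟨a, b, hab, ha, hb⟩ := (ht G M q c hq hq0).1 hT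
  refine ⟨⟨a, ha⟩, fun i hi => ?_⟩
  by_contra hcon
  have h1 := (hc G M q c hq hq0).1 hC {i} ⟨i, rfl⟩ (by rintro _ rfl; exact hi) (by
    rintro _ rfl j hj hf
    by_contra hji
    exact hcon ⟨j, hji, hj, hf⟩)
  exact hab ((h1 a ha).trans (h1 b hb).symm)

end Pool.Agent.MP552024
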