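import Pool.Agent.Work.MP_552024_lc.Two.StmtsC
import Pool.Agent.Work.MP_552024_lc.H1

/-!
First-order transfer of Sig2, MP_552024_lc, dimension at most three.
-/

set_option autoImplicit false

namespace Pool.Agent.MP552024

open FirstOrder FirstOrder.Language

section

variable {α : Type}

theorem Dfn.conn {τ : ∀ K : OG, (α → K.K) → K.K} (hτ : DT τ) : Dfn (fun K v => Conn (τ K v)) := by
  unfold Conn
  refine Dfn.all (Dfn.all ?_)
  exact Dfn.imp (Dfn.le DT.zero (DT.var _)) (Dfn.imp (Dfn.le DT.zero (DT.var _))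
    (Dfn.imp (Dfn.nz (DT.add (DT.add hτ.lift.lift (DT.var _)) (DT.var _)))
      (Dfn.imp (Dfn.inc (DT.inf (DT.var _) (DT.var _)) hτ.lift.lift)
        (Dfn.or (Dfn.inc (DT.var _) hτ.lift.lift) (Dfn.inc (DT.var _) hτ.lift.lift)))))

theorem Dfn.two {τ : ∀ K : OG, (α → K.K) → K.K} (hτ : DT τ) : Dfn (fun K v => Two (τ K v)) := by
  unfold Two
  exact Dfn.and (Dfn.nz hτ).not (Dfn.single hτ).not

theorem DT.oth {V : Type} [Fintype V] (v : V) : DT (fun K (s : V → K.K) => oth s v) := by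
  unfold MP552024.oth
  exact DT.sub (DT.sum _ (fun u => DT.var u)) (DT.var v)

theorem DT.oth2 {V : Type} [Fintype V] (u v : V) : DT (fun K (s : V → K.K) => oth2 s u v) := by
  unfold MP552024.oth2
  exact DT.sub (DT.sub (DT.sum _ (fun u => DT.var u)) (DT.var u)) (DT.var v)

theorem DT.tri {V : Type} (u v w : V) : DT (fun K (s : V → K.K) => s u ⊓ s v ⊓ s w) :=
  DT.inf (DT.inf (DT.var u) (DT.var v)) (DT.var w)

end

theorem Dfn.sig2 {V : Type} [Fintype V] (Kc : Cx V) :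
    Dfn (fun K (s : V → K.K) => Sig2 Kc s) := by
  have h1 : Dfn (fun K (s : V → K.K) => ∀ v, 0 ≤ s v) :=
    Dfn.fall (fun v => Dfn.le DT.zero (DT.var v))
  have h2 : Dfn (fun K (s : V → K.K) => ∀ u v, u ≠ v → ¬ Kc.face {u, v} → s u ⊓ s v = 0) :=
    Dfn.fall (fun u => Dfn.fall (fun v => Dfn.ext (Dfn.ext
      (Dfn.eq (DT.inf (DT.var u) (DT.var v)) DT.zero))))
  have h3 : Dfn (fun K (s : V → K.K) => ∀ u v w, u ≠ v → u ≠ w → v ≠ w → ¬ Kc.face {u, v, w} →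
      s u ⊓ s v ⊓ s w = 0) :=
    Dfn.fall (fun u => Dfn.fall (fun v => Dfn.fall (fun w => Dfn.ext (Dfn.ext (Dfn.ext (Dfn.ext
      (Dfn.eq (DT.tri u v w) DT.zero)))))))
  have h4 : Dfn (fun K (s : V → K.K) => ∀ u v w x, u ≠ v → u ≠ w → u ≠ x → v ≠ w → v ≠ x →
      w ≠ x → s u ⊓ s v ⊓ s w ⊓ s x = 0) :=
    Dfn.fall (fun u => Dfn.fall (fun v => Dfn.fall (fun w => Dfn.fall (fun x =>
      Dfn.ext (Dfn.ext (Dfn.ext (Dfn.ext (Dfn.ext (Dfn.ext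
      (Dfn.eq (DT.inf (DT.tri u v w) (DT.var x)) DT.zero))))))))))
  have h5 : Dfn (fun K (s : V → K.K) => NZ (∑ v, s v)) := Dfn.nz (DT.sum _ (fun u => DT.var u))
  have h6 : Dfn (fun K (s : V → K.K) => ∀ v, Single (oth s v)) :=
    Dfn.fall (fun v => Dfn.single (DT.oth v))
  have h7 : Dfn (fun K (s : V → K.K) => ∀ u v, u ≠ v → Kc.face {u, v} → Conn (oth2 s u v)) :=
    Dfn.fall (fun u => Dfn.fall (fun v => Dfn.ext (Dfn.ext (Dfn.conn (DT.oth2 u v)))))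
  have h8 : Dfn (fun K (s : V → K.K) => ∀ u v, u ≠ v → Kc.face {u, v} → ∀ r : K.K, 0 ≤ r →
      Conn r → Inc (oth2 s u v) r → Inc r (oth s u) → Inc r (oth s v) → Inc r (oth2 s u v)) :=
    Dfn.fall (fun u => Dfn.fall (fun v => Dfn.ext (Dfn.ext (Dfn.all
      (Dfn.imp (Dfn.le DT.zero (DT.var _)) (Dfn.imp (Dfn.conn (DT.var _))
        (Dfn.imp (Dfn.inc (DT.oth2 u v).lift (DT.var _))
          (Dfn.imp (Dfn.inc (DT.var _) (DT.oth u).lift)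
            (Dfn.imp (Dfn.inc (DT.var _) (DT.oth v).lift)
              (Dfn.inc (DT.var _) (DT.oth2 u v).lift))))))))))
  have h9 : Dfn (fun K (s : V → K.K) => ∀ u v w, u ≠ v → u ≠ w → v ≠ w → Kc.face {u, v, w} →
      Cl (s u ⊓ s v ⊓ s w) (oth2 s u v)) :=
    Dfn.fall (fun u => Dfn.fall (fun v => Dfn.fall (fun w => Dfn.ext (Dfn.ext (Dfn.ext (Dfn.ext
      (Dfn.cl (DT.tri u v w) (DT.oth2 u v))))))))
  have h10 : Dfn (fun K (s : V → K.K) => ∀ u v w, u ≠ v → u ≠ w → v ≠ w → Kc.face {u, v, w} →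
      ∀ q : K.K, 0 ≤ q → Conn q → Two q →
      Inc (oth2 s u v) q → ¬ ∃ a b : K.K, (0 ≤ a ∧ 0 ≤ b) ∧ a ⊓ b = 0 ∧
        (Inc a (s u ⊓ s v ⊓ s w) ∧ Inc b (s u ⊓ s v ⊓ s w)) ∧ Cl a q ∧ Cl b q) := by
    refine Dfn.fall (fun u => Dfn.fall (fun v => Dfn.fall (fun w => Dfn.ext (Dfn.ext (Dfn.ext
      (Dfn.ext (Dfn.all (Dfn.imp (Dfn.le DT.zero (DT.var _)) (Dfn.imp (Dfn.conn (DT.var _))
        (Dfn.imp (Dfn.two (DT.var _)) (Dfn.imp (Dfn.inc (DT.oth2 u v).lift (DT.var _))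
          (Dfn.not (Dfn.ex (Dfn.ex ?_))))))))))))))
    exact Dfn.and (Dfn.and (Dfn.le DT.zero (DT.var _)) (Dfn.le DT.zero (DT.var _)))
      (Dfn.and (Dfn.eq (DT.inf (DT.var _) (DT.var _)) DT.zero)
        (Dfn.and (Dfn.and (Dfn.inc (DT.var _) (DT.tri u v w).lift.lift.lift)
          (Dfn.inc (DT.var _) (DT.tri u v w).lift.lift.lift))
        (Dfn.and (Dfn.cl (DT.var _) (DT.var _)) (Dfn.cl (DT.var _) (DT.var _)))))
  have h11 : Dfn (fun K (s : V → K.K) => ∀ u v w, u ≠ v → u ≠ w → v ≠ w → Kc.face {u, v, w} →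
      ∀ q : K.K, 0 ≤ q → Conn q → Two q →
      ¬ ∃ a b c : K.K, (0 ≤ a ∧ 0 ≤ b ∧ 0 ≤ c) ∧ (a ⊓ b = 0 ∧ a ⊓ c = 0 ∧ b ⊓ c = 0) ∧
        (Inc a (s u ⊓ s v ⊓ s w) ∧ Inc b (s u ⊓ s v ⊓ s w) ∧ Inc c (s u ⊓ s v ⊓ s w)) ∧
        Cl a q ∧ Cl b q ∧ Cl c q) := by
    refine Dfn.fall (fun u => Dfn.fall (fun v => Dfn.fall (fun w => Dfn.ext (Dfn.ext (Dfn.ext
      (Dfn.ext (Dfn.all (Dfn.imp (Dfn.le DT.zero (DT.var _)) (Dfn.imp (Dfn.conn (DT.var _))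
        (Dfn.imp (Dfn.two (DT.var _))
          (Dfn.not (Dfn.ex (Dfn.ex (Dfn.ex ?_))))))))))))))
    exact Dfn.and (Dfn.and (Dfn.le DT.zero (DT.var _)) (Dfn.and (Dfn.le DT.zero (DT.var _))
        (Dfn.le DT.zero (DT.var _))))
      (Dfn.and (Dfn.and (Dfn.eq (DT.inf (DT.var _) (DT.var _)) DT.zero)
        (Dfn.and (Dfn.eq (DT.inf (DT.var _) (DT.var _)) DT.zero)
          (Dfn.eq (DT.inf (DT.var _) (DT.var _)) DT.zero)))
        (Dfn.and (Dfn.and (Dfn.inc (DT.var _) (DT.tri u v w).lift.lift.lift.lift)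
          (Dfn.and (Dfn.inc (DT.var _) (DT.tri u v w).lift.lift.lift.lift)
          (Dfn.inc (DT.var _) (DT.tri u v w).lift.lift.lift.lift)))
        (Dfn.and (Dfn.cl (DT.var _) (DT.var _)) (Dfn.and (Dfn.cl (DT.var _) (DT.var _))
          (Dfn.cl (DT.var _) (DT.var _))))))
  have h12 : Dfn (fun K (s : V → K.K) => ∀ u v w, u ≠ v → u ≠ w → v ≠ w → Kc.face {u, v, w} →
      ∀ q : K.K, 0 ≤ q → Conn q → Two q →
      NZ (q + (s u ⊓ s v ⊓ s w)) → (∀ y : K.K, 0 ≤ y → y ⊓ q = 0 → y = 0) →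
      ∃ a b : K.K, (0 ≤ a ∧ 0 ≤ b) ∧ a ⊓ b = 0 ∧
        (Inc a (s u ⊓ s v ⊓ s w) ∧ Inc b (s u ⊓ s v ⊓ s w)) ∧ Cl a q ∧ Cl b q) := by
    refine Dfn.fall (fun u => Dfn.fall (fun v => Dfn.fall (fun w => Dfn.ext (Dfn.ext (Dfn.ext
      (Dfn.ext (Dfn.all (Dfn.imp (Dfn.le DT.zero (DT.var _)) (Dfn.imp (Dfn.conn (DT.var _))
        (Dfn.imp (Dfn.two (DT.var _))
          (Dfn.imp (Dfn.nz (DT.add (DT.var _) (DT.tri u v w).lift))
            (Dfn.imp (Dfn.all (Dfn.imp (Dfn.le DT.zero (DT.var _))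
              (Dfn.imp (Dfn.eq (DT.inf (DT.var _) (DT.var _)) DT.zero)
                (Dfn.eq (DT.var _) DT.zero))))
              (Dfn.ex (Dfn.ex ?_))))))))))))))
    exact Dfn.and (Dfn.and (Dfn.le DT.zero (DT.var _)) (Dfn.le DT.zero (DT.var _)))
      (Dfn.and (Dfn.eq (DT.inf (DT.var _) (DT.var _)) DT.zero)
        (Dfn.and (Dfn.and (Dfn.inc (DT.var _) (DT.tri u v w).lift.lift.lift)
          (Dfn.inc (DT.var _) (DT.tri u v w).lift.lift.lift))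
        (Dfn.and (Dfn.cl (DT.var _) (DT.var _)) (Dfn.cl (DT.var _) (DT.var _)))))
  have h13 : Dfn (fun K (s : V → K.K) => ∀ u v w, u ≠ v → u ≠ w → v ≠ w → Kc.face {u, v, w} →
      ∀ a b : K.K, 0 ≤ a → 0 ≤ b → a ≠ 0 →
      b ≠ 0 → a ⊓ b = 0 → Inc a (s u ⊓ s v ⊓ s w) → Inc b (s u ⊓ s v ⊓ s w) →
      (∀ y : K.K, 0 ≤ y → Inc y (s u ⊓ s v ⊓ s w) → y ⊓ (a + b) = 0 → y = 0) →
      ∃ q : K.K, 0 ≤ q ∧ Conn q ∧ Two q ∧ Cl a q ∧ Cl b q) := by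
    refine Dfn.fall (fun u => Dfn.fall (fun v => Dfn.fall (fun w => Dfn.ext (Dfn.ext (Dfn.ext
      (Dfn.ext (Dfn.all (Dfn.all (Dfn.imp (Dfn.le DT.zero (DT.var _))
        (Dfn.imp (Dfn.le DT.zero (DT.var _)) (Dfn.imp (Dfn.not (Dfn.eq (DT.var _) DT.zero))
          (Dfn.imp (Dfn.not (Dfn.eq (DT.var _) DT.zero))
            (Dfn.imp (Dfn.eq (DT.inf (DT.var _) (DT.var _)) DT.zero)
              (Dfn.imp (Dfn.inc (DT.var _) (DT.tri u v w).lift.lift)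
                (Dfn.imp (Dfn.inc (DT.var _) (DT.tri u v w).lift.lift)
                  (Dfn.imp (Dfn.all (Dfn.imp (Dfn.le DT.zero (DT.var _))
                    (Dfn.imp (Dfn.inc (DT.var _) (DT.tri u v w).lift.lift.lift)
                      (Dfn.imp (Dfn.eq (DT.inf (DT.var _) (DT.add (DT.var _) (DT.var _))) DT.zero)
                        (Dfn.eq (DT.var _) DT.zero)))))
                    (Dfn.ex ?_)))))))))))))))))
    exact Dfn.and (Dfn.le DT.zero (DT.var _)) (Dfn.and (Dfn.conn (DT.var _))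
      (Dfn.and (Dfn.two (DT.var _)) (Dfn.and (Dfn.cl (DT.var _) (DT.var _))
        (Dfn.cl (DT.var _) (DT.var _)))))
  refine (h1.and (h2.and (h3.and (h4.and (h5.and (h6.and (h7.and (h8.and (h9.and (h10.and
    (h11.and (h12.and h13)))))))))))).congr (fun K s => ?_)
  exact ⟨fun ⟨a1, a2, a3, a4, a5, a6, a7, a8, a9, a10, a11, a12, a13⟩ =>
      ⟨a1, a2, a3, a4, a5, a6, a7, a8, a9, a10, a11, a12, a13⟩,
    fun h => ⟨h.pos, h.two, h.three, h.four, h.nz, h.single, h.arcC, h.arcM, h.r1, h.r2, h.r3,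
      h.r4, h.r5⟩⟩

theorem prfFO2 : S_fo2 := by
  intro G H _ _ _ _ _ _ V _ K hT hs
  obtain ⟨φ, hφ⟩ := Dfn.exs (Dfn.sig2 K)
  have hG := hφ ⟨G⟩ default
  have hH := hφ ⟨H⟩ default
  have h1 : φ ∈ @completeTheory L2 G (str G) := by
    refine (@mem_completeTheory L2 G (str G) φ).2 ?_
    exact hG.2 hs
  rw [hT] at h1
  exact hH.1 ((@mem_completeTheory L2 H (str H) φ).1 h1)

end Pool.Agent.MP552024
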