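import Pool.Agent.Work.MP_552024_lc.Two.StmtsB

/-!
The identity labelling is good, MP_552024_lc.
-/

set_option autoImplicit false

namespace Pool.Agent.MP552024

theorem prfGB_uni {V : Type} (s : Set V) : uni (fun v : V => ({v} : Set V)) s = s := by
  ext v; simp [uni]

theorem prfGB : S_GB := by
  intro V K hK
  refine ⟨hK, fun i => ⟨i, rfl⟩, fun s hs => by rwa [prfGB_uni], hK, ?_, ?_, ?_, ?_, ?_, ?_, ?_⟩
  · intro v
    exact ⟨v, rfl, fun i hi => Set.singleton_eq_singleton_iff.1 hi⟩
  · intro i j k hij hik hjk _ u v h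
    have h1 : i = u ∨ i = v := by simpa using h (Or.inl (Or.inl rfl))
    have h2 : j = u ∨ j = v := by simpa using h (Or.inl (Or.inr rfl))
    have h3 : k = u ∨ k = v := by simpa using h (Or.inr rfl)
    rcases h1 with rfl | rfl <;> rcases h2 with rfl | rfl <;> rcases h3 with rfl | rfl <;>
      first
      | exact hij rfl
      | exact hik rfl
      | exact hjk rfl
  · intro u v a b huv hf ha hb
    have ha' : a = u := Set.singleton_eq_singleton_iff.1 ha
    have hb' : b = v := Set.singleton_eq_singleton_iff.1 hb
    subst ha' hb'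
    refine ⟨1, fun k => if k = 0 then a else b, ?_, by simp, by simp, ?_, ?_⟩
    · intro j k hj hk h
      interval_cases j <;> interval_cases k <;> simp_all
    · intro i
      simp only [Set.singleton_subset_iff, Set.mem_insert_iff, Set.mem_singleton_iff, Set.mem_ofPred_eq]
      constructor
      · rintro (rfl | rfl)
        · exact ⟨0, by norm_num, by simp⟩
        · exact ⟨1, by norm_num, by simp⟩
      · rintro ⟨k, hk, rfl⟩
        interval_cases k <;> simp
    · intro j k hj hk
      have e1 : K.face {a, a} := by simpa using K.vert a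
      have e2 : K.face {b, b} := by simpa using K.vert b
      have e3 : K.face {b, a} := by rw [Set.pair_comm]; exact hf
      interval_cases j <;> interval_cases k
      · exact ⟨fun _ => Or.inl rfl, fun _ => e1⟩
      · exact ⟨fun _ => Or.inr (Or.inr rfl), fun _ => hf⟩
      · exact ⟨fun _ => Or.inr (Or.inl rfl), fun _ => e3⟩
      · exact ⟨fun _ => Or.inl rfl, fun _ => e2⟩
  · rintro σ _ ⟨u, v, w, huv, huw, hvw, rfl⟩ i j hij _ h
    exfalso
    have h1 : u = i ∨ u = j := by
      have : u ∈ ({i} : Set V) ∪ {j} := by rw [h]; simp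
      exact this
    have h2 : v = i ∨ v = j := by
      have : v ∈ ({i} : Set V) ∪ {j} := by rw [h]; simp
      exact this
    have h3 : w = i ∨ w = j := by
      have : w ∈ ({i} : Set V) ∪ {j} := by rw [h]; simp
      exact this
    rcases h1 with rfl | rfl <;> rcases h2 with rfl | rfl <;> rcases h3 with rfl | rfl <;>
      first
      | exact huv rfl
      | exact huw rfl
      | exact hvw rfl
  · intro σ hσ hT i j hij _ h1 h2
    have hi : i ∈ σ := h1 (Or.inl rfl)
    have hj : j ∈ σ := h1 (Or.inr rfl)
    obtain ⟨u, v, w, huv, huw, hvw, rfl⟩ := hT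
    have key : ∃ k, k ≠ i ∧ k ≠ j ∧ ({i, j, k} : Set V) = {u, v, w} := by
      simp only [Set.mem_insert_iff, Set.mem_singleton_iff] at hi hj
      rcases hi with rfl | rfl | rfl <;> rcases hj with rfl | rfl | rfl
      · exact absurd rfl hij
      · exact ⟨w, huw.symm, hvw.symm, rfl⟩
      · exact ⟨v, huv.symm, hvw, by ext x; simp; tauto⟩
      · exact ⟨w, hvw.symm, huw.symm, by ext x; simp; tauto⟩
      · exact absurd rfl hij
      · exact ⟨u, huv, huw, by ext x; simp; tauto⟩
      · exact ⟨v, hvw, huv.symm, by ext x; simp; tauto⟩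
      · exact ⟨u, huw, huv, by ext x; simp; tauto⟩
      · exact absurd rfl hij
    obtain ⟨k, hki, hkj, hk⟩ := key
    refine ⟨k, hki, hkj, fun m hmi hmj => ⟨fun ⟨_, h⟩ => ?_, ?_⟩⟩
    · rw [← hk] at h
      have : m ∈ ({i, j, k} : Set V) := by rw [← h]; exact Or.inr rfl
      simp only [Set.mem_insert_iff, Set.mem_singleton_iff] at this
      rcases this with h | h | h
      · exact absurd h hmi
      · exact absurd h hmj
      · exact h
    · rintro rfl
      refine ⟨by rw [hk]; exact hσ, ?_⟩
      rw [← hk]
      ext x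
      simp
      tauto
  · rintro i σ h ⟨u, v, w, huv, huw, hvw, rfl⟩
    exfalso
    have h1 : u = i := by
      have : u ∈ ({i} : Set V) := by rw [h]; simp
      simpa using this
    have h2 : v = i := by
      have : v ∈ ({i} : Set V) := by rw [h]; simp
      simpa using this
    exact huv (h1.trans h2.symm)
  · intro σ _ _ A hA hne _ t ht
    obtain ⟨t', ht'⟩ := hne
    have h1 := (hA t' ht').2.2
    have h2 := ht.2.2
    rw [prfGB_uni] at h1 h2
    rw [h2, ← h1]
    exact ht'

end Pool.Agent.MP552024
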