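import Pool.Agent.Work.MP_552024_lc.Two.StmtsB

/-!
Refinements of two-dimensional models are good. MP_552024_lc, dimension at most three.
-/

set_option autoImplicit false

namespace Pool.Agent.MP552024

section GR

variable {G : Type} [AddCommGroup G] [Lattice G]

/-- the carriers after an elementary subdivision -/
theorem carr_subd {V : Type} (N : Mdl G) (h : V → G) (c : V → N.V → ℤ)
    (hl : ∀ v, N.Lin (h v) (c v)) (hc : ∀ v i, 0 ≤ c v i) (p q : N.V) (hpq : p ≠ q)
    (hf : N.Δ.face {p, q}) :
    carr (N.subd p q hpq hf) h = subS (carr N h) p q := by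
  funext o
  ext v
  have h1 := ((hl v).subd p q hpq hf).pt o
  have h2 : ∀ i, N.ev (h v) (pt i) = c v i := fun i => (hl v).pt i
  rcases o with _ | i
  · show (N.subd p q hpq hf).ev (h v) (pt none) ≠ 0 ↔ v ∈ carr N h p ∪ carr N h q
    rw [h1]
    simp only [Option.elim_none, carr, Set.mem_union, Set.mem_ofPred_eq, h2]
    have hp := hc v p
    have hq := hc v q
    constructor
    · intro h3
      by_contra h4
      push Not at h4
      apply h3
      have h5 : c v p = 0 := by exact_mod_cast h4.1
      have h6 : c v q = 0 := by exact_mod_cast h4.2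
      rw [h5, h6]
      simp
    · intro h3 h4
      have h5 : c v p + c v q = 0 := by exact_mod_cast h4
      have h6 : c v p = 0 := by omega
      have h7 : c v q = 0 := by omega
      rw [h6, h7] at h3
      simp at h3
  · show (N.subd p q hpq hf).ev (h v) (pt (some i)) ≠ 0 ↔ v ∈ carr N h i
    rw [h1]
    simp only [Option.elim_some, carr, Set.mem_ofPred_eq, h2]

open Classical in
theorem Hats2.lin {M : Mdl G} {h : M.V → G} (hh : Hats2 M h) (v : M.V) :
    M.Lin (h v) (fun i => if i = v then 1 else 0) := by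
  intro z hz
  rw [hh v z hz]
  simp

theorem Hats2.nonneg [IsOrderedAddMonoid G] {M : Mdl G} {h : M.V → G} (hh : Hats2 M h) (v : M.V) :
    0 ≤ h v := by
  rw [M.chart.nonneg_iff]
  intro z hz
  rw [hh v z hz]
  exact hz.1 v

theorem Hats2.carr {M : Mdl G} {h : M.V → G} (hh : Hats2 M h) : carr M h = fun v => {v} := by
  funext i
  ext v
  simp only [MP552024.carr, Set.mem_ofPred_eq, Set.mem_singleton_iff, hh v _ (Cx.pt_mem i)]
  constructor
  · intro h1
    by_contra h2
    exact h1 (pt_ne h2)
  · rintro rfl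
    rw [pt_self]
    exact one_ne_zero

end GR

theorem prfGR (hb : S_GB) (ha : S_GSa) (h2 : S_GSb) (hc : S_GSc) (hd : S_GSd) : S_GR := by
  intro G _ _ _ M h hh hdim N hN
  unfold Ref at hN
  induction hN with
  | refl =>
    rw [hh.carr]
    exact hb M.V M.Δ hdim
  | @tail N N' hr hs ih =>
    obtain ⟨p, q, hpq, hf, rfl⟩ := hs
    have hl : ∀ v, ∃ c, N.Lin (h v) c := fun v => Ref.lin hr (hh.lin v)
    choose c hl using hl
    have hc0 : ∀ v i, 0 ≤ c v i := fun v i => (hl v).nonneg (hh.nonneg v) i
    rw [carr_subd N h c hl hc0 p q hpq hf]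
    obtain ⟨a1, a2, a3, a4, a5⟩ := ha _ _ _ _ _ ih p q hpq hf
    obtain ⟨c1, c2, c3⟩ := hc _ _ _ _ _ ih p q hpq hf
    exact {
      kdim := ih.kdim
      ne := a1
      car := a2
      dim := a3
      one := a4
      flat := a5
      arc := h2 _ _ _ _ _ ih p q hpq hf
      int := c1
      bd := c2
      vtx := c3
      dual := hd _ _ _ _ _ ih p q hpq hf }

end Pool.Agent.MP552024
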