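import Pool.Agent.Work.MP_552024_lc.Two.StmtsB

/-!
Subdivision of labelled complexes: the arcs. MP_552024_lc, dimension at most three.
-/

set_option autoImplicit false

namespace Pool.Agent.MP552024

theorem gsb_ss {W : Type} (N : Cx W) (p q : W) (hpq : p ≠ q) (hf : N.face {p, q}) (x y : W) :
    (N.sub p q hpq hf).face {some x, some y} ↔
      N.face {x, y} ∧ ¬ ((x = p ∧ y = q) ∨ (x = q ∧ y = p)) := by
  have e1 : ({v | some v ∈ ({some x, some y} : Set (Option W))} ∪
      {v | none ∈ ({some x, some y} : Set (Option W)) ∧ (v = p ∨ v = q)}) = {x, y} := by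
    ext v
    simp
  have e2 : (N.sub p q hpq hf).face {some x, some y} ↔
      (¬ (some p ∈ ({some x, some y} : Set (Option W)) ∧ some q ∈ ({some x, some y} : Set (Option W))) ∧
      N.face ({v | some v ∈ ({some x, some y} : Set (Option W))} ∪
      {v | none ∈ ({some x, some y} : Set (Option W)) ∧ (v = p ∨ v = q)})) := Iff.rfl
  rw [e2, e1]
  constructor
  · rintro ⟨h1, h2⟩
    refine ⟨h2, ?_⟩
    rintro (⟨rfl, rfl⟩ | ⟨rfl, rfl⟩)
    · exact h1 ⟨by simp, by simp⟩
    · exact h1 ⟨by simp, by simp⟩
  · rintro ⟨h1, h2⟩
    refine ⟨?_, h1⟩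
    rintro ⟨h3, h4⟩
    simp only [Set.mem_insert_iff, Set.mem_singleton_iff, Option.some.injEq] at h3 h4
    apply h2
    rcases h3 with h3 | h3 <;> rcases h4 with h4 | h4
    · exact absurd (h3.trans h4.symm) hpq
    · exact Or.inl ⟨h3.symm, h4.symm⟩
    · exact Or.inr ⟨h4.symm, h3.symm⟩
    · exact absurd (h3.trans h4.symm) hpq

theorem gsb_ns {W : Type} (N : Cx W) (p q : W) (hpq : p ≠ q) (hf : N.face {p, q}) (x : W) :
    (N.sub p q hpq hf).face {none, some x} ↔ N.face {p, q, x} := by
  have e1 : ({v | some v ∈ ({none, some x} : Set (Option W))} ∪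
      {v | none ∈ ({none, some x} : Set (Option W)) ∧ (v = p ∨ v = q)}) = {p, q, x} := by
    ext v
    simp
    tauto
  have e2 : (N.sub p q hpq hf).face {none, some x} ↔
      (¬ (some p ∈ ({none, some x} : Set (Option W)) ∧ some q ∈ ({none, some x} : Set (Option W))) ∧
      N.face ({v | some v ∈ ({none, some x} : Set (Option W))} ∪
      {v | none ∈ ({none, some x} : Set (Option W)) ∧ (v = p ∨ v = q)})) := Iff.rfl
  rw [e2, e1]
  constructor
  · exact fun h => h.2
  · intro h
    refine ⟨?_, h⟩
    rintro ⟨h3, h4⟩
    simp only [Set.mem_insert_iff, Set.mem_singleton_iff, Option.some.injEq, reduceCtorEq,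
      false_or] at h3 h4
    exact hpq (h3.trans h4.symm)

/-- insertion of a vertex in a path -/
theorem gsb_ins {W : Type} (N : Cx W) (M : Cx (Option W)) (I : Set W) (I' : Set (Option W))
    (a b : W) (m : ℕ) (P : ℕ → W)
    (hinj : ∀ j k, j ≤ m → k ≤ m → P j = P k → j = k) (h0 : P 0 = a) (hm : P m = b)
    (hI : ∀ i, i ∈ I ↔ ∃ k, k ≤ m ∧ P k = i)
    (hF : ∀ j k, j ≤ m → k ≤ m → (N.face {P j, P k} ↔ j = k ∨ j = k + 1 ∨ k = j + 1))
    (j0 : ℕ) (hj0 : j0 + 1 ≤ m) (hI' : ∀ i, i ∈ I' ↔ i = none ∨ ∃ x ∈ I, some x = i)
    (hs : ∀ x y, x ∈ I → y ∈ I → (M.face {some x, some y} ↔ N.face {x, y} ∧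
      ¬ ((x = P j0 ∧ y = P (j0 + 1)) ∨ (x = P (j0 + 1) ∧ y = P j0))))
    (hn : ∀ x, x ∈ I → (M.face {none, some x} ↔ x = P j0 ∨ x = P (j0 + 1))) :
    IsArc M I' (some a) (some b) := by
  have hP : ∀ k, k ≤ m → P k ∈ I := fun k hk => (hI _).2 ⟨k, hk, rfl⟩
  set Q : ℕ → Option W := fun l => if l ≤ j0 then some (P l) else
    if l = j0 + 1 then none else some (P (l - 1)) with hQ
  have q1 : ∀ l, l ≤ j0 → Q l = some (P l) := fun l hl => by simp [hQ, hl]
  have q2 : Q (j0 + 1) = none := by simp [hQ]
  have q3 : ∀ l, j0 + 1 < l → Q l = some (P (l - 1)) := fun l hl => by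
    have h1 : ¬ l ≤ j0 := by omega
    have h2 : l ≠ j0 + 1 := by omega
    simp [hQ, h1, h2]
  have tri : ∀ l, l ≤ j0 ∨ l = j0 + 1 ∨ j0 + 1 < l := fun l => by omega
  refine ⟨m + 1, Q, ?_, ?_, ?_, ?_, ?_⟩
  · intro j k hj hk h
    rcases tri j with h1 | h1 | h1 <;> rcases tri k with h2 | h2 | h2
    · rw [q1 _ h1, q1 _ h2] at h
      exact hinj _ _ (by omega) (by omega) (Option.some.inj h)
    · rw [q1 _ h1, h2, q2] at h
      exact absurd h (by simp)
    · rw [q1 _ h1, q3 _ h2] at h
      have := hinj _ _ (by omega) (by omega) (Option.some.inj h)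
      omega
    · rw [q1 _ h2, h1, q2] at h
      exact absurd h (by simp)
    · omega
    · rw [q3 _ h2, h1, q2] at h
      exact absurd h (by simp)
    · rw [q3 _ h1, q1 _ h2] at h
      have := hinj _ _ (by omega) (by omega) (Option.some.inj h)
      omega
    · rw [q3 _ h1, h2, q2] at h
      exact absurd h (by simp)
    · rw [q3 _ h1, q3 _ h2] at h
      have := hinj _ _ (by omega) (by omega) (Option.some.inj h)
      omega
  · rw [q1 0 (Nat.zero_le _), h0]
  · rw [q3 (m + 1) (by omega)]
    simp [hm]
  · intro i
    rw [hI']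
    constructor
    · rintro (rfl | ⟨x, hx, rfl⟩)
      · exact ⟨j0 + 1, by omega, q2⟩
      · obtain ⟨k, hk, rfl⟩ := (hI _).1 hx
        by_cases h1 : k ≤ j0
        · exact ⟨k, by omega, q1 _ h1⟩
        · exact ⟨k + 1, by omega, by rw [q3 _ (by omega)]; simp⟩
    · rintro ⟨k, hk, rfl⟩
      rcases tri k with h1 | h1 | h1
      · right
        exact ⟨P k, hP _ (by omega), (q1 _ h1).symm⟩
      · left
        rw [h1, q2]
      · right
        exact ⟨P (k - 1), hP _ (by omega), (q3 _ h1).symm⟩
  · -- adjacency
    have sy : ∀ x y : Option W, M.face {x, y} ↔ M.face {y, x} := fun x y => by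
      rw [Set.pair_comm]
    have key : ∀ j k, j < k → k ≤ m + 1 → (M.face {Q j, Q k} ↔ k = j + 1) := by
      intro j k hjk hk
      rcases tri j with h1 | h1 | h1 <;> rcases tri k with h2 | h2 | h2
      · rw [q1 _ h1, q1 _ h2, hs _ _ (hP _ (by omega)) (hP _ (by omega)),
          hF _ _ (by omega) (by omega)]
        constructor
        · rintro ⟨h3, -⟩
          omega
        · intro h3
          refine ⟨by omega, ?_⟩
          rintro (⟨h4, h5⟩ | ⟨h4, h5⟩)
          · have := hinj _ _ (by omega) (by omega) h5
            omega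
          · have := hinj _ _ (by omega) (by omega) h4
            omega
      · rw [q1 _ h1, h2, q2, sy, hn _ (hP _ (by omega))]
        constructor
        · rintro (h3 | h3)
          · have := hinj _ _ (by omega) (by omega) h3
            omega
          · have := hinj _ _ (by omega) (by omega) h3
            omega
        · intro h3
          left
          have : j = j0 := by omega
          rw [this]
      · rw [q1 _ h1, q3 _ h2, hs _ _ (hP _ (by omega)) (hP _ (by omega)),
          hF _ _ (by omega) (by omega)]
        constructor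
        · rintro ⟨h3, h4⟩
          exfalso
          apply h4
          left
          have e1 : j = j0 := by omega
          have e2 : k - 1 = j0 + 1 := by omega
          rw [e1, e2]
          exact ⟨rfl, rfl⟩
        · intro h3
          omega
      · omega
      · omega
      · rw [h1, q2, q3 _ h2, hn _ (hP _ (by omega))]
        constructor
        · rintro (h3 | h3)
          · have := hinj _ _ (by omega) (by omega) h3
            omega
          · have := hinj _ _ (by omega) (by omega) h3
            omega
        · intro h3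
          right
          have : k - 1 = j0 + 1 := by omega
          rw [this]
      · omega
      · omega
      · rw [q3 _ h1, q3 _ h2, hs _ _ (hP _ (by omega)) (hP _ (by omega)),
          hF _ _ (by omega) (by omega)]
        constructor
        · rintro ⟨h3, -⟩
          omega
        · intro h3
          refine ⟨by omega, ?_⟩
          rintro (⟨h4, h5⟩ | ⟨h4, h5⟩)
          · have := hinj _ _ (by omega) (by omega) h4
            omega
          · have := hinj _ _ (by omega) (by omega) h5
            omega
    intro j k hj hk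
    rcases lt_trichotomy j k with h | h | h
    · rw [key _ _ h hk]
      omega
    · subst h
      simp only [true_or, iff_true, Set.pair_eq_singleton]
      exact M.vert _
    · rw [sy, key _ _ h hj]
      omega

theorem prfGSb : S_GSb := by
  intro V W K N S hG p q hpq hf u v a b huv hK ha hb
  -- the labels of a and b are singletons
  have sing : ∀ w, ¬ (S p ∪ S q = {w}) := by
    intro w h
    have h1 : S p = {w} := by
      refine (Set.subset_singleton_iff_eq.1 ((Set.subset_union_left).trans h.subset)).resolve_left ?_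
      exact (hG.ne p).ne_empty
    have h2 : S q = {w} := by
      refine (Set.subset_singleton_iff_eq.1 ((Set.subset_union_right).trans h.subset)).resolve_left ?_
      exact (hG.ne q).ne_empty
    exact hpq ((hG.one w).unique h1 h2)
  obtain ⟨a0, rfl⟩ : ∃ a0, a = some a0 := by
    cases a with
    | none => exact absurd ha (sing u)
    | some a0 => exact ⟨a0, rfl⟩
  obtain ⟨b0, rfl⟩ : ∃ b0, b = some b0 := by
    cases b with
    | none => exact absurd hb (sing v)
    | some b0 => exact ⟨b0, rfl⟩
  have ha' : S a0 = {u} := ha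
  have hb' : S b0 = {v} := hb
  obtain ⟨m, P, hinj, h0, hm, hI, hF⟩ := hG.arc u v a0 b0 huv hK ha' hb'
  have hP : ∀ k, k ≤ m → P k ∈ {i | S i ⊆ {u, v}} := fun k hk => (hI _).2 ⟨k, hk, rfl⟩
  by_cases hc : S p ∪ S q ⊆ {u, v}
  · have hp : p ∈ {i | S i ⊆ {u, v}} := Set.subset_union_left.trans hc
    have hq : q ∈ {i | S i ⊆ {u, v}} := Set.subset_union_right.trans hc
    obtain ⟨j, hj, rfl⟩ := (hI _).1 hp
    obtain ⟨k, hk, rfl⟩ := (hI _).1 hq
    have hI' : ∀ i, i ∈ {i | subS S (P j) (P k) i ⊆ {u, v}} ↔
        i = none ∨ ∃ x ∈ {i | S i ⊆ {u, v}}, some x = i := by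
      intro i
      cases i with
      | none => simpa [subS] using hc
      | some x => simp [subS]
    have hnn : ∀ x, x ∈ {i | S i ⊆ {u, v}} →
        ((N.sub (P j) (P k) hpq hf).face {none, some x} ↔ x = P j ∨ x = P k) := by
      intro x hx
      rw [gsb_ns]
      constructor
      · intro h
        by_contra hcon
        push Not at hcon
        exact hG.flat _ _ _ hpq (Ne.symm hcon.1) (Ne.symm hcon.2) h u v
          (Set.union_subset hc hx)
      · rintro (rfl | rfl)
        · refine N.down _ _ ?_ hf
          intro y hy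
          simp only [Set.mem_insert_iff, Set.mem_singleton_iff] at hy ⊢
          tauto
        · refine N.down _ _ ?_ hf
          intro y hy
          simp only [Set.mem_insert_iff, Set.mem_singleton_iff] at hy ⊢
          tauto
    have hjk := (hF j k hj hk).1 hf
    rcases hjk with h | h | h
    · exact absurd (by rw [h]) hpq
    · subst h
      refine gsb_ins N _ {i | S i ⊆ {u, v}} _ a0 b0 m P hinj h0 hm hI hF k hj hI' ?_ ?_
      · intro x y hx hy
        rw [gsb_ss]
        tauto
      · intro x hx
        rw [hnn x hx]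
        tauto
    · subst h
      refine gsb_ins N _ {i | S i ⊆ {u, v}} _ a0 b0 m P hinj h0 hm hI hF j hk hI' ?_ ?_
      · intro x y hx hy
        rw [gsb_ss]
      · intro x hx
        rw [hnn x hx]
  · refine ⟨m, fun k => some (P k), ?_, ?_, ?_, ?_, ?_⟩
    · intro j k hj hk h
      exact hinj j k hj hk (Option.some.inj h)
    · show some (P 0) = some a0
      rw [h0]
    · show some (P m) = some b0
      rw [hm]
    · intro i
      cases i with
      | none => simpa [subS] using hc
      | some x =>
        have := hI x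
        simpa [subS] using this
    · intro j k hj hk
      rw [gsb_ss, hF j k hj hk]
      constructor
      · exact fun h => h.1
      · intro h
        refine ⟨h, ?_⟩
        rintro (⟨h1, h2⟩ | ⟨h1, h2⟩)
        · apply hc
          rw [← h1, ← h2]
          exact Set.union_subset (hP _ hj) (hP _ hk)
        · apply hc
          rw [← h1, ← h2]
          exact Set.union_subset (hP _ hk) (hP _ hj)

end Pool.Agent.MP552024
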