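import Pool.Agent.Work.MP_552024_lc.Two.StmtsB

/-!
S_GSc: edges inside regions after an elementary subdivision. MP_552024_lc, dimension at most three.
-/

set_option autoImplicit false

namespace Pool.Agent.MP552024

namespace GScAux

variable {V W : Type} {N : Cx W} {S : W → Set V} {p q : W} {hpq : p ≠ q} {hf : N.face {p, q}}

theorem f2ss (a b : W) : (N.sub p q hpq hf).face {some a, some b} ↔
    ¬ ((p = a ∨ p = b) ∧ (q = a ∨ q = b)) ∧ N.face {a, b} := by
  show (¬ (some p ∈ ({some a, some b} : Set (Option W)) ∧ some q ∈ ({some a, some b} : Set (Option W)))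
    ∧ N.face ({v | some v ∈ ({some a, some b} : Set (Option W))} ∪
      {v | none ∈ ({some a, some b} : Set (Option W)) ∧ (v = p ∨ v = q)})) ↔ _
  have h : ({v | some v ∈ ({some a, some b} : Set (Option W))} ∪
      {v | none ∈ ({some a, some b} : Set (Option W)) ∧ (v = p ∨ v = q)}) = {a, b} := by
    ext v; simp
  rw [h]
  simp

theorem f2ns (a : W) : (N.sub p q hpq hf).face {none, some a} ↔ N.face {a, p, q} := by
  show (¬ (some p ∈ ({none, some a} : Set (Option W)) ∧ some q ∈ ({none, some a} : Set (Option W)))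
    ∧ N.face ({v | some v ∈ ({none, some a} : Set (Option W))} ∪
      {v | none ∈ ({none, some a} : Set (Option W)) ∧ (v = p ∨ v = q)})) ↔ _
  have h : ({v | some v ∈ ({none, some a} : Set (Option W))} ∪
      {v | none ∈ ({none, some a} : Set (Option W)) ∧ (v = p ∨ v = q)}) = {a, p, q} := by
    ext v; simp
  rw [h]
  have h2 : ¬ (some p ∈ ({none, some a} : Set (Option W)) ∧
      some q ∈ ({none, some a} : Set (Option W))) := by
    simp only [Set.mem_insert_iff, Set.mem_singleton_iff, reduceCtorEq, false_or,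
      Option.some.injEq]
    rintro ⟨rfl, h⟩
    exact hpq h.symm
  exact ⟨fun h => h.2, fun h => ⟨h2, h⟩⟩

theorem f3sss (a b c : W) : (N.sub p q hpq hf).face {some a, some b, some c} ↔
    ¬ ((p = a ∨ p = b ∨ p = c) ∧ (q = a ∨ q = b ∨ q = c)) ∧ N.face {a, b, c} := by
  show (¬ (some p ∈ ({some a, some b, some c} : Set (Option W)) ∧
      some q ∈ ({some a, some b, some c} : Set (Option W)))
    ∧ N.face ({v | some v ∈ ({some a, some b, some c} : Set (Option W))} ∪
      {v | none ∈ ({some a, some b, some c} : Set (Option W)) ∧ (v = p ∨ v = q)})) ↔ _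
  have h : ({v | some v ∈ ({some a, some b, some c} : Set (Option W))} ∪
      {v | none ∈ ({some a, some b, some c} : Set (Option W)) ∧ (v = p ∨ v = q)}) = {a, b, c} := by
    ext v; simp
  rw [h]
  simp

theorem f3nss (a b : W) : (N.sub p q hpq hf).face {none, some a, some b} ↔
    ¬ ((p = a ∨ p = b) ∧ (q = a ∨ q = b)) ∧ N.face {a, b, p, q} := by
  show (¬ (some p ∈ ({none, some a, some b} : Set (Option W)) ∧
      some q ∈ ({none, some a, some b} : Set (Option W)))
    ∧ N.face ({v | some v ∈ ({none, some a, some b} : Set (Option W))} ∪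
      {v | none ∈ ({none, some a, some b} : Set (Option W)) ∧ (v = p ∨ v = q)})) ↔ _
  have h : ({v | some v ∈ ({none, some a, some b} : Set (Option W))} ∪
      {v | none ∈ ({none, some a, some b} : Set (Option W)) ∧ (v = p ∨ v = q)}) =
      {a, b, p, q} := by
    ext v; simp; tauto
  rw [h]
  simp

/-- Edges between two old vertices: the third vertices of the triangles. -/
theorem edgeA (hd : N.Dim2) {a b : W} (hab : a ≠ b)
    (he : (N.sub p q hpq hf).face {some a, some b}) :
    ∃ φ : W → Option W, (∀ m, m ≠ a → m ≠ b → φ m ≠ some a ∧ φ m ≠ some b) ∧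
      (∀ m m', m ≠ a → m ≠ b → m' ≠ a → m' ≠ b → φ m = φ m' → m = m') ∧
      (∀ o, o ≠ some a → o ≠ some b → ((N.sub p q hpq hf).face {some a, some b, o} ↔
        ∃ m, m ≠ a ∧ m ≠ b ∧ N.face {a, b, m} ∧ φ m = o)) ∧
      ∀ m, m ≠ a → m ≠ b → N.face {a, b, m} →
        subS S p q (some a) ∪ subS S p q (some b) ∪ subS S p q (φ m) = S a ∪ S b ∪ S m := by
  classical
  rw [f2ss] at he
  obtain ⟨h1, h2⟩ := he
  have hn : ({some a, some b, none} : Set (Option W)) = {none, some a, some b} := by
    ext v; simp; tauto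
  -- the special third vertex
  by_cases hr : ∃ r, r ≠ a ∧ r ≠ b ∧ (∀ m, ((p = a ∨ p = b ∨ p = m) ∧ (q = a ∨ q = b ∨ q = m)) ↔
      m = r) ∧ ({a, b, p, q} : Set W) = {a, b, r} ∧ S p ∪ S q ∪ (S a ∪ S b) = S a ∪ S b ∪ S r
  · obtain ⟨r, hra, hrb, hbad, hset, hS⟩ := hr
    refine ⟨fun m => if m = r then none else some m, ?_, ?_, ?_, ?_⟩
    · intro m hma hmb
      by_cases h : m = r
      · simp [h]
      · simp [h, hma, hmb]
    · intro m m' _ _ _ _ h
      by_cases h3 : m = r <;> by_cases h4 : m' = r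
      · rw [h3, h4]
      · simp [h3, h4] at h
      · simp [h3, h4] at h
      · simpa [h3, h4] using h
    · intro o hoa hob
      rcases o with _ | m
      · rw [hn, f3nss, hset]
        constructor
        · rintro ⟨-, h⟩
          exact ⟨r, hra, hrb, h, by simp⟩
        · rintro ⟨m, hma, hmb, hm, h⟩
          by_cases h3 : m = r
          · subst h3
            exact ⟨h1, hm⟩
          · simp [h3] at h
      · have hma : m ≠ a := fun h => hoa (by rw [h])
        have hmb : m ≠ b := fun h => hob (by rw [h])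
        rw [f3sss, hbad]
        constructor
        · rintro ⟨h3, h4⟩
          exact ⟨m, hma, hmb, h4, by simp [h3]⟩
        · rintro ⟨m', hma', hmb', hm, h⟩
          by_cases h3 : m' = r
          · simp [h3] at h
          · simp only [h3, if_false, Option.some.injEq] at h
            subst h
            exact ⟨h3, hm⟩
    · intro m _ _ _
      by_cases h : m = r
      · subst h
        simp only [if_true]
        show S a ∪ S b ∪ (S p ∪ S q) = _
        rw [← hS, Set.union_comm]
      · simp only [h, if_false]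
        rfl
  · -- no special vertex
    have hbad : ∀ m, ¬ ((p = a ∨ p = b ∨ p = m) ∧ (q = a ∨ q = b ∨ q = m)) := by
      rintro m ⟨h3, h4⟩
      apply hr
      by_cases h5 : p = a ∨ p = b
      · have h6 : ¬ (q = a ∨ q = b) := fun h => h1 ⟨h5, h⟩
        push Not at h6
        refine ⟨q, h6.1, h6.2, fun m' => ⟨?_, ?_⟩, ?_, ?_⟩
        · rintro ⟨-, h7 | h7 | h7⟩
          · exact absurd h7 h6.1
          · exact absurd h7 h6.2
          · exact h7.symm
        · rintro rfl
          exact ⟨h5.elim Or.inl (fun h => Or.inr (Or.inl h)), Or.inr (Or.inr rfl)⟩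
        · rcases h5 with rfl | rfl <;> (ext v; simp <;> tauto)
        · rcases h5 with rfl | rfl <;> (ext v; simp; tauto)
      · push Not at h5
        have h6 : p = m := by
          rcases h3 with h | h | h
          · exact absurd h h5.1
          · exact absurd h h5.2
          · exact h
        have h7 : q = a ∨ q = b := by
          rcases h4 with h | h | h
          · exact Or.inl h
          · exact Or.inr h
          · exact absurd (h6.trans h.symm) hpq
        refine ⟨p, h5.1, h5.2, fun m' => ⟨?_, ?_⟩, ?_, ?_⟩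
        · rintro ⟨h8 | h8 | h8, -⟩
          · exact absurd h8 h5.1
          · exact absurd h8 h5.2
          · exact h8.symm
        · rintro rfl
          exact ⟨Or.inr (Or.inr rfl), h7.elim Or.inl (fun h => Or.inr (Or.inl h))⟩
        · rcases h7 with rfl | rfl <;> (ext v; simp; tauto)
        · rcases h7 with rfl | rfl <;> (ext v; simp; tauto)
    have hpa : p ≠ a ∧ p ≠ b := by
      constructor
      · intro h
        exact hbad q ⟨Or.inl h, Or.inr (Or.inr rfl)⟩
      · intro h
        exact hbad q ⟨Or.inr (Or.inl h), Or.inr (Or.inr rfl)⟩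
    have hqa : q ≠ a ∧ q ≠ b := by
      constructor
      · intro h
        exact hbad p ⟨Or.inr (Or.inr rfl), Or.inl h⟩
      · intro h
        exact hbad p ⟨Or.inr (Or.inr rfl), Or.inr (Or.inl h)⟩
    refine ⟨some, ?_, ?_, ?_, ?_⟩
    · intro m hma hmb
      exact ⟨fun h => hma (Option.some.inj h), fun h => hmb (Option.some.inj h)⟩
    · intro m m' _ _ _ _ h
      exact Option.some.inj h
    · intro o hoa hob
      rcases o with _ | m
      · rw [hn, f3nss]
        constructor
        · rintro ⟨-, h⟩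
          exact absurd h (hd a b p q hab hpa.1.symm hqa.1.symm hpa.2.symm hqa.2.symm hpq)
        · rintro ⟨m, -, -, -, h⟩
          simp at h
      · have hma : m ≠ a := fun h => hoa (by rw [h])
        have hmb : m ≠ b := fun h => hob (by rw [h])
        rw [f3sss]
        constructor
        · rintro ⟨-, h4⟩
          exact ⟨m, hma, hmb, h4, rfl⟩
        · rintro ⟨m', -, -, hm, h⟩
          obtain rfl := Option.some.inj h
          exact ⟨hbad _, hm⟩
    · intro m _ _ _
      rfl

/-- Edges from the new vertex to an end of the subdivided edge. -/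
theorem edgeB {x : W} (hx : x = p ∨ x = q) (m : W) (hm : m ≠ x) :
    (N.sub p q hpq hf).face {none, some x, some m} ↔ m ≠ p ∧ m ≠ q ∧ N.face {p, q, m} := by
  rw [f3nss]
  rcases hx with rfl | rfl
  · have hs : ({x, m, x, q} : Set W) = {x, q, m} := by ext v; simp; tauto
    rw [hs]
    constructor
    · rintro ⟨h1, h2⟩
      exact ⟨hm, fun h => h1 ⟨Or.inl rfl, Or.inr h.symm⟩, h2⟩
    · rintro ⟨h1, h2, h3⟩
      refine ⟨?_, h3⟩
      rintro ⟨-, h4 | h4⟩
      · exact hpq h4.symm
      · exact h2 h4.symm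
  · have hs : ({x, m, p, x} : Set W) = {p, x, m} := by ext v; simp; tauto
    rw [hs]
    constructor
    · rintro ⟨h1, h2⟩
      exact ⟨fun h => h1 ⟨Or.inr h.symm, Or.inl rfl⟩, hm, h2⟩
    · rintro ⟨h1, h2, h3⟩
      refine ⟨?_, h3⟩
      rintro ⟨h4 | h4, -⟩
      · exact hpq h4
      · exact h1 h4.symm

/-- Edges from the new vertex to the third vertex of an old triangle. -/
theorem edgeC (hd : N.Dim2) {x : W} (hxp : x ≠ p) (hxq : x ≠ q) (hx : N.face {x, p, q}) (m : W)
    (hm : m ≠ x) : (N.sub p q hpq hf).face {none, some x, some m} ↔ m = p ∨ m = q := by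
  rw [f3nss]
  constructor
  · rintro ⟨-, h⟩
    by_contra hc
    push Not at hc
    exact hd x m p q hm.symm hxp hxq hc.1 hc.2 hpq h
  · rintro (rfl | rfl)
    · refine ⟨?_, ?_⟩
      · rintro ⟨-, h | h⟩
        · exact hxq h.symm
        · exact hpq h.symm
      · have hs : ({x, m, m, q} : Set W) = {x, m, q} := by ext v; simp
        rw [hs]; exact hx
    · refine ⟨?_, ?_⟩
      · rintro ⟨h | h, -⟩
        · exact hxp h.symm
        · exact hpq h
      · have hs : ({x, m, p, m} : Set W) = {x, p, m} := by ext v; simp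
        rw [hs]; exact hx

theorem proper_sub {σ A : Set V} (hσ : IsTri σ) (h1 : A ⊆ σ) (h2 : A ≠ σ) :
    ∃ u v, A ⊆ {u, v} := by
  obtain ⟨u, v, w, -, -, -, rfl⟩ := hσ
  have h3 : ¬ ({u, v, w} : Set V) ⊆ A := fun h => h2 (Set.Subset.antisymm h1 h)
  rw [Set.not_subset] at h3
  obtain ⟨y, hy, hyA⟩ := h3
  simp only [Set.mem_insert_iff, Set.mem_singleton_iff] at hy
  rcases hy with rfl | rfl | rfl
  · refine ⟨v, w, fun z hz => ?_⟩
    have := h1 hz
    simp only [Set.mem_insert_iff, Set.mem_singleton_iff] at this ⊢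
    rcases this with rfl | h | h
    · exact absurd hz hyA
    · exact Or.inl h
    · exact Or.inr h
  · refine ⟨u, w, fun z hz => ?_⟩
    have := h1 hz
    simp only [Set.mem_insert_iff, Set.mem_singleton_iff] at this ⊢
    rcases this with h | rfl | h
    · exact Or.inl h
    · exact absurd hz hyA
    · exact Or.inr h
  · refine ⟨u, v, fun z hz => ?_⟩
    have := h1 hz
    simp only [Set.mem_insert_iff, Set.mem_singleton_iff] at this ⊢
    rcases this with h | h | rfl
    · exact Or.inl h
    · exact Or.inr h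
    · exact absurd hz hyA

/-- The statement about interior edges. -/
def PInt (M : Cx (Option W)) (i j : Option W) : Prop :=
  ∃ k l, k ≠ l ∧ k ≠ i ∧ k ≠ j ∧ l ≠ i ∧ l ≠ j ∧
    ∀ m, m ≠ i → m ≠ j → (M.face {i, j, m} ↔ m = k ∨ m = l)

/-- The statement about boundary edges. -/
def PBd (M : Cx (Option W)) (R : Option W → Set V) (σ : Set V) (i j : Option W) : Prop :=
  ∃ k, k ≠ i ∧ k ≠ j ∧ ∀ m, m ≠ i → m ≠ j →
    ((M.face {i, j, m} ∧ R i ∪ R j ∪ R m = σ) ↔ m = k)

theorem PInt.symm {M : Cx (Option W)} {i j : Option W} (h : PInt M i j) : PInt M j i := by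
  obtain ⟨k, l, h1, h2, h3, h4, h5, h6⟩ := h
  refine ⟨k, l, h1, h3, h2, h5, h4, fun m hm1 hm2 => ?_⟩
  rw [Set.insert_comm]
  exact h6 m hm2 hm1

theorem PBd.symm {M : Cx (Option W)} {R : Option W → Set V} {σ : Set V} {i j : Option W}
    (h : PBd M R σ i j) : PBd M R σ j i := by
  obtain ⟨k, h1, h2, h3⟩ := h
  refine ⟨k, h2, h1, fun m hm1 hm2 => ?_⟩
  rw [Set.insert_comm, Set.union_comm (R j) (R i)]
  exact h3 m hm2 hm1

variable {K : Cx V}

theorem intA (hG : Good K N S) {σ : Set V} (h1 : K.face σ) (h2 : IsTri σ) {a b : W} (hab : a ≠ b)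
    (he : (N.sub p q hpq hf).face {some a, some b}) (hS : S a ∪ S b = σ) :
    PInt (N.sub p q hpq hf) (some a) (some b) := by
  obtain ⟨φ, hφ1, hφ2, hφ3, -⟩ := edgeA (S := S) hG.dim hab he
  obtain ⟨k, l, hkl, hka, hkb, hla, hlb, h⟩ := hG.int σ h1 h2 a b hab ((f2ss a b).1 he).2 hS
  refine ⟨φ k, φ l, fun h' => hkl (hφ2 k l hka hkb hla hlb h'), (hφ1 k hka hkb).1,
    (hφ1 k hka hkb).2, (hφ1 l hla hlb).1, (hφ1 l hla hlb).2, fun o hoa hob => ?_⟩
  rw [hφ3 o hoa hob]
  constructor
  · rintro ⟨m, hma, hmb, hm, rfl⟩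
    rcases (h m hma hmb).1 hm with rfl | rfl
    · exact Or.inl rfl
    · exact Or.inr rfl
  · rintro (rfl | rfl)
    · exact ⟨k, hka, hkb, (h k hka hkb).2 (Or.inl rfl), rfl⟩
    · exact ⟨l, hla, hlb, (h l hla hlb).2 (Or.inr rfl), rfl⟩

theorem bdA (hG : Good K N S) {σ : Set V} (h1 : K.face σ) (h2 : IsTri σ) {a b : W} (hab : a ≠ b)
    (he : (N.sub p q hpq hf).face {some a, some b}) (hS : S a ∪ S b ⊆ σ) (hS' : S a ∪ S b ≠ σ) :
    PBd (N.sub p q hpq hf) (subS S p q) σ (some a) (some b) := by
  obtain ⟨φ, hφ1, hφ2, hφ3, hφ4⟩ := edgeA (S := S) hG.dim hab he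
  obtain ⟨k, hka, hkb, h⟩ := hG.bd σ h1 h2 a b hab ((f2ss a b).1 he).2 hS hS'
  refine ⟨φ k, (hφ1 k hka hkb).1, (hφ1 k hka hkb).2, fun o hoa hob => ?_⟩
  rw [hφ3 o hoa hob]
  constructor
  · rintro ⟨⟨m, hma, hmb, hm, rfl⟩, h3⟩
    rw [hφ4 m hma hmb hm] at h3
    rw [(h m hma hmb).1 ⟨hm, h3⟩]
  · rintro rfl
    obtain ⟨h3, h4⟩ := (h k hka hkb).2 rfl
    exact ⟨⟨k, hka, hkb, h3, rfl⟩, by rw [hφ4 k hka hkb h3, h4]⟩

theorem intN (hG : Good K N S) {σ : Set V} (h1 : K.face σ) (h2 : IsTri σ) {x : W}
    (he : (N.sub p q hpq hf).face {none, some x}) (hS : S p ∪ S q ∪ S x = σ) :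
    PInt (N.sub p q hpq hf) none (some x) := by
  rw [f2ns] at he
  by_cases hx : x = p ∨ x = q
  · have hS2 : S p ∪ S q = σ := by
      rw [← hS]
      rcases hx with rfl | rfl
      · ext v; simp; tauto
      · ext v; simp
    obtain ⟨k, l, hkl, hka, hkb, hla, hlb, h⟩ := hG.int σ h1 h2 p q hpq hf hS2
    have hkx : k ≠ x := by rcases hx with rfl | rfl <;> assumption
    have hlx : l ≠ x := by rcases hx with rfl | rfl <;> assumption
    refine ⟨some k, some l, fun h' => hkl (Option.some.inj h'), by simp,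
      fun h' => hkx (Option.some.inj h'), by simp, fun h' => hlx (Option.some.inj h'), ?_⟩
    intro o hoa hob
    rcases o with _ | m
    · exact absurd rfl hoa
    · have hmx : m ≠ x := fun h' => hob (by rw [h'])
      rw [edgeB hx m hmx]
      simp only [Option.some.injEq]
      constructor
      · rintro ⟨h3, h4, h5⟩
        exact (h m h3 h4).1 h5
      · intro h3
        have h4 : m ≠ p := by rcases h3 with rfl | rfl <;> assumption
        have h5 : m ≠ q := by rcases h3 with rfl | rfl <;> assumption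
        exact ⟨h4, h5, (h m h4 h5).2 h3⟩
  · push Not at hx
    refine ⟨some p, some q, fun h' => hpq (Option.some.inj h'), by simp,
      fun h' => hx.1 (Option.some.inj h').symm, by simp,
      fun h' => hx.2 (Option.some.inj h').symm, ?_⟩
    intro o hoa hob
    rcases o with _ | m
    · exact absurd rfl hoa
    · have hmx : m ≠ x := fun h' => hob (by rw [h'])
      rw [edgeC hG.dim hx.1 hx.2 he m hmx]
      simp only [Option.some.injEq]

theorem bdN (hG : Good K N S) {σ : Set V} (h1 : K.face σ) (h2 : IsTri σ) {x : W}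
    (he : (N.sub p q hpq hf).face {none, some x}) (hS : S p ∪ S q ∪ S x ⊆ σ)
    (hS' : S p ∪ S q ∪ S x ≠ σ) :
    PBd (N.sub p q hpq hf) (subS S p q) σ none (some x) := by
  rw [f2ns] at he
  by_cases hx : x = p ∨ x = q
  · have hS2 : S p ∪ S q ∪ S x = S p ∪ S q := by
      rcases hx with rfl | rfl
      · ext v; simp; tauto
      · ext v; simp
    have hS3 : subS S p q none ∪ subS S p q (some x) = S p ∪ S q := hS2
    rw [hS2] at hS hS'
    obtain ⟨k, hka, hkb, h⟩ := hG.bd σ h1 h2 p q hpq hf hS hS'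
    have hkx : k ≠ x := by rcases hx with rfl | rfl <;> assumption
    refine ⟨some k, by simp, fun h' => hkx (Option.some.inj h'), ?_⟩
    intro o hoa hob
    rcases o with _ | m
    · exact absurd rfl hoa
    · have hmx : m ≠ x := fun h' => hob (by rw [h'])
      rw [edgeB hx m hmx, hS3]
      simp only [Option.some.injEq]
      constructor
      · rintro ⟨⟨h3, h4, h5⟩, h6⟩
        exact (h m h3 h4).1 ⟨h5, h6⟩
      · rintro rfl
        obtain ⟨h5, h6⟩ := (h m hka hkb).2 rfl
        exact ⟨⟨hka, hkb, h5⟩, h6⟩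
  · push Not at hx
    obtain ⟨u, v, huv⟩ := proper_sub h2 hS hS'
    have := hG.flat x p q hx.1 hx.2 hpq he u v
    refine absurd (fun z hz => huv ?_) this
    rcases hz with (hz | hz) | hz
    · exact Or.inr hz
    · exact Or.inl (Or.inl hz)
    · exact Or.inl (Or.inr hz)

end GScAux

open GScAux in
theorem prfGSc : S_GSc := by
  intro V W K N S hG p q hpq hf
  refine ⟨?_, ?_, ?_⟩
  · intro σ h1 h2 i j hij he hS
    show PInt (N.sub p q hpq hf) i j
    rcases i with _ | a <;> rcases j with _ | b
    · exact absurd rfl hij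
    · exact intN hG h1 h2 he hS
    · rw [Set.pair_comm] at he
      rw [Set.union_comm] at hS
      exact (intN hG h1 h2 he hS).symm
    · exact intA hG h1 h2 (fun h => hij (by rw [h])) he hS
  · intro σ h1 h2 i j hij he hS hS'
    show PBd (N.sub p q hpq hf) (subS S p q) σ i j
    rcases i with _ | a <;> rcases j with _ | b
    · exact absurd rfl hij
    · exact bdN hG h1 h2 he hS hS'
    · rw [Set.pair_comm] at he
      rw [Set.union_comm] at hS hS'
      exact (bdN hG h1 h2 he hS hS').symm
    · exact bdA hG h1 h2 (fun h => hij (by rw [h])) he hS hS'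
  · intro i σ hS h2
    rcases i with _ | a
    · refine ⟨some p, by simp, ?_⟩
      rw [f2ns]
      have hs : ({p, p, q} : Set W) = {p, q} := by simp
      rw [hs]; exact hf
    · obtain ⟨j, hja, hj⟩ := hG.vtx a σ hS h2
      by_cases h : (p = a ∨ p = j) ∧ (q = a ∨ q = j)
      · refine ⟨none, by simp, ?_⟩
        rw [Set.pair_comm, f2ns]
        have hs : ({a, p, q} : Set W) = {p, q} := by
          obtain ⟨h3 | h3, h4 | h4⟩ := h
          · exact absurd (h3.trans h4.symm) hpq
          · subst h3; simp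
          · subst h4; ext v; simp
          · exact absurd (h3.trans h4.symm) hpq
        rw [hs]; exact hf
      · refine ⟨some j, fun h' => hja (Option.some.inj h'), ?_⟩
        rw [f2ss]
        exact ⟨h, hj⟩

end Pool.Agent.MP552024
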