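import Pool.Agent.Work.MP_552024_lc.Two.StmtsB

/-!
GSd: elementary subdivisions of good labelled complexes, duality. MP_552024_lc (helper50).
-/

set_option autoImplicit false

namespace Pool.Agent.MP552024

namespace GSd

variable {V W : Type} {K : Cx V} {N : Cx W} {S : W → Set V} {p q : W} {hpq : p ≠ q}
  {hf : N.face {p, q}}

/-- the parent of a set of vertices of the subdivision -/
def Par (p q : W) (s : Set (Option W)) : Set W :=
  {v | some v ∈ s} ∪ {v | none ∈ s ∧ (v = p ∨ v = q)}

theorem uni_par (s : Set (Option W)) : uni S (Par p q s) = uni (subS S p q) s := by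
  ext x
  simp only [uni, Set.mem_iUnion]
  constructor
  · rintro ⟨i, hi | hi, hx⟩
    · exact ⟨some i, hi, hx⟩
    · refine ⟨none, hi.1, ?_⟩
      rcases hi.2 with rfl | rfl
      · exact Or.inl hx
      · exact Or.inr hx
  · rintro ⟨i, hi, hx⟩
    rcases i with _ | i
    · rcases hx with hx | hx
      · exact ⟨p, Or.inr ⟨hi, Or.inl rfl⟩, hx⟩
      · exact ⟨q, Or.inr ⟨hi, Or.inr rfl⟩, hx⟩
    · exact ⟨i, Or.inl hi, hx⟩

theorem par_none {s : Set (Option W)} (h : none ∉ s) {v : W} : v ∈ Par p q s ↔ some v ∈ s := by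
  constructor
  · rintro (hv | hv)
    · exact hv
    · exact absurd hv.1 h
  · exact fun hv => Or.inl hv

theorem par_p (x : W) : Par p q {none, some p, some x} = {p, q, x} := by
  ext v
  simp only [Par, Set.mem_union, Set.mem_ofPred_eq, Set.mem_insert_iff, Set.mem_singleton_iff,
    Option.some.injEq, reduceCtorEq, false_or, true_or, true_and]
  tauto

theorem par_q (x : W) : Par p q {none, some q, some x} = {p, q, x} := by
  ext v
  simp only [Par, Set.mem_union, Set.mem_ofPred_eq, Set.mem_insert_iff, Set.mem_singleton_iff,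
    Option.some.injEq, reduceCtorEq, false_or, true_or, true_and]
  tauto

theorem shape_none (hN : N.Dim2) {a b : W} (hab : a ≠ b)
    (h : (N.sub p q hpq hf).face {none, some a, some b}) :
    ∃ x, x ≠ p ∧ x ≠ q ∧ (({none, some a, some b} : Set (Option W)) = {none, some p, some x} ∨
      ({none, some a, some b} : Set (Option W)) = {none, some q, some x}) := by
  have hnb : ¬ (some p ∈ ({none, some a, some b} : Set (Option W)) ∧
    some q ∈ ({none, some a, some b} : Set (Option W))) := h.1
  by_cases h1 : a = p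
  · subst h1
    refine ⟨b, hab.symm, ?_, Or.inl rfl⟩
    rintro rfl
    exact hnb ⟨by simp, by simp⟩
  by_cases h2 : a = q
  · subst h2
    refine ⟨b, ?_, hab.symm, Or.inr rfl⟩
    rintro rfl
    exact hnb ⟨by simp, by simp⟩
  by_cases h3 : b = p
  · subst h3
    refine ⟨a, h1, h2, Or.inl ?_⟩
    rw [Set.pair_comm]
  by_cases h4 : b = q
  · subst h4
    refine ⟨a, h1, h2, Or.inr ?_⟩
    rw [Set.pair_comm]
  exfalso
  refine hN a b p q hab h1 h2 h3 h4 hpq (N.down _ _ ?_ h.2)
  rintro v (rfl | rfl | rfl | rfl)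
  · exact Or.inl (by simp)
  · exact Or.inl (by simp)
  · exact Or.inr ⟨by simp, Or.inl rfl⟩
  · exact Or.inr ⟨by simp, Or.inr rfl⟩

theorem shape (hN : N.Dim2) {s : Set (Option W)} (ht : IsTri s)
    (h : (N.sub p q hpq hf).face s) :
    none ∉ s ∨ ∃ x, x ≠ p ∧ x ≠ q ∧ (s = {none, some p, some x} ∨ s = {none, some q, some x}) := by
  obtain ⟨u, v, w, huv, huw, hvw, rfl⟩ := ht
  rcases u with _ | u <;> rcases v with _ | v <;> rcases w with _ | w <;>
    simp only [ne_eq, not_true_eq_false, Option.some.injEq] at huv huw hvw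
  · exact Or.inr (shape_none hN hvw h)
  · right
    have e : ({some u, none, some w} : Set (Option W)) = {none, some u, some w} :=
      Set.insert_comm _ _ _
    rw [e] at h ⊢
    exact shape_none hN huw h
  · right
    have e : ({some u, some v, none} : Set (Option W)) = {none, some u, some v} := by
      ext o
      simp only [Set.mem_insert_iff, Set.mem_singleton_iff]
      tauto
    rw [e] at h ⊢
    exact shape_none hN huv h
  · left
    simp

theorem isTri3 {X : Type} {a b c : X} (h1 : a ≠ b) (h2 : a ≠ c) (h3 : b ≠ c) :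
    IsTri ({a, b, c} : Set X) := ⟨a, b, c, h1, h2, h3, rfl⟩

/-- the parent of a triangle is a triangle with the same label -/
theorem par_T3 (hN : N.Dim2) {σ : Set V} {s : Set (Option W)}
    (hs : T3 (N.sub p q hpq hf) (subS S p q) σ s) : T3 N S σ (Par p q s) := by
  obtain ⟨ht, hF, hl⟩ := hs
  refine ⟨?_, hF.2, by rw [uni_par]; exact hl⟩
  rcases shape hN ht hF with hn | ⟨x, hxp, hxq, rfl | rfl⟩
  · obtain ⟨u, v, w, huv, huw, hvw, rfl⟩ := ht
    rcases u with _ | u
    · simp at hn
    rcases v with _ | v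
    · simp at hn
    rcases w with _ | w
    · simp at hn
    refine ⟨u, v, w, fun h => huv (by rw [h]), fun h => huw (by rw [h]), fun h => hvw (by rw [h]), ?_⟩
    ext z
    rw [par_none hn]
    simp
  · rw [par_p]
    exact isTri3 hpq hxp.symm hxq.symm
  · rw [par_q]
    exact isTri3 hpq hxp.symm hxq.symm

/-- closed under adjacency -/
def Closed (N : Cx W) (S : W → Set V) (σ : Set V) (A : Set (Set W)) : Prop :=
  ∀ t ∈ A, ∀ t', T3 N S σ t' → (∃ i j, i ≠ j ∧ i ∈ t ∧ j ∈ t ∧ i ∈ t' ∧ j ∈ t' ∧ S i ∪ S j = σ) →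
    t' ∈ A

theorem lab3 {σ : Set V} {x : W} (h : uni S {p, q, x} = σ) :
    subS S p q none ∪ subS S p q (some x) = σ := by
  rw [← h]
  ext y
  simp [uni, subS]
  tauto

/-- siblings -/
theorem sib (hN : N.Dim2) {σ : Set V} {A : Set (Set (Option W))}
    (hcl : Closed (N.sub p q hpq hf) (subS S p q) σ A) {s1 s2 : Set (Option W)}
    (h1 : T3 (N.sub p q hpq hf) (subS S p q) σ s1) (h2 : T3 (N.sub p q hpq hf) (subS S p q) σ s2)
    (he : Par p q s1 = Par p q s2) (hA : s1 ∈ A) : s2 ∈ A := by
  have aux : ∀ (s s' : Set (Option W)), none ∉ s → ¬ (some p ∈ s ∧ some q ∈ s) →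
      Par p q s = Par p q s' → (p ∈ Par p q s' ∧ q ∈ Par p q s') → False := by
    intro s s' hn hnb he hh
    rw [← he, par_none hn, par_none hn] at hh
    exact hnb hh
  rcases shape hN h1.1 h1.2.1 with n1 | ⟨x, hxp, hxq, hx⟩
  · rcases shape hN h2.1 h2.2.1 with n2 | ⟨y, hyp, hyq, hy⟩
    · have e : s1 = s2 := by
        ext o
        rcases o with _ | v
        · exact ⟨fun h => absurd h n1, fun h => absurd h n2⟩
        · rw [← par_none (p := p) (q := q) n1, ← par_none (p := p) (q := q) n2, he]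
      rw [← e]
      exact hA
    · exfalso
      refine aux s1 s2 n1 h1.2.1.1 he ?_
      rcases hy with rfl | rfl
      · rw [par_p]; simp
      · rw [par_q]; simp
  · rcases shape hN h2.1 h2.2.1 with n2 | ⟨y, hyp, hyq, hy⟩
    · exfalso
      refine aux s2 s1 n2 h2.2.1.1 he.symm ?_
      rcases hx with rfl | rfl
      · rw [par_p]; simp
      · rw [par_q]; simp
    · have e1 : Par p q s1 = {p, q, x} := by
        rcases hx with rfl | rfl
        · exact par_p x
        · exact par_q x
      have e2 : Par p q s2 = {p, q, y} := by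
        rcases hy with rfl | rfl
        · exact par_p y
        · exact par_q y
      have hxy : x = y := by
        have : x ∈ ({p, q, y} : Set W) := by
          rw [← e2, ← he, e1]
          simp
        rcases this with h | h | h
        · exact absurd h hxp
        · exact absurd h hxq
        · exact h
      subst hxy
      have hlab : subS S p q none ∪ subS S p q (some x) = σ := by
        apply lab3
        rw [← e1, uni_par]
        exact h1.2.2
      refine hcl s1 hA s2 h2 ⟨none, some x, by simp, ?_, ?_, ?_, ?_, hlab⟩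
      · rcases hx with rfl | rfl <;> simp
      · rcases hx with rfl | rfl <;> simp
      · rcases hy with rfl | rfl <;> simp
      · rcases hy with rfl | rfl <;> simp

theorem third {t : Set W} (ht : IsTri t) (hp : p ∈ t) (hq : q ∈ t) (hpq : p ≠ q) :
    ∃ x, x ≠ p ∧ x ≠ q ∧ t = {p, q, x} := by
  obtain ⟨u, v, w, huv, huw, hvw, rfl⟩ := ht
  rcases hp with rfl | rfl | rfl <;> rcases hq with rfl | rfl | rfl
  · exact absurd rfl hpq
  · exact ⟨w, huw.symm, hvw.symm, rfl⟩
  · refine ⟨v, huv.symm, hvw, ?_⟩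
    rw [Set.pair_comm]
  · refine ⟨w, hvw.symm, huw.symm, ?_⟩
    rw [Set.insert_comm]
  · exact absurd rfl hpq
  · refine ⟨u, huv, huw, ?_⟩
    ext z
    simp only [Set.mem_insert_iff, Set.mem_singleton_iff]
    tauto
  · refine ⟨v, hvw, huv.symm, ?_⟩
    ext z
    simp only [Set.mem_insert_iff, Set.mem_singleton_iff]
    tauto
  · refine ⟨u, huw, huv, ?_⟩
    ext z
    simp only [Set.mem_insert_iff, Set.mem_singleton_iff]
    tauto
  · exact absurd rfl hpq

/-- the two children of a triangle containing `p`, `q` -/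
theorem childP {σ : Set V} {x : W} (hxp : x ≠ p) (hxq : x ≠ q) (h : T3 N S σ {p, q, x}) :
    T3 (N.sub p q hpq hf) (subS S p q) σ {none, some p, some x} := by
  refine ⟨isTri3 (by simp) (by simp) (fun e => hxp (Option.some.inj e).symm), ⟨?_, ?_⟩, ?_⟩
  · rintro ⟨-, h2⟩
    simp only [Set.mem_insert_iff, Set.mem_singleton_iff, Option.some.injEq, reduceCtorEq,
      false_or] at h2
    rcases h2 with h2 | h2
    · exact hpq h2.symm
    · exact hxq h2.symm
  · have := par_p (p := p) (q := q) x
    unfold Par at this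
    rw [this]
    exact h.2.1
  · rw [← uni_par, par_p]
    exact h.2.2

theorem childQ {σ : Set V} {x : W} (hxp : x ≠ p) (hxq : x ≠ q) (h : T3 N S σ {p, q, x}) :
    T3 (N.sub p q hpq hf) (subS S p q) σ {none, some q, some x} := by
  refine ⟨isTri3 (by simp) (by simp) (fun e => hxq (Option.some.inj e).symm), ⟨?_, ?_⟩, ?_⟩
  · rintro ⟨h2, -⟩
    simp only [Set.mem_insert_iff, Set.mem_singleton_iff, Option.some.injEq, reduceCtorEq,
      false_or] at h2
    rcases h2 with h2 | h2
    · exact hpq h2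
    · exact hxp h2.symm
  · have := par_q (p := p) (q := q) x
    unfold Par at this
    rw [this]
    exact h.2.1
  · rw [← uni_par, par_q]
    exact h.2.2

theorem child {σ : Set V} {t : Set W} (ht : T3 N S σ t) {i j : W} (hij : i ≠ j) (hi : i ∈ t)
    (hj : j ∈ t) (hne : ¬ (i = p ∧ j = q) ∧ ¬ (i = q ∧ j = p)) :
    ∃ s, T3 (N.sub p q hpq hf) (subS S p q) σ s ∧ Par p q s = t ∧ some i ∈ s ∧ some j ∈ s := by
  by_cases h : p ∈ t ∧ q ∈ t
  · obtain ⟨x, hxp, hxq, rfl⟩ := third ht.1 h.1 h.2 hpq
    have hP := childP (hpq := hpq) (hf := hf) hxp hxq ht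
    have hQ := childQ (hpq := hpq) (hf := hf) hxp hxq ht
    rcases hi with rfl | rfl | rfl <;> rcases hj with rfl | rfl | rfl
    · exact absurd rfl hij
    · exact absurd ⟨rfl, rfl⟩ hne.1
    · exact ⟨_, hP, par_p _, by simp, by simp⟩
    · exact absurd ⟨rfl, rfl⟩ hne.2
    · exact absurd rfl hij
    · exact ⟨_, hQ, par_q _, by simp, by simp⟩
    · exact ⟨_, hP, par_p _, by simp, by simp⟩
    · exact ⟨_, hQ, par_q _, by simp, by simp⟩
    · exact absurd rfl hij
  · have hn : (none : Option W) ∉ some '' t := by simp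
    have hpar : Par p q (some '' t) = t := by
      ext v
      rw [par_none hn]
      simp
    refine ⟨some '' t, ⟨?_, ⟨?_, ?_⟩, ?_⟩, hpar, by simpa using hi, by simpa using hj⟩
    · obtain ⟨u, v, w, huv, huw, hvw, rfl⟩ := ht.1
      refine ⟨some u, some v, some w, by simpa using huv, by simpa using huw, by simpa using hvw, ?_⟩
      rw [Set.image_insert_eq, Set.image_pair]
    · rintro ⟨h1, h2⟩
      exact h ⟨by simpa using h1, by simpa using h2⟩
    · have := hpar
      unfold Par at this
      rw [this]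
      exact ht.2.1
    · rw [← uni_par, hpar]
      exact ht.2.2

end GSd

open GSd in
theorem prfGSd : S_GSd := by
  intro V W K N S hG p q hpq hf σ hσ hσ3 A hA hne hcl
  have hcl' : Closed (N.sub p q hpq hf) (subS S p q) σ A := hcl
  set B : Set (Set W) := {t | T3 N S σ t ∧ ∃ s ∈ A, Par p q s = t} with hB
  have hBall : ∀ t, T3 N S σ t → t ∈ B := by
    refine hG.dual σ hσ hσ3 B (fun t ht => ht.1) ?_ ?_
    · obtain ⟨s, hs⟩ := hne
      exact ⟨Par p q s, par_T3 hG.dim (hA s hs), s, hs, rfl⟩
    · rintro t ⟨ht, s, hs, hst⟩ t' ht' ⟨i, j, hij, hi, hj, hi', hj', hlab⟩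
      refine ⟨ht', ?_⟩
      by_cases hc : (i = p ∧ j = q) ∨ (i = q ∧ j = p)
      · have hpt : p ∈ t := by
          rcases hc with ⟨rfl, rfl⟩ | ⟨rfl, rfl⟩ <;> assumption
        have hqt : q ∈ t := by
          rcases hc with ⟨rfl, rfl⟩ | ⟨rfl, rfl⟩ <;> assumption
        have hpt' : p ∈ t' := by
          rcases hc with ⟨rfl, rfl⟩ | ⟨rfl, rfl⟩ <;> assumption
        have hqt' : q ∈ t' := by
          rcases hc with ⟨rfl, rfl⟩ | ⟨rfl, rfl⟩ <;> assumption
        have hl2 : S p ∪ S q = σ := by
          rcases hc with ⟨rfl, rfl⟩ | ⟨rfl, rfl⟩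
          · exact hlab
          · rw [Set.union_comm]; exact hlab
        obtain ⟨x, hxp, hxq, rfl⟩ := third ht.1 hpt hqt hpq
        obtain ⟨y, hyp, hyq, rfl⟩ := third ht'.1 hpt' hqt' hpq
        have hP := childP (hpq := hpq) (hf := hf) hxp hxq ht
        have hP' := childP (hpq := hpq) (hf := hf) hyp hyq ht'
        have hPA : ({none, some p, some x} : Set (Option W)) ∈ A :=
          sib hG.dim hcl' (hA s hs) hP (by rw [hst, par_p]) hs
        refine ⟨{none, some p, some y}, ?_, par_p y⟩
        refine hcl' _ hPA _ hP' ⟨none, some p, by simp, by simp, by simp, by simp, by simp, ?_⟩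
        show (S p ∪ S q) ∪ S p = σ
        rw [hl2, ← hl2]
        exact Set.union_eq_self_of_subset_right Set.subset_union_left
      · push Not at hc
        have hne : ¬ (i = p ∧ j = q) ∧ ¬ (i = q ∧ j = p) :=
          ⟨fun h => hc.1 h.1 h.2, fun h => hc.2 h.1 h.2⟩
        obtain ⟨c, hc1, hc2, hc3, hc4⟩ := child (hpq := hpq) (hf := hf) ht hij hi hj hne
        obtain ⟨c', hc1', hc2', hc3', hc4'⟩ := child (hpq := hpq) (hf := hf) ht' hij hi' hj' hne
        have hcA : c ∈ A := sib hG.dim hcl' (hA s hs) hc1 (by rw [hst, hc2]) hs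
        refine ⟨c', ?_, hc2'⟩
        exact hcl' c hcA c' hc1' ⟨some i, some j, by simpa using hij, hc3, hc4, hc3', hc4', hlab⟩
  intro t ht
  obtain ⟨-, s, hs, hst⟩ := hBall _ (par_T3 hG.dim ht)
  exact sib hG.dim hcl' (hA s hs) ht hst hs

end Pool.Agent.MP552024
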