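import Pool.Agent.Work.MP_552024_lc.Two.StmtsA

/-!
MP_552024_lc: transport of charts under three moves (starring a triangle, its inverse, the flip).
-/

set_option autoImplicit false

namespace Pool.Agent.MP552024

section MV

variable {U : Type}

theorem mv_nz {Δ : PC U} {z : U → ℝ} (hz : z ∈ Δ.Z) : Δ.face {i | z i ≠ 0} := hz.2

theorem mv_mem {Δ : PC U} {z : U → ℝ} (h1 : ∀ i, 0 ≤ z i) (s : Set U) (hs : Δ.face s)
    (h2 : ∀ i, z i ≠ 0 → i ∈ s) : z ∈ Δ.Z := ⟨h1, Δ.down _ _ h2 hs⟩

theorem mv_min3_zero {r s t : ℝ} (hr : 0 ≤ r) (hs : 0 ≤ s) (ht : 0 ≤ t)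
    (h : r = 0 ∨ s = 0 ∨ t = 0) : min r (min s t) = 0 := by
  apply le_antisymm
  · rcases h with h | h | h
    · exact (min_le_left _ _).trans h.le
    · exact (min_le_right _ _).trans ((min_le_left _ _).trans h.le)
    · exact (min_le_right _ _).trans ((min_le_right _ _).trans h.le)
  · exact le_min hr (le_min hs ht)

theorem mv_min3_or {r s t : ℝ} : min r (min s t) = r ∨ min r (min s t) = s ∨ min r (min s t) = t := by
  rcases min_choice r (min s t) with h | h
  · left; exact h
  · rcases min_choice s t with h' | h'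
    · right; left; rw [h, h']
    · right; right; rw [h, h']

theorem mv_min3_add {r s t k : ℝ} : min (r + k) (min (s + k) (t + k)) = min r (min s t) + k := by
  rw [min_add_add_right, min_add_add_right]

theorem mv_min2_zero {r s : ℝ} (hr : 0 ≤ r) (hs : 0 ≤ s) (h : r = 0 ∨ s = 0) : min r s = 0 := by
  apply le_antisymm
  · rcases h with h | h
    · exact (min_le_left _ _).trans h.le
    · exact (min_le_right _ _).trans h.le
  · exact le_min hr hs

open Classical in
/-- add the value at `x` to the values at `a`, `b`, `c` -/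
noncomputable def mvUp (x a b c : U) (z : U → ℝ) (w : U) : ℝ :=
  if w = x then 0 else if w = a ∨ w = b ∨ w = c then z w + z x else z w

open Classical in
/-- the inverse -/
noncomputable def mvDown (x a b c : U) (z : U → ℝ) (w : U) : ℝ :=
  if w = x then min (z a) (min (z b) (z c))
  else if w = a ∨ w = b ∨ w = c then z w - min (z a) (min (z b) (z c)) else z w

theorem mvUp_LP (x a b c v : U) : (fun z => mvUp x a b c z v) ∈ LP U := by
  unfold mvUp
  split_ifs
  · exact LP_zero
  · exact LP_add (LP_coord _) (LP_coord _)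
  · exact LP_coord _

theorem mvDown_LP (x a b c v : U) : (fun z => mvDown x a b c z v) ∈ LP U := by
  unfold mvDown
  split_ifs
  · exact LP_min (LP_coord _) (LP_min (LP_coord _) (LP_coord _))
  · exact LP_sub (LP_coord _) (LP_min (LP_coord _) (LP_min (LP_coord _) (LP_coord _)))
  · exact LP_coord _

theorem mvUp_x {x a b c : U} (z : U → ℝ) : mvUp x a b c z x = 0 := by simp [mvUp]

theorem mvUp_abc {x a b c w : U} (z : U → ℝ) (h : w ≠ x) (hw : w = a ∨ w = b ∨ w = c) :
    mvUp x a b c z w = z w + z x := by
  simp only [mvUp, if_neg h, if_pos hw]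

theorem mvUp_else {x a b c w : U} (z : U → ℝ) (h : w ≠ x) (hw : ¬ (w = a ∨ w = b ∨ w = c)) :
    mvUp x a b c z w = z w := by
  simp only [mvUp, if_neg h, if_neg hw]

theorem mvDown_x {x a b c : U} (z : U → ℝ) :
    mvDown x a b c z x = min (z a) (min (z b) (z c)) := by simp [mvDown]

theorem mvDown_abc {x a b c w : U} (z : U → ℝ) (h : w ≠ x) (hw : w = a ∨ w = b ∨ w = c) :
    mvDown x a b c z w = z w - min (z a) (min (z b) (z c)) := by
  simp only [mvDown, if_neg h, if_pos hw]

theorem mvDown_else {x a b c w : U} (z : U → ℝ) (h : w ≠ x) (hw : ¬ (w = a ∨ w = b ∨ w = c)) :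
    mvDown x a b c z w = z w := by
  simp only [mvDown, if_neg h, if_neg hw]

theorem mvUp_nonneg {x a b c : U} {z : U → ℝ} (hz : ∀ i, 0 ≤ z i) (w : U) :
    0 ≤ mvUp x a b c z w := by
  unfold mvUp
  split_ifs
  · exact le_rfl
  · exact add_nonneg (hz _) (hz _)
  · exact hz _

theorem mvDown_nonneg {x a b c : U} {z : U → ℝ} (hz : ∀ i, 0 ≤ z i) (w : U) :
    0 ≤ mvDown x a b c z w := by
  unfold mvDown
  split_ifs with h h'
  · exact le_min (hz _) (le_min (hz _) (hz _))
  · rcases h' with rfl | rfl | rfl
    · exact sub_nonneg.2 (min_le_left _ _)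
    · exact sub_nonneg.2 ((min_le_right _ _).trans (min_le_left _ _))
    · exact sub_nonneg.2 ((min_le_right _ _).trans (min_le_right _ _))
  · exact hz _

/-- if one of the three values is zero, `mvDown` followed by `mvUp` -/
theorem mvDown_mvUp {x a b c : U} {z : U → ℝ} (hxa : a ≠ x) (hxb : b ≠ x) (hxc : c ≠ x)
    (hz : ∀ i, 0 ≤ z i) (h0 : z a = 0 ∨ z b = 0 ∨ z c = 0) :
    mvDown x a b c (mvUp x a b c z) = z := by
  have hm : min (mvUp x a b c z a) (min (mvUp x a b c z b) (mvUp x a b c z c)) = z x := by
    rw [mvUp_abc z hxa (Or.inl rfl), mvUp_abc z hxb (Or.inr (Or.inl rfl)),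
      mvUp_abc z hxc (Or.inr (Or.inr rfl)), mv_min3_add, mv_min3_zero (hz a) (hz b) (hz c) h0,
      zero_add]
  funext w
  by_cases h : w = x
  · subst h; rw [mvDown_x, hm]
  · by_cases h' : w = a ∨ w = b ∨ w = c
    · rw [mvDown_abc _ h h', hm, mvUp_abc _ h h', add_sub_cancel_right]
    · rw [mvDown_else _ h h', mvUp_else _ h h']

/-- if the value at `x` is zero, `mvUp` followed by `mvDown` -/
theorem mvUp_mvDown {x a b c : U} {z : U → ℝ} (h0 : z x = 0) :
    mvUp x a b c (mvDown x a b c z) = z := by
  funext w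
  by_cases h : w = x
  · subst h; rw [mvUp_x, h0]
  · by_cases h' : w = a ∨ w = b ∨ w = c
    · rw [mvUp_abc _ h h', mvDown_abc _ h h', mvDown_x, sub_add_cancel]
    · rw [mvUp_else _ h h', mvDown_else _ h h']

/-- `mvUp` is the identity if the value at `x` is zero -/
theorem mvUp_id {x a b c : U} {z : U → ℝ} (h0 : z x = 0) : mvUp x a b c z = z := by
  funext w
  by_cases h : w = x
  · subst h; rw [mvUp_x, h0]
  · by_cases h' : w = a ∨ w = b ∨ w = c
    · rw [mvUp_abc _ h h', h0, add_zero]
    · rw [mvUp_else _ h h']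

/-- `mvDown` is the identity if the value at `x` and the minimum are zero -/
theorem mvDown_id {x a b c : U} {z : U → ℝ} (h0 : z x = 0) (hm : min (z a) (min (z b) (z c)) = 0) :
    mvDown x a b c z = z := by
  funext w
  by_cases h : w = x
  · subst h; rw [mvDown_x, h0, hm]
  · by_cases h' : w = a ∨ w = b ∨ w = c
    · rw [mvDown_abc _ h h', hm, sub_zero]
    · rw [mvDown_else _ h h']

/-- the support of `mvUp z` if the support of `z` is in `{x, a, b, c}` -/
theorem mvUp_supp {x a b c : U} {z : U → ℝ} (h : ∀ i, z i ≠ 0 → i = x ∨ i = a ∨ i = b ∨ i = c) :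
    ∀ i, mvUp x a b c z i ≠ 0 → i ∈ ({a, b, c} : Set U) := by
  intro i hi
  simp only [Set.mem_insert_iff, Set.mem_singleton_iff]
  by_cases hx : i = x
  · subst hx; exact absurd (mvUp_x z) hi
  · by_contra h'
    rw [mvUp_else _ hx h'] at hi
    rcases h i hi with h1 | h1
    · exact hx h1
    · exact h' h1

/-- the support of `mvDown z` if the support of `z` is in `{a, b, c}` -/
theorem mvDown_supp {x a b c : U} {z : U → ℝ} (hxa : a ≠ x) (hxb : b ≠ x) (hxc : c ≠ x)
    (h : ∀ i, z i ≠ 0 → i = a ∨ i = b ∨ i = c) :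
    (∀ i, mvDown x a b c z i ≠ 0 → i ∈ ({x, a, b} : Set U)) ∨
    (∀ i, mvDown x a b c z i ≠ 0 → i ∈ ({x, b, c} : Set U)) ∨
    (∀ i, mvDown x a b c z i ≠ 0 → i ∈ ({x, a, c} : Set U)) := by
  have key : ∀ i, mvDown x a b c z i ≠ 0 → i = x ∨ i = a ∨ i = b ∨ i = c := by
    intro i hi
    by_cases hx : i = x
    · left; exact hx
    · by_cases h' : i = a ∨ i = b ∨ i = c
      · right; exact h'
      · rw [mvDown_else _ hx h'] at hi
        right; exact h i hi
  simp only [Set.mem_insert_iff, Set.mem_singleton_iff]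
  rcases (mv_min3_or (r := z a) (s := z b) (t := z c)) with hm | hm | hm
  · right; left
    intro i hi
    rcases key i hi with h1 | h1 | h1 | h1
    · exact Or.inl h1
    · exfalso
      apply hi
      rw [h1, mvDown_abc _ hxa (Or.inl rfl), hm, sub_self]
    · exact Or.inr (Or.inl h1)
    · exact Or.inr (Or.inr h1)
  · right; right
    intro i hi
    rcases key i hi with h1 | h1 | h1 | h1
    · exact Or.inl h1
    · exact Or.inr (Or.inl h1)
    · exfalso
      apply hi
      rw [h1, mvDown_abc _ hxb (Or.inr (Or.inl rfl)), hm, sub_self]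
    · exact Or.inr (Or.inr h1)
  · left
    intro i hi
    rcases key i hi with h1 | h1 | h1 | h1
    · exact Or.inl h1
    · exact Or.inr (Or.inl h1)
    · exact Or.inr (Or.inr h1)
    · exfalso
      apply hi
      rw [h1, mvDown_abc _ hxc (Or.inr (Or.inr rfl)), hm, sub_self]

/-- if the minimum is nonzero, all three values are nonzero -/
theorem mv_min3_ne {a b c : U} {z : U → ℝ} (hz : ∀ i, 0 ≤ z i)
    (hm : min (z a) (min (z b) (z c)) ≠ 0) : ({a, b, c} : Set U) ⊆ {i | z i ≠ 0} := by
  intro i hi hi0
  simp only [Set.mem_insert_iff, Set.mem_singleton_iff] at hi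
  apply hm
  apply mv_min3_zero (hz a) (hz b) (hz c)
  rcases hi with rfl | rfl | rfl
  · exact Or.inl hi0
  · exact Or.inr (Or.inl hi0)
  · exact Or.inr (Or.inr hi0)

theorem mv_or_of_not {a b c : U} {z : U → ℝ} (h : ¬ (({a, b, c} : Set U) ⊆ {i | z i ≠ 0})) :
    z a = 0 ∨ z b = 0 ∨ z c = 0 := by
  by_contra hc
  simp only [not_or] at hc
  apply h
  intro i hi
  simp only [Set.mem_insert_iff, Set.mem_singleton_iff] at hi
  rcases hi with rfl | rfl | rfl
  · exact hc.1
  · exact hc.2.1
  · exact hc.2.2

end MV

theorem prfStar3 : S_star3 := by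
  intro U Δ Δ' x a b c h
  have hx : x ∉ ({a, b, c} : Set U) := h.new _ h.abc
  simp only [Set.mem_insert_iff, Set.mem_singleton_iff, not_or] at hx
  obtain ⟨hxa, hxb, hxc⟩ := hx
  have hab := h.hab
  have hac := h.hac
  have hbc := h.hbc
  -- one of the three values is zero on Z'
  have hone : ∀ z ∈ Δ'.Z, z a = 0 ∨ z b = 0 ∨ z c = 0 := by
    intro z hz
    rcases (h.res _).1 hz.2 with h1 | h1 | h1 | h1
    · exact mv_or_of_not h1.2
    · right; right
      by_contra hc
      have := h1 hc
      simp only [Set.mem_insert_iff, Set.mem_singleton_iff] at this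
      rcases this with h2 | h2 | h2
      · exact hxc h2.symm
      · exact hac h2.symm
      · exact hbc h2.symm
    · left
      by_contra hc
      have := h1 hc
      simp only [Set.mem_insert_iff, Set.mem_singleton_iff] at this
      rcases this with h2 | h2 | h2
      · exact hxa h2.symm
      · exact hab h2
      · exact hac h2
    · right; left
      by_contra hc
      have := h1 hc
      simp only [Set.mem_insert_iff, Set.mem_singleton_iff] at this
      rcases this with h2 | h2 | h2
      · exact hxb h2.symm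
      · exact hab h2.symm
      · exact hbc h2
  have hxz : ∀ z ∈ Δ.Z, z x = 0 := by
    intro z hz
    by_contra hc
    exact h.new _ hz.2 hc
  refine Eqv.of_maps (mvUp x a b c) (mvDown x a b c) (mvUp_LP x a b c) (mvDown_LP x a b c)
    ?_ ?_ ?_ ?_
  · intro z hz
    by_cases h0 : z x = 0
    · rw [mvUp_id h0]
      refine ⟨hz.1, ?_⟩
      rcases (h.res _).1 hz.2 with h1 | h1 | h1 | h1
      · exact h1.1
      · refine Δ.down _ _ ?_ h.abc
        intro i hi
        have := h1 hi
        simp only [Set.mem_insert_iff, Set.mem_singleton_iff] at this ⊢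
        rcases this with h2 | h2 | h2
        · exact absurd (h2 ▸ h0) hi
        · exact Or.inl h2
        · exact Or.inr (Or.inl h2)
      · refine Δ.down _ _ ?_ h.abc
        intro i hi
        have := h1 hi
        simp only [Set.mem_insert_iff, Set.mem_singleton_iff] at this ⊢
        rcases this with h2 | h2 | h2
        · exact absurd (h2 ▸ h0) hi
        · exact Or.inr (Or.inl h2)
        · exact Or.inr (Or.inr h2)
      · refine Δ.down _ _ ?_ h.abc
        intro i hi
        have := h1 hi
        simp only [Set.mem_insert_iff, Set.mem_singleton_iff] at this ⊢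
        rcases this with h2 | h2 | h2
        · exact absurd (h2 ▸ h0) hi
        · exact Or.inl h2
        · exact Or.inr (Or.inr h2)
    · refine mv_mem (mvUp_nonneg hz.1) _ h.abc (mvUp_supp ?_)
      rcases (h.res _).1 hz.2 with h1 | h1 | h1 | h1
      · exact absurd h0 (h.new _ h1.1)
      · intro i hi
        have := h1 hi
        simp only [Set.mem_insert_iff, Set.mem_singleton_iff] at this
        tauto
      · intro i hi
        have := h1 hi
        simp only [Set.mem_insert_iff, Set.mem_singleton_iff] at this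
        tauto
      · intro i hi
        have := h1 hi
        simp only [Set.mem_insert_iff, Set.mem_singleton_iff] at this
        tauto
  · intro z hz
    by_cases hm : min (z a) (min (z b) (z c)) = 0
    · rw [mvDown_id (hxz z hz) hm]
      refine ⟨hz.1, (h.res _).2 (Or.inl ⟨hz.2, ?_⟩)⟩
      intro hs
      have h1 : z a ≠ 0 := hs (by simp)
      have h2 : z b ≠ 0 := hs (by simp)
      have h3 : z c ≠ 0 := hs (by simp)
      rcases (mv_min3_or (r := z a) (s := z b) (t := z c)) with h4 | h4 | h4
      · exact h1 (h4 ▸ hm)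
      · exact h2 (h4 ▸ hm)
      · exact h3 (h4 ▸ hm)
    · have hs : ∀ i, z i ≠ 0 → i = a ∨ i = b ∨ i = c := by
        intro i hi
        have := h.top _ hz.2 (mv_min3_ne hz.1 hm) hi
        simpa only [Set.mem_insert_iff, Set.mem_singleton_iff] using this
      refine ⟨mvDown_nonneg hz.1, (h.res _).2 (Or.inr ?_)⟩
      rcases mvDown_supp (x := x) (Ne.symm hxa) (Ne.symm hxb) (Ne.symm hxc) hs with h1 | h1 | h1
      · exact Or.inl h1
      · exact Or.inr (Or.inl h1)
      · exact Or.inr (Or.inr h1)
  · intro z hz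
    exact mvDown_mvUp (Ne.symm hxa) (Ne.symm hxb) (Ne.symm hxc) hz.1 (hone z hz)
  · intro z hz
    exact mvUp_mvDown (hxz z hz)

theorem prfUnstar3 : S_unstar3 := by
  intro U Δ Δ' x a b c h
  have hxa := h.xa
  have hxb := h.xb
  have hxc := h.xc
  have hab := h.hab
  have hac := h.hac
  have hbc := h.hbc
  have hone : ∀ z ∈ Δ.Z, z a = 0 ∨ z b = 0 ∨ z c = 0 := by
    intro z hz
    exact mv_or_of_not (fun hs => h.nabc (Δ.down _ _ hs hz.2))
  have hxz : ∀ z ∈ Δ'.Z, z x = 0 := by
    intro z hz
    by_contra hc
    rcases (h.res _).1 hz.2 with h1 | h1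
    · exact h1.2 hc
    · have := h1 hc
      simp only [Set.mem_insert_iff, Set.mem_singleton_iff] at this
      tauto
  refine Eqv.of_maps (mvDown x a b c) (mvUp x a b c) (mvDown_LP x a b c) (mvUp_LP x a b c)
    ?_ ?_ ?_ ?_
  · intro z hz
    have hx0 := hxz z hz
    by_cases hm : min (z a) (min (z b) (z c)) = 0
    · rw [mvDown_id hx0 hm]
      refine ⟨hz.1, ?_⟩
      rcases (h.res _).1 hz.2 with h1 | h1
      · exact h1.1
      · rcases (mv_min3_or (r := z a) (s := z b) (t := z c)) with h4 | h4 | h4
        · have h5 : z a = 0 := h4 ▸ hm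
          refine Δ.down _ _ ?_ h.f2
          intro i hi
          have := h1 hi
          simp only [Set.mem_insert_iff, Set.mem_singleton_iff] at this ⊢
          rcases this with h2 | h2 | h2
          · exact absurd (h2 ▸ h5) hi
          · exact Or.inr (Or.inl h2)
          · exact Or.inr (Or.inr h2)
        · have h5 : z b = 0 := h4 ▸ hm
          refine Δ.down _ _ ?_ h.f3
          intro i hi
          have := h1 hi
          simp only [Set.mem_insert_iff, Set.mem_singleton_iff] at this ⊢
          rcases this with h2 | h2 | h2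
          · exact Or.inr (Or.inl h2)
          · exact absurd (h2 ▸ h5) hi
          · exact Or.inr (Or.inr h2)
        · have h5 : z c = 0 := h4 ▸ hm
          refine Δ.down _ _ ?_ h.f1
          intro i hi
          have := h1 hi
          simp only [Set.mem_insert_iff, Set.mem_singleton_iff] at this ⊢
          rcases this with h2 | h2 | h2
          · exact Or.inr (Or.inl h2)
          · exact Or.inr (Or.inr h2)
          · exact absurd (h2 ▸ h5) hi
    · have hsub := mv_min3_ne hz.1 hm
      have hs : ∀ i, z i ≠ 0 → i = a ∨ i = b ∨ i = c := by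
        rcases (h.res _).1 hz.2 with h1 | h1
        · exact absurd (Δ.down _ _ hsub h1.1) h.nabc
        · intro i hi
          have := h1 hi
          simpa only [Set.mem_insert_iff, Set.mem_singleton_iff] using this
      rcases mvDown_supp (x := x) (Ne.symm hxa) (Ne.symm hxb) (Ne.symm hxc) hs with h1 | h1 | h1
      · exact mv_mem (mvDown_nonneg hz.1) _ h.f1 h1
      · exact mv_mem (mvDown_nonneg hz.1) _ h.f2 h1
      · exact mv_mem (mvDown_nonneg hz.1) _ h.f3 h1
  · intro z hz
    by_cases h0 : z x = 0
    · rw [mvUp_id h0]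
      exact ⟨hz.1, (h.res _).2 (Or.inl ⟨hz.2, fun hc => hc h0⟩)⟩
    · refine ⟨mvUp_nonneg hz.1, (h.res _).2 (Or.inr (mvUp_supp ?_))⟩
      rcases h.star _ hz.2 h0 with h1 | h1 | h1
      · intro i hi
        have := h1 hi
        simp only [Set.mem_insert_iff, Set.mem_singleton_iff] at this
        tauto
      · intro i hi
        have := h1 hi
        simp only [Set.mem_insert_iff, Set.mem_singleton_iff] at this
        tauto
      · intro i hi
        have := h1 hi
        simp only [Set.mem_insert_iff, Set.mem_singleton_iff] at this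
        tauto
  · intro z hz
    exact mvUp_mvDown (hxz z hz)
  · intro z hz
    exact mvDown_mvUp (Ne.symm hxa) (Ne.symm hxb) (Ne.symm hxc) hz.1 (hone z hz)

section Flip

variable {U : Type}

open Classical in
/-- subtract the minimum at `p`, `q` and add it at `a`, `b` -/
noncomputable def mvFl (a b p q : U) (z : U → ℝ) (w : U) : ℝ :=
  if w = p ∨ w = q then z w - min (z p) (z q)
  else if w = a ∨ w = b then z w + min (z p) (z q) else z w

theorem mvFl_LP (a b p q v : U) : (fun z => mvFl a b p q z v) ∈ LP U := by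
  unfold mvFl
  split_ifs
  · exact LP_sub (LP_coord _) (LP_min (LP_coord _) (LP_coord _))
  · exact LP_add (LP_coord _) (LP_min (LP_coord _) (LP_coord _))
  · exact LP_coord _

theorem mvFl_pq {a b p q w : U} (z : U → ℝ) (h : w = p ∨ w = q) :
    mvFl a b p q z w = z w - min (z p) (z q) := by
  simp only [mvFl, if_pos h]

theorem mvFl_ab {a b p q w : U} (z : U → ℝ) (h : ¬ (w = p ∨ w = q)) (h' : w = a ∨ w = b) :
    mvFl a b p q z w = z w + min (z p) (z q) := by
  simp only [mvFl, if_neg h, if_pos h']

theorem mvFl_else {a b p q w : U} (z : U → ℝ) (h : ¬ (w = p ∨ w = q)) (h' : ¬ (w = a ∨ w = b)) :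
    mvFl a b p q z w = z w := by
  simp only [mvFl, if_neg h, if_neg h']

theorem mvFl_nonneg {a b p q : U} {z : U → ℝ} (hz : ∀ i, 0 ≤ z i) (w : U) :
    0 ≤ mvFl a b p q z w := by
  unfold mvFl
  split_ifs with h h'
  · rcases h with rfl | rfl
    · exact sub_nonneg.2 (min_le_left _ _)
    · exact sub_nonneg.2 (min_le_right _ _)
  · exact add_nonneg (hz _) (le_min (hz _) (hz _))
  · exact hz _

theorem mvFl_id {a b p q : U} {z : U → ℝ} (hm : min (z p) (z q) = 0) : mvFl a b p q z = z := by
  funext w
  by_cases h : w = p ∨ w = q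
  · rw [mvFl_pq _ h, hm, sub_zero]
  · by_cases h' : w = a ∨ w = b
    · rw [mvFl_ab _ h h', hm, add_zero]
    · rw [mvFl_else _ h h']

theorem mvFl_mvFl {a b p q : U} {z : U → ℝ} (hap : a ≠ p) (haq : a ≠ q) (hbp : b ≠ p) (hbq : b ≠ q)
    (hz : ∀ i, 0 ≤ z i) (h0 : z a = 0 ∨ z b = 0) :
    mvFl p q a b (mvFl a b p q z) = z := by
  have ha : ¬ (a = p ∨ a = q) := by tauto
  have hb : ¬ (b = p ∨ b = q) := by tauto
  have hm : min (mvFl a b p q z a) (mvFl a b p q z b) = min (z p) (z q) := by
    rw [mvFl_ab z ha (Or.inl rfl), mvFl_ab z hb (Or.inr rfl), min_add_add_right,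
      mv_min2_zero (hz a) (hz b) h0, zero_add]
  funext w
  by_cases h : w = a ∨ w = b
  · have hw : ¬ (w = p ∨ w = q) := by
      rcases h with rfl | rfl
      · exact ha
      · exact hb
    rw [mvFl_pq _ h, hm, mvFl_ab z hw h, add_sub_cancel_right]
  · by_cases h' : w = p ∨ w = q
    · rw [mvFl_ab _ h h', hm, mvFl_pq z h', sub_add_cancel]
    · rw [mvFl_else _ h h', mvFl_else _ h' h]

theorem mv_min2_ne {p q : U} {z : U → ℝ} (hz : ∀ i, 0 ≤ z i)
    (hm : min (z p) (z q) ≠ 0) : ({p, q} : Set U) ⊆ {i | z i ≠ 0} := by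
  intro i hi hi0
  simp only [Set.mem_insert_iff, Set.mem_singleton_iff] at hi
  apply hm
  apply mv_min2_zero (hz p) (hz q)
  rcases hi with rfl | rfl
  · exact Or.inl hi0
  · exact Or.inr hi0

theorem mv_or_of_not2 {a b : U} {z : U → ℝ} (h : ¬ (({a, b} : Set U) ⊆ {i | z i ≠ 0})) :
    z a = 0 ∨ z b = 0 := by
  by_contra hc
  simp only [not_or] at hc
  apply h
  intro i hi
  simp only [Set.mem_insert_iff, Set.mem_singleton_iff] at hi
  rcases hi with rfl | rfl
  · exact hc.1
  · exact hc.2

/-- the support of `mvFl z` if the support of `z` is in `{a, b, p, q}` -/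
theorem mvFl_supp {a b p q : U} {z : U → ℝ}
    (h : ∀ i, z i ≠ 0 → i = a ∨ i = b ∨ i = p ∨ i = q) :
    (∀ i, mvFl a b p q z i ≠ 0 → i = a ∨ i = b ∨ i = q) ∨
    (∀ i, mvFl a b p q z i ≠ 0 → i = a ∨ i = b ∨ i = p) := by
  have key : ∀ i, mvFl a b p q z i ≠ 0 → i = a ∨ i = b ∨ i = p ∨ i = q := by
    intro i hi
    by_contra hc
    simp only [not_or] at hc
    rw [mvFl_else _ (by tauto) (by tauto)] at hi
    have := h i hi
    tauto
  rcases min_choice (z p) (z q) with hm | hm
  · left
    intro i hi
    rcases key i hi with h1 | h1 | h1 | h1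
    · exact Or.inl h1
    · exact Or.inr (Or.inl h1)
    · exfalso
      apply hi
      rw [h1, mvFl_pq _ (Or.inl rfl), hm, sub_self]
    · exact Or.inr (Or.inr h1)
  · right
    intro i hi
    rcases key i hi with h1 | h1 | h1 | h1
    · exact Or.inl h1
    · exact Or.inr (Or.inl h1)
    · exact Or.inr (Or.inr h1)
    · exfalso
      apply hi
      rw [h1, mvFl_pq _ (Or.inr rfl), hm, sub_self]

end Flip

theorem prfFlip : S_flip := by
  intro U Δ Δ' a b p q h
  have hab := h.hab
  have hpq := h.hpq
  have hap := h.hap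
  have haq := h.haq
  have hbp := h.hbp
  have hbq := h.hbq
  have hone : ∀ z ∈ Δ.Z, z p = 0 ∨ z q = 0 := by
    intro z hz
    exact mv_or_of_not2 (fun hs => h.npq (Δ.down _ _ hs hz.2))
  have hone' : ∀ z ∈ Δ'.Z, z a = 0 ∨ z b = 0 := by
    intro z hz
    rcases (h.res _).1 hz.2 with h1 | h1 | h1
    · exact mv_or_of_not2 h1.2
    · right
      by_contra hc
      have := h1 hc
      simp only [Set.mem_insert_iff, Set.mem_singleton_iff] at this
      rcases this with h2 | h2 | h2
      · exact hbp h2
      · exact hbq h2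
      · exact hab h2.symm
    · left
      by_contra hc
      have := h1 hc
      simp only [Set.mem_insert_iff, Set.mem_singleton_iff] at this
      rcases this with h2 | h2 | h2
      · exact hap h2
      · exact haq h2
      · exact hab h2
  refine Eqv.of_maps (mvFl a b p q) (mvFl p q a b) (mvFl_LP a b p q) (mvFl_LP p q a b)
    ?_ ?_ ?_ ?_
  · intro z hz
    by_cases hm : min (z p) (z q) = 0
    · rw [mvFl_id hm]
      refine ⟨hz.1, ?_⟩
      have h5 : z p = 0 ∨ z q = 0 := by
        rcases min_choice (z p) (z q) with h4 | h4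
        · exact Or.inl (h4 ▸ hm)
        · exact Or.inr (h4 ▸ hm)
      rcases (h.res _).1 hz.2 with h1 | h1 | h1
      · exact h1.1
      · rcases h5 with h5 | h5
        · refine Δ.down _ _ ?_ h.f2
          intro i hi
          have := h1 hi
          simp only [Set.mem_insert_iff, Set.mem_singleton_iff] at this ⊢
          rcases this with h2 | h2 | h2
          · exact absurd (h2 ▸ h5) hi
          · exact Or.inr (Or.inr h2)
          · exact Or.inl h2
        · refine Δ.down _ _ ?_ h.f1
          intro i hi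
          have := h1 hi
          simp only [Set.mem_insert_iff, Set.mem_singleton_iff] at this ⊢
          rcases this with h2 | h2 | h2
          · exact Or.inr (Or.inr h2)
          · exact absurd (h2 ▸ h5) hi
          · exact Or.inl h2
      · rcases h5 with h5 | h5
        · refine Δ.down _ _ ?_ h.f2
          intro i hi
          have := h1 hi
          simp only [Set.mem_insert_iff, Set.mem_singleton_iff] at this ⊢
          rcases this with h2 | h2 | h2
          · exact absurd (h2 ▸ h5) hi
          · exact Or.inr (Or.inr h2)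
          · exact Or.inr (Or.inl h2)
        · refine Δ.down _ _ ?_ h.f1
          intro i hi
          have := h1 hi
          simp only [Set.mem_insert_iff, Set.mem_singleton_iff] at this ⊢
          rcases this with h2 | h2 | h2
          · exact Or.inr (Or.inr h2)
          · exact absurd (h2 ▸ h5) hi
          · exact Or.inr (Or.inl h2)
    · have hsub := mv_min2_ne hz.1 hm
      have hs : ∀ i, z i ≠ 0 → i = a ∨ i = b ∨ i = p ∨ i = q := by
        rcases (h.res _).1 hz.2 with h1 | h1 | h1
        · exact absurd (Δ.down _ _ hsub h1.1) h.npq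
        · intro i hi
          have := h1 hi
          simp only [Set.mem_insert_iff, Set.mem_singleton_iff] at this
          tauto
        · intro i hi
          have := h1 hi
          simp only [Set.mem_insert_iff, Set.mem_singleton_iff] at this
          tauto
      rcases mvFl_supp hs with h1 | h1
      · refine mv_mem (mvFl_nonneg hz.1) _ h.f2 (fun i hi => ?_)
        simpa only [Set.mem_insert_iff, Set.mem_singleton_iff] using h1 i hi
      · refine mv_mem (mvFl_nonneg hz.1) _ h.f1 (fun i hi => ?_)
        simpa only [Set.mem_insert_iff, Set.mem_singleton_iff] using h1 i hi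
  · intro z hz
    by_cases hm : min (z a) (z b) = 0
    · rw [mvFl_id hm]
      refine ⟨hz.1, (h.res _).2 (Or.inl ⟨hz.2, ?_⟩)⟩
      intro hs
      have h1 : z a ≠ 0 := hs (by simp)
      have h2 : z b ≠ 0 := hs (by simp)
      rcases min_choice (z a) (z b) with h4 | h4
      · exact h1 (h4 ▸ hm)
      · exact h2 (h4 ▸ hm)
    · have hsub := mv_min2_ne hz.1 hm
      have hs : ∀ i, z i ≠ 0 → i = p ∨ i = q ∨ i = a ∨ i = b := by
        rcases h.star _ hz.2 hsub with h1 | h1
        · intro i hi
          have := h1 hi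
          simp only [Set.mem_insert_iff, Set.mem_singleton_iff] at this
          tauto
        · intro i hi
          have := h1 hi
          simp only [Set.mem_insert_iff, Set.mem_singleton_iff] at this
          tauto
      refine ⟨mvFl_nonneg hz.1, (h.res _).2 (Or.inr ?_)⟩
      rcases mvFl_supp hs with h1 | h1
      · right
        intro i hi
        simpa only [Set.mem_insert_iff, Set.mem_singleton_iff] using h1 i hi
      · left
        intro i hi
        simpa only [Set.mem_insert_iff, Set.mem_singleton_iff] using h1 i hi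
  · intro z hz
    exact mvFl_mvFl hap haq hbp hbq hz.1 (hone' z hz)
  · intro z hz
    exact mvFl_mvFl (Ne.symm hap) (Ne.symm hbp) (Ne.symm haq) (Ne.symm hbq) hz.1 (hone z hz)

end Pool.Agent.MP552024
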