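import Pool.Agent.Work.MP_552024_lc.Two.Disc

/-!
Statements: shellability of discs, coning of discs. MP_552024_lc, dimension at most three.
-/

set_option autoImplicit false

namespace Pool.Agent.MP552024

def S_SH1 : Prop := ∀ (U : Type) [DecidableEq U] (D : Finset (Finset U)), Surf D →
  chi D ≤ 1 ∧ (chi D = 1 → H1z D)

def S_SH2 : Prop := ∀ (U : Type) [DecidableEq U] (D : Finset (Finset U)), Surf D → H1z D →
  ∀ (y : U) (A : Finset (Finset U)), A ⊆ D → A.Nonempty → (∀ t ∈ A, y ∈ t) →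
    (∀ t ∈ A, ∀ t' ∈ D, ∀ e : Finset U, e.card = 2 → y ∈ e → e ⊆ t → e ⊆ t' → t' ∈ A) →
    ∀ t ∈ D, y ∈ t → t ∈ A

def S_SH3 : Prop := ∀ (U : Type) [DecidableEq U] (D : Finset (Finset U)), Surf D → H1z D →
  ∀ F : Finset (Finset U), (∀ e ∈ F, e.card = 2 ∧ deg D e = 1) → F.Nonempty →
    (∀ e ∈ F, ∀ e' : Finset U, e'.card = 2 → deg D e' = 1 → (e ∩ e').Nonempty → e' ∈ F) →
    ∀ e : Finset U, e.card = 2 → deg D e = 1 → e ∈ F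

def S_SH4 : Prop := ∀ (U : Type) [DecidableEq U] (D : Finset (Finset U)), Surf D → H1z D →
  ∀ x y : U, x ≠ y → deg D {x, y} = 2 → (∃ c, c ≠ x ∧ deg D {x, c} = 1) →
    (∃ c, c ≠ y ∧ deg D {y, c} = 1) → ∃ c, Piece D {x, y} c

def S_SH5 : Prop := ∀ (U : Type) [DecidableEq U] (D : Finset (Finset U)), Surf D → H1z D →
  2 ≤ D.card →
  (∃ a b y : U, a ≠ b ∧ y ≠ a ∧ y ≠ b ∧ {a, b, y} ∈ D ∧ deg D {a, y} = 1 ∧ deg D {b, y} = 1 ∧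
    deg D {a, b} = 2) ∨
  (∃ a x b : U, a ≠ b ∧ x ≠ a ∧ x ≠ b ∧ {a, x, b} ∈ D ∧ deg D {a, b} = 1 ∧
    ∀ c, c ≠ x → deg D {x, c} ≠ 1)

def S_SH6 : Prop := ∀ (U : Type) [DecidableEq U] (D : Finset (Finset U)), Surf D → chi D = 1 →
  ∀ a b y : U, a ≠ b → y ≠ a → y ≠ b → {a, b, y} ∈ D → deg D {a, y} = 1 → deg D {b, y} = 1 →
    deg D {a, b} = 2 → Surf (D.erase {a, b, y}) ∧ chi (D.erase {a, b, y}) = 1 ∧
      y ∉ Vs (D.erase {a, b, y}) ∧ deg (D.erase {a, b, y}) {a, b} = 1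

def S_SH7 : Prop := ∀ (U : Type) [DecidableEq U] (D : Finset (Finset U)), Surf D → chi D = 1 →
  ∀ a x b : U, a ≠ b → x ≠ a → x ≠ b → {a, x, b} ∈ D → deg D {a, b} = 1 →
    (∀ c, c ≠ x → deg D {x, c} ≠ 1) →
    Surf (D.erase {a, x, b}) ∧ chi (D.erase {a, x, b}) = 1 ∧
      deg (D.erase {a, x, b}) {a, x} = 1 ∧ deg (D.erase {a, x, b}) {x, b} = 1 ∧
      deg (D.erase {a, x, b}) {a, b} = 0 ∧
      ∀ c, c ≠ x → deg (D.erase {a, x, b}) {x, c} = 1 → c = a ∨ c = b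

/-- discs are shellable -/
def S_SH8 : Prop := ∀ (U : Type) [DecidableEq U] (D : Finset (Finset U)), Surf D → chi D = 1 →
  IsDisc D

def S_star3 : Prop := ∀ (U : Type) (Δ Δ' : PC U) (x a b c : U), Star3R Δ Δ' x a b c → Eqv Δ.Z Δ'.Z

def S_unstar3 : Prop := ∀ (U : Type) (Δ Δ' : PC U) (x a b c : U), Unstar3R Δ Δ' x a b c →
  Eqv Δ.Z Δ'.Z

def S_flip : Prop := ∀ (U : Type) (Δ Δ' : PC U) (a b p q : U), FlipR Δ Δ' a b p q → Eqv Δ.Z Δ'.Z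

/-- the cone complex exists -/
def S_coneEx : Prop := ∀ (U : Type) [DecidableEq U] (D : Finset (Finset U)) (Δ : PC U) (x : U),
  IsDisc D → (∀ t ∈ D, Δ.face ↑t) → (∀ s, Δ.face s → x ∉ s) →
  ∃ Δ' : PC U, ∀ s, Δ'.face s ↔ ConeFace Δ D x s

def S_DC1 : Prop := ∀ (U : Type) [DecidableEq U] (a b c : U), a ≠ b → a ≠ c → b ≠ c →
  ∀ (Δ Δ' : PC U) (x : U), Δ.face {a, b, c} → Priv Δ {{a, b, c}} → (∀ s, Δ.face s → x ∉ s) →
  (∀ s, Δ'.face s ↔ ConeFace Δ {{a, b, c}} x s) → Star3R Δ Δ' x a b c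

def S_DC2 : Prop := ∀ (U : Type) [DecidableEq U] (D : Finset (Finset U)) (a b y : U), IsDisc D →
  a ≠ b → deg D {a, b} = 1 → y ∉ Vs D →
  ∀ (Δ Δ1 Δ2 : PC U) (x : U), (∀ t ∈ insert {a, b, y} D, Δ.face ↑t) → Priv Δ (insert {a, b, y} D) →
  (∀ s, Δ.face s → x ∉ s) → (∀ s, Δ1.face s ↔ ConeFace Δ D x s) →
  (∀ s, Δ2.face s ↔ ConeFace Δ (insert {a, b, y} D) x s) → Priv Δ D ∧ FlipR Δ1 Δ2 a b x y

def S_DC3 : Prop := ∀ (U : Type) [DecidableEq U] (D : Finset (Finset U)) (a z b : U), IsDisc D →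
  a ≠ b → z ≠ a → z ≠ b → deg D {a, z} = 1 → deg D {z, b} = 1 → deg D {a, b} = 0 →
  (∀ c, c ≠ z → deg D {z, c} = 1 → c = a ∨ c = b) →
  ∀ (Δ Δ1 Δ2 : PC U) (x : U), (∀ t ∈ insert {a, z, b} D, Δ.face ↑t) → Priv Δ (insert {a, z, b} D) →
  (∀ s, Δ.face s → x ∉ s) → (∀ s, Δ1.face s ↔ ConeFace Δ D x s) →
  (∀ s, Δ2.face s ↔ ConeFace Δ (insert {a, z, b} D) x s) → Priv Δ D ∧ Unstar3R Δ1 Δ2 z x a b

/-- a disc can be replaced by the cone over its boundary -/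
def S_DC4 : Prop := ∀ (U : Type) [DecidableEq U] (D : Finset (Finset U)), IsDisc D →
  ∀ (Δ Δ' : PC U) (x : U), (∀ t ∈ D, Δ.face ↑t) → Priv Δ D → (∀ s, Δ.face s → x ∉ s) →
  (∀ s, Δ'.face s ↔ ConeFace Δ D x s) → Eqv Δ.Z Δ'.Z

end Pool.Agent.MP552024
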