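import Pool.Agent.Work.MP_552024_lc.Two.Good

/-!
Statements: meaning of the first-order relations, the sentence holds in two-dimensional models,
dimension of the complex, transfer. MP_552024_lc, dimension at most three.
-/

set_option autoImplicit false

namespace Pool.Agent.MP552024

/-! ## meaning of the relations -/

def S_lim : Prop := ∀ (G : Type) [AddCommGroup G] [Lattice G] [IsOrderedAddMonoid G]
  (M : Mdl G) (y : G) (z w : M.V → ℝ), z ∈ M.Δ.Z →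
  (∀ ε : ℝ, 0 < ε → (fun l => z l + ε * w l) ∈ M.Δ.Z ∧ M.ev y (fun l => z l + ε * w l) = 0) →
  M.ev y z = 0

def S_nzZ : Prop := ∀ (G : Type) [AddCommGroup G] [Lattice G] [IsOrderedAddMonoid G]
  (M : Mdl G) (u : G), 0 ≤ u → (NZ u ↔ ∀ z ∈ M.Δ.Z, M.ev u z = 0 → ∀ i, z i = 0)

/-- criterion for `Cl` without linearity -/
def S_clP : Prop := ∀ (G : Type) [AddCommGroup G] [Lattice G] [IsOrderedAddMonoid G]
  (M : Mdl G) (a q : G), 0 ≤ q →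
  (∀ z ∈ M.Δ.Z, M.ev q z = 0 → (∃ i, z i ≠ 0) → ∃ w : M.V → ℝ, ∀ ε : ℝ, 0 < ε →
    (fun l => z l + ε * w l) ∈ M.Δ.Z ∧ 0 < M.ev a (fun l => z l + ε * w l)) → Cl a q

/-- `Cl` for linear elements -/
def S_clF : Prop := ∀ (G : Type) [AddCommGroup G] [Lattice G] [IsOrderedAddMonoid G]
  (M : Mdl G) (a q : G) (d c : M.V → ℤ), M.Lin a d → M.Lin q c → 0 ≤ a → 0 ≤ q →
  (Cl a q ↔ ∀ s : Set M.V, M.Δ.face s → s.Nonempty → (∀ i ∈ s, c i = 0) →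
    ∃ k, M.Δ.face (insert k s) ∧ 0 < d k)

/-- closed segments are connected -/
def S_seg : Prop := ∀ (G : Type) [AddCommGroup G] [Lattice G] [IsOrderedAddMonoid G]
  (M : Mdl G) (q x y : G), 0 ≤ q → 0 ≤ x → 0 ≤ y → NZ (q + x + y) → Inc (x ⊓ y) q →
  ∀ z z' : M.V → ℝ, (∃ i, z i ≠ 0) → (∃ i, z' i ≠ 0) →
  (∀ r : ℝ, 0 ≤ r → r ≤ 1 → (fun l => (1 - r) * z l + r * z' l) ∈ M.Δ.Z ∧
    M.ev q (fun l => (1 - r) * z l + r * z' l) = 0) → M.ev x z = 0 → M.ev x z' = 0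

/-- `Conn` for linear elements -/
def S_connL : Prop := ∀ (G : Type) [AddCommGroup G] [Lattice G] [IsOrderedAddMonoid G]
  (M : Mdl G) (q : G) (c : M.V → ℤ), M.Lin q c → 0 ≤ q →
  (Conn q ↔ ∀ A : Set M.V, A.Nonempty → (∀ i ∈ A, c i = 0) →
    (∀ i ∈ A, ∀ j, c j = 0 → M.Δ.face {i, j} → j ∈ A) → ∀ j, c j = 0 → j ∈ A)

def S_twoL : Prop := ∀ (G : Type) [AddCommGroup G] [Lattice G] [IsOrderedAddMonoid G]
  (M : Mdl G) (q : G) (c : M.V → ℤ), M.Lin q c → 0 ≤ q →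
  (Two q ↔ ∃ i j, i ≠ j ∧ c i = 0 ∧ c j = 0)

/-- every vertex of a connected set with two points lies on an edge of it -/
def S_ctE : Prop := ∀ (G : Type) [AddCommGroup G] [Lattice G] [IsOrderedAddMonoid G]
  (M : Mdl G) (q : G) (c : M.V → ℤ), M.Lin q c → 0 ≤ q → Conn q → Two q →
  (∃ i, c i = 0) ∧ ∀ i, c i = 0 → ∃ j, j ≠ i ∧ c j = 0 ∧ M.Δ.face {i, j}

/-! ## the hat functions of a two-dimensional model satisfy `Sig2` -/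

def S_T1 : Prop := ∀ (G : Type) [AddCommGroup G] [Lattice G] [IsOrderedAddMonoid G]
  (M : Mdl G) (h : M.V → G), Hats2 M h → M.Δ.Dim2 →
  (∀ v, 0 ≤ h v) ∧ (∀ u v, u ≠ v → ¬ M.Δ.face {u, v} → h u ⊓ h v = 0) ∧
  (∀ u v w, u ≠ v → u ≠ w → v ≠ w → ¬ M.Δ.face {u, v, w} → h u ⊓ h v ⊓ h w = 0) ∧
  (∀ u v w x, u ≠ v → u ≠ w → u ≠ x → v ≠ w → v ≠ x → w ≠ x → h u ⊓ h v ⊓ h w ⊓ h x = 0) ∧
  NZ (∑ v, h v) ∧ ∀ v, Single (oth h v)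

def S_T2 : Prop := ∀ (G : Type) [AddCommGroup G] [Lattice G] [IsOrderedAddMonoid G]
  (M : Mdl G) (h : M.V → G), Hats2 M h → M.Δ.Dim2 → ∀ u v, u ≠ v → M.Δ.face {u, v} →
  Conn (oth2 h u v) ∧ ∀ r : G, 0 ≤ r → Conn r → Inc (oth2 h u v) r →
    Inc r (oth h u) → Inc r (oth h v) → Inc r (oth2 h u v)

def S_T3 : Prop := ∀ (G : Type) [AddCommGroup G] [Lattice G] [IsOrderedAddMonoid G]
  (M : Mdl G) (h : M.V → G), Hats2 M h → M.Δ.Dim2 → ∀ u v w, u ≠ v → u ≠ w → v ≠ w →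
  M.Δ.face {u, v, w} → Cl (h u ⊓ h v ⊓ h w) (oth2 h u v)

def S_T4 : Prop := ∀ (G : Type) [AddCommGroup G] [Lattice G] [IsOrderedAddMonoid G]
  (M : Mdl G) (h : M.V → G), Hats2 M h → M.Δ.Dim2 → ∀ u v w, u ≠ v → u ≠ w → v ≠ w →
  M.Δ.face {u, v, w} → ∀ q : G, 0 ≤ q → Conn q → Two q →
    Inc (oth2 h u v) q → ¬ ∃ a b : G, (0 ≤ a ∧ 0 ≤ b) ∧ a ⊓ b = 0 ∧
      (Inc a (h u ⊓ h v ⊓ h w) ∧ Inc b (h u ⊓ h v ⊓ h w)) ∧ Cl a q ∧ Cl b q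

def S_T5 : Prop := ∀ (G : Type) [AddCommGroup G] [Lattice G] [IsOrderedAddMonoid G]
  (M : Mdl G) (h : M.V → G), Hats2 M h → M.Δ.Dim2 → ∀ u v w, u ≠ v → u ≠ w → v ≠ w →
  M.Δ.face {u, v, w} → ∀ q : G, 0 ≤ q → Conn q → Two q →
    ¬ ∃ a b c : G, (0 ≤ a ∧ 0 ≤ b ∧ 0 ≤ c) ∧ (a ⊓ b = 0 ∧ a ⊓ c = 0 ∧ b ⊓ c = 0) ∧
      (Inc a (h u ⊓ h v ⊓ h w) ∧ Inc b (h u ⊓ h v ⊓ h w) ∧ Inc c (h u ⊓ h v ⊓ h w)) ∧
      Cl a q ∧ Cl b q ∧ Cl c q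

def S_T6 : Prop := ∀ (G : Type) [AddCommGroup G] [Lattice G] [IsOrderedAddMonoid G]
  (M : Mdl G) (h : M.V → G), Hats2 M h → M.Δ.Dim2 → ∀ u v w, u ≠ v → u ≠ w → v ≠ w →
  M.Δ.face {u, v, w} → ∀ q : G, 0 ≤ q → Conn q → Two q →
    NZ (q + (h u ⊓ h v ⊓ h w)) → (∀ y : G, 0 ≤ y → y ⊓ q = 0 → y = 0) →
    ∃ a b : G, (0 ≤ a ∧ 0 ≤ b) ∧ a ⊓ b = 0 ∧
      (Inc a (h u ⊓ h v ⊓ h w) ∧ Inc b (h u ⊓ h v ⊓ h w)) ∧ Cl a q ∧ Cl b q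

def S_T7 : Prop := ∀ (G : Type) [AddCommGroup G] [Lattice G] [IsOrderedAddMonoid G]
  (M : Mdl G) (h : M.V → G), Hats2 M h → M.Δ.Dim2 → ∀ u v w, u ≠ v → u ≠ w → v ≠ w →
  M.Δ.face {u, v, w} → ∀ a b : G, 0 ≤ a → 0 ≤ b → a ≠ 0 →
    b ≠ 0 → a ⊓ b = 0 → Inc a (h u ⊓ h v ⊓ h w) → Inc b (h u ⊓ h v ⊓ h w) →
    (∀ y : G, 0 ≤ y → Inc y (h u ⊓ h v ⊓ h w) → y ⊓ (a + b) = 0 → y = 0) →
    ∃ q : G, 0 ≤ q ∧ Conn q ∧ Two q ∧ Cl a q ∧ Cl b q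

/-! ## dimension and transfer -/

/-- the zero set of `f` has dimension at most three -/
def Dim3 {n : ℕ} (f : (Fin n → ℝ) → ℝ) : Prop :=
  ∃ F : Set (Submodule ℝ (Fin n → ℝ)), F.Finite ∧ (∀ W ∈ F, Module.finrank ℝ W ≤ 3) ∧
    ∀ x, f x = 0 → ∃ W ∈ F, x ∈ W

def S_dim : Prop := ∀ (n : ℕ) (f : (Fin n → ℝ) → ℝ)
  (G : Type) [AddCommGroup G] [Lattice G] [IsOrderedAddMonoid G] (ψ : ((Fin n → ℝ) → ℝ) → G),
  Pres n f G ψ → ∀ (M : Mdl G) (t : M.V → Fin n → ℤ), QTracks f ψ M t → Dim3 f → M.Δ.Dim2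

def S_fo2 : Prop := ∀ (G H : Type) [AddCommGroup G] [Lattice G] [IsOrderedAddMonoid G]
  [AddCommGroup H] [Lattice H] [IsOrderedAddMonoid H] (V : Type) [Fintype V] (K : Cx V),
  @FirstOrder.Language.completeTheory L2 G (str G) = @FirstOrder.Language.completeTheory L2 H (str H) →
  (∃ s : V → G, Sig2 K s) → ∃ s : V → H, Sig2 K s

end Pool.Agent.MP552024
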