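import Pool.Agent.Work.MP_552024_lc.Two.Good

/-!
Statements: a model in which a solution of `Sig2` is linear is good. MP_552024_lc, dimension <= 3.
-/

set_option autoImplicit false

namespace Pool.Agent.MP552024

def S_X1 : Prop := ∀ (H : Type) [AddCommGroup H] [Lattice H] [IsOrderedAddMonoid H]
  (V : Type) [Fintype V] (K : Cx V) (N : Mdl H) (s : V → H) (c : V → N.V → ℤ), SigL2 K N s c →
  (∀ i, (lab c i).Nonempty) ∧ ∀ τ, N.Δ.face τ → K.face (uni (lab c) τ)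

def S_X2 : Prop := ∀ (H : Type) [AddCommGroup H] [Lattice H] [IsOrderedAddMonoid H]
  (V : Type) [Fintype V] (K : Cx V) (N : Mdl H) (s : V → H) (c : V → N.V → ℤ), SigL2 K N s c →
  ∀ v, ∃! i, lab c i = {v}

/-- the faces in the zero set of `oth2 s u v` are those of a path -/
def S_X3 : Prop := ∀ (H : Type) [AddCommGroup H] [Lattice H] [IsOrderedAddMonoid H]
  (V : Type) [Fintype V] (K : Cx V) (N : Mdl H) (s : V → H) (c : V → N.V → ℤ), SigL2 K N s c →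
  ∀ u v a b, u ≠ v → K.face {u, v} → lab c a = {u} → lab c b = {v} →
    IsArc N.Δ {i | lab c i ⊆ {u, v}} a b ∧
    ∀ i j k, i ≠ j → i ≠ k → j ≠ k → N.Δ.face {i, j, k} → ¬ (lab c i ∪ lab c j ∪ lab c k ⊆ {u, v})

def S_X4 : Prop := ∀ (H : Type) [AddCommGroup H] [Lattice H] [IsOrderedAddMonoid H]
  (V : Type) [Fintype V] (K : Cx V) (N : Mdl H) (s : V → H) (c : V → N.V → ℤ), SigL2 K N s c →
  N.Δ.Dim2

def S_X5 : Prop := ∀ (H : Type) [AddCommGroup H] [Lattice H] [IsOrderedAddMonoid H]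
  (V : Type) [Fintype V] (K : Cx V) (N : Mdl H) (s : V → H) (c : V → N.V → ℤ), SigL2 K N s c →
  N.Δ.Dim2 → ∀ σ, K.face σ → IsTri σ →
  (∀ i j k₁ k₂ k₃, i ≠ j → k₁ ≠ i → k₁ ≠ j → k₂ ≠ i → k₂ ≠ j → k₃ ≠ i → k₃ ≠ j →
    k₁ ≠ k₂ → k₁ ≠ k₃ → k₂ ≠ k₃ → N.Δ.face {i, j, k₁} → N.Δ.face {i, j, k₂} → N.Δ.face {i, j, k₃} →
    lab c i ∪ lab c j ∪ lab c k₁ = σ → lab c i ∪ lab c j ∪ lab c k₂ = σ →
    lab c i ∪ lab c j ∪ lab c k₃ = σ → False) ∧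
  (∀ i j k₁ k₂, i ≠ j → N.Δ.face {i, j} → lab c i ∪ lab c j ⊆ σ → lab c i ∪ lab c j ≠ σ →
    k₁ ≠ i → k₁ ≠ j → k₂ ≠ i → k₂ ≠ j → N.Δ.face {i, j, k₁} → N.Δ.face {i, j, k₂} →
    lab c i ∪ lab c j ∪ lab c k₁ = σ → lab c i ∪ lab c j ∪ lab c k₂ = σ → k₁ = k₂)

def S_X6 : Prop := ∀ (H : Type) [AddCommGroup H] [Lattice H] [IsOrderedAddMonoid H]
  (V : Type) [Fintype V] (K : Cx V) (N : Mdl H) (s : V → H) (c : V → N.V → ℤ), SigL2 K N s c →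
  N.Δ.Dim2 → ∀ σ, K.face σ → IsTri σ → ∀ i j, i ≠ j → N.Δ.face {i, j} → lab c i ∪ lab c j ⊆ σ →
    lab c i ∪ lab c j ≠ σ →
    ∃ k, k ≠ i ∧ k ≠ j ∧ N.Δ.face {i, j, k} ∧ lab c i ∪ lab c j ∪ lab c k = σ

def S_X7 : Prop := ∀ (H : Type) [AddCommGroup H] [Lattice H] [IsOrderedAddMonoid H]
  (V : Type) [Fintype V] (K : Cx V) (N : Mdl H) (s : V → H) (c : V → N.V → ℤ), SigL2 K N s c →
  N.Δ.Dim2 → ∀ σ, K.face σ → IsTri σ →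
  (∀ i j, i ≠ j → N.Δ.face {i, j} → lab c i ∪ lab c j = σ →
    ∃ k, k ≠ i ∧ k ≠ j ∧ N.Δ.face {i, j, k}) ∧
  ∀ i, lab c i = σ → ∃ j, j ≠ i ∧ N.Δ.face {i, j}

def S_X8 : Prop := ∀ (H : Type) [AddCommGroup H] [Lattice H] [IsOrderedAddMonoid H]
  (V : Type) [Fintype V] (K : Cx V) (N : Mdl H) (s : V → H) (c : V → N.V → ℤ), SigL2 K N s c →
  N.Δ.Dim2 → ∀ σ, K.face σ → IsTri σ → ∀ i j k, i ≠ j → k ≠ i → k ≠ j → lab c i ∪ lab c j = σ →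
    N.Δ.face {i, j, k} → ∃ l, l ≠ i ∧ l ≠ j ∧ l ≠ k ∧ N.Δ.face {i, j, l}

def S_X9 : Prop := ∀ (H : Type) [AddCommGroup H] [Lattice H] [IsOrderedAddMonoid H]
  (V : Type) [Fintype V] (K : Cx V) (N : Mdl H) (s : V → H) (c : V → N.V → ℤ), SigL2 K N s c →
  N.Δ.Dim2 → ∀ σ, K.face σ → IsTri σ → ∀ A : Set (Set N.V), (∀ t ∈ A, T3 N.Δ (lab c) σ t) →
    A.Nonempty →
    (∀ t ∈ A, ∀ t', T3 N.Δ (lab c) σ t' →
      (∃ i j, i ≠ j ∧ i ∈ t ∧ j ∈ t ∧ i ∈ t' ∧ j ∈ t' ∧ lab c i ∪ lab c j = σ) → t' ∈ A) →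
    ∀ t, T3 N.Δ (lab c) σ t → t ∈ A

end Pool.Agent.MP552024
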