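import Pool.Agent.Work.MP_552024_lc.Main
import Pool.Agent.Work.MP_552024_lc.Two.StmtsA
import Pool.Agent.Work.MP_552024_lc.Two.StmtsB
import Pool.Agent.Work.MP_552024_lc.Two.StmtsC
import Pool.Agent.Work.MP_552024_lc.Two.StmtsD
import Pool.Agent.Work.MP_552024_lc.Two.StmtsE

/-!
Assembly for dimension at most three, MP_552024_lc.
-/

set_option autoImplicit false

namespace Pool.Agent.MP552024

theorem dim2_eq {V : Type} {K : Cx V} (hK : K.Dim2) {σ τ : Set V} (hσ : IsTri σ) (h : σ ⊆ τ)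
    (hτ : K.face τ) : τ = σ := by
  obtain ⟨u, v, w, huv, huw, hvw, rfl⟩ := hσ
  refine Set.Subset.antisymm ?_ h
  intro x hx
  by_contra hc
  simp only [Set.mem_insert_iff, Set.mem_singleton_iff, not_or] at hc
  refine hK u v w x huv huw (Ne.symm hc.1) hvw (Ne.symm hc.2.1) (Ne.symm hc.2.2) (K.down _ _ ?_ hτ)
  rintro y (rfl | rfl | rfl | rfl)
  · exact h (by simp)
  · exact h (by simp)
  · exact h (by simp)
  · exact hx

theorem uni_pair {V W : Type} (S : W → Set V) (i j : W) : uni S {i, j} = S i ∪ S j := by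
  ext v; simp [uni]

theorem uni_single {V W : Type} (S : W → Set V) (i : W) : uni S {i} = S i := by
  ext v; simp [uni]

theorem uni_triple {V W : Type} (S : W → Set V) (i j k : W) : uni S {i, j, k} = S i ∪ S j ∪ S k := by
  ext v; simp [uni, or_assoc]

/-- assembly of the extraction -/
theorem asm_X (x1 : S_X1) (x2 : S_X2) (x3 : S_X3) (x4 : S_X4) (x5 : S_X5) (x6 : S_X6) (x7 : S_X7)
    (x8 : S_X8) (x9 : S_X9) (H : Type) [AddCommGroup H] [Lattice H] [IsOrderedAddMonoid H]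
    (V : Type) [Fintype V] (K : Cx V) (N : Mdl H) (s : V → H) (c : V → N.V → ℤ)
    (hs : SigL2 K N s c) : Good K N.Δ (lab c) := by
  obtain ⟨hne, hcar⟩ := x1 H V K N s c hs
  have hone := x2 H V K N s c hs
  have hdim := x4 H V K N s c hs
  refine ⟨hs.kdim, hne, hcar, hdim, hone, ?_, ?_, ?_, ?_, ?_, ?_⟩
  · intro i j k hij hik hjk hf u v hU
    have huni : K.face (lab c i ∪ lab c j ∪ lab c k) := by
      rw [← uni_triple]; exact hcar _ hf
    have hsing : ∀ x, ¬ (lab c i ∪ lab c j ∪ lab c k ⊆ {x}) := by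
      intro x hx
      have h1 : lab c i = {x} := (hne i).subset_singleton_iff.1
        (fun y hy => hx (Or.inl (Or.inl hy)))
      have h2 : lab c j = {x} := (hne j).subset_singleton_iff.1
        (fun y hy => hx (Or.inl (Or.inr hy)))
      exact hij ((hone x).unique h1 h2)
    have hu : u ∈ lab c i ∪ lab c j ∪ lab c k := by
      by_contra hc
      refine hsing v (fun y hy => ?_)
      rcases hU hy with h | h
      · rw [h] at hy; exact absurd hy hc
      · exact h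
    have hv : v ∈ lab c i ∪ lab c j ∪ lab c k := by
      by_contra hc
      refine hsing u (fun y hy => ?_)
      rcases hU hy with h | h
      · exact h
      · rw [Set.mem_singleton_iff.1 h] at hy; exact absurd hy hc
    have huv : u ≠ v := by
      rintro rfl
      exact hsing u (by simpa using hU)
    have hK : K.face {u, v} := K.down _ _ (by rintro y (rfl | rfl) <;> assumption) huni
    obtain ⟨a, ha, _⟩ := hone u
    obtain ⟨b, hb, _⟩ := hone v
    exact (x3 H V K N s c hs u v a b huv hK ha hb).2 i j k hij hik hjk hf hU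
  · intro u v a b huv hK ha hb
    exact (x3 H V K N s c hs u v a b huv hK ha hb).1
  · intro σ hσ hT i j hij hf hS
    obtain ⟨k, hki, hkj, hk⟩ := (x7 H V K N s c hs hdim σ hσ hT).1 i j hij hf hS
    obtain ⟨l, hli, hlj, hlk, hl⟩ := x8 H V K N s c hs hdim σ hσ hT i j k hij hki hkj hS hk
    have hun : ∀ m, N.Δ.face {i, j, m} → lab c i ∪ lab c j ∪ lab c m = σ := by
      intro m hm
      refine dim2_eq hs.kdim hT (by rw [← hS]; exact Set.subset_union_left) ?_
      rw [← uni_triple]; exact hcar _ hm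
    refine ⟨k, l, Ne.symm hlk, hki, hkj, hli, hlj, fun m hmi hmj => ⟨fun hm => ?_, ?_⟩⟩
    · by_contra hc
      rw [not_or] at hc
      exact (x5 H V K N s c hs hdim σ hσ hT).1 i j k l m hij hki hkj hli hlj hmi hmj (Ne.symm hlk)
        (Ne.symm hc.1) (Ne.symm hc.2) hk hl hm (hun k hk) (hun l hl) (hun m hm)
    · rintro (rfl | rfl)
      · exact hk
      · exact hl
  · intro σ hσ hT i j hij hf hS hS'
    obtain ⟨k, hki, hkj, hk, hk'⟩ := x6 H V K N s c hs hdim σ hσ hT i j hij hf hS hS'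
    refine ⟨k, hki, hkj, fun m hmi hmj => ⟨fun hm => ?_, ?_⟩⟩
    · exact (x5 H V K N s c hs hdim σ hσ hT).2 i j m k hij hf hS hS' hmi hmj hki hkj hm.1 hk hm.2 hk'
    · rintro rfl
      exact ⟨hk, hk'⟩
  · intro i σ hi hT
    have hσ : K.face σ := by
      rw [← hi, ← uni_single (lab c) i]; exact hcar _ (N.Δ.vert i)
    exact (x7 H V K N s c hs hdim σ hσ hT).2 i hi
  · exact x9 H V K N s c hs hdim

/-- assembly of the truth part -/
theorem asm_T (t1 : S_T1) (t2 : S_T2) (t3 : S_T3) (t4 : S_T4) (t5 : S_T5) (t6 : S_T6) (t7 : S_T7)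
    (G : Type) [AddCommGroup G] [Lattice G] [IsOrderedAddMonoid G] (M : Mdl G) (h : M.V → G)
    (hh : Hats2 M h) (hM : M.Δ.Dim2) : Sig2 M.Δ h := by
  obtain ⟨a1, a2, a3, a4, a5, a6⟩ := t1 G M h hh hM
  exact ⟨a1, a2, a3, a4, a5, a6, fun u v h1 h2 => (t2 G M h hh hM u v h1 h2).1,
    fun u v h1 h2 => (t2 G M h hh hM u v h1 h2).2, t3 G M h hh hM, t4 G M h hh hM, t5 G M h hh hM,
    t6 G M h hh hM, t7 G M h hh hM⟩

/-- all regions are coned off -/
theorem asm_cone (hex : S_NFex) (c1 : S_CT1) (c2 : S_CT2) (V W : Type) [Fintype V] [Fintype W]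
    [DecidableEq W] (K : Cx V) (N : Cx W) (S : W → Set V) (hg : Good K N S)
    (hd : ∀ σ, K.face σ → IsTri σ → IsDisc (Reg N S σ)) :
    ∀ F : Finset (Set V), (∀ σ ∈ F, K.face σ ∧ IsTri σ) → ∀ Δ : PC (W ⊕ Set V),
    (∀ s, Δ.face s ↔ NFface N S ↑F s) → Eqv N.Z Δ.Z := by
  classical
  intro F
  induction F using Finset.induction_on with
  | empty =>
    intro _ Δ hΔ
    exact c1 V W N S Δ (by simpa using hΔ)
  | insert σ F hσF ih =>
    intro hF Δ hΔ
    obtain ⟨Δ₀, hΔ₀⟩ := hex V W K N S hg ↑F (fun τ hτ => hF τ (Finset.mem_insert_of_mem hτ))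
    have hσ := hF σ (Finset.mem_insert_self _ _)
    refine (ih (fun τ hτ => hF τ (Finset.mem_insert_of_mem hτ)) Δ₀ hΔ₀).trans' ?_
    exact c2 V W K N S hg ↑F σ (fun τ hτ => hF τ (Finset.mem_insert_of_mem hτ)) hσ.1 hσ.2
      (by simpa using hσF) (hd σ hσ.1 hσ.2) Δ₀ Δ hΔ₀ (by simpa using hΔ)

/-- the arcs are contracted to edges -/
theorem asm_CC (g1 : S_G1) (g2 : S_G2) (c5 : S_CT5) (c6 : S_CT6) (V : Type) [Fintype V] (K : Cx V)
    (hK : K.Dim2) : ∀ (n : ℕ) (W : Type) [Finite W] (A : SimpleGraph W) (S : W → Set V),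
    Nat.card W = n → GoodG K.gr A S → Eqv (CC K A S).Z K.Z := by
  intro n
  induction n with
  | zero =>
    intro W _ A S hn hg
    have : IsEmpty W := (Nat.card_eq_zero.1 hn).resolve_right (fun h => h.not_finite ‹_›)
    exact c6 V W K A S hK hg (fun i => (this.false i).elim)
  | succ n ih =>
    intro W _ A S hn hg
    rcases g1 V W K.gr A S hg with hs | ⟨i, p, k, u, v, hr⟩
    · exact c6 V W K A S hK hg hs
    · have hSk : u ∈ S k := by
        have hne : (S k).Nonempty := by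
          rcases hg.lab k with ⟨x, hx⟩ | ⟨x, y, _, hx⟩
          · rw [hx]; exact ⟨x, rfl⟩
          · rw [hx]; exact ⟨x, Or.inl rfl⟩
        by_contra hc
        have h1 : S k = {v} := by
          refine hne.subset_singleton_iff.1 (fun y hy => ?_)
          rcases hr.Sk hy with h | h
          · rw [h] at hy; exact absurd hy hc
          · exact h
        exact hr.pk ((hg.one v).unique hr.Sp h1)
      have h5 := c5 V W K A S i p k hr.ip hr.ik hr.pk hr.npk hr.nb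
        (by rw [hr.Sp, hr.Si]; intro x hx; exact Or.inr hx) (by rw [hr.Si]; exact hr.Sk)
        (by
          rw [hr.Si, hr.Sp]
          rintro x (rfl | hx)
          · exact Or.inr hSk
          · exact Or.inl hx)
      refine h5.trans' (ih {w : W // w ≠ i} (delG A i p k) (fun w => S w.1) ?_
        (g2 V W K.gr A S i p k u v hg hr))
      classical
      have : Fintype W := Fintype.ofFinite W
      rw [Nat.card_eq_fintype_card] at hn ⊢
      rw [Fintype.card_subtype_compl, Fintype.card_subtype_eq, hn]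
      rfl

/-- a good complex all of whose regions are discs is equivalent to `K` -/
theorem asm_CT (hex : S_NFex) (c1 : S_CT1) (c2 : S_CT2) (c3 : S_CT3) (c4 : S_CT4) (g1 : S_G1)
    (g2 : S_G2) (c5 : S_CT5) (c6 : S_CT6) (V W : Type) [Fintype V] [Fintype W] [DecidableEq W]
    (K : Cx V) (N : Cx W) (S : W → Set V) (hg : Good K N S)
    (hd : ∀ σ, K.face σ → IsTri σ → IsDisc (Reg N S σ)) : Eqv N.Z K.Z := by
  classical
  obtain ⟨Δ, hΔ⟩ := hex V W K N S hg {σ | K.face σ ∧ IsTri σ} (fun σ hσ => hσ)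
  have e1 : Eqv N.Z Δ.Z := by
    refine asm_cone hex c1 c2 V W K N S hg hd
      (Finset.univ.filter (fun σ : Set V => K.face σ ∧ IsTri σ)) (fun σ hσ => ?_) Δ ?_
    · simpa using hσ
    · simpa using hΔ
  refine e1.trans' ((c3 V W K N S hg Δ hΔ).trans' ?_)
  exact asm_CC g1 g2 c5 c6 V K hg.kdim _ _ _ _ rfl (c4 V W K N S hg)

/-- the main theorem for dimension at most three -/
theorem main2 (hlin : S_linall) (hq : S_quot) (hdimth : S_dim) (fo : S_fo2)
    (t1 : S_T1) (t2 : S_T2) (t3 : S_T3) (t4 : S_T4) (t5 : S_T5) (t6 : S_T6) (t7 : S_T7)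
    (x1 : S_X1) (x2 : S_X2) (x3 : S_X3) (x4 : S_X4) (x5 : S_X5) (x6 : S_X6) (x7 : S_X7)
    (x8 : S_X8) (x9 : S_X9) (hchi : S_chiRef) (hle : S_chiLe) (hrg : S_RG) (sh : S_SH8)
    (hex : S_NFex) (c1 : S_CT1) (c2 : S_CT2) (c3 : S_CT3) (c4 : S_CT4) (g1 : S_G1)
    (g2 : S_G2) (c5 : S_CT5) (c6 : S_CT6)
    (G H : Type) [AddCommGroup G] [Lattice G] [IsOrderedAddMonoid G]
    [AddCommGroup H] [Lattice H] [IsOrderedAddMonoid H]
    (n m : ℕ) (f : (Fin n → ℝ) → ℝ) (hf : f ∈ LP (Fin n)) (ψ : ((Fin n → ℝ) → ℝ) → G)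
    (hG : Pres n f G ψ) (hd : Dim3 f)
    (f' : (Fin m → ℝ) → ℝ) (hf' : f' ∈ LP (Fin m)) (ψ' : ((Fin m → ℝ) → ℝ) → H)
    (hH : Pres m f' H ψ')
    (hT : @FirstOrder.Language.completeTheory L2 G (str G) =
      @FirstOrder.Language.completeTheory L2 H (str H)) :
    ∃ e : G ≃+ H, ∀ a b : G, e a ≤ e b ↔ a ≤ b := by
  classical
  obtain ⟨M, t, hM⟩ := hq n f hf G ψ hG
  have hMd : M.Δ.Dim2 := hdimth n f G ψ hG M t hM hd
  choose h hh using fun v => M.chart.hat v
  obtain ⟨s, hs⟩ := fo G H M.V M.Δ hT ⟨h, asm_T t1 t2 t3 t4 t5 t6 t7 G M h hh hMd⟩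
  obtain ⟨N₀, _, _⟩ := hq m f' hf' H ψ' hH
  obtain ⟨N, _, hc⟩ := hlin H N₀ M.V s
  choose c hc using hc
  have hgN : Good M.Δ N.Δ (lab c) :=
    asm_X x1 x2 x3 x4 x5 x6 x7 x8 x9 H M.V M.Δ N s c ⟨hMd, hs, hc⟩
  -- the reverse direction, only for the Euler characteristic
  choose h' hh' using fun v => N.chart.hat v
  obtain ⟨s', hs'⟩ := fo H G N.V N.Δ hT.symm ⟨h', asm_T t1 t2 t3 t4 t5 t6 t7 H N h' hh' hgN.dim⟩
  obtain ⟨M₂, hM₂, hc'⟩ := hlin G M N.V s'
  choose c' hc' using hc'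
  have hgM : Good N.Δ M₂.Δ (lab c') :=
    asm_X x1 x2 x3 x4 x5 x6 x7 x8 x9 G N.V N.Δ M₂ s' c' ⟨hgN.dim, hs', hc'⟩
  have e1 := (hle M.V N.V M.Δ N.Δ (lab c) hgN).1
  have e2 := (hle N.V M₂.V N.Δ M₂.Δ (lab c') hgM).1
  have e3 := hchi G M M₂ hM₂
  have e4 : chiC N.Δ = chiC M.Δ := by
    apply le_antisymm e1
    rw [← e3]; exact e2
  have hreg := (hle M.V N.V M.Δ N.Δ (lab c) hgN).2 e4
  have hdisc : ∀ σ, M.Δ.face σ → IsTri σ → IsDisc (Reg N.Δ (lab c) σ) := fun σ h1 h2 =>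
    sh N.V _ (hrg M.V N.V M.Δ N.Δ (lab c) hgN σ h1 h2).1 (hreg σ h1 h2)
  have heq : Eqv N.Δ.Z M.Δ.Z :=
    asm_CT hex c1 c2 c3 c4 g1 g2 c5 c6 M.V N.V M.Δ N.Δ (lab c) hgN hdisc
  obtain ⟨ev', hev'⟩ := heq H ⟨N.ev, N.chart.toOn⟩
  exact iso_of_charts M.chart hev'.toChart

end Pool.Agent.MP552024
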