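import Pool.Agent.Work.MP_552024_lc.Two.StmtsB

/-!
The regions of a good complex are surfaces. MP_552024_lc, dimension at most three.
-/

set_option autoImplicit false
set_option linter.unusedSectionVars false

namespace Pool.Agent.MP552024

namespace RGaux

variable {V W : Type}

theorem mem_uni {S : W → Set V} {s : Set W} {v : V} : v ∈ uni S s ↔ ∃ i ∈ s, v ∈ S i := by
  unfold uni
  simp only [Set.mem_iUnion, exists_prop]

theorem uni_pair (S : W → Set V) (i j : W) : uni S {i, j} = S i ∪ S j := by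
  ext v
  rw [mem_uni]
  constructor
  · rintro ⟨k, hk, hv⟩
    rcases hk with rfl | hk
    · exact Or.inl hv
    · rw [Set.mem_singleton_iff] at hk
      subst hk
      exact Or.inr hv
  · rintro (hv | hv)
    · exact ⟨i, Or.inl rfl, hv⟩
    · exact ⟨j, Or.inr rfl, hv⟩

theorem uni_triple (S : W → Set V) (i j k : W) : uni S {i, j, k} = S i ∪ S j ∪ S k := by
  ext v
  rw [mem_uni]
  constructor
  · rintro ⟨l, hl, hv⟩
    rcases hl with rfl | rfl | hl
    · exact Or.inl (Or.inl hv)
    · exact Or.inl (Or.inr hv)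
    · rw [Set.mem_singleton_iff] at hl
      subst hl
      exact Or.inr hv
  · rintro ((hv | hv) | hv)
    · exact ⟨i, Or.inl rfl, hv⟩
    · exact ⟨j, Or.inr (Or.inl rfl), hv⟩
    · exact ⟨k, Or.inr (Or.inr rfl), hv⟩

theorem top {K : Cx V} (hK : K.Dim2) {σ τ : Set V} (hσ : IsTri σ) (hτ : K.face τ) (h : σ ⊆ τ) :
    τ = σ := by
  obtain ⟨u, v, w, huv, huw, hvw, rfl⟩ := hσ
  apply Set.Subset.antisymm _ h
  intro x hx
  by_contra hx'
  simp only [Set.mem_insert_iff, Set.mem_singleton_iff, not_or] at hx'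
  refine hK u v w x huv huw (Ne.symm hx'.1) hvw (Ne.symm hx'.2.1) (Ne.symm hx'.2.2)
    (K.down _ _ ?_ hτ)
  rintro y (rfl | rfl | rfl | hy)
  · exact h (Or.inl rfl)
  · exact h (Or.inr (Or.inl rfl))
  · exact h (Or.inr (Or.inr rfl))
  · rw [Set.mem_singleton_iff] at hy
    subst hy
    exact hx

section

variable [Fintype W] [DecidableEq W]

theorem mem_Reg {N : Cx W} {S : W → Set V} {σ : Set V} {t : Finset W} :
    t ∈ Reg N S σ ↔ t.card = 3 ∧ N.face ↑t ∧ uni S ↑t = σ := by
  simp only [Reg, Finset.mem_filter, Finset.mem_univ, true_and]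

theorem coe_pair (i j : W) : ((({i, j} : Finset W)) : Set W) = {i, j} := by
  push_cast
  rfl

theorem coe_insert_pair (i j k : W) : (((insert k {i, j} : Finset W)) : Set W) = {i, j, k} := by
  push_cast
  ext x
  simp only [Set.mem_insert_iff, Set.mem_singleton_iff]
  tauto

open Classical in
/-- the third vertices -/
noncomputable def Ms (N : Cx W) (S : W → Set V) (σ : Set V) (i j : W) : Finset W :=
  Finset.univ.filter (fun m => m ≠ i ∧ m ≠ j ∧ N.face {i, j, m} ∧ S i ∪ S j ∪ S m = σ)

theorem mem_Ms {N : Cx W} {S : W → Set V} {σ : Set V} {i j m : W} :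
    m ∈ Ms N S σ i j ↔ m ≠ i ∧ m ≠ j ∧ N.face {i, j, m} ∧ S i ∪ S j ∪ S m = σ := by
  simp only [Ms, Finset.mem_filter, Finset.mem_univ, true_and]

theorem deg_eq (N : Cx W) (S : W → Set V) (σ : Set V) (i j : W) (hij : i ≠ j) :
    deg (Reg N S σ) {i, j} = (Ms N S σ i j).card := by
  have h1 : (Reg N S σ).filter (fun t => ({i, j} : Finset W) ⊆ t) =
      (Ms N S σ i j).image (fun m => insert m {i, j}) := by
    ext t
    rw [Finset.mem_filter, mem_Reg, Finset.mem_image]
    constructor
    · rintro ⟨⟨h1, h2, h3⟩, h4⟩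
      have h5 : ∃ a ∉ ({i, j} : Finset W), insert a {i, j} = t := by
        rw [Finset.exists_eq_insert_iff]
        exact ⟨h4, by rw [Finset.card_pair hij, h1]⟩
      obtain ⟨m, hm, rfl⟩ := h5
      refine ⟨m, ?_, rfl⟩
      rw [mem_Ms]
      rw [coe_insert_pair] at h2 h3
      rw [uni_triple] at h3
      simp only [Finset.mem_insert, Finset.mem_singleton, not_or] at hm
      exact ⟨hm.1, hm.2, h2, h3⟩
    · rintro ⟨m, hm, rfl⟩
      rw [mem_Ms] at hm
      obtain ⟨h1, h2, h3, h4⟩ := hm
      refine ⟨⟨?_, ?_, ?_⟩, Finset.subset_insert _ _⟩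
      · rw [Finset.card_insert_of_notMem, Finset.card_pair hij]
        simp [h1, h2]
      · rw [coe_insert_pair]
        exact h3
      · rw [coe_insert_pair, uni_triple]
        exact h4
  unfold deg
  rw [h1, Finset.card_image_of_injOn]
  intro m hm m' hm' h
  rw [Finset.mem_coe, mem_Ms] at hm hm'
  have h2 : m ∈ (insert m' {i, j} : Finset W) := by
    have : m ∈ (insert m {i, j} : Finset W) := Finset.mem_insert_self _ _
    rw [show (insert m {i, j} : Finset W) = insert m' {i, j} from h] at this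
    exact this
  simp only [Finset.mem_insert, Finset.mem_singleton] at h2
  rcases h2 with h2 | h2 | h2
  · exact h2
  · exact absurd h2 hm.1
  · exact absurd h2 hm.2.1

theorem caseA {K : Cx V} {N : Cx W} {S : W → Set V} (hG : Good K N S) {σ : Set V}
    (hK : K.face σ) (hσ : IsTri σ) {i j : W} (hij : i ≠ j) (hf : N.face {i, j})
    (h : S i ∪ S j = σ) : deg (Reg N S σ) {i, j} = 2 := by
  rw [deg_eq N S σ i j hij]
  obtain ⟨k, l, hkl, hki, hkj, hli, hlj, hm⟩ := hG.int σ hK hσ i j hij hf h
  have h1 : Ms N S σ i j = {k, l} := by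
    ext m
    rw [mem_Ms, Finset.mem_insert, Finset.mem_singleton]
    constructor
    · rintro ⟨h1, h2, h3, _⟩
      exact (hm m h1 h2).1 h3
    · intro h1
      have h2 : m ≠ i ∧ m ≠ j := by
        rcases h1 with rfl | rfl
        · exact ⟨hki, hkj⟩
        · exact ⟨hli, hlj⟩
      have h3 := (hm m h2.1 h2.2).2 h1
      refine ⟨h2.1, h2.2, h3, ?_⟩
      have h4 := hG.car _ h3
      rw [uni_triple] at h4
      apply top hG.kdim hσ h4
      rw [← h]
      exact Set.subset_union_left
  rw [h1, Finset.card_pair hkl]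

theorem caseB {K : Cx V} {N : Cx W} {S : W → Set V} (hG : Good K N S) {σ : Set V}
    (hK : K.face σ) (hσ : IsTri σ) {i j : W} (hij : i ≠ j) (hf : N.face {i, j})
    (h : S i ∪ S j ⊆ σ) (h' : S i ∪ S j ≠ σ) : deg (Reg N S σ) {i, j} = 1 := by
  rw [deg_eq N S σ i j hij]
  obtain ⟨k, hki, hkj, hm⟩ := hG.bd σ hK hσ i j hij hf h h'
  have h1 : Ms N S σ i j = {k} := by
    ext m
    rw [mem_Ms, Finset.mem_singleton]
    constructor
    · rintro ⟨h1, h2, h3, h4⟩
      exact (hm m h1 h2).1 ⟨h3, h4⟩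
    · intro h1
      subst h1
      have h3 := (hm m hki hkj).2 rfl
      exact ⟨hki, hkj, h3.1, h3.2⟩
  rw [h1, Finset.card_singleton]

theorem caseC {N : Cx W} {S : W → Set V} {σ : Set V} {i j : W} (hij : i ≠ j)
    (h : deg (Reg N S σ) {i, j} ≠ 0) : N.face {i, j} ∧ S i ∪ S j ⊆ σ := by
  rw [deg_eq N S σ i j hij] at h
  obtain ⟨m, hm⟩ := Finset.card_ne_zero.1 h
  rw [mem_Ms] at hm
  refine ⟨N.down _ _ ?_ hm.2.2.1, ?_⟩
  · rintro x (rfl | hx)
    · exact Or.inl rfl
    · exact Or.inr (Or.inl hx)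
  · rw [← hm.2.2.2]
    exact Set.subset_union_left

/-- neighbours on an arc -/
theorem nb {K : Cx V} {N : Cx W} {S : W → Set V} (hG : Good K N S) {u v : V} (huv : u ≠ v)
    (hf : K.face {u, v}) (i : W) (hi : S i ⊆ {u, v}) :
    ∃ j, i ≠ j ∧ N.face {i, j} ∧ S j ⊆ {u, v} := by
  obtain ⟨a, ha, _⟩ := hG.one u
  obtain ⟨b, hb, _⟩ := hG.one v
  obtain ⟨m, p, hinj, hp0, hpm, hmem, hadj⟩ := hG.arc u v a b huv hf ha hb
  have hab : a ≠ b := by
    rintro rfl
    have hab2 : ({u} : Set V) = {v} := by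
      rw [← hb]
      exact ha.symm
    exact huv (Set.singleton_injective hab2)
  have hm : 1 ≤ m := by
    by_contra hm
    have hm0 : m = 0 := by omega
    rw [hm0] at hpm
    exact hab (hp0.symm.trans hpm)
  obtain ⟨k, hk, rfl⟩ := (hmem i).1 hi
  by_cases hkm : k = m
  · refine ⟨p (k - 1), ?_, ?_, ?_⟩
    · intro h
      have := hinj k (k - 1) hk (by omega) h
      omega
    · exact (hadj k (k - 1) hk (by omega)).2 (Or.inr (Or.inl (by omega)))
    · exact (hmem _).2 ⟨k - 1, by omega, rfl⟩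
  · refine ⟨p (k + 1), ?_, ?_, ?_⟩
    · intro h
      have := hinj k (k + 1) hk (by omega) h
      omega
    · exact (hadj k (k + 1) hk (by omega)).2 (Or.inr (Or.inr rfl))
    · exact (hmem _).2 ⟨k + 1, by omega, rfl⟩

theorem pair_sub_tri {σ : Set V} (hσ : IsTri σ) {u v : V} : ¬ (σ ⊆ {u, v}) := by
  obtain ⟨a, b, c, hab, hac, hbc, rfl⟩ := hσ
  intro h
  have h1 := h (Or.inl rfl : a ∈ ({a, b, c} : Set V))
  have h2 := h (Or.inr (Or.inl rfl) : b ∈ ({a, b, c} : Set V))
  have h3 := h (Or.inr (Or.inr rfl) : c ∈ ({a, b, c} : Set V))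
  simp only [Set.mem_insert_iff, Set.mem_singleton_iff] at h1 h2 h3
  rcases h1 with rfl | rfl <;> rcases h2 with rfl | rfl <;> rcases h3 with rfl | rfl <;>
    simp_all

theorem deg_nb {K : Cx V} {N : Cx W} {S : W → Set V} (hG : Good K N S) {σ : Set V}
    (hK : K.face σ) (hσ : IsTri σ) {u v : V} (huv : u ≠ v) (hf : K.face {u, v})
    (hs : ({u, v} : Set V) ⊆ σ) (i : W) (hi : S i ⊆ {u, v}) :
    ∃ j, i ≠ j ∧ deg (Reg N S σ) {i, j} = 1 := by
  obtain ⟨j, hij, hfj, hj⟩ := nb hG huv hf i hi
  refine ⟨j, hij, caseB hG hK hσ hij hfj ((Set.union_subset hi hj).trans hs) ?_⟩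
  intro h
  apply pair_sub_tri (u := u) (v := v) hσ
  rw [← h]
  exact Set.union_subset hi hj

theorem Vs_of_deg {D : Finset (Finset W)} {i j : W} (h : deg D {i, j} ≠ 0) : i ∈ Vs D := by
  unfold deg at h
  obtain ⟨t, ht⟩ := Finset.card_ne_zero.1 h
  rw [Finset.mem_filter] at ht
  unfold Vs
  rw [Finset.mem_biUnion]
  exact ⟨t, ht.1, ht.2 (Finset.mem_insert_self _ _)⟩

end

end RGaux

open RGaux in
theorem prfRG : S_RG := by
  intro V W _ _ K N S hG σ hK hσ
  obtain ⟨u, v, w, huv, huw, hvw, hσe⟩ := hσ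
  have hσ' : IsTri σ := ⟨u, v, w, huv, huw, hvw, hσe⟩
  have hfuv : K.face {u, v} := K.down _ _ (by
    rw [hσe]
    rintro x (rfl | hx)
    · exact Or.inl rfl
    · exact Or.inr (Or.inl hx)) hK
  have hfuw : K.face {u, w} := K.down _ _ (by
    rw [hσe]
    rintro x (rfl | hx)
    · exact Or.inl rfl
    · exact Or.inr (Or.inr hx)) hK
  have hfvw : K.face {v, w} := K.down _ _ (by
    rw [hσe]
    rintro x (rfl | hx)
    · exact Or.inr (Or.inl rfl)
    · exact Or.inr (Or.inr hx)) hK
  refine ⟨⟨?_, ?_, ?_, ?_⟩, ?_, ?_⟩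
  · intro t ht
    exact (mem_Reg.1 ht).1
  · intro e he
    obtain ⟨i, j, hij, rfl⟩ := Finset.card_eq_two.1 he
    by_cases h0 : deg (Reg N S σ) {i, j} = 0
    · rw [h0]
      omega
    · obtain ⟨h1, h2⟩ := caseC hij h0
      by_cases h3 : S i ∪ S j = σ
      · rw [caseA hG hK hσ' hij h1 h3]
      · rw [caseB hG hK hσ' hij h1 h2 h3]
        omega
  · intro A hA hne hcl
    apply Finset.Subset.antisymm hA
    intro t0 ht0
    have hT3 : ∀ t ∈ Reg N S σ, T3 N S σ ↑t := by
      intro t ht
      obtain ⟨h1, h2, h3⟩ := mem_Reg.1 ht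
      refine ⟨?_, h2, h3⟩
      obtain ⟨a, b, c, hab, hac, hbc, rfl⟩ := Finset.card_eq_three.1 h1
      exact ⟨a, b, c, hab, hac, hbc, by push_cast; rfl⟩
    have hback : ∀ t : Set W, T3 N S σ t → ∃ t0 ∈ Reg N S σ, (t0 : Set W) = t := by
      rintro t ⟨⟨a, b, c, hab, hac, hbc, rfl⟩, h2, h3⟩
      refine ⟨{a, b, c}, ?_, by push_cast; rfl⟩
      rw [mem_Reg]
      refine ⟨Finset.card_eq_three.2 ⟨a, b, c, hab, hac, hbc, rfl⟩, ?_, ?_⟩
      · push_cast
        exact h2
      · push_cast
        exact h3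
    have h1 := hG.dual σ hK hσ' {t | ∃ t0 ∈ A, (t0 : Set W) = t} (by
      rintro t ⟨t0, ht0, rfl⟩
      exact hT3 _ (hA ht0)) (by
      obtain ⟨t0, ht0⟩ := hne
      exact ⟨_, t0, ht0, rfl⟩) (by
      rintro t ⟨t0, ht0, rfl⟩ t' ht' ⟨i, j, hij, hi, hj, hi', hj', _⟩
      obtain ⟨t0', ht0', rfl⟩ := hback t' ht'
      refine ⟨t0', hcl t0 ht0 t0' ht0' {i, j} (Finset.card_pair hij) ?_ ?_, rfl⟩
      · intro x hx
        rw [Finset.mem_insert, Finset.mem_singleton] at hx
        rcases hx with rfl | rfl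
        · exact hi
        · exact hj
      · intro x hx
        rw [Finset.mem_insert, Finset.mem_singleton] at hx
        rcases hx with rfl | rfl
        · exact hi'
        · exact hj') ↑t0 (hT3 _ ht0)
    obtain ⟨t1, ht1, he⟩ := h1
    rw [← Finset.coe_injective he]
    exact ht1
  · obtain ⟨a, ha, _⟩ := hG.one u
    obtain ⟨j, hij, hd⟩ := deg_nb hG hK hσ' huv hfuv (by
      rw [hσe]
      rintro x (rfl | hx)
      · exact Or.inl rfl
      · exact Or.inr (Or.inl hx)) a (by
      rw [show S a = {u} from ha]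
      rintro x hx
      exact Or.inl hx)
    exact ⟨{a, j}, Finset.card_pair hij, hd⟩
  · intro e he
    obtain ⟨i, j, hij, rfl⟩ := Finset.card_eq_two.1 he
    rw [coe_pair, uni_pair]
    constructor
    · constructor
      · intro h
        obtain ⟨h1, h2⟩ := caseC hij (by rw [h]; omega)
        refine ⟨h1, ?_⟩
        by_contra h3
        rw [caseB hG hK hσ' hij h1 h2 h3] at h
        omega
      · rintro ⟨h1, h2⟩
        exact caseA hG hK hσ' hij h1 h2
    · constructor
      · intro h
        obtain ⟨h1, h2⟩ := caseC hij (by rw [h]; omega)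
        refine ⟨h1, h2, ?_⟩
        intro h3
        rw [caseA hG hK hσ' hij h1 h3] at h
        omega
      · rintro ⟨h1, h2, h3⟩
        exact caseB hG hK hσ' hij h1 h2 h3
  · intro i
    constructor
    · intro h
      unfold Vs at h
      rw [Finset.mem_biUnion] at h
      obtain ⟨t, ht, hi⟩ := h
      obtain ⟨_, _, h3⟩ := mem_Reg.1 ht
      rw [← h3]
      intro x hx
      exact mem_uni.2 ⟨i, hi, hx⟩
    · intro h
      by_cases h1 : S i = σ
      · obtain ⟨j, hj, hf⟩ := hG.vtx i σ h1 hσ'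
        have h2 : S i ∪ S j = σ := by
          have h3 := hG.car _ hf
          rw [uni_pair] at h3
          apply top hG.kdim hσ' h3
          rw [← h1]
          exact Set.subset_union_left
        exact Vs_of_deg (j := j) (by rw [caseA hG hK hσ' (Ne.symm hj) hf h2]; omega)
      · have h2 : ∃ x ∈ σ, x ∉ S i := by
          by_contra h3
          push Not at h3
          exact h1 (Set.Subset.antisymm h h3)
        obtain ⟨x, hx, hxi⟩ := h2
        rw [hσe] at hx h
        rcases hx with rfl | rfl | hx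
        · obtain ⟨j, hij, hd⟩ := deg_nb hG hK hσ' hvw hfvw (by
            rw [hσe]
            rintro y (rfl | hy)
            · exact Or.inr (Or.inl rfl)
            · exact Or.inr (Or.inr hy)) i (by
            intro y hy
            rcases h hy with rfl | hy' | hy'
            · exact absurd hy hxi
            · exact Or.inl hy'
            · exact Or.inr hy')
          exact Vs_of_deg (j := j) (by rw [hd]; omega)
        · obtain ⟨j, hij, hd⟩ := deg_nb hG hK hσ' huw hfuw (by
            rw [hσe]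
            rintro y (rfl | hy)
            · exact Or.inl rfl
            · exact Or.inr (Or.inr hy)) i (by
            intro y hy
            rcases h hy with hy' | rfl | hy'
            · exact Or.inl hy'
            · exact absurd hy hxi
            · exact Or.inr hy')
          exact Vs_of_deg (j := j) (by rw [hd]; omega)
        · rw [Set.mem_singleton_iff] at hx
          subst hx
          obtain ⟨j, hij, hd⟩ := deg_nb hG hK hσ' huv hfuv (by
            rw [hσe]
            rintro y (rfl | hy)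
            · exact Or.inl rfl
            · exact Or.inr (Or.inl hy)) i (by
            intro y hy
            rcases h hy with hy' | hy' | hy'
            · exact Or.inl hy'
            · exact Or.inr hy'
            · rw [Set.mem_singleton_iff] at hy'
              subst hy'
              exact absurd hy hxi)
          exact Vs_of_deg (j := j) (by rw [hd]; omega)

end Pool.Agent.MP552024
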