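import Pool.Agent.Work.MP_552024_lc.Two.StmtsA

/-!
Euler characteristic of a connected surface with boundary, and the mod 2 homology.
MP_552024_lc, dimension at most three, item SH1.
-/

set_option autoImplicit false

namespace Pool.Agent.MP552024

section SH1

variable {U : Type} [DecidableEq U]

/-- the edges of the triangle `t` containing `v` -/
theorem sh1_cnt (t : Finset U) (ht : t.card = 3) (v : U) :
    ((((Finset.powersetCard 2 t).filter (fun e => v ∈ e)).card : ℕ) : ZMod 2) = 0 := by
  by_cases hv : v ∈ t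
  · have h1 : (Finset.powersetCard 2 t).filter (fun e => v ∈ e)
        = (t.erase v).image (fun w => {v, w}) := by
      ext e
      simp only [Finset.mem_filter, Finset.mem_powersetCard, Finset.mem_image, Finset.mem_erase]
      constructor
      · rintro ⟨⟨h1, h2⟩, h3⟩
        obtain ⟨a, b, hab, rfl⟩ := Finset.card_eq_two.1 h2
        simp only [Finset.mem_insert, Finset.mem_singleton] at h3
        rcases h3 with rfl | rfl
        · exact ⟨b, ⟨hab.symm, h1 (by simp)⟩, rfl⟩
        · exact ⟨a, ⟨hab, h1 (by simp)⟩, Finset.pair_comm _ _⟩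
      · rintro ⟨w, ⟨h1, h2⟩, rfl⟩
        refine ⟨⟨?_, Finset.card_pair h1.symm⟩, by simp⟩
        intro z hz
        simp only [Finset.mem_insert, Finset.mem_singleton] at hz
        rcases hz with rfl | rfl <;> assumption
    have h2 : ((t.erase v).image (fun w => ({v, w} : Finset U))).card = 2 := by
      rw [Finset.card_image_of_injOn, Finset.card_erase_of_mem hv, ht]
      intro a ha b hb hab
      simp only [Finset.coe_erase, Set.mem_sdiff, Finset.mem_coe, Set.mem_singleton_iff] at ha hb
      have h3 : a ∈ ({v, b} : Finset U) := by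
        have : a ∈ ({v, a} : Finset U) := by simp
        simpa only [← hab] using this
      simp only [Finset.mem_insert, Finset.mem_singleton] at h3
      rcases h3 with h3 | h3
      · exact absurd h3 ha.2
      · exact h3
    rw [h1, h2]
    decide
  · have h1 : (Finset.powersetCard 2 t).filter (fun e => v ∈ e) = ∅ := by
      rw [Finset.filter_eq_empty_iff]
      intro e he hve
      exact hv ((Finset.mem_powersetCard.1 he).1 hve)
    rw [h1]
    simp

/-- incidence matrix of edges and triangles -/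
def sh1M2 (D : Finset (Finset U)) : Matrix (Es D) D (ZMod 2) :=
  fun e t => if e.1 ⊆ t.1 then 1 else 0

/-- incidence matrix of vertices and edges -/
def sh1M1 (D : Finset (Finset U)) : Matrix (Vs D) (Es D) (ZMod 2) :=
  fun v e => if v.1 ∈ e.1 then 1 else 0

theorem sh1_mul (D : Finset (Finset U)) (h3 : ∀ t ∈ D, t.card = 3) : sh1M1 D * sh1M2 D = 0 := by
  ext v t
  rw [Matrix.mul_apply, Matrix.zero_apply]
  have h1 : ∑ e : Es D, sh1M1 D v e * sh1M2 D e t
      = ∑ e ∈ Es D, (if v.1 ∈ e ∧ e ⊆ t.1 then (1 : ZMod 2) else 0) := by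
    rw [← Finset.sum_coe_sort (Es D) (fun e => if v.1 ∈ e ∧ e ⊆ t.1 then (1 : ZMod 2) else 0)]
    refine Finset.sum_congr rfl fun e _ => ?_
    unfold sh1M1 sh1M2
    by_cases h1 : v.1 ∈ e.1 <;> by_cases h2 : e.1 ⊆ t.1 <;> simp [h1, h2]
  rw [h1, Finset.sum_boole]
  have h2 : (Es D).filter (fun e => v.1 ∈ e ∧ e ⊆ t.1)
      = (Finset.powersetCard 2 t.1).filter (fun e => v.1 ∈ e) := by
    ext e
    simp only [Finset.mem_filter, Es, Finset.mem_biUnion, Finset.mem_powersetCard]
    constructor
    · rintro ⟨⟨t', h1, h2, h3⟩, h4, h5⟩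
      exact ⟨⟨h5, h3⟩, h4⟩
    · rintro ⟨⟨h1, h2⟩, h3⟩
      exact ⟨⟨t.1, t.2, h1, h2⟩, h3, h1⟩
  rw [h2]
  exact sh1_cnt t.1 (h3 t.1 t.2) v.1

theorem sh1_inj (D : Finset (Finset U)) (hD : Surf D) :
    Function.Injective (sh1M2 D).mulVecLin := by
  rw [← LinearMap.ker_eq_bot, LinearMap.ker_eq_bot']
  intro c hc
  obtain ⟨e0, he0, hd0⟩ := hD.bd
  -- extension by zero
  set c' : Finset U → ZMod 2 := fun t => if h : t ∈ D then c ⟨t, h⟩ else 0 with hc'
  have hcc : ∀ t : D, c t = c' t.1 := fun t => by simp [hc']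
  have hsum : ∀ e ∈ Es D, ∑ t ∈ D.filter (fun t => e ⊆ t), c' t = 0 := by
    intro e he
    have h1 := congrFun hc ⟨e, he⟩
    rw [Matrix.mulVecLin_apply, Matrix.mulVec, dotProduct, Pi.zero_apply] at h1
    rw [Finset.sum_filter, ← Finset.sum_coe_sort D (fun t => if e ⊆ t then c' t else 0)]
    refine Eq.trans (Finset.sum_congr rfl fun t _ => ?_) h1
    unfold sh1M2
    rw [hcc]
    by_cases h : e ⊆ t.1 <;> simp [h]
  have hmemE : ∀ e : Finset U, e.card = 2 → ∀ t ∈ D, e ⊆ t → e ∈ Es D := by
    intro e he t ht h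
    simp only [Es, Finset.mem_biUnion, Finset.mem_powersetCard]
    exact ⟨t, ht, h, he⟩
  by_contra hne
  obtain ⟨t0, ht0⟩ := Function.ne_iff.1 hne
  rw [Pi.zero_apply, hcc] at ht0
  have hA : D.filter (fun t => c' t ≠ 0) = D := by
    refine hD.dual _ (Finset.filter_subset _ _) ⟨t0.1, Finset.mem_filter.2 ⟨t0.2, ht0⟩⟩ ?_
    intro t ht t' ht' e he het het'
    rw [Finset.mem_filter] at ht ⊢
    refine ⟨ht', ?_⟩
    by_cases htt : t = t'
    · rw [← htt]
      exact ht.2
    · have h1 : ({t, t'} : Finset (Finset U)) = D.filter (fun t => e ⊆ t) := by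
        refine Finset.eq_of_subset_of_card_le ?_ ?_
        · intro s hs
          simp only [Finset.mem_insert, Finset.mem_singleton] at hs
          rcases hs with rfl | rfl
          · exact Finset.mem_filter.2 ⟨ht.1, het⟩
          · exact Finset.mem_filter.2 ⟨ht', het'⟩
        · rw [Finset.card_pair htt]
          exact hD.deg2 e he
      have h2 := hsum e (hmemE e he t ht.1 het)
      rw [← h1, Finset.sum_pair htt] at h2
      intro h3
      rw [h3, add_zero] at h2
      exact ht.2 h2
  obtain ⟨t1, ht1⟩ := Finset.card_eq_one.1 hd0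
  have h1 : t1 ∈ D.filter (fun t => e0 ⊆ t) := by rw [ht1]; simp
  rw [Finset.mem_filter] at h1
  have h2 := hsum e0 (hmemE e0 he0 t1 h1.1 h1.2)
  rw [ht1, Finset.sum_singleton] at h2
  have h4 : t1 ∈ D.filter (fun t => c' t ≠ 0) := by rw [hA]; exact h1.1
  exact (Finset.mem_filter.1 h4).2 h2

theorem sh1_rank (D : Finset (Finset U)) (hD : Surf D) :
    (Vs D).card ≤ Module.finrank (ZMod 2) (LinearMap.range (sh1M1 D).mulVecLin) + 1 := by
  obtain ⟨e0, he0, hd0⟩ := hD.bd
  have hk : LinearMap.ker (sh1M1 D).transpose.mulVecLin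
      ≤ Submodule.span (ZMod 2) {(fun _ => 1 : Vs D → ZMod 2)} := by
    intro g hg
    rw [LinearMap.mem_ker] at hg
    set g' : U → ZMod 2 := fun v => if h : v ∈ Vs D then g ⟨v, h⟩ else 0 with hg'
    have hgg : ∀ v : Vs D, g v = g' v.1 := fun v => by simp [hg']
    have hedge : ∀ a b : U, a ≠ b → {a, b} ∈ Es D → g' a = g' b := by
      intro a b hab he
      have h1 := congrFun hg ⟨{a, b}, he⟩
      rw [Matrix.mulVecLin_apply, Matrix.mulVec, dotProduct, Pi.zero_apply] at h1
      have h2 : ∑ v : Vs D, (sh1M1 D).transpose ⟨{a, b}, he⟩ v * g v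
          = ∑ v ∈ Vs D, (if v ∈ ({a, b} : Finset U) then g' v else 0) := by
        rw [← Finset.sum_coe_sort (Vs D) (fun v => if v ∈ ({a, b} : Finset U) then g' v else 0)]
        refine Finset.sum_congr rfl fun v _ => ?_
        rw [hgg, Matrix.transpose_apply]
        unfold sh1M1
        by_cases h : v.1 ∈ ({a, b} : Finset U) <;> simp only [h, if_true, if_false, one_mul, zero_mul]
      rw [h2, ← Finset.sum_filter] at h1
      have h3 : (Vs D).filter (fun v => v ∈ ({a, b} : Finset U)) = {a, b} := by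
        ext v
        simp only [Finset.mem_filter, and_iff_right_iff_imp]
        intro hv
        simp only [Es, Finset.mem_biUnion, Finset.mem_powersetCard] at he
        obtain ⟨t, ht, h4, -⟩ := he
        simp only [Vs, Finset.mem_biUnion, id]
        exact ⟨t, ht, h4 hv⟩
      rw [h3, Finset.sum_pair hab] at h1
      have h5 : g' a = -g' b := eq_neg_of_add_eq_zero_left h1
      rw [h5]
      exact ZModModule.neg_eq_self (g' b)
    have hmemE : ∀ a b : U, a ≠ b → ∀ t ∈ D, a ∈ t → b ∈ t → {a, b} ∈ Es D := by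
      intro a b hab t ht ha hb
      simp only [Es, Finset.mem_biUnion, Finset.mem_powersetCard]
      refine ⟨t, ht, ?_, Finset.card_pair hab⟩
      intro z hz
      simp only [Finset.mem_insert, Finset.mem_singleton] at hz
      rcases hz with rfl | rfl <;> assumption
    obtain ⟨t1, ht1⟩ := Finset.card_eq_one.1 hd0
    have h1 : t1 ∈ D.filter (fun t => e0 ⊆ t) := by rw [ht1]; simp
    rw [Finset.mem_filter] at h1
    obtain ⟨v0, hv0⟩ : t1.Nonempty := by
      rw [← Finset.card_pos, hD.tri t1 h1.1]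
      norm_num
    have hA : D.filter (fun t => ∀ v ∈ t, g' v = g' v0) = D := by
      refine hD.dual _ (Finset.filter_subset _ _) ⟨t1, Finset.mem_filter.2 ⟨h1.1, ?_⟩⟩ ?_
      · intro v hv
        by_cases h : v = v0
        · rw [h]
        · exact hedge v v0 h (hmemE v v0 h t1 h1.1 hv hv0)
      · intro t ht t' ht' e he het het'
        rw [Finset.mem_filter] at ht ⊢
        refine ⟨ht', ?_⟩
        obtain ⟨a, ha⟩ : e.Nonempty := by
          rw [← Finset.card_pos, he]
          norm_num
        intro v hv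
        rw [← ht.2 a (het ha)]
        by_cases h : v = a
        · rw [h]
        · exact hedge v a h (hmemE v a h t' ht' hv (het' ha))
    rw [Submodule.mem_span_singleton]
    refine ⟨g' v0, ?_⟩
    ext v
    rw [Pi.smul_apply, smul_eq_mul, mul_one, hgg]
    have hv := v.2
    simp only [Vs, Finset.mem_biUnion, id] at hv
    obtain ⟨t, ht, hvt⟩ := hv
    have h2 : t ∈ D.filter (fun t => ∀ v ∈ t, g' v = g' v0) := by rw [hA]; exact ht
    exact ((Finset.mem_filter.1 h2).2 v.1 hvt).symm
  have h1 : Module.finrank (ZMod 2) (LinearMap.ker (sh1M1 D).transpose.mulVecLin) ≤ 1 :=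
    (Submodule.finrank_mono hk).trans ((finrank_span_le_card _).trans (by simp))
  have h2 := LinearMap.finrank_range_add_finrank_ker (sh1M1 D).transpose.mulVecLin
  have h3 : (sh1M1 D).transpose.rank = (sh1M1 D).rank := Matrix.rank_transpose _
  unfold Matrix.rank at h3
  rw [Module.finrank_fintype_fun_eq_card, Fintype.card_coe] at h2
  omega

theorem prfSH1 : S_SH1 := by
  intro U _ D hD
  have hle : LinearMap.range (sh1M2 D).mulVecLin ≤ LinearMap.ker (sh1M1 D).mulVecLin := by
    rintro _ ⟨c, rfl⟩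
    rw [LinearMap.mem_ker, Matrix.mulVecLin_apply, Matrix.mulVecLin_apply, Matrix.mulVec_mulVec,
      sh1_mul D hD.tri, Matrix.zero_mulVec]
  have h1 := LinearMap.finrank_range_of_inj (sh1_inj D hD)
  rw [Module.finrank_fintype_fun_eq_card, Fintype.card_coe] at h1
  have h2 := LinearMap.finrank_range_add_finrank_ker (sh1M1 D).mulVecLin
  rw [Module.finrank_fintype_fun_eq_card, Fintype.card_coe] at h2
  have h3 := sh1_rank D hD
  have h4 := Submodule.finrank_mono hle
  refine ⟨?_, ?_⟩
  · unfold chi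
    omega
  · intro hchi
    unfold chi at hchi
    have heq : LinearMap.range (sh1M2 D).mulVecLin = LinearMap.ker (sh1M1 D).mulVecLin :=
      Submodule.eq_of_le_of_finrank_le hle (by omega)
    intro F hF hev
    set f : Es D → ZMod 2 := fun e => if e.1 ∈ F then 1 else 0 with hf
    have hfk : f ∈ LinearMap.ker (sh1M1 D).mulVecLin := by
      rw [LinearMap.mem_ker]
      ext v
      rw [Matrix.mulVecLin_apply, Matrix.mulVec, dotProduct, Pi.zero_apply]
      have h5 : ∑ e : Es D, sh1M1 D v e * f e
          = ∑ e ∈ Es D, (if e ∈ F ∧ v.1 ∈ e then (1 : ZMod 2) else 0) := by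
        rw [← Finset.sum_coe_sort (Es D) (fun e => if e ∈ F ∧ v.1 ∈ e then (1 : ZMod 2) else 0)]
        refine Finset.sum_congr rfl fun e _ => ?_
        unfold sh1M1
        rw [hf]
        by_cases h1 : v.1 ∈ e.1 <;> by_cases h2 : e.1 ∈ F <;> simp [h1, h2]
      rw [h5, Finset.sum_boole]
      have h6 : (Es D).filter (fun e => e ∈ F ∧ v.1 ∈ e) = F.filter (fun e => v.1 ∈ e) := by
        ext e
        simp only [Finset.mem_filter]
        exact ⟨fun h => h.2, fun h => ⟨hF h.1, h⟩⟩
      rw [h6]
      obtain ⟨k, hk⟩ := hev v.1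
      rw [hk, Nat.cast_add]
      exact CharTwo.add_self_eq_zero _
    rw [← heq] at hfk
    obtain ⟨c, hc⟩ := hfk
    refine ⟨D.filter (fun t => ∃ h : t ∈ D, c ⟨t, h⟩ = 1), Finset.filter_subset _ _, ?_⟩
    intro e he
    have h7 := congrFun hc ⟨e, he⟩
    rw [Matrix.mulVecLin_apply, Matrix.mulVec, dotProduct] at h7
    have h8 : ∑ t : D, sh1M2 D ⟨e, he⟩ t * c t
        = ((deg (D.filter (fun t => ∃ h : t ∈ D, c ⟨t, h⟩ = 1)) e : ℕ) : ZMod 2) := by
      unfold deg
      rw [Finset.filter_filter, ← Finset.sum_boole, ← Finset.sum_coe_sort D]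
      refine Finset.sum_congr rfl fun t _ => ?_
      unfold sh1M2
      have h9 : c t = if c t = 1 then 1 else 0 := by
        have : ∀ x : ZMod 2, x = if x = 1 then 1 else 0 := by decide
        exact this (c t)
      have h10 : (∃ h : t.1 ∈ D, c ⟨t.1, h⟩ = 1) ↔ c t = 1 := by
        constructor
        · rintro ⟨h, h'⟩
          exact h'
        · intro h
          exact ⟨t.2, h⟩
      by_cases h1 : e ⊆ t.1 <;> by_cases h2 : c t = 1 <;> simp [h1, h2]
      rw [h9]
      simp [h2]
    rw [h8] at h7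
    have h11 : f ⟨e, he⟩ = if e ∈ F then 1 else 0 := rfl
    rw [h11] at h7
    constructor
    · intro heF
      rw [if_pos heF] at h7
      exact (ZMod.natCast_eq_one_iff_odd).1 h7
    · intro hodd
      by_contra heF
      rw [if_neg heF] at h7
      have h12 := (ZMod.natCast_eq_one_iff_odd).2 hodd
      rw [h12] at h7
      exact one_ne_zero h7

end SH1

end Pool.Agent.MP552024
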