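import Pool.Agent.Work.MP_552024_lc.Two.SH1

/-!
No pinch points. MP_552024_lc, dimension at most three, item SH2.
-/

set_option autoImplicit false

namespace Pool.Agent.MP552024

section SH2

variable {U : Type} [DecidableEq U]

/-- boundary coefficient of the chain `F` at `v` modulo 2 -/
def sh2n (F : Finset (Finset U)) (v : U) : ZMod 2 := ((F.filter (fun e => v ∈ e)).card : ZMod 2)

theorem sh2_sum (F : Finset (Finset U)) (v : U) :
    sh2n F v = ∑ e ∈ F, if v ∈ e then (1 : ZMod 2) else 0 := by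
  rw [Finset.sum_boole, sh2n]

theorem sh2_add (F : Finset (Finset U)) (e : Finset U) (P : Finset U → Prop)
    (hF : ∀ e ∈ F, P e) (he : P e) : ∃ F' : Finset (Finset U), (∀ e ∈ F', P e) ∧
      ∀ v, sh2n F' v = sh2n F v + if v ∈ e then 1 else 0 := by
  by_cases h : e ∈ F
  · refine ⟨F.erase e, fun e' he' => hF e' (Finset.mem_of_mem_erase he'), fun v => ?_⟩
    rw [sh2_sum, sh2_sum, ← Finset.sum_erase_add F _ h, add_assoc, CharTwo.add_self_eq_zero,
      add_zero]
  · refine ⟨insert e F, ?_, fun v => ?_⟩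
    · intro e' he'
      rcases Finset.mem_insert.1 he' with rfl | h'
      · exact he
      · exact hF e' h'
    · rw [sh2_sum, sh2_sum, Finset.sum_insert h, add_comm]

theorem sh2_pair (a b v : U) (hab : a ≠ b) :
    (if v ∈ ({a, b} : Finset U) then (1 : ZMod 2) else 0)
      = (if v = a then 1 else 0) + if v = b then 1 else 0 := by
  by_cases h1 : v = a
  · subst h1
    simp [hab]
  · by_cases h2 : v = b
    · subst h2
      simp [h1]
    · simp [h1, h2]

theorem prfSH2 : S_SH2 := by
  intro U _ D hD hH y A hAD hAne hAy hAcl t0 ht0 hyt0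
  by_contra ht0A
  obtain ⟨t1, ht1⟩ := hAne
  have hE : ∀ a b : U, a ≠ b → ∀ t ∈ D, a ∈ t → b ∈ t → {a, b} ∈ Es D := by
    intro a b hab t ht ha hb
    simp only [Es, Finset.mem_biUnion, Finset.mem_powersetCard]
    refine ⟨t, ht, ?_, Finset.card_pair hab⟩
    intro z hz
    simp only [Finset.mem_insert, Finset.mem_singleton] at hz
    rcases hz with rfl | rfl <;> assumption
  have hsub : ∀ (a b : U) (t : Finset U), a ∈ t → b ∈ t → ({a, b} : Finset U) ⊆ t := by
    intro a b t ha hb z hz
    simp only [Finset.mem_insert, Finset.mem_singleton] at hz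
    rcases hz with rfl | rfl <;> assumption
  have hex : ∀ s : Finset U, 2 ≤ s.card → ∃ j ∈ s, j ≠ y := by
    intro s hs
    obtain ⟨j, hj⟩ : (s.erase y).Nonempty := by
      rw [← Finset.card_pos]
      have := Finset.pred_card_le_card_erase (s := s) (a := y)
      omega
    exact ⟨j, Finset.mem_of_mem_erase hj, Finset.ne_of_mem_erase hj⟩
  obtain ⟨j1, hj1, hj1y⟩ := hex t1 (by rw [hD.tri t1 (hAD ht1)]; norm_num)
  set R : U → Prop := fun j => ∃ F : Finset (Finset U), (∀ e ∈ F, e ∈ Es D ∧ y ∉ e) ∧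
    ∀ v, sh2n F v = (if v = j1 then 1 else 0) + if v = j then 1 else 0 with hR
  have hR1 : R j1 := by
    refine ⟨∅, by simp, fun v => ?_⟩
    rw [CharTwo.add_self_eq_zero]
    simp [sh2n]
  have hRe : ∀ j k : U, j ≠ k → {j, k} ∈ Es D → j ≠ y → k ≠ y → R j → R k := by
    rintro j k hjk he hj hk ⟨F, hF, hFv⟩
    obtain ⟨F', hF', hFv'⟩ := sh2_add F {j, k} (fun e => e ∈ Es D ∧ y ∉ e) hF
      ⟨he, by simp [Ne.symm hj, Ne.symm hk]⟩
    refine ⟨F', hF', fun v => ?_⟩
    rw [hFv', hFv, sh2_pair j k v hjk]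
    have : ∀ a b c : ZMod 2, a + b + (b + c) = a + c := by decide
    exact this _ _ _
  classical
  have hB : D.filter (fun t => ∀ j ∈ t, j ≠ y → R j) = D := by
    refine hD.dual _ (Finset.filter_subset _ _) ⟨t1, Finset.mem_filter.2 ⟨hAD ht1, ?_⟩⟩ ?_
    · intro j hj hjy
      by_cases h : j = j1
      · rw [h]
        exact hR1
      · exact hRe j1 j (Ne.symm h) (hE j1 j (Ne.symm h) t1 (hAD ht1) hj1 hj) hj1y hjy hR1
    · intro t ht t' ht' e he het het'
      rw [Finset.mem_filter] at ht ⊢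
      refine ⟨ht', ?_⟩
      obtain ⟨j, hj, hjy⟩ := hex e (by omega)
      have hRj := ht.2 j (het hj) hjy
      intro k hk hky
      by_cases h : k = j
      · rw [h]
        exact hRj
      · exact hRe j k (Ne.symm h) (hE j k (Ne.symm h) t' ht' (het' hj) hk) hjy hky hRj
  obtain ⟨j0, hj0, hj0y⟩ := hex t0 (by rw [hD.tri t0 ht0]; norm_num)
  have ht0B : t0 ∈ D.filter (fun t => ∀ j ∈ t, j ≠ y → R j) := by
    rw [hB]
    exact ht0
  obtain ⟨F, hF, hFv⟩ := (Finset.mem_filter.1 ht0B).2 j0 hj0 hj0y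
  -- the edge `{y, j0}` is in no triangle of `A`
  have hno : ∀ t ∈ A, j0 ∉ t := by
    intro t ht hjt
    exact ht0A (hAcl t ht t0 ht0 {y, j0} (Finset.card_pair (Ne.symm hj0y)) (by simp)
      (hsub y j0 t (hAy t ht) hjt) (hsub y j0 t0 hyt0 hj0))
  have hj01 : j0 ≠ j1 := by
    rintro rfl
    exact hno t1 ht1 hj1
  set F2 : Finset (Finset U) := insert {y, j1} (insert {y, j0} F) with hF2
  have hn1 : ({y, j0} : Finset U) ∉ F := fun h => (hF _ h).2 (by simp)
  have hn2 : ({y, j1} : Finset U) ∉ insert {y, j0} F := by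
    intro h
    rcases Finset.mem_insert.1 h with h | h
    · have h3 : j0 ∈ ({y, j1} : Finset U) := by
        rw [h]
        simp
      simp only [Finset.mem_insert, Finset.mem_singleton] at h3
      rcases h3 with h3 | h3
      · exact hj0y h3
      · exact hj01 h3
    · exact (hF _ h).2 (by simp)
  obtain ⟨c, hcD, hc⟩ := hH F2 (by
      intro e he
      rcases Finset.mem_insert.1 he with rfl | he
      · exact hE y j1 (Ne.symm hj1y) t1 (hAD ht1) (hAy t1 ht1) hj1
      · rcases Finset.mem_insert.1 he with rfl | he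
        · exact hE y j0 (Ne.symm hj0y) t0 ht0 hyt0 hj0
        · exact (hF e he).1) (by
      intro v
      have h1 : sh2n F2 v = 0 := by
        rw [sh2_sum, hF2, Finset.sum_insert hn2, Finset.sum_insert hn1, ← sh2_sum, hFv,
          sh2_pair y j1 v (Ne.symm hj1y), sh2_pair y j0 v (Ne.symm hj0y)]
        have : ∀ a b c : ZMod 2, a + b + (a + c + (b + c)) = 0 := by decide
        exact this _ _ _
      exact ZMod.natCast_eq_zero_iff_even.1 h1)
  -- the count
  set EA : Finset (Finset U) := (Es D).filter (fun e => y ∈ e ∧ ∃ t ∈ A, e ⊆ t) with hEA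
  have hcard : ∀ e ∈ Es D, e.card = 2 := by
    intro e he
    simp only [Es, Finset.mem_biUnion, Finset.mem_powersetCard] at he
    obtain ⟨t, -, -, h⟩ := he
    exact h
  have hS1 : ∑ e ∈ EA, ((deg c e : ℕ) : ZMod 2) = 0 := by
    have h1 : ∀ e, ((deg c e : ℕ) : ZMod 2) = ∑ t ∈ c, if e ⊆ t then (1 : ZMod 2) else 0 := by
      intro e
      rw [Finset.sum_boole, deg]
    simp only [h1]
    rw [Finset.sum_comm]
    refine Finset.sum_eq_zero fun t ht => ?_
    rw [Finset.sum_boole]
    by_cases htA : t ∈ A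
    · have h2 : EA.filter (fun e => e ⊆ t)
          = (Finset.powersetCard 2 t).filter (fun e => y ∈ e) := by
        ext e
        simp only [hEA, Finset.mem_filter, Finset.mem_powersetCard]
        constructor
        · rintro ⟨⟨h1, h2, -⟩, h3⟩
          exact ⟨⟨h3, hcard e h1⟩, h2⟩
        · rintro ⟨⟨h1, h2⟩, h3⟩
          refine ⟨⟨?_, h3, t, htA, h1⟩, h1⟩
          simp only [Es, Finset.mem_biUnion, Finset.mem_powersetCard]
          exact ⟨t, hcD ht, h1, h2⟩
      rw [h2]
      exact sh1_cnt t (hD.tri t (hcD ht)) y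
    · have h2 : EA.filter (fun e => e ⊆ t) = ∅ := by
        rw [Finset.filter_eq_empty_iff]
        intro e he het
        rw [hEA, Finset.mem_filter] at he
        obtain ⟨h3, h4, t', h5, h6⟩ := he
        exact htA (hAcl t' h5 t (hcD ht) e (hcard e h3) h4 h6 het)
      rw [h2]
      simp
  have hmem : ({y, j1} : Finset U) ∈ EA := by
    rw [hEA, Finset.mem_filter]
    exact ⟨hE y j1 (Ne.symm hj1y) t1 (hAD ht1) (hAy t1 ht1) hj1, by simp, t1, ht1,
      hsub y j1 t1 (hAy t1 ht1) hj1⟩
  have hS2 : ∑ e ∈ EA, ((deg c e : ℕ) : ZMod 2) = 1 := by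
    rw [Finset.sum_eq_single ({y, j1} : Finset U)]
    · rw [ZMod.natCast_eq_one_iff_odd]
      exact (hc _ (Finset.mem_filter.1 hmem).1).1 (Finset.mem_insert_self _ _)
    · intro e he hne
      rw [ZMod.natCast_eq_zero_iff_even, ← Nat.not_odd_iff_even]
      rw [hEA, Finset.mem_filter] at he
      intro hodd
      have h1 := (hc e he.1).2 hodd
      rcases Finset.mem_insert.1 h1 with h1 | h1
      · exact hne h1
      · rcases Finset.mem_insert.1 h1 with h1 | h1
        · obtain ⟨-, -, t, htA, het⟩ := he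
          refine hno t htA (het ?_)
          rw [h1]
          simp
        · exact (hF e h1).2 he.2.1
    · intro h
      exact absurd hmem h
  rw [hS1] at hS2
  exact zero_ne_one hS2

end SH2

end Pool.Agent.MP552024
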