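import Pool.Agent.Work.MP_552024_lc.Two.StmtsA

set_option autoImplicit false

namespace Pool.Agent.MP552024

section SH3

variable {U : Type} [DecidableEq U]

theorem SH3_mem_Es {D : Finset (Finset U)} {t e : Finset U} (ht : t ∈ D) (he : e.card = 2)
    (h : e ⊆ t) : e ∈ Es D :=
  Finset.mem_biUnion.2 ⟨t, ht, Finset.mem_powersetCard.2 ⟨h, he⟩⟩

theorem SH3_deg_pos {D : Finset (Finset U)} {t e : Finset U} (ht : t ∈ D) (h : e ⊆ t) :
    0 < deg D e := Finset.card_pos.2 ⟨t, Finset.mem_filter.2 ⟨ht, h⟩⟩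

theorem SH3_exists {D : Finset (Finset U)} {e : Finset U} (h : 0 < deg D e) :
    ∃ t ∈ D, e ⊆ t := by
  obtain ⟨t, ht⟩ := Finset.card_pos.1 h
  exact ⟨t, (Finset.mem_filter.1 ht).1, (Finset.mem_filter.1 ht).2⟩

theorem SH3_card (t : Finset U) (ht : t.card = 3) (v : U) (hv : v ∈ t) :
    ((t.powersetCard 2).filter (fun e => v ∈ e)).card = 2 := by
  have h1 : (t.powersetCard 2).filter (fun e => v ∈ e) =
      (t.erase v).image (fun a => ({v, a} : Finset U)) := by
    ext e
    simp only [Finset.mem_filter, Finset.mem_powersetCard, Finset.mem_image, Finset.mem_erase]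
    constructor
    · rintro ⟨⟨h1, h2⟩, h3⟩
      obtain ⟨a, b, hab, rfl⟩ := Finset.card_eq_two.1 h2
      rcases Finset.mem_insert.1 h3 with h4 | h4
      · subst h4
        exact ⟨b, ⟨hab.symm, h1 (by simp)⟩, rfl⟩
      · rw [Finset.mem_singleton] at h4
        subst h4
        exact ⟨a, ⟨hab, h1 (by simp)⟩, Finset.pair_comm _ _⟩
    · rintro ⟨a, ⟨h1, h2⟩, rfl⟩
      refine ⟨⟨?_, Finset.card_pair h1.symm⟩, by simp⟩
      intro w hw
      rcases Finset.mem_insert.1 hw with h3 | h3
      · rw [h3]; exact hv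
      · rw [Finset.mem_singleton.1 h3]; exact h2
  rw [h1, Finset.card_image_of_injOn, Finset.card_erase_of_mem hv, ht]
  intro a ha b hb hab
  have ha' := Finset.ne_of_mem_erase ha
  have hab' : ({v, a} : Finset U) = {v, b} := hab
  have h2 : a ∈ ({v, b} : Finset U) := by rw [← hab']; simp
  rcases Finset.mem_insert.1 h2 with h3 | h3
  · exact absurd h3 ha'
  · exact Finset.mem_singleton.1 h3

theorem SH3_sum (D c : Finset (Finset U)) (hD : ∀ t ∈ D, t.card = 3) (hc : c ⊆ D) (v : U) :
    ∑ e ∈ (Es D).filter (fun e => v ∈ e), deg c e = 2 * (c.filter (fun t => v ∈ t)).card := by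
  have h1 : ∀ e, deg c e = ∑ t ∈ c, if e ⊆ t then 1 else 0 := by
    intro e
    rw [deg, Finset.card_filter]
  simp only [h1]
  rw [Finset.sum_comm, Finset.card_filter, Finset.mul_sum]
  refine Finset.sum_congr rfl fun t ht => ?_
  rw [← Finset.card_filter]
  have h2 : ((Es D).filter (fun e => v ∈ e)).filter (fun e => e ⊆ t) =
      (t.powersetCard 2).filter (fun e => v ∈ e) := by
    ext e
    simp only [Finset.mem_filter, Finset.mem_powersetCard]
    constructor
    · rintro ⟨⟨h3, h4⟩, h5⟩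
      obtain ⟨t', ht', h6⟩ := Finset.mem_biUnion.1 h3
      exact ⟨⟨h5, (Finset.mem_powersetCard.1 h6).2⟩, h4⟩
    · rintro ⟨⟨h3, h4⟩, h5⟩
      exact ⟨⟨SH3_mem_Es (hc ht) h4 h3, h5⟩, h3⟩
  rw [h2]
  split_ifs with hv
  · rw [SH3_card t (hD t (hc ht)) v hv, mul_one]
  · rw [mul_zero, Finset.card_eq_zero, Finset.filter_eq_empty_iff]
    intro e he hve
    exact hv ((Finset.mem_powersetCard.1 he).1 hve)

theorem SH3_card_Es {D : Finset (Finset U)} {e : Finset U} (h : e ∈ Es D) : e.card = 2 := by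
  obtain ⟨t', ht', h6⟩ := Finset.mem_biUnion.1 h
  exact (Finset.mem_powersetCard.1 h6).2

theorem SH3_deg_Es {D : Finset (Finset U)} {e : Finset U} (h : e ∈ Es D) : 0 < deg D e := by
  obtain ⟨t', ht', h6⟩ := Finset.mem_biUnion.1 h
  exact SH3_deg_pos ht' (Finset.mem_powersetCard.1 h6).1

/-- the number of boundary edges at a vertex is even -/
theorem SH3_even (D : Finset (Finset U)) (hS : Surf D) (v : U) :
    Even (((Es D).filter (fun e => v ∈ e)).filter (fun e => deg D e = 1)).card := by
  have h1 := SH3_sum D D hS.tri (Finset.Subset.refl D) v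
  have h2 : ∀ e ∈ (Es D).filter (fun e => v ∈ e), deg D e =
      (if deg D e = 1 then 1 else 0) + 2 * (if deg D e = 1 then 0 else 1) := by
    intro e he
    have h3 := (Finset.mem_filter.1 he).1
    have h4 := SH3_deg_Es h3
    have h5 := hS.deg2 e (SH3_card_Es h3)
    split_ifs with h6
    · omega
    · omega
  rw [Finset.sum_congr rfl h2, Finset.sum_add_distrib, ← Finset.card_filter, ← Finset.mul_sum] at h1
  rw [Nat.even_iff]
  omega

end SH3

theorem prfSH3 : S_SH3 := by
  intro U _ D hS hH F hF hFne hcl e he hde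
  have hFE : F ⊆ Es D := by
    intro e he
    obtain ⟨h1, h2⟩ := hF e he
    obtain ⟨t, ht, h3⟩ := SH3_exists (D := D) (e := e) (by omega)
    exact SH3_mem_Es ht h1 h3
  have hev : ∀ v, Even ((F.filter (fun e => v ∈ e)).card) := by
    intro v
    by_cases h0 : (F.filter (fun e => v ∈ e)).Nonempty
    · obtain ⟨e0, he0⟩ := h0
      obtain ⟨h1, h2⟩ := Finset.mem_filter.1 he0
      have h3 : F.filter (fun e => v ∈ e) =
          ((Es D).filter (fun e => v ∈ e)).filter (fun e => deg D e = 1) := by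
        ext e'
        simp only [Finset.mem_filter]
        constructor
        · rintro ⟨h4, h5⟩
          exact ⟨⟨hFE h4, h5⟩, (hF e' h4).2⟩
        · rintro ⟨⟨h4, h5⟩, h6⟩
          exact ⟨hcl e0 h1 e' (SH3_card_Es h4) h6 ⟨v, Finset.mem_inter.2 ⟨h2, h5⟩⟩, h5⟩
      rw [h3]
      exact SH3_even D hS v
    · rw [Finset.not_nonempty_iff_eq_empty] at h0
      rw [h0, Finset.card_empty]
      exact Even.zero
  obtain ⟨c, hcD, hc⟩ := hH F hFE hev
  have hcne : c.Nonempty := by
    obtain ⟨e0, he0⟩ := hFne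
    have h1 := (hc e0 (hFE he0)).1 he0
    obtain ⟨t, ht, -⟩ := SH3_exists (D := c) (e := e0) h1.pos
    exact ⟨t, ht⟩
  have hcD' : c = D := by
    refine hS.dual c hcD hcne ?_
    intro t ht t' ht' e he het het'
    by_cases htt : t = t'
    · rw [← htt]; exact ht
    have h2 : deg D e ≤ 2 := hS.deg2 e he
    have h3 : 2 ≤ deg D e := by
      have h4 : ({t, t'} : Finset (Finset U)) ⊆ D.filter (fun t => e ⊆ t) := by
        intro s hs
        rcases Finset.mem_insert.1 hs with h5 | h5
        · rw [h5]; exact Finset.mem_filter.2 ⟨hcD ht, het⟩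
        · rw [Finset.mem_singleton.1 h5]; exact Finset.mem_filter.2 ⟨ht', het'⟩
      have h5 := Finset.card_le_card h4
      rw [Finset.card_pair htt] at h5
      exact h5
    have h4 : e ∉ F := fun h => by
      have := (hF e h).2
      omega
    have h5 : ¬ Odd (deg c e) := fun h => h4 ((hc e (SH3_mem_Es ht' he het')).2 h)
    have h6 : 0 < deg c e := SH3_deg_pos ht het
    have h7 : 2 ≤ deg c e := by
      rcases Nat.lt_or_ge (deg c e) 2 with h | h
      · exfalso
        apply h5
        have : deg c e = 1 := by omega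
        rw [this]
        exact odd_one
      · exact h
    have h8 : c.filter (fun t => e ⊆ t) = D.filter (fun t => e ⊆ t) := by
      apply Finset.eq_of_subset_of_card_le
      · intro s hs
        obtain ⟨h9, h10⟩ := Finset.mem_filter.1 hs
        exact Finset.mem_filter.2 ⟨hcD h9, h10⟩
      · exact h2.trans h7
    have h9 : t' ∈ c.filter (fun t => e ⊆ t) := by
      rw [h8]; exact Finset.mem_filter.2 ⟨ht', het'⟩
    exact (Finset.mem_filter.1 h9).1
  obtain ⟨t, ht, h3⟩ := SH3_exists (D := D) (e := e) (by omega)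
  refine (hc e (SH3_mem_Es ht he h3)).2 ?_
  rw [hcD', hde]
  exact odd_one

end Pool.Agent.MP552024
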