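import Pool.Agent.Work.MP_552024_lc.Two.StmtsA

/-!
Item SH5: a removable triangle.
-/

set_option autoImplicit false

namespace Pool.Agent.MP552024

namespace ISH5

variable {U : Type} [DecidableEq U]

theorem deg_mono {c D : Finset (Finset U)} (h : c ⊆ D) (e : Finset U) : deg c e ≤ deg D e :=
  Finset.card_le_card (Finset.filter_subset_filter _ h)

theorem deg_pos {c : Finset (Finset U)} {t e : Finset U} (ht : t ∈ c) (he : e ⊆ t) : 0 < deg c e :=
  Finset.card_pos.2 ⟨t, Finset.mem_filter.2 ⟨ht, he⟩⟩

theorem exists_of_pos {c : Finset (Finset U)} {e : Finset U} (h : 0 < deg c e) :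
    ∃ t ∈ c, e ⊆ t := by
  obtain ⟨t, ht⟩ := Finset.card_pos.1 h
  exact ⟨t, (Finset.mem_filter.1 ht).1, (Finset.mem_filter.1 ht).2⟩

theorem all_of_eq {c D : Finset (Finset U)} (h : c ⊆ D) {e : Finset U} (he : deg c e = deg D e)
    {t : Finset U} (ht : t ∈ D) (het : e ⊆ t) : t ∈ c := by
  have h1 : c.filter (fun t => e ⊆ t) = D.filter (fun t => e ⊆ t) :=
    Finset.eq_of_subset_of_card_le (Finset.filter_subset_filter _ h) (le_of_eq he.symm)
  have h2 : t ∈ D.filter (fun t => e ⊆ t) := Finset.mem_filter.2 ⟨ht, het⟩
  rw [← h1] at h2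
  exact (Finset.mem_filter.1 h2).1

theorem eq_of_all {c D : Finset (Finset U)} (h : c ⊆ D) {e : Finset U}
    (ha : ∀ t ∈ D, e ⊆ t → t ∈ c) : deg c e = deg D e := by
  unfold deg
  congr 1
  ext t
  simp only [Finset.mem_filter]
  exact ⟨fun h1 => ⟨h h1.1, h1.2⟩, fun h1 => ⟨ha t h1.1 h1.2, h1.2⟩⟩

theorem zero_of_none {c : Finset (Finset U)} {e : Finset U} (ha : ∀ t ∈ c, e ⊆ t → False) :
    deg c e = 0 := by
  unfold deg
  rw [Finset.card_eq_zero, Finset.filter_eq_empty_iff]
  exact fun t ht het => ha t ht het

theorem none_of_zero {c : Finset (Finset U)} {e : Finset U} (h : deg c e = 0) {t : Finset U}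
    (ht : t ∈ c) (het : e ⊆ t) : False := by
  have := deg_pos ht het
  omega

theorem eq_of_one {D : Finset (Finset U)} {e t t' : Finset U} (h : deg D e = 1) (ht : t ∈ D)
    (het : e ⊆ t) (ht' : t' ∈ D) (het' : e ⊆ t') : t = t' := by
  obtain ⟨s, hs⟩ := Finset.card_eq_one.1 h
  have h1 : t ∈ D.filter (fun t => e ⊆ t) := Finset.mem_filter.2 ⟨ht, het⟩
  have h2 : t' ∈ D.filter (fun t => e ⊆ t) := Finset.mem_filter.2 ⟨ht', het'⟩
  rw [hs, Finset.mem_singleton] at h1 h2
  rw [h1, h2]

/-- the triangle on an edge -/
theorem tri_of_edge {a b : U} (hab : a ≠ b) {t : Finset U} (ht : t.card = 3) (h : {a, b} ⊆ t) :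
    ∃ z, z ≠ a ∧ z ≠ b ∧ t = {a, b, z} := by
  have h1 : (t \ {a, b}).card = 1 := by
    rw [Finset.card_sdiff_of_subset h, ht, Finset.card_pair hab]
  obtain ⟨z, hz⟩ := Finset.card_eq_one.1 h1
  have hz1 : z ∈ t \ {a, b} := by rw [hz]; exact Finset.mem_singleton_self z
  simp only [Finset.mem_sdiff, Finset.mem_insert, Finset.mem_singleton, not_or] at hz1
  refine ⟨z, hz1.2.1, hz1.2.2, ?_⟩
  ext w
  have hw : w ∈ t ↔ w ∈ ({a, b} : Finset U) ∨ w ∈ t \ {a, b} := by
    constructor
    · intro hw
      by_cases hc : w ∈ ({a, b} : Finset U)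
      · exact Or.inl hc
      · exact Or.inr (Finset.mem_sdiff.2 ⟨hw, hc⟩)
    · rintro (hc | hc)
      · exact h hc
      · exact (Finset.mem_sdiff.1 hc).1
  rw [hw, hz]
  simp only [Finset.mem_insert, Finset.mem_singleton]
  tauto

/-- double counting at a vertex -/
theorem count (c : Finset (Finset U)) (x : U) (h3 : ∀ t ∈ c, t.card = 3) :
    ∑ z ∈ (Vs c).erase x, deg c {x, z} = 2 * (c.filter (fun t => x ∈ t)).card := by
  have h1 : ∀ z ∈ (Vs c).erase x, deg c {x, z} =
      ∑ t ∈ c.filter (fun t => x ∈ t), if z ∈ t then 1 else 0 := by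
    intro z _
    unfold deg
    rw [← Finset.card_filter, Finset.filter_filter]
    congr 1
    ext t
    simp only [Finset.mem_filter, Finset.insert_subset_iff, Finset.singleton_subset_iff]
  rw [Finset.sum_congr rfl h1, Finset.sum_comm]
  have h2 : ∀ t ∈ c.filter (fun t => x ∈ t),
      (∑ z ∈ (Vs c).erase x, if z ∈ t then 1 else 0) = 2 := by
    intro t ht
    obtain ⟨htc, hxt⟩ := Finset.mem_filter.1 ht
    rw [← Finset.card_filter]
    have h4 : ((Vs c).erase x).filter (fun z => z ∈ t) = t.erase x := by
      ext z
      simp only [Finset.mem_filter, Finset.mem_erase]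
      constructor
      · rintro ⟨⟨h5, -⟩, h6⟩
        exact ⟨h5, h6⟩
      · rintro ⟨h5, h6⟩
        exact ⟨⟨h5, Finset.mem_biUnion.2 ⟨t, htc, h6⟩⟩, h6⟩
    rw [h4, Finset.card_erase_of_mem hxt, h3 t htc]
  rw [Finset.sum_congr rfl h2, Finset.sum_const, smul_eq_mul, mul_comm]

/-- interior edges with both end points on the boundary -/
def Chord (D : Finset (Finset U)) (g : Finset U) : Prop :=
  ∃ x y : U, x ≠ y ∧ g = {x, y} ∧ deg D g = 2 ∧ (∃ c, c ≠ x ∧ deg D {x, c} = 1) ∧
    ∃ c, c ≠ y ∧ deg D {y, c} = 1

theorem closed_eq {D : Finset (Finset U)} (hD : Surf D) {c : Finset (Finset U)} (hc : c ⊆ D)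
    (hne : c.Nonempty)
    (h : ∀ e : Finset U, e.card = 2 → deg D e = 2 → (deg c e = 0 ∨ deg c e = 2)) : c = D := by
  refine hD.dual c hc hne ?_
  intro t ht t' ht' e he het het'
  have h1 : 0 < deg D e := deg_pos ht' het'
  have h2 := hD.deg2 e he
  rcases Nat.lt_or_ge (deg D e) 2 with h3 | h3
  · have h4 : deg D e = 1 := by omega
    rw [← eq_of_one h4 (hc ht) het ht' het']
    exact ht
  · have h4 : deg D e = 2 := by omega
    rcases h e he h4 with h5 | h5
    · exact (none_of_zero h5 ht het).elim
    · exact all_of_eq hc (by rw [h5, h4]) ht' het'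

theorem piece_one {D : Finset (Finset U)} (hD : Surf D) {g : Finset U} (hg : deg D g = 2)
    {c : Finset (Finset U)} (hp : Piece D g c) : deg c g = 1 := by
  obtain ⟨h1, h2, h3, h4⟩ := hp
  by_contra hne
  refine h3 (closed_eq hD h1 h2 ?_)
  intro e he he2
  by_cases h5 : e = g
  · subst h5
    have := deg_mono h1 e
    omega
  · exact h4 e he h5 he2

end ISH5

open ISH5 in
theorem prfSH5 (h : S_SH4) : S_SH5 := by
  intro U _ D hD hH hcard
  by_contra hcon
  rw [not_or] at hcon
  obtain ⟨hn1, hn2⟩ := hcon
  -- (a)
  have ha : ∀ a b y : U, a ≠ b → y ≠ a → y ≠ b → {a, b, y} ∈ D → deg D {a, y} = 1 →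
      deg D {b, y} = 1 → False := by
    intro a b y hab hya hyb hm hay hby
    have h1 : 0 < deg D {a, b} := deg_pos hm (by
      intro w hw
      simp only [Finset.mem_insert, Finset.mem_singleton] at hw ⊢
      tauto)
    have h2 := hD.deg2 {a, b} (Finset.card_pair hab)
    by_cases h3 : deg D {a, b} = 2
    · exact hn1 ⟨a, b, y, hab, hya, hyb, hm, hay, hby, h3⟩
    · have h4 : deg D {a, b} = 1 := by omega
      have h5 : ({{a, b, y}} : Finset (Finset U)) = D := by
        refine hD.dual _ (Finset.singleton_subset_iff.2 hm) (Finset.singleton_nonempty _) ?_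
        intro t ht t' ht' e he het het'
        rw [Finset.mem_singleton] at ht
        subst ht
        rw [Finset.mem_singleton]
        -- e is one of the three edges
        have h6 : e = {a, b} ∨ e = {a, y} ∨ e = {b, y} := by
          obtain ⟨p, q, hpq, rfl⟩ := Finset.card_eq_two.1 he
          have hp := het (Finset.mem_insert_self p {q})
          have hq := het (Finset.mem_insert_of_mem (Finset.mem_singleton_self q))
          simp only [Finset.mem_insert, Finset.mem_singleton] at hp hq
          rcases hp with rfl | rfl | rfl <;> rcases hq with rfl | rfl | rfl <;>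
            simp_all [Finset.pair_comm]
        rcases h6 with rfl | rfl | rfl
        · exact eq_of_one h4 ht' het' hm het
        · exact eq_of_one hay ht' het' hm het
        · exact eq_of_one hby ht' het' hm het
      rw [← h5, Finset.card_singleton] at hcard
      omega
  -- (b)
  have hb : ∀ a x b : U, a ≠ b → x ≠ a → x ≠ b → {a, x, b} ∈ D → deg D {a, b} = 1 →
      ∃ c, c ≠ x ∧ deg D {x, c} = 1 := by
    intro a x b hab hxa hxb hm hdab
    by_contra hc
    refine hn2 ⟨a, x, b, hab, hxa, hxb, hm, hdab, fun c hc1 hc2 => hc ⟨c, hc1, hc2⟩⟩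
  -- a chord next to a boundary edge
  have hchord : ∀ a b z : U, a ≠ b → z ≠ a → z ≠ b → {a, b, z} ∈ D → deg D {a, b} = 1 →
      Chord D {a, z} := by
    intro a b z hab hza hzb hm hdab
    have h1 : 0 < deg D {a, z} := deg_pos hm (by
      intro w hw
      simp only [Finset.mem_insert, Finset.mem_singleton] at hw ⊢
      tauto)
    have h2 := hD.deg2 {a, z} (Finset.card_pair (Ne.symm hza))
    have h3 : deg D {a, z} ≠ 1 := by
      intro h3
      refine ha b z a (Ne.symm hzb) hab (Ne.symm hza) ?_ (by rwa [Finset.pair_comm]) (by rwa [Finset.pair_comm])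
      have : ({b, z, a} : Finset U) = {a, b, z} := by
        ext w
        simp only [Finset.mem_insert, Finset.mem_singleton]
        tauto
      rwa [this]
    refine ⟨a, z, Ne.symm hza, rfl, by omega, ⟨b, Ne.symm hab, hdab⟩, ?_⟩
    refine hb a z b hab hza hzb ?_ hdab
    have : ({a, z, b} : Finset U) = {a, b, z} := by
      ext w
      simp only [Finset.mem_insert, Finset.mem_singleton]
      tauto
    rwa [this]
  -- a piece for every chord
  have hpiece : ∀ g, Chord D g → ∃ c, Piece D g c := by
    rintro g ⟨x, y, hxy, rfl, hg, hx, hy⟩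
    exact h U D hD hH x y hxy hg hx hy
  -- descent
  have hdesc : ∀ n : ℕ, ∀ g c, Chord D g → Piece D g c → c.card = n → False := by
    intro n
    induction n using Nat.strong_induction_on with
    | _ n ih =>
      intro g c hg hp hcn
      obtain ⟨x, y, hxy, hgxy, hg2, -, -⟩ := hg
      have hd := piece_one hD hg2 hp
      obtain ⟨hcD, hcne, hcne', hpc⟩ := hp
      -- (e)
      obtain ⟨t, htc, e, he, het, hed⟩ : ∃ t ∈ c, ∃ e : Finset U, e.card = 2 ∧ e ⊆ t ∧
          deg D e = 1 := by
        by_contra hno
        have hno' : ∀ t ∈ c, ∀ e : Finset U, e.card = 2 → e ⊆ t → deg D e = 2 := by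
          intro t htc e he het
          have h1 : 0 < deg D e := deg_pos (hcD htc) het
          have h2 := hD.deg2 e he
          have h3 : deg D e ≠ 1 := fun h3 => hno ⟨t, htc, e, he, het, h3⟩
          omega
        have hcount := count c x (fun t ht => hD.tri t (hcD ht))
        obtain ⟨t0, ht0, hgt0⟩ := exists_of_pos (c := c) (e := g) (by omega)
        have hy : y ∈ (Vs c).erase x := by
          refine Finset.mem_erase.2 ⟨Ne.symm hxy, Finset.mem_biUnion.2 ⟨t0, ht0, ?_⟩⟩
          apply hgt0
          rw [hgxy]
          simp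
        rw [← Finset.add_sum_erase _ _ hy] at hcount
        have heven : Even (∑ z ∈ ((Vs c).erase x).erase y, deg c {x, z}) := by
          refine Finset.even_sum _ fun z hz => ?_
          have hzy : z ≠ y := (Finset.mem_erase.1 hz).1
          have hzx : z ≠ x := (Finset.mem_erase.1 (Finset.mem_erase.1 hz).2).1
          rcases Nat.eq_zero_or_pos (deg c {x, z}) with h0 | h0
          · rw [h0]
            exact Even.zero
          · obtain ⟨t, ht, hzt⟩ := exists_of_pos h0
            have h1 := hno' t ht {x, z} (Finset.card_pair (Ne.symm hzx)) hzt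
            have h2 : ({x, z} : Finset U) ≠ g := by
              intro h2
              have h3 : z ∈ g := by
                rw [← h2]
                simp
              rw [hgxy] at h3
              simp only [Finset.mem_insert, Finset.mem_singleton] at h3
              tauto
            rcases hpc {x, z} (Finset.card_pair (Ne.symm hzx)) h2 h1 with h3 | h3
            · rw [h3]
              exact Even.zero
            · rw [h3]
              exact even_two
        have h1 : deg c {x, y} = 1 := by rw [← hgxy]; exact hd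
        rw [h1] at hcount
        obtain ⟨k, hk⟩ := heven
        rw [hk] at hcount
        omega
      -- (f)
      obtain ⟨a, b, hab, rfl⟩ := Finset.card_eq_two.1 he
      obtain ⟨z, hza, hzb, htz⟩ := tri_of_edge hab (hD.tri t (hcD htc)) het
      have htD : {a, b, z} ∈ D := by rw [← htz]; exact hcD htc
      have htD' : {b, a, z} ∈ D := by
        have : ({b, a, z} : Finset U) = {a, b, z} := by
          ext w
          simp only [Finset.mem_insert, Finset.mem_singleton]
          tauto
        rwa [this]
      -- a chord of t different from g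
      obtain ⟨g1, hg1, hg1g, hg1t⟩ : ∃ g1, Chord D g1 ∧ g1 ≠ g ∧ g1 ⊆ t := by
        by_cases h1 : ({a, z} : Finset U) = g
        · refine ⟨{b, z}, hchord b a z (Ne.symm hab) hzb hza htD'
            (by rwa [Finset.pair_comm]), ?_, ?_⟩
          · rw [← h1]
            intro h2
            have h3 : b ∈ ({a, z} : Finset U) := by
              rw [← h2]
              simp
            simp only [Finset.mem_insert, Finset.mem_singleton] at h3
            rcases h3 with h3 | h3
            · exact hab h3.symm
            · exact hzb h3.symm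
          · rw [htz]
            intro w hw
            simp only [Finset.mem_insert, Finset.mem_singleton] at hw ⊢
            tauto
        · refine ⟨{a, z}, hchord a b z hab hza hzb htD hed, h1, ?_⟩
          rw [htz]
          intro w hw
          simp only [Finset.mem_insert, Finset.mem_singleton] at hw ⊢
          tauto
      have hg12 : deg D g1 = 2 := by
        obtain ⟨_, _, _, _, h1, _, _⟩ := hg1
        exact h1
      have hg1c : g1.card = 2 := by
        obtain ⟨p, q, hpq, h1, _, _, _⟩ := hg1
        rw [h1]
        exact Finset.card_pair hpq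
      have hgc : g.card = 2 := by
        rw [hgxy]
        exact Finset.card_pair hxy
      obtain ⟨c1, hp1⟩ := hpiece g1 hg1
      have hd1 := piece_one hD hg12 hp1
      obtain ⟨hc1D, hc1ne, hc1ne', hpc1⟩ := hp1
      -- all triangles at g1 are in c
      have hallc : ∀ s ∈ D, g1 ⊆ s → s ∈ c := by
        intro s hs hgs
        rcases hpc g1 hg1c hg1g hg12 with h1 | h1
        · exact (none_of_zero h1 htc hg1t).elim
        · exact all_of_eq hcD (by rw [h1, hg12]) hs hgs
      -- one of them is in c1, one is not
      obtain ⟨s1, hs1, hgs1⟩ := exists_of_pos (c := c1) (e := g1) (by omega)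
      obtain ⟨s2, hs2D, hgs2, hs2⟩ : ∃ s2 ∈ D, g1 ⊆ s2 ∧ s2 ∉ c1 := by
        by_contra hno
        have h1 : deg c1 g1 = deg D g1 := eq_of_all hc1D fun s hs hgs => by
          by_contra h2
          exact hno ⟨s, hs, hgs, h2⟩
        omega
      have hs1c : s1 ∈ c := hallc s1 (hc1D hs1) hgs1
      have hs2c : s2 ∈ c := hallc s2 hs2D hgs2
      rcases hpc1 g hgc (Ne.symm hg1g) hg2 with h0 | h0
      · -- d = c ∩ c1
        have hlt : (c ∩ c1).card < n := by
          rw [← hcn]
          refine Finset.card_lt_card ⟨Finset.inter_subset_left, fun h1 => ?_⟩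
          exact hs2 (Finset.mem_inter.1 (h1 hs2c)).2
        refine ih _ hlt g1 (c ∩ c1) hg1 ⟨Finset.inter_subset_left.trans hcD,
          ⟨s1, Finset.mem_inter.2 ⟨hs1c, hs1⟩⟩, ?_, ?_⟩ rfl
        · intro h1
          have h2 : s2 ∈ c ∩ c1 := by rw [h1]; exact hs2D
          exact hs2 (Finset.mem_inter.1 h2).2
        · intro e he heg1 he2
          by_cases heg : e = g
          · left
            subst heg
            exact zero_of_none fun s hs hes => none_of_zero h0 (Finset.mem_inter.1 hs).2 hes
          · rcases hpc e he heg he2 with h1 | h1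
            · left
              exact zero_of_none fun s hs hes => none_of_zero h1 (Finset.mem_inter.1 hs).1 hes
            · rcases hpc1 e he heg1 he2 with h3 | h3
              · left
                exact zero_of_none fun s hs hes => none_of_zero h3 (Finset.mem_inter.1 hs).2 hes
              · right
                rw [← he2]
                refine eq_of_all (Finset.inter_subset_left.trans hcD) fun s hs hes => ?_
                exact Finset.mem_inter.2 ⟨all_of_eq hcD (by rw [h1, he2]) hs hes,
                  all_of_eq hc1D (by rw [h3, he2]) hs hes⟩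
      · -- d = c \ c1
        have hlt : (c \ c1).card < n := by
          rw [← hcn]
          refine Finset.card_lt_card ⟨Finset.sdiff_subset, fun h1 => ?_⟩
          exact (Finset.mem_sdiff.1 (h1 hs1c)).2 hs1
        refine ih _ hlt g1 (c \ c1) hg1 ⟨Finset.sdiff_subset.trans hcD,
          ⟨s2, Finset.mem_sdiff.2 ⟨hs2c, hs2⟩⟩, ?_, ?_⟩ rfl
        · intro h1
          have h2 : s1 ∈ c \ c1 := by rw [h1]; exact hc1D hs1
          exact (Finset.mem_sdiff.1 h2).2 hs1
        · intro e he heg1 he2
          by_cases heg : e = g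
          · left
            subst heg
            refine zero_of_none fun s hs hes => ?_
            exact (Finset.mem_sdiff.1 hs).2 (all_of_eq hc1D (by rw [h0, he2])
              (hcD (Finset.mem_sdiff.1 hs).1) hes)
          · rcases hpc e he heg he2 with h1 | h1
            · left
              exact zero_of_none fun s hs hes => none_of_zero h1 (Finset.mem_sdiff.1 hs).1 hes
            · rcases hpc1 e he heg1 he2 with h3 | h3
              · right
                rw [← he2]
                refine eq_of_all (Finset.sdiff_subset.trans hcD) fun s hs hes => ?_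
                exact Finset.mem_sdiff.2 ⟨all_of_eq hcD (by rw [h1, he2]) hs hes,
                  fun h4 => none_of_zero h3 h4 hes⟩
              · left
                refine zero_of_none fun s hs hes => ?_
                exact (Finset.mem_sdiff.1 hs).2 (all_of_eq hc1D (by rw [h3, he2])
                  (hcD (Finset.mem_sdiff.1 hs).1) hes)
  -- a first chord
  obtain ⟨e, he, hed⟩ := hD.bd
  obtain ⟨a, b, hab, rfl⟩ := Finset.card_eq_two.1 he
  obtain ⟨t, htD, het⟩ := exists_of_pos (c := D) (e := {a, b}) (by omega)
  obtain ⟨z, hza, hzb, rfl⟩ := tri_of_edge hab (hD.tri t htD) het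
  have hg := hchord a b z hab hza hzb htD hed
  obtain ⟨c, hc⟩ := hpiece _ hg
  exact hdesc _ _ c hg hc rfl

end Pool.Agent.MP552024
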