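import Pool.Agent.Work.MP_552024_lc.Two.SH67aux

/-!
SH6: remove a triangle with two boundary edges. MP_552024_lc, dimension at most three.
-/

set_option autoImplicit false

namespace Pool.Agent.MP552024

open SHaux

theorem prfSH6 (h1 : S_SH1) (h2 : S_SH2) : S_SH6 := by
  intro U _ D hS hchi a b y hab hya hyb ht day dby dab
  have hH := (h1 U D hS).2 hchi
  set t : Finset U := {a, b, y} with htdef
  have ha : a ∈ t := by simp [htdef]
  have hb : b ∈ t := by simp [htdef]
  have hy : y ∈ t := by simp [htdef]
  have eab : ({a, b} : Finset U) ⊆ t := by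
    intro z hz
    simp only [Finset.mem_insert, Finset.mem_singleton] at hz
    rcases hz with rfl | rfl
    · exact ha
    · exact hb
  have eay : ({a, y} : Finset U) ⊆ t := by
    intro z hz
    simp only [Finset.mem_insert, Finset.mem_singleton] at hz
    rcases hz with rfl | rfl
    · exact ha
    · exact hy
  have eby : ({b, y} : Finset U) ⊆ t := by
    intro z hz
    simp only [Finset.mem_insert, Finset.mem_singleton] at hz
    rcases hz with rfl | rfl
    · exact hb
    · exact hy
  have nyab : y ∉ ({a, b} : Finset U) := by simp [hya, hyb]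
  -- `t` is the only triangle at `y`
  have only : ∀ t' ∈ D, y ∈ t' → t' = t := by
    intro t' ht' hyt'
    have := h2 U D hS hH y {t} (Finset.singleton_subset_iff.2 ht) (Finset.singleton_nonempty _)
      (fun s hs => by rw [Finset.mem_singleton.1 hs]; exact hy)
      (fun s hs s' hs' e he hye hes hes' => by
        rw [Finset.mem_singleton] at hs ⊢
        subst hs
        rcases pairs hes he with rfl | rfl | rfl
        · exact absurd hye nyab
        · exact uniq day ht eay hs' hes'
        · exact uniq dby ht eby hs' hes') t' ht' hyt'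
    exact Finset.mem_singleton.1 this
  set D' := D.erase t with hD'
  have hsub : D' ⊆ D := Finset.erase_subset _ _
  have htD' : t ∉ D' := by simp [hD']
  have mem' : ∀ {s}, s ∈ D → s ≠ t → s ∈ D' := fun hs hst => Finset.mem_erase.2 ⟨hst, hs⟩
  have yV : y ∉ Vs D' := by
    rw [mem_Vs]
    rintro ⟨s, hs, hys⟩
    exact (Finset.mem_erase.1 hs).1 (only s (hsub hs) hys)
  have dab' : deg D' {a, b} = 1 := by
    have := deg_erase ht ({a, b} : Finset U)
    rw [if_pos eab, dab] at this
    rw [hD']
    omega
  obtain ⟨t2, ht2, ht2t, hab2, hoth⟩ := other dab ht eab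
  have ht2' : t2 ∈ D' := mem' ht2 ht2t
  have hAns : ∀ A : Finset (Finset U), A ⊆ D' → t ∉ A := fun A hA h => htD' (hA h)
  -- dual connectedness
  have dual : Dual D' := by
    intro A hA hne hcl
    by_cases h2A : t2 ∈ A
    · have hD : insert t A = D := by
        refine hS.dual _ (Finset.insert_subset_iff.2 ⟨ht, hA.trans hsub⟩) ⟨t, by simp⟩ ?_
        intro s hs s' hs' e he hes hes'
        by_cases hs't : s' = t
        · rw [hs't]; simp
        refine Finset.mem_insert_of_mem ?_
        rcases Finset.mem_insert.1 hs with rfl | hsA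
        · rcases pairs hes he with rfl | rfl | rfl
          · rcases hoth s' hs' hes' with h | h
            · exact absurd h hs't
            · rw [h]; exact h2A
          · exact absurd (uniq day ht eay hs' hes') hs't
          · exact absurd (uniq dby ht eby hs' hes') hs't
        · exact hcl s hsA s' (mem' hs' hs't) e he hes hes'
      rw [hD', ← hD, Finset.erase_insert (hAns A hA)]
    · exfalso
      have hD : A = D := by
        refine hS.dual _ (hA.trans hsub) hne ?_
        intro s hs s' hs' e he hes hes'
        by_cases hs't : s' = t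
        · exfalso
          subst hs't
          have hst : s ≠ t := fun h => hAns A hA (h ▸ hs)
          have hsD : s ∈ D := hsub (hA hs)
          rcases pairs hes' he with rfl | rfl | rfl
          · rcases hoth s hsD hes with h | h
            · exact hst h
            · exact h2A (h ▸ hs)
          · exact hst (uniq day ht eay hsD hes)
          · exact hst (uniq dby ht eby hsD hes)
        · exact hcl s hs s' (mem' hs' hs't) e he hes hes'
      exact hAns A hA (hD ▸ ht)
  have hSurf : Surf D' :=
    { tri := fun s hs => hS.tri s (hsub hs)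
      deg2 := fun e he => (deg_mono hsub e).trans (hS.deg2 e he)
      dual := dual
      bd := ⟨{a, b}, Finset.card_pair hab, dab'⟩ }
  refine ⟨hSurf, ?_, yV, dab'⟩
  -- Euler characteristic
  have ha2 : a ∈ t2 := hab2 (by simp)
  have hb2 : b ∈ t2 := hab2 (by simp)
  have hV : Vs D = insert y (Vs D') := by
    ext v
    rw [Finset.mem_insert, mem_Vs, mem_Vs]
    constructor
    · rintro ⟨s, hs, hv⟩
      by_cases hst : s = t
      · subst hst
        rw [htdef, Finset.mem_insert, Finset.mem_insert, Finset.mem_singleton] at hv
        rcases hv with rfl | rfl | rfl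
        · exact Or.inr ⟨t2, ht2', ha2⟩
        · exact Or.inr ⟨t2, ht2', hb2⟩
        · exact Or.inl rfl
      · exact Or.inr ⟨s, mem' hs hst, hv⟩
    · rintro (rfl | ⟨s, hs, hv⟩)
      · exact ⟨t, ht, hy⟩
      · exact ⟨s, hsub hs, hv⟩
  have nE : ∀ e : Finset U, y ∈ e → e ∉ Es D' := by
    intro e hye he
    obtain ⟨s, hs, hes, -⟩ := mem_Es.1 he
    exact yV (mem_Vs.2 ⟨s, hs, hes hye⟩)
  have hE : Es D = insert {a, y} (insert {b, y} (Es D')) := by
    ext e
    rw [Finset.mem_insert, Finset.mem_insert, mem_Es, mem_Es]
    constructor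
    · rintro ⟨s, hs, hes, he⟩
      by_cases hst : s = t
      · subst hst
        rcases pairs hes he with rfl | rfl | rfl
        · exact Or.inr (Or.inr ⟨t2, ht2', hab2, he⟩)
        · exact Or.inl rfl
        · exact Or.inr (Or.inl rfl)
      · exact Or.inr (Or.inr ⟨s, mem' hs hst, hes, he⟩)
    · rintro (rfl | rfl | ⟨s, hs, hes, he⟩)
      · exact ⟨t, ht, eay, Finset.card_pair hya.symm⟩
      · exact ⟨t, ht, eby, Finset.card_pair hyb.symm⟩
      · exact ⟨s, hsub hs, hes, he⟩
  have hne : ({a, y} : Finset U) ≠ {b, y} := by
    intro h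
    have : a ∈ ({b, y} : Finset U) := h ▸ (by simp)
    simp only [Finset.mem_insert, Finset.mem_singleton] at this
    rcases this with h | h
    · exact hab h
    · exact hya h.symm
  have cV : (Vs D).card = (Vs D').card + 1 := by rw [hV, Finset.card_insert_of_notMem yV]
  have cE : (Es D).card = (Es D').card + 2 := by
    rw [hE, Finset.card_insert_of_notMem, Finset.card_insert_of_notMem (nE _ (by simp))]
    rw [Finset.mem_insert]
    rintro (h | h)
    · exact hne h
    · exact nE _ (by simp) h
  have cD : D.card = D'.card + 1 := by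
    rw [hD', Finset.card_erase_of_mem ht]
    have := Finset.card_pos.2 ⟨t, ht⟩
    omega
  unfold chi at hchi ⊢
  rw [cV, cE, cD] at hchi
  push_cast at hchi
  linarith

end Pool.Agent.MP552024
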