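import Pool.Agent.Work.MP_552024_lc.Two.SH67aux

/-!
SH7: remove a triangle with one boundary edge and interior apex. MP_552024_lc, dimension at most
three.
-/

set_option autoImplicit false

namespace Pool.Agent.MP552024

open SHaux

/-- double counting: the edges at `x` see every triangle of `A` at `x` twice -/
theorem sh7_even {U : Type} [DecidableEq U] {D A : Finset (Finset U)} (x : U)
    (htri : ∀ t ∈ D, t.card = 3) (hA : A ⊆ D) :
    Even (∑ c ∈ (Vs D).erase x, deg A {x, c}) := by
  have h := Finset.sum_card_bipartiteAbove_eq_sum_card_bipartiteBelow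
    (s := (Vs D).erase x) (t := A) (fun (c : U) (s : Finset U) => ({x, c} : Finset U) ⊆ s)
  have h' : ∑ c ∈ (Vs D).erase x, deg A {x, c} =
      ∑ s ∈ A, (((Vs D).erase x).filter (fun c => ({x, c} : Finset U) ⊆ s)).card := h
  rw [h']
  refine Finset.even_sum _ fun s hs => ?_
  by_cases hx : x ∈ s
  · have e : ((Vs D).erase x).filter (fun c => ({x, c} : Finset U) ⊆ s) = s.erase x := by
      ext c
      simp only [Finset.mem_filter, Finset.mem_erase, Finset.insert_subset_iff,
        Finset.singleton_subset_iff]
      constructor
      · rintro ⟨⟨h1, -⟩, -, h3⟩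
        exact ⟨h1, h3⟩
      · rintro ⟨h1, h2⟩
        exact ⟨⟨h1, mem_Vs.2 ⟨s, hA hs, h2⟩⟩, hx, h2⟩
    rw [e, Finset.card_erase_of_mem hx, htri s (hA hs)]
    exact ⟨1, rfl⟩
  · have e : ((Vs D).erase x).filter (fun c => ({x, c} : Finset U) ⊆ s) = ∅ := by
      rw [Finset.filter_eq_empty_iff]
      intro c _ h
      exact hx (h (by simp))
    rw [e]
    simp

theorem prfSH7 : S_SH7 := by
  intro U _ D hS hchi a x b hab hxa hxb ht dab hx
  set t : Finset U := {a, x, b} with htdef
  have ha : a ∈ t := by simp [htdef]
  have hb : b ∈ t := by simp [htdef]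
  have hxt : x ∈ t := by simp [htdef]
  have eab : ({a, b} : Finset U) ⊆ t := by
    intro z hz
    simp only [Finset.mem_insert, Finset.mem_singleton] at hz
    rcases hz with rfl | rfl
    · exact ha
    · exact hb
  have eax : ({a, x} : Finset U) ⊆ t := by
    intro z hz
    simp only [Finset.mem_insert, Finset.mem_singleton] at hz
    rcases hz with rfl | rfl
    · exact ha
    · exact hxt
  have exb : ({x, b} : Finset U) ⊆ t := by
    intro z hz
    simp only [Finset.mem_insert, Finset.mem_singleton] at hz
    rcases hz with rfl | rfl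
    · exact hxt
    · exact hb
  have cax : ({a, x} : Finset U).card = 2 := Finset.card_pair hxa.symm
  have cxb : ({x, b} : Finset U).card = 2 := Finset.card_pair hxb
  have cab : ({a, b} : Finset U).card = 2 := Finset.card_pair hab
  have dax : deg D {a, x} = 2 := by
    have h1 := deg_pos ht eax
    have h2 := hS.deg2 _ cax
    have h3 := hx a hxa.symm
    rw [Finset.pair_comm] at h3
    omega
  have dxb : deg D {x, b} = 2 := by
    have h1 := deg_pos ht exb
    have h2 := hS.deg2 _ cxb
    have h3 := hx b hxb.symm
    omega
  obtain ⟨t1, ht1, ht1t, hax1, hoth1⟩ := other dax ht eax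
  obtain ⟨t2, ht2, ht2t, hxb2, hoth2⟩ := other dxb ht exb
  set D' := D.erase t with hD'
  have hsub : D' ⊆ D := Finset.erase_subset _ _
  have htD' : t ∉ D' := by simp [hD']
  have mem' : ∀ {s}, s ∈ D → s ≠ t → s ∈ D' := fun hs hst => Finset.mem_erase.2 ⟨hst, hs⟩
  have ht1' : t1 ∈ D' := mem' ht1 ht1t
  have ht2' : t2 ∈ D' := mem' ht2 ht2t
  have dax' : deg D' {a, x} = 1 := by
    have := deg_erase ht ({a, x} : Finset U)
    rw [if_pos eax, dax] at this
    rw [hD']
    omega
  have dxb' : deg D' {x, b} = 1 := by
    have := deg_erase ht ({x, b} : Finset U)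
    rw [if_pos exb, dxb] at this
    rw [hD']
    omega
  have dab' : deg D' {a, b} = 0 := by
    have := deg_erase ht ({a, b} : Finset U)
    rw [if_pos eab, dab] at this
    rw [hD']
    omega
  have hAns : ∀ A : Finset (Finset U), A ⊆ D' → t ∉ A := fun A hA h => htD' (hA h)
  have sub_t : ∀ c, c ≠ x → ({x, c} : Finset U) ⊆ t → c = a ∨ c = b := by
    intro c hcx h
    have : c ∈ t := h (by simp)
    rw [htdef, Finset.mem_insert, Finset.mem_insert, Finset.mem_singleton] at this
    rcases this with h | h | h
    · exact Or.inl h
    · exact absurd h hcx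
    · exact Or.inr h
  have hlast : ∀ c, c ≠ x → deg D' {x, c} = 1 → c = a ∨ c = b := by
    intro c hcx hc
    by_contra hcon
    have hns : ¬ ({x, c} : Finset U) ⊆ t := fun h => hcon (sub_t c hcx h)
    have := deg_erase ht ({x, c} : Finset U)
    rw [if_neg hns, add_zero] at this
    exact hx c hcx (this.trans hc)
  -- dual connectedness
  have dual : Dual D' := by
    intro A hA hne hcl
    have hAD : A ⊆ D := hA.trans hsub
    -- degrees in `A` of the two edges
    have degax : deg A {a, x} = if t1 ∈ A then 1 else 0 := by
      split_ifs with h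
      · refine le_antisymm ((deg_mono hA _).trans dax'.le) (deg_pos h hax1)
      · refine deg_zero fun s hs hes => ?_
        rcases hoth1 s (hAD hs) hes with h' | h'
        · exact hAns A hA (h' ▸ hs)
        · exact h (h' ▸ hs)
    have degxb : deg A {x, b} = if t2 ∈ A then 1 else 0 := by
      split_ifs with h
      · refine le_antisymm ((deg_mono hA _).trans dxb'.le) (deg_pos h hxb2)
      · refine deg_zero fun s hs hes => ?_
        rcases hoth2 s (hAD hs) hes with h' | h'
        · exact hAns A hA (h' ▸ hs)
        · exact h (h' ▸ hs)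
    have hev := sh7_even (D := D) (A := A) x hS.tri hAD
    have haN : a ∈ (Vs D).erase x := Finset.mem_erase.2 ⟨hxa.symm, mem_Vs.2 ⟨t, ht, ha⟩⟩
    have hbN : b ∈ ((Vs D).erase x).erase a :=
      Finset.mem_erase.2 ⟨hab.symm, Finset.mem_erase.2 ⟨hxb.symm, mem_Vs.2 ⟨t, ht, hb⟩⟩⟩
    rw [← Finset.add_sum_erase _ _ haN, ← Finset.add_sum_erase _ _ hbN] at hev
    have hrest : Even (∑ c ∈ (((Vs D).erase x).erase a).erase b, deg A {x, c}) := by
      refine Finset.even_sum _ fun c hc => ?_
      obtain ⟨hcb, hc'⟩ := Finset.mem_erase.1 hc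
      obtain ⟨hca, hc''⟩ := Finset.mem_erase.1 hc'
      obtain ⟨hcx, -⟩ := Finset.mem_erase.1 hc''
      have hns : ¬ ({x, c} : Finset U) ⊆ t := fun h => by
        rcases sub_t c hcx h with h | h
        · exact hca h
        · exact hcb h
      have hcard : ({x, c} : Finset U).card = 2 := Finset.card_pair hcx.symm
      by_cases h0 : ∃ s ∈ A, ({x, c} : Finset U) ⊆ s
      · obtain ⟨s, hs, hes⟩ := h0
        have hd1 := deg_pos (hAD hs) hes
        have hd2 := hS.deg2 _ hcard
        have hd3 := hx c hcx
        have hd : deg D {x, c} = 2 := by omega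
        obtain ⟨s', hs', hne', hes', -⟩ := other hd (hAD hs) hes
        have hs't : s' ≠ t := fun h => hns (h ▸ hes')
        have hs'A : s' ∈ A := hcl s hs s' (mem' hs' hs't) _ hcard hes hes'
        have h2 : 2 ≤ deg A {x, c} := by
          have hsubset : ({s, s'} : Finset (Finset U)) ⊆
              A.filter (fun t => ({x, c} : Finset U) ⊆ t) := by
            intro z hz
            rw [Finset.mem_insert, Finset.mem_singleton] at hz
            rw [Finset.mem_filter]
            rcases hz with rfl | rfl
            · exact ⟨hs, hes⟩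
            · exact ⟨hs'A, hes'⟩
          have := Finset.card_le_card hsubset
          rwa [Finset.card_pair hne'.symm] at this
        have h3 := (deg_mono hAD ({x, c} : Finset U)).trans hd2
        have : deg A {x, c} = 2 := le_antisymm h3 h2
        rw [this]
        exact even_two
      · push Not at h0
        rw [deg_zero h0]
        exact Even.zero
    have hpc : deg A {x, a} = deg A {a, x} := by rw [Finset.pair_comm]
    rw [hpc, degax, degxb, ← add_assoc, Nat.even_add] at hev
    have hev' := hev.2 hrest
    have hiff : t1 ∈ A ↔ t2 ∈ A := by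
      by_cases h1 : t1 ∈ A <;> by_cases h2 : t2 ∈ A
      · simp [h1, h2]
      · rw [if_pos h1, if_neg h2] at hev'
        exact absurd hev' (by decide)
      · rw [if_neg h1, if_pos h2] at hev'
        exact absurd hev' (by decide)
      · simp [h1, h2]
    by_cases h1A : t1 ∈ A
    · have h2A := hiff.1 h1A
      have hD : insert t A = D := by
        refine hS.dual _ (Finset.insert_subset_iff.2 ⟨ht, hAD⟩) ⟨t, by simp⟩ ?_
        intro s hs s' hs' e he hes hes'
        by_cases hs't : s' = t
        · rw [hs't]; simp
        refine Finset.mem_insert_of_mem ?_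
        rcases Finset.mem_insert.1 hs with rfl | hsA
        · rcases pairs hes he with rfl | rfl | rfl
          · rcases hoth1 s' hs' hes' with h | h
            · exact absurd h hs't
            · rw [h]; exact h1A
          · exact absurd (uniq dab ht eab hs' hes') hs't
          · rcases hoth2 s' hs' hes' with h | h
            · exact absurd h hs't
            · rw [h]; exact h2A
        · exact hcl s hsA s' (mem' hs' hs't) e he hes hes'
      rw [hD', ← hD, Finset.erase_insert (hAns A hA)]
    · exfalso
      have h2A : t2 ∉ A := fun h => h1A (hiff.2 h)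
      have hD : A = D := by
        refine hS.dual _ hAD hne ?_
        intro s hs s' hs' e he hes hes'
        by_cases hs't : s' = t
        · exfalso
          subst hs't
          have hst : s ≠ t := fun h => hAns A hA (h ▸ hs)
          have hsD : s ∈ D := hAD hs
          rcases pairs hes' he with rfl | rfl | rfl
          · rcases hoth1 s hsD hes with h | h
            · exact hst h
            · exact h1A (h ▸ hs)
          · exact hst (uniq dab ht eab hsD hes)
          · rcases hoth2 s hsD hes with h | h
            · exact hst h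
            · exact h2A (h ▸ hs)
        · exact hcl s hs s' (mem' hs' hs't) e he hes hes'
      exact hAns A hA (hD ▸ ht)
  have hSurf : Surf D' :=
    { tri := fun s hs => hS.tri s (hsub hs)
      deg2 := fun e he => (deg_mono hsub e).trans (hS.deg2 e he)
      dual := dual
      bd := ⟨{a, x}, cax, dax'⟩ }
  refine ⟨hSurf, ?_, dax', dxb', dab', hlast⟩
  -- Euler characteristic
  have hV : Vs D = Vs D' := by
    ext v
    rw [mem_Vs, mem_Vs]
    constructor
    · rintro ⟨s, hs, hv⟩
      by_cases hst : s = t
      · subst hst
        rw [htdef, Finset.mem_insert, Finset.mem_insert, Finset.mem_singleton] at hv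
        rcases hv with rfl | rfl | rfl
        · exact ⟨t1, ht1', hax1 (by simp)⟩
        · exact ⟨t1, ht1', hax1 (by simp)⟩
        · exact ⟨t2, ht2', hxb2 (by simp)⟩
      · exact ⟨s, mem' hs hst, hv⟩
    · rintro ⟨s, hs, hv⟩
      exact ⟨s, hsub hs, hv⟩
  have hE : Es D = insert {a, b} (Es D') := by
    ext e
    rw [Finset.mem_insert, mem_Es, mem_Es]
    constructor
    · rintro ⟨s, hs, hes, he⟩
      by_cases hst : s = t
      · subst hst
        rcases pairs hes he with rfl | rfl | rfl
        · exact Or.inr ⟨t1, ht1', hax1, he⟩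
        · exact Or.inl rfl
        · exact Or.inr ⟨t2, ht2', hxb2, he⟩
      · exact Or.inr ⟨s, mem' hs hst, hes, he⟩
    · rintro (rfl | ⟨s, hs, hes, he⟩)
      · exact ⟨t, ht, eab, cab⟩
      · exact ⟨s, hsub hs, hes, he⟩
  have nE : ({a, b} : Finset U) ∉ Es D' := by
    intro h
    obtain ⟨s, hs, hes, -⟩ := mem_Es.1 h
    have := deg_pos hs hes
    omega
  have cE : (Es D).card = (Es D').card + 1 := by rw [hE, Finset.card_insert_of_notMem nE]
  have cD : D.card = D'.card + 1 := by
    rw [hD', Finset.card_erase_of_mem ht]
    have := Finset.card_pos.2 ⟨t, ht⟩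
    omega
  unfold chi at hchi ⊢
  rw [hV, cE, cD] at hchi
  push_cast at hchi
  linarith

end Pool.Agent.MP552024
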