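import Pool.Agent.Work.MP_552024_lc.Two.StmtsA

/-!
Item SH8: discs are shellable.
-/

set_option autoImplicit false

namespace Pool.Agent.MP552024

theorem prfSH8 (h1 : S_SH1) (h5 : S_SH5) (h6 : S_SH6) (h7 : S_SH7) : S_SH8 := by
  intro U _ D hD hchi
  obtain ⟨n, hn⟩ : ∃ n, D.card = n := ⟨_, rfl⟩
  induction n using Nat.strong_induction_on generalizing D with
  | _ n ih =>
    have hpos : 0 < D.card := by
      obtain ⟨e, -, he⟩ := hD.bd
      unfold deg at he
      have h : 0 < (D.filter (fun t => e ⊆ t)).card := by omega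
      exact lt_of_lt_of_le h (Finset.card_filter_le _ _)
    rcases Nat.lt_or_ge D.card 2 with h2 | h2
    · have h3 : D.card = 1 := by omega
      obtain ⟨t, rfl⟩ := Finset.card_eq_one.1 h3
      have ht := hD.tri t (Finset.mem_singleton_self t)
      obtain ⟨a, b, c, hab, hac, hbc, rfl⟩ := Finset.card_eq_three.1 ht
      exact IsDisc.tri a b c hab hac hbc
    · rcases h5 U D hD ((h1 U D hD).2 hchi) h2 with
        ⟨a, b, y, hab, hya, hyb, hm, hay, hby, hdab⟩ | ⟨a, x, b, hab, hxa, hxb, hm, hdab, hx⟩
      · obtain ⟨hS, hc, hy, hd⟩ := h6 U D hD hchi a b y hab hya hyb hm hay hby hdab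
        have hlt : (D.erase {a, b, y}).card < n := by
          rw [← hn]
          exact Finset.card_erase_lt_of_mem hm
        have hI := ih _ hlt (D.erase {a, b, y}) hS hc rfl
        have h := IsDisc.ear (D.erase {a, b, y}) a b y hI hab hd hy
        rwa [Finset.insert_erase hm] at h
      · obtain ⟨hS, hc, hd1, hd2, hd3, hd4⟩ := h7 U D hD hchi a x b hab hxa hxb hm hdab hx
        have hlt : (D.erase {a, x, b}).card < n := by
          rw [← hn]
          exact Finset.card_erase_lt_of_mem hm
        have hI := ih _ hlt (D.erase {a, x, b}) hS hc rfl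
        have h := IsDisc.fill (D.erase {a, x, b}) a x b hI hab hxa hxb hd1 hd2 hd3 hd4
        rwa [Finset.insert_erase hm] at h

end Pool.Agent.MP552024
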