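import Pool.Agent.Work.MP_552024_lc.Two.StmtsB
import Pool.Agent.Work.MP_552024_lc.Two.StmtsC

/-!
Arcs, truth. MP_552024_lc, dimension at most three.
-/

set_option autoImplicit false

namespace Pool.Agent.MP552024

namespace T2aux

theorem sum_split {V : Type} [Fintype V] (f : V → ℤ) (hf : ∀ x, 0 ≤ f x) (u v : V) (huv : u ≠ v) :
    0 ≤ (∑ x, f x) - f u - f v ∧
    ((∑ x, f x) - f u - f v = 0 ↔ ∀ x, f x ≠ 0 → x = u ∨ x = v) := by
  classical
  have hv : v ∈ (Finset.univ : Finset V).erase u :=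
    Finset.mem_erase.2 ⟨huv.symm, Finset.mem_univ v⟩
  have e : (∑ x, f x) - f u - f v = ∑ x ∈ ((Finset.univ : Finset V).erase u).erase v, f x := by
    rw [← Finset.add_sum_erase _ _ (Finset.mem_univ u), ← Finset.add_sum_erase _ _ hv]
    ring
  rw [e]
  refine ⟨Finset.sum_nonneg fun x _ => hf x, ?_⟩
  rw [Finset.sum_eq_zero_iff_of_nonneg (fun x _ => hf x)]
  constructor
  · intro h x hx
    by_contra hc
    push Not at hc
    exact hx (h x (Finset.mem_erase.2 ⟨hc.2, Finset.mem_erase.2 ⟨hc.1, Finset.mem_univ x⟩⟩))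
  · intro h x hx
    by_contra hc
    obtain ⟨h1, h2⟩ := Finset.mem_erase.1 hx
    rcases h x hc with h3 | h3
    · exact (Finset.mem_erase.1 h2).1 h3
    · exact h1 h3

theorem sum_split1 {V : Type} [Fintype V] (f : V → ℤ) (hf : ∀ x, 0 ≤ f x) (u : V) :
    0 ≤ (∑ x, f x) - f u ∧ ((∀ x, f x ≠ 0 → x = u) → (∑ x, f x) - f u = 0) := by
  classical
  have e : (∑ x, f x) - f u = ∑ x ∈ (Finset.univ : Finset V).erase u, f x := by
    rw [← Finset.add_sum_erase _ _ (Finset.mem_univ u)]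
    ring
  rw [e]
  refine ⟨Finset.sum_nonneg fun x _ => hf x, fun h => Finset.sum_eq_zero fun x hx => ?_⟩
  by_contra hc
  exact (Finset.mem_erase.1 hx).1 (h x hc)

variable {G : Type} [AddCommGroup G] [Lattice G] [IsOrderedAddMonoid G]

open Classical in
theorem hat_lin (M : Mdl G) (h : M.V → G) (hh : Hats2 M h) (w : M.V) :
    M.Lin (h w) (fun i => if i = w then 1 else 0) := by
  intro z hz
  rw [hh w z hz, Finset.sum_eq_single w]
  · simp
  · intro j _ hj
    simp [hj]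
  · intro h; exact absurd (Finset.mem_univ _) h

theorem hat_nonneg (M : Mdl G) (h : M.V → G) (hh : Hats2 M h) (w : M.V) : 0 ≤ h w := by
  refine (hat_lin M h hh w).nonneg' (fun i => ?_)
  split_ifs <;> norm_num

theorem oth2_lin (N : Mdl G) {V : Type} [Fintype V] (h : V → G) (d : V → N.V → ℤ)
    (hd : ∀ w, N.Lin (h w) (d w)) (u v : V) :
    N.Lin (oth2 h u v) (fun i => (∑ x, d x i) - d u i - d v i) :=
  ((Mdl.Lin.sum Finset.univ hd).sub (hd u)).sub (hd v)

theorem oth_lin (N : Mdl G) {V : Type} [Fintype V] (h : V → G) (d : V → N.V → ℤ)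
    (hd : ∀ w, N.Lin (h w) (d w)) (u : V) :
    N.Lin (oth h u) (fun i => (∑ x, d x i) - d u i) :=
  (Mdl.Lin.sum Finset.univ hd).sub (hd u)

open Classical in
theorem part1 (hc : S_connL) (M : Mdl G) (h : M.V → G) (hh : Hats2 M h) (u v : M.V) (huv : u ≠ v)
    (hf : M.Δ.face {u, v}) : Conn (oth2 h u v) := by
  have hL := oth2_lin M h (fun w i => if i = w then 1 else 0) (hat_lin M h hh) u v
  have hs : ∀ i : M.V, 0 ≤ (∑ x : M.V, (if i = x then (1 : ℤ) else 0)) - (if i = u then (1 : ℤ) else 0) -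
      (if i = v then (1 : ℤ) else 0) ∧
      ((∑ x : M.V, (if i = x then (1 : ℤ) else 0)) - (if i = u then (1 : ℤ) else 0) -
      (if i = v then (1 : ℤ) else 0) = 0 ↔ ∀ x : M.V, (if i = x then (1 : ℤ) else 0) ≠ 0 →
        x = u ∨ x = v) :=
    fun i => sum_split (fun x : M.V => if i = x then (1 : ℤ) else 0)
      (fun x => by split_ifs <;> norm_num) u v huv
  have h0 : 0 ≤ oth2 h u v := hL.nonneg' (fun i => (hs i).1)
  rw [hc G M _ _ hL h0]
  rintro A ⟨i, hi⟩ hA hcl j hj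
  have e1 : i = u ∨ i = v := ((hs i).2.1 (hA i hi)) i (by simp)
  have e2 : j = u ∨ j = v := ((hs j).2.1 hj) j (by simp)
  by_cases hij : j = i
  · rw [hij]; exact hi
  · have hff : M.Δ.face {i, j} := by
      rcases e1 with e1 | e1 <;> rcases e2 with e2 | e2
      · exact absurd (e2.trans e1.symm) hij
      · rw [e1, e2]; exact hf
      · rw [e1, e2, Set.pair_comm]; exact hf
      · exact absurd (e2.trans e1.symm) hij
    exact hcl i hi j hj hff

theorem part2 (hc : S_connL) (hi : S_incL) (hl : S_linall) (hg : S_GR) (M : Mdl G) (h : M.V → G)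
    (hh : Hats2 M h) (hdim : M.Δ.Dim2) (u v : M.V) (huv : u ≠ v)
    (hf : M.Δ.face {u, v}) (r : G) (hr : 0 ≤ r) (hconn : Conn r) (h1 : Inc (oth2 h u v) r)
    (h2 : Inc r (oth h u)) (h3 : Inc r (oth h v)) : Inc r (oth2 h u v) := by
  classical
  obtain ⟨N, hMN, hN⟩ := hl G M Unit (fun _ => r)
  obtain ⟨cr, hcr⟩ := hN ()
  have hex : ∀ w, ∃ d, N.Lin (h w) d := fun w => hMN.lin (hat_lin M h hh w)
  choose d hd using hex
  have hdn : ∀ w i, 0 ≤ d w i := fun w => (hd w).nonneg (hat_nonneg M h hh w)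
  have hG : Good M.Δ N.Δ (carr N h) := hg G M h hh hdim N hMN
  have hcar : ∀ i w, w ∈ carr N h i ↔ d w i ≠ 0 := by
    intro i w
    show N.ev (h w) (pt i) ≠ 0 ↔ _
    rw [(hd w).pt i]
    exact Int.cast_ne_zero
  have hL2 := oth2_lin N h d hd u v
  have hs := fun i => sum_split (fun x => d x i) (fun x => hdn x i) u v huv
  have hL2n : 0 ≤ oth2 h u v := hL2.nonneg' (fun i => (hs i).1)
  have hLu := oth_lin N h d hd u
  have hLv := oth_lin N h d hd v
  have hLun : 0 ≤ oth h u :=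
    hLu.nonneg' (fun i => (sum_split1 (fun x => d x i) (fun x => hdn x i) u).1)
  have hLvn : 0 ≤ oth h v :=
    hLv.nonneg' (fun i => (sum_split1 (fun x => d x i) (fun x => hdn x i) v).1)
  have h1' := (hi G N _ _ _ _ hL2 hcr hL2n hr).1 h1
  have h2' := (hi G N _ _ _ _ hcr hLu hr hLun).1 h2
  have h3' := (hi G N _ _ _ _ hcr hLv hr hLvn).1 h3
  -- labels
  have hsub : ∀ i, (∑ x, d x i) - d u i - d v i = 0 ↔ carr N h i ⊆ {u, v} := by
    intro i
    rw [(hs i).2]
    constructor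
    · intro h4 x hx
      exact h4 x ((hcar i x).1 hx)
    · intro h4 x hx
      exact h4 ((hcar i x).2 hx)
  obtain ⟨a, ha, -⟩ := hG.one u
  obtain ⟨b, hb, -⟩ := hG.one v
  have hcra : cr a = 0 := by
    refine h2' a ((sum_split1 (fun x => d x a) (fun x => hdn x a) u).2 fun x hx => ?_)
    have hm : x ∈ carr N h a := (hcar a x).2 hx
    rw [ha] at hm
    exact hm
  have hcrb : cr b = 0 := by
    refine h3' b ((sum_split1 (fun x => d x b) (fun x => hdn x b) v).2 fun x hx => ?_)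
    have hm : x ∈ carr N h b := (hcar b x).2 hx
    rw [hb] at hm
    exact hm
  obtain ⟨m, p, hinj, hp0, hpm, hI, hface⟩ := hG.arc u v a b huv hf ha hb
  have hconn' := (hc G N r cr hcr hr).1 hconn
  have claim : ∀ k, k ≤ m → cr (p k) = 0 := by
    intro k₀ hk₀
    by_contra hne
    have hk0 : k₀ ≠ 0 := by
      rintro rfl
      rw [hp0] at hne
      exact hne hcra
    have hkm : k₀ ≠ m := by
      rintro rfl
      rw [hpm] at hne
      exact hne hcrb
    have hb' := hconn' {i | cr i = 0 ∧ ∃ j, j < k₀ ∧ p j = i} ⟨a, hcra, 0, by omega, hp0⟩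
      (fun i hi => hi.1) ?_ b hcrb
    · obtain ⟨-, j, hj, hjb⟩ := hb'
      have := hinj j m (by omega) le_rfl (hjb.trans hpm.symm)
      omega
    · rintro i ⟨hi0, k, hk, hki⟩ j hj0 hfj
      have hjI : j ∈ {i | carr N h i ⊆ {u, v}} := (hsub j).1 (h1' j hj0)
      obtain ⟨l, hlm, hlj⟩ := (hI j).1 hjI
      rw [← hki, ← hlj, hface k l (by omega) hlm] at hfj
      have hlk : l ≠ k₀ := by
        rintro rfl
        rw [hlj] at hne
        exact hne hj0
      exact ⟨hj0, l, by omega, hlj⟩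
  refine (hi G N _ _ _ _ hcr hL2 hr hL2n).2 (fun i hi0 => ?_)
  obtain ⟨k, hk, hki⟩ := (hI i).1 ((hsub i).1 hi0)
  rw [← hki]
  exact claim k hk

end T2aux

theorem prfT2 (hc : S_connL) (hi : S_incL) (hl : S_linall) (hg : S_GR) : S_T2 := by
  intro G _ _ _ M h hh hdim u v huv hf
  exact ⟨T2aux.part1 hc M h hh u v huv hf, fun r hr h1 h2 h3 h4 =>
    T2aux.part2 hc hi hl hg M h hh hdim u v huv hf r hr h1 h2 h3 h4⟩

end Pool.Agent.MP552024
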