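import Pool.Agent.Work.MP_552024_lc.Two.StmtsC
import Pool.Agent.Work.MP_552024_lc.Two.StmtsB

/-!
MP_552024_lc, item T3 (helper87): the clause r1 holds for hat functions.
-/

set_option autoImplicit false

namespace Pool.Agent.MP552024

theorem prfT3 (hcl : S_clF) (hgr : S_GR) (hl : S_linall) : S_T3 := by
  classical
  intro G _ _ _ M h hH hdim u v w huv huw hvw hface
  have hpos : ∀ x, 0 ≤ h x := fun x => M.chart.nonneg_iff.mpr fun z hz => by
    rw [hH x z hz]
    exact hz.1 x
  have hw0 : 0 ≤ h u ⊓ h v ⊓ h w := le_inf (le_inf (hpos u) (hpos v)) (hpos w)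
  have hq0 : 0 ≤ oth2 h u v := by
    refine M.chart.nonneg_iff.mpr fun z hz => ?_
    unfold oth2
    rw [M.chart.sub _ _ hz, M.chart.sub _ _ hz, M.chart.sum _ _ hz, hH u z hz, hH v z hz]
    have e1 : ∑ i : M.V, M.ev (h i) z = ∑ i : M.V, z i :=
      Finset.sum_congr rfl fun i _ => hH i z hz
    rw [e1]
    have e2 : z u + z v ≤ ∑ i : M.V, z i := by
      rw [← Finset.sum_pair huv (f := z)]
      exact Finset.sum_le_sum_of_subset_of_nonneg (Finset.subset_univ _) fun i _ _ => hz.1 i
    linarith
  obtain ⟨N, hN, hlin⟩ := hl G M Unit (fun _ => h u ⊓ h v ⊓ h w)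
  obtain ⟨cw, hcw⟩ := hlin ()
  -- the hat functions are linear in N
  have hhat : ∀ x, ∃ d : N.V → ℤ, N.Lin (h x) d := by
    intro x
    have : M.Lin (h x) (fun i => if i = x then 1 else 0) := by
      intro z hz
      rw [hH x z hz, Finset.sum_eq_single x]
      · simp
      · intro i _ hi
        simp [hi]
      · intro hv
        exact absurd (Finset.mem_univ _) hv
    exact hN.lin this
  choose d hd using hhat
  have hd0 : ∀ x i, 0 ≤ d x i := fun x i => (hd x).nonneg (hpos x) i
  have hq : N.Lin (oth2 h u v) (fun i => (∑ x, d x i) - d u i - d v i) :=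
    ((Mdl.Lin.sum Finset.univ hd).sub (hd u)).sub (hd v)
  have hgood := hgr G M h hH hdim N hN
  set S := carr N h with hS
  have hSmem : ∀ x i, x ∈ S i ↔ 0 < d x i := by
    intro x i
    rw [hS]
    show N.ev (h x) (pt i) ≠ 0 ↔ _
    rw [(hd x).pt i, Int.cast_ne_zero]
    have := hd0 x i
    constructor
    · intro h1
      omega
    · intro h1
      omega
  rw [hcl G N _ _ cw _ hcw hq hw0 hq0]
  intro s hs hsne hsc
  -- labels of the vertices of s
  have hlab : ∀ i ∈ s, S i ⊆ {u, v} := by
    intro i hi x hx
    by_contra hc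
    simp only [Set.mem_insert_iff, Set.mem_singleton_iff, not_or] at hc
    have h1 := hsc i hi
    have h2 := (hSmem x i).1 hx
    have h3 : d u i + d v i + d x i ≤ ∑ y, d y i := by
      have h4 : ∑ y ∈ ({u, v, x} : Finset M.V), d y i = d u i + d v i + d x i := by
        rw [Finset.sum_insert, Finset.sum_pair (Ne.symm hc.2)]
        · ring
        · simp only [Finset.mem_insert, Finset.mem_singleton, not_or]
          exact ⟨huv, Ne.symm hc.1⟩
      rw [← h4]
      exact Finset.sum_le_sum_of_subset_of_nonneg (Finset.subset_univ _) fun y _ _ => hd0 y i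
    omega
  -- an edge with labels in {u, v}
  obtain ⟨i, j, hij, hsij, hfij, hi, hj⟩ : ∃ i j, i ≠ j ∧ s ⊆ {i, j} ∧ N.Δ.face {i, j} ∧
      S i ⊆ {u, v} ∧ S j ⊆ {u, v} := by
    obtain ⟨i, hi⟩ := hsne
    by_cases hj : ∃ j ∈ s, j ≠ i
    · obtain ⟨j, hj, hji⟩ := hj
      refine ⟨i, j, hji.symm, ?_, N.Δ.down _ _ ?_ hs, hlab i hi, hlab j hj⟩
      · intro k hk
        by_contra hc
        simp only [Set.mem_insert_iff, Set.mem_singleton_iff, not_or] at hc
        refine hgood.flat i j k hji.symm (Ne.symm hc.1) (Ne.symm hc.2) (N.Δ.down _ _ ?_ hs) u v ?_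
        · intro l hl
          simp only [Set.mem_insert_iff, Set.mem_singleton_iff] at hl
          rcases hl with rfl | rfl | rfl
          · exact hi
          · exact hj
          · exact hk
        · exact Set.union_subset (Set.union_subset (hlab i hi) (hlab j hj)) (hlab k hk)
      · intro l hl
        simp only [Set.mem_insert_iff, Set.mem_singleton_iff] at hl
        rcases hl with rfl | rfl
        · exact hi
        · exact hj
    · push Not at hj
      have huvf : M.Δ.face {u, v} := M.Δ.down _ _ (by
        intro x hx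
        simp only [Set.mem_insert_iff, Set.mem_singleton_iff] at hx ⊢
        tauto) hface
      obtain ⟨a, ha, -⟩ := hgood.one u
      obtain ⟨b, hb, -⟩ := hgood.one v
      obtain ⟨m, p, hinj, hp0, hpm, hmem, hadj⟩ := hgood.arc u v a b huv huvf ha hb
      have hab : a ≠ b := by
        rintro rfl
        rw [ha] at hb
        exact huv (Set.singleton_eq_singleton_iff.1 hb)
      have hm : m ≠ 0 := by
        rintro rfl
        exact hab (hp0.symm.trans hpm)
      obtain ⟨k, hk, hki⟩ := (hmem i).1 (hlab i hi)
      have hsi : ∀ j, s ⊆ {i, j} := by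
        intro j l hl
        rw [hj l hl]
        exact Set.mem_insert _ _
      by_cases hkm : k < m
      · refine ⟨i, p (k + 1), ?_, hsi _, ?_, hlab i hi, (hmem _).2 ⟨k + 1, hkm, rfl⟩⟩
        · rw [← hki]
          intro h1
          have := hinj k (k + 1) hk hkm h1
          omega
        · rw [← hki]
          exact (hadj k (k + 1) hk hkm).2 (Or.inr (Or.inr rfl))
      · refine ⟨i, p (k - 1), ?_, hsi _, ?_, hlab i hi, (hmem _).2 ⟨k - 1, by omega, rfl⟩⟩
        · rw [← hki]
          intro h1
          have := hinj k (k - 1) hk (by omega) h1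
          omega
        · rw [← hki]
          exact (hadj k (k - 1) hk (by omega)).2 (Or.inr (Or.inl (by omega)))
  -- the triangle at this edge
  have hw : w ∉ ({u, v} : Set M.V) := by
    simp only [Set.mem_insert_iff, Set.mem_singleton_iff, not_or]
    exact ⟨huw.symm, hvw.symm⟩
  have hsub : S i ∪ S j ⊆ {u, v} := Set.union_subset hi hj
  obtain ⟨k, hki, hkj, hk⟩ := hgood.bd {u, v, w} hface ⟨u, v, w, huv, huw, hvw, rfl⟩ i j hij hfij
    (by
      intro x hx
      have := hsub hx
      simp only [Set.mem_insert_iff, Set.mem_singleton_iff] at this ⊢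
      tauto)
    (by
      intro he
      apply hw
      apply hsub
      rw [he]
      simp)
  obtain ⟨hfk, huni⟩ := (hk k hki hkj).2 rfl
  refine ⟨k, N.Δ.down _ _ ?_ hfk, ?_⟩
  · intro l hl
    rcases hl with rfl | hl
    · simp
    · have := hsij hl
      simp only [Set.mem_insert_iff, Set.mem_singleton_iff] at this ⊢
      tauto
  · -- the value at the centre
    set z : N.V → ℝ := fun l => pt i l + pt j l + pt k l with hz
    have hzZ : z ∈ N.Δ.Z := by
      refine Cx.mem_Z (fun l => ?_) {i, j, k} hfk (fun l hl => ?_)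
      · have := pt_nonneg i l
        have := pt_nonneg j l
        have := pt_nonneg k l
        rw [hz]
        dsimp only
        linarith
      · by_contra hc
        simp only [Set.mem_insert_iff, Set.mem_singleton_iff, not_or] at hc
        apply hl
        rw [hz]
        dsimp only
        rw [pt_ne hc.1, pt_ne hc.2.1, pt_ne hc.2.2]
        norm_num
    have hval : ∀ (g : G) (c : N.V → ℤ), N.Lin g c → N.ev g z = c i + c j + c k := by
      intro g c hg
      rw [hg z hzZ, hz]
      simp only [mul_add, Finset.sum_add_distrib]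
      have e1 : ∀ l : N.V, ∑ x, (c x : ℝ) * pt l x = c l := by
        intro l
        rw [Finset.sum_eq_single l]
        · rw [pt_self, mul_one]
        · intro x _ hx
          rw [pt_ne hx, mul_zero]
        · intro hx
          exact absurd (Finset.mem_univ _) hx
      rw [e1, e1, e1]
    have hposx : ∀ x ∈ ({u, v, w} : Set M.V), 0 < N.ev (h x) z := by
      intro x hx
      rw [hval _ _ (hd x)]
      have h1 := hd0 x i
      have h2 := hd0 x j
      have h3 := hd0 x k
      have h4 : 0 < d x i + d x j + d x k := by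
        rw [← huni] at hx
        rcases hx with (hx | hx) | hx
        · have := (hSmem x i).1 hx
          omega
        · have := (hSmem x j).1 hx
          omega
        · have := (hSmem x k).1 hx
          omega
      exact_mod_cast h4
    have hwpos : 0 < N.ev (h u ⊓ h v ⊓ h w) z := by
      rw [N.chart.inf _ _ hzZ, N.chart.inf _ _ hzZ]
      exact lt_min (lt_min (hposx u (by simp)) (hposx v (by simp))) (hposx w (by simp))
    rw [hval _ _ hcw] at hwpos
    have hzero : ∀ l, S l ⊆ {u, v} → cw l = 0 := by
      intro l hlS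
      have h1 : N.ev (h u ⊓ h v ⊓ h w) (pt l) = cw l := hcw.pt l
      rw [N.chart.inf _ _ (Cx.pt_mem l), (hd w).pt l] at h1
      have h2 : d w l = 0 := by
        have h3 := hd0 w l
        by_contra h4
        exact hw (hlS ((hSmem w l).2 (by omega)))
      rw [h2, Int.cast_zero] at h1
      have h3 : (0 : ℝ) ≤ cw l := by exact_mod_cast hcw.nonneg hw0 l
      have h4 : (cw l : ℝ) ≤ 0 := by
        rw [← h1]
        exact min_le_right _ _
      exact_mod_cast le_antisymm h4 h3
    rw [hzero i hi, hzero j hj] at hwpos
    simpa using hwpos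

end Pool.Agent.MP552024
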