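import Pool.Agent.Work.MP_552024_lc.Two.StmtsB
import Pool.Agent.Work.MP_552024_lc.Two.StmtsC

/-!
T4, T5: at an edge of the zero set there are at most two sides. MP_552024_lc (helper50).
-/

set_option autoImplicit false

namespace Pool.Agent.MP552024

namespace T45

variable {G : Type} [AddCommGroup G] [Lattice G] [IsOrderedAddMonoid G] {M N : Mdl G}
  {h : M.V → G}

omit [IsOrderedAddMonoid G] in
theorem hat_nonneg (hh : Hats2 M h) (x : M.V) : 0 ≤ h x :=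
  M.chart.nonneg_iff.2 fun z hz => by rw [hh x z hz]; exact hz.1 x

omit [IsOrderedAddMonoid G] in
theorem hat_pt_nonneg (hh : Hats2 M h) (x : M.V) (i : N.V) : 0 ≤ N.ev (h x) (pt i) :=
  N.chart.nonneg_iff.1 (hat_nonneg hh x) _ (Cx.pt_mem i)

theorem tri_max {V : Type} {Δ : Cx V} (hd : Δ.Dim2) {u v w : V} (huv : u ≠ v) (huw : u ≠ w)
    (hvw : v ≠ w) {τ : Set V} (hτ : Δ.face τ) (hs : ({u, v, w} : Set V) ⊆ τ) : τ = {u, v, w} := by
  refine Set.Subset.antisymm (fun x hx => ?_) hs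
  by_contra hc
  simp only [Set.mem_insert_iff, Set.mem_singleton_iff, not_or] at hc
  refine hd u v w x huv huw (Ne.symm hc.1) hvw (Ne.symm hc.2.1) (Ne.symm hc.2.2)
    (Δ.down _ _ ?_ hτ)
  rintro y (rfl | rfl | rfl | rfl)
  · exact hs (by simp)
  · exact hs (by simp)
  · exact hs (by simp)
  · exact hx

omit [IsOrderedAddMonoid G] in
theorem face_car (hG : Good M.Δ N.Δ (carr N h)) (k : N.V) : M.Δ.face (carr N h k) := by
  have := hG.car {k} (N.Δ.vert k)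
  simpa [uni] using this

theorem car_tri (hh : Hats2 M h) (hG : Good M.Δ N.Δ (carr N h)) {u v w : M.V} (huv : u ≠ v)
    (huw : u ≠ w) (hvw : v ≠ w) {cw : N.V → ℤ} (hw : N.Lin (h u ⊓ h v ⊓ h w) cw) {k : N.V}
    (hk : cw k ≠ 0) : carr N h k = {u, v, w} := by
  have h1 := hw.pt k
  rw [N.chart.inf _ _ (Cx.pt_mem k), N.chart.inf _ _ (Cx.pt_mem k)] at h1
  have hu := hat_pt_nonneg (N := N) hh u k
  have hv := hat_pt_nonneg (N := N) hh v k
  have hww := hat_pt_nonneg (N := N) hh w k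
  refine tri_max hG.kdim huv huw hvw (face_car hG k) ?_
  rintro x (rfl | rfl | rfl) hx <;> apply hk <;> rw [hx] at h1
  · have : min (min 0 (N.ev (h v) (pt k))) (N.ev (h w) (pt k)) = 0 := by
      rw [min_eq_left hv, min_eq_left hww]
    rw [this] at h1
    exact_mod_cast h1.symm
  · have : min (min (N.ev (h u) (pt k)) 0) (N.ev (h w) (pt k)) = 0 := by
      rw [min_eq_right hu, min_eq_left hww]
    rw [this] at h1
    exact_mod_cast h1.symm
  · have : min (min (N.ev (h u) (pt k)) (N.ev (h v) (pt k))) 0 = 0 :=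
      min_eq_right (le_min hu hv)
    rw [this] at h1
    exact_mod_cast h1.symm

theorem disj {a b : G} {ca cb : N.V → ℤ} (ha : N.Lin a ca) (hb : N.Lin b cb) (ha0 : 0 ≤ a)
    (hb0 : 0 ≤ b) (hab : a ⊓ b = 0) {k l : N.V} (hf : N.Δ.face {k, l}) (hk : 0 < ca k)
    (hl : 0 < cb l) : False := by
  have hz := Cx.pair_mem (a := 1) (b := 1) hf zero_le_one zero_le_one
  have e : ∀ (g : G) (c : N.V → ℤ), N.Lin g c →
      N.ev g (fun x => 1 * pt k x + 1 * pt l x) = c k + c l := by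
    intro g c hg
    have h1 := hg.pt k
    have h2 := hg.pt l
    rw [hg _ (Cx.pt_mem k)] at h1
    rw [hg _ (Cx.pt_mem l)] at h2
    rw [hg _ hz, ← h1, ← h2, ← Finset.sum_add_distrib]
    refine Finset.sum_congr rfl fun x _ => by ring
  have h1 := N.chart.inf a b hz
  rw [hab, N.chart.zero hz, e a ca ha, e b cb hb] at h1
  have h2 : (0 : ℝ) ≤ ca l := by exact_mod_cast ha.nonneg ha0 l
  have h3 : (0 : ℝ) ≤ cb k := by exact_mod_cast hb.nonneg hb0 k
  have h4 : (0 : ℝ) < ca k := by exact_mod_cast hk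
  have h5 : (0 : ℝ) < cb l := by exact_mod_cast hl
  have h6 : (0 : ℝ) < min ((ca k : ℝ) + ca l) ((cb k : ℝ) + cb l) :=
    lt_min (by linarith) (by linarith)
  rw [← h1] at h6
  exact lt_irrefl _ h6

theorem pick (hf : S_clF) {a q : G} {ca cq : N.V → ℤ} (ha : N.Lin a ca) (hq : N.Lin q cq)
    (ha0 : 0 ≤ a) (hq0 : 0 ≤ q) (hcl : Cl a q) {i j : N.V} (hij : N.Δ.face {i, j})
    (hi : cq i = 0) (hj : cq j = 0) : ∃ k, N.Δ.face {i, j, k} ∧ 0 < ca k := by
  obtain ⟨k, hk1, hk2⟩ := (hf G N a q ca cq ha hq ha0 hq0).1 hcl {i, j} hij ⟨i, by simp⟩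
    (by rintro x (rfl | rfl) <;> assumption)
  refine ⟨k, N.Δ.down _ _ ?_ hk1, hk2⟩
  rintro x (rfl | rfl | rfl)
  · exact Or.inr (by simp)
  · exact Or.inr (by simp)
  · exact Or.inl rfl

theorem posC (hi : S_incL) {a t : G} {ca ct : N.V → ℤ} (ha : N.Lin a ca) (ht : N.Lin t ct)
    (ha0 : 0 ≤ a) (ht0 : 0 ≤ t) (hinc : Inc a t) {k : N.V} (hk : 0 < ca k) : ct k ≠ 0 :=
  fun h => by
    have := (hi G N a t ca ct ha ht ha0 ht0).1 hinc k h
    omega

omit [IsOrderedAddMonoid G] in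
theorem uni3 (i j k : N.V) (S : N.V → Set M.V) : uni S {i, j, k} = S i ∪ S j ∪ S k := by
  ext x
  simp [uni, or_assoc]

end T45

open T45

theorem prfT4 (hf : S_clF) (hi : S_incL) (he : S_ctE) (hl : S_linall) (hg : S_GR) : S_T4 := by
  intro G _ _ _ M h hh hd u v w huv huw hvw hface q hq0 hqc hq2 hinc
  rintro ⟨a, b, ⟨ha0, hb0⟩, hab, ⟨hia, hib⟩, hca, hcb⟩
  obtain ⟨N, hMN, hlin⟩ := hl G M (Fin 5) ![q, h u ⊓ h v ⊓ h w, a, b, oth2 h u v]
  have hG := hg G M h hh hd N hMN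
  obtain ⟨cq, lq⟩ := hlin 0
  obtain ⟨cw, lw⟩ := hlin 1
  obtain ⟨ca, la⟩ := hlin 2
  obtain ⟨cb, lb⟩ := hlin 3
  obtain ⟨co, lo⟩ := hlin 4
  simp only [Matrix.cons_val] at lq lw la lb lo
  have hw0 : 0 ≤ h u ⊓ h v ⊓ h w :=
    le_inf (le_inf (hat_nonneg hh u) (hat_nonneg hh v)) (hat_nonneg hh w)
  have hsum : ∀ (z : M.V → ℝ), (∀ x, 0 ≤ z x) → 0 ≤ (∑ x, z x) - z u - z v ∧
      ((∑ x, z x) - z u - z v = 0 → ∀ x, x ≠ u → x ≠ v → z x = 0) := by
    classical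
    intro z hz
    have e : (∑ x, z x) - z u - z v = ∑ x ∈ (Finset.univ.erase u).erase v, z x := by
      have h1 := Finset.add_sum_erase Finset.univ z (Finset.mem_univ u)
      have h2 := Finset.add_sum_erase (Finset.univ.erase u) z
        (Finset.mem_erase.2 ⟨huv.symm, Finset.mem_univ v⟩)
      linarith
    rw [e]
    refine ⟨Finset.sum_nonneg fun x _ => hz x, fun h0 x hxu hxv => ?_⟩
    exact (Finset.sum_eq_zero_iff_of_nonneg fun x _ => hz x).1 h0 x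
      (Finset.mem_erase.2 ⟨hxv, Finset.mem_erase.2 ⟨hxu, Finset.mem_univ x⟩⟩)
  have evo : ∀ (N' : Mdl G) (z : N'.V → ℝ), z ∈ N'.Δ.Z →
      N'.ev (oth2 h u v) z = (∑ x, N'.ev (h x) z) - N'.ev (h u) z - N'.ev (h v) z := by
    intro N' z hz
    rw [oth2, N'.chart.sub _ _ hz, N'.chart.sub _ _ hz, N'.chart.sum _ _ hz]
  have ho0 : 0 ≤ oth2 h u v := M.chart.nonneg_iff.2 fun z hz => by
    rw [evo M z hz]
    refine (hsum (fun x => M.ev (h x) z) fun x => ?_).1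
    exact M.chart.nonneg_iff.1 (hat_nonneg hh x) z hz
  -- labels of the vertices in the zero set of q
  have hlab : ∀ i, cq i = 0 → carr N h i ⊆ {u, v} := by
    intro i h0 x hx
    have h1 : co i = 0 := (hi G N _ _ co cq lo lq ho0 hq0).1 hinc i h0
    have h2 := lo.pt i
    rw [h1, evo N _ (Cx.pt_mem i)] at h2
    by_contra hc
    simp only [Set.mem_insert_iff, Set.mem_singleton_iff, not_or] at hc
    exact hx ((hsum (fun x => N.ev (h x) (pt i)) fun x => hat_pt_nonneg hh x i).2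
      (by simpa using h2) x hc.1 hc.2)
  have htri : ∀ k, cw k ≠ 0 → carr N h k = {u, v, w} := fun k hk =>
    car_tri hh hG huv huw hvw lw hk
  obtain ⟨⟨i, hi0⟩, hedge⟩ := he G N q cq lq hq0 hqc hq2
  obtain ⟨j, hji, hj0, hij⟩ := hedge i hi0
  obtain ⟨ka, hka1, hka2⟩ := pick hf la lq ha0 hq0 hca hij hi0 hj0
  obtain ⟨kb, hkb1, hkb2⟩ := pick hf lb lq hb0 hq0 hcb hij hi0 hj0
  have hCa := htri ka (posC hi la lw ha0 hw0 hia hka2)
  have hCb := htri kb (posC hi lb lw hb0 hw0 hib hkb2)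
  have hw1 : w ∉ ({u, v} : Set M.V) := by simp [huw.symm, hvw.symm]
  have hne : ∀ i k, cq i = 0 → carr N h k = {u, v, w} → k ≠ i := by
    rintro i k h0 hk rfl
    have := hlab k h0
    rw [hk] at this
    exact hw1 (this (by simp))
  have hsub : carr N h i ∪ carr N h j ⊆ {u, v} := Set.union_subset (hlab i hi0) (hlab j hj0)
  have hss : ({u, v} : Set M.V) ⊆ {u, v, w} := by
    rintro x (rfl | rfl) <;> simp
  have hcard : IsTri ({u, v, w} : Set M.V) := ⟨u, v, w, huv, huw, hvw, rfl⟩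
  obtain ⟨k0, -, -, hk0⟩ := hG.bd {u, v, w} hface hcard i j hji.symm hij (hsub.trans hss) (by
    intro h1
    have h2 : w ∈ carr N h i ∪ carr N h j := by rw [h1]; simp
    exact hw1 (hsub h2))
  have hun : ∀ k, carr N h k = {u, v, w} → carr N h i ∪ carr N h j ∪ carr N h k = {u, v, w} := by
    intro k hk
    rw [hk]
    exact Set.union_eq_self_of_subset_left (hsub.trans hss)
  have e1 := (hk0 ka (hne i ka hi0 hCa) (hne j ka hj0 hCa)).1 ⟨hka1, hun ka hCa⟩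
  have e2 := (hk0 kb (hne i kb hi0 hCb) (hne j kb hj0 hCb)).1 ⟨hkb1, hun kb hCb⟩
  have e3 : ka = kb := e1.trans e2.symm
  subst e3
  exact disj la lb ha0 hb0 hab (N.Δ.down _ _ (by simp) (N.Δ.vert ka)) hka2 hkb2

theorem prfT5 (hf : S_clF) (hi : S_incL) (he : S_ctE) (hl : S_linall) (hg : S_GR) : S_T5 := by
  intro G _ _ _ M h hh hd u v w huv huw hvw hface q hq0 hqc hq2
  rintro ⟨a, b, c, ⟨ha0, hb0, hc0⟩, ⟨hab, hac, hbc⟩, ⟨hia, hib, hic⟩, hca, hcb, hcc⟩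
  obtain ⟨N, hMN, hlin⟩ := hl G M (Fin 5) ![q, h u ⊓ h v ⊓ h w, a, b, c]
  have hG := hg G M h hh hd N hMN
  obtain ⟨cq, lq⟩ := hlin 0
  obtain ⟨cw, lw⟩ := hlin 1
  obtain ⟨ca, la⟩ := hlin 2
  obtain ⟨cb, lb⟩ := hlin 3
  obtain ⟨cc, lc⟩ := hlin 4
  simp only [Matrix.cons_val] at lq lw la lb lc
  have hw0 : 0 ≤ h u ⊓ h v ⊓ h w :=
    le_inf (le_inf (hat_nonneg hh u) (hat_nonneg hh v)) (hat_nonneg hh w)
  have htri : ∀ k, cw k ≠ 0 → carr N h k = {u, v, w} := fun k hk =>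
    car_tri hh hG huv huw hvw lw hk
  obtain ⟨⟨i, hi0⟩, hedge⟩ := he G N q cq lq hq0 hqc hq2
  obtain ⟨j, hji, hj0, hij⟩ := hedge i hi0
  obtain ⟨ka, hka1, hka2⟩ := pick hf la lq ha0 hq0 hca hij hi0 hj0
  obtain ⟨kb, hkb1, hkb2⟩ := pick hf lb lq hb0 hq0 hcb hij hi0 hj0
  obtain ⟨kc, hkc1, hkc2⟩ := pick hf lc lq hc0 hq0 hcc hij hi0 hj0
  have hCa := htri ka (posC hi la lw ha0 hw0 hia hka2)
  have hCb := htri kb (posC hi lb lw hb0 hw0 hib hkb2)
  have hCc := htri kc (posC hi lc lw hc0 hw0 hic hkc2)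
  -- none of the three vertices is in {i, j}
  have hout : ∀ {a b : G} {ca cb : N.V → ℤ} {k l : N.V}, N.Lin a ca → N.Lin b cb → 0 ≤ a →
      0 ≤ b → a ⊓ b = 0 → 0 < ca k → 0 < cb l → N.Δ.face {i, j, l} → k ≠ i ∧ k ≠ j := by
    intro a b ca cb k l la lb ha0 hb0 hab hk hl hfl
    constructor
    · rintro rfl
      refine disj la lb ha0 hb0 hab (N.Δ.down _ _ ?_ hfl) hk hl
      rintro x (rfl | rfl) <;> simp
    · rintro rfl
      refine disj la lb ha0 hb0 hab (N.Δ.down _ _ ?_ hfl) hk hl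
      rintro x (rfl | rfl) <;> simp
  have hA := hout la lb ha0 hb0 hab hka2 hkb2 hkb1
  have hB := hout lb la hb0 ha0 (by rw [inf_comm]; exact hab) hkb2 hka2 hka1
  have hC := hout lc la hc0 ha0 (by rw [inf_comm]; exact hac) hkc2 hka2 hka1
  have hdiff : ∀ {a b : G} {ca cb : N.V → ℤ} {k l : N.V}, N.Lin a ca → N.Lin b cb → 0 ≤ a →
      0 ≤ b → a ⊓ b = 0 → 0 < ca k → 0 < cb l → k ≠ l := by
    rintro a b ca cb k l la lb ha0 hb0 hab hk hl rfl
    exact disj la lb ha0 hb0 hab (N.Δ.down _ _ (by simp) (N.Δ.vert k)) hk hl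
  have dab := hdiff la lb ha0 hb0 hab hka2 hkb2
  have dac := hdiff la lc ha0 hc0 hac hka2 hkc2
  have dbc := hdiff lb lc hb0 hc0 hbc hkb2 hkc2
  have hun : ∀ k, N.Δ.face {i, j, k} → carr N h k = {u, v, w} →
      carr N h i ∪ carr N h j ∪ carr N h k = {u, v, w} := by
    intro k hk1 hk2
    have h1 := hG.car _ hk1
    rw [uni3] at h1
    refine tri_max hG.kdim huv huw hvw h1 ?_
    rw [hk2]
    exact Set.subset_union_right
  have hcard : IsTri ({u, v, w} : Set M.V) := ⟨u, v, w, huv, huw, hvw, rfl⟩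
  have hsub : carr N h i ∪ carr N h j ⊆ {u, v, w} := by
    rw [← hun ka hka1 hCa]
    exact Set.subset_union_left
  by_cases hcase : carr N h i ∪ carr N h j = {u, v, w}
  · obtain ⟨k, l, -, -, -, -, -, hkl⟩ := hG.int {u, v, w} hface hcard i j hji.symm hij hcase
    have e1 := (hkl ka hA.1 hA.2).1 hka1
    have e2 := (hkl kb hB.1 hB.2).1 hkb1
    have e3 := (hkl kc hC.1 hC.2).1 hkc1
    rcases e1 with rfl | rfl <;> rcases e2 with rfl | rfl <;> rcases e3 with rfl | rfl <;>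
      first | exact dab rfl | exact dac rfl | exact dbc rfl
  · obtain ⟨k0, -, -, hk0⟩ := hG.bd {u, v, w} hface hcard i j hji.symm hij hsub hcase
    have e1 := (hk0 ka hA.1 hA.2).1 ⟨hka1, hun ka hka1 hCa⟩
    have e2 := (hk0 kb hB.1 hB.2).1 ⟨hkb1, hun kb hkb1 hCb⟩
    exact dab (e1.trans e2.symm)

end Pool.Agent.MP552024
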