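import Pool.Agent.Work.MP_552024_lc.Two.StmtsC
import Pool.Agent.Work.MP_552024_lc.Two.StmtsB

set_option autoImplicit false

/-!
S_T6: the clause r4 for the hat functions of a two-dimensional model (helper59). MP_552024_lc
-/

namespace Pool.Agent.MP552024

namespace T6a

theorem supp3 {V : Type} {Δ : Cx V} (hd : Δ.Dim2) {z : V → ℝ} (hz : z ∈ Δ.Z) {i j k : V}
    (hij : i ≠ j) (hik : i ≠ k) (hjk : j ≠ k) (hi : z i ≠ 0) (hj : z j ≠ 0) (hk : z k ≠ 0)
    (l : V) (hl : z l ≠ 0) : l = i ∨ l = j ∨ l = k := by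
  by_contra hc
  push Not at hc
  refine hd i j k l hij hik (Ne.symm hc.1) hjk (Ne.symm hc.2.1) (Ne.symm hc.2.2) ?_
  refine Cx.face_of_mem hz _ ?_
  intro m hm
  simp only [Set.mem_insert_iff, Set.mem_singleton_iff] at hm
  rcases hm with rfl | rfl | rfl | rfl
  · exact hi
  · exact hj
  · exact hk
  · exact hl

/-- value of the bump function -/
theorem bump_pos {a b c : ℝ} : 0 < min c (max (min a b - c) 0) ↔ 0 < c ∧ c < a ∧ c < b := by
  rw [lt_min_iff, lt_max_iff]
  simp only [lt_irrefl, or_false, sub_pos, lt_min_iff]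

end T6a

open T6a in
theorem prfT6 (hP : S_clP) (he : S_ctE) (hn : S_nzL) (hi : S_inc) (hl : S_linall) (hg : S_GR) :
    S_T6 := by
  classical
  intro G _ _ _ M h hh hM u v w huv huw hvw hf q hq hcon htwo hnz hreg
  have hpos : ∀ x, 0 ≤ h x := fun x => M.chart.nonneg_iff.2 fun z hz => by
    rw [hh x z hz]
    exact hz.1 x
  set w0 := h u ⊓ h v ⊓ h w with hw0
  have hw0p : 0 ≤ w0 := le_inf (le_inf (hpos u) (hpos v)) (hpos w)
  obtain ⟨N, hR, hlin⟩ := hl G M Bool (fun b => cond b q w0)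
  obtain ⟨cq, hcq⟩ := hlin true
  obtain ⟨cw, hcw⟩ := hlin false
  simp only [cond_true, cond_false] at hcq hcw
  have hgood := hg G M h hh hM N hR
  have cq0 : ∀ i, 0 ≤ cq i := hcq.nonneg hq
  have cw0 : ∀ i, 0 ≤ cw i := hcw.nonneg hw0p
  have hsum : ∀ i, 0 < cq i + cw i :=
    (hn G N (q + w0) _ (hcq.add hcw) (add_nonneg hq hw0p)).1 hnz
  have hIw : ∀ i, cq i = 0 → 0 < cw i := fun i h0 => by
    have := hsum i
    omega
  have hσ : IsTri ({u, v, w} : Set M.V) := ⟨u, v, w, huv, huw, hvw, rfl⟩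
  -- carriers
  have hC : ∀ i, cq i = 0 → carr N h i = {u, v, w} := by
    intro i h0
    have h1 : (0 : ℝ) < N.ev w0 (pt i) := by
      rw [hcw.pt]
      exact_mod_cast hIw i h0
    rw [hw0, N.chart.inf _ _ (Cx.pt_mem i), N.chart.inf _ _ (Cx.pt_mem i), lt_min_iff,
      lt_min_iff] at h1
    have h2 : M.Δ.face (carr N h i) := by
      have h3 := hgood.car {i} (N.Δ.vert i)
      refine M.Δ.down _ _ ?_ h3
      intro x hx
      simp only [uni, Set.mem_iUnion]
      exact ⟨i, rfl, hx⟩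
    ext x
    simp only [Set.mem_insert_iff, Set.mem_singleton_iff]
    constructor
    · intro hx
      by_contra hc
      push Not at hc
      refine hM u v w x huv huw (Ne.symm hc.1) hvw (Ne.symm hc.2.1) (Ne.symm hc.2.2) ?_
      refine M.Δ.down _ _ ?_ h2
      intro y hy
      simp only [Set.mem_insert_iff, Set.mem_singleton_iff] at hy
      rcases hy with rfl | rfl | rfl | rfl
      · exact h1.1.1.ne'
      · exact h1.1.2.ne'
      · exact h1.2.ne'
      · exact hx
    · rintro (rfl | rfl | rfl)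
      · exact h1.1.1.ne'
      · exact h1.1.2.ne'
      · exact h1.2.ne'
  -- hat functions of N
  choose x hx using fun i : N.V => N.chart.hat i
  -- (1) no triangle in the zero set
  have hno : ∀ i j k, i ≠ j → i ≠ k → j ≠ k → cq i = 0 → cq j = 0 → cq k = 0 →
      ¬ N.Δ.face {i, j, k} := by
    intro i j k hij hik hjk hi0 hj0 hk0 hface
    have hev : ∀ z ∈ N.Δ.Z, N.ev (x i ⊓ x j ⊓ x k) z = min (min (z i) (z j)) (z k) := by
      intro z hz
      rw [N.chart.inf _ _ hz, N.chart.inf _ _ hz, hx i z hz, hx j z hz, hx k z hz]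
    have h1 : x i ⊓ x j ⊓ x k = 0 := by
      refine hreg _ (N.chart.nonneg_iff.2 fun z hz => ?_) (N.chart.ext fun z hz => ?_)
      · rw [hev z hz]
        exact le_min (le_min (hz.1 i) (hz.1 j)) (hz.1 k)
      · rw [N.chart.inf _ _ hz, hev z hz, N.chart.zero hz]
        have hq0 := N.chart.nonneg_iff.1 hq z hz
        rcases (le_min (le_min (hz.1 i) (hz.1 j)) (hz.1 k)).eq_or_lt with h2 | h2
        · rw [← h2]
          exact min_eq_left hq0
        · rw [lt_min_iff, lt_min_iff] at h2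
          have h3 : N.ev q z = 0 := by
            rw [hcq z hz]
            refine Finset.sum_eq_zero fun l _ => ?_
            by_cases hzl : z l = 0
            · rw [hzl, mul_zero]
            · rcases supp3 hgood.dim hz hij hik hjk h2.1.1.ne' h2.1.2.ne' h2.2.ne' l hzl with
                rfl | rfl | rfl
              · rw [hi0]; simp
              · rw [hj0]; simp
              · rw [hk0]; simp
          rw [h3]
          exact min_eq_right (le_min (le_min (hz.1 i) (hz.1 j)) (hz.1 k))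
    have hz : (fun l => pt i l + pt j l + pt k l) ∈ N.Δ.Z := by
      refine Cx.mem_Z (fun l => add_nonneg (add_nonneg (pt_nonneg _ _) (pt_nonneg _ _))
        (pt_nonneg _ _)) _ hface fun l hl0 => ?_
      by_contra hc
      simp only [Set.mem_insert_iff, Set.mem_singleton_iff, not_or] at hc
      apply hl0
      rw [pt_ne hc.1, pt_ne hc.2.1, pt_ne hc.2.2]
      ring
    have h2 := hev _ hz
    rw [h1, N.chart.zero hz] at h2
    simp only [pt_self, pt_ne hij, pt_ne hij.symm, pt_ne hik, pt_ne hik.symm, pt_ne hjk,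
      pt_ne hjk.symm] at h2
    norm_num at h2
  -- (2) the two sides of an edge
  let P : Set N.V → Prop := fun e => ∃ i j, i ≠ j ∧ cq i = 0 ∧ cq j = 0 ∧ N.Δ.face {i, j} ∧
    e = {i, j}
  have hPe : ∀ e : Set N.V, P e → ∃ kl : N.V × N.V, kl.1 ≠ kl.2 ∧ (kl.1 ∉ e ∧ kl.2 ∉ e) ∧
      (cq kl.1 ≠ 0 ∧ cq kl.2 ≠ 0) ∧ N.Δ.face (insert kl.1 e) ∧ N.Δ.face (insert kl.2 e) := by
    rintro e ⟨i, j, hij, hi0, hj0, hfij, rfl⟩
    obtain ⟨k, l, hkl, hki, hkj, hli, hlj, hm⟩ := hgood.int {u, v, w} hf hσ i j hij hfij (by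
      rw [hC i hi0, hC j hj0, Set.union_self])
    have f1 : N.Δ.face {i, j, k} := (hm k hki hkj).2 (Or.inl rfl)
    have f2 : N.Δ.face {i, j, l} := (hm l hli hlj).2 (Or.inr rfl)
    have hset : ∀ m : N.V, (insert m {i, j} : Set N.V) = {i, j, m} := by
      intro m
      ext y
      simp only [Set.mem_insert_iff, Set.mem_singleton_iff]
      tauto
    refine ⟨(k, l), hkl, ⟨?_, ?_⟩, ⟨?_, ?_⟩, ?_, ?_⟩
    · simp [hki, hkj]
    · simp [hli, hlj]
    · intro hk0
      exact hno i j k hij hki.symm hkj.symm hi0 hj0 hk0 f1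
    · intro hl0
      exact hno i j l hij hli.symm hlj.symm hi0 hj0 hl0 f2
    · rw [hset]; exact f1
    · rw [hset]; exact f2
  obtain ⟨⟨i₀, hi₀⟩, hnb⟩ := he G N q cq hcq hq hcon htwo
  have hne : Nonempty (N.V × N.V) := ⟨(i₀, i₀)⟩
  choose! f hf1 hf2 hf3 hf4 hf5 using hPe
  -- the bump functions
  let B : N.V → N.V → N.V → G := fun i j k => x k ⊓ (((x i ⊓ x j) - x k) ⊔ 0)
  have hB : ∀ i j k, ∀ z ∈ N.Δ.Z, N.ev (B i j k) z =
      min (z k) (max (min (z i) (z j) - z k) 0) := by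
    intro i j k z hz
    show N.ev (x k ⊓ (((x i ⊓ x j) - x k) ⊔ 0)) z = _
    rw [N.chart.inf _ _ hz, N.chart.sup _ _ z hz, N.chart.sub _ _ hz, N.chart.inf _ _ hz,
      N.chart.zero hz, hx i z hz, hx j z hz, hx k z hz]
  have hB0 : ∀ i j k, ∀ z ∈ N.Δ.Z, 0 ≤ N.ev (B i j k) z := by
    intro i j k z hz
    rw [hB i j k z hz]
    exact le_min (hz.1 k) (le_max_right _ _)
  let prs : Finset (N.V × N.V) := Finset.univ.filter fun e => e.1 ≠ e.2 ∧ cq e.1 = 0 ∧
    cq e.2 = 0 ∧ N.Δ.face {e.1, e.2}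
  have hprs : ∀ e, e ∈ prs ↔ (e.1 ≠ e.2 ∧ cq e.1 = 0 ∧ cq e.2 = 0 ∧ N.Δ.face {e.1, e.2}) := by
    intro e
    simp only [prs, Finset.mem_filter, Finset.mem_univ, true_and]
  -- general form for a choice of sides
  let F : (Set N.V → N.V) → G := fun κ => ∑ e ∈ prs, B e.1 e.2 (κ {e.1, e.2})
  have hF : ∀ κ, ∀ z ∈ N.Δ.Z, N.ev (F κ) z = ∑ e ∈ prs, N.ev (B e.1 e.2 (κ {e.1, e.2})) z :=
    fun κ z hz => N.chart.sum _ _ hz
  have hF0 : ∀ κ, 0 ≤ F κ := fun κ => N.chart.nonneg_iff.2 fun z hz => by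
    rw [hF κ z hz]
    exact Finset.sum_nonneg fun e _ => hB0 _ _ _ z hz
  have hFpos : ∀ κ, ∀ z ∈ N.Δ.Z, 0 < N.ev (F κ) z ↔ ∃ e ∈ prs, 0 < z (κ {e.1, e.2}) ∧
      z (κ {e.1, e.2}) < z e.1 ∧ z (κ {e.1, e.2}) < z e.2 := by
    intro κ z hz
    rw [hF κ z hz, Finset.sum_pos_iff_of_nonneg fun e _ => hB0 _ _ _ z hz]
    refine exists_congr fun e => and_congr_right fun _ => ?_
    rw [hB _ _ _ z hz, bump_pos]
  have hInc : ∀ κ, Inc (F κ) w0 := by
    intro κ
    rw [hi G N (F κ) w0 (hF0 κ) hw0p]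
    intro z hz h0
    by_contra hc
    have h1 : 0 < N.ev (F κ) z :=
      lt_of_le_of_ne (N.chart.nonneg_iff.1 (hF0 κ) z hz) (Ne.symm hc)
    obtain ⟨e, he1, he2, he3, he4⟩ := (hFpos κ z hz).1 h1
    have h2 := hIw e.1 ((hprs e).1 he1).2.1
    have h3 : 0 < N.ev w0 z := by
      rw [hcw z hz]
      refine Finset.sum_pos' (fun l _ => mul_nonneg (by exact_mod_cast cw0 l) (hz.1 l))
        ⟨e.1, Finset.mem_univ _, mul_pos (by exact_mod_cast h2) (he2.trans he3)⟩
    exact h3.ne' h0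
  have hCl : ∀ κ : Set N.V → N.V, (∀ e, P e → κ e ∉ e ∧ N.Δ.face (insert (κ e) e)) →
      Cl (F κ) q := by
    intro κ hκ
    refine hP G N (F κ) q hq fun z hz hqz hz0 => ?_
    have hsupp : ∀ l, z l ≠ 0 → cq l = 0 := by
      intro l hl0
      rw [hcq z hz] at hqz
      have h1 := (Finset.sum_eq_zero_iff_of_nonneg fun l _ =>
        mul_nonneg (by exact_mod_cast cq0 l) (hz.1 l)).1 hqz l (Finset.mem_univ _)
      rcases mul_eq_zero.1 h1 with h2 | h2
      · exact_mod_cast h2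
      · exact absurd h2 hl0
    obtain ⟨i, j, hij, hi0, hj0, hfij, hsub⟩ : ∃ i j, i ≠ j ∧ cq i = 0 ∧ cq j = 0 ∧
        N.Δ.face {i, j} ∧ ∀ l, z l ≠ 0 → l = i ∨ l = j := by
      obtain ⟨i, hzi⟩ := hz0
      by_cases hex : ∃ j, j ≠ i ∧ z j ≠ 0
      · obtain ⟨j, hji, hzj⟩ := hex
        refine ⟨i, j, hji.symm, hsupp i hzi, hsupp j hzj, ?_, ?_⟩
        · refine Cx.face_of_mem hz _ fun m hm => ?_
          simp only [Set.mem_insert_iff, Set.mem_singleton_iff] at hm
          rcases hm with rfl | rfl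
          · exact hzi
          · exact hzj
        · intro l hzl
          by_contra hc
          push Not at hc
          refine hno i j l hji.symm (Ne.symm hc.1) (Ne.symm hc.2) (hsupp i hzi) (hsupp j hzj)
            (hsupp l hzl) (Cx.face_of_mem hz _ fun m hm => ?_)
          simp only [Set.mem_insert_iff, Set.mem_singleton_iff] at hm
          rcases hm with rfl | rfl | rfl
          · exact hzi
          · exact hzj
          · exact hzl
      · push Not at hex
        obtain ⟨j, hji, hj0, hfij⟩ := hnb i (hsupp i hzi)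
        refine ⟨i, j, hji.symm, hsupp i hzi, hj0, hfij, fun l hzl => Or.inl ?_⟩
        by_contra hc
        exact hzl (hex l hc)
    obtain ⟨hk1, hk2⟩ := hκ {i, j} ⟨i, j, hij, hi0, hj0, hfij, rfl⟩
    set k := κ {i, j} with hk
    have hki : k ≠ i := fun h0 => hk1 (by rw [h0]; simp)
    have hkj : k ≠ j := fun h0 => hk1 (by rw [h0]; simp)
    have hzk : z k = 0 := by
      by_contra hc
      rcases hsub k hc with h0 | h0
      · exact hki h0
      · exact hkj h0
    refine ⟨fun l => 2 * pt i l + 2 * pt j l + pt k l, fun ε hε => ?_⟩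
    have hZ : (fun l => z l + ε * (2 * pt i l + 2 * pt j l + pt k l)) ∈ N.Δ.Z := by
      refine Cx.mem_Z (fun l => ?_) _ hk2 fun l hl0 => ?_
      · have h1 := pt_nonneg i l
        have h2 := pt_nonneg j l
        have h3 := pt_nonneg k l
        have h4 := hz.1 l
        positivity
      · by_contra hc
        simp only [Set.mem_insert_iff, Set.mem_singleton_iff, not_or] at hc
        apply hl0
        have h1 : z l = 0 := by
          by_contra h2
          rcases hsub l h2 with h3 | h3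
          · exact hc.2.1 h3
          · exact hc.2.2 h3
        rw [pt_ne hc.1, pt_ne hc.2.1, pt_ne hc.2.2, h1]
        ring
    refine ⟨hZ, (hFpos κ _ hZ).2 ⟨(i, j), (hprs _).2 ⟨hij, hi0, hj0, hfij⟩, ?_⟩⟩
    show 0 < z k + ε * (2 * pt i k + 2 * pt j k + pt k k) ∧
      z k + ε * (2 * pt i k + 2 * pt j k + pt k k) < z i + ε * (2 * pt i i + 2 * pt j i + pt k i) ∧
      z k + ε * (2 * pt i k + 2 * pt j k + pt k k) < z j + ε * (2 * pt i j + 2 * pt j j + pt k j)
    rw [pt_self, pt_self, pt_self, pt_ne hki, pt_ne hkj, pt_ne hij, pt_ne hij.symm,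
      pt_ne hki.symm, pt_ne hkj.symm, hzk]
    have h1 := hz.1 i
    have h2 := hz.1 j
    refine ⟨by nlinarith, by nlinarith, by nlinarith⟩
  refine ⟨F fun e => (f e).1, F fun e => (f e).2, ⟨hF0 fun e => (f e).1, hF0 fun e => (f e).2⟩,
    ?_, ⟨hInc fun e => (f e).1, hInc fun e => (f e).2⟩,
    hCl (fun e => (f e).1) fun e hpe => ⟨(hf2 e hpe).1, hf4 e hpe⟩,
    hCl (fun e => (f e).2) fun e hpe => ⟨(hf2 e hpe).2, hf5 e hpe⟩⟩
  refine N.chart.ext fun z hz => ?_
  rw [N.chart.inf _ _ hz, N.chart.zero hz]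
  have ha := N.chart.nonneg_iff.1 (hF0 fun e => (f e).1) z hz
  have hb := N.chart.nonneg_iff.1 (hF0 fun e => (f e).2) z hz
  rcases ha.eq_or_lt with h1 | h1
  · rw [← h1]
    exact min_eq_left hb
  rcases hb.eq_or_lt with h2 | h2
  · rw [← h2]
    exact min_eq_right ha
  exfalso
  obtain ⟨⟨i, j⟩, e1, k0, ki, kj⟩ := (hFpos (fun e => (f e).1) z hz).1 h1
  obtain ⟨⟨i', j'⟩, e2, k0', ki', kj'⟩ := (hFpos (fun e => (f e).2) z hz).1 h2
  obtain ⟨hij, hi0, hj0, hfij⟩ := (hprs _).1 e1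
  obtain ⟨hij', hi0', hj0', hfij'⟩ := (hprs _).1 e2
  simp only at hij hi0 hj0 hfij hij' hi0' hj0' hfij' k0 ki kj k0' ki' kj'
  have hp : P {i, j} := ⟨i, j, hij, hi0, hj0, hfij, rfl⟩
  have hp' : P {i', j'} := ⟨i', j', hij', hi0', hj0', hfij', rfl⟩
  have n1 := (hf2 _ hp).1
  have n2 := (hf2 _ hp').2
  have n3 := hf1 _ hp
  generalize hk : (f {i, j}).1 = k at *
  generalize hk' : (f {i', j'}).2 = k' at *
  simp only [Set.mem_insert_iff, Set.mem_singleton_iff, not_or] at n1 n2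
  have s1 := supp3 hgood.dim hz hij (Ne.symm n1.1) (Ne.symm n1.2) (k0.trans ki).ne'
    (k0.trans kj).ne' k0.ne'
  have s2 := supp3 hgood.dim hz hij' (Ne.symm n2.1) (Ne.symm n2.2) (k0'.trans ki').ne'
    (k0'.trans kj').ne' k0'.ne'
  have hkk : k = k' := by
    by_contra hc
    have h3 : z k < z k' := by
      rcases s1 k' k0'.ne' with h4 | h4 | h4
      · rw [h4]; exact ki
      · rw [h4]; exact kj
      · exact absurd h4.symm hc
    have h5 : z k' < z k := by
      rcases s2 k k0.ne' with h4 | h4 | h4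
      · rw [h4]; exact ki'
      · rw [h4]; exact kj'
      · exact absurd h4 hc
    exact lt_asymm h3 h5
  subst hkk
  have hset : ({i, j} : Set N.V) = {i', j'} := by
    ext l
    simp only [Set.mem_insert_iff, Set.mem_singleton_iff]
    constructor
    · rintro (rfl | rfl)
      · rcases s2 l (k0.trans ki).ne' with h4 | h4 | h4
        · exact Or.inl h4
        · exact Or.inr h4
        · exact absurd h4.symm n1.1
      · rcases s2 l (k0.trans kj).ne' with h4 | h4 | h4
        · exact Or.inl h4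
        · exact Or.inr h4
        · exact absurd h4.symm n1.2
    · rintro (rfl | rfl)
      · rcases s1 l (k0'.trans ki').ne' with h4 | h4 | h4
        · exact Or.inl h4
        · exact Or.inr h4
        · exact absurd h4.symm n2.1
      · rcases s1 l (k0'.trans kj').ne' with h4 | h4 | h4
        · exact Or.inl h4
        · exact Or.inr h4
        · exact absurd h4.symm n2.2
  apply n3
  rw [← hset] at hk'
  rw [hk']

end Pool.Agent.MP552024
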