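import Pool.Agent.Work.MP_552024_lc.Two.StmtsB
import Pool.Agent.Work.MP_552024_lc.Two.StmtsC

/-!
Item T7 of MP_552024_lc (helper28): relation r5 holds in two-dimensional models.
-/

set_option autoImplicit false

namespace Pool.Agent.MP552024

section T7

theorem T7_face_eq {V : Type} {K : Cx V} (hK : K.Dim2) {u v w : V} (huv : u ≠ v) (huw : u ≠ w)
    (hvw : v ≠ w) {τ : Set V} (hτ : K.face τ) (hs : ({u, v, w} : Set V) ⊆ τ) :
    τ = {u, v, w} := by
  refine Set.Subset.antisymm (fun x hx => ?_) hs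
  by_contra hc
  simp only [Set.mem_insert_iff, Set.mem_singleton_iff, not_or] at hc
  refine hK u v w x huv huw (Ne.symm hc.1) hvw (Ne.symm hc.2.1) (Ne.symm hc.2.2)
    (K.down _ _ ?_ hτ)
  rintro y (rfl | rfl | rfl | rfl)
  · exact hs (by simp)
  · exact hs (by simp)
  · exact hs (by simp)
  · exact hx

variable {G : Type} [AddCommGroup G] [Lattice G]

/-- positivity of linear elements -/
theorem T7_pos {N : Mdl G} {g : G} {c : N.V → ℤ} (hg : N.Lin g c) (h0 : 0 ≤ g) {z : N.V → ℝ}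
    (hz : z ∈ N.Δ.Z) : 0 < N.ev g z ↔ ∃ i, z i ≠ 0 ∧ 0 < c i := by
  have hc := fun i => hg.nonneg h0 i
  rw [hg z hz]
  have hnn : ∀ i ∈ Finset.univ, 0 ≤ (c i : ℝ) * z i := fun i _ =>
    mul_nonneg (by exact_mod_cast hc i) (hz.1 i)
  constructor
  · intro h
    by_contra hno
    have hall : ∀ i, (c i : ℝ) * z i = 0 := by
      intro i
      by_cases h1 : z i = 0
      · rw [h1, mul_zero]
      · have h2 : c i = 0 := by
          by_contra h3
          exact hno ⟨i, h1, lt_of_le_of_ne (hc i) (Ne.symm h3)⟩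
        rw [h2]; simp
    rw [Finset.sum_congr rfl (fun i _ => hall i)] at h
    simp at h
  · rintro ⟨i, h1, h2⟩
    have h3 : 0 < (c i : ℝ) * z i :=
      mul_pos (by exact_mod_cast h2) (lt_of_le_of_ne (hz.1 i) (Ne.symm h1))
    exact lt_of_lt_of_le h3 (Finset.single_le_sum hnn (Finset.mem_univ i))

theorem T7_uni_three {V W : Type} (S : W → Set V) (i j k : W) (x : V) :
    x ∈ uni S {i, j, k} ↔ x ∈ S i ∨ x ∈ S j ∨ x ∈ S k := by
  simp [uni]

/-- the sum of the three vertices of a face -/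
theorem T7_three_mem {V : Type} {Δ : Cx V} {i j k : V} (h : Δ.face {i, j, k}) :
    (fun l => pt i l + pt j l + pt k l) ∈ Δ.Z := by
  refine Cx.mem_Z (fun l => add_nonneg (add_nonneg (pt_nonneg _ _) (pt_nonneg _ _))
    (pt_nonneg _ _)) _ h (fun l hl => ?_)
  by_contra hc
  simp only [Set.mem_insert_iff, Set.mem_singleton_iff, not_or] at hc
  apply hl
  rw [pt_ne hc.1, pt_ne hc.2.1, pt_ne hc.2.2]
  ring

theorem prfT7 (hf : S_clF) (hc : S_connL) (ht : S_twoL) (hi : S_inc) (hL : S_incL)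
    (hl : S_linall) (hg : S_GR) : S_T7 := by
  intro G _ _ _ M h hh hdim u v w huv huw hvw hface a b ha hb ha0 hb0 hab hIa hIb hmax
  classical
  have hpos : ∀ x, 0 ≤ h x := fun x => M.chart.nonneg_iff.2 (fun z hz => by
    rw [hh x z hz]; exact hz.1 x)
  have hw0p : 0 ≤ h u ⊓ h v ⊓ h w := le_inf (le_inf (hpos u) (hpos v)) (hpos w)
  obtain ⟨N, hR, hlin⟩ := hl G M (M.V ⊕ Fin 3) (Sum.elim h ![h u ⊓ h v ⊓ h w, a, b])
  obtain ⟨cw, hcw⟩ := hlin (Sum.inr 0)
  obtain ⟨ca, hca⟩ := hlin (Sum.inr 1)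
  obtain ⟨cb, hcb⟩ := hlin (Sum.inr 2)
  have hlinh : ∀ x, ∃ c : N.V → ℤ, N.Lin (h x) c := fun x => hlin (Sum.inl x)
  choose ch hch using hlinh
  replace hcw : N.Lin (h u ⊓ h v ⊓ h w) cw := hcw
  replace hca : N.Lin a ca := hca
  replace hcb : N.Lin b cb := hcb
  have good := hg G M h hh hdim N hR
  have hNdim := good.dim
  have hmemC : ∀ x i, x ∈ carr N h i ↔ 0 < ch x i := by
    intro x i
    show N.ev (h x) (pt i) ≠ 0 ↔ _
    rw [(hch x).pt i]
    have h0 := (hch x).nonneg (hpos x) i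
    constructor
    · intro h1
      have h2 : ch x i ≠ 0 := by
        intro h3; apply h1; rw [h3]; simp
      omega
    · intro h1 h2
      have : ch x i = 0 := by exact_mod_cast h2
      omega
  -- positivity of `w0`
  have hσ : ∀ z ∈ N.Δ.Z, (0 < N.ev (h u ⊓ h v ⊓ h w) z ↔
      ({u, v, w} : Set M.V) ⊆ uni (carr N h) {i | z i ≠ 0}) := by
    intro z hz
    have hx : ∀ x, 0 < N.ev (h x) z ↔ x ∈ uni (carr N h) {i | z i ≠ 0} := by
      intro x
      rw [T7_pos (hch x) (hpos x) hz]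
      simp only [uni, Set.mem_iUnion, Set.mem_ofPred_eq, exists_prop]
      constructor
      · rintro ⟨i, h1, h2⟩; exact ⟨i, h1, (hmemC x i).2 h2⟩
      · rintro ⟨i, h1, h2⟩; exact ⟨i, h1, (hmemC x i).1 h2⟩
    rw [N.chart.inf _ _ hz, N.chart.inf _ _ hz, lt_min_iff, lt_min_iff, hx, hx, hx]
    constructor
    · rintro ⟨⟨h1, h2⟩, h3⟩ y (rfl | rfl | rfl)
      · exact h1
      · exact h2
      · exact h3
    · intro h1
      exact ⟨⟨h1 (by simp), h1 (by simp)⟩, h1 (by simp)⟩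
  have hσtri : IsTri ({u, v, w} : Set M.V) := ⟨u, v, w, huv, huw, hvw, rfl⟩
  -- faces whose label contains the triangle
  have hlab : ∀ s, N.Δ.face s → ({u, v, w} : Set M.V) ⊆ uni (carr N h) s →
      uni (carr N h) s = {u, v, w} := fun s hs h1 =>
    T7_face_eq good.kdim huv huw hvw (good.car s hs) h1
  have hptw : ∀ i, 0 < cw i → carr N h i = {u, v, w} := by
    intro i h1
    have h2 : 0 < N.ev (h u ⊓ h v ⊓ h w) (pt i) := by
      rw [hcw.pt]; exact_mod_cast h1
    have h3 := (hσ _ (Cx.pt_mem i)).1 h2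
    have h4 : uni (carr N h) {j | pt i j ≠ 0} = carr N h i := by
      ext x
      simp only [uni, Set.mem_iUnion, Set.mem_ofPred_eq, exists_prop]
      constructor
      · rintro ⟨j, h5, h6⟩
        have : j = i := by
          by_contra hne
          exact h5 (pt_ne hne)
        rwa [this] at h6
      · intro h5
        exact ⟨i, by rw [pt_self]; exact one_ne_zero, h5⟩
    have h5 : uni (carr N h) {i} = carr N h i := by simp [uni]
    have h6 := hlab {i} (N.Δ.vert i) (by rw [h5, ← h4]; exact h3)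
    rw [← h5]; exact h6
  have hinc : ∀ (g : G) (c : N.V → ℤ), N.Lin g c → 0 ≤ g → Inc g (h u ⊓ h v ⊓ h w) →
      ∀ i, 0 < c i → carr N h i = {u, v, w} := by
    intro g c hgc hg0 hI i hci
    have h1 := (hL G N g (h u ⊓ h v ⊓ h w) c cw hgc hcw hg0 hw0p).1 hI i
    apply hptw
    have h2 := hcw.nonneg hw0p i
    by_contra h3
    have h4 := h1 (by omega)
    omega
  have hca0 := fun i => hca.nonneg ha i
  have hcb0 := fun i => hcb.nonneg hb i
  -- (1) every triangle contains a point of `a` or `b`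
  have one : ∀ t, T3 N.Δ (carr N h) {u, v, w} t → ∃ l ∈ t, 0 < ca l ∨ 0 < cb l := by
    rintro t ⟨⟨i, j, k, hij, hik, hjk, rfl⟩, htf, htu⟩
    by_contra hno
    push Not at hno
    obtain ⟨xi, hxi⟩ := N.chart.hat i
    obtain ⟨xj, hxj⟩ := N.chart.hat j
    obtain ⟨xk, hxk⟩ := N.chart.hat k
    have hev : ∀ z ∈ N.Δ.Z, N.ev (xi ⊓ xj ⊓ xk) z = min (min (z i) (z j)) (z k) := by
      intro z hz
      rw [N.chart.inf _ _ hz, N.chart.inf _ _ hz, hxi z hz, hxj z hz, hxk z hz]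
    have hy0 : 0 ≤ xi ⊓ xj ⊓ xk := N.chart.nonneg_iff.2 (fun z hz => by
      rw [hev z hz]
      exact le_min (le_min (hz.1 i) (hz.1 j)) (hz.1 k))
    have hsub : ∀ z ∈ N.Δ.Z, N.ev (xi ⊓ xj ⊓ xk) z ≠ 0 →
        ({i, j, k} : Set N.V) ⊆ {l | z l ≠ 0} := by
      intro z hz h1
      rw [hev z hz] at h1
      rintro l (rfl | rfl | rfl) h2
      · apply h1
        rw [h2, min_eq_left (hz.1 j), min_eq_left (hz.1 k)]
      · apply h1
        rw [h2, min_eq_right (hz.1 i), min_eq_left (hz.1 k)]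
      · apply h1
        rw [h2, min_eq_right (le_min (hz.1 i) (hz.1 j))]
    have hIy : Inc (xi ⊓ xj ⊓ xk) (h u ⊓ h v ⊓ h w) := by
      refine (hi G N _ _ hy0 hw0p).2 (fun z hz h1 => ?_)
      by_contra h2
      have h3 := hsub z hz h2
      have h4 : ({u, v, w} : Set M.V) ⊆ uni (carr N h) {l | z l ≠ 0} := by
        rw [← htu]
        intro x hx
        simp only [uni, Set.mem_iUnion, exists_prop] at hx ⊢
        obtain ⟨l, h5, h6⟩ := hx
        exact ⟨l, h3 h5, h6⟩
      have h5 := (hσ z hz).2 h4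
      rw [h1] at h5
      exact lt_irrefl _ h5
    have hya : (xi ⊓ xj ⊓ xk) ⊓ (a + b) = 0 := by
      refine N.chart.inj _ (fun z hz => ?_)
      rw [N.chart.inf _ _ hz]
      by_cases h1 : N.ev (xi ⊓ xj ⊓ xk) z = 0
      · rw [h1]
        exact min_eq_left (N.chart.nonneg_iff.1 (add_nonneg ha hb) z hz)
      · have h2 := T7_face_eq hNdim hij hik hjk hz.2 (hsub z hz h1)
        have h3 : N.ev (a + b) z = 0 := by
          rw [(hca.add hcb) z hz]
          refine Finset.sum_eq_zero (fun l _ => ?_)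
          by_cases h4 : z l = 0
          · rw [h4, mul_zero]
          · have h5 : l ∈ ({i, j, k} : Set N.V) := by rw [← h2]; exact h4
            have h6 := hno l h5
            have h7 := hca0 l
            have h8 := hcb0 l
            have h9 : ca l + cb l = 0 := by omega
            show ((ca l + cb l : ℤ) : ℝ) * z l = 0
            rw [h9]; simp
        rw [h3]
        exact min_eq_right (N.chart.nonneg_iff.1 hy0 z hz)
    have hy := hmax _ hy0 hIy hya
    have hzmem := T7_three_mem htf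
    have h1 := hev _ hzmem
    rw [hy, N.chart.zero hzmem] at h1
    simp only [pt_self, pt_ne hij, pt_ne hij.symm, pt_ne hik, pt_ne hik.symm, pt_ne hjk,
      pt_ne hjk.symm] at h1
    norm_num at h1
  -- (2) not both
  have two : ∀ s, N.Δ.face s → ∀ l ∈ s, ∀ l' ∈ s, 0 < ca l → 0 < cb l' → False := by
    intro s hs l hl' l' hl'' h1 h2
    have hfc : N.Δ.face {l, l'} := N.Δ.down _ _ (by
      rintro x (rfl | rfl)
      · exact hl'
      · exact hl'') hs
    have hz := Cx.pair_mem hfc (zero_le_one' ℝ) (zero_le_one' ℝ)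
    have h3 : 0 < N.ev a (fun x => 1 * pt l x + 1 * pt l' x) := by
      rw [T7_pos hca ha hz]
      refine ⟨l, ?_, h1⟩
      rw [pt_self]
      have := pt_nonneg l' l
      linarith
    have h4 : 0 < N.ev b (fun x => 1 * pt l x + 1 * pt l' x) := by
      rw [T7_pos hcb hb hz]
      refine ⟨l', ?_, h2⟩
      rw [pt_self]
      have := pt_nonneg l l'
      linarith
    have h5 := N.chart.inf a b hz
    rw [hab, N.chart.zero hz] at h5
    have h6 := lt_min h3 h4
    rw [← h5] at h6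
    exact lt_irrefl _ h6
  -- (3) existence of triangles
  have three : ∀ (g : G) (c : N.V → ℤ), N.Lin g c → 0 ≤ g → g ≠ 0 →
      Inc g (h u ⊓ h v ⊓ h w) → ∃ t, T3 N.Δ (carr N h) {u, v, w} t ∧ ∃ l ∈ t, 0 < c l := by
    intro g c hgc hg0 hgne hI
    have h1 : ∃ l, 0 < c l := by
      by_contra hno
      push Not at hno
      apply hgne
      refine N.chart.inj _ (fun z hz => ?_)
      rw [hgc z hz]
      refine Finset.sum_eq_zero (fun l _ => ?_)
      have h2 : c l = 0 := le_antisymm (hno l) (hgc.nonneg hg0 l)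
      rw [h2]; simp
    obtain ⟨l, hl0⟩ := h1
    have hCl := hinc g c hgc hg0 hI l hl0
    obtain ⟨j, hjl, hjf⟩ := good.vtx l _ hCl hσtri
    have h2 : uni (carr N h) {l, j} = carr N h l ∪ carr N h j := by
      ext x; simp [uni]
    have h3 : carr N h l ∪ carr N h j = {u, v, w} := by
      rw [← h2]
      refine hlab _ hjf ?_
      rw [h2, ← hCl]
      exact Set.subset_union_left
    obtain ⟨k, k', hkk, hkl, hkj, hk'l, hk'j, hk⟩ :=
      good.int _ hface hσtri l j hjl.symm hjf h3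
    have h4 := (hk k hkl hkj).2 (Or.inl rfl)
    refine ⟨{l, j, k}, ⟨⟨l, j, k, hjl.symm, hkl.symm, hkj.symm, rfl⟩, h4, ?_⟩, l, by simp, hl0⟩
    refine hlab _ h4 ?_
    rw [← hCl]
    intro x hx
    rw [T7_uni_three]
    exact Or.inl hx
  obtain ⟨ta, hta, la, hla, hla0⟩ := three a ca hca ha ha0 hIa
  obtain ⟨tb, htb, lb, hlb, hlb0⟩ := three b cb hcb hb hb0 hIb
  -- (4) a common edge
  have four : ∃ t t', T3 N.Δ (carr N h) {u, v, w} t ∧ T3 N.Δ (carr N h) {u, v, w} t' ∧
      (∃ l ∈ t, 0 < ca l) ∧ (∃ l ∈ t', 0 < cb l) ∧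
      ∃ i j, i ≠ j ∧ i ∈ t ∧ j ∈ t ∧ i ∈ t' ∧ j ∈ t' := by
    by_contra hno
    have hall := good.dual _ hface hσtri
      {t | T3 N.Δ (carr N h) {u, v, w} t ∧ ∃ l ∈ t, 0 < ca l} (fun t ht => ht.1)
      ⟨ta, hta, la, hla, hla0⟩ (by
        rintro t ⟨h1, h2⟩ t' h3 ⟨i, j, h4, h5, h6, h7, h8, h9⟩
        refine ⟨h3, ?_⟩
        by_contra h10
        obtain ⟨l, hl1, hl2⟩ := one t' h3
        have h11 : 0 < cb l := by
          rcases hl2 with hl2 | hl2
          · exact absurd ⟨l, hl1, hl2⟩ h10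
          · exact hl2
        exact hno ⟨t, t', h1, h3, h2, ⟨l, hl1, h11⟩, i, j, h4, h5, h6, h7, h8⟩) tb htb
    obtain ⟨_, l, h1, h2⟩ := hall
    exact two tb htb.2.1 l h1 lb hlb h2 hlb0
  obtain ⟨t, t', ht1, ht2, ⟨l, hl1, hl2⟩, ⟨l', hl1', hl2'⟩, i, j, hij, hit, hjt, hit', hjt'⟩ := four
  obtain ⟨q, hq⟩ := N.exists_lin (fun m => if m = i ∨ m = j then (0 : ℤ) else 1)
  have hq0 : 0 ≤ q := hq.nonneg' (fun m => by split_ifs <;> norm_num)
  have hqz : ∀ m, (fun m => if m = i ∨ m = j then (0 : ℤ) else 1) m = 0 ↔ m = i ∨ m = j := by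
    intro m
    simp only
    split_ifs with h1
    · simp [h1]
    · simp [h1]
  have hfij : N.Δ.face {i, j} := N.Δ.down _ _ (by
    rintro x (rfl | rfl)
    · exact hit
    · exact hjt) ht1.2.1
  refine ⟨q, hq0, ?_, ?_, ?_, ?_⟩
  · refine (hc G N q _ hq hq0).2 ?_
    rintro A ⟨x, hx⟩ hA1 hA2 m hm
    rw [hqz] at hm
    have h1 := (hqz x).1 (hA1 x hx)
    rcases h1 with h1 | h1 <;> rcases hm with h2 | h2
    · rw [h2, ← h1]; exact hx
    · subst h1; subst h2
      exact hA2 _ hx _ ((hqz _).2 (Or.inr rfl)) hfij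
    · subst h1; subst h2
      exact hA2 _ hx _ ((hqz _).2 (Or.inl rfl)) (by rw [Set.pair_comm]; exact hfij)
    · rw [h2, ← h1]; exact hx
  · exact (ht G N q _ hq hq0).2 ⟨i, j, hij, (hqz i).2 (Or.inl rfl), (hqz j).2 (Or.inr rfl)⟩
  · refine (hf G N a q ca _ hca hq ha hq0).2 (fun s hs hsne hs0 => ⟨l, ?_, hl2⟩)
    refine N.Δ.down _ _ ?_ ht1.2.1
    rintro x (rfl | hx)
    · exact hl1
    · rcases (hqz x).1 (hs0 x hx) with h1 | h1
      · rw [h1]; exact hit
      · rw [h1]; exact hjt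
  · refine (hf G N b q cb _ hcb hq hb hq0).2 (fun s hs hsne hs0 => ⟨l', ?_, hl2'⟩)
    refine N.Δ.down _ _ ?_ ht2.2.1
    rintro x (rfl | hx)
    · exact hl1'
    · rcases (hqz x).1 (hs0 x hx) with h1 | h1
      · rw [h1]; exact hit'
      · rw [h1]; exact hjt'

end T7

end Pool.Agent.MP552024
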