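import Pool.Agent.Work.MP_552024_lc.Two.StmtsD

/-!
Labels in a model with a linear solution of `Sig2`. MP_552024_lc (helper72).
-/

set_option autoImplicit false

namespace Pool.Agent.MP552024

theorem prfX1 (h : S_nzL) : S_X1 := by
  classical
  intro H _ _ _ V _ K M s c hS
  have hc0 : ∀ v i, 0 ≤ c v i := fun v i => (hS.lin v).nonneg (hS.sig.pos v) i
  have hlab : ∀ i, ∃ v, 0 < c v i := by
    intro i
    have hsum := Mdl.Lin.sum Finset.univ hS.lin
    have hpos : (0 : H) ≤ ∑ v, s v := Finset.sum_nonneg (fun v _ => hS.sig.pos v)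
    have h1 := (h H M _ _ hsum hpos).1 hS.sig.nz i
    by_contra hcon
    push Not at hcon
    have h2 : ∑ a, c a i ≤ 0 := Finset.sum_nonpos (fun v _ => hcon v)
    linarith
  refine ⟨fun i => hlab i, fun τ hτ => ?_⟩
  set z : M.V → ℝ := fun i => if i ∈ τ then 1 else 0 with hzdef
  have hz : z ∈ M.Δ.Z := by
    refine Cx.mem_Z (fun i => ?_) τ hτ (fun i hi => ?_)
    · simp only [hzdef]
      split_ifs <;> norm_num
    · by_contra hc
      exact hi (by simp [hzdef, hc])
  have hev : ∀ v, v ∈ uni (lab c) τ → 0 < M.ev (s v) z := by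
    intro v hv
    simp only [uni, Set.mem_iUnion] at hv
    obtain ⟨i, hi, hvi⟩ := hv
    rw [hS.lin v z hz]
    refine Finset.sum_pos' (fun j _ => mul_nonneg (by exact_mod_cast hc0 v j) (hz.1 j))
      ⟨i, Finset.mem_univ i, ?_⟩
    have h1 : z i = 1 := by simp [hzdef, hi]
    rw [h1, mul_one]
    exact_mod_cast hvi
  have hinf : ∀ a b : H, 0 < M.ev a z → 0 < M.ev b z → 0 < M.ev (a ⊓ b) z := by
    intro a b ha hb
    rw [M.chart.inf a b hz]
    exact lt_min ha hb
  have hne : ∀ a : H, 0 < M.ev a z → a ≠ 0 := by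
    intro a ha h0
    rw [h0, M.chart.zero hz] at ha
    exact lt_irrefl _ ha
  have h2 : ∀ u ∈ uni (lab c) τ, ∀ v ∈ uni (lab c) τ, u ≠ v → K.face {u, v} := by
    intro u hu v hv huv
    by_contra hcon
    exact hne _ (hinf _ _ (hev u hu) (hev v hv)) (hS.sig.two u v huv hcon)
  have h3 : ∀ u ∈ uni (lab c) τ, ∀ v ∈ uni (lab c) τ, ∀ w ∈ uni (lab c) τ, u ≠ v → u ≠ w → v ≠ w →
      K.face {u, v, w} := by
    intro u hu v hv w hw huv huw hvw
    by_contra hcon
    exact hne _ (hinf _ _ (hinf _ _ (hev u hu) (hev v hv)) (hev w hw))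
      (hS.sig.three u v w huv huw hvw hcon)
  have h4 : ∀ u ∈ uni (lab c) τ, ∀ v ∈ uni (lab c) τ, ∀ w ∈ uni (lab c) τ, ∀ x ∈ uni (lab c) τ,
      u ≠ v → u ≠ w → u ≠ x → v ≠ w → v ≠ x → w ≠ x → False := by
    intro u hu v hv w hw x hx huv huw hux hvw hvx hwx
    exact hne _ (hinf _ _ (hinf _ _ (hinf _ _ (hev u hu) (hev v hv)) (hev w hw)) (hev x hx))
      (hS.sig.four u v w x huv huw hux hvw hvx hwx)
  set U := uni (lab c) τ with hU
  rcases U.eq_empty_or_nonempty with h0 | ⟨u, hu⟩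
  · rw [h0]; exact K.empt
  by_cases hv : ∃ v ∈ U, v ≠ u
  · obtain ⟨v, hv, hvu⟩ := hv
    by_cases hw : ∃ w ∈ U, w ≠ u ∧ w ≠ v
    · obtain ⟨w, hw, hwu, hwv⟩ := hw
      refine K.down _ _ ?_ (h3 u hu v hv w hw hvu.symm hwu.symm hwv.symm)
      intro x hx
      by_contra hcon
      simp only [Set.mem_insert_iff, Set.mem_singleton_iff, not_or] at hcon
      exact h4 u hu v hv w hw x hx hvu.symm hwu.symm (Ne.symm hcon.1) hwv.symm (Ne.symm hcon.2.1)
        (Ne.symm hcon.2.2)
    · refine K.down _ _ ?_ (h2 u hu v hv hvu.symm)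
      intro x hx
      by_contra hcon
      simp only [Set.mem_insert_iff, Set.mem_singleton_iff, not_or] at hcon
      exact hw ⟨x, hx, hcon.1, hcon.2⟩
  · refine K.down _ _ ?_ (K.vert u)
    intro x hx
    by_contra hcon
    exact hv ⟨x, hx, hcon⟩

theorem prfX2 (h' : S_nzL) (h : S_singleL) : S_X2 := by
  classical
  intro H _ _ _ V _ K M s c hs v
  have hnn : ∀ u i, 0 ≤ c u i := fun u i => (hs.lin u).nonneg (hs.sig.pos u) i
  have hlin : M.Lin (oth s v) (fun i => (∑ u, c u i) - c v i) :=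
    (Mdl.Lin.sum Finset.univ hs.lin).sub (hs.lin v)
  have heq : ∀ i, (∑ u, c u i) - c v i = ∑ u ∈ Finset.univ.erase v, c u i := by
    intro i
    rw [← Finset.add_sum_erase _ _ (Finset.mem_univ v)]
    ring
  have hnn' : ∀ i, 0 ≤ (∑ u, c u i) - c v i := by
    intro i
    rw [heq i]
    exact Finset.sum_nonneg (fun u _ => hnn u i)
  have hoth : 0 ≤ oth s v := hlin.nonneg' hnn'
  obtain ⟨i, hi, huniq⟩ := (h H M _ _ hlin hoth).1 (hs.sig.single v)
  have hnz : ∀ i, 0 < ∑ u, c u i := by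
    have hl : M.Lin (∑ u, s u) (fun i => ∑ u, c u i) := Mdl.Lin.sum Finset.univ hs.lin
    refine (h' H M _ _ hl ?_).1 hs.sig.nz
    exact hl.nonneg' (fun i => Finset.sum_nonneg (fun u _ => hnn u i))
  have key : ∀ j, lab c j = {v} ↔ (∑ u, c u j) - c v j = 0 := by
    intro j
    rw [heq j, Finset.sum_eq_zero_iff_of_nonneg (fun u _ => hnn u j)]
    constructor
    · intro hj u hu
      have h1 : u ∉ lab c j := by
        rw [hj]
        exact (Finset.mem_erase.1 hu).1
      have h2 : ¬ 0 < c u j := h1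
      exact le_antisymm (not_lt.1 h2) (hnn u j)
    · intro hj
      have hv : 0 < c v j := by
        have h1 := hnz j
        rw [← Finset.add_sum_erase _ _ (Finset.mem_univ v), Finset.sum_eq_zero hj, add_zero] at h1
        exact h1
      ext u
      constructor
      · intro hu
        by_contra hne
        have h1 := hj u (Finset.mem_erase.2 ⟨hne, Finset.mem_univ u⟩)
        have h2 : 0 < c u j := hu
        omega
      · intro hu
        have h1 : u = v := hu
        rw [h1]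
        exact hv
  refine ⟨i, (key i).2 hi, fun j hj => huniq j ((key j).1 hj)⟩

end Pool.Agent.MP552024
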