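import Pool.Agent.Work.MP_552024_lc.Two.StmtsC
import Pool.Agent.Work.MP_552024_lc.Two.StmtsD

/-!
X4: no faces with four vertices. MP_552024_lc (helper40).
-/

set_option autoImplicit false

namespace Pool.Agent.MP552024

section X4

variable {H : Type} [AddCommGroup H] [Lattice H] [IsOrderedAddMonoid H]

lemma x4_real1 {x y W : ℝ} (hW : 0 ≤ W) (h : x ≤ 0 ∨ y ≤ 0) :
    min (min (max x 0) W) (min (max y 0) W) = 0 := by
  rcases h with h | h
  · rw [max_eq_right h, min_eq_left hW]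
    exact min_eq_left (le_min (le_max_right _ _) hW)
  · rw [max_eq_right h, min_eq_left hW]
    exact min_eq_right (le_min (le_max_right _ _) hW)

/-- points near a point of the edge `{i, j}` -/
lemma x4_pt (N : Mdl H) {i j k l : N.V} (hik : i ≠ k) (hil : i ≠ l)
    (hjk : j ≠ k) (hjl : j ≠ l) (hkl : k ≠ l) (hf : N.Δ.face {i, j, k, l}) {z : N.V → ℝ}
    (hz : z ∈ N.Δ.Z) (hz0 : ∀ m, m ≠ i → m ≠ j → z m = 0) {α β ε : ℝ} (hα : 0 < α) (hβ : 0 < β)
    (hε : 0 < ε) :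
    (fun m => z m + ε * (pt i m + pt j m + α * pt k m + β * pt l m)) ∈ N.Δ.Z ∧
    (∀ m ∈ ({i, j, k, l} : Set N.V), 0 < z m + ε * (pt i m + pt j m + α * pt k m + β * pt l m)) ∧
    z k + ε * (pt i k + pt j k + α * pt k k + β * pt l k) = ε * α ∧
    z l + ε * (pt i l + pt j l + α * pt k l + β * pt l l) = ε * β := by
  have hnn : ∀ m, 0 ≤ pt i m + pt j m + α * pt k m + β * pt l m := fun m =>
    add_nonneg (add_nonneg (add_nonneg (pt_nonneg _ _) (pt_nonneg _ _))
      (mul_nonneg hα.le (pt_nonneg _ _))) (mul_nonneg hβ.le (pt_nonneg _ _))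
  refine ⟨?_, ?_, ?_, ?_⟩
  · refine Cx.mem_Z (fun m => add_nonneg (hz.1 m) (mul_nonneg hε.le (hnn m))) _ hf (fun m hm => ?_)
    by_contra hc
    simp only [Set.mem_insert_iff, Set.mem_singleton_iff, not_or] at hc
    apply hm
    rw [hz0 m hc.1 hc.2.1, pt_ne hc.1, pt_ne hc.2.1, pt_ne hc.2.2.1, pt_ne hc.2.2.2]
    ring
  · intro m hm
    refine add_pos_of_nonneg_of_pos (hz.1 m) (mul_pos hε ?_)
    have h1 := pt_nonneg i m
    have h2 := pt_nonneg j m
    have h3 := mul_nonneg hα.le (pt_nonneg k m)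
    have h4 := mul_nonneg hβ.le (pt_nonneg l m)
    rcases hm with rfl | rfl | rfl | hm
    · rw [pt_self]; linarith
    · rw [pt_self m]; linarith
    · rw [pt_self m]; linarith
    · have hm' : m = l := hm
      subst hm'
      rw [pt_self m]; linarith
  · rw [hz0 k hik.symm hjk.symm, pt_ne hik.symm, pt_ne hjk.symm, pt_self, pt_ne hkl]
    ring
  · rw [hz0 l hil.symm hjl.symm, pt_ne hil.symm, pt_ne hjl.symm, pt_self, pt_ne hkl.symm]
    ring

end X4

theorem prfX4 (h1 : S_X1) (h2 : S_X2) (h3 : S_X3) (hP : S_clP) (hc : S_connL) (ht : S_twoL)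
    (hi : S_inc) : S_X4 := by
  classical
  intro H _ _ _ V _ K N s c hS i j k l hij hik hil hjk hjl hkl hf
  obtain ⟨hne, hcar⟩ := h1 H V K N s c hS
  have hU := hcar _ hf
  set U := uni (lab c) {i, j, k, l} with hUdef
  have hsub : ∀ m ∈ ({i, j, k, l} : Set N.V), lab c m ⊆ U := by
    intro m hm v hv
    rw [hUdef]
    simp only [uni, Set.mem_iUnion]
    exact ⟨m, hm, hv⟩
  have mi : i ∈ ({i, j, k, l} : Set N.V) := by simp
  have mj : j ∈ ({i, j, k, l} : Set N.V) := by simp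
  have mk : k ∈ ({i, j, k, l} : Set N.V) := by simp
  have ml : l ∈ ({i, j, k, l} : Set N.V) := by simp
  obtain ⟨u, hu⟩ := hne i
  have hu' : u ∈ U := hsub i mi hu
  -- the union is not a point
  have hv : ∃ v ∈ U, v ≠ u := by
    by_contra hcon
    push Not at hcon
    have e1 : ∀ m ∈ ({i, j, k, l} : Set N.V), lab c m = {u} := by
      intro m hm
      obtain ⟨x, hx⟩ := hne m
      ext y
      constructor
      · intro hy
        exact hcon y (hsub m hm hy)
      · intro hy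
        have hy' : y = u := hy
        rw [hy', ← hcon x (hsub m hm hx)]
        exact hx
    obtain ⟨p, _, hp⟩ := h2 H V K N s c hS u
    exact hij ((hp i (e1 i mi)).trans (hp j (e1 j mj)).symm)
  obtain ⟨v, hv, hvu⟩ := hv
  have hw : ∃ w ∈ U, w ≠ u ∧ w ≠ v := by
    by_contra hcon
    push Not at hcon
    have hKuv : K.face {u, v} := K.down _ _ (by
      rintro x (rfl | hx)
      · exact hu'
      · have : x = v := hx
        rw [this]; exact hv) hU
    obtain ⟨p, hp, _⟩ := h2 H V K N s c hS u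
    obtain ⟨p', hp', _⟩ := h2 H V K N s c hS v
    have h4 := (h3 H V K N s c hS u v p p' hvu.symm hKuv hp hp').2 i j k hij hik hjk
      (N.Δ.down _ _ (by
        rintro x (rfl | rfl | hx)
        · exact mi
        · exact mj
        · have : x = k := hx
          rw [this]; exact mk) hf)
    apply h4
    intro x hx
    have hxU : x ∈ U := by
      rcases hx with (hx | hx) | hx
      · exact hsub i mi hx
      · exact hsub j mj hx
      · exact hsub k mk hx
    by_cases hxu : x = u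
    · exact Or.inl hxu
    · exact Or.inr (hcon x hxU hxu)
  obtain ⟨w, hw, hwu, hwv⟩ := hw
  have hKuvw : K.face {u, v, w} := K.down _ _ (by
    rintro x (rfl | rfl | hx)
    · exact hu'
    · exact hv
    · have : x = w := hx
      rw [this]; exact hw) hU
  have hcn : ∀ v m, 0 ≤ c v m := fun v m => (hS.lin v).nonneg (hS.sig.pos v) m
  -- positivity at interior points of the face
  have hpos : ∀ x ∈ U, ∀ y ∈ N.Δ.Z, (∀ m ∈ ({i, j, k, l} : Set N.V), 0 < y m) →
      0 < N.ev (s x) y := by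
    intro x hx y hy hy'
    rw [hUdef] at hx
    simp only [uni, Set.mem_iUnion] at hx
    obtain ⟨m, hm, hxm⟩ := hx
    rw [hS.lin x y hy]
    refine Finset.sum_pos' (fun a _ => mul_nonneg (by exact_mod_cast hcn x a) (hy.1 a))
      ⟨m, Finset.mem_univ m, ?_⟩
    have hxm' : (0 : ℤ) < c x m := hxm
    exact mul_pos (by exact_mod_cast hxm') (hy' m hm)
  obtain ⟨q, hq⟩ := N.exists_lin (fun m => if m = i ∨ m = j then 0 else 1)
  have hq0 : 0 ≤ q := hq.nonneg' (fun m => by split_ifs <;> norm_num)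
  have hcq : ∀ m, (if m = i ∨ m = j then (0 : ℤ) else 1) = 0 ↔ (m = i ∨ m = j) := by
    intro m
    split_ifs with h
    · exact ⟨fun _ => h, fun _ => rfl⟩
    · exact ⟨fun h' => absurd h' one_ne_zero, fun h' => absurd h' h⟩
  have hConn : Conn q := by
    refine (hc H N q _ hq hq0).2 ?_
    intro A hA hA0 hAc m hm
    obtain ⟨m0, hm0⟩ := hA
    refine hAc m0 hm0 m hm (N.Δ.down _ _ ?_ hf)
    have e0 := (hcq m0).1 (hA0 m0 hm0)
    have e1 := (hcq m).1 hm
    rintro x (hx | hx)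
    · rw [hx]
      rcases e0 with e | e <;> rw [e]
      · exact mi
      · exact mj
    · have hx' : x = m := hx
      rw [hx']
      rcases e1 with e | e <;> rw [e]
      · exact mi
      · exact mj
  have hTwo : Two q := (ht H N q _ hq hq0).2 ⟨i, j, hij, (hcq i).2 (Or.inl rfl), (hcq j).2 (Or.inr rfl)⟩
  have hqz : ∀ z ∈ N.Δ.Z, N.ev q z = 0 → ∀ m, m ≠ i → m ≠ j → z m = 0 := by
    intro z hz h0 m hmi hmj
    rw [hq z hz] at h0
    have hnn : ∀ a ∈ Finset.univ, 0 ≤ (((if a = i ∨ a = j then (0 : ℤ) else 1 : ℤ)) : ℝ) * z a := by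
      intro a _
      refine mul_nonneg ?_ (hz.1 a)
      split_ifs <;> norm_num
    have h5 := (Finset.sum_eq_zero_iff_of_nonneg hnn).1 h0 m (Finset.mem_univ m)
    rw [if_neg (by tauto)] at h5
    simpa using h5
  obtain ⟨xk, hxk⟩ := N.chart.hat k
  obtain ⟨xl, hxl⟩ := N.chart.hat l
  set w0 := s u ⊓ s v ⊓ s w with hw0
  have hw00 : 0 ≤ w0 := le_inf (le_inf (hS.sig.pos u) (hS.sig.pos v)) (hS.sig.pos w)
  have hevw0 : ∀ z ∈ N.Δ.Z, N.ev w0 z = min (min (N.ev (s u) z) (N.ev (s v) z)) (N.ev (s w) z) := by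
    intro z hz
    rw [hw0, N.chart.inf _ _ hz, N.chart.inf _ _ hz]
  have hw0z : ∀ z ∈ N.Δ.Z, 0 ≤ N.ev w0 z := N.chart.nonneg_iff.1 hw00
  have hw0p : ∀ y ∈ N.Δ.Z, (∀ m ∈ ({i, j, k, l} : Set N.V), 0 < y m) → 0 < N.ev w0 y := by
    intro y hy hy'
    rw [hevw0 y hy]
    exact lt_min (lt_min (hpos u hu' y hy hy') (hpos v hv y hy hy')) (hpos w hw y hy hy')
  -- general form of the three elements
  have hform : ∀ (g : H) (z : N.V → ℝ), z ∈ N.Δ.Z →
      N.ev ((g ⊔ 0) ⊓ w0) z = min (max (N.ev g z) 0) (N.ev w0 z) := by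
    intro g z hz
    rw [N.chart.inf _ _ hz, N.chart.sup _ _ z hz, N.chart.zero hz]
  have hg0 : ∀ g : H, 0 ≤ (g ⊔ 0) ⊓ w0 := fun g => le_inf le_sup_right hw00
  have hInc : ∀ g : H, Inc ((g ⊔ 0) ⊓ w0) w0 := by
    intro g
    refine (hi H N _ _ (hg0 g) hw00).2 (fun z hz h0 => ?_)
    rw [hform g z hz, h0]
    exact min_eq_right (le_max_right _ _)
  have hdisj : ∀ g g' : H, (∀ z ∈ N.Δ.Z, N.ev g z ≤ 0 ∨ N.ev g' z ≤ 0) →
      ((g ⊔ 0) ⊓ w0) ⊓ ((g' ⊔ 0) ⊓ w0) = 0 := by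
    intro g g' hgg
    refine N.chart.ext (fun z hz => ?_)
    rw [N.chart.inf _ _ hz, hform g z hz, hform g' z hz, N.chart.zero hz]
    exact x4_real1 (hw0z z hz) (hgg z hz)
  have hCl : ∀ (g : H) (α β : ℝ), 0 < α → 0 < β →
      (∀ y ∈ N.Δ.Z, ∀ ε : ℝ, 0 < ε → y k = ε * α → y l = ε * β → 0 < N.ev g y) →
      Cl ((g ⊔ 0) ⊓ w0) q := by
    intro g α β hα hβ hg
    refine hP H N _ q hq0 (fun z hz h0 _ => ?_)
    refine ⟨fun m => pt i m + pt j m + α * pt k m + β * pt l m, fun ε hε => ?_⟩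
    obtain ⟨e1, e2, e3, e4⟩ := x4_pt N hik hil hjk hjl hkl hf hz (hqz z hz h0) hα hβ hε
    refine ⟨e1, ?_⟩
    rw [hform g _ e1]
    exact lt_min (lt_max_of_lt_left (hg _ e1 ε hε e3 e4)) (hw0p _ e1 e2)
  have ea : ∀ z ∈ N.Δ.Z, N.ev (xk - (xl + xl)) z = z k - 2 * z l := by
    intro z hz
    rw [N.chart.sub _ _ hz, N.chart.add _ _ z hz, hxk z hz, hxl z hz]
    ring
  have eb : ∀ z ∈ N.Δ.Z, N.ev (xl - (xk + xk)) z = z l - 2 * z k := by
    intro z hz
    rw [N.chart.sub _ _ hz, N.chart.add _ _ z hz, hxk z hz, hxl z hz]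
    ring
  have ec : ∀ z ∈ N.Δ.Z, N.ev (((xk + xk) - xl) ⊓ ((xl + xl) - xk)) z =
      min (2 * z k - z l) (2 * z l - z k) := by
    intro z hz
    rw [N.chart.inf _ _ hz, N.chart.sub _ _ hz, N.chart.add _ _ z hz, N.chart.sub _ _ hz,
      N.chart.add _ _ z hz, hxk z hz, hxl z hz]
    congr 1 <;> ring
  refine hS.sig.r3 u v w hvu.symm hwu.symm hwv.symm hKuvw q hq0 hConn hTwo
    ⟨((xk - (xl + xl)) ⊔ 0) ⊓ w0, ((xl - (xk + xk)) ⊔ 0) ⊓ w0,
      ((((xk + xk) - xl) ⊓ ((xl + xl) - xk)) ⊔ 0) ⊓ w0, ⟨hg0 _, hg0 _, hg0 _⟩, ⟨?_, ?_, ?_⟩,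
      ⟨hInc _, hInc _, hInc _⟩, ?_, ?_, ?_⟩
  · refine hdisj _ _ (fun z hz => ?_)
    rw [ea z hz, eb z hz]
    have := hz.1 k
    have := hz.1 l
    by_contra hcon
    push Not at hcon
    linarith [hcon.1, hcon.2]
  · refine hdisj _ _ (fun z hz => ?_)
    rw [ea z hz, ec z hz]
    by_contra hcon
    push Not at hcon
    have := (lt_min_iff.1 hcon.2).2
    linarith [hcon.1]
  · refine hdisj _ _ (fun z hz => ?_)
    rw [eb z hz, ec z hz]
    by_contra hcon
    push Not at hcon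
    have := (lt_min_iff.1 hcon.2).1
    linarith [hcon.1]
  · refine hCl _ 3 1 (by norm_num) (by norm_num) (fun y hy ε hε e1 e2 => ?_)
    rw [ea y hy, e1, e2]
    linarith
  · refine hCl _ 1 3 (by norm_num) (by norm_num) (fun y hy ε hε e1 e2 => ?_)
    rw [eb y hy, e1, e2]
    linarith
  · refine hCl _ 1 1 (by norm_num) (by norm_num) (fun y hy ε hε e1 e2 => ?_)
    rw [ec y hy, e1, e2]
    exact lt_min (by linarith) (by linarith)

end Pool.Agent.MP552024
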