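import Pool.Agent.Work.MP_552024_lc.Two.StmtsC
import Pool.Agent.Work.MP_552024_lc.Two.StmtsD

/-!
Number of triangles at an edge, in a model with a linear solution of `Sig2`. MP_552024_lc (helper17).
-/

set_option autoImplicit false

namespace Pool.Agent.MP552024

namespace X56

theorem uni3 {V W : Type} (S : W → Set V) (i j k : W) : uni S {i, j, k} = S i ∪ S j ∪ S k := by
  ext x
  simp only [uni, Set.mem_iUnion, Set.mem_insert_iff, Set.mem_singleton_iff, Set.mem_union,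
    exists_prop]
  constructor
  · rintro ⟨m, (rfl | rfl | rfl), h⟩
    · exact Or.inl (Or.inl h)
    · exact Or.inl (Or.inr h)
    · exact Or.inr h
  · rintro ((h | h) | h)
    · exact ⟨i, Or.inl rfl, h⟩
    · exact ⟨j, Or.inr (Or.inl rfl), h⟩
    · exact ⟨k, Or.inr (Or.inr rfl), h⟩

section A

variable {H : Type} [AddCommGroup H] [Lattice H] [IsOrderedAddMonoid H] {V : Type} [Fintype V]
  {K : Cx V} {N : Mdl H} {s : V → H} {c : V → N.V → ℤ}

theorem cnn (hS : SigL2 K N s c) (v : V) (i : N.V) : 0 ≤ c v i :=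
  (hS.lin v).nonneg (hS.sig.pos v) i

theorem evpos (hS : SigL2 K N s c) {z : N.V → ℝ} (hz : z ∈ N.Δ.Z) (x : V) :
    0 < N.ev (s x) z ↔ ∃ m, z m ≠ 0 ∧ x ∈ lab c m := by
  rw [hS.lin x z hz]
  have h0 : ∀ m ∈ (Finset.univ : Finset N.V), 0 ≤ (c x m : ℝ) * z m := fun m _ =>
    mul_nonneg (by exact_mod_cast cnn hS x m) (hz.1 m)
  constructor
  · intro h
    by_contra hcon
    push Not at hcon
    have : ∑ m, (c x m : ℝ) * z m = 0 := by
      refine Finset.sum_eq_zero (fun m _ => ?_)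
      by_cases hm : z m = 0
      · rw [hm, mul_zero]
      · have h1 : ¬ 0 < c x m := hcon m hm
        have h2 : c x m = 0 := le_antisymm (not_lt.1 h1) (cnn hS x m)
        rw [h2]
        simp
    linarith
  · rintro ⟨m, hm, hx⟩
    refine Finset.sum_pos' h0 ⟨m, Finset.mem_univ m, ?_⟩
    have h1 : 0 < c x m := hx
    exact mul_pos (by exact_mod_cast h1) (lt_of_le_of_ne (hz.1 m) (Ne.symm hm))

theorem oth2_lin (hS : SigL2 K N s c) (u v : V) :
    N.Lin (oth2 s u v) (fun m => (∑ x, c x m) - c u m - c v m) :=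
  ((Mdl.Lin.sum Finset.univ hS.lin).sub (hS.lin u)).sub (hS.lin v)

open Classical in
theorem oth2_eq (hS : SigL2 K N s c) {u v : V} (huv : u ≠ v) (m : N.V) :
    (∑ x, c x m) - c u m - c v m = ∑ x ∈ (Finset.univ.erase u).erase v, c x m := by
  have h1 := Finset.add_sum_erase Finset.univ (fun x => c x m) (Finset.mem_univ u)
  have h2 := Finset.add_sum_erase (Finset.univ.erase u) (fun x => c x m)
    (Finset.mem_erase.2 ⟨huv.symm, Finset.mem_univ v⟩)
  linarith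

theorem oth2_cnn (hS : SigL2 K N s c) {u v : V} (huv : u ≠ v) (m : N.V) :
    0 ≤ (∑ x, c x m) - c u m - c v m := by
  classical
  rw [oth2_eq hS huv m]
  exact Finset.sum_nonneg (fun x _ => cnn hS x m)

theorem oth2_nn (hS : SigL2 K N s c) {u v : V} (huv : u ≠ v) : 0 ≤ oth2 s u v :=
  (oth2_lin hS u v).nonneg' (fun m => oth2_cnn hS huv m)

theorem oth2_zero (hS : SigL2 K N s c) {u v : V} (huv : u ≠ v) (m : N.V)
    (h : lab c m ⊆ {u, v}) : (∑ x, c x m) - c u m - c v m = 0 := by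
  classical
  rw [oth2_eq hS huv m]
  refine Finset.sum_eq_zero (fun x hx => ?_)
  rw [Finset.mem_erase, Finset.mem_erase] at hx
  have h1 : ¬ 0 < c x m := by
    intro h2
    rcases h (show x ∈ lab c m from h2) with h3 | h3
    · exact hx.2.1 h3
    · exact hx.1 h3
  exact le_antisymm (not_lt.1 h1) (cnn hS x m)

theorem w0_pos (hS : SigL2 K N s c) {z : N.V → ℝ} (hz : z ∈ N.Δ.Z) (u v w : V) :
    0 < N.ev (s u ⊓ s v ⊓ s w) z ↔ (∃ m, z m ≠ 0 ∧ u ∈ lab c m) ∧ (∃ m, z m ≠ 0 ∧ v ∈ lab c m) ∧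
      ∃ m, z m ≠ 0 ∧ w ∈ lab c m := by
  rw [N.chart.inf _ _ hz, N.chart.inf _ _ hz, lt_min_iff, lt_min_iff, evpos hS hz, evpos hS hz,
    evpos hS hz, and_assoc]

theorem w0_nn (hS : SigL2 K N s c) (u v w : V) : 0 ≤ s u ⊓ s v ⊓ s w :=
  le_inf (le_inf (hS.sig.pos u) (hS.sig.pos v)) (hS.sig.pos w)

end A

section B

variable {H : Type} [AddCommGroup H] [Lattice H] [IsOrderedAddMonoid H] {N : Mdl H}

/-- the product of three hat functions, up to positivity -/
theorem exTri (N : Mdl H) (i j k : N.V) : ∃ a : H, 0 ≤ a ∧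
    ∀ z ∈ N.Δ.Z, 0 < N.ev a z ↔ z i ≠ 0 ∧ z j ≠ 0 ∧ z k ≠ 0 := by
  obtain ⟨x, hx⟩ := N.chart.hat i
  obtain ⟨y, hy⟩ := N.chart.hat j
  obtain ⟨w, hw⟩ := N.chart.hat k
  refine ⟨x ⊓ y ⊓ w, ?_, ?_⟩
  · refine N.chart.nonneg_iff.2 (fun z hz => ?_)
    rw [N.chart.inf _ _ hz, N.chart.inf _ _ hz, hx z hz, hy z hz, hw z hz]
    exact le_min (le_min (hz.1 i) (hz.1 j)) (hz.1 k)
  · intro z hz
    rw [N.chart.inf _ _ hz, N.chart.inf _ _ hz, hx z hz, hy z hz, hw z hz, lt_min_iff, lt_min_iff,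
      and_assoc, (hz.1 i).lt_iff_ne, (hz.1 j).lt_iff_ne, (hz.1 k).lt_iff_ne, ne_comm,
      @ne_comm _ 0 (z j), @ne_comm _ 0 (z k)]

theorem ev_nn {a : H} (ha : 0 ≤ a) {z : N.V → ℝ} (hz : z ∈ N.Δ.Z) : 0 ≤ N.ev a z :=
  N.chart.nonneg_iff.1 ha z hz

theorem inf_zero {a b : H} (ha : 0 ≤ a) (hb : 0 ≤ b)
    (h : ∀ z ∈ N.Δ.Z, 0 < N.ev a z → 0 < N.ev b z → False) : a ⊓ b = 0 := by
  refine N.chart.inj _ (fun z hz => ?_)
  rw [N.chart.inf _ _ hz]
  rcases (ev_nn ha hz).eq_or_lt with h1 | h1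
  · rw [← h1]; exact min_eq_left (ev_nn hb hz)
  · rcases (ev_nn hb hz).eq_or_lt with h2 | h2
    · rw [← h2]; exact min_eq_right h1.le
    · exact (h z hz h1 h2).elim

theorem inc_of (hi : S_inc) {a t : H} (ha : 0 ≤ a) (ht : 0 ≤ t)
    (h : ∀ z ∈ N.Δ.Z, 0 < N.ev a z → 0 < N.ev t z) : Inc a t := by
  refine (hi H N a t ha ht).2 (fun z hz h0 => ?_)
  by_contra h1
  have := h z hz (lt_of_le_of_ne (ev_nn ha hz) (Ne.symm h1))
  rw [h0] at this
  exact lt_irrefl _ this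

open Classical in
/-- the element vanishing exactly on an edge -/
theorem exQ (N : Mdl H) (i j : N.V) :
    ∃ q : H, N.Lin q (fun m => if m = i ∨ m = j then 0 else 1) ∧ 0 ≤ q ∧
      ∀ z ∈ N.Δ.Z, N.ev q z = 0 → ∀ m, z m ≠ 0 → m = i ∨ m = j := by
  obtain ⟨q, hq⟩ := N.exists_lin (fun m => if m = i ∨ m = j then 0 else 1)
  refine ⟨q, hq, hq.nonneg' (fun m => ?_), fun z hz h0 m hm => ?_⟩
  · split_ifs <;> norm_num
  · rw [hq z hz] at h0
    have h1 : ∀ m ∈ (Finset.univ : Finset N.V),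
        0 ≤ ((if m = i ∨ m = j then (0 : ℤ) else 1 : ℤ) : ℝ) * z m := by
      intro m _
      refine mul_nonneg ?_ (hz.1 m)
      split_ifs <;> norm_num
    have h2 := (Finset.sum_eq_zero_iff_of_nonneg h1).1 h0 m (Finset.mem_univ m)
    by_contra hcon
    rw [if_neg hcon] at h2
    apply hm
    simpa using h2

theorem conn_q (hc : S_connL) {i j : N.V} (hf : N.Δ.face {i, j}) {q : H}
    {d : N.V → ℤ} (hq : N.Lin q d) (hd : ∀ m, d m = 0 ↔ m = i ∨ m = j)
    (h0 : 0 ≤ q) : Conn q := by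
  refine (hc H N q _ hq h0).2 (fun A hA h1 h2 m hm => ?_)
  have hij : (i ∈ A ↔ j ∈ A) := by
    constructor
    · intro h
      exact h2 i h j ((hd j).2 (Or.inr rfl)) hf
    · intro h
      exact h2 j h i ((hd i).2 (Or.inl rfl)) (by rw [Set.pair_comm]; exact hf)
  obtain ⟨x, hx⟩ := hA
  have hx' := (hd x).1 (h1 x hx)
  have hi : i ∈ A := by
    rcases hx' with rfl | rfl
    · exact hx
    · exact hij.2 hx
  rcases (hd m).1 hm with rfl | rfl
  · exact hi
  · exact hij.1 hi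

theorem cl_of (hP : S_clP) {i j k : N.V} (hf : N.Δ.face {i, j, k}) {q a : H} (hq : 0 ≤ q)
    (hq0 : ∀ z ∈ N.Δ.Z, N.ev q z = 0 → ∀ m, z m ≠ 0 → m = i ∨ m = j)
    (ha : ∀ z ∈ N.Δ.Z, 0 < N.ev a z ↔ z i ≠ 0 ∧ z j ≠ 0 ∧ z k ≠ 0) : Cl a q := by
  refine hP H N a q hq (fun z hz h0 _ => ?_)
  refine ⟨fun l => pt i l + pt j l + pt k l, fun ε hε => ?_⟩
  have hw : ∀ l, 0 ≤ pt i l + pt j l + pt k l := fun l =>
    add_nonneg (add_nonneg (pt_nonneg _ _) (pt_nonneg _ _)) (pt_nonneg _ _)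
  have hmem : (fun l => z l + ε * (pt i l + pt j l + pt k l)) ∈ N.Δ.Z := by
    refine Cx.mem_Z (fun l => add_nonneg (hz.1 l) (mul_nonneg hε.le (hw l))) _ hf (fun l hl => ?_)
    by_contra hn
    simp only [Set.mem_insert_iff, Set.mem_singleton_iff, not_or] at hn
    apply hl
    have h1 : z l = 0 := by
      by_contra h2
      rcases hq0 z hz h0 l h2 with h3 | h3
      · exact hn.1 h3
      · exact hn.2.1 h3
    show z l + ε * (pt i l + pt j l + pt k l) = 0
    rw [h1, pt_ne hn.1, pt_ne hn.2.1, pt_ne hn.2.2]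
    ring
  refine ⟨hmem, (ha _ hmem).2 ?_⟩
  have key : ∀ l, 1 ≤ pt i l + pt j l + pt k l → z l + ε * (pt i l + pt j l + pt k l) ≠ 0 := by
    intro l hl
    have h1 := hz.1 l
    have h2 : ε * 1 ≤ ε * (pt i l + pt j l + pt k l) := mul_le_mul_of_nonneg_left hl hε.le
    have : 0 < z l + ε * (pt i l + pt j l + pt k l) := by linarith
    exact this.ne'
  refine ⟨key i ?_, key j ?_, key k ?_⟩
  · have h1 := pt_nonneg j i
    have h2 := pt_nonneg k i
    have h3 := pt_self i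
    linarith
  · have h1 := pt_nonneg i j
    have h2 := pt_nonneg k j
    have h3 := pt_self j
    linarith
  · have h1 := pt_nonneg i k
    have h2 := pt_nonneg j k
    have h3 := pt_self k
    linarith

end B

/-- a proper subset of a set with three elements misses one of them -/
theorem rename {V : Type} {σ T : Set V} (hT : IsTri σ) (h1 : T ⊆ σ) (h2 : T ≠ σ) :
    ∃ u v w : V, u ≠ v ∧ u ≠ w ∧ v ≠ w ∧ σ = {u, v, w} ∧ w ∉ T ∧ T ⊆ {u, v} := by
  obtain ⟨u, v, w, huv, huw, hvw, rfl⟩ := hT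
  have h3 : u ∉ T ∨ v ∉ T ∨ w ∉ T := by
    by_contra hcon
    push Not at hcon
    apply h2
    refine Set.Subset.antisymm h1 ?_
    rintro x (rfl | rfl | rfl)
    · exact hcon.1
    · exact hcon.2.1
    · exact hcon.2.2
  rcases h3 with h3 | h3 | h3
  · refine ⟨v, w, u, hvw, huv.symm, huw.symm, ?_, h3, ?_⟩
    · ext x; simp only [Set.mem_insert_iff, Set.mem_singleton_iff]; tauto
    · intro x hx
      rcases h1 hx with rfl | h | h
      · exact (h3 hx).elim
      · exact Or.inl h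
      · exact Or.inr h
  · refine ⟨u, w, v, huw, huv, hvw.symm, ?_, h3, ?_⟩
    · ext x; simp only [Set.mem_insert_iff, Set.mem_singleton_iff]; tauto
    · intro x hx
      rcases h1 hx with h | rfl | h
      · exact Or.inl h
      · exact (h3 hx).elim
      · exact Or.inr h
  · refine ⟨u, v, w, huv, huw, hvw, rfl, h3, ?_⟩
    intro x hx
    rcases h1 hx with h | h | rfl
    · exact Or.inl h
    · exact Or.inr h
    · exact (h3 hx).elim

section C

variable {H : Type} [AddCommGroup H] [Lattice H] [IsOrderedAddMonoid H] {V : Type} [Fintype V]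
  {K : Cx V} {N : Mdl H} {s : V → H} {c : V → N.V → ℤ}

theorem w0_of (hS : SigL2 K N s c) {i j k : N.V} {u v w : V} {z : N.V → ℝ} (hz : z ∈ N.Δ.Z)
    (hl : lab c i ∪ lab c j ∪ lab c k = {u, v, w}) (h1 : z i ≠ 0 ∧ z j ≠ 0 ∧ z k ≠ 0) :
    0 < N.ev (s u ⊓ s v ⊓ s w) z := by
  have key : ∀ x, x ∈ ({u, v, w} : Set V) → ∃ m, z m ≠ 0 ∧ x ∈ lab c m := by
    intro x hx
    rw [← hl] at hx
    rcases hx with (hx | hx) | hx
    · exact ⟨i, h1.1, hx⟩
    · exact ⟨j, h1.2.1, hx⟩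
    · exact ⟨k, h1.2.2, hx⟩
  exact (w0_pos hS hz u v w).2 ⟨key u (Or.inl rfl), key v (Or.inr (Or.inl rfl)),
    key w (Or.inr (Or.inr rfl))⟩

theorem disj (hD : N.Δ.Dim2) {i j k l : N.V} (hij : i ≠ j) (hik : i ≠ k) (hil : i ≠ l)
    (hjk : j ≠ k) (hjl : j ≠ l) (hkl : k ≠ l) {z : N.V → ℝ} (hz : z ∈ N.Δ.Z)
    (h1 : z i ≠ 0 ∧ z j ≠ 0 ∧ z k ≠ 0) (h2 : z l ≠ 0) : False := by
  refine hD i j k l hij hik hil hjk hjl hkl (Cx.face_of_mem hz _ ?_)
  rintro m (rfl | rfl | rfl | rfl)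
  · exact h1.1
  · exact h1.2.1
  · exact h1.2.2
  · exact h2

end C

end X56

open X56 in
theorem prfX5 (_h1 : S_X1) (hP : S_clP) (hc : S_connL) (ht : S_twoL) (hi : S_inc) (hL : S_incL) :
    S_X5 := by
  classical
  intro H _ _ _ V _ K N s c hS hD σ hσ hT
  refine ⟨?_, ?_⟩
  · intro i j k₁ k₂ k₃ hij h1i h1j h2i h2j h3i h3j h12 h13 h23 f1 f2 f3 l1 l2 l3
    obtain ⟨u, v, w, huv, huw, hvw, rfl⟩ := hT
    obtain ⟨q, hq, hq0, hqz⟩ := exQ N i j
    obtain ⟨a, ha, ha'⟩ := exTri N i j k₁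
    obtain ⟨b, hb, hb'⟩ := exTri N i j k₂
    obtain ⟨d, hd, hd'⟩ := exTri N i j k₃
    have hf : N.Δ.face {i, j} := N.Δ.down _ _ (by
      rintro x (rfl | rfl)
      · exact Or.inl rfl
      · exact Or.inr (Or.inl rfl)) f1
    have hzero : ∀ m : N.V, (if m = i ∨ m = j then (0 : ℤ) else 1) = 0 ↔ m = i ∨ m = j := by
      intro m
      split_ifs with h <;> simp [h]
    have hconn : Conn q := conn_q hc hf hq hzero hq0
    have htwo : Two q := (ht H N q _ hq hq0).2 ⟨i, j, hij, by simp, by simp⟩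
    have hw := w0_nn hS u v w
    refine hS.sig.r3 u v w huv huw hvw hσ q hq0 hconn htwo
      ⟨a, b, d, ⟨ha, hb, hd⟩, ⟨?_, ?_, ?_⟩, ⟨?_, ?_, ?_⟩, ?_, ?_, ?_⟩
    · exact inf_zero ha hb (fun z hz h1 h2 =>
        disj hD hij h1i.symm h2i.symm h1j.symm h2j.symm h12 hz ((ha' z hz).1 h1) ((hb' z hz).1 h2).2.2)
    · exact inf_zero ha hd (fun z hz h1 h2 =>
        disj hD hij h1i.symm h3i.symm h1j.symm h3j.symm h13 hz ((ha' z hz).1 h1) ((hd' z hz).1 h2).2.2)
    · exact inf_zero hb hd (fun z hz h1 h2 =>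
        disj hD hij h2i.symm h3i.symm h2j.symm h3j.symm h23 hz ((hb' z hz).1 h1) ((hd' z hz).1 h2).2.2)
    · exact inc_of (N := N) hi ha hw (fun z hz h => w0_of hS hz l1 ((ha' z hz).1 h))
    · exact inc_of (N := N) hi hb hw (fun z hz h => w0_of hS hz l2 ((hb' z hz).1 h))
    · exact inc_of (N := N) hi hd hw (fun z hz h => w0_of hS hz l3 ((hd' z hz).1 h))
    · exact cl_of hP f1 hq0 hqz ha'
    · exact cl_of hP f2 hq0 hqz hb'
    · exact cl_of hP f3 hq0 hqz hd'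
  · intro i j k₁ k₂ hij hf hsub hne h1i h1j h2i h2j f1 f2 l1 l2
    by_contra h12
    obtain ⟨u, v, w, huv, huw, hvw, rfl, hwn, hT2⟩ := rename hT hsub hne
    obtain ⟨q, hq, hq0, hqz⟩ := exQ N i j
    obtain ⟨a, ha, ha'⟩ := exTri N i j k₁
    obtain ⟨b, hb, hb'⟩ := exTri N i j k₂
    have hzero : ∀ m : N.V, (if m = i ∨ m = j then (0 : ℤ) else 1) = 0 ↔ m = i ∨ m = j := by
      intro m
      split_ifs with h <;> simp [h]
    have hconn : Conn q := conn_q hc hf hq hzero hq0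
    have htwo : Two q := (ht H N q _ hq hq0).2 ⟨i, j, hij, by simp, by simp⟩
    have hw := w0_nn hS u v w
    have hinc : Inc (oth2 s u v) q := by
      refine (hL H N _ q _ _ (oth2_lin hS u v) hq (oth2_nn hS huv) hq0).2 (fun m hm => ?_)
      refine oth2_zero hS huv m ?_
      rcases (hzero m).1 hm with rfl | rfl
      · exact fun x hx => hT2 (Or.inl hx)
      · exact fun x hx => hT2 (Or.inr hx)
    refine hS.sig.r2 u v w huv huw hvw hσ q hq0 hconn htwo hinc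
      ⟨a, b, ⟨ha, hb⟩, ?_, ⟨?_, ?_⟩, ?_, ?_⟩
    · exact inf_zero ha hb (fun z hz h1 h2 =>
        disj hD hij h1i.symm h2i.symm h1j.symm h2j.symm h12 hz ((ha' z hz).1 h1) ((hb' z hz).1 h2).2.2)
    · exact inc_of (N := N) hi ha hw (fun z hz h => w0_of hS hz l1 ((ha' z hz).1 h))
    · exact inc_of (N := N) hi hb hw (fun z hz h => w0_of hS hz l2 ((hb' z hz).1 h))
    · exact cl_of hP f1 hq0 hqz ha'
    · exact cl_of hP f2 hq0 hqz hb'

open X56 in
theorem prfX6 (h1 : S_X1) (hi : S_inc) : S_X6 := by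
  classical
  intro H _ _ _ V _ K N s c hS hD σ hσ hT i j hij hf hsub hne
  by_contra hno
  obtain ⟨u, v, w, huv, huw, hvw, rfl, hwn, hT2⟩ := rename hT hsub hne
  obtain ⟨y, hy, hy'⟩ := exTri N i j j
  have hw := w0_nn hS u v w
  have hinf : y ⊓ (s u ⊓ s v ⊓ s w) = 0 := by
    refine inf_zero (N := N) hy hw (fun z hz hz1 hz2 => ?_)
    obtain ⟨hzi, hzj, -⟩ := (hy' z hz).1 hz1
    obtain ⟨hu, hv, m, hm, hwm⟩ := (w0_pos hS hz u v w).1 hz2
    have hmi : m ≠ i := by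
      rintro rfl
      exact hwn (Or.inl hwm)
    have hmj : m ≠ j := by
      rintro rfl
      exact hwn (Or.inr hwm)
    have hsupp : ∀ l, z l ≠ 0 → l = i ∨ l = j ∨ l = m := by
      intro l hl
      by_contra hcon
      push Not at hcon
      exact disj hD hij hmi.symm (Ne.symm hcon.1) hmj.symm (Ne.symm hcon.2.1) (Ne.symm hcon.2.2) hz
        ⟨hzi, hzj, hm⟩ hl
    have hface : N.Δ.face {i, j, m} := by
      refine Cx.face_of_mem hz _ ?_
      rintro l (rfl | rfl | rfl)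
      · exact hzi
      · exact hzj
      · exact hm
    have hmem : ∀ x, (∃ m, z m ≠ 0 ∧ x ∈ lab c m) → x ∈ lab c i ∪ lab c j ∪ lab c m := by
      rintro x ⟨l, hl, hx⟩
      rcases hsupp l hl with rfl | rfl | rfl
      · exact Or.inl (Or.inl hx)
      · exact Or.inl (Or.inr hx)
      · exact Or.inr hx
    have hK : K.face (lab c i ∪ lab c j ∪ lab c m) := by
      have := (h1 H V K N s c hS).2 _ hface
      rwa [uni3] at this
    refine hno ⟨m, hmi, hmj, hface, ?_⟩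
    refine Set.Subset.antisymm (fun x hx => ?_) ?_
    · by_contra hcon
      simp only [Set.mem_insert_iff, Set.mem_singleton_iff, not_or] at hcon
      refine hS.kdim u v w x huv huw (Ne.symm hcon.1) hvw (Ne.symm hcon.2.1) (Ne.symm hcon.2.2)
        (K.down _ _ ?_ hK)
      rintro t (rfl | rfl | rfl | rfl)
      · exact hmem _ hu
      · exact hmem _ hv
      · exact Or.inr hwm
      · exact hx
    · rintro x (rfl | rfl | rfl)
      · exact hmem _ hu
      · exact hmem _ hv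
      · exact Or.inr hwm
  have hinc : Inc y (oth2 s u v) := hS.sig.r1 u v w huv huw hvw hσ y hy hinf
  have hpm : (fun l => (1 : ℝ) * pt i l + 1 * pt j l) ∈ N.Δ.Z :=
    Cx.pair_mem hf zero_le_one zero_le_one
  have hev0 := (hi H N y _ hy (oth2_nn hS huv)).1 hinc _ hpm (by
    rw [oth2_lin hS u v _ hpm]
    refine Finset.sum_eq_zero (fun m _ => ?_)
    show (((∑ x, c x m) - c u m - c v m : ℤ) : ℝ) * (1 * pt i m + 1 * pt j m) = 0
    by_cases hmi : m = i
    · have h0 := oth2_zero hS huv m (by rw [hmi]; exact fun x hx => hT2 (Or.inl hx))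
      rw [h0]
      simp
    · by_cases hmj : m = j
      · have h0 := oth2_zero hS huv m (by rw [hmj]; exact fun x hx => hT2 (Or.inr hx))
        rw [h0]
        simp
      · rw [pt_ne hmi, pt_ne hmj]
        simp)
  have hpos := (hy' _ hpm).2 (by
    have hi1 : (1 : ℝ) * pt i i + 1 * pt j i ≠ 0 := by
      have h3 := pt_nonneg j i
      rw [pt_self]
      positivity
    have hj1 : (1 : ℝ) * pt i j + 1 * pt j j ≠ 0 := by
      have h3 := pt_nonneg i j
      rw [pt_self]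
      positivity
    exact ⟨hi1, hj1, hj1⟩)
  rw [hev0] at hpos
  exact lt_irrefl _ hpos

end Pool.Agent.MP552024
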