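import Pool.Agent.Work.MP_552024_lc.Two.StmtsB
import Pool.Agent.Work.MP_552024_lc.Two.StmtsC
import Pool.Agent.Work.MP_552024_lc.Two.StmtsD

/-!
Purity of the regions. MP_552024_lc, dimension at most three (helper67).
-/

set_option autoImplicit false

namespace Pool.Agent.MP552024

section X7

theorem X7_sum2 {W : Type} [Fintype W] [DecidableEq W] {z : W → ℝ} (hz : ∀ l, 0 ≤ z l) {i j : W}
    (hij : i ≠ j) : z i + z j ≤ ∑ l, z l := by
  have h := Finset.sum_le_sum_of_subset_of_nonneg (Finset.subset_univ ({i, j} : Finset W))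
    (fun l _ _ => hz l)
  rwa [Finset.sum_pair hij] at h

theorem X7_sum3 {W : Type} [Fintype W] [DecidableEq W] {z : W → ℝ} (hz : ∀ l, 0 ≤ z l) {i j k : W}
    (hij : i ≠ j) (hik : i ≠ k) (hjk : j ≠ k) : z i + z j + z k ≤ ∑ l, z l := by
  have h := Finset.sum_le_sum_of_subset_of_nonneg (Finset.subset_univ ({i, j, k} : Finset W))
    (fun l _ _ => hz l)
  rw [Finset.sum_insert (by simp [hij, hik]), Finset.sum_pair hjk] at h
  linarith

theorem X7_sumeq {W : Type} [Fintype W] [DecidableEq W] {z : W → ℝ} {i j : W} (hij : i ≠ j)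
    (h0 : ∀ l, l ≠ i → l ≠ j → z l = 0) : ∑ l, z l = z i + z j := by
  rw [← Finset.sum_subset (Finset.subset_univ ({i, j} : Finset W)), Finset.sum_pair hij]
  intro l _ hl
  simp only [Finset.mem_insert, Finset.mem_singleton, not_or] at hl
  exact h0 l hl.1 hl.2

theorem X7_sum1 {W : Type} [Fintype W] {z : W → ℝ} (hz : ∀ l, 0 ≤ z l) (i : W) :
    z i ≤ ∑ l, z l := Finset.single_le_sum (f := z) (fun l _ => hz l) (Finset.mem_univ i)

variable {H : Type} [AddCommGroup H] [Lattice H] [IsOrderedAddMonoid H]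

omit [IsOrderedAddMonoid H] in
theorem X7_lpos {N : Mdl H} {g : H} {d : N.V → ℤ} (hd : N.Lin g d) (hg : 0 ≤ g) {z : N.V → ℝ}
    (hz : z ∈ N.Δ.Z) {i : N.V} (h1 : z i ≠ 0) (h2 : 0 < d i) : 0 < N.ev g z := by
  rw [hd z hz]
  refine Finset.sum_pos' (fun l _ => mul_nonneg ?_ (hz.1 l)) ⟨i, Finset.mem_univ _, mul_pos ?_ ?_⟩
  · exact_mod_cast hd.nonneg hg l
  · exact_mod_cast h2
  · exact lt_of_le_of_ne (hz.1 i) (Ne.symm h1)

/-- the last step of both parts -/
theorem X7_core (hf : S_clF) (he : S_ctE) (hl : S_linall) (hg : S_GR) {N : Mdl H}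
    (hdim : N.Δ.Dim2) {a b q : H} (ha : 0 ≤ a) (hb : 0 ≤ b) (hab : a ⊓ b = 0) (hq : 0 ≤ q)
    (hc : Conn q) (ht : Two q) (hca : Cl a q) (hcb : Cl b q) (i j : N.V)
    (hsupp : ∀ z ∈ N.Δ.Z, 0 < N.ev a z → ∀ l, z l ≠ 0 → l = i ∨ l = j) : False := by
  classical
  choose x hx using fun l => N.chart.hat l
  obtain ⟨N', hR, hlin⟩ := hl H N (Fin 3) ![a, b, q]
  obtain ⟨ca, hca'⟩ : ∃ c : N'.V → ℤ, N'.Lin a c := hlin 0
  obtain ⟨cb, hcb'⟩ : ∃ c : N'.V → ℤ, N'.Lin b c := hlin 1
  obtain ⟨cq, hcq'⟩ : ∃ c : N'.V → ℤ, N'.Lin q c := hlin 2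
  have hgood : Good N.Δ N'.Δ (carr N' x) := hg H N x (fun v z hz => hx v z hz) hdim N' hR
  obtain ⟨⟨i', hi'⟩, hedge⟩ := he H N' q cq hcq' hq hc ht
  obtain ⟨j', hne, hj', hface⟩ := hedge i' hi'
  have hz : ∀ k ∈ ({i', j'} : Set N'.V), cq k = 0 := by
    intro k hk
    simp only [Set.mem_insert_iff, Set.mem_singleton_iff] at hk
    rcases hk with rfl | rfl
    · exact hi'
    · exact hj'
  obtain ⟨ka, hka, hka'⟩ := (hf H N' a q ca cq hca' hcq' ha hq).1 hca {i', j'} hface
    ⟨i', by simp⟩ hz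
  obtain ⟨kb, hkb, hkb'⟩ := (hf H N' b q cb cq hcb' hcq' hb hq).1 hcb {i', j'} hface
    ⟨i', by simp⟩ hz
  obtain ⟨T, hT1, hT2, hT3⟩ := hR.map
  -- the point with support `{ka, i', j'}`
  set z' : N'.V → ℝ := fun l => pt ka l + pt i' l + pt j' l with hz'
  have hz'n : ∀ l, 0 ≤ z' l := fun l =>
    add_nonneg (add_nonneg (pt_nonneg _ _) (pt_nonneg _ _)) (pt_nonneg _ _)
  have hz'Z : z' ∈ N'.Δ.Z := by
    refine Cx.mem_Z hz'n _ hka (fun l hl => ?_)
    by_contra hcon
    simp only [Set.mem_insert_iff, Set.mem_singleton_iff, not_or] at hcon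
    apply hl
    show pt ka l + pt i' l + pt j' l = 0
    rw [pt_ne hcon.1, pt_ne hcon.2.1, pt_ne hcon.2.2]
    norm_num
  have hz'p : ∀ k, k = ka ∨ k = i' ∨ k = j' → z' k ≠ 0 := by
    intro k hk
    have h1 := pt_nonneg ka k
    have h2 := pt_nonneg i' k
    have h3 := pt_nonneg j' k
    have h4 : 0 < pt ka k + pt i' k + pt j' k := by
      rcases hk with rfl | rfl | rfl
      · rw [pt_self k]; linarith
      · rw [pt_self k]; linarith
      · rw [pt_self k]; linarith
    exact h4.ne'
  have hza : 0 < N.ev a (T z') := by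
    rw [← hT3 a z' hz'Z]
    exact X7_lpos hca' ha hz'Z (hz'p ka (Or.inl rfl)) hka'
  have hcar : ∀ k, k = ka ∨ k = i' ∨ k = j' → carr N' x k ⊆ {i, j} := by
    intro k hk l hlk
    have hxl : N.Lin (x l) (fun m => if m = l then 1 else 0) := by
      intro z hz
      rw [hx l z hz, Finset.sum_eq_single l]
      · simp
      · intro m _ hm
        simp [hm]
      · intro h
        exact absurd (Finset.mem_univ _) h
    obtain ⟨d, hd⟩ := hR.lin hxl
    have hx0 : 0 ≤ x l := hxl.nonneg' (fun m => by split_ifs <;> norm_num)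
    have hdk : 0 < d k := by
      have h1 : N'.ev (x l) (pt k) ≠ 0 := hlk
      rw [hd.pt] at h1
      have h2 := hd.nonneg hx0 k
      have h3 : d k ≠ 0 := fun h => h1 (by rw [h]; norm_num)
      omega
    have h4 := X7_lpos hd hx0 hz'Z (hz'p k hk) hdk
    rw [hT3 (x l) z' hz'Z, hx l _ (hT1 z' hz'Z)] at h4
    exact hsupp (T z') (hT1 z' hz'Z) hza l h4.ne'
  have hin : ka = i' ∨ ka = j' := by
    by_contra hcon
    rw [not_or] at hcon
    refine hgood.flat ka i' j' hcon.1 hcon.2 hne.symm hka i j ?_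
    exact Set.union_subset (Set.union_subset (hcar ka (Or.inl rfl)) (hcar i' (Or.inr (Or.inl rfl))))
      (hcar j' (Or.inr (Or.inr rfl)))
  -- a point where both are positive
  set z'' : N'.V → ℝ := fun l => pt ka l + pt kb l with hz''
  have hz''Z : z'' ∈ N'.Δ.Z := by
    refine Cx.mem_Z (fun l => add_nonneg (pt_nonneg _ _) (pt_nonneg _ _)) _ hkb (fun l hl => ?_)
    by_contra hcon
    simp only [Set.mem_insert_iff, Set.mem_singleton_iff, not_or] at hcon
    apply hl
    show pt ka l + pt kb l = 0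
    have h1 : l ≠ ka := by
      rcases hin with h | h
      · rw [h]; exact hcon.2.1
      · rw [h]; exact hcon.2.2
    rw [pt_ne h1, pt_ne hcon.1]
    norm_num
  have h1 : z'' ka ≠ 0 := by
    have h1 : 0 < pt ka ka + pt kb ka := by
      rw [pt_self]
      linarith [pt_nonneg kb ka]
    exact h1.ne'
  have h2 : z'' kb ≠ 0 := by
    have h1 : 0 < pt ka kb + pt kb kb := by
      rw [pt_self kb]
      linarith [pt_nonneg ka kb]
    exact h1.ne'
  have h3 := X7_lpos hca' ha hz''Z h1 hka'
  have h4 := X7_lpos hcb' hb hz''Z h2 hkb'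
  have h5 := N'.chart.inf a b hz''Z
  rw [hab, N'.chart.zero hz''Z] at h5
  have h6 := lt_min h3 h4
  linarith

variable {V : Type} [Fintype V] {K : Cx V} {N : Mdl H} {s : V → H} {c : V → N.V → ℤ}

omit [IsOrderedAddMonoid H] in
theorem X7_pos (hs : SigL2 K N s c) {v : V} {z : N.V → ℝ} (hz : z ∈ N.Δ.Z) {i : N.V}
    (h1 : z i ≠ 0) (h2 : v ∈ lab c i) : 0 < N.ev (s v) z :=
  X7_lpos (hs.lin v) (hs.sig.pos v) hz h1 h2

omit [Fintype V] in
theorem X7_ev0 {u v w : V} {z : N.V → ℝ} (hz : z ∈ N.Δ.Z) :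
    N.ev (s u ⊓ s v ⊓ s w) z = min (min (N.ev (s u) z) (N.ev (s v) z)) (N.ev (s w) z) := by
  rw [N.chart.inf _ _ hz, N.chart.inf _ _ hz]

/-- part 1 -/
theorem X7_edge (hf : S_clF) (he : S_ctE) (hi : S_inc) (hl : S_linall) (hm : S_lim) (hg : S_GR)
    (hs : SigL2 K N s c) (hdim : N.Δ.Dim2) {u v w : V} (huv : u ≠ v) (huw : u ≠ w) (hvw : v ≠ w)
    (hK : K.face {u, v, w}) (i j : N.V) (hij : i ≠ j) (hface : N.Δ.face {i, j})
    (hlab : lab c i ∪ lab c j = {u, v, w}) : ∃ k, k ≠ i ∧ k ≠ j ∧ N.Δ.face {i, j, k} := by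
  classical
  by_contra hno
  have hno' : ∀ k, k ≠ i → k ≠ j → ¬ N.Δ.face {i, j, k} := fun k h1 h2 h3 => hno ⟨k, h1, h2, h3⟩
  choose x hx using fun l => N.chart.hat l
  have w0nn : ∀ z ∈ N.Δ.Z, 0 ≤ N.ev (s u ⊓ s v ⊓ s w) z := fun z hz =>
    N.chart.nonneg_iff.1 (le_inf (le_inf (hs.sig.pos u) (hs.sig.pos v)) (hs.sig.pos w)) z hz
  have w0pos : ∀ z ∈ N.Δ.Z, z i ≠ 0 → z j ≠ 0 → 0 < N.ev (s u ⊓ s v ⊓ s w) z := by
    intro z hz h1 h2
    have key : ∀ v' ∈ ({u, v, w} : Set V), 0 < N.ev (s v') z := by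
      intro v' hv'
      rw [← hlab] at hv'
      rcases hv' with h | h
      · exact X7_pos hs hz h1 h
      · exact X7_pos hs hz h2 h
    rw [X7_ev0 hz]
    exact lt_min (lt_min (key u (by simp)) (key v (by simp))) (key w (by simp))
  -- the elements a and b
  have ea : ∀ z ∈ N.Δ.Z, N.ev (((x i - x j) ⊔ 0) ⊓ ((x j + x j - x i) ⊔ 0)) z =
      min (max (z i - z j) 0) (max (z j + z j - z i) 0) := by
    intro z hz
    rw [N.chart.inf _ _ hz, N.chart.sup _ _ z hz, N.chart.sup _ _ z hz, N.chart.sub _ _ hz,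
      N.chart.sub _ _ hz, N.chart.add _ _ z hz, N.chart.zero hz, hx i z hz, hx j z hz]
  have eb : ∀ z ∈ N.Δ.Z, N.ev ((s u ⊓ s v ⊓ s w) ⊓ ((∑ l, x l) - x i - x j + ((x j - x i) ⊔ 0) +
      ((x i - (x j + x j)) ⊔ 0))) z = min (N.ev (s u ⊓ s v ⊓ s w) z)
        ((∑ l, z l) - z i - z j + max (z j - z i) 0 + max (z i - (z j + z j)) 0) := by
    intro z hz
    rw [N.chart.inf _ _ hz, N.chart.add _ _ z hz, N.chart.add _ _ z hz, N.chart.sup _ _ z hz,
      N.chart.sup _ _ z hz, N.chart.sub _ _ hz, N.chart.sub _ _ hz, N.chart.sub _ _ hz,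
      N.chart.sub _ _ hz, N.chart.add _ _ z hz, N.chart.zero hz, N.chart.sum _ _ hz, hx i z hz,
      hx j z hz]
    congr 5
    exact Finset.sum_congr rfl fun l _ => hx l z hz
  set a : H := ((x i - x j) ⊔ 0) ⊓ ((x j + x j - x i) ⊔ 0) with ha_def
  set b : H := (s u ⊓ s v ⊓ s w) ⊓ ((∑ l, x l) - x i - x j + ((x j - x i) ⊔ 0) +
      ((x i - (x j + x j)) ⊔ 0)) with hb_def
  have apos : ∀ z ∈ N.Δ.Z, 0 < N.ev a z ↔ z j < z i ∧ z i < z j + z j := by
    intro z hz
    rw [ea z hz, lt_min_iff, lt_max_iff, lt_max_iff]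
    constructor
    · rintro ⟨h1 | h1, h2 | h2⟩
      · exact ⟨by linarith, by linarith⟩
      · exact absurd h2 (lt_irrefl _)
      · exact absurd h1 (lt_irrefl _)
      · exact absurd h1 (lt_irrefl _)
    · rintro ⟨h1, h2⟩
      exact ⟨Or.inl (by linarith), Or.inl (by linarith)⟩
  have hsupp : ∀ z ∈ N.Δ.Z, 0 < N.ev a z → ∀ l, z l ≠ 0 → l = i ∨ l = j := by
    intro z hz h l hl
    by_contra hcon
    rw [not_or] at hcon
    obtain ⟨h1, h2⟩ := (apos z hz).1 h
    refine hno' l hcon.1 hcon.2 (Cx.face_of_mem hz _ ?_)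
    intro k hk
    have h3 : 0 < z j := by linarith
    have h4 : 0 < z i := by linarith
    simp only [Set.mem_insert_iff, Set.mem_singleton_iff] at hk
    rcases hk with rfl | rfl | rfl
    · exact h4.ne'
    · exact h3.ne'
    · exact hl
  have ha0 : 0 ≤ a := by
    refine N.chart.nonneg_iff.2 fun z hz => ?_
    rw [ea z hz]
    exact le_min (le_max_right _ _) (le_max_right _ _)
  have Rnn : ∀ z ∈ N.Δ.Z, 0 ≤ (∑ l, z l) - z i - z j := by
    intro z hz
    have := X7_sum2 hz.1 hij
    linarith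
  have hb0 : 0 ≤ b := by
    refine N.chart.nonneg_iff.2 fun z hz => ?_
    rw [eb z hz]
    refine le_min (w0nn z hz) ?_
    have h1 := Rnn z hz
    have h2 : 0 ≤ max (z j - z i) 0 := le_max_right _ _
    have h3 : 0 ≤ max (z i - (z j + z j)) 0 := le_max_right _ _
    linarith
  have zab : ∀ r t : ℝ, 0 ≤ r → 0 ≤ t → (fun l => r * pt i l + t * pt j l) ∈ N.Δ.Z :=
    fun r t hr ht => Cx.pair_mem hface hr ht
  have vi : ∀ r t : ℝ, r * pt i i + t * pt j i = r := by
    intro r t
    rw [pt_self, pt_ne hij]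
    ring
  have vj : ∀ r t : ℝ, r * pt i j + t * pt j j = t := by
    intro r t
    rw [pt_self, pt_ne hij.symm]
    ring
  have ha1 : a ≠ 0 := by
    intro h
    have h1 := (apos _ (zab 3 2 (by norm_num) (by norm_num))).2 (by
      rw [vi, vj]
      norm_num)
    rw [h, N.chart.zero (zab 3 2 (by norm_num) (by norm_num))] at h1
    exact lt_irrefl _ h1
  have hb1 : b ≠ 0 := by
    intro h
    have hZ := zab 1 3 (by norm_num) (by norm_num)
    have h1 := eb _ hZ
    rw [h, N.chart.zero hZ] at h1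
    have h2 := w0pos _ hZ (by rw [vi]; norm_num) (by rw [vj]; norm_num)
    have h3 := Rnn _ hZ
    rw [vi, vj] at h1 h3
    have h4 : (0 : ℝ) < max (3 - 1) 0 := lt_max_of_lt_left (by norm_num)
    have h5 : (0 : ℝ) ≤ max (1 - (3 + 3)) 0 := le_max_right _ _
    have h6 := lt_min h2 (show (0 : ℝ) < (∑ l, (1 * pt i l + 3 * pt j l)) - 1 - 3 + max (3 - 1) 0 +
      max (1 - (3 + 3)) 0 by linarith)
    linarith
  have hab : a ⊓ b = 0 := by
    refine N.chart.ext fun z hz => ?_
    rw [N.chart.inf _ _ hz, N.chart.zero hz]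
    have h1 := N.chart.nonneg_iff.1 ha0 z hz
    have h2 := N.chart.nonneg_iff.1 hb0 z hz
    rcases h1.eq_or_lt with h3 | h3
    · rw [← h3]
      exact min_eq_left h2
    · have h4 := hsupp z hz h3
      obtain ⟨h5, h6⟩ := (apos z hz).1 h3
      have h7 : N.ev b z = 0 := by
        rw [eb z hz, X7_sumeq hij (fun l hl1 hl2 => by
          by_contra h8
          rcases h4 l h8 with h9 | h9
          · exact hl1 h9
          · exact hl2 h9), max_eq_right (by linarith), max_eq_right (by linarith)]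
        have h8 : z i + z j - z i - z j + 0 + 0 = 0 := by ring
        rw [h8]
        exact min_eq_right (w0nn z hz)
      rw [h7]
      exact min_eq_right h1
  have w00 : 0 ≤ s u ⊓ s v ⊓ s w := N.chart.nonneg_iff.2 w0nn
  have hIa : Inc a (s u ⊓ s v ⊓ s w) := by
    refine (hi H N a _ ha0 w00).2 fun z hz h => ?_
    by_contra hne
    have h1 : 0 < N.ev a z := lt_of_le_of_ne (N.chart.nonneg_iff.1 ha0 z hz) (Ne.symm hne)
    obtain ⟨h5, h6⟩ := (apos z hz).1 h1
    have h3 : 0 < z j := by linarith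
    have h4 : 0 < z i := by linarith
    have := w0pos z hz h4.ne' h3.ne'
    linarith
  have hIb : Inc b (s u ⊓ s v ⊓ s w) := by
    refine (hi H N b _ hb0 w00).2 fun z hz h => ?_
    refine le_antisymm ?_ (N.chart.nonneg_iff.1 hb0 z hz)
    rw [eb z hz, h]
    exact min_le_left _ _
  have hden : ∀ y : H, 0 ≤ y → Inc y (s u ⊓ s v ⊓ s w) → y ⊓ (a + b) = 0 → y = 0 := by
    intro y hy hyI hyab
    refine N.chart.inj y fun z hz => ?_
    -- where a or b is positive
    have key : ∀ z ∈ N.Δ.Z, 0 < N.ev a z + N.ev b z → N.ev y z = 0 := by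
      intro z hz h
      have h1 := N.chart.inf y (a + b) hz
      rw [hyab, N.chart.zero hz, N.chart.add _ _ z hz] at h1
      have h2 := N.chart.nonneg_iff.1 hy z hz
      rcases h2.eq_or_lt with h3 | h3
      · exact h3.symm
      · have := lt_min h3 h
        linarith
    have h1 := N.chart.nonneg_iff.1 ha0 z hz
    have h2 := N.chart.nonneg_iff.1 hb0 z hz
    rcases (w0nn z hz).eq_or_lt with h3 | h3
    · exact (hi H N y _ hy w00).1 hyI z hz h3.symm
    · by_cases h4 : 0 < N.ev a z + N.ev b z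
      · exact key z hz h4
      · have ha' : N.ev a z = 0 := by linarith
        have hb' : N.ev b z = 0 := by linarith
        have h5 := Rnn z hz
        have h6 : 0 ≤ max (z j - z i) 0 := le_max_right _ _
        have h7 : 0 ≤ max (z i - (z j + z j)) 0 := le_max_right _ _
        have h8 : (∑ l, z l) - z i - z j + max (z j - z i) 0 + max (z i - (z j + z j)) 0 = 0 := by
          rw [eb z hz] at hb'
          rcases min_choice (N.ev (s u ⊓ s v ⊓ s w) z) ((∑ l, z l) - z i - z j +
            max (z j - z i) 0 + max (z i - (z j + z j)) 0) with h | h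
          · rw [h] at hb'
            linarith
          · rw [h] at hb'
            exact hb'
        have h9 : max (z j - z i) 0 = 0 := by linarith
        have h10 : max (z i - (z j + z j)) 0 = 0 := by linarith
        have h11 : z j ≤ z i := by
          have := le_max_left (z j - z i) 0
          linarith
        have h12 : z i ≤ z j + z j := by
          have := le_max_left (z i - (z j + z j)) 0
          linarith
        have h13 : ∀ l, l ≠ i → l ≠ j → z l = 0 := by
          intro l hl1 hl2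
          have h14 := X7_sum3 hz.1 hij hl1.symm hl2.symm
          have h15 := hz.1 l
          linarith
        have h14 : z i = z j ∨ z i = z j + z j := by
          by_contra hcon
          rw [not_or] at hcon
          have h15 := (apos z hz).2 ⟨lt_of_le_of_ne h11 (Ne.symm hcon.1),
            lt_of_le_of_ne h12 hcon.2⟩
          linarith
        refine hm H N y z (fun l => 3 * pt i l + 2 * pt j l) hz fun ε hε => ?_
        have hZ : (fun l => z l + ε * (3 * pt i l + 2 * pt j l)) ∈ N.Δ.Z := by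
          refine Cx.mem_Z (fun l => add_nonneg (hz.1 l) (mul_nonneg hε.le (add_nonneg
            (mul_nonneg (by norm_num) (pt_nonneg _ _)) (mul_nonneg (by norm_num)
            (pt_nonneg _ _))))) _ hface fun l hl => ?_
          by_contra hcon
          simp only [Set.mem_insert_iff, Set.mem_singleton_iff, not_or] at hcon
          apply hl
          show z l + ε * (3 * pt i l + 2 * pt j l) = 0
          rw [h13 l hcon.1 hcon.2, pt_ne hcon.1, pt_ne hcon.2]
          ring
        refine ⟨hZ, key _ hZ ?_⟩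
        have h15 : 0 < N.ev a (fun l => z l + ε * (3 * pt i l + 2 * pt j l)) := by
          refine (apos _ hZ).2 ?_
          have e1 : z i + ε * (3 * pt i i + 2 * pt j i) = z i + 3 * ε := by
            rw [pt_self, pt_ne hij]
            ring
          have e2 : z j + ε * (3 * pt i j + 2 * pt j j) = z j + 2 * ε := by
            rw [pt_self, pt_ne hij.symm]
            ring
          rw [e1, e2]
          have h16 := hz.1 j
          rcases h14 with h | h
          · constructor <;> linarith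
          · constructor <;> linarith
        have h16 := N.chart.nonneg_iff.1 hb0 _ hZ
        linarith
  obtain ⟨q, hq, hc, ht, hca, hcb⟩ := hs.sig.r5 u v w huv huw hvw hK a b ha0 hb0 ha1 hb1 hab
    hIa hIb hden
  exact X7_core hf he hl hg hdim ha0 hb0 hab hq hc ht hca hcb i j hsupp

/-- part 2 -/
theorem X7_vert (h2 : S_X2) (hf : S_clF) (he : S_ctE) (hi : S_inc) (hl : S_linall) (hg : S_GR)
    (hs : SigL2 K N s c) (hdim : N.Δ.Dim2) {u v w : V} (huv : u ≠ v) (huw : u ≠ w) (hvw : v ≠ w)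
    (hK : K.face {u, v, w}) (i : N.V) (hlab : lab c i = {u, v, w}) :
    ∃ j, j ≠ i ∧ N.Δ.face {i, j} := by
  classical
  by_contra hno
  have hno' : ∀ k, k ≠ i → ¬ N.Δ.face {i, k} := fun k h1 h3 => hno ⟨k, h1, h3⟩
  choose x hx using fun l => N.chart.hat l
  have w0nn : ∀ z ∈ N.Δ.Z, 0 ≤ N.ev (s u ⊓ s v ⊓ s w) z := fun z hz =>
    N.chart.nonneg_iff.1 (le_inf (le_inf (hs.sig.pos u) (hs.sig.pos v)) (hs.sig.pos w)) z hz
  have w0pos : ∀ z ∈ N.Δ.Z, z i ≠ 0 → 0 < N.ev (s u ⊓ s v ⊓ s w) z := by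
    intro z hz h1
    have key : ∀ v' ∈ ({u, v, w} : Set V), 0 < N.ev (s v') z := by
      intro v' hv'
      rw [← hlab] at hv'
      exact X7_pos hs hz h1 hv'
    rw [X7_ev0 hz]
    exact lt_min (lt_min (key u (by simp)) (key v (by simp))) (key w (by simp))
  have eb : ∀ z ∈ N.Δ.Z, N.ev ((s u ⊓ s v ⊓ s w) ⊓ ((∑ l, x l) - x i)) z =
      min (N.ev (s u ⊓ s v ⊓ s w) z) ((∑ l, z l) - z i) := by
    intro z hz
    rw [N.chart.inf _ _ hz, N.chart.sub _ _ hz, N.chart.sum _ _ hz, hx i z hz]
    congr 2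
    exact Finset.sum_congr rfl fun l _ => hx l z hz
  set b : H := (s u ⊓ s v ⊓ s w) ⊓ ((∑ l, x l) - x i) with hb_def
  have hsupp : ∀ z ∈ N.Δ.Z, z i ≠ 0 → ∀ l, z l ≠ 0 → l = i := by
    intro z hz h l hl
    by_contra hcon
    refine hno' l hcon (Cx.face_of_mem hz _ ?_)
    intro k hk
    simp only [Set.mem_insert_iff, Set.mem_singleton_iff] at hk
    rcases hk with rfl | rfl
    · exact h
    · exact hl
  have ha0 : 0 ≤ x i := N.chart.nonneg_iff.2 fun z hz => by rw [hx i z hz]; exact hz.1 i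
  have Rnn : ∀ z ∈ N.Δ.Z, 0 ≤ (∑ l, z l) - z i := by
    intro z hz
    have := X7_sum1 hz.1 i
    linarith
  have hb0 : 0 ≤ b := by
    refine N.chart.nonneg_iff.2 fun z hz => ?_
    rw [eb z hz]
    exact le_min (w0nn z hz) (Rnn z hz)
  have ha1 : x i ≠ 0 := by
    intro h
    have h1 := hx i _ (Cx.pt_mem i)
    rw [h, N.chart.zero (Cx.pt_mem i), pt_self] at h1
    norm_num at h1
  have w00 : 0 ≤ s u ⊓ s v ⊓ s w := N.chart.nonneg_iff.2 w0nn
  have hb1 : b ≠ 0 := by
    intro h
    obtain ⟨a0, ha0', -⟩ := h2 H V K N s c hs u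
    have hne : a0 ≠ i := by
      intro h1
      rw [h1, hlab] at ha0'
      have h3 : v ∈ ({u} : Set V) := by
        rw [← ha0']
        simp
      exact huv (Set.mem_singleton_iff.1 h3).symm
    have hx0 : 0 ≤ x a0 := N.chart.nonneg_iff.2 fun z hz => by rw [hx a0 z hz]; exact hz.1 a0
    have h3 : x a0 ⊓ (s u ⊓ s v ⊓ s w) = 0 := by
      refine N.chart.ext fun z hz => ?_
      rw [N.chart.inf _ _ hz, N.chart.zero hz, hx a0 z hz]
      rcases (hz.1 a0).eq_or_lt with h4 | h4
      · rw [← h4]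
        exact min_eq_left (w0nn z hz)
      · have h5 := eb z hz
        rw [h, N.chart.zero hz] at h5
        have h6 : 0 < (∑ l, z l) - z i := by
          have := X7_sum2 hz.1 hne
          linarith
        have h7 : N.ev (s u ⊓ s v ⊓ s w) z = 0 := by
          rcases (w0nn z hz).eq_or_lt with h8 | h8
          · exact h8.symm
          · have := lt_min h8 h6
            linarith
        rw [h7]
        exact min_eq_right h4.le
    have h4 : Inc (x a0) (oth2 s u v) := hs.sig.r1 u v w huv huw hvw hK (x a0) hx0 h3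
    have ho : N.Lin (oth2 s u v) (fun l => (∑ y, c y l) - c u l - c v l) := by
      unfold oth2
      exact ((Mdl.Lin.sum Finset.univ hs.lin).sub (hs.lin u)).sub (hs.lin v)
    have hcn : ∀ y l, 0 ≤ c y l := fun y l => (hs.lin y).nonneg (hs.sig.pos y) l
    have hon : 0 ≤ oth2 s u v := by
      refine ho.nonneg' fun l => ?_
      have h5 : c u l + c v l ≤ ∑ y, c y l := by
        have h6 := Finset.sum_le_sum_of_subset_of_nonneg (Finset.subset_univ ({u, v} : Finset V))
          (fun y _ _ => hcn y l)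
        rwa [Finset.sum_pair huv] at h6
      linarith
    have h5 := (hi H N (x a0) _ hx0 hon).1 h4 (pt a0) (Cx.pt_mem a0) ?_
    · rw [hx a0 _ (Cx.pt_mem a0), pt_self] at h5
      norm_num at h5
    · rw [ho.pt]
      have h6 : ∀ y, y ≠ u → c y a0 = 0 := by
        intro y hy
        by_contra hcon
        have h7 : y ∈ lab c a0 := by
          have h8 := hcn y a0
          show 0 < c y a0
          omega
        rw [ha0'] at h7
        exact hy h7
      have h7 : ∑ y, c y a0 = c u a0 := by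
        rw [Finset.sum_eq_single u]
        · intro y _ hy
          exact h6 y hy
        · intro hh
          exact absurd (Finset.mem_univ _) hh
      rw [h7, h6 v huv.symm]
      norm_num
  have hab : x i ⊓ b = 0 := by
    refine N.chart.ext fun z hz => ?_
    rw [N.chart.inf _ _ hz, N.chart.zero hz, hx i z hz]
    have h2 := N.chart.nonneg_iff.1 hb0 z hz
    rcases (hz.1 i).eq_or_lt with h3 | h3
    · rw [← h3]
      exact min_eq_left h2
    · have h4 := hsupp z hz h3.ne'
      have h7 : N.ev b z = 0 := by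
        rw [eb z hz, Finset.sum_eq_single i]
        · rw [sub_self]
          exact min_eq_right (w0nn z hz)
        · intro l _ hl
          by_contra h8
          exact hl (h4 l h8)
        · intro hh
          exact absurd (Finset.mem_univ _) hh
      rw [h7]
      exact min_eq_right h3.le
  have hIa : Inc (x i) (s u ⊓ s v ⊓ s w) := by
    refine (hi H N (x i) _ ha0 w00).2 fun z hz h => ?_
    rw [hx i z hz]
    by_contra hne
    have := w0pos z hz hne
    linarith
  have hIb : Inc b (s u ⊓ s v ⊓ s w) := by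
    refine (hi H N b _ hb0 w00).2 fun z hz h => ?_
    refine le_antisymm ?_ (N.chart.nonneg_iff.1 hb0 z hz)
    rw [eb z hz, h]
    exact min_le_left _ _
  have hden : ∀ y : H, 0 ≤ y → Inc y (s u ⊓ s v ⊓ s w) → y ⊓ (x i + b) = 0 → y = 0 := by
    intro y hy hyI hyab
    refine N.chart.inj y fun z hz => ?_
    have h1 := N.chart.inf y (x i + b) hz
    rw [hyab, N.chart.zero hz, N.chart.add _ _ z hz, hx i z hz] at h1
    have h2 := N.chart.nonneg_iff.1 hy z hz
    rcases (w0nn z hz).eq_or_lt with h3 | h3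
    · exact (hi H N y _ hy w00).1 hyI z hz h3.symm
    · rcases h2.eq_or_lt with h4 | h4
      · exact h4.symm
      · exfalso
        have h5 := hz.1 i
        have h6 := N.chart.nonneg_iff.1 hb0 z hz
        have h7 : 0 < z i + N.ev b z := by
          rcases h5.eq_or_lt with h8 | h8
          · have h9 : 0 < (∑ l, z l) - z i := by
              rcases (Rnn z hz).eq_or_lt with h10 | h10
              · exfalso
                have h11 : ∀ l, z l = 0 := by
                  intro l
                  have h12 := X7_sum1 hz.1 l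
                  have h13 := hz.1 l
                  linarith
                have h12 : N.ev (s u) z = 0 := by
                  rw [hs.lin u z hz]
                  exact Finset.sum_eq_zero fun l _ => by rw [h11 l, mul_zero]
                rw [X7_ev0 hz] at h3
                have h13 := lt_min_iff.1 (lt_min_iff.1 h3).1
                linarith [h13.1]
              · exact h10
            rw [eb z hz]
            have := lt_min h3 h9
            linarith
          · linarith
        have := lt_min h4 h7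
        linarith
  obtain ⟨q, hq, hc, ht, hca, hcb⟩ := hs.sig.r5 u v w huv huw hvw hK (x i) b ha0 hb0 ha1 hb1 hab
    hIa hIb hden
  refine X7_core hf he hl hg hdim ha0 hb0 hab hq hc ht hca hcb i i fun z hz h l hl => Or.inl ?_
  rw [hx i z hz] at h
  exact hsupp z hz h.ne' l hl

end X7

theorem prfX7 (_h1 : S_X1) (h2 : S_X2) (_h3 : S_X3) (hf : S_clF) (he : S_ctE) (hi : S_inc)
    (_hL : S_incL) (hl : S_linall) (hm : S_lim) (hg : S_GR) : S_X7 := by
  intro H _ _ _ V _ K N s c hs hdim σ hσ htri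
  obtain ⟨u, v, w, huv, huw, hvw, rfl⟩ := htri
  refine ⟨fun i j hij hface hlab => ?_, fun i hlab => ?_⟩
  · exact X7_edge hf he hi hl hm hg hs hdim huv huw hvw hσ i j hij hface hlab
  · exact X7_vert h2 hf he hi hl hg hs hdim huv huw hvw hσ i hlab

end Pool.Agent.MP552024
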