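import Pool.Agent.Work.MP_552024_lc.Two.X89aux

/-!
X8: two sides of inner edges. MP_552024_lc, dimension at most three.
-/

set_option autoImplicit false

namespace Pool.Agent.MP552024

section

variable {H : Type} [AddCommGroup H] [Lattice H] [IsOrderedAddMonoid H]

open Classical in
/-- the element cutting out the middle part of the edge `{i, j}` -/
theorem x8_q (N : Mdl H) (i j : N.V) : ∃ q : H, 0 ≤ q ∧
    (∀ z ∈ N.Δ.Z, N.ev q z = 0 ↔ (∀ l, l ≠ i → l ≠ j → z l = 0) ∧ z i ≤ 2 * z j ∧ z j ≤ 2 * z i) := by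
  have hLP : (fun x : N.V → ℝ => (∑ l, (((if l = i ∨ l = j then 0 else 1 : ℤ)) : ℝ) * x l) +
      max (x i - (x j + x j)) 0 + max (x j - (x i + x i)) 0) ∈ LP N.V := by
    refine LP_add (LP_add (LP_lin _) (LP_max (LP_sub (LP_coord i)
      (LP_add (LP_coord j) (LP_coord j))) LP_zero)) (LP_max (LP_sub (LP_coord j)
      (LP_add (LP_coord i) (LP_coord i))) LP_zero)
  obtain ⟨q, hq⟩ := N.chart.sur _ hLP
  have h1 : ∀ z ∈ N.Δ.Z, 0 ≤ ∑ l, (((if l = i ∨ l = j then 0 else 1 : ℤ)) : ℝ) * z l := by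
    intro z hz
    refine Finset.sum_nonneg fun l _ => mul_nonneg ?_ (hz.1 l)
    split_ifs <;> simp
  refine ⟨q, N.chart.nonneg_iff.2 fun z hz => ?_, fun z hz => ?_⟩
  · rw [hq z hz]
    exact add_nonneg (add_nonneg (h1 z hz) (le_max_right _ _)) (le_max_right _ _)
  · rw [hq z hz]
    have h2 := h1 z hz
    have h3 := le_max_right (z i - (z j + z j)) 0
    have h4 := le_max_right (z j - (z i + z i)) 0
    constructor
    · intro h
      have e1 : ∑ l, (((if l = i ∨ l = j then 0 else 1 : ℤ)) : ℝ) * z l = 0 := by linarith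
      have e2 : max (z i - (z j + z j)) 0 = 0 := by linarith
      have e3 : max (z j - (z i + z i)) 0 = 0 := by linarith
      refine ⟨fun l hli hlj => ?_, ?_, ?_⟩
      · have := (Finset.sum_eq_zero_iff_of_nonneg (fun l _ => mul_nonneg (by
          split_ifs <;> simp) (hz.1 l))).1 e1 l (Finset.mem_univ l)
        simpa [hli, hlj] using this
      · have := le_max_left (z i - (z j + z j)) 0
        rw [e2] at this
        linarith
      · have := le_max_left (z j - (z i + z i)) 0
        rw [e3] at this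
        linarith
    · rintro ⟨e1, e2, e3⟩
      rw [max_eq_right (by linarith), max_eq_right (by linarith), Finset.sum_eq_zero]
      · simp
      · intro l _
        by_cases h5 : l = i ∨ l = j
        · simp [h5]
        · push Not at h5
          rw [e1 l h5.1 h5.2, mul_zero]

/-- connectedness of a star-shaped zero set -/
theorem x8_conn (hi : S_inc) (hs : S_seg) {N : Mdl H} {q : H} (hq : 0 ≤ q) (e : N.V → ℝ)
    (he : ∃ i, e i ≠ 0) (heZ : e ∈ N.Δ.Z) (heq : N.ev q e = 0)
    (hseg : ∀ z ∈ N.Δ.Z, N.ev q z = 0 → ∀ r : ℝ, 0 ≤ r → r ≤ 1 →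
      (fun l => (1 - r) * e l + r * z l) ∈ N.Δ.Z ∧
      N.ev q (fun l => (1 - r) * e l + r * z l) = 0) : Conn q := by
  have key : ∀ x y : H, 0 ≤ x → 0 ≤ y → NZ (q + x + y) → Inc (x ⊓ y) q → N.ev x e = 0 →
      Inc x q := by
    intro x y hx hy hnz hinc hxe
    refine (hi H N x q hx hq).2 fun z hz hqz => ?_
    by_cases h0 : ∃ i, z i ≠ 0
    · exact hs H N q x y hq hx hy hnz hinc e z he h0 (hseg z hz hqz) hxe
    · push Not at h0
      have e1 : z = fun i => (0 : ℝ) * e i := by
        funext i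
        rw [h0 i, zero_mul]
      rw [e1, N.chart.hom x heZ le_rfl, zero_mul]
  intro x y hx hy hnz hinc
  have h1 := (hi H N (x ⊓ y) q (le_inf hx hy) hq).1 hinc e heZ heq
  rw [N.chart.inf _ _ heZ] at h1
  rcases min_choice (N.ev x e) (N.ev y e) with h2 | h2
  · exact Or.inl (key x y hx hy hnz hinc (by rw [← h2, h1]))
  · refine Or.inr (key y x hy hx ?_ (by rwa [inf_comm]) (by rw [← h2, h1]))
    rwa [add_right_comm]

theorem prfX8 (h1 : S_X1) (hf : S_clF) (he : S_ctE) (hi : S_inc) (hz : S_nzZ) (hs : S_seg)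
    (hl : S_linall) (hm : S_lim) (hg : S_GR) : S_X8 := by
  intro H _ _ _ V _ K N s c hS hd σ hK hσ i j k hij hki hkj hlab hface
  by_contra hno
  push Not at hno
  obtain ⟨u, v, w, huv, huw, hvw, rfl⟩ := hσ
  have hfij : N.Δ.face {i, j} := N.Δ.down _ _ (by
    rintro x (rfl | rfl) <;> simp) hface
  obtain ⟨q, hq0, hqz⟩ := x8_q N i j
  -- points of the zero set
  have hpt : ∀ a b : ℝ, 0 ≤ a → 0 ≤ b → a ≤ 2 * b → b ≤ 2 * a →
      (fun l => a * pt i l + b * pt j l) ∈ N.Δ.Z ∧
      N.ev q (fun l => a * pt i l + b * pt j l) = 0 := by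
    intro a b ha hb hab hba
    have hZ := Cx.pair_mem hfij ha hb
    refine ⟨hZ, (hqz _ hZ).2 ⟨fun l hli hlj => ?_, ?_, ?_⟩⟩
    · show a * pt i l + b * pt j l = 0
      rw [pt_ne hli, pt_ne hlj]
      ring
    · show a * pt i i + b * pt j i ≤ 2 * (a * pt i j + b * pt j j)
      rw [pt_self, pt_self, pt_ne hij, pt_ne hij.symm]
      linarith
    · show a * pt i j + b * pt j j ≤ 2 * (a * pt i i + b * pt j i)
      rw [pt_self, pt_self, pt_ne hij, pt_ne hij.symm]
      linarith
  obtain ⟨hZ1, hq1⟩ := hpt 1 1 (by norm_num) (by norm_num) (by norm_num) (by norm_num)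
  have hne1 : (fun l => 1 * pt i l + 1 * pt j l) i ≠ 0 := by
    show 1 * pt i i + 1 * pt j i ≠ 0
    rw [pt_self, pt_ne hij]
    norm_num
  have hconn : Conn q := by
    refine x8_conn hi hs hq0 (fun l => 1 * pt i l + 1 * pt j l) ⟨i, hne1⟩ hZ1 hq1 ?_
    intro z hzZ hzq r hr0 hr1
    obtain ⟨h2, h3, h4⟩ := (hqz z hzZ).1 hzq
    have e1 : (fun l => (1 - r) * (fun l => 1 * pt i l + 1 * pt j l) l + r * z l) =
        fun l => ((1 - r) + r * z i) * pt i l + ((1 - r) + r * z j) * pt j l := by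
      funext l
      show (1 - r) * (1 * pt i l + 1 * pt j l) + r * z l = _
      by_cases hli : l = i
      · subst hli
        rw [pt_self, pt_ne hij]
        ring
      · by_cases hlj : l = j
        · subst hlj
          rw [pt_self, pt_ne hij.symm]
          ring
        · rw [pt_ne hli, pt_ne hlj, h2 l hli hlj]
          ring
    rw [e1]
    have h5 : 0 ≤ 1 - r := by linarith
    have h6 := mul_nonneg hr0 (hzZ.1 i)
    have h7 := mul_nonneg hr0 (hzZ.1 j)
    have h8 := mul_le_mul_of_nonneg_left h3 hr0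
    have h9 := mul_le_mul_of_nonneg_left h4 hr0
    refine hpt _ _ (by linarith) (by linarith) (by linarith) (by linarith)
  have hnnz : ¬ NZ q := by
    intro h
    exact hne1 ((hz H N q hq0).1 h _ hZ1 hq1 i)
  -- two rays
  have htwo : Two q := by
    refine ⟨hnnz, fun hsing => ?_⟩
    obtain ⟨a1, ha1⟩ := N.chart.sur _ (LP_max (LP_sub (LP_coord i) (LP_coord j)) LP_zero)
    obtain ⟨b1, hb1⟩ := N.chart.sur _ (LP_max (LP_sub (LP_coord j) (LP_coord i)) LP_zero)
    have ha0 : 0 ≤ a1 := N.chart.nonneg_iff.2 fun z hz => by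
      rw [ha1 z hz]; exact le_max_right _ _
    have hb0 : 0 ≤ b1 := N.chart.nonneg_iff.2 fun z hz => by
      rw [hb1 z hz]; exact le_max_right _ _
    have hab : a1 ⊓ b1 = 0 := by
      refine N.chart.ext fun z hz => ?_
      rw [N.chart.inf _ _ hz, ha1 z hz, hb1 z hz, N.chart.zero hz]
      rcases le_total (z i) (z j) with h | h
      · rw [max_eq_right (show z i - z j ≤ 0 by linarith)]
        exact min_eq_left (le_max_right _ _)
      · rw [max_eq_right (show z j - z i ≤ 0 by linarith)]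
        exact min_eq_right (le_max_right _ _)
    rcases hsing.2 a1 b1 ha0 hb0 hab with h | h
    · obtain ⟨hZ2, hq2⟩ := hpt 2 1 (by norm_num) (by norm_num) (by norm_num) (by norm_num)
      have := (hi H N a1 q ha0 hq0).1 h _ hZ2 hq2
      rw [ha1 _ hZ2] at this
      simp only [pt_self, pt_ne hij, pt_ne hij.symm] at this
      norm_num at this
    · obtain ⟨hZ2, hq2⟩ := hpt 1 2 (by norm_num) (by norm_num) (by norm_num) (by norm_num)
      have := (hi H N b1 q hb0 hq0).1 h _ hZ2 hq2
      rw [hb1 _ hZ2] at this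
      simp only [pt_self, pt_ne hij, pt_ne hij.symm] at this
      norm_num at this
  -- supports of points in the zero set
  have hsupp : ∀ z ∈ N.Δ.Z, N.ev q z = 0 → (∃ l, z l ≠ 0) → {l | z l ≠ 0} = {i, j} := by
    intro z hzZ hzq hne
    obtain ⟨h2, h3, h4⟩ := (hqz z hzZ).1 hzq
    have hi0 := hzZ.1 i
    have hj0 := hzZ.1 j
    have h5 : z i ≠ 0 ∧ z j ≠ 0 := by
      by_contra hc
      have h6 : z i = 0 ∧ z j = 0 := by
        rcases not_and_or.1 hc with h | h
        · push Not at h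
          exact ⟨h, by linarith⟩
        · push Not at h
          exact ⟨by linarith, h⟩
      obtain ⟨l, hl⟩ := hne
      by_cases hli : l = i
      · exact hl (by rw [hli]; exact h6.1)
      · by_cases hlj : l = j
        · exact hl (by rw [hlj]; exact h6.2)
        · exact hl (h2 l hli hlj)
    ext l
    constructor
    · intro hl
      by_contra hc
      simp only [Set.mem_insert_iff, Set.mem_singleton_iff, not_or] at hc
      exact hl (h2 l hc.1 hc.2)
    · rintro (rfl | rfl)
      · exact h5.1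
      · exact h5.2
  have hw0 : 0 ≤ s u ⊓ s v ⊓ s w := x89_w0_nonneg hS u v w
  have hnz : NZ (q + s u ⊓ s v ⊓ s w) := by
    refine (hz H N _ (add_nonneg hq0 hw0)).2 fun z hzZ hzq => ?_
    by_contra hc
    push Not at hc
    rw [N.chart.add _ _ z hzZ] at hzq
    have h2 := N.chart.nonneg_iff.1 hq0 z hzZ
    have h3 := N.chart.nonneg_iff.1 hw0 z hzZ
    have h4 : N.ev q z = 0 := by linarith
    have h5 : 0 < N.ev (s u ⊓ s v ⊓ s w) z := by
      refine (x89_w0 hS u v w hzZ).2 ?_
      rw [hsupp z hzZ h4 hc, ← hlab]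
      rintro x (hx | hx)
      · exact x89_mem_uni.2 ⟨i, by simp, hx⟩
      · exact x89_mem_uni.2 ⟨j, by simp, hx⟩
    linarith
  have hnd : ∀ y : H, 0 ≤ y → y ⊓ q = 0 → y = 0 := by
    intro y hy hyq
    have h2 : ∀ z ∈ N.Δ.Z, 0 < N.ev q z → N.ev y z = 0 := by
      intro z hzZ hpos
      have h3 := N.chart.inf y q hzZ
      rw [hyq, N.chart.zero hzZ] at h3
      rcases min_choice (N.ev y z) (N.ev q z) with h4 | h4
      · rw [← h4, ← h3]
      · rw [h4] at h3
        linarith
    refine N.chart.inj y fun z hzZ => ?_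
    rcases (N.chart.nonneg_iff.1 hq0 z hzZ).lt_or_eq with h3 | h3
    · exact h2 z hzZ h3
    · obtain ⟨h4, -, -⟩ := (hqz z hzZ).1 h3.symm
      refine hm H N y z (pt k) hzZ fun ε hε => ?_
      have hZ : (fun l => z l + ε * pt k l) ∈ N.Δ.Z := by
        refine Cx.mem_Z (fun l => add_nonneg (hzZ.1 l) (mul_nonneg hε.le (pt_nonneg _ _))) _ hface
          (fun l hl => ?_)
        by_contra hc
        simp only [Set.mem_insert_iff, Set.mem_singleton_iff, not_or] at hc
        apply hl
        rw [pt_ne hc.2.2, h4 l hc.1 hc.2.1]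
        ring
      refine ⟨hZ, h2 _ hZ ?_⟩
      rcases (N.chart.nonneg_iff.1 hq0 _ hZ).lt_or_eq with h5 | h5
      · exact h5
      · have h6 := ((hqz _ hZ).1 h5.symm).1 k hki hkj
        simp only [pt_self] at h6
        have := hzZ.1 k
        linarith
  obtain ⟨a, b, ⟨ha0, hb0⟩, hab, -, hca, hcb⟩ := hS.sig.r4 u v w huv huw hvw hK q hq0 hconn htwo
    hnz hnd
  obtain ⟨W, D, C, hgood, i', j', ka, kb, hij', h2, h3, h4, h5, h6, hfe, hfa, hfb,
    ⟨zi, hzi, hzi', hqi⟩, ⟨zj, hzj, hzj', hqj⟩, ⟨za, hza, hza', -⟩, ⟨zb, hzb, hzb', -⟩⟩ :=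
    x89_main hf he hl hg hd ha0 hb0 hq0 hab hconn htwo hca hcb
  have hCi : C i' = {i, j} := by
    rw [← hzi']
    refine hsupp zi hzi hqi ?_
    obtain ⟨l, hl'⟩ := hgood.ne i'
    rw [← hzi'] at hl'
    exact ⟨l, hl'⟩
  have hCj : C j' = {i, j} := by
    rw [← hzj']
    refine hsupp zj hzj hqj ?_
    obtain ⟨l, hl'⟩ := hgood.ne j'
    rw [← hzj'] at hl'
    exact ⟨l, hl'⟩
  -- the carriers of the two triangles
  have hcar : ∀ m, m ≠ i' → m ≠ j' → D.face {i', j', m} →
      (∃ z ∈ N.Δ.Z, {l | z l ≠ 0} = C i' ∪ C j' ∪ C m) → C i' ∪ C j' ∪ C m = {i, j, k} := by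
    rintro m hmi hmj hfm ⟨z, hzZ, hzs⟩
    have hfc : N.Δ.face (C i' ∪ C j' ∪ C m) := by
      rw [← hzs]
      exact hzZ.2
    have hsub : ∀ l ∈ C m, l = i ∨ l = j ∨ l = k := by
      intro l hl'
      by_contra hc
      push Not at hc
      refine hno l hc.1 hc.2.1 hc.2.2 (N.Δ.down _ _ ?_ hfc)
      rw [hCi, hCj]
      rintro x (rfl | rfl | rfl)
      · simp
      · simp
      · exact Or.inr hl'
    have hflat := hgood.flat i' j' m hij' (Ne.symm hmi) (Ne.symm hmj) hfm i j
    have hk : k ∈ C m := by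
      by_contra hc
      apply hflat
      rw [hCi, hCj]
      rintro x (hx | hx)
      · simpa using hx
      · rcases hsub x hx with rfl | rfl | rfl
        · simp
        · simp
        · exact absurd hx hc
    rw [hCi, hCj]
    ext x
    constructor
    · rintro (hx | hx)
      · simp only [Set.union_self, Set.mem_insert_iff, Set.mem_singleton_iff] at hx
        simp only [Set.mem_insert_iff, Set.mem_singleton_iff]
        tauto
      · exact hsub x hx
    · rintro (rfl | rfl | rfl)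
      · simp
      · simp
      · exact Or.inr hk
  have hA := hcar ka h2 h3 hfa ⟨za, hza, hza'⟩
  have hB := hcar kb h4 h5 hfb ⟨zb, hzb, hzb'⟩
  obtain ⟨m, -, -, hmm⟩ := hgood.bd {i, j, k} hface ⟨i, j, k, hij, hki.symm, hkj.symm, rfl⟩ i' j'
    hij' hfe (by
      rw [hCi, hCj]
      rintro x (hx | hx) <;>
      · simp only [Set.mem_insert_iff, Set.mem_singleton_iff] at hx ⊢
        tauto) (by
      rw [hCi, hCj]
      intro h
      have : k ∈ ({i, j} : Set N.V) ∪ {i, j} := by
        rw [h]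
        simp
      simp only [Set.union_self, Set.mem_insert_iff, Set.mem_singleton_iff] at this
      rcases this with h | h
      · exact hki h
      · exact hkj h)
  have e1 := (hmm ka h2 h3).1 ⟨hfa, hA⟩
  have e2 := (hmm kb h4 h5).1 ⟨hfb, hB⟩
  exact h6 (e1.trans e2.symm)

end

end Pool.Agent.MP552024
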