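import Pool.Agent.Work.MP_552024_lc.Two.X89aux

/-!
X9: dual connectivity of the regions. MP_552024_lc, dimension at most three.
-/

set_option autoImplicit false

namespace Pool.Agent.MP552024

section

variable {H : Type} [AddCommGroup H] [Lattice H]

open Classical in
/-- the sum of the products of the hat functions over the triangles in `A` -/
theorem x9_a (N : Mdl H) (hd : N.Δ.Dim2) (A : Set (Set N.V)) (hA : ∀ t ∈ A, IsTri t) :
    ∃ a : H, 0 ≤ a ∧ ∀ z ∈ N.Δ.Z, (0 < N.ev a z ↔ {l | z l ≠ 0} ∈ A) := by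
  set P : N.V × N.V × N.V → Prop := fun p => p.1 ≠ p.2.1 ∧ p.1 ≠ p.2.2 ∧ p.2.1 ≠ p.2.2 ∧
    ({p.1, p.2.1, p.2.2} : Set N.V) ∈ A with hP
  have hLP : (fun x : N.V → ℝ => ∑ p : N.V × N.V × N.V,
      (if P p then min (x p.1) (min (x p.2.1) (x p.2.2)) else 0)) ∈ LP N.V := by
    refine LP_sum _ (fun p x => if P p then min (x p.1) (min (x p.2.1) (x p.2.2)) else 0)
      fun p _ => ?_
    by_cases h : P p
    · simp only [h, if_true]
      exact LP_min (LP_coord _) (LP_min (LP_coord _) (LP_coord _))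
    · simp only [h, if_false]
      exact LP_zero
  obtain ⟨a, ha⟩ := N.chart.sur _ hLP
  have hnn : ∀ z ∈ N.Δ.Z, ∀ p : N.V × N.V × N.V,
      0 ≤ (if P p then min (z p.1) (min (z p.2.1) (z p.2.2)) else 0) := by
    intro z hz p
    split_ifs
    · exact le_min (hz.1 _) (le_min (hz.1 _) (hz.1 _))
    · exact le_rfl
  refine ⟨a, N.chart.nonneg_iff.2 fun z hz => ?_, fun z hz => ?_⟩
  · rw [ha z hz]
    exact Finset.sum_nonneg fun p _ => hnn z hz p
  · rw [ha z hz]
    constructor
    · intro h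
      have h1 : ∃ p : N.V × N.V × N.V,
          0 < (if P p then min (z p.1) (min (z p.2.1) (z p.2.2)) else 0) := by
        by_contra hc
        push Not at hc
        exact absurd h (not_lt.2 (Finset.sum_nonpos fun p _ => hc p))
      obtain ⟨⟨i, j, k⟩, hp⟩ := h1
      by_cases hPp : P (i, j, k)
      · simp only [hPp, if_true] at hp
        obtain ⟨hi, hjk⟩ := lt_min_iff.1 hp
        obtain ⟨hj, hk⟩ := lt_min_iff.1 hjk
        obtain ⟨hij, hik, hjk', hmem⟩ := hPp
        dsimp only at hij hik hjk' hmem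
        have e : {l | z l ≠ 0} = ({i, j, k} : Set N.V) := by
          ext l
          constructor
          · intro hl
            by_contra hc
            simp only [Set.mem_insert_iff, Set.mem_singleton_iff, not_or] at hc
            refine hd i j k l hij hik (Ne.symm hc.1) hjk' (Ne.symm hc.2.1) (Ne.symm hc.2.2)
              (Cx.face_of_mem hz _ ?_)
            rintro x (rfl | rfl | rfl | rfl)
            · exact hi.ne'
            · exact hj.ne'
            · exact hk.ne'
            · exact hl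
          · rintro (rfl | rfl | rfl)
            · exact hi.ne'
            · exact hj.ne'
            · exact hk.ne'
        rw [e]
        exact hmem
      · simp only [hPp, if_false] at hp
        exact absurd hp (lt_irrefl _)
    · intro h
      obtain ⟨i, j, k, hij, hik, hjk, e⟩ := hA _ h
      have hpos : ∀ l ∈ ({i, j, k} : Set N.V), 0 < z l := by
        intro l hl
        rw [← e] at hl
        exact lt_of_le_of_ne (hz.1 l) (Ne.symm hl)
      refine Finset.sum_pos' (fun p _ => hnn z hz p) ⟨(i, j, k), Finset.mem_univ _, ?_⟩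
      have hPp : P (i, j, k) := ⟨hij, hik, hjk, by rw [← e]; exact h⟩
      simp only [hPp, if_true]
      exact lt_min (hpos i (by simp)) (lt_min (hpos j (by simp)) (hpos k (by simp)))

end

section

variable {V : Type}

theorem x9_pt {D : Cx V} {i j k : V} (hf : D.face {i, j, k}) {z : V → ℝ} (hz : ∀ l, 0 ≤ z l)
    (hs : ∀ l, z l ≠ 0 → l ∈ ({i, j, k} : Set V)) {ε : ℝ} (hε : 0 < ε) :
    (fun l => z l + ε * (pt i l + pt j l + pt k l)) ∈ D.Z ∧
      {l | z l + ε * (pt i l + pt j l + pt k l) ≠ 0} = {i, j, k} := by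
  have h1 : ∀ l, 0 ≤ z l + ε * (pt i l + pt j l + pt k l) := fun l =>
    add_nonneg (hz l) (mul_nonneg hε.le (add_nonneg (add_nonneg (pt_nonneg _ _) (pt_nonneg _ _))
      (pt_nonneg _ _)))
  have h2 : {l | z l + ε * (pt i l + pt j l + pt k l) ≠ 0} = ({i, j, k} : Set V) := by
    ext l
    constructor
    · intro hl
      by_contra hc
      have h3 : z l = 0 := by
        by_contra h
        exact hc (hs l h)
      simp only [Set.mem_insert_iff, Set.mem_singleton_iff, not_or] at hc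
      apply hl
      show z l + ε * (pt i l + pt j l + pt k l) = 0
      rw [pt_ne hc.1, pt_ne hc.2.1, pt_ne hc.2.2, h3]
      ring
    · intro hl
      have e1 := pt_nonneg i l
      have e2 := pt_nonneg j l
      have e3 := pt_nonneg k l
      have e4 : 0 < pt i l + pt j l + pt k l := by
        rcases hl with rfl | rfl | rfl
        · rw [pt_self]; linarith
        · rw [pt_self]; linarith
        · rw [pt_self]; linarith
      have e5 := mul_pos hε e4
      have e6 := hz l
      show z l + ε * (pt i l + pt j l + pt k l) ≠ 0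
      intro h
      linarith
  refine ⟨Cx.mem_Z h1 _ hf fun l hl => ?_, h2⟩
  have : l ∈ {l | z l + ε * (pt i l + pt j l + pt k l) ≠ 0} := hl
  rwa [h2] at this

theorem x9_eq {K : Cx V} (hK : K.Dim2) {u v w : V} (huv : u ≠ v) (huw : u ≠ w) (hvw : v ≠ w)
    {τ : Set V} (hτ : K.face τ) (hsub : {u, v, w} ⊆ τ) : τ = {u, v, w} := by
  refine Set.Subset.antisymm (fun x hx => ?_) hsub
  by_contra hc
  simp only [Set.mem_insert_iff, Set.mem_singleton_iff, not_or] at hc
  refine hK u v w x huv huw (Ne.symm hc.1) hvw (Ne.symm hc.2.1) (Ne.symm hc.2.2)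
    (K.down _ _ ?_ hτ)
  rintro y (rfl | rfl | rfl | rfl)
  · exact hsub (by simp)
  · exact hsub (by simp)
  · exact hsub (by simp)
  · exact hx

theorem x9_tri {t : Set V} (ht : IsTri t) {i j : V} (hi : i ∈ t) (hj : j ∈ t) (hij : i ≠ j) :
    ∃ k, k ≠ i ∧ k ≠ j ∧ t = {i, j, k} := by
  obtain ⟨u, v, w, huv, huw, hvw, rfl⟩ := ht
  simp only [Set.mem_insert_iff, Set.mem_singleton_iff] at hi hj
  rcases hi with rfl | rfl | rfl <;> rcases hj with rfl | rfl | rfl
  · exact absurd rfl hij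
  · exact ⟨w, huw.symm, hvw.symm, rfl⟩
  · refine ⟨v, huv.symm, hvw, ?_⟩
    ext x; simp only [Set.mem_insert_iff, Set.mem_singleton_iff]; tauto
  · refine ⟨w, hvw.symm, huw.symm, ?_⟩
    ext x; simp only [Set.mem_insert_iff, Set.mem_singleton_iff]; tauto
  · exact absurd rfl hij
  · refine ⟨u, huv, huw, ?_⟩
    ext x; simp only [Set.mem_insert_iff, Set.mem_singleton_iff]; tauto
  · refine ⟨v, hvw, huv.symm, ?_⟩
    ext x; simp only [Set.mem_insert_iff, Set.mem_singleton_iff]; tauto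
  · refine ⟨u, huw, huv, ?_⟩
    ext x; simp only [Set.mem_insert_iff, Set.mem_singleton_iff]; tauto
  · exact absurd rfl hij

theorem x9_uni2 {W : Type} (S : W → Set V) (i j : W) : uni S {i, j} = S i ∪ S j := by
  ext x
  rw [x89_mem_uni]
  simp

theorem x9_uni3 {W : Type} (S : W → Set V) (i j k : W) : uni S {i, j, k} = S i ∪ S j ∪ S k := by
  ext x
  rw [x89_mem_uni]
  simp only [Set.mem_insert_iff, Set.mem_singleton_iff, exists_eq_or_imp, exists_eq_left,
    Set.mem_union]
  tauto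

theorem x9_uni_mono {W : Type} (S : W → Set V) {s t : Set W} (h : s ⊆ t) : uni S s ⊆ uni S t := by
  intro x hx
  obtain ⟨i, hi, hx⟩ := x89_mem_uni.1 hx
  exact x89_mem_uni.2 ⟨i, h hi, hx⟩

end

theorem prfX9 (h1 : S_X1) (h5 : S_X5) (h7 : S_X7) (hf : S_clF) (he : S_ctE) (hi : S_inc)
    (hl : S_linall) (hm : S_lim) (hg : S_GR) : S_X9 := by
  intro H _ _ _ V _ K N s c hS hd σ hK hσ A hA hAne hclos t0 ht0
  by_contra ht0A
  set B : Set (Set N.V) := {t | T3 N.Δ (lab c) σ t ∧ t ∉ A} with hB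
  obtain ⟨a, ha0, ha⟩ := x9_a N hd A (fun t ht => (hA t ht).1)
  obtain ⟨b, hb0, hb⟩ := x9_a N hd B (fun t ht => ht.1.1)
  obtain ⟨u, v, w, huv, huw, hvw, hσe⟩ := id hσ
  have hw0 : 0 ≤ s u ⊓ s v ⊓ s w := x89_w0_nonneg hS u v w
  have hpos : ∀ g : H, 0 ≤ g → ∀ z ∈ N.Δ.Z, ¬ 0 < N.ev g z → N.ev g z = 0 := fun g hg z hz h =>
    le_antisymm (not_lt.1 h) (N.chart.nonneg_iff.1 hg z hz)
  have hab : a ⊓ b = 0 := by
    refine N.chart.ext fun z hz => ?_
    rw [N.chart.inf _ _ hz, N.chart.zero hz]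
    by_cases h : 0 < N.ev a z
    · have h2 : ¬ 0 < N.ev b z := fun h' => ((hb z hz).1 h').2 ((ha z hz).1 h)
      rw [hpos b hb0 z hz h2]
      exact min_eq_right h.le
    · rw [hpos a ha0 z hz h]
      exact min_eq_left (N.chart.nonneg_iff.1 hb0 z hz)
  -- a point inside every triangle
  have hin : ∀ t, T3 N.Δ (lab c) σ t → ∃ z ∈ N.Δ.Z, {l | z l ≠ 0} = t := by
    rintro t ⟨⟨i, j, k, -, -, -, rfl⟩, hft, -⟩
    obtain ⟨h2, h3⟩ := x9_pt (D := N.Δ) hft (z := fun _ => 0) (fun _ => le_rfl)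
      (fun l h => absurd rfl h) one_pos
    exact ⟨_, h2, h3⟩
  have hane : a ≠ 0 := by
    rintro rfl
    obtain ⟨t, ht⟩ := hAne
    obtain ⟨z, hz, hzt⟩ := hin t (hA t ht)
    have := (ha z hz).2 (by rw [hzt]; exact ht)
    rw [N.chart.zero hz] at this
    exact lt_irrefl _ this
  have hbne : b ≠ 0 := by
    rintro rfl
    obtain ⟨z, hz, hzt⟩ := hin t0 ht0
    have := (hb z hz).2 (by rw [hzt]; exact ⟨ht0, ht0A⟩)
    rw [N.chart.zero hz] at this
    exact lt_irrefl _ this
  have hw0t : ∀ z ∈ N.Δ.Z, T3 N.Δ (lab c) σ {l | z l ≠ 0} → 0 < N.ev (s u ⊓ s v ⊓ s w) z := by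
    intro z hz ht
    rw [x89_w0 hS u v w hz, ht.2.2, hσe]
  have hia : Inc a (s u ⊓ s v ⊓ s w) := by
    refine (hi H N a _ ha0 hw0).2 fun z hz hz0 => hpos a ha0 z hz fun h => ?_
    exact (hw0t z hz (hA _ ((ha z hz).1 h))).ne' hz0
  have hib : Inc b (s u ⊓ s v ⊓ s w) := by
    refine (hi H N b _ hb0 hw0).2 fun z hz hz0 => hpos b hb0 z hz fun h => ?_
    exact (hw0t z hz ((hb z hz).1 h).1).ne' hz0
  obtain ⟨h71, h72⟩ := h7 H V K N s c hS hd σ hK hσ
  have hkd := hS.kdim
  have hlabeq : ∀ τ : Set N.V, N.Δ.face τ → σ ⊆ uni (lab c) τ → uni (lab c) τ = σ := by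
    intro τ hτ hsub
    rw [hσe] at hsub ⊢
    exact x9_eq hkd huv huw hvw ((h1 H V K N s c hS).2 τ hτ) hsub
  -- every point of the region is in a closed triangle
  have htri : ∀ z ∈ N.Δ.Z, 0 < N.ev (s u ⊓ s v ⊓ s w) z → ∃ i j k, T3 N.Δ (lab c) σ {i, j, k} ∧
      ∀ l, z l ≠ 0 → l ∈ ({i, j, k} : Set N.V) := by
    intro z hz hz0
    have h2 := (x89_w0 hS u v w hz).1 hz0
    rw [← hσe] at h2
    have hfz : N.Δ.face {l | z l ≠ 0} := hz.2
    have key : ∀ i j k, i ≠ j → i ≠ k → j ≠ k → N.Δ.face {i, j, k} →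
        (∀ l, z l ≠ 0 → l ∈ ({i, j, k} : Set N.V)) → ∃ i j k, T3 N.Δ (lab c) σ {i, j, k} ∧
        ∀ l, z l ≠ 0 → l ∈ ({i, j, k} : Set N.V) := by
      intro i j k hij hik hjk hfa hsub
      exact ⟨i, j, k, ⟨⟨i, j, k, hij, hik, hjk, rfl⟩, hfa,
        hlabeq _ hfa (h2.trans (x9_uni_mono _ hsub))⟩, hsub⟩
    obtain ⟨i, hi0, -⟩ := x89_mem_uni.1 (h2 (show u ∈ σ by rw [hσe]; simp))
    by_cases hj : ∃ j, j ≠ i ∧ z j ≠ 0
    · obtain ⟨j, hji, hj0⟩ := hj
      by_cases hk : ∃ k, k ≠ i ∧ k ≠ j ∧ z k ≠ 0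
      · obtain ⟨k, hki, hkj, hk0⟩ := hk
        refine key i j k hji.symm hki.symm hkj.symm (N.Δ.down _ _ ?_ hfz) fun l hl' => ?_
        · rintro x (rfl | rfl | rfl)
          · exact hi0
          · exact hj0
          · exact hk0
        · by_contra hc
          simp only [Set.mem_insert_iff, Set.mem_singleton_iff, not_or] at hc
          refine hd i j k l hji.symm hki.symm (Ne.symm hc.1) hkj.symm (Ne.symm hc.2.1)
            (Ne.symm hc.2.2) (N.Δ.down _ _ ?_ hfz)
          rintro x (rfl | rfl | rfl | rfl)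
          · exact hi0
          · exact hj0
          · exact hk0
          · exact hl'
      · push Not at hk
        have hs2 : {l | z l ≠ 0} ⊆ ({i, j} : Set N.V) := by
          intro l hl'
          by_contra hc
          simp only [Set.mem_insert_iff, Set.mem_singleton_iff, not_or] at hc
          exact hl' (hk l hc.1 hc.2)
        have hfij : N.Δ.face {i, j} := N.Δ.down _ _ (by
          rintro x (rfl | rfl)
          · exact hi0
          · exact hj0) hfz
        have e1 := hlabeq _ hfij (h2.trans (x9_uni_mono _ hs2))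
        rw [x9_uni2] at e1
        obtain ⟨k, hki, hkj, hfk⟩ := h71 i j hji.symm hfij e1
        exact key i j k hji.symm hki.symm hkj.symm hfk fun l hl' => by
          rcases hs2 hl' with h | h
          · exact Or.inl h
          · exact Or.inr (Or.inl h)
    · push Not at hj
      have hs1 : {l | z l ≠ 0} ⊆ ({i} : Set N.V) := by
        intro l hl'
        by_contra hc
        exact hl' (hj l hc)
      have e1 := hlabeq _ (N.Δ.vert i) (h2.trans (x9_uni_mono _ hs1))
      have e2 : lab c i = σ := by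
        rw [← e1]
        ext x
        rw [x89_mem_uni]
        simp
      obtain ⟨j, hji, hfij⟩ := h72 i e2
      have e3 : lab c i ∪ lab c j = σ := by
        rw [← x9_uni2]
        refine hlabeq _ hfij ?_
        rw [x9_uni2, e2]
        exact Set.subset_union_left
      obtain ⟨k, hki, hkj, hfk⟩ := h71 i j hji.symm hfij e3
      exact key i j k hji.symm hki.symm hkj.symm hfk fun l hl' => Or.inl (hs1 hl')
  have hdens : ∀ y : H, 0 ≤ y → Inc y (s u ⊓ s v ⊓ s w) → y ⊓ (a + b) = 0 → y = 0 := by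
    intro y hy hyi hyab
    refine N.chart.inj y fun z hz => ?_
    by_cases hz0 : 0 < N.ev (s u ⊓ s v ⊓ s w) z
    · obtain ⟨i, j, k, hT, hsub⟩ := htri z hz hz0
      refine hm H N y z (fun l => pt i l + pt j l + pt k l) hz fun ε hε => ?_
      obtain ⟨h2, h3⟩ := x9_pt (D := N.Δ) hT.2.1 hz.1 hsub hε
      refine ⟨h2, ?_⟩
      have h4 : 0 < N.ev (a + b) (fun l => z l + ε * (pt i l + pt j l + pt k l)) := by
        rw [N.chart.add _ _ _ h2]
        have e1 := N.chart.nonneg_iff.1 ha0 _ h2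
        have e2 := N.chart.nonneg_iff.1 hb0 _ h2
        by_cases h5 : ({i, j, k} : Set N.V) ∈ A
        · have := (ha _ h2).2 (by rw [h3]; exact h5)
          linarith
        · have := (hb _ h2).2 (by rw [h3]; exact ⟨hT, h5⟩)
          linarith
      have h5 := N.chart.inf y (a + b) h2
      rw [hyab, N.chart.zero h2] at h5
      rcases min_choice (N.ev y (fun l => z l + ε * (pt i l + pt j l + pt k l)))
        (N.ev (a + b) (fun l => z l + ε * (pt i l + pt j l + pt k l))) with h6 | h6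
      · rw [← h6, ← h5]
      · rw [h6] at h5
        linarith
    · exact (hi H N y _ hy hw0).1 hyi z hz (hpos _ hw0 z hz hz0)
  have hK' : K.face {u, v, w} := by rw [← hσe]; exact hK
  obtain ⟨q, hq0, hconn, htwo, hca, hcb⟩ := hS.sig.r5 u v w huv huw hvw hK' a b ha0 hb0 hane hbne
    hab hia hib hdens
  obtain ⟨W, D, C, hgood, i', j', ka, kb, hij', -, -, -, -, -, -, -, -, -, -,
    ⟨za, hza, hza', hza0⟩, ⟨zb, hzb, hzb', hzb0⟩⟩ :=
    x89_main hf he hl hg hd ha0 hb0 hq0 hab hconn htwo hca hcb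
  have htA : C i' ∪ C j' ∪ C ka ∈ A := by
    rw [← hza']
    exact (ha za hza).1 hza0
  have htB : C i' ∪ C j' ∪ C kb ∈ B := by
    rw [← hzb']
    exact (hb zb hzb).1 hzb0
  -- two common vertices
  obtain ⟨i, j, hij, hi1, hj1⟩ : ∃ i j, i ≠ j ∧ i ∈ C i' ∪ C j' ∧ j ∈ C i' ∪ C j' := by
    obtain ⟨i, hii⟩ := hgood.ne i'
    by_contra hc
    push Not at hc
    have h2 : ∀ l ∈ C i' ∪ C j', l = i := by
      intro l hl'
      by_contra h
      exact hc i l (Ne.symm h) (Or.inl hii) hl'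
    have e1 : C i' = {i} := Set.Subset.antisymm (fun l hl' => h2 l (Or.inl hl'))
      (by rintro x rfl; exact hii)
    obtain ⟨j, hjj⟩ := hgood.ne j'
    have e3 : j = i := h2 j (Or.inr hjj)
    subst e3
    have e2 : C j' = {j} := Set.Subset.antisymm (fun l hl' => h2 l (Or.inr hl'))
      (by rintro x rfl; exact hjj)
    exact hij' ((hgood.one j).unique e1 e2)
  obtain ⟨k1, hk1i, hk1j, hk1⟩ := x9_tri (hA _ htA).1 (Or.inl hi1) (Or.inl hj1) hij
  obtain ⟨k2, hk2i, hk2j, hk2⟩ := x9_tri htB.1.1 (Or.inl hi1) (Or.inl hj1) hij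
  have hTA := hA _ htA
  have hTB := htB.1
  have hBA := htB.2
  by_cases hlab : lab c i ∪ lab c j = σ
  · exact hBA (hclos _ htA _ hTB ⟨i, j, hij, Or.inl hi1, Or.inl hj1, Or.inl hi1, Or.inl hj1, hlab⟩)
  · rw [hk1] at hTA
    rw [hk2] at hTB
    have eA := hTA.2.2
    have eB := hTB.2.2
    rw [x9_uni3] at eA eB
    have hfij : N.Δ.face {i, j} := N.Δ.down _ _ (by
      rintro x (rfl | rfl) <;> simp) hTA.2.1
    have hsub : lab c i ∪ lab c j ⊆ σ := by
      rw [← eA]
      exact Set.subset_union_left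
    have := (h5 H V K N s c hS hd σ hK hσ).2 i j k1 k2 hij hfij hsub hlab hk1i hk1j hk2i hk2j
      hTA.2.1 hTB.2.1 eA eB
    rw [this, ← hk2] at hk1
    apply hBA
    rw [← hk1]
    exact htA

end Pool.Agent.MP552024
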