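import Pool.Agent.Work.MP_552024_lc.Two.StmtsE

/-!
All labels are singletons: back to the complex `K`. MP_552024_lc, dimension at most three.
-/

set_option autoImplicit false

namespace Pool.Agent.MP552024

/-- faces without triangle are contained in an edge -/
theorem ct6_small {V : Type} (K : Cx V) (hK : K.Dim2) (ρ : Set V) (hρ : K.face ρ)
    (h3 : ¬ IsTri ρ) : ρ = ∅ ∨ ∃ u v, ρ = {u, v} := by
  rcases Set.eq_empty_or_nonempty ρ with h | ⟨u, hu⟩
  · exact Or.inl h
  right
  by_cases h1 : ∃ v ∈ ρ, v ≠ u
  · obtain ⟨v, hv, hvu⟩ := h1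
    refine ⟨u, v, ?_⟩
    apply Set.Subset.antisymm
    · intro w hw
      by_contra hc
      simp only [Set.mem_insert_iff, Set.mem_singleton_iff, not_or] at hc
      apply h3
      refine ⟨u, v, w, Ne.symm hvu, Ne.symm hc.1, Ne.symm hc.2, ?_⟩
      apply Set.Subset.antisymm
      · intro x hx
        by_contra hc'
        simp only [Set.mem_insert_iff, Set.mem_singleton_iff, not_or] at hc'
        refine hK u v w x (Ne.symm hvu) (Ne.symm hc.1) (Ne.symm hc'.1) (Ne.symm hc.2)
          (Ne.symm hc'.2.1) (Ne.symm hc'.2.2) (K.down _ _ ?_ hρ)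
        rintro y (rfl | rfl | rfl | rfl)
        · exact hu
        · exact hv
        · exact hw
        · exact hx
      · rintro y (rfl | rfl | rfl)
        · exact hu
        · exact hv
        · exact hw
    · rintro y (rfl | rfl)
      · exact hu
      · exact hv
  · push Not at h1
    refine ⟨u, u, ?_⟩
    apply Set.Subset.antisymm
    · intro w hw
      simp [h1 w hw]
    · rintro y (rfl | rfl)
      · exact hu
      · exact hu

/-- a triangle inside a face is the face -/
theorem ct6_max {V : Type} (K : Cx V) (hK : K.Dim2) (ρ σ : Set V) (hρ : K.face ρ)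
    (hσ : IsTri σ) (h : σ ⊆ ρ) : σ = ρ := by
  obtain ⟨u, v, w, huv, huw, hvw, rfl⟩ := hσ
  apply Set.Subset.antisymm h
  intro x hx
  by_contra hc'
  simp only [Set.mem_insert_iff, Set.mem_singleton_iff, not_or] at hc'
  refine hK u v w x huv huw (Ne.symm hc'.1) hvw
    (Ne.symm hc'.2.1) (Ne.symm hc'.2.2) (K.down _ _ ?_ hρ)
  rintro y (rfl | rfl | rfl | rfl)
  · exact h (by simp)
  · exact h (by simp)
  · exact h (by simp)
  · exact hx

/-- triangles have an element outside every pair -/
theorem ct6_out {V : Type} (σ : Set V) (hσ : IsTri σ) (a b : V) : ∃ v ∈ σ, v ≠ a ∧ v ≠ b := by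
  obtain ⟨u, v, w, huv, huw, hvw, rfl⟩ := hσ
  by_contra hc
  push Not at hc
  have h1 := hc u (by simp)
  have h2 := hc v (by simp)
  have h3 := hc w (by simp)
  by_cases e1 : u = a
  · have e2 : v = b := h2 (fun h => huv (e1.trans h.symm))
    exact hvw (e2.trans (h3 (fun h => huw (e1.trans h.symm))).symm)
  · have e2 : u = b := h1 e1
    by_cases e3 : v = a
    · have e4 : w = b := h3 (fun h => hvw (e3.trans h.symm))
      exact huw (e2.trans e4.symm)
    · exact huv (e2.trans (h2 e3).symm)

/-- two elements remain when an element of a triangle is removed -/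
theorem ct6_two {V : Type} (σ : Set V) (hσ : IsTri σ) (a : V) (ha : a ∈ σ) :
    ∃ u v, u ≠ v ∧ u ∈ σ ∧ v ∈ σ ∧ ∀ x ∈ σ, x ≠ a → x = u ∨ x = v := by
  obtain ⟨u, v, w, huv, huw, hvw, rfl⟩ := hσ
  rcases ha with rfl | rfl | rfl
  · refine ⟨v, w, hvw, by simp, by simp, ?_⟩
    rintro x (rfl | rfl | rfl) hx
    · exact absurd rfl hx
    · exact Or.inl rfl
    · exact Or.inr rfl
  · refine ⟨u, w, huw, by simp, by simp, ?_⟩
    rintro x (rfl | rfl | rfl) hx
    · exact Or.inl rfl
    · exact absurd rfl hx
    · exact Or.inr rfl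
  · refine ⟨u, v, huv, by simp, by simp, ?_⟩
    rintro x (rfl | rfl | rfl) hx
    · exact Or.inl rfl
    · exact Or.inr rfl
    · exact absurd rfl hx

theorem prfCT6 : S_CT6 := by
  classical
  intro V W _ K A S hK hG hS
  choose e he heu using hG.one
  have he' : ∀ v, S (e v) = {v} := he
  have heu' : ∀ v i, S i = {v} → i = e v := fun v i hi => heu v i hi
  choose f hf using hS
  have hfe : ∀ v, f (e v) = v := by
    intro v
    have h1 := hf (e v)
    rw [he' v] at h1
    exact (Set.singleton_injective h1).symm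
  have hef : ∀ i, e (f i) = i := fun i => (heu' (f i) i (hf i)).symm
  have hpair : ∀ u v u' v' : V, K.gr.Adj u v → u' ≠ v' → u' ∈ ({u, v} : Set V) →
      v' ∈ ({u, v} : Set V) → K.gr.Adj u' v' := by
    rintro u v u' v' h hne (rfl | rfl) (rfl | rfl)
    · exact absurd rfl hne
    · exact h
    · exact h.symm
    · exact absurd rfl hne
  have hadj : ∀ a b, A.Adj (e a) (e b) ↔ K.gr.Adj a b := by
    intro a b
    constructor
    · intro h
      have hab : a ≠ b := fun hab => h.ne (congrArg e hab)
      obtain ⟨u, v, huv, h1, h2⟩ := hG.edge _ _ h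
      rw [he'] at h1 h2
      exact hpair u v a b huv hab (h1 rfl) (h2 rfl)
    · intro h
      obtain ⟨i, j, h1, h2, h3⟩ := hG.att a b h
      have hi : i = e b := heu' b i h1
      have hj : f j ∈ ({a, b} : Set V) := by
        apply h3
        rw [hf j]
        rfl
      rcases hj with hj | hj
      · have h4 : j = e a := by rw [← hj, hef]
        rw [← h4, ← hi]
        exact h2.symm
      · have h4 : j = e b := by
          have h5 : f j = b := hj
          rw [← h5, hef]
        rw [hi, h4] at h2
        exact absurd rfl h2.ne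
  have hadj' : ∀ i j, A.Adj i j ↔ K.gr.Adj (f i) (f j) := by
    intro i j
    rw [← hadj, hef, hef]
  -- the minimum over a triangle
  choose tu tv tw t1 t2 t3 t4 using (fun (σ : Set V) (h : K.face σ ∧ IsTri σ) => h.2)
  set ms : Set V → (V → ℝ) → ℝ := fun σ z =>
    if h : K.face σ ∧ IsTri σ then min (z (tu σ h)) (min (z (tv σ h)) (z (tw σ h))) else 0 with hms
  have m0 : ∀ σ z, (∀ v, 0 ≤ z v) → 0 ≤ ms σ z := by
    intro σ z hz
    simp only [hms]
    split_ifs with h
    · exact le_min (hz _) (le_min (hz _) (hz _))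
    · exact le_refl _
  have m1 : ∀ σ z, (∀ v, 0 ≤ z v) → ∀ v ∈ σ, ms σ z ≤ z v := by
    intro σ z hz v hv
    simp only [hms]
    split_ifs with h
    · have h5 := t4 σ h
      have hv' : v ∈ ({tu σ h, tv σ h, tw σ h} : Set V) := by rw [← h5]; exact hv
      rcases hv' with rfl | rfl | h6
      · exact min_le_left _ _
      · exact (min_le_right _ _).trans (min_le_left _ _)
      · have h7 : v = tw σ h := h6
        rw [h7]
        exact (min_le_right _ _).trans (min_le_right _ _)
    · exact hz v
  have m2 : ∀ σ z, (∀ v, 0 ≤ z v) → ms σ z ≠ 0 →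
      (K.face σ ∧ IsTri σ) ∧ ∀ v ∈ σ, z v ≠ 0 := by
    intro σ z hz h
    by_cases h5 : K.face σ ∧ IsTri σ
    · refine ⟨h5, fun v hv h6 => h ?_⟩
      exact le_antisymm (h6 ▸ m1 σ z hz v hv) (m0 σ z hz)
    · exact absurd (by simp only [hms]; rw [dif_neg h5]) h
  have m3 : ∀ σ z, K.face σ → IsTri σ → ∃ v ∈ σ, ms σ z = z v := by
    intro σ z h5 h6
    have h7 : ms σ z = min (z (tu σ ⟨h5, h6⟩)) (min (z (tv σ ⟨h5, h6⟩)) (z (tw σ ⟨h5, h6⟩))) := by
      simp only [hms]
      rw [dif_pos ⟨h5, h6⟩]
    have h8 := t4 σ ⟨h5, h6⟩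
    have g1 : tu σ ⟨h5, h6⟩ ∈ σ := h8.symm.subset (by simp)
    have g2 : tv σ ⟨h5, h6⟩ ∈ σ := h8.symm.subset (by simp)
    have g3 : tw σ ⟨h5, h6⟩ ∈ σ := h8.symm.subset (by simp)
    rcases min_choice (z (tu σ ⟨h5, h6⟩)) (min (z (tv σ ⟨h5, h6⟩)) (z (tw σ ⟨h5, h6⟩))) with h9 | h9
    · exact ⟨tu σ ⟨h5, h6⟩, g1, h7.trans h9⟩
    · rcases min_choice (z (tv σ ⟨h5, h6⟩)) (z (tw σ ⟨h5, h6⟩)) with h10 | h10
      · exact ⟨tv σ ⟨h5, h6⟩, g2, h7.trans (h9.trans h10)⟩
      · exact ⟨tw σ ⟨h5, h6⟩, g3, h7.trans (h9.trans h10)⟩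
  have mLP : ∀ σ, (fun z => ms σ z) ∈ LP V := by
    intro σ
    simp only [hms]
    by_cases h : K.face σ ∧ IsTri σ
    · simp only [dif_pos h]
      exact LP_min (LP_coord _) (LP_min (LP_coord _) (LP_coord _))
    · simp only [dif_neg h]
      exact LP_zero
  have mu : ∀ z ∈ K.Z, ∀ σ, ms σ z ≠ 0 → σ = {v | z v ≠ 0} := by
    intro z hz σ h
    obtain ⟨h5, h6⟩ := m2 σ z hz.1 h
    exact ct6_max K hK _ _ hz.2 h5.2 h6
  -- support of points of the cone complex
  have cc : ∀ z ∈ (CC K A S).Z, (∀ i, 0 ≤ z i) ∧
      (∃ a b : V, (a = b ∨ K.gr.Adj a b) ∧ ∀ v, z (Sum.inl (e v)) ≠ 0 → v = a ∨ v = b) ∨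
      (∀ v, z (Sum.inl (e v)) = 0) := by
    rintro z ⟨h1, ⟨τ, h2, h3, h4⟩, h5⟩
    rcases h2 with rfl | ⟨i, j, h2, rfl⟩
    · right
      intro v
      by_contra hc
      exact h3 (a := e v) hc
    · left
      refine ⟨h1, f i, f j, ?_, ?_⟩
      · rcases h2 with h2 | h2
        · left; rw [h2]
        · right; exact (hadj' i j).1 h2
      · intro v hv
        have := h3 (a := e v) hv
        rcases this with h6 | h6
        · left; rw [← h6, hfe]
        · right
          have h7 : e v = j := h6
          rw [← h7, hfe]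
  refine Eqv.of_maps
    (fun (z : V → ℝ) (w : W ⊕ Set V) => match w with
      | Sum.inl i => z (f i) - ∑ σ ∈ (Finset.univ.filter (fun σ : Set V => f i ∈ σ)), ms σ z
      | Sum.inr σ => ms σ z)
    (fun (z : W ⊕ Set V → ℝ) (v : V) =>
      z (Sum.inl (e v)) + ∑ σ ∈ (Finset.univ.filter (fun σ : Set V => v ∈ σ)), z (Sum.inr σ))
    ?_ ?_ ?_ ?_ ?_ ?_
  · rintro (i | σ)
    · exact LP_sub (LP_coord _) (LP_sum _ _ (fun σ _ => mLP σ))
    · exact mLP σ
  · intro v
    exact LP_add (LP_coord _) (LP_sum _ _ (fun σ _ => LP_coord _))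
  · -- T maps K.Z to the cone complex
    intro z hz
    set ρ : Set V := {v | z v ≠ 0} with hρ
    have hsum : ∀ i : W, ∑ σ ∈ (Finset.univ.filter (fun σ : Set V => f i ∈ σ)), ms σ z =
        if f i ∈ ρ then ms ρ z else 0 := by
      intro i
      split_ifs with h
      · rw [Finset.sum_eq_single ρ]
        · intro σ _ h6
          by_contra h7
          exact h6 (mu z hz σ h7)
        · intro h6
          exact absurd (Finset.mem_filter.2 ⟨Finset.mem_univ ρ, h⟩) h6
      · refine Finset.sum_eq_zero (fun σ hσ => ?_)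
        by_contra h7
        apply h
        have := mu z hz σ h7
        rw [← hρ] at this
        rw [← this]
        exact (Finset.mem_filter.1 hσ).2
    have hl : ∀ i : W, z (f i) - ∑ σ ∈ (Finset.univ.filter (fun σ : Set V => f i ∈ σ)), ms σ z =
        if f i ∈ ρ then z (f i) - ms ρ z else 0 := by
      intro i
      rw [hsum]
      split_ifs with h
      · rfl
      · have : z (f i) = 0 := by
          by_contra hc
          exact h hc
        rw [this, sub_zero]
    refine ⟨?_, ?_⟩
    · rintro (i | σ)
      · show 0 ≤ z (f i) - _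
        rw [hl]
        split_ifs with h
        · exact sub_nonneg.2 (m1 ρ z hz.1 _ h)
        · exact le_refl _
      · exact m0 σ z hz.1
    · have hinl : ∀ i : W, Sum.inl i ∈ {w : W ⊕ Set V | (match w with
          | Sum.inl i => z (f i) - ∑ σ ∈ (Finset.univ.filter (fun σ : Set V => f i ∈ σ)), ms σ z
          | Sum.inr σ => ms σ z) ≠ 0} → f i ∈ ρ ∧ z (f i) - ms ρ z ≠ 0 := by
        intro i hi
        have hi' : z (f i) - ∑ σ ∈ (Finset.univ.filter (fun σ : Set V => f i ∈ σ)), ms σ z ≠ 0 := hi
        rw [hl] at hi'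
        split_ifs at hi' with h
        · exact ⟨h, hi'⟩
        · exact absurd rfl hi'
      have hinr : ∀ σ : Set V, Sum.inr σ ∈ {w : W ⊕ Set V | (match w with
          | Sum.inl i => z (f i) - ∑ σ ∈ (Finset.univ.filter (fun σ : Set V => f i ∈ σ)), ms σ z
          | Sum.inr σ => ms σ z) ≠ 0} → σ = ρ ∧ ms ρ z ≠ 0 := by
        intro σ hσ
        have h6 : ms σ z ≠ 0 := hσ
        have h7 := mu z hz σ h6
        rw [← hρ] at h7
        exact ⟨h7, h7 ▸ h6⟩
      refine ⟨?_, fun σ σ' h h' => ((hinr σ h).1).trans ((hinr σ' h').1).symm⟩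
      by_cases h3 : IsTri ρ
      · obtain ⟨v0, hv0, h6⟩ := m3 ρ z hz.2 h3
        obtain ⟨u, v, huv, hu, hv, h7⟩ := ct6_two ρ h3 v0 hv0
        refine ⟨{e u, e v}, Or.inr ⟨e u, e v, Or.inr ?_, rfl⟩, ?_, ?_⟩
        · rw [hadj]
          refine ⟨huv, K.down _ _ ?_ hz.2⟩
          rintro y (rfl | rfl)
          · exact hu
          · exact hv
        · intro i hi
          obtain ⟨h8, h9⟩ := hinl i hi
          have h10 : f i ≠ v0 := by
            intro h
            apply h9
            rw [h6, h, sub_self]
          rcases h7 _ h8 h10 with h11 | h11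
          · left; rw [← h11, hef]
          · right
            show i = e v
            rw [← h11, hef]
        · intro σ hσ
          obtain ⟨rfl, h9⟩ := hinr σ hσ
          refine ⟨hz.2, h3, ?_⟩
          intro x hx
          simp only [uni, Set.mem_iUnion] at hx
          obtain ⟨i, hi, hx⟩ := hx
          rw [hf i] at hx
          have h10 : x = f i := hx
          rw [h10]
          exact (hinl i hi).1
      · rcases ct6_small K hK ρ hz.2 h3 with h4 | ⟨u, v, h4⟩
        · refine ⟨∅, Or.inl rfl, ?_, ?_⟩
          · intro i hi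
            have := (hinl i hi).1
            rw [h4] at this
            exact this.elim
          · intro σ hσ
            obtain ⟨rfl, h9⟩ := hinr σ hσ
            exact absurd (m2 _ z hz.1 h9).1.2 h3
        · refine ⟨{e u, e v}, Or.inr ⟨e u, e v, ?_, rfl⟩, ?_, ?_⟩
          · by_cases huv : u = v
            · left; rw [huv]
            · right
              rw [hadj]
              refine ⟨huv, ?_⟩
              rw [← h4]
              exact hz.2
          · intro i hi
            have := (hinl i hi).1
            rw [h4] at this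
            rcases this with h11 | h11
            · left; rw [← h11, hef]
            · right
              have h12 : f i = v := h11
              show i = e v
              rw [← h12, hef]
          · intro σ hσ
            obtain ⟨rfl, h9⟩ := hinr σ hσ
            exact absurd (m2 _ z hz.1 h9).1.2 h3
  · -- R maps the cone complex to K.Z
    intro z hz
    have hz' := hz
    obtain ⟨h1, ⟨τ, h2, h3, h4⟩, h5⟩ := hz'
    refine ⟨?_, ?_⟩
    · intro v
      exact add_nonneg (h1 _) (Finset.sum_nonneg (fun σ _ => h1 _))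
    · by_cases hc : ∃ σ : Set V, z (Sum.inr σ) ≠ 0
      · obtain ⟨σ0, hσ0⟩ := hc
        obtain ⟨h6, h7, h8⟩ := h4 σ0 hσ0
        refine K.down _ _ ?_ h6
        intro v hv
        by_contra hc
        apply hv
        show z (Sum.inl (e v)) + _ = 0
        have e1 : z (Sum.inl (e v)) = 0 := by
          by_contra hne
          apply hc
          apply h8
          simp only [uni, Set.mem_iUnion]
          refine ⟨e v, hne, ?_⟩
          rw [he' v]
          rfl
        have e2 : ∑ σ ∈ (Finset.univ.filter (fun σ : Set V => v ∈ σ)), z (Sum.inr σ) = 0 := by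
          refine Finset.sum_eq_zero (fun σ hσ => ?_)
          by_contra hne
          have : σ = σ0 := h5 σ σ0 hne hσ0
          rw [this] at hσ
          exact hc (Finset.mem_filter.1 hσ).2
        rw [e1, e2, add_zero]
      · push Not at hc
        have hs : ∀ v, z (Sum.inl (e v)) + ∑ σ ∈ (Finset.univ.filter (fun σ : Set V => v ∈ σ)),
            z (Sum.inr σ) = z (Sum.inl (e v)) := by
          intro v
          rw [Finset.sum_eq_zero (fun σ _ => hc σ), add_zero]
        simp only [hs]
        rcases h2 with rfl | ⟨i, j, h2, rfl⟩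
        · have : {v : V | z (Sum.inl (e v)) ≠ 0} = ∅ := by
            apply Set.eq_empty_of_forall_notMem
            intro v hv
            exact h3 (a := e v) hv
          rw [this]
          exact K.empt
        · have hsub : {v : V | z (Sum.inl (e v)) ≠ 0} ⊆ {f i, f j} := by
            intro v hv
            have := h3 (a := e v) hv
            rcases this with h6 | h6
            · left; rw [← h6, hfe]
            · right
              have h7 : e v = j := h6
              show v = f j
              rw [← h7, hfe]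
          refine K.down _ _ hsub ?_
          rcases h2 with h2 | h2
          · rw [h2, Set.pair_eq_singleton]
            exact K.vert _
          · exact ((hadj' i j).1 h2).2
  · -- R (T z) = z
    intro z hz
    funext v
    show z (f (e v)) - ∑ σ ∈ (Finset.univ.filter (fun σ : Set V => f (e v) ∈ σ)), ms σ z +
      ∑ σ ∈ (Finset.univ.filter (fun σ : Set V => v ∈ σ)), ms σ z = z v
    rw [hfe v]
    ring
  · -- T (R z) = z
    intro z hz
    have key : ∀ σ : Set V, ms σ (fun v => z (Sum.inl (e v)) +
        ∑ σ ∈ (Finset.univ.filter (fun σ : Set V => v ∈ σ)), z (Sum.inr σ)) = z (Sum.inr σ) := by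
      intro σ
      obtain ⟨h1, ⟨τ, h2, h3, h4⟩, h5⟩ := hz
      have hout : ∀ σ' : Set V, IsTri σ' → ∃ v ∈ σ', z (Sum.inl (e v)) = 0 := by
        intro σ' hσ'
        rcases h2 with rfl | ⟨i, j, h2, rfl⟩
        · obtain ⟨u, v, w, huv, huw, hvw, rfl⟩ := hσ'
          refine ⟨u, by simp, ?_⟩
          by_contra hc
          exact h3 (a := e u) hc
        · obtain ⟨v, hv, hvi, hvj⟩ := ct6_out σ' hσ' (f i) (f j)
          refine ⟨v, hv, ?_⟩
          by_contra hc
          have := h3 (a := e v) hc
          rcases this with h6 | h6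
          · apply hvi
            rw [← h6, hfe]
          · apply hvj
            have h7 : e v = j := h6
            rw [← h7, hfe]
      have hnn : ∀ v, 0 ≤ z (Sum.inl (e v)) +
          ∑ σ ∈ (Finset.univ.filter (fun σ : Set V => v ∈ σ)), z (Sum.inr σ) := fun v =>
        add_nonneg (h1 _) (Finset.sum_nonneg (fun σ _ => h1 _))
      by_cases hc : z (Sum.inr σ) = 0
      · rw [hc]
        by_contra hne
        obtain ⟨⟨g1, g2⟩, g3⟩ := m2 σ _ hnn hne
        obtain ⟨v, hv, hv0⟩ := hout σ g2
        have g4 := g3 v hv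
        rw [hv0, zero_add] at g4
        obtain ⟨σ', hσ', g5⟩ := Finset.exists_ne_zero_of_sum_ne_zero g4
        obtain ⟨k1, k2, k3⟩ := h4 σ' g5
        -- the support is contained in σ'
        have k4 : σ ⊆ σ' := by
          intro x hx
          have g6 := g3 x hx
          by_contra hxs
          apply g6
          have e1 : z (Sum.inl (e x)) = 0 := by
            by_contra hne
            apply hxs
            apply k3
            simp only [uni, Set.mem_iUnion]
            refine ⟨e x, hne, ?_⟩
            rw [he' x]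
            rfl
          have e2 : ∑ σ ∈ (Finset.univ.filter (fun σ : Set V => x ∈ σ)), z (Sum.inr σ) = 0 := by
            refine Finset.sum_eq_zero (fun σ'' hσ'' => ?_)
            by_contra hne
            have : σ'' = σ' := h5 σ'' σ' hne g5
            rw [this] at hσ''
            exact hxs (Finset.mem_filter.1 hσ'').2
          rw [e1, e2, add_zero]
        have := ct6_max K hK σ' σ k1 g2 k4
        rw [← this] at g5
        exact g5 hc
      · obtain ⟨k1, k2, k3⟩ := h4 σ hc
        have hs : ∀ v ∈ σ, ∑ σ ∈ (Finset.univ.filter (fun σ : Set V => v ∈ σ)), z (Sum.inr σ) =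
            z (Sum.inr σ) := by
          intro v hv
          rw [Finset.sum_eq_single σ]
          · intro σ' _ hne
            by_contra h
            exact hne (h5 σ' σ h hc)
          · intro h
            exact absurd (Finset.mem_filter.2 ⟨Finset.mem_univ σ, hv⟩) h
        apply le_antisymm
        · obtain ⟨v, hv, hv0⟩ := hout σ k2
          have := m1 σ _ hnn v hv
          rw [hv0, zero_add, hs v hv] at this
          exact this
        · obtain ⟨v, hv, g⟩ := m3 σ (fun v => z (Sum.inl (e v)) +
            ∑ σ ∈ (Finset.univ.filter (fun σ : Set V => v ∈ σ)), z (Sum.inr σ)) k1 k2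
          rw [g, hs v hv]
          linarith [h1 (Sum.inl (e v))]
    funext w
    rcases w with i | σ
    · show z (Sum.inl (e (f i))) + ∑ σ ∈ (Finset.univ.filter (fun σ : Set V => f i ∈ σ)),
        z (Sum.inr σ) - ∑ σ ∈ (Finset.univ.filter (fun σ : Set V => f i ∈ σ)),
        ms σ (fun v => z (Sum.inl (e v)) +
        ∑ σ ∈ (Finset.univ.filter (fun σ : Set V => v ∈ σ)), z (Sum.inr σ)) = z (Sum.inl i)
      rw [hef, Finset.sum_congr rfl (fun σ _ => key σ)]
      ring
    · exact key σ

end Pool.Agent.MP552024
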