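import Pool.Agent.Work.MP_552024_lc.Basic

/-!
Combinatorial surfaces as finite sets of triangles, discs, cones, transport of charts.
MP_552024_lc, dimension at most three.
-/

set_option autoImplicit false

namespace Pool.Agent.MP552024

section Surfaces

variable {U : Type} [DecidableEq U]

/-- the number of triangles of `D` containing `e` -/
def deg (D : Finset (Finset U)) (e : Finset U) : ℕ := (D.filter (fun t => e ⊆ t)).card

/-- vertices -/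
def Vs (D : Finset (Finset U)) : Finset U := D.biUnion id

/-- edges -/
def Es (D : Finset (Finset U)) : Finset (Finset U) := D.biUnion (Finset.powersetCard 2)

/-- the dual graph is connected -/
def Dual (D : Finset (Finset U)) : Prop :=
  ∀ A : Finset (Finset U), A ⊆ D → A.Nonempty →
    (∀ t ∈ A, ∀ t' ∈ D, ∀ e : Finset U, e.card = 2 → e ⊆ t → e ⊆ t' → t' ∈ A) → A = D

/-- a connected surface with nonempty boundary (pinch points allowed) -/
structure Surf (D : Finset (Finset U)) : Prop where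
  tri : ∀ t ∈ D, t.card = 3
  deg2 : ∀ e : Finset U, e.card = 2 → deg D e ≤ 2
  dual : Dual D
  bd : ∃ e : Finset U, e.card = 2 ∧ deg D e = 1

/-- Euler characteristic -/
def chi (D : Finset (Finset U)) : ℤ := ((Vs D).card : ℤ) - (Es D).card + D.card

/-- every cycle modulo 2 bounds -/
def H1z (D : Finset (Finset U)) : Prop :=
  ∀ F : Finset (Finset U), F ⊆ Es D → (∀ v, Even ((F.filter (fun e => v ∈ e)).card)) →
    ∃ c : Finset (Finset U), c ⊆ D ∧ ∀ e ∈ Es D, (e ∈ F ↔ Odd (deg c e))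

/-- a piece cut off by the edge `g` -/
def Piece (D : Finset (Finset U)) (g : Finset U) (c : Finset (Finset U)) : Prop :=
  c ⊆ D ∧ c.Nonempty ∧ c ≠ D ∧
    ∀ e : Finset U, e.card = 2 → e ≠ g → deg D e = 2 → (deg c e = 0 ∨ deg c e = 2)

/-- shellable discs -/
inductive IsDisc : Finset (Finset U) → Prop
  | tri (a b c : U) (hab : a ≠ b) (hac : a ≠ c) (hbc : b ≠ c) : IsDisc {{a, b, c}}
  | ear (D : Finset (Finset U)) (a b y : U) (hD : IsDisc D) (hab : a ≠ b) (h1 : deg D {a, b} = 1)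
      (hy : y ∉ Vs D) : IsDisc (insert {a, b, y} D)
  | fill (D : Finset (Finset U)) (a x b : U) (hD : IsDisc D) (hab : a ≠ b) (hxa : x ≠ a)
      (hxb : x ≠ b) (h1 : deg D {a, x} = 1) (h2 : deg D {x, b} = 1) (h3 : deg D {a, b} = 0)
      (h4 : ∀ c, c ≠ x → deg D {x, c} = 1 → c = a ∨ c = b) : IsDisc (insert {a, x, b} D)

/-- interior faces of the surface `D` -/
def IntF (D : Finset (Finset U)) (s : Set U) : Prop :=
  (∃ t ∈ D, s = ↑t) ∨ (∃ e : Finset U, e.card = 2 ∧ deg D e = 2 ∧ s = ↑e) ∨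
    ∃ y ∈ Vs D, (∀ c, c ≠ y → deg D {y, c} ≠ 1) ∧ s = {y}

end Surfaces

/-- abstract simplicial complexes in which not all elements of `U` need to be vertices -/
structure PC (U : Type) where
  face : Set U → Prop
  down : ∀ s t : Set U, t ⊆ s → face s → face t
  empt : face ∅

/-- the realisation -/
def PC.Z {U : Type} (Δ : PC U) : Set (U → ℝ) :=
  {x | (∀ i, 0 ≤ x i) ∧ Δ.face {i | x i ≠ 0}}

/-- a chart on a set `Z` (for `Z = Δ.Z` this is `IsChart Δ ev`) -/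
structure ChartOn {G : Type} [AddCommGroup G] [Lattice G] {V : Type} (Z : Set (V → ℝ))
    (ev : G → (V → ℝ) → ℝ) : Prop where
  add : ∀ a b : G, ∀ z ∈ Z, ev (a + b) z = ev a z + ev b z
  sup : ∀ a b : G, ∀ z ∈ Z, ev (a ⊔ b) z = max (ev a z) (ev b z)
  inj : ∀ a : G, (∀ z ∈ Z, ev a z = 0) → a = 0
  mem : ∀ g : G, ∃ a ∈ LP V, ∀ z ∈ Z, ev g z = a z
  sur : ∀ a ∈ LP V, ∃ g : G, ∀ z ∈ Z, ev g z = a z

/-- every group with a chart on `Z` has a chart on `Z'` -/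
def Eqv {V V' : Type} (Z : Set (V → ℝ)) (Z' : Set (V' → ℝ)) : Prop :=
  ∀ (G : Type) [AddCommGroup G] [Lattice G], (∃ ev : G → (V → ℝ) → ℝ, ChartOn Z ev) →
    ∃ ev' : G → (V' → ℝ) → ℝ, ChartOn Z' ev'

theorem Eqv.rfl' {V : Type} (Z : Set (V → ℝ)) : Eqv Z Z := fun _ _ _ h => h

theorem Eqv.trans' {V V' V'' : Type} {Z : Set (V → ℝ)} {Z' : Set (V' → ℝ)} {Z'' : Set (V'' → ℝ)}
    (h : Eqv Z Z') (h' : Eqv Z' Z'') : Eqv Z Z'' := fun G _ _ hG => h' G (h G hG)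

theorem IsChart.toOn {G : Type} [AddCommGroup G] [Lattice G] {V : Type} {Δ : Cx V}
    {ev : G → (V → ℝ) → ℝ} (h : IsChart Δ ev) : ChartOn Δ.Z ev := ⟨h.add, h.sup, h.inj, h.mem, h.sur⟩

theorem ChartOn.toChart {G : Type} [AddCommGroup G] [Lattice G] {V : Type} {Δ : Cx V}
    {ev : G → (V → ℝ) → ℝ} (h : ChartOn Δ.Z ev) : IsChart Δ ev := ⟨h.add, h.sup, h.inj, h.mem, h.sur⟩

/-- transport of charts along piecewise linear isomorphisms -/
theorem Eqv.of_maps {V V' : Type} {Z : Set (V → ℝ)} {Z' : Set (V' → ℝ)}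
    (T : (V' → ℝ) → V → ℝ) (R : (V → ℝ) → V' → ℝ)
    (hT : ∀ v, (fun z => T z v) ∈ LP V') (hR : ∀ w, (fun z => R z w) ∈ LP V)
    (hTZ : ∀ z ∈ Z', T z ∈ Z) (hRZ : ∀ z ∈ Z, R z ∈ Z')
    (hRT : ∀ z ∈ Z', R (T z) = z) (hTR : ∀ z ∈ Z, T (R z) = z) : Eqv Z Z' := by
  rintro G _ _ ⟨ev, hc⟩
  refine ⟨fun g z => ev g (T z), ?_, ?_, ?_, ?_, ?_⟩
  · exact fun a b z hz => hc.add a b _ (hTZ z hz)
  · exact fun a b z hz => hc.sup a b _ (hTZ z hz)
  · intro a ha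
    refine hc.inj a (fun z hz => ?_)
    have := ha (R z) (hRZ z hz)
    simpa only [hTR z hz] using this
  · intro g
    obtain ⟨a, ha, h⟩ := hc.mem g
    exact ⟨_, LP_comp ha (fun v z => T z v) hT, fun z hz => h _ (hTZ z hz)⟩
  · intro a ha
    obtain ⟨g, hg⟩ := hc.sur _ (LP_comp ha (fun w z => R z w) hR)
    refine ⟨g, fun z hz => ?_⟩
    have h1 := hg (T z) (hTZ z hz)
    have h2 : (fun w => R (T z) w) = z := hRT z hz
    rw [h1, h2]

section Moves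

variable {U : Type}

/-- the triangle `{a, b, c}` of `Δ` is starred from the new vertex `x` -/
structure Star3R (Δ Δ' : PC U) (x a b c : U) : Prop where
  hab : a ≠ b
  hac : a ≠ c
  hbc : b ≠ c
  abc : Δ.face {a, b, c}
  top : ∀ s, Δ.face s → {a, b, c} ⊆ s → s ⊆ {a, b, c}
  new : ∀ s, Δ.face s → x ∉ s
  res : ∀ s, Δ'.face s ↔ (Δ.face s ∧ ¬ ({a, b, c} ⊆ s)) ∨ s ⊆ {x, a, b} ∨ s ⊆ {x, b, c} ∨ s ⊆ {x, a, c}

/-- the vertex `x` with link the boundary of the triangle `{a, b, c}` is removed -/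
structure Unstar3R (Δ Δ' : PC U) (x a b c : U) : Prop where
  hab : a ≠ b
  hac : a ≠ c
  hbc : b ≠ c
  xa : x ≠ a
  xb : x ≠ b
  xc : x ≠ c
  f1 : Δ.face {x, a, b}
  f2 : Δ.face {x, b, c}
  f3 : Δ.face {x, a, c}
  nabc : ¬ Δ.face {a, b, c}
  star : ∀ s, Δ.face s → x ∈ s → s ⊆ {x, a, b} ∨ s ⊆ {x, b, c} ∨ s ⊆ {x, a, c}
  res : ∀ s, Δ'.face s ↔ (Δ.face s ∧ x ∉ s) ∨ s ⊆ {a, b, c}

/-- the edge `{a, b}` with exactly two triangles `{a, b, p}`, `{a, b, q}` is replaced by `{p, q}` -/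
structure FlipR (Δ Δ' : PC U) (a b p q : U) : Prop where
  hab : a ≠ b
  hpq : p ≠ q
  hap : a ≠ p
  haq : a ≠ q
  hbp : b ≠ p
  hbq : b ≠ q
  f1 : Δ.face {a, b, p}
  f2 : Δ.face {a, b, q}
  npq : ¬ Δ.face {p, q}
  star : ∀ s, Δ.face s → {a, b} ⊆ s → s ⊆ {a, b, p} ∨ s ⊆ {a, b, q}
  res : ∀ s, Δ'.face s ↔ (Δ.face s ∧ ¬ ({a, b} ⊆ s)) ∨ s ⊆ {p, q, a} ∨ s ⊆ {p, q, b}

variable [DecidableEq U]

/-- the interior of `D` is disjoint from the rest of `Δ` -/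
def Priv (Δ : PC U) (D : Finset (Finset U)) : Prop :=
  ∀ s, Δ.face s → ∀ f, IntF D f → f ⊆ s → ∃ t ∈ D, s ⊆ ↑t

/-- the surface `D` inside `Δ` is replaced by the cone with apex `x` over its boundary -/
def ConeFace (Δ : PC U) (D : Finset (Finset U)) (x : U) (s : Set U) : Prop :=
  (x ∉ s ∧ Δ.face s ∧ ∀ f, IntF D f → ¬ f ⊆ s) ∨
    (x ∈ s ∧ ∃ e : Finset U, e.card = 2 ∧ deg D e = 1 ∧ s \ {x} ⊆ ↑e)

end Moves

end Pool.Agent.MP552024
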