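import Pool.Agent.Work.MP_552024_lc.Two.StmtsC
import Pool.Agent.Work.MP_552024_lc.D2

/-!
`Cl` for linear elements, and `Two` for linear elements. MP_552024_lc, dimension at most three.
-/

set_option autoImplicit false

namespace Pool.Agent.MP552024

namespace FBx

/-- a lattice polynomial that is positive exactly where all coordinates in `s` are -/
theorem infLP {V : Type} (s : Finset V) (hs : s.Nonempty) : ∃ a ∈ LP V, ∀ z : V → ℝ,
    (∀ i, 0 ≤ z i) → 0 ≤ a z ∧ (0 < a z ↔ ∀ i ∈ s, 0 < z i) := by
  classical
  induction hs using Finset.Nonempty.cons_induction with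
  | singleton i =>
    refine ⟨_, LP_coord i, fun z hz => ⟨hz i, ?_⟩⟩
    simp
  | cons i s hi hs ih =>
    obtain ⟨a, ha, h⟩ := ih
    refine ⟨_, LP_min (LP_coord i) ha, fun z hz => ⟨le_min (hz i) (h z hz).1, ?_⟩⟩
    rw [lt_min_iff, (h z hz).2]
    simp

open scoped Classical in
/-- the indicator function of a face -/
theorem ind_mem {V : Type} {Δ : Cx V} (s : Set V) (hs : Δ.face s) :
    (fun i => if i ∈ s then (1 : ℝ) else 0) ∈ Δ.Z := by
  refine Cx.mem_Z (fun i => by split_ifs <;> norm_num) s hs (fun i hi => ?_)
  by_contra hc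
  simp [hc] at hi

end FBx

open FBx in
theorem prfClF (h : S_inc) (hl : S_lim) : S_clF := by
  classical
  intro G _ _ _ M a q d c hd hc ha hq
  constructor
  · intro hcl s hs hne hcs
    by_contra hcon
    push Not at hcon
    have hsf : (s.toFinset).Nonempty := by
      obtain ⟨i, hi⟩ := hne
      exact ⟨i, by simpa using hi⟩
    obtain ⟨b, hb, hb2⟩ := infLP s.toFinset hsf
    obtain ⟨y, hy⟩ := M.chart.sur b hb
    have hy0 : 0 ≤ y := M.chart.nonneg_iff.2 (fun z hz => by
      rw [hy z hz]; exact (hb2 z hz.1).1)
    have hya : y ⊓ a = 0 := by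
      refine M.chart.ext (fun z hz => ?_)
      rw [M.chart.inf _ _ hz, M.chart.zero hz]
      have ha1 := M.chart.nonneg_iff.1 ha z hz
      have hy1 := M.chart.nonneg_iff.1 hy0 z hz
      rcases hy1.eq_or_lt with h0 | h0
      · rw [← h0]; exact min_eq_left ha1
      · have h1 : ∀ i ∈ s, 0 < z i := by
          rw [hy z hz] at h0
          intro i hi
          exact ((hb2 z hz.1).2.1 h0) i (by simpa using hi)
        have h2 : M.ev a z = 0 := by
          rw [hd z hz]
          refine Finset.sum_eq_zero fun k _ => ?_
          by_cases hk : z k = 0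
          · rw [hk, mul_zero]
          · have h3 : M.Δ.face (insert k s) := by
              refine Cx.face_of_mem hz _ fun i hi => ?_
              rcases hi with rfl | hi
              · exact hk
              · exact (h1 i hi).ne'
            have h4 := hcon k h3
            have h5 := hd.nonneg ha k
            have h6 : d k = 0 := le_antisymm h4 h5
            rw [h6]; simp
        rw [h2]; exact min_eq_right hy1
    have hinc := hcl y hy0 hya
    rw [h G M y q hy0 hq] at hinc
    have hz := ind_mem (Δ := M.Δ) s hs
    have h1 := hinc _ hz (by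
      rw [hc.zero_iff hq hz]
      intro i hi
      have : i ∉ s := fun h2 => hi (hcs i h2)
      simp [this])
    rw [hy _ hz] at h1
    have h2 := ((hb2 _ hz.1).2).2 (by
      intro i hi
      have : i ∈ s := by simpa using hi
      simp [this])
    rw [h1] at h2
    exact lt_irrefl _ h2
  · intro hf y hy hya
    rw [h G M y q hy hq]
    intro z hz hqz
    by_cases hz0 : ∀ i, z i = 0
    · exact M.ev_zero_vec y hz0
    · push Not at hz0
      rw [hc.zero_iff hq hz] at hqz
      obtain ⟨k, hk1, hk2⟩ := hf {i | z i ≠ 0} hz.2 hz0 (by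
        intro i hi
        by_contra h1
        exact hi (hqz i h1))
      refine hl G M y z (pt k) hz (fun ε hε => ?_)
      have hmem : (fun l => z l + ε * pt k l) ∈ M.Δ.Z := by
        refine Cx.mem_Z (fun l => add_nonneg (hz.1 l) (mul_nonneg hε.le (pt_nonneg _ _))) _ hk1
          (fun l hl => ?_)
        by_contra hcn
        rw [Set.mem_insert_iff, not_or] at hcn
        apply hl
        have h2 : z l = 0 := by
          by_contra h3; exact hcn.2 h3
        rw [h2, pt_ne hcn.1]; simp
      refine ⟨hmem, ?_⟩
      have h1 := M.chart.inf y a hmem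
      rw [hya, M.chart.zero hmem] at h1
      have h2 : 0 < M.ev a (fun l => z l + ε * pt k l) := by
        have ha0 := M.chart.nonneg_iff.1 ha _ hmem
        rcases ha0.eq_or_lt with h3 | h3
        · exfalso
          have h4 := (hd.zero_iff ha hmem).1 h3.symm k (by omega)
          rw [pt_self] at h4
          have := hz.1 k
          linarith
        · exact h3
      rcases min_choice (M.ev y (fun l => z l + ε * pt k l))
        (M.ev a (fun l => z l + ε * pt k l)) with h3 | h3
      · rw [← h3]; exact h1.symm
      · rw [h3] at h1; rw [← h1] at h2; exact absurd h2 (lt_irrefl _)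

theorem prfTwoL (hn : S_nzL) (hs : S_singleL) : S_twoL := by
  intro G _ _ _ M q c hc hq
  unfold Two
  rw [hn G M q c hc hq, hs G M q c hc hq]
  have hc0 := hc.nonneg hq
  constructor
  · rintro ⟨h1, h2⟩
    push Not at h1
    obtain ⟨i, hi⟩ := h1
    have hi0 : c i = 0 := le_antisymm hi (hc0 i)
    by_contra hcon
    apply h2
    refine ⟨i, hi0, fun j hj => ?_⟩
    by_contra hji
    exact hcon ⟨j, i, hji, hj, hi0⟩
  · rintro ⟨i, j, hij, hi, hj⟩
    refine ⟨fun h1 => ?_, ?_⟩
    · have := h1 i
      omega
    · rintro ⟨k, hk, huniq⟩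
      exact hij ((huniq i hi).trans (huniq j hj).symm)

end Pool.Agent.MP552024
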