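import Pool.Agent.Work.MP_552024_lc.Two.StmtsB

/-!
GSa: elementary subdivisions of good labelled complexes, first part. MP_552024_lc (helper50).
-/

set_option autoImplicit false

namespace Pool.Agent.MP552024

namespace GSa

variable {V W : Type} {K : Cx V} {N : Cx W} {S : W → Set V} {p q : W} {hpq : p ≠ q}
  {hf : N.face {p, q}}

theorem faceN {s : Set (Option W)} (h : (N.sub p q hpq hf).face s) :
    N.face ({v | some v ∈ s} ∪ {v | none ∈ s ∧ (v = p ∨ v = q)}) := h.2

theorem notBoth {s : Set (Option W)} (h : (N.sub p q hpq hf).face s) :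
    ¬ (some p ∈ s ∧ some q ∈ s) := h.1

theorem some_sub {s : Set (Option W)} (h : (N.sub p q hpq hf).face s) {t : Set W}
    (ht : ∀ v ∈ t, some v ∈ s) : N.face t :=
  N.down _ _ (fun v hv => Or.inl (ht v hv)) (faceN h)

theorem none_sub {s : Set (Option W)} (h : (N.sub p q hpq hf).face s) (hn : none ∈ s) {t : Set W}
    (ht : ∀ v ∈ t, some v ∈ s ∨ v = p ∨ v = q) : N.face t :=
  N.down _ _ (fun v hv => (ht v hv).elim Or.inl (fun h => Or.inr ⟨hn, h⟩)) (faceN h)

theorem dim_none (hN : N.Dim2) {a b c : W} (hab : a ≠ b) (hac : a ≠ c) (hbc : b ≠ c)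
    {s : Set (Option W)} (hn : none ∈ s) (ha : some a ∈ s) (hb : some b ∈ s) (hc : some c ∈ s)
    (h : (N.sub p q hpq hf).face s) : False := by
  by_cases h1 : p ≠ a ∧ p ≠ b ∧ p ≠ c
  · refine hN a b c p hab hac h1.1.symm hbc h1.2.1.symm h1.2.2.symm (none_sub h hn ?_)
    rintro v (rfl | rfl | rfl | rfl)
    · exact Or.inl ha
    · exact Or.inl hb
    · exact Or.inl hc
    · exact Or.inr (Or.inl rfl)
  · have hp : some p ∈ s := by
      by_contra h2
      exact h1 ⟨fun h => h2 (h ▸ ha), fun h => h2 (h ▸ hb), fun h => h2 (h ▸ hc)⟩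
    have hq : some q ∉ s := fun h2 => notBoth h ⟨hp, h2⟩
    refine hN a b c q hab hac (fun h => hq (h ▸ ha)) hbc (fun h => hq (h ▸ hb))
      (fun h => hq (h ▸ hc)) (none_sub h hn ?_)
    rintro v (rfl | rfl | rfl | rfl)
    · exact Or.inl ha
    · exact Or.inl hb
    · exact Or.inl hc
    · exact Or.inr (Or.inr rfl)

theorem dim (hN : N.Dim2) : (N.sub p q hpq hf).Dim2 := by
  intro i j k l hij hik hil hjk hjl hkl h
  have hi : i ∈ ({i, j, k, l} : Set (Option W)) := by simp
  have hj : j ∈ ({i, j, k, l} : Set (Option W)) := by simp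
  have hk : k ∈ ({i, j, k, l} : Set (Option W)) := by simp
  have hl : l ∈ ({i, j, k, l} : Set (Option W)) := by simp
  generalize ({i, j, k, l} : Set (Option W)) = s at h hi hj hk hl
  rcases i with _ | i <;> rcases j with _ | j <;> rcases k with _ | k <;> rcases l with _ | l <;>
    simp only [ne_eq, not_true_eq_false, Option.some.injEq] at hij hik hil hjk hjl hkl
  · exact dim_none hN hjk hjl hkl hi hj hk hl h
  · exact dim_none hN hik hil hkl hj hi hk hl h
  · exact dim_none hN hij hil hjl hk hi hj hl h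
  · exact dim_none hN hij hik hjk hl hi hj hk h
  · refine hN i j k l hij hik hil hjk hjl hkl (some_sub h ?_)
    rintro v (rfl | rfl | rfl | rfl) <;> assumption

theorem flat_none (hG : Good K N S) {a b : W} (hab : a ≠ b) {s : Set (Option W)} (hn : none ∈ s)
    (ha : some a ∈ s) (hb : some b ∈ s) (h : (N.sub p q hpq hf).face s) (u v : V)
    (hp : S p ⊆ {u, v}) (hq : S q ⊆ {u, v}) (hSa : S a ⊆ {u, v}) (hSb : S b ⊆ {u, v}) : False := by
  -- a triple with p, q and a further vertex in s
  have key : ∀ x, some x ∈ s → x ≠ p → x ≠ q → S x ⊆ {u, v} → False := by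
    intro x hx hxp hxq hSx
    refine hG.flat p q x hpq hxp.symm hxq.symm (none_sub h hn ?_) u v
      (Set.union_subset (Set.union_subset hp hq) hSx)
    rintro w (rfl | rfl | rfl)
    · exact Or.inr (Or.inl rfl)
    · exact Or.inr (Or.inr rfl)
    · exact Or.inl hx
  by_cases h1 : a = p ∨ a = q
  · by_cases h2 : b = p ∨ b = q
    · rcases h1 with rfl | rfl
      · rcases h2 with h2 | rfl
        · exact hab h2.symm
        · exact notBoth h ⟨ha, hb⟩
      · rcases h2 with rfl | h2
        · exact notBoth h ⟨hb, ha⟩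
        · exact hab h2.symm
    · push Not at h2
      exact key b hb h2.1 h2.2 hSb
  · push Not at h1
    exact key a ha h1.1 h1.2 hSa

end GSa

open GSa in
theorem prfGSa : S_GSa := by
  intro V W K N S hG p q hpq hf
  refine ⟨?_, ?_, dim hG.dim, ?_, ?_⟩
  · rintro (_ | i)
    · exact (hG.ne p).inl
    · exact hG.ne i
  · intro s hs
    refine K.down _ _ ?_ (hG.car _ (faceN hs))
    intro x hx
    simp only [uni, Set.mem_iUnion] at hx ⊢
    obtain ⟨i, hi, hx⟩ := hx
    rcases i with _ | i
    · rcases hx with hx | hx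
      · exact ⟨p, Or.inr ⟨hi, Or.inl rfl⟩, hx⟩
      · exact ⟨q, Or.inr ⟨hi, Or.inr rfl⟩, hx⟩
    · exact ⟨i, Or.inl hi, hx⟩
  · intro v
    obtain ⟨i0, h0, hu⟩ := hG.one v
    refine ⟨some i0, h0, ?_⟩
    rintro (_ | i) hi
    · exfalso
      have h1 : S p ∪ S q = {v} := hi
      have hp : S p = {v} :=
        ((Set.subset_singleton_iff_eq.mp (Set.subset_union_left.trans h1.subset)).resolve_left
          (hG.ne p).ne_empty)
      have hq : S q = {v} :=
        ((Set.subset_singleton_iff_eq.mp (Set.subset_union_right.trans h1.subset)).resolve_left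
          (hG.ne q).ne_empty)
      exact hpq ((hu p hp).trans (hu q hq).symm)
    · exact congrArg some (hu i hi)
  · intro i j k hij hik hjk h u v hs
    have hi : i ∈ ({i, j, k} : Set (Option W)) := by simp
    have hj : j ∈ ({i, j, k} : Set (Option W)) := by simp
    have hk : k ∈ ({i, j, k} : Set (Option W)) := by simp
    have s1 : subS S p q i ⊆ {u, v} := fun x hx => hs (Or.inl (Or.inl hx))
    have s2 : subS S p q j ⊆ {u, v} := fun x hx => hs (Or.inl (Or.inr hx))
    have s3 : subS S p q k ⊆ {u, v} := fun x hx => hs (Or.inr hx)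
    clear hs
    generalize ({i, j, k} : Set (Option W)) = s at h hi hj hk
    rcases i with _ | i <;> rcases j with _ | j <;> rcases k with _ | k <;>
      simp only [ne_eq, not_true_eq_false, Option.some.injEq] at hij hik hjk
    · exact flat_none hG hjk hi hj hk h u v (fun x hx => s1 (Or.inl hx))
        (fun x hx => s1 (Or.inr hx)) s2 s3
    · exact flat_none hG hik hj hi hk h u v (fun x hx => s2 (Or.inl hx))
        (fun x hx => s2 (Or.inr hx)) s1 s3
    · exact flat_none hG hij hk hi hj h u v (fun x hx => s3 (Or.inl hx))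
        (fun x hx => s3 (Or.inr hx)) s1 s2
    · refine hG.flat i j k hij hik hjk (some_sub h ?_) u v
        (Set.union_subset (Set.union_subset s1 s2) s3)
      rintro w (rfl | rfl | rfl) <;> assumption

end Pool.Agent.MP552024
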