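import Pool.Agent.Work.MP_552024_lc.Two.Disc
import Pool.Agent.Work.MP_552024_lc.Stmts

/-!
Labelled subdivisions of two-dimensional complexes. MP_552024_lc, dimension at most three.
-/

set_option autoImplicit false

namespace Pool.Agent.MP552024

/-- no faces with four vertices -/
def Cx.Dim2 {V : Type} (Δ : Cx V) : Prop :=
  ∀ i j k l : V, i ≠ j → i ≠ k → i ≠ l → j ≠ k → j ≠ l → k ≠ l → ¬ Δ.face {i, j, k, l}

/-- sets with three elements -/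
def IsTri {V : Type} (σ : Set V) : Prop := ∃ u v w : V, u ≠ v ∧ u ≠ w ∧ v ≠ w ∧ σ = {u, v, w}

/-- the union of the labels of a set of vertices -/
def uni {V W : Type} (S : W → Set V) (s : Set W) : Set V := ⋃ i ∈ s, S i

/-- the triangles of `N` with label `σ` -/
def T3 {V W : Type} (N : Cx W) (S : W → Set V) (σ : Set V) (t : Set W) : Prop :=
  IsTri t ∧ N.face t ∧ uni S t = σ

/-- the vertices in `I` form an induced path from `a` to `b` -/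
def IsArc {W : Type} (N : Cx W) (I : Set W) (a b : W) : Prop :=
  ∃ (m : ℕ) (p : ℕ → W), (∀ j k, j ≤ m → k ≤ m → p j = p k → j = k) ∧ p 0 = a ∧ p m = b ∧
    (∀ i, i ∈ I ↔ ∃ k, k ≤ m ∧ p k = i) ∧
    ∀ j k, j ≤ m → k ≤ m → (N.face {p j, p k} ↔ j = k ∨ j = k + 1 ∨ k = j + 1)

/-- `N` with the labels `S` looks locally like a subdivision of `K`: the vertex `v` of `K` corresponds
to one vertex of `N`, the edges to paths, the triangles `σ` to connected surfaces whose boundary is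
the boundary of `σ` -/
structure Good {V W : Type} (K : Cx V) (N : Cx W) (S : W → Set V) : Prop where
  kdim : K.Dim2
  ne : ∀ i, (S i).Nonempty
  car : ∀ s, N.face s → K.face (uni S s)
  dim : N.Dim2
  one : ∀ v, ∃! i, S i = {v}
  flat : ∀ i j k, i ≠ j → i ≠ k → j ≠ k → N.face {i, j, k} → ∀ u v, ¬ (S i ∪ S j ∪ S k ⊆ {u, v})
  arc : ∀ u v a b, u ≠ v → K.face {u, v} → S a = {u} → S b = {v} →
    IsArc N {i | S i ⊆ {u, v}} a b
  int : ∀ σ, K.face σ → IsTri σ → ∀ i j, i ≠ j → N.face {i, j} → S i ∪ S j = σ →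
    ∃ k l, k ≠ l ∧ k ≠ i ∧ k ≠ j ∧ l ≠ i ∧ l ≠ j ∧
      ∀ m, m ≠ i → m ≠ j → (N.face {i, j, m} ↔ m = k ∨ m = l)
  bd : ∀ σ, K.face σ → IsTri σ → ∀ i j, i ≠ j → N.face {i, j} → S i ∪ S j ⊆ σ → S i ∪ S j ≠ σ →
    ∃ k, k ≠ i ∧ k ≠ j ∧ ∀ m, m ≠ i → m ≠ j →
      ((N.face {i, j, m} ∧ S i ∪ S j ∪ S m = σ) ↔ m = k)
  vtx : ∀ i σ, S i = σ → IsTri σ → ∃ j, j ≠ i ∧ N.face {i, j}
  dual : ∀ σ, K.face σ → IsTri σ → ∀ A : Set (Set W), (∀ t ∈ A, T3 N S σ t) → A.Nonempty →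
    (∀ t ∈ A, ∀ t', T3 N S σ t' → (∃ i j, i ≠ j ∧ i ∈ t ∧ j ∈ t ∧ i ∈ t' ∧ j ∈ t' ∧ S i ∪ S j = σ) →
      t' ∈ A) → ∀ t, T3 N S σ t → t ∈ A

/-- labels after an elementary subdivision -/
def subS {V W : Type} (S : W → Set V) (p q : W) : Option W → Set V := fun o => o.elim (S p ∪ S q) S

open Classical in
/-- the triangles with label `σ` as a finite set -/
noncomputable def Reg {V W : Type} [Fintype W] (N : Cx W) (S : W → Set V) (σ : Set V) :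
    Finset (Finset W) :=
  Finset.univ.filter (fun t => t.card = 3 ∧ N.face ↑t ∧ uni S ↑t = σ)

open Classical in
/-- Euler characteristic of a finite complex -/
noncomputable def chiC {W : Type} [Fintype W] (N : Cx W) : ℤ :=
  ∑ s ∈ Finset.univ.filter (fun s : Finset W => s.Nonempty ∧ N.face ↑s), (-1 : ℤ) ^ (s.card + 1)

open Classical in
/-- the part of the Euler characteristic with label `τ` -/
noncomputable def chiO {V W : Type} [Fintype W] (N : Cx W) (S : W → Set V) (τ : Set V) : ℤ :=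
  ∑ s ∈ Finset.univ.filter (fun s : Finset W => s.Nonempty ∧ N.face ↑s ∧ uni S ↑s = τ),
    (-1 : ℤ) ^ (s.card + 1)

/-- carriers: the vertices of `M` whose hat function does not vanish at `i` -/
def carr {G : Type} [AddCommGroup G] [Lattice G] {V : Type} (N : Mdl G) (h : V → G) (i : N.V) :
    Set V := {v | N.ev (h v) (pt i) ≠ 0}

/-- `h v` is the coordinate function of the vertex `v` of `M` -/
def Hats2 {G : Type} [AddCommGroup G] [Lattice G] (M : Mdl G) (h : M.V → G) : Prop :=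
  ∀ v, ∀ z ∈ M.Δ.Z, M.ev (h v) z = z v

section Sentence2

variable {G : Type} [AddCommGroup G] [Lattice G]

/-- the zero set of `q` is connected -/
def Conn (q : G) : Prop := ∀ x y : G, 0 ≤ x → 0 ≤ y → NZ (q + x + y) → Inc (x ⊓ y) q →
  Inc x q ∨ Inc y q

/-- the zero set of `q` has at least two rays -/
def Two (q : G) : Prop := ¬ NZ q ∧ ¬ Single q

/-- the sum of all `s x` with `x` different from `u` and `v` -/
def oth2 {V : Type} [Fintype V] (s : V → G) (u v : V) : G := (∑ x, s x) - s u - s v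

/-- the elements `s v` describe a triangulation of type `K`, up to genus -/
structure Sig2 {V : Type} [Fintype V] (K : Cx V) (s : V → G) : Prop where
  pos : ∀ v, 0 ≤ s v
  two : ∀ u v, u ≠ v → ¬ K.face {u, v} → s u ⊓ s v = 0
  three : ∀ u v w, u ≠ v → u ≠ w → v ≠ w → ¬ K.face {u, v, w} → s u ⊓ s v ⊓ s w = 0
  four : ∀ u v w x, u ≠ v → u ≠ w → u ≠ x → v ≠ w → v ≠ x → w ≠ x → s u ⊓ s v ⊓ s w ⊓ s x = 0
  nz : NZ (∑ v, s v)
  single : ∀ v, Single (oth s v)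
  arcC : ∀ u v, u ≠ v → K.face {u, v} → Conn (oth2 s u v)
  arcM : ∀ u v, u ≠ v → K.face {u, v} → ∀ r : G, 0 ≤ r → Conn r → Inc (oth2 s u v) r →
    Inc r (oth s u) → Inc r (oth s v) → Inc r (oth2 s u v)
  r1 : ∀ u v w, u ≠ v → u ≠ w → v ≠ w → K.face {u, v, w} → Cl (s u ⊓ s v ⊓ s w) (oth2 s u v)
  r2 : ∀ u v w, u ≠ v → u ≠ w → v ≠ w → K.face {u, v, w} → ∀ q : G, 0 ≤ q → Conn q → Two q →
    Inc (oth2 s u v) q → ¬ ∃ a b : G, (0 ≤ a ∧ 0 ≤ b) ∧ a ⊓ b = 0 ∧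
      (Inc a (s u ⊓ s v ⊓ s w) ∧ Inc b (s u ⊓ s v ⊓ s w)) ∧ Cl a q ∧ Cl b q
  r3 : ∀ u v w, u ≠ v → u ≠ w → v ≠ w → K.face {u, v, w} → ∀ q : G, 0 ≤ q → Conn q → Two q →
    ¬ ∃ a b c : G, (0 ≤ a ∧ 0 ≤ b ∧ 0 ≤ c) ∧ (a ⊓ b = 0 ∧ a ⊓ c = 0 ∧ b ⊓ c = 0) ∧
      (Inc a (s u ⊓ s v ⊓ s w) ∧ Inc b (s u ⊓ s v ⊓ s w) ∧ Inc c (s u ⊓ s v ⊓ s w)) ∧
      Cl a q ∧ Cl b q ∧ Cl c q
  r4 : ∀ u v w, u ≠ v → u ≠ w → v ≠ w → K.face {u, v, w} → ∀ q : G, 0 ≤ q → Conn q → Two q →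
    NZ (q + (s u ⊓ s v ⊓ s w)) → (∀ y : G, 0 ≤ y → y ⊓ q = 0 → y = 0) →
    ∃ a b : G, (0 ≤ a ∧ 0 ≤ b) ∧ a ⊓ b = 0 ∧
      (Inc a (s u ⊓ s v ⊓ s w) ∧ Inc b (s u ⊓ s v ⊓ s w)) ∧ Cl a q ∧ Cl b q
  r5 : ∀ u v w, u ≠ v → u ≠ w → v ≠ w → K.face {u, v, w} → ∀ a b : G, 0 ≤ a → 0 ≤ b → a ≠ 0 →
    b ≠ 0 → a ⊓ b = 0 → Inc a (s u ⊓ s v ⊓ s w) → Inc b (s u ⊓ s v ⊓ s w) →
    (∀ y : G, 0 ≤ y → Inc y (s u ⊓ s v ⊓ s w) → y ⊓ (a + b) = 0 → y = 0) →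
    ∃ q : G, 0 ≤ q ∧ Conn q ∧ Two q ∧ Cl a q ∧ Cl b q

end Sentence2

/-- a solution of `Sig2` that is linear in the model `N` -/
structure SigL2 {H : Type} [AddCommGroup H] [Lattice H] {V : Type} [Fintype V] (K : Cx V)
    (N : Mdl H) (s : V → H) (c : V → N.V → ℤ) : Prop where
  kdim : K.Dim2
  sig : Sig2 K s
  lin : ∀ v, N.Lin (s v) (c v)

/-- the complex of a labelled graph with a cone over the boundary of every triangle of `K` -/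
def CCface {V W : Type} (K : Cx V) (A : SimpleGraph W) (S : W → Set V) (s : Set (W ⊕ Set V)) : Prop :=
  (∃ τ : Set W, (τ = ∅ ∨ ∃ i j, (i = j ∨ A.Adj i j) ∧ τ = {i, j}) ∧ Sum.inl ⁻¹' s ⊆ τ ∧
    ∀ σ, Sum.inr σ ∈ s → K.face σ ∧ IsTri σ ∧ uni S (Sum.inl ⁻¹' s) ⊆ σ) ∧
  ∀ σ σ', Sum.inr σ ∈ s → Sum.inr σ' ∈ s → σ = σ'

def CC {V W : Type} (K : Cx V) (A : SimpleGraph W) (S : W → Set V) : PC (W ⊕ Set V) where
  face := CCface K A S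
  down := by
    rintro s t hts ⟨⟨τ, h1, h2, h3⟩, h4⟩
    refine ⟨⟨τ, h1, fun i hi => h2 (hts hi), fun σ hσ => ?_⟩, fun σ σ' h h' => h4 σ σ' (hts h) (hts h')⟩
    obtain ⟨h5, h6, h7⟩ := h3 σ (hts hσ)
    refine ⟨h5, h6, fun v hv => h7 ?_⟩
    simp only [uni, Set.mem_iUnion] at hv ⊢
    obtain ⟨i, hi, hv⟩ := hv
    exact ⟨i, hts hi, hv⟩
  empt := ⟨⟨∅, Or.inl rfl, by simp, by simp⟩, by simp⟩

/-- the complex `N` in which the regions in `F` are replaced by cones -/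
def NFface {V W : Type} (N : Cx W) (S : W → Set V) (F : Set (Set V)) (s : Set (W ⊕ Set V)) : Prop :=
  ((∀ σ, Sum.inr σ ∉ s) ∧ N.face (Sum.inl ⁻¹' s) ∧ uni S (Sum.inl ⁻¹' s) ∉ F) ∨
    ∃ σ ∈ F, Sum.inr σ ∈ s ∧ (∀ σ', Sum.inr σ' ∈ s → σ' = σ) ∧
      ∃ i j, i ≠ j ∧ N.face {i, j} ∧ S i ∪ S j ⊆ σ ∧ S i ∪ S j ≠ σ ∧ Sum.inl ⁻¹' s ⊆ {i, j}

end Pool.Agent.MP552024
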