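import Pool.Agent.Work.MP_552024_lc.Two.StmtsA

/-!
SH4: an interior edge with both ends on the boundary cuts off a piece. MP_552024_lc.
-/

set_option autoImplicit false

namespace Pool.Agent.MP552024

section SH4

variable {U : Type} [DecidableEq U]

lemma sh4_mem_Es {D : Finset (Finset U)} {e : Finset U} (hc : e.card = 2) (hd : 0 < deg D e) :
    e ∈ Es D := by
  unfold deg at hd
  obtain ⟨t, ht⟩ := Finset.card_pos.1 hd
  rw [Finset.mem_filter] at ht
  unfold Es
  rw [Finset.mem_biUnion]
  exact ⟨t, ht.1, Finset.mem_powersetCard.2 ⟨ht.2, hc⟩⟩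

/-- the vertices joined to `x` by a chain of boundary edges -/
def Sh4R (D : Finset (Finset U)) (x v : U) : Prop :=
  ∃ al : Finset (Finset U), (∀ e ∈ al, e.card = 2 ∧ deg D e = 1) ∧
    ∀ w, (Odd ((al.filter (fun e => w ∈ e)).card) ↔ Xor (w = x) (w = v))

lemma sh4_R_self (D : Finset (Finset U)) (x : U) : Sh4R D x x := by
  refine ⟨∅, by simp, fun w => ?_⟩
  simp [Xor]

lemma sh4_R_step (D : Finset (Finset U)) (x v w' : U) (hv : Sh4R D x v) (hne : v ≠ w')
    (h1 : deg D {v, w'} = 1) : Sh4R D x w' := by
  obtain ⟨al, h2, h3⟩ := hv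
  have key : ∀ w, (Xor (w = x) (w = w') ↔
      if w = v ∨ w = w' then ¬ Xor (w = x) (w = v) else Xor (w = x) (w = v)) := by
    intro w
    by_cases e1 : w = v
    · have e2 : ¬ (w = w') := fun e2 => hne (e1.symm.trans e2)
      rw [if_pos (Or.inl e1)]
      unfold Xor
      tauto
    · by_cases e2 : w = w'
      · rw [if_pos (Or.inr e2)]
        unfold Xor
        tauto
      · rw [if_neg (by tauto)]
        unfold Xor
        tauto
  by_cases hm : ({v, w'} : Finset U) ∈ al
  · refine ⟨al.erase {v, w'}, fun e he => h2 e (Finset.mem_of_mem_erase he), fun w => ?_⟩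
    rw [key w, ← h3 w, Finset.filter_erase]
    by_cases hw : w ∈ ({v, w'} : Finset U)
    · rw [if_pos (by simpa using hw)]
      have hmem : ({v, w'} : Finset U) ∈ al.filter (fun e => w ∈ e) :=
        Finset.mem_filter.2 ⟨hm, hw⟩
      have := Finset.card_erase_add_one hmem
      rw [← this, Nat.not_odd_iff_even, Nat.even_add_one, Nat.not_even_iff_odd]
    · rw [if_neg (by simpa using hw), Finset.erase_eq_of_notMem]
      intro h
      exact hw (Finset.mem_filter.1 h).2
  · refine ⟨insert {v, w'} al, ?_, fun w => ?_⟩
    · intro e he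
      rcases Finset.mem_insert.1 he with rfl | he
      · exact ⟨Finset.card_pair hne, h1⟩
      · exact h2 e he
    rw [key w, ← h3 w, Finset.filter_insert]
    by_cases hw : w ∈ ({v, w'} : Finset U)
    · rw [if_pos hw, if_pos (by simpa using hw), Finset.card_insert_of_notMem
        (fun h => hm (Finset.mem_filter.1 h).1), Nat.odd_add_one]
    · rw [if_neg hw, if_neg (by simpa using hw)]

end SH4

theorem prfSH4 (h : S_SH3) : S_SH4 := by
  classical
  intro U _ D hS hH x y hxy hg hx hy
  obtain ⟨c, hcx, hc⟩ := hx
  obtain ⟨c', hcy, hc'⟩ := hy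
  set F : Finset (Finset U) := (Es D).filter (fun e => e.card = 2 ∧ deg D e = 1 ∧
    ∀ v ∈ e, Sh4R D x v) with hF
  have hRy : Sh4R D x y := by
    have hmem : ({y, c'} : Finset U) ∈ F := by
      refine h U D hS hH F (fun e he => ?_) ?_ ?_ {y, c'} (Finset.card_pair hcy.symm) hc'
      · have := (Finset.mem_filter.1 he).2
        exact ⟨this.1, this.2.1⟩
      · refine ⟨{x, c}, Finset.mem_filter.2 ⟨sh4_mem_Es (Finset.card_pair hcx.symm) (by omega),
          Finset.card_pair hcx.symm, hc, fun v hv => ?_⟩⟩
        rcases Finset.mem_insert.1 hv with rfl | hv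
        · exact sh4_R_self D v
        · rw [Finset.mem_singleton.1 hv]
          exact sh4_R_step D x x c (sh4_R_self D x) hcx.symm hc
      · intro e he e' h2 h1 hn
        obtain ⟨v, hv⟩ := hn
        rw [Finset.mem_inter] at hv
        have hRv : Sh4R D x v := (Finset.mem_filter.1 he).2.2.2 v hv.1
        refine Finset.mem_filter.2 ⟨sh4_mem_Es h2 (by omega), h2, h1, ?_⟩
        obtain ⟨a, b, hab, rfl⟩ := Finset.card_eq_two.1 h2
        have hv2 := hv.2
        rcases Finset.mem_insert.1 hv2 with rfl | hv2
        · intro w hw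
          rcases Finset.mem_insert.1 hw with rfl | hw
          · exact hRv
          · rw [Finset.mem_singleton.1 hw]
            exact sh4_R_step D x v b hRv hab h1
        · rw [Finset.mem_singleton] at hv2
          subst hv2
          intro w hw
          rcases Finset.mem_insert.1 hw with rfl | hw
          · exact sh4_R_step D x v w hRv hab.symm (by rw [Finset.pair_comm]; exact h1)
          · rw [Finset.mem_singleton.1 hw]
            exact hRv
    exact (Finset.mem_filter.1 hmem).2.2.2 y (Finset.mem_insert_self _ _)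
  obtain ⟨al, h2, h3⟩ := hRy
  have hgal : ({x, y} : Finset U) ∉ al := fun hm => by
    have := (h2 _ hm).2
    omega
  obtain ⟨p, hpD, hp⟩ := hH (insert {x, y} al) (fun e he => by
      rcases Finset.mem_insert.1 he with rfl | he
      · exact sh4_mem_Es (Finset.card_pair hxy) (by omega)
      · have := h2 e he
        exact sh4_mem_Es this.1 (by omega)) (fun w => by
      rw [Finset.filter_insert]
      by_cases hw : w ∈ ({x, y} : Finset U)
      · rw [if_pos hw, Finset.card_insert_of_notMem
          (fun h => hgal (Finset.mem_filter.1 h).1), Nat.even_add_one, Nat.not_even_iff_odd, h3 w]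
        rcases Finset.mem_insert.1 hw with rfl | hw
        · exact Or.inl ⟨rfl, hxy⟩
        · rw [Finset.mem_singleton.1 hw]
          exact Or.inr ⟨rfl, hxy.symm⟩
      · rw [if_neg hw, ← Nat.not_odd_iff_even, h3 w]
        intro h
        apply hw
        rcases h with h | h
        · simp [h.1]
        · simp [h.1])
  have hgE : ({x, y} : Finset U) ∈ Es D := sh4_mem_Es (Finset.card_pair hxy) (by omega)
  have hodd : Odd (deg p {x, y}) := (hp _ hgE).1 (Finset.mem_insert_self _ _)
  refine ⟨p, hpD, ?_, ?_, ?_⟩
  · rw [Finset.nonempty_iff_ne_empty]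
    rintro rfl
    simp [deg] at hodd
  · rintro rfl
    rw [hg] at hodd
    exact absurd hodd (by decide)
  · intro e he hne hd
    have hE : e ∈ Es D := sh4_mem_Es he (by omega)
    have hnot : ¬ Odd (deg p e) := by
      rw [← hp e hE]
      intro hm
      rcases Finset.mem_insert.1 hm with hm | hm
      · exact hne hm
      · have := (h2 e hm).2
        omega
    have hle : deg p e ≤ deg D e :=
      Finset.card_le_card (Finset.filter_subset_filter _ hpD)
    rw [Nat.not_odd_iff_even] at hnot
    obtain ⟨k, hk⟩ := hnot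
    omega

end Pool.Agent.MP552024
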