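import Pool.Agent.Work.MP_552024_lc.Two.StmtsA

/-!
Auxiliary lemmas for SH6 and SH7. MP_552024_lc, dimension at most three.
-/

set_option autoImplicit false

namespace Pool.Agent.MP552024

namespace SHaux

variable {U : Type} [DecidableEq U]

theorem deg_erase {D : Finset (Finset U)} {t : Finset U} (ht : t ∈ D) (e : Finset U) :
    deg D e = deg (D.erase t) e + (if e ⊆ t then 1 else 0) := by
  have h : D = insert t (D.erase t) := (Finset.insert_erase ht).symm
  unfold deg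
  conv_lhs => rw [h, Finset.filter_insert]
  by_cases he : e ⊆ t
  · rw [if_pos he, if_pos he, Finset.card_insert_of_notMem]
    simp
  · rw [if_neg he, if_neg he, add_zero]

theorem deg_mono {D D' : Finset (Finset U)} (h : D' ⊆ D) (e : Finset U) : deg D' e ≤ deg D e :=
  Finset.card_le_card (Finset.filter_subset_filter _ h)

theorem deg_pos {D : Finset (Finset U)} {t e : Finset U} (ht : t ∈ D) (he : e ⊆ t) :
    1 ≤ deg D e := by
  unfold deg
  rw [Nat.one_le_iff_ne_zero, Finset.card_ne_zero]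
  exact ⟨t, Finset.mem_filter.2 ⟨ht, he⟩⟩

theorem deg_zero {D : Finset (Finset U)} {e : Finset U} (h : ∀ t ∈ D, ¬ e ⊆ t) : deg D e = 0 := by
  unfold deg
  rw [Finset.card_eq_zero, Finset.filter_eq_empty_iff]
  exact fun {t} ht => h t ht

theorem uniq {D : Finset (Finset U)} {t t' e : Finset U} (h : deg D e = 1) (ht : t ∈ D)
    (he : e ⊆ t) (ht' : t' ∈ D) (he' : e ⊆ t') : t' = t :=
  Finset.card_le_one.1 h.le t' (Finset.mem_filter.2 ⟨ht', he'⟩) t (Finset.mem_filter.2 ⟨ht, he⟩)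

theorem other {D : Finset (Finset U)} {t e : Finset U} (h : deg D e = 2) (ht : t ∈ D)
    (he : e ⊆ t) : ∃ s ∈ D, s ≠ t ∧ e ⊆ s ∧ ∀ s' ∈ D, e ⊆ s' → s' = t ∨ s' = s := by
  obtain ⟨p, q, hpq, hf⟩ := Finset.card_eq_two.1 h
  have hmem : ∀ s, (s ∈ D ∧ e ⊆ s) ↔ (s = p ∨ s = q) := fun s => by
    rw [← Finset.mem_filter, hf]
    simp
  rcases (hmem t).1 ⟨ht, he⟩ with rfl | rfl
  · obtain ⟨h1, h2⟩ := (hmem q).2 (Or.inr rfl)
    exact ⟨q, h1, hpq.symm, h2, fun s' hs hs' => (hmem s').1 ⟨hs, hs'⟩⟩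
  · obtain ⟨h1, h2⟩ := (hmem p).2 (Or.inl rfl)
    exact ⟨p, h1, hpq, h2, fun s' hs hs' => ((hmem s').1 ⟨hs, hs'⟩).symm⟩

theorem pairs {a b y : U} {e : Finset U} (he : e ⊆ {a, b, y}) (hc : e.card = 2) :
    e = {a, b} ∨ e = {a, y} ∨ e = {b, y} := by
  obtain ⟨p, q, hpq, rfl⟩ := Finset.card_eq_two.1 hc
  have hp : p ∈ ({a, b, y} : Finset U) := he (by simp)
  have hq : q ∈ ({a, b, y} : Finset U) := he (by simp)
  simp only [Finset.mem_insert, Finset.mem_singleton] at hp hq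
  rcases hp with rfl | rfl | rfl <;> rcases hq with rfl | rfl | rfl
  · exact absurd rfl hpq
  · exact Or.inl rfl
  · exact Or.inr (Or.inl rfl)
  · exact Or.inl (Finset.pair_comm _ _)
  · exact absurd rfl hpq
  · exact Or.inr (Or.inr rfl)
  · exact Or.inr (Or.inl (Finset.pair_comm _ _))
  · exact Or.inr (Or.inr (Finset.pair_comm _ _))
  · exact absurd rfl hpq

theorem mem_Vs {D : Finset (Finset U)} {v : U} : v ∈ Vs D ↔ ∃ t ∈ D, v ∈ t := by
  simp [Vs]

theorem mem_Es {D : Finset (Finset U)} {e : Finset U} :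
    e ∈ Es D ↔ ∃ t ∈ D, e ⊆ t ∧ e.card = 2 := by
  simp [Es, Finset.mem_powersetCard]

end SHaux

end Pool.Agent.MP552024
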