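import Pool.Agent.Work.MP_552024_lc.Two.StmtsC
import Pool.Agent.Work.MP_552024_lc.Two.StmtsD

/-!
The arcs of a model in which a solution of `Sig2` is linear. MP_552024_lc (helper15).
-/

set_option autoImplicit false

namespace Pool.Agent.MP552024

/-- paths in a connected set of vertices -/
theorem X3_path {W : Type} (N : Cx W) (I : Set W) (a b : W) (ha : a ∈ I) (hb : b ∈ I)
    (hconn : ∀ A : Set W, A.Nonempty → (∀ i ∈ A, i ∈ I) →
      (∀ i ∈ A, ∀ j ∈ I, N.face {i, j} → j ∈ A) → ∀ j ∈ I, j ∈ A) :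
    ∃ (m : ℕ) (p : ℕ → W), (∀ j k, j ≤ m → k ≤ m → p j = p k → j = k) ∧ p 0 = a ∧ p m = b ∧
      (∀ k ≤ m, p k ∈ I) ∧ ∀ k < m, N.face {p k, p (k + 1)} := by
  classical
  let Gr : SimpleGraph W :=
    { Adj := fun i j => i ≠ j ∧ N.face {i, j} ∧ i ∈ I ∧ j ∈ I
      symm := ⟨fun i j h => ⟨h.1.symm, by rw [Set.pair_comm]; exact h.2.1, h.2.2.2, h.2.2.1⟩⟩
      loopless := ⟨fun i h => h.1 rfl⟩ }
  have hreach : Gr.Reachable a b := by
    refine (hconn {i | i ∈ I ∧ Gr.Reachable a i} ⟨a, ha, SimpleGraph.Reachable.refl a⟩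
      (fun i hi => hi.1) ?_ b hb).2
    rintro i ⟨hi, hr⟩ j hj hf
    refine ⟨hj, ?_⟩
    by_cases hij : i = j
    · rw [← hij]; exact hr
    · exact hr.trans (SimpleGraph.Adj.reachable (show Gr.Adj i j from ⟨hij, hf, hi, hj⟩))
  obtain ⟨w, hw⟩ := hreach.exists_isPath
  refine ⟨w.length, fun k => w.getVert k, ?_, w.getVert_zero, w.getVert_length, ?_, ?_⟩
  · intro j k hj hk h
    exact hw.getVert_injOn hj hk h
  · intro k hk
    rcases Nat.lt_or_ge k w.length with h | h
    · exact (w.adj_getVert_succ h).2.2.1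
    · have : k = w.length := le_antisymm hk h
      simp only [this]
      rw [w.getVert_length]
      exact hb
  · intro k hk
    exact (w.adj_getVert_succ hk).2.1

section

variable {H : Type} [AddCommGroup H] [Lattice H] [IsOrderedAddMonoid H]

omit [IsOrderedAddMonoid H] in
/-- an element vanishing exactly on the cone of `{i, j}` -/
theorem X3_edge (N : Mdl H) (i j : N.V) : ∃ e : H, 0 ≤ e ∧
    ∀ z ∈ N.Δ.Z, (N.ev e z = 0 ↔ ∀ l, l ≠ i → l ≠ j → z l = 0) := by
  classical
  obtain ⟨e, he⟩ := N.exists_lin (fun l => if l = i ∨ l = j then 0 else 1)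
  refine ⟨e, he.nonneg' (fun l => by split_ifs <;> norm_num), fun z hz => ?_⟩
  rw [he z hz, Finset.sum_eq_zero_iff_of_nonneg]
  · constructor
    · intro h l h1 h2
      have := h l (Finset.mem_univ l)
      simpa [h1, h2] using this
    · intro h l _
      by_cases h1 : l = i
      · simp [h1]
      by_cases h2 : l = j
      · simp [h2]
      rw [h l h1 h2, mul_zero]
  · intro l _
    refine mul_nonneg ?_ (hz.1 l)
    dsimp only
    split_ifs <;> norm_num

/-- an element vanishing exactly on a path -/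
theorem X3_r (N : Mdl H) (p : ℕ → N.V) (m : ℕ) : ∃ r : H, 0 ≤ r ∧
    ∀ z ∈ N.Δ.Z, (N.ev r z = 0 ↔ ∃ k < m + 1, ∀ l, l ≠ p k → l ≠ p (k + 1) → z l = 0) := by
  induction m with
  | zero =>
    obtain ⟨e, he, h⟩ := X3_edge N (p 0) (p 1)
    refine ⟨e, he, fun z hz => ?_⟩
    rw [h z hz]
    constructor
    · intro h'; exact ⟨0, by norm_num, h'⟩
    · rintro ⟨k, hk, h'⟩
      have : k = 0 := by omega
      subst this
      exact h'
  | succ m ih =>
    obtain ⟨r, hr, h'⟩ := ih
    obtain ⟨e, he, h⟩ := X3_edge N (p (m + 1)) (p (m + 1 + 1))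
    refine ⟨r ⊓ e, le_inf hr he, fun z hz => ?_⟩
    have h1 := N.chart.nonneg_iff.1 hr z hz
    have h2 := N.chart.nonneg_iff.1 he z hz
    rw [N.chart.inf r e hz]
    have h3 : min (N.ev r z) (N.ev e z) = 0 ↔ N.ev r z = 0 ∨ N.ev e z = 0 := by
      constructor
      · intro h3
        rcases min_choice (N.ev r z) (N.ev e z) with h4 | h4
        · left; rw [← h4]; exact h3
        · right; rw [← h4]; exact h3
      · rintro (h3 | h3)
        · rw [h3]; exact min_eq_left h2
        · rw [h3]; exact min_eq_right h1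
    rw [h3, h' z hz, h z hz]
    constructor
    · rintro (⟨k, hk, h4⟩ | h4)
      · exact ⟨k, by omega, h4⟩
      · exact ⟨m + 1, by omega, h4⟩
    · rintro ⟨k, hk, h4⟩
      rcases Nat.lt_or_ge k (m + 1) with h5 | h5
      · exact Or.inl ⟨k, h5, h4⟩
      · have : k = m + 1 := by omega
        subst this
        exact Or.inr h4

/-- the zero set of such an element is connected -/
theorem X3_conn (hi : S_inc) (hs : S_seg) (N : Mdl H) (p : ℕ → N.V) (m : ℕ)
    (hp : ∀ k < m + 1, N.Δ.face {p k, p (k + 1)}) (r : H) (hr : 0 ≤ r)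
    (hrz : ∀ z ∈ N.Δ.Z, (N.ev r z = 0 ↔ ∃ k < m + 1, ∀ l, l ≠ p k → l ≠ p (k + 1) → z l = 0)) :
    Conn r := by
  classical
  -- one side
  have key : ∀ x y : H, 0 ≤ x → 0 ≤ y → NZ (r + x + y) → Inc (x ⊓ y) r →
      N.ev x (pt (p 0)) = 0 → Inc x r := by
    intro x y hx hy hnz hinc hx0
    have hpt : ∀ i : N.V, ∃ l, (pt i : N.V → ℝ) l ≠ 0 := fun i => ⟨i, by rw [pt_self]; norm_num⟩
    -- move along an edge
    have hseg : ∀ k < m + 1, ∀ z z' : N.V → ℝ, (∀ l, 0 ≤ z l) → (∀ l, 0 ≤ z' l) →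
        (∀ l, l ≠ p k → l ≠ p (k + 1) → z l = 0) → (∀ l, l ≠ p k → l ≠ p (k + 1) → z' l = 0) →
        (∃ l, z l ≠ 0) → (∃ l, z' l ≠ 0) → N.ev x z = 0 → N.ev x z' = 0 := by
      intro k hk z z' h1 h2 h3 h4 h5 h6 h7
      refine hs H N r x y hr hx hy hnz hinc z z' h5 h6 (fun ρ h8 h9 => ?_) h7
      have hsup : ∀ l, l ≠ p k → l ≠ p (k + 1) → (1 - ρ) * z l + ρ * z' l = 0 := by
        intro l hl1 hl2
        rw [h3 l hl1 hl2, h4 l hl1 hl2]; ring
      have hmem : (fun l => (1 - ρ) * z l + ρ * z' l) ∈ N.Δ.Z := by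
        refine Cx.mem_Z (fun l => add_nonneg (mul_nonneg (by linarith) (h1 l))
          (mul_nonneg h8 (h2 l))) _ (hp k hk) (fun l hl => ?_)
        by_contra hcon
        simp only [Set.mem_insert_iff, Set.mem_singleton_iff, not_or] at hcon
        exact hl (hsup l hcon.1 hcon.2)
      exact ⟨hmem, (hrz _ hmem).2 ⟨k, hk, hsup⟩⟩
    have hall : ∀ k ≤ m + 1, N.ev x (pt (p k)) = 0 := by
      intro k
      induction k with
      | zero => exact fun _ => hx0
      | succ k ih =>
        intro hk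
        refine hseg k (by omega) (pt (p k)) (pt (p (k + 1))) (pt_nonneg _) (pt_nonneg _)
          (fun l h1 _ => pt_ne h1) (fun l _ h2 => pt_ne h2) (hpt _) (hpt _) (ih (by omega))
    refine (hi H N x r hx hr).2 (fun z hz hz0 => ?_)
    obtain ⟨k, hk, hsup⟩ := (hrz z hz).1 hz0
    by_cases h0 : ∃ l, z l ≠ 0
    · exact hseg k hk (pt (p k)) z (pt_nonneg _) hz.1 (fun l h1 _ => pt_ne h1) hsup (hpt _) h0
        (hall k (by omega))
    · push Not at h0
      have h1 : z = fun i => (0 : ℝ) * z i := by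
        funext i
        rw [h0 i, mul_zero]
      rw [h1, N.chart.hom x hz le_rfl, zero_mul]
  intro x y hx hy hnz hinc
  by_cases hx0 : N.ev x (pt (p 0)) = 0
  · exact Or.inl (key x y hx hy hnz hinc hx0)
  · right
    have hnz' : NZ (r + y + x) := by rw [add_right_comm]; exact hnz
    refine key y x hy hx hnz' (by rw [inf_comm]; exact hinc) ?_
    have hm := (hi H N (x ⊓ y) r (le_inf hx hy) hr).1 hinc (pt (p 0)) (Cx.pt_mem _)
      ((hrz _ (Cx.pt_mem _)).2 ⟨0, by omega, fun l h1 _ => pt_ne h1⟩)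
    rw [N.chart.inf x y (Cx.pt_mem _)] at hm
    rcases min_choice (N.ev x (pt (p 0))) (N.ev y (pt (p 0))) with h4 | h4
    · exact absurd (h4.symm.trans hm) hx0
    · exact h4.symm.trans hm

end

theorem prfX3 (h1 : S_X1) (h2 : S_X2) (hc : S_connL) (hi : S_inc) (_ : S_incL) (_ : S_nzZ)
    (hs : S_seg) : S_X3 := by
  classical
  intro H _ _ _ V _ K N s c hS u v a b huv hface hla hlb
  have hnn : ∀ w i, 0 ≤ c w i := fun w i => (hS.lin w).nonneg (hS.sig.pos w) i
  have hne : ∀ i, (lab c i).Nonempty := (h1 H V K N s c hS).1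
  have hlin : ∀ w, N.Lin (oth s w) (fun i => (∑ x, c x i) - c w i) := fun w =>
    (Mdl.Lin.sum Finset.univ hS.lin).sub (hS.lin w)
  have heq : ∀ w i, (∑ x, c x i) - c w i = ∑ x ∈ Finset.univ.erase w, c x i := by
    intro w i
    rw [← Finset.add_sum_erase _ _ (Finset.mem_univ w)]
    ring
  have hnn1 : ∀ w i, 0 ≤ (∑ x, c x i) - c w i := by
    intro w i
    rw [heq w i]
    exact Finset.sum_nonneg (fun x _ => hnn x i)
  have hoth : ∀ w, 0 ≤ oth s w := fun w => (hlin w).nonneg' (hnn1 w)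
  have keyw : ∀ w d, lab c d = {w} → ∀ i, (∑ x, c x i) - c w i = 0 → i = d := by
    intro w d hd i hi0
    rw [heq w i, Finset.sum_eq_zero_iff_of_nonneg (fun x _ => hnn x i)] at hi0
    have hsub : lab c i = {w} := by
      obtain ⟨y, hy⟩ := hne i
      have hall : ∀ x ∈ lab c i, x = w := by
        intro x hx
        by_contra hcon
        have h3 := hi0 x (Finset.mem_erase.2 ⟨hcon, Finset.mem_univ x⟩)
        have h4 : 0 < c x i := hx
        omega
      ext x
      constructor
      · exact fun hx => hall x hx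
      · intro hx
        have : x = y := by
          rw [Set.mem_singleton_iff] at hx
          rw [hx, hall y hy]
        rw [this]; exact hy
    exact (h2 H V K N s c hS w).unique hsub hd
  have hlin0 : N.Lin (oth2 s u v) (fun i => (∑ x, c x i) - c u i - c v i) := (hlin u).sub (hS.lin v)
  have heq0 : ∀ i, (∑ x, c x i) - c u i - c v i = ∑ x ∈ (Finset.univ.erase u).erase v, c x i := by
    intro i
    rw [heq u i, ← Finset.add_sum_erase _ _ (Finset.mem_erase.2 ⟨huv.symm, Finset.mem_univ v⟩)]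
    ring
  have hnn0 : ∀ i, 0 ≤ (∑ x, c x i) - c u i - c v i := by
    intro i
    rw [heq0 i]
    exact Finset.sum_nonneg (fun x _ => hnn x i)
  have hq0 : 0 ≤ oth2 s u v := hlin0.nonneg' hnn0
  have key0 : ∀ i, (∑ x, c x i) - c u i - c v i = 0 ↔ lab c i ⊆ {u, v} := by
    intro i
    rw [heq0 i, Finset.sum_eq_zero_iff_of_nonneg (fun x _ => hnn x i)]
    constructor
    · intro h x hx
      by_contra hcon
      simp only [Set.mem_insert_iff, Set.mem_singleton_iff, not_or] at hcon
      have h3 := h x (Finset.mem_erase.2 ⟨hcon.2, Finset.mem_erase.2 ⟨hcon.1, Finset.mem_univ x⟩⟩)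
      have h4 : 0 < c x i := hx
      omega
    · intro h x hx
      by_contra hcon
      have h4 : x ∈ lab c i := lt_of_le_of_ne (hnn x i) (Ne.symm hcon)
      have h5 := h h4
      simp only [Set.mem_insert_iff, Set.mem_singleton_iff] at h5
      rw [Finset.mem_erase, Finset.mem_erase] at hx
      rcases h5 with h5 | h5
      · exact hx.2.1 h5
      · exact hx.1 h5
  set I : Set N.V := {i | lab c i ⊆ {u, v}} with hI
  have haI : a ∈ I := by
    rw [hI, Set.mem_ofPred_eq, hla]
    intro x hx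
    left; exact hx
  have hbI : b ∈ I := by
    rw [hI, Set.mem_ofPred_eq, hlb]
    intro x hx
    right; exact hx
  have hab : a ≠ b := by
    intro h
    rw [h, hlb] at hla
    exact huv (Set.singleton_injective hla).symm
  have hconn : ∀ A : Set N.V, A.Nonempty → (∀ i ∈ A, i ∈ I) →
      (∀ i ∈ A, ∀ j ∈ I, N.Δ.face {i, j} → j ∈ A) → ∀ j ∈ I, j ∈ A := by
    intro A hA hAI hAc j hj
    refine (hc H N _ _ hlin0 hq0).1 (hS.sig.arcC u v huv hface) A hA
      (fun i hi => (key0 i).2 (hAI i hi)) (fun i hi j hj hf => hAc i hi j ((key0 j).1 hj) hf) j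
      ((key0 j).2 hj)
  obtain ⟨m, p, hinj, hp0, hpm, hpI, hpf⟩ := X3_path N.Δ I a b haI hbI hconn
  have hm : m ≠ 0 := by
    intro h
    rw [h, hp0] at hpm
    exact hab hpm
  obtain ⟨m', rfl⟩ := Nat.exists_eq_succ_of_ne_zero hm
  obtain ⟨r, hr, hrz⟩ := X3_r N p m'
  have hr_conn : Conn r := X3_conn hi hs N p m' hpf r hr hrz
  -- zero sets of linear elements
  have hz0 : ∀ (g : H) (d : N.V → ℤ), N.Lin g d → (∀ i, 0 ≤ d i) → ∀ z ∈ N.Δ.Z, N.ev g z = 0 →
      ∀ l, z l ≠ 0 → d l = 0 := by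
    intro g d hg hd z hz hgz l hl
    rw [hg z hz, Finset.sum_eq_zero_iff_of_nonneg
      (fun i _ => mul_nonneg (by exact_mod_cast hd i) (hz.1 i))] at hgz
    have := hgz l (Finset.mem_univ l)
    rcases mul_eq_zero.1 this with h | h
    · exact_mod_cast h
    · exact absurd h hl
  have hinc1 : Inc (oth2 s u v) r := by
    refine (hi H N _ _ hq0 hr).2 (fun z hz hrz0 => ?_)
    obtain ⟨k, hk, hsup⟩ := (hrz z hz).1 hrz0
    rw [hlin0 z hz]
    refine Finset.sum_eq_zero (fun l _ => ?_)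
    dsimp only
    by_cases h3 : l = p k
    · rw [(key0 l).2 (by rw [h3]; exact hpI k (by omega))]; simp
    by_cases h4 : l = p (k + 1)
    · rw [(key0 l).2 (by rw [h4]; exact hpI (k + 1) (by omega))]; simp
    rw [hsup l h3 h4, mul_zero]
  have hinc2 : Inc r (oth s u) := by
    refine (hi H N _ _ hr (hoth u)).2 (fun z hz hz0' => ?_)
    refine (hrz z hz).2 ⟨0, by omega, fun l hl _ => ?_⟩
    by_contra hcon
    exact hl (by rw [hp0]; exact keyw u a hla l (hz0 _ _ (hlin u) (hnn1 u) z hz hz0' l hcon))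
  have hinc3 : Inc r (oth s v) := by
    refine (hi H N _ _ hr (hoth v)).2 (fun z hz hz0' => ?_)
    refine (hrz z hz).2 ⟨m', by omega, fun l _ hl => ?_⟩
    by_contra hcon
    exact hl (by rw [show m' + 1 = m'.succ from rfl, hpm]
                 exact keyw v b hlb l (hz0 _ _ (hlin v) (hnn1 v) z hz hz0' l hcon))
  have hinc4 : Inc r (oth2 s u v) := hS.sig.arcM u v huv hface r hr hr_conn hinc1 hinc2 hinc3
  -- faces inside `I`
  have hfaces : ∀ τ : Set N.V, N.Δ.face τ → (∀ i ∈ τ, i ∈ I) →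
      ∃ k < m' + 1, ∀ i ∈ τ, i = p k ∨ i = p (k + 1) := by
    intro τ hτ hτI
    have hmem : (fun i => if i ∈ τ then (1 : ℝ) else 0) ∈ N.Δ.Z := by
      refine Cx.mem_Z (fun i => ?_) τ hτ (fun i hi => ?_)
      · split_ifs <;> norm_num
      · by_contra hcon
        exact hi (by simp [hcon])
    have h3 := (hi H N _ _ hr hq0).1 hinc4 _ hmem (by
      rw [hlin0 _ hmem]
      refine Finset.sum_eq_zero (fun l _ => ?_)
      dsimp only
      by_cases hl : l ∈ τ
      · rw [(key0 l).2 (hτI l hl)]; simp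
      · simp [hl])
    obtain ⟨k, hk, h4⟩ := (hrz _ hmem).1 h3
    refine ⟨k, hk, fun i hi => ?_⟩
    by_contra hcon
    rw [not_or] at hcon
    have := h4 i hcon.1 hcon.2
    simp [hi] at this
  refine ⟨⟨m' + 1, p, hinj, hp0, hpm, ?_, ?_⟩, ?_⟩
  · intro i
    constructor
    · intro hiI
      obtain ⟨k, hk, h3⟩ := hfaces {i} (N.Δ.vert i) (fun j hj => by
        rw [Set.mem_singleton_iff] at hj
        rw [hj]; exact hiI)
      rcases h3 i rfl with h4 | h4
      · exact ⟨k, by omega, h4.symm⟩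
      · exact ⟨k + 1, by omega, h4.symm⟩
    · rintro ⟨k, hk, rfl⟩
      exact hpI k hk
  · intro j k hj hk
    constructor
    · intro hf
      obtain ⟨l, hl, h3⟩ := hfaces {p j, p k} hf (fun i hi => by
        rcases hi with hi | hi
        · rw [hi]; exact hpI j hj
        · rw [Set.mem_singleton_iff] at hi
          rw [hi]; exact hpI k hk)
      have h4 : j = l ∨ j = l + 1 := by
        rcases h3 (p j) (Or.inl rfl) with h5 | h5
        · exact Or.inl (hinj _ _ hj (by omega) h5)
        · exact Or.inr (hinj _ _ hj (by omega) h5)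
      have h5 : k = l ∨ k = l + 1 := by
        rcases h3 (p k) (Or.inr rfl) with h5 | h5
        · exact Or.inl (hinj _ _ hk (by omega) h5)
        · exact Or.inr (hinj _ _ hk (by omega) h5)
      omega
    · rintro (rfl | rfl | rfl)
      · rw [Set.pair_eq_singleton]; exact N.Δ.vert _
      · rw [Set.pair_comm]; exact hpf k (by omega)
      · exact hpf j (by omega)
  · intro i j k hij hik hjk hf hsub
    obtain ⟨l, hl, h3⟩ := hfaces {i, j, k} hf (fun x hx => by
      have hx' : x = i ∨ x = j ∨ x = k := by simpa using hx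
      rcases hx' with rfl | rfl | rfl
      · exact fun y hy => hsub (Or.inl (Or.inl hy))
      · exact fun y hy => hsub (Or.inl (Or.inr hy))
      · exact fun y hy => hsub (Or.inr hy))
    have h4 := h3 i (by simp)
    have h5 := h3 j (by simp)
    have h6 := h3 k (by simp)
    rcases h4 with h4 | h4 <;> rcases h5 with h5 | h5 <;> rcases h6 with h6 | h6
    · exact hij (h4.trans h5.symm)
    · exact hij (h4.trans h5.symm)
    · exact hik (h4.trans h6.symm)
    · exact hjk (h5.trans h6.symm)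
    · exact hjk (h5.trans h6.symm)
    · exact hik (h4.trans h6.symm)
    · exact hij (h4.trans h5.symm)
    · exact hij (h4.trans h5.symm)

end Pool.Agent.MP552024
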