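import Pool.Agent.Work.MP_552024_lc.Two.StmtsB
import Pool.Agent.Work.MP_552024_lc.Two.StmtsC
import Pool.Agent.Work.MP_552024_lc.Two.StmtsD

/-!
Common part of X8 and X9: an edge in the zero set of `q` and two triangles on it.
MP_552024_lc, dimension at most three.
-/

set_option autoImplicit false

namespace Pool.Agent.MP552024

section

variable {H : Type} [AddCommGroup H] [Lattice H]

/-- positivity of a linear element -/
theorem x89_pos {M : Mdl H} {g : H} {c : M.V → ℤ} (hg : M.Lin g c) (h0 : ∀ i, 0 ≤ c i)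
    {z : M.V → ℝ} (hz : z ∈ M.Δ.Z) : 0 < M.ev g z ↔ ∃ i, z i ≠ 0 ∧ 0 < c i := by
  rw [hg z hz]
  constructor
  · intro h
    by_contra hc
    push Not at hc
    have h1 : ∑ i, (c i : ℝ) * z i = 0 := by
      refine Finset.sum_eq_zero fun i _ => ?_
      by_cases h2 : z i = 0
      · rw [h2, mul_zero]
      · have h3 : c i = 0 := le_antisymm (hc i h2) (h0 i)
        rw [h3]
        simp
    linarith
  · rintro ⟨i, h1, h2⟩
    refine Finset.sum_pos' (fun j _ => mul_nonneg (by exact_mod_cast h0 j) (hz.1 j))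
      ⟨i, Finset.mem_univ _, mul_pos (by exact_mod_cast h2) (lt_of_le_of_ne (hz.1 i) (Ne.symm h1))⟩

theorem x89_mem_uni {V W : Type} {S : W → Set V} {s : Set W} {x : V} :
    x ∈ uni S s ↔ ∃ i ∈ s, x ∈ S i := by
  simp [uni]

/-- the refinement map and carriers -/
theorem x89_supp {N N' : Mdl H} (href : Ref N N') {h : N.V → H} (hh : Hats2 N h) :
    ∃ T : (N'.V → ℝ) → (N.V → ℝ), (∀ z ∈ N'.Δ.Z, T z ∈ N.Δ.Z) ∧
      (∀ g : H, ∀ z ∈ N'.Δ.Z, N'.ev g z = N.ev g (T z)) ∧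
      ∀ z ∈ N'.Δ.Z, {l | T z l ≠ 0} = uni (carr N' h) {i | z i ≠ 0} := by
  classical
  obtain ⟨T, h1, -, h3⟩ := href.map
  refine ⟨T, h1, h3, fun z hz => ?_⟩
  have hlin : ∀ l, N.Lin (h l) (fun i => if i = l then 1 else 0) := by
    intro l z hz
    rw [hh l z hz]
    simp
  ext l
  obtain ⟨d, hd⟩ := href.lin (hlin l)
  have hn : 0 ≤ h l := N.chart.nonneg_iff.2 fun z hz => by rw [hh l z hz]; exact hz.1 l
  have hdn : ∀ i, 0 ≤ d i := hd.nonneg hn
  have e1 : T z l = N'.ev (h l) z := by rw [h3 _ z hz, hh l _ (h1 z hz)]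
  have e2 : 0 ≤ T z l := (h1 z hz).1 l
  rw [x89_mem_uni]
  show T z l ≠ 0 ↔ ∃ i, z i ≠ 0 ∧ N'.ev (h l) (pt i) ≠ 0
  have e3 : T z l ≠ 0 ↔ 0 < N'.ev (h l) z := by
    rw [← e1]
    exact ⟨fun h => lt_of_le_of_ne e2 (Ne.symm h), fun h => h.ne'⟩
  rw [e3, x89_pos hd hdn hz]
  refine exists_congr fun i => and_congr_right fun _ => ?_
  rw [hd.pt]
  constructor
  · intro h
    exact_mod_cast h.ne'
  · intro h
    exact lt_of_le_of_ne (hdn i) (fun h' => h (by rw [← h']; simp))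

theorem x89_disj [IsOrderedAddMonoid H] {M : Mdl H} {a b : H} {da db : M.V → ℤ}
    (ha : M.Lin a da) (hb : M.Lin b db) (ha0 : 0 ≤ a) (hb0 : 0 ≤ b) (hab : a ⊓ b = 0)
    {k l : M.V} (hf : M.Δ.face {k, l}) (hk : 0 < da k) (hl : 0 < db l) : False := by
  have hz := Cx.pair_mem hf (zero_le_one (α := ℝ)) (zero_le_one (α := ℝ))
  have e1 := M.chart.inf a b hz
  rw [hab, M.chart.zero hz] at e1
  have h1 : 0 < M.ev a (fun m => 1 * pt k m + 1 * pt l m) := by
    refine (x89_pos ha (ha.nonneg ha0) hz).2 ⟨k, ?_, hk⟩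
    have := pt_nonneg l k
    rw [pt_self]
    intro h
    linarith
  have h2 : 0 < M.ev b (fun m => 1 * pt k m + 1 * pt l m) := by
    refine (x89_pos hb (hb.nonneg hb0) hz).2 ⟨l, ?_, hl⟩
    have := pt_nonneg k l
    rw [pt_self]
    intro h
    linarith
  have h3 := lt_min h1 h2
  rw [← e1] at h3
  exact lt_irrefl _ h3

/-- an edge in the zero set of `q` and the triangles in the supports of `a`, `b` on it -/
theorem x89_main [IsOrderedAddMonoid H] (hf : S_clF) (he : S_ctE) (hl : S_linall) (hg : S_GR)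
    {N : Mdl H} (hd : N.Δ.Dim2) {a b q : H} (ha : 0 ≤ a) (hb : 0 ≤ b) (hq : 0 ≤ q)
    (hab : a ⊓ b = 0) (hconn : Conn q) (htwo : Two q) (hca : Cl a q) (hcb : Cl b q) :
    ∃ (W : Type) (D : Cx W) (C : W → Set N.V), Good N.Δ D C ∧ ∃ i j ka kb : W,
      i ≠ j ∧ ka ≠ i ∧ ka ≠ j ∧ kb ≠ i ∧ kb ≠ j ∧ ka ≠ kb ∧ D.face {i, j} ∧
      D.face {i, j, ka} ∧ D.face {i, j, kb} ∧
      (∃ z ∈ N.Δ.Z, {l | z l ≠ 0} = C i ∧ N.ev q z = 0) ∧
      (∃ z ∈ N.Δ.Z, {l | z l ≠ 0} = C j ∧ N.ev q z = 0) ∧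
      (∃ z ∈ N.Δ.Z, {l | z l ≠ 0} = C i ∪ C j ∪ C ka ∧ 0 < N.ev a z) ∧
      (∃ z ∈ N.Δ.Z, {l | z l ≠ 0} = C i ∪ C j ∪ C kb ∧ 0 < N.ev b z) := by
  classical
  obtain ⟨N', href, hlin⟩ := hl H N (Fin 3) ![a, b, q]
  obtain ⟨da, hda⟩ := hlin 0
  obtain ⟨db, hdb⟩ := hlin 1
  obtain ⟨cq, hcq⟩ := hlin 2
  simp only [Matrix.cons_val_zero, Matrix.cons_val_one, Matrix.cons_val] at hda hdb hcq
  choose h hh using fun i => N.chart.hat i
  have hgood := hg H N h hh hd N' href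
  obtain ⟨T, hT1, hT2, hT3⟩ := x89_supp href hh
  obtain ⟨⟨i, hi⟩, he2⟩ := he H N' q cq hcq hq hconn htwo
  obtain ⟨j, hji, hj, hfij⟩ := he2 i hi
  have hs0 : ∀ x ∈ ({i, j} : Set N'.V), cq x = 0 := by
    rintro x (rfl | rfl)
    · exact hi
    · exact hj
  obtain ⟨ka, hka, hka0⟩ := (hf H N' a q da cq hda hcq ha hq).1 hca {i, j} hfij ⟨i, by simp⟩ hs0
  obtain ⟨kb, hkb, hkb0⟩ := (hf H N' b q db cq hdb hcq hb hq).1 hcb {i, j} hfij ⟨i, by simp⟩ hs0
  have hdis : ∀ k l, N'.Δ.face {k, l} → 0 < da k → 0 < db l → False := fun k l hf hk hl' =>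
    x89_disj hda hdb ha hb hab hf hk hl'
  have h1 : ka ≠ i := by
    rintro rfl
    exact hdis ka kb (N'.Δ.down _ _ (by
      rintro x (rfl | rfl) <;> simp) hkb) hka0 hkb0
  have h2 : ka ≠ j := by
    rintro rfl
    exact hdis ka kb (N'.Δ.down _ _ (by
      rintro x (rfl | rfl) <;> simp) hkb) hka0 hkb0
  have h3 : kb ≠ i := by
    rintro rfl
    exact hdis ka kb (N'.Δ.down _ _ (by
      rintro x (rfl | rfl) <;> simp) hka) hka0 hkb0
  have h4 : kb ≠ j := by
    rintro rfl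
    exact hdis ka kb (N'.Δ.down _ _ (by
      rintro x (rfl | rfl) <;> simp) hka) hka0 hkb0
  have h5 : ka ≠ kb := by
    rintro rfl
    exact hdis ka ka (N'.Δ.down _ _ (by
      rintro x (rfl | rfl) <;> simp) hka) hka0 hkb0
  have hfa : N'.Δ.face {i, j, ka} := by
    have e : (insert ka {i, j} : Set N'.V) = {i, j, ka} := by
      ext x
      simp only [Set.mem_insert_iff, Set.mem_singleton_iff]
      tauto
    rwa [e] at hka
  have hfb : N'.Δ.face {i, j, kb} := by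
    have e : (insert kb {i, j} : Set N'.V) = {i, j, kb} := by
      ext x
      simp only [Set.mem_insert_iff, Set.mem_singleton_iff]
      tauto
    rwa [e] at hkb
  have hvz : ∀ x, cq x = 0 → ∃ z ∈ N.Δ.Z, {l | z l ≠ 0} = carr N' h x ∧ N.ev q z = 0 := by
    intro x hx
    have hz : pt x ∈ N'.Δ.Z := Cx.pt_mem x
    refine ⟨T (pt x), hT1 _ hz, ?_, ?_⟩
    · rw [hT3 _ hz]
      ext l
      rw [x89_mem_uni]
      constructor
      · rintro ⟨y, hy, hl'⟩
        have : y = x := by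
          by_contra hc
          exact hy (pt_ne hc)
        rwa [this] at hl'
      · intro hl'
        exact ⟨x, by show pt x x ≠ 0; rw [pt_self]; exact one_ne_zero, hl'⟩
    · rw [← hT2 _ _ hz, hcq.pt, hx]
      simp
  have htz : ∀ (g : H) (d : N'.V → ℤ), N'.Lin g d → 0 ≤ g → ∀ k, k ≠ i → k ≠ j →
      N'.Δ.face {i, j, k} → 0 < d k → ∃ z ∈ N.Δ.Z,
      {l | z l ≠ 0} = carr N' h i ∪ carr N' h j ∪ carr N' h k ∧ 0 < N.ev g z := by
    intro g d hgd hg0 k hki hkj hfk hdk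
    have hz : (fun m => pt i m + pt j m + pt k m) ∈ N'.Δ.Z := by
      refine Cx.mem_Z (fun m => add_nonneg (add_nonneg (pt_nonneg _ _) (pt_nonneg _ _))
        (pt_nonneg _ _)) _ hfk (fun m hm => ?_)
      by_contra hc
      simp only [Set.mem_insert_iff, Set.mem_singleton_iff, not_or] at hc
      apply hm
      rw [pt_ne hc.1, pt_ne hc.2.1, pt_ne hc.2.2]
      ring
    have hsup : {m | (fun m => pt i m + pt j m + pt k m) m ≠ 0} = {i, j, k} := by
      ext m
      constructor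
      · intro hm
        by_contra hc
        simp only [Set.mem_insert_iff, Set.mem_singleton_iff, not_or] at hc
        apply hm
        show pt i m + pt j m + pt k m = 0
        rw [pt_ne hc.1, pt_ne hc.2.1, pt_ne hc.2.2]
        ring
      · intro hm
        have e1 := pt_nonneg i m
        have e2 := pt_nonneg j m
        have e3 := pt_nonneg k m
        show pt i m + pt j m + pt k m ≠ 0
        rcases hm with rfl | rfl | rfl
        · rw [pt_self]; intro h; linarith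
        · rw [pt_self]; intro h; linarith
        · rw [pt_self]; intro h; linarith
    refine ⟨T (fun m => pt i m + pt j m + pt k m), hT1 _ hz, ?_, ?_⟩
    · rw [hT3 _ hz, hsup]
      ext l
      rw [x89_mem_uni]
      simp only [Set.mem_insert_iff, Set.mem_singleton_iff, exists_eq_or_imp, exists_eq_left,
        Set.mem_union]
      tauto
    · rw [← hT2 _ _ hz]
      refine (x89_pos hgd (hgd.nonneg hg0) hz).2 ⟨k, ?_, hdk⟩
      have : k ∈ {m | (fun m => pt i m + pt j m + pt k m) m ≠ 0} := by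
        rw [hsup]
        simp
      exact this
  exact ⟨N'.V, N'.Δ, carr N' h, hgood, i, j, ka, kb, hji.symm, h1, h2, h3, h4, h5, hfij, hfa, hfb,
    hvz i hi, hvz j hj, htz a da hda ha ka h1 h2 hfa hka0, htz b db hdb hb kb h3 h4 hfb hkb0⟩

/-- positivity of the product of three elements -/
theorem x89_w0 [IsOrderedAddMonoid H] {V : Type} [Fintype V] {K : Cx V} {N : Mdl H} {s : V → H}
    {c : V → N.V → ℤ} (hs : SigL2 K N s c) (u v w : V) {z : N.V → ℝ} (hz : z ∈ N.Δ.Z) :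
    0 < N.ev (s u ⊓ s v ⊓ s w) z ↔ {u, v, w} ⊆ uni (lab c) {l | z l ≠ 0} := by
  have h1 : ∀ x, 0 < N.ev (s x) z ↔ x ∈ uni (lab c) {l | z l ≠ 0} := by
    intro x
    rw [x89_pos (hs.lin x) ((hs.lin x).nonneg (hs.sig.pos x)) hz, x89_mem_uni]
    rfl
  rw [N.chart.inf _ _ hz, N.chart.inf _ _ hz, lt_min_iff, lt_min_iff, h1, h1, h1]
  constructor
  · rintro ⟨⟨h2, h3⟩, h4⟩ x (rfl | rfl | rfl)
    · exact h2
    · exact h3
    · exact h4
  · intro h
    exact ⟨⟨h (by simp), h (by simp)⟩, h (by simp)⟩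

theorem x89_w0_nonneg [IsOrderedAddMonoid H] {V : Type} [Fintype V] {K : Cx V} {N : Mdl H}
    {s : V → H} {c : V → N.V → ℤ} (hs : SigL2 K N s c) (u v w : V) :
    0 ≤ s u ⊓ s v ⊓ s w := le_inf (le_inf (hs.sig.pos u) (hs.sig.pos v)) (hs.sig.pos w)

end

end Pool.Agent.MP552024
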